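import Pool.Agent.Lib.MP_343fe0_pr.Core

set_option autoImplicit false

/-! Nonnegative elements of the monoid algebra, mass, affinity, words. -/

namespace Pool.Agent.Lib.MP_343fe0_pr

open Finset

lemma ind_nonneg (p : Prop) : 0 ≤ ind p := by
  unfold ind; split_ifs <;> norm_num
lemma ind_le_one (p : Prop) : ind p ≤ 1 := by
  unfold ind; split_ifs <;> norm_num
lemma ind_true {p : Prop} (h : p) : ind p = 1 := by
  unfold ind; rw [if_pos h]
lemma ind_false {p : Prop} (h : ¬ p) : ind p = 0 := by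
  unfold ind; rw [if_neg h]
lemma ind_and (p q : Prop) : ind (p ∧ q) = ind p * ind q := by
  by_cases hp : p <;> by_cases hq : q
  · rw [ind_true hp, ind_true hq, ind_true ⟨hp, hq⟩, one_mul]
  · rw [ind_false hq, ind_false (fun h => hq h.2), mul_zero]
  · rw [ind_false hp, ind_false (fun h => hp h.1), zero_mul]
  · rw [ind_false hp, ind_false (fun h => hp h.1), zero_mul]
lemma ind_mono {p q : Prop} (h : p → q) : ind p ≤ ind q := by
  by_cases hp : p
  · rw [ind_true hp, ind_true (h hp)]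
  · rw [ind_false hp]; exact ind_nonneg q
lemma ind_congr {p q : Prop} (h : p ↔ q) : ind p = ind q := by
  rw [propext h]
lemma ind_not (p : Prop) : ind (¬ p) = 1 - ind p := by
  by_cases hp : p
  · rw [ind_true hp, ind_false (not_not.2 hp), sub_self]
  · rw [ind_false hp, ind_true hp, sub_zero]
lemma ind_or_le (p q : Prop) : ind (p ∨ q) ≤ ind p + ind q := by
  by_cases hp : p
  · have h1 := ind_le_one (p ∨ q)
    have h2 := ind_nonneg q
    rw [ind_true hp]
    linarith
  · have h1 : ind (p ∨ q) ≤ ind q := ind_mono fun h => h.resolve_left hp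
    rw [ind_false hp, zero_add]
    exact h1

lemma alg_coeff_add (f g : Alg) (w : Wd) : (f + g).coeff w = f.coeff w + g.coeff w := rfl

lemma alg_coeff_smul (t : ℝ) (f : Alg) (w : Wd) : (t • f).coeff w = t * f.coeff w := rfl

lemma alg_coeff_sum {ι : Type} (s : Finset ι) (f : ι → Alg) (w : Wd) :
    (∑ i ∈ s, f i).coeff w = ∑ i ∈ s, (f i).coeff w := by
  rw [MonoidAlgebra.coeff_sum, Finsupp.finsetSum_apply]

lemma NN.mul {f g : Alg} (hf : NN f) (hg : NN g) : NN (f * g) := by
  classical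
  intro w
  rw [MonoidAlgebra.coeff_mul]
  refine Finset.sum_nonneg fun a _ => Finset.sum_nonneg fun b _ => ?_
  show 0 ≤ if a * b = w then f.coeff a * g.coeff b else 0
  split_ifs
  · exact mul_nonneg (hf a) (hg b)
  · exact le_rfl
lemma NN.add {f g : Alg} (hf : NN f) (hg : NN g) : NN (f + g) := fun w => by
  rw [alg_coeff_add]; exact add_nonneg (hf w) (hg w)
lemma NN.smul {f : Alg} {t : ℝ} (ht : 0 ≤ t) (hf : NN f) : NN (t • f) := fun w => by
  rw [alg_coeff_smul]; exact mul_nonneg ht (hf w)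
lemma alg_nn_single (w : Wd) {t : ℝ} (ht : 0 ≤ t) : NN (MonoidAlgebra.single w t) := by
  classical
  intro v
  rw [MonoidAlgebra.coeff_single, Finsupp.single_apply]
  split_ifs
  · exact ht
  · exact le_rfl
lemma NN.one : NN (1 : Alg) := alg_nn_single 1 zero_le_one
lemma NN.single (w : Wd) {t : ℝ} (ht : 0 ≤ t) : NN (MonoidAlgebra.single w t) :=
  alg_nn_single w ht
lemma NN.sum {ι : Type} (s : Finset ι) (f : ι → Alg) (h : ∀ i ∈ s, NN (f i)) :
    NN (∑ i ∈ s, f i) := fun w => by
  rw [alg_coeff_sum]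
  exact Finset.sum_nonneg fun i hi => h i hi w
lemma NN.list_prod (l : List Alg) (h : ∀ f ∈ l, NN f) : NN l.prod := by
  induction l with
  | nil => exact NN.one
  | cons a l ih =>
    rw [List.prod_cons]
    exact (h a List.mem_cons_self).mul (ih fun f hf => h f (List.mem_cons_of_mem a hf))

lemma alg_mu_of (b : Bool) :
    mu (FreeMonoid.of b) =
      (1 / 2 : ℝ) • ((1 : Alg) + MonoidAlgebra.single (FreeMonoid.of b) (1 : ℝ)) := rfl

lemma mu_nn (w : Wd) : NN (mu w) := by
  induction w using FreeMonoid.inductionOn with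
  | one => rw [map_one]; exact NN.one
  | of b =>
    rw [alg_mu_of]
    exact NN.smul (by norm_num) (NN.one.add (NN.single _ zero_le_one))
  | mul x y hx hy => rw [map_mul]; exact hx.mul hy

lemma alg_dom_iff {f g : Alg} : Dom f g ↔ ∃ d : Alg, NN d ∧ g = f + d := by
  constructor
  · intro h
    refine ⟨g + (-1 : ℝ) • f, fun w => ?_, ?_⟩
    · rw [alg_coeff_add, alg_coeff_smul]
      linarith [h w]
    · rw [neg_one_smul]
      abel
  · rintro ⟨d, hd, rfl⟩ w
    rw [alg_coeff_add]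
    linarith [hd w]

lemma Dom.refl (f : Alg) : Dom f f := fun _ => le_rfl
lemma Dom.trans {f g h : Alg} (h1 : Dom f g) (h2 : Dom g h) : Dom f h :=
  fun w => (h1 w).trans (h2 w)
lemma Dom.mul_left {f g h : Alg} (hh : NN h) (h1 : Dom f g) : Dom (h * f) (h * g) := by
  obtain ⟨d, hd, rfl⟩ := alg_dom_iff.1 h1
  exact alg_dom_iff.2 ⟨h * d, hh.mul hd, mul_add h f d⟩
lemma Dom.mul_right {f g h : Alg} (hh : NN h) (h1 : Dom f g) : Dom (f * h) (g * h) := by
  obtain ⟨d, hd, rfl⟩ := alg_dom_iff.1 h1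
  exact alg_dom_iff.2 ⟨d * h, hd.mul hh, add_mul f d h⟩
lemma Dom.smul {f g : Alg} {t : ℝ} (ht : 0 ≤ t) (h1 : Dom f g) : Dom (t • f) (t • g) := fun w => by
  rw [alg_coeff_smul, alg_coeff_smul]
  exact mul_le_mul_of_nonneg_left (h1 w) ht
lemma Dom.sum {ι : Type} (s : Finset ι) (f g : ι → Alg) (h : ∀ i ∈ s, Dom (f i) (g i)) :
    Dom (∑ i ∈ s, f i) (∑ i ∈ s, g i) := fun w => by
  rw [alg_coeff_sum, alg_coeff_sum]
  exact Finset.sum_le_sum fun i hi => h i hi w
lemma Dom.smul_le {f : Alg} (hf : NN f) {t t' : ℝ} (h : t ≤ t') : Dom (t • f) (t' • f) :=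
  fun w => by
    rw [alg_coeff_smul, alg_coeff_smul]
    exact mul_le_mul_of_nonneg_right h (hf w)

lemma alg_mass_eq (f : Alg) : mass f = MonoidAlgebra.lift ℝ ℝ Wd 1 f := by
  rw [MonoidAlgebra.lift_apply]
  simp [mass]

lemma mass_mul (f g : Alg) : mass (f * g) = mass f * mass g := by
  rw [alg_mass_eq, alg_mass_eq, alg_mass_eq, map_mul]
lemma mass_one : mass (1 : Alg) = 1 := by
  rw [alg_mass_eq, map_one]
lemma mass_add (f g : Alg) : mass (f + g) = mass f + mass g := by
  rw [alg_mass_eq, alg_mass_eq, alg_mass_eq, map_add]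
lemma mass_smul (t : ℝ) (f : Alg) : mass (t • f) = t * mass f := by
  rw [alg_mass_eq, alg_mass_eq, map_smul, smul_eq_mul]
lemma mass_single (w : Wd) (t : ℝ) : mass (MonoidAlgebra.single w t) = t := by
  rw [alg_mass_eq, MonoidAlgebra.lift_single]
  simp
lemma mass_mu (w : Wd) : mass (mu w) = 1 := by
  induction w using FreeMonoid.inductionOn with
  | one => rw [map_one]; exact mass_one
  | of b =>
    rw [alg_mu_of, mass_smul, mass_add, mass_one, mass_single]
    norm_num
  | mul x y hx hy => rw [map_mul, mass_mul, hx, hy, one_mul]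
lemma mass_list_prod (l : List Alg) (h : ∀ f ∈ l, mass f = 1) : mass l.prod = 1 := by
  induction l with
  | nil => exact mass_one
  | cons a l ih =>
    rw [List.prod_cons, mass_mul, h a List.mem_cons_self,
      ih fun f hf => h f (List.mem_cons_of_mem a hf), one_mul]
/-- The mass as a sum over any finite set containing the support. -/
lemma mass_eq_sum (f : Alg) (s : Finset Wd) (h : f.coeff.support ⊆ s) :
    mass f = ∑ w ∈ s, f.coeff w :=
  Finsupp.sum_of_support_subset f.coeff h (fun _ r => r) fun _ _ => rfl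

/-- The affinity as a sum over any finite set containing the support of the first argument. -/
lemma Aff_eq_sum (f g : Alg) (s : Finset Wd) (h : f.coeff.support ⊆ s) :
    Aff f g = ∑ w ∈ s, √(f.coeff w * g.coeff w) :=
  Finsupp.sum_of_support_subset f.coeff h (fun w r => √(r * g.coeff w)) fun _ _ => by simp
lemma Aff_mono {f f' g g' : Alg} (hf : NN f) (hg : NN g) (h1 : Dom f f') (h2 : Dom g g') :
    Aff f g ≤ Aff f' g' := by
  classical
  rw [Aff_eq_sum f g (f.coeff.support ∪ f'.coeff.support) subset_union_left,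
    Aff_eq_sum f' g' (f.coeff.support ∪ f'.coeff.support) subset_union_right]
  refine Finset.sum_le_sum fun w _ => Real.sqrt_le_sqrt ?_
  exact mul_le_mul (h1 w) (h2 w) (hg w) ((hf w).trans (h1 w))
/-- Superadditivity (Cauchy-Schwarz): `√((∑ p i h i w)(∑ q i h i w)) ≥ ∑ √(p i q i) h i w`. -/
lemma Aff_sum {ι : Type} (s : Finset ι) (p q : ι → ℝ) (h : ι → Alg) (hp : ∀ i ∈ s, 0 ≤ p i)
    (hq : ∀ i ∈ s, 0 ≤ q i) (hh : ∀ i ∈ s, NN (h i)) (hm : ∀ i ∈ s, mass (h i) = 1) :
    ∑ i ∈ s, √(p i * q i) ≤ Aff (∑ i ∈ s, p i • h i) (∑ i ∈ s, q i • h i) := by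
  classical
  obtain ⟨T, hT1, hT2⟩ : ∃ T : Finset Wd, (∑ i ∈ s, p i • h i).coeff.support ⊆ T ∧
      ∀ i ∈ s, (h i).coeff.support ⊆ T :=
    ⟨(∑ i ∈ s, p i • h i).coeff.support ∪ s.biUnion fun i => (h i).coeff.support,
      subset_union_left, fun i hi =>
        (subset_biUnion_of_mem (fun i => (h i).coeff.support) hi).trans subset_union_right⟩
  rw [Aff_eq_sum _ _ T hT1]
  have e1 : ∑ i ∈ s, √(p i * q i) = ∑ i ∈ s, ∑ w ∈ T, √(p i * q i) * (h i).coeff w := by
    refine Finset.sum_congr rfl fun i hi => ?_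
    rw [← Finset.mul_sum, ← mass_eq_sum (h i) T (hT2 i hi), hm i hi, mul_one]
  rw [e1, Finset.sum_comm]
  refine Finset.sum_le_sum fun w _ => ?_
  rw [alg_coeff_sum, alg_coeff_sum]
  refine Real.le_sqrt_of_sq_le ?_
  refine Finset.sum_sq_le_sum_mul_sum_of_sq_le_mul s (fun i hi => ?_) (fun i hi => ?_)
    (fun i hi => ?_)
  · rw [alg_coeff_smul]; exact mul_nonneg (hp i hi) (hh i hi w)
  · rw [alg_coeff_smul]; exact mul_nonneg (hq i hi) (hh i hi w)
  · rw [alg_coeff_smul, alg_coeff_smul, mul_pow, Real.sq_sqrt (mul_nonneg (hp i hi) (hq i hi))]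
    exact le_of_eq (by ring)

lemma alg_eq_sum_single (f h : Alg) (T : Finset Wd) (hT : f.coeff.support ⊆ T) :
    f * h = ∑ w ∈ T, f.coeff w • (MonoidAlgebra.single w (1 : ℝ) * h) := by
  have e : f = ∑ w ∈ T, f.coeff w • (MonoidAlgebra.single w (1 : ℝ) : Alg) := by
    have h1 := MonoidAlgebra.sum_coeff_single f
    rw [Finsupp.sum_of_support_subset f.coeff hT _ (fun _ _ => by simp)] at h1
    refine h1.symm.trans (Finset.sum_congr rfl fun w _ => ?_)
    rw [MonoidAlgebra.smul_single, smul_eq_mul, mul_one]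
  calc f * h = (∑ w ∈ T, f.coeff w • (MonoidAlgebra.single w (1 : ℝ) : Alg)) * h := by rw [← e]
    _ = _ := by
      rw [Finset.sum_mul]
      exact Finset.sum_congr rfl fun w _ => smul_mul_assoc _ _ _

/-- Write `f = ∑ f w • single w 1`, `g = ∑ g w • single w 1` over the union of the supports and use `Aff_sum`. -/
lemma Aff_mul_right {f g h : Alg} (hf : NN f) (hg : NN g) (hh : NN h) (hm : mass h = 1) :
    Aff f g ≤ Aff (f * h) (g * h) := by
  classical
  rw [Aff_eq_sum f g (f.coeff.support ∪ g.coeff.support) subset_union_left,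
    alg_eq_sum_single f h (f.coeff.support ∪ g.coeff.support) subset_union_left,
    alg_eq_sum_single g h (f.coeff.support ∪ g.coeff.support) subset_union_right]
  exact Aff_sum _ (fun w => f.coeff w) (fun w => g.coeff w)
    (fun w => MonoidAlgebra.single w (1 : ℝ) * h) (fun w _ => hf w) (fun w _ => hg w)
    (fun w _ => (NN.single w zero_le_one).mul hh)
    (fun w _ => by rw [mass_mul, mass_single, hm, one_mul])

lemma sh_sh {α : Type} (k l : ℕ) (τ : ℕ → α) : sh k (sh l τ) = sh (l + k) τ := by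
  funext i
  simp only [sh, Nat.add_assoc]
lemma sh_zero {α : Type} (τ : ℕ → α) : sh 0 τ = τ := by
  funext i
  simp only [sh, Nat.zero_add]
lemma word_zero (U V : Wd) (τ : ℕ → Bool) : word U V τ 0 = 1 := rfl
lemma word_succ (U V : Wd) (τ : ℕ → Bool) (n : ℕ) :
    word U V τ (n + 1) = word U V τ n * (if τ n then V else U) := by
  simp only [word, List.range_succ, List.map_append, List.prod_append, List.map_cons,
    List.map_nil, List.prod_cons, List.prod_nil, mul_one]
lemma word_add (U V : Wd) (τ : ℕ → Bool) (n k : ℕ) :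
    word U V τ (n + k) = word U V τ n * word U V (sh n τ) k := by
  induction k with
  | zero => rw [Nat.add_zero, word_zero, mul_one]
  | succ k ih =>
    rw [← Nat.add_assoc, word_succ, word_succ, ih, mul_assoc]
    rfl
lemma word_congr (U V : Wd) (τ τ' : ℕ → Bool) (n : ℕ) (h : ∀ i < n, τ i = τ' i) :
    word U V τ n = word U V τ' n := by
  induction n with
  | zero => rfl
  | succ n ih =>
    rw [word_succ, word_succ, ih fun i hi => h i (Nat.lt_succ_of_lt hi), h n (Nat.lt_succ_self n)]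
lemma word_false (U V : Wd) (τ : ℕ → Bool) (n : ℕ) (h : ∀ i < n, τ i = false) :
    word U V τ n = U ^ n := by
  induction n with
  | zero => rw [word_zero, pow_zero]
  | succ n ih =>
    rw [word_succ, ih fun i hi => h i (Nat.lt_succ_of_lt hi), h n (Nat.lt_succ_self n), pow_succ]
    simp

lemma alg_dset_succ (τ : ℕ → Bool) (n : ℕ) :
    (dset τ 0 (n + 1)).card = (dset τ 0 n).card + if τ n then 1 else 0 := by
  unfold dset
  rw [Finset.range_add_one, Finset.filter_insert]
  simp only [Nat.zero_add]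
  split_ifs with h
  · rw [Finset.card_insert_of_notMem (by simp)]
  · rfl

lemma word_length (U V : Wd) (τ : ℕ → Bool) (n : ℕ) :
    (word U V τ n).length + (dset τ 0 n).card * U.length =
      n * U.length + (dset τ 0 n).card * V.length := by
  induction n with
  | zero => simp [word_zero, dset]
  | succ n ih =>
    rw [word_succ, FreeMonoid.length_mul, alg_dset_succ]
    split_ifs with h
    · rw [Nat.add_mul, Nat.add_mul, Nat.add_mul]
      omega
    · rw [Nat.add_zero, Nat.add_mul]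
      omega
lemma word_length_le (U V : Wd) (τ : ℕ → Bool) (n l : ℕ) (hU : U.length ≤ l) (hV : V.length ≤ l) :
    (word U V τ n).length ≤ n * l := by
  induction n with
  | zero => simp [word_zero]
  | succ n ih =>
    rw [word_succ, FreeMonoid.length_mul, Nat.add_mul, Nat.one_mul]
    split_ifs
    · exact Nat.add_le_add ih hV
    · exact Nat.add_le_add ih hU
lemma Dif.symm {U V : Wd} (h : Dif U V) : Dif V U := by
  obtain ⟨p, r, r', b, h1, h2⟩ := h
  exact ⟨p, r', r, !b, h2, by rw [Bool.not_not]; exact h1⟩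
lemma Dif.ne {U V : Wd} (h : Dif U V) : U ≠ V := by
  obtain ⟨p, r, r', b, h1, h2⟩ := h
  intro e
  rw [h1, h2, mul_assoc, mul_assoc] at e
  have e2 := congrArg FreeMonoid.toList (mul_left_cancel e)
  rw [FreeMonoid.toList_of_mul, FreeMonoid.toList_of_mul] at e2
  have e3 := (List.cons.inj e2).1
  cases b <;> simp at e3
lemma Dif.mul {U V : Wd} (h : Dif U V) (p r r' : Wd) : Dif (p * U * r) (p * V * r') := by
  obtain ⟨p₀, r₀, r₀', b, h1, h2⟩ := h
  refine ⟨p * p₀, r₀ * r, r₀' * r', b, ?_, ?_⟩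
  · rw [h1]; simp only [mul_assoc]
  · rw [h2]; simp only [mul_assoc]
lemma Dif.word {U V : Wd} (h : Dif U V) (τ τ' : ℕ → Bool) (n i : ℕ) (hi : i < n)
    (h1 : ∀ j < i, τ j = τ' j) (h2 : τ i ≠ τ' i) : Dif (word U V τ n) (word U V τ' n) := by
  obtain ⟨k, rfl⟩ : ∃ k, n = i + 1 + k := ⟨n - (i + 1), by omega⟩
  rw [word_add U V τ (i + 1) k, word_add U V τ' (i + 1) k, word_succ U V τ i,
    word_succ U V τ' i, word_congr U V τ τ' i h1]
  cases e : τ i <;> cases e' : τ' i
  · exact absurd (e.trans e'.symm) h2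
  · exact h.mul _ _ _
  · exact h.symm.mul _ _ _
  · exact absurd (e.trans e'.symm) h2

lemma dset_sh (τ : ℕ → Bool) (d p k : ℕ) : dset (sh d τ) p k = dset τ (d + p) k := by
  ext j
  unfold dset
  rw [Finset.mem_filter, Finset.mem_filter, Nat.add_assoc]
  rfl
lemma pat_empty (u : ℤ) (k : ℕ) : pat ∅ u k = ∅ := by
  simp [pat]
lemma pat_subset (G : Finset ℕ) (u : ℤ) (k : ℕ) : pat G u k ⊆ range k :=
  Finset.filter_subset _ _
lemma alg_mem_pat {G : Finset ℕ} {u : ℤ} {k j : ℕ} :
    j ∈ pat G u k ↔ j < k ∧ ∃ g ∈ G, (j : ℤ) = u + g := by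
  simp only [pat, Finset.mem_filter, Finset.mem_range]
lemma pat_single (g : ℕ) (u : ℤ) (k : ℕ) : pat {g} u k = pat {0} (u + g) k := by
  ext j
  simp [alg_mem_pat]
lemma pat_adm (m : ℕ) (G : Finset ℕ) (hG : G ⊆ range m) (u : ℤ) (k : ℕ) : Adm m (pat G u k) := by
  refine ⟨u.toNat, fun j hj => ?_⟩
  obtain ⟨_, g, hg, e⟩ := alg_mem_pat.1 hj
  have := Finset.mem_range.1 (hG hg)
  omega
lemma pat_eq_empty (m : ℕ) (G : Finset ℕ) (hG : G ⊆ range m) (u : ℤ) (k : ℕ)
    (h : u + m ≤ 0 ∨ (k : ℤ) ≤ u) : pat G u k = ∅ := by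
  refine Finset.eq_empty_of_forall_notMem fun j hj => ?_
  obtain ⟨hk, g, hg, e⟩ := alg_mem_pat.1 hj
  have := Finset.mem_range.1 (hG hg)
  omega
lemma Adm.subset {m : ℕ} {S S' : Finset ℕ} (h : Adm m S) (h' : S' ⊆ S) : Adm m S' := by
  obtain ⟨u, hu⟩ := h
  exact ⟨u, fun j hj => hu j (h' hj)⟩
lemma Adm.card_le {m : ℕ} {S : Finset ℕ} (h : Adm m S) : S.card ≤ m := by
  obtain ⟨u, hu⟩ := h
  have h1 : S ⊆ Finset.Ico u (u + m) := fun j hj => Finset.mem_Ico.2 (hu j hj)
  have h2 := Finset.card_le_card h1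
  rw [Nat.card_Ico] at h2
  omega
lemma adm_empty (m : ℕ) : Adm m ∅ := ⟨0, fun j hj => absurd hj (Finset.notMem_empty j)⟩

end Pool.Agent.Lib.MP_343fe0_pr
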