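import Pool.Agent.Lib.MP_343fe0_pr.Alg

set_option autoImplicit false

/-! Chain sums. -/

namespace Pool.Agent.Lib.MP_343fe0_pr

open Finset

lemma Chain_nonneg {f α y : ℕ → ℝ} (hf : ∀ d, 0 ≤ f d) (hα : ∀ i, 0 ≤ α i) (hy : ∀ i, 0 ≤ y i)
    (n i l : ℕ) : 0 ≤ Chain f α y n i l := by
  induction n generalizing i l with
  | zero => exact hf _
  | succ n ih =>
    exact add_nonneg (mul_nonneg (hα i) (ih _ _)) (mul_nonneg (mul_nonneg (hy i) (hf _)) (ih _ _))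
/-- Monotonicity; only the values `f d` with `1 ≤ d` and `α j`, `y j` with `i ≤ j < i + n` matter. -/
lemma Chain_mono {f f' α α' y y' : ℕ → ℝ} (hf : ∀ d, 0 ≤ f d) (hα : ∀ i, 0 ≤ α i) (hy : ∀ i, 0 ≤ y i)
    (n i l : ℕ) (hl : l ≤ i) (h1 : ∀ d, 1 ≤ d → f d ≤ f' d)
    (h2 : ∀ j, i ≤ j → j < i + n → α j ≤ α' j) (h3 : ∀ j, i ≤ j → j < i + n → y j ≤ y' j) :
    Chain f α y n i l ≤ Chain f' α' y' n i l := by
  induction n generalizing i l with
  | zero => exact h1 _ (by omega)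
  | succ n ih =>
    have a1 := ih (i + 1) l (by omega) (fun j a b => h2 j (by omega) (by omega))
      (fun j a b => h3 j (by omega) (by omega))
    have a2 := ih (i + 1) (i + 1) le_rfl (fun j a b => h2 j (by omega) (by omega))
      (fun j a b => h3 j (by omega) (by omega))
    have b1 := h2 i le_rfl (by omega)
    have b2 := h3 i le_rfl (by omega)
    have b3 := h1 (i + 1 - l) (by omega)
    have c1 := Chain_nonneg hf hα hy n (i + 1) l
    have c2 := Chain_nonneg hf hα hy n (i + 1) (i + 1)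
    simp only [Chain]
    refine add_le_add (mul_le_mul b1 a1 c1 ((hα i).trans b1)) ?_
    exact mul_le_mul (mul_le_mul b2 b3 (hf _) ((hy i).trans b2)) a2 c2
      (mul_nonneg ((hy i).trans b2) ((hf _).trans b3))
lemma Chain_congr {f α α' y y' : ℕ → ℝ} (n i l : ℕ)
    (h2 : ∀ j, i ≤ j → j < i + n → α j = α' j) (h3 : ∀ j, i ≤ j → j < i + n → y j = y' j) :
    Chain f α y n i l = Chain f α' y' n i l := by
  induction n generalizing i l with
  | zero => rfl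
  | succ n ih =>
    have a : ∀ l, Chain f α y n (i + 1) l = Chain f α' y' n (i + 1) l := fun l =>
      ih (i + 1) l (fun j a b => h2 j (by omega) (by omega))
        (fun j a b => h3 j (by omega) (by omega))
    simp only [Chain, a, h2 i le_rfl (by omega), h3 i le_rfl (by omega)]

lemma chain_sum_sqrt (d : ℕ) : ∑ j ∈ Ioo 0 d, 1 / √(j : ℝ) ≤ 2 * √(d : ℝ) := by
  have key : ∀ n : ℕ, ∑ j ∈ Ioc 0 n, 1 / √(j : ℝ) ≤ 2 * √(n : ℝ) := by
    intro n
    induction n with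
    | zero => simp
    | succ n ih =>
      rw [Finset.sum_Ioc_succ_top (Nat.zero_le n)]
      have h1 : 0 < √((n + 1 : ℕ) : ℝ) := Real.sqrt_pos.mpr (by positivity)
      have h2 : √((n + 1 : ℕ) : ℝ) ^ 2 = n + 1 := by
        rw [Real.sq_sqrt (by positivity)]
        push_cast
        rfl
      have h3 : √(n : ℝ) ^ 2 = n := Real.sq_sqrt (by positivity)
      have h4 : 1 / √((n + 1 : ℕ) : ℝ) ≤ 2 * √((n + 1 : ℕ) : ℝ) - 2 * √(n : ℝ) := by
        rw [div_le_iff₀ h1]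
        nlinarith [sq_nonneg (√((n + 1 : ℕ) : ℝ) - √(n : ℝ))]
      linarith
  refine le_trans (sum_le_sum_of_subset_of_nonneg Ioo_subset_Ioc_self fun _ _ _ => ?_) (key d)
  positivity

/-- `1 / (√j √(d-j)) ≤ (1/√j + 1/√(d-j)) / √d` and `∑ j ∈ [1,n], 1/√j ≤ 2 √n`. -/
lemma sum_inv_sqrt (d : ℕ) : ∑ j ∈ Ioo 0 d, 1 / (√(j : ℝ) * √((d : ℝ) - j)) ≤ 4 := by
  rcases Nat.eq_zero_or_pos d with rfl | hd
  · simp
  have hd' : 0 < √(d : ℝ) := Real.sqrt_pos.mpr (by exact_mod_cast hd)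
  have h1 : ∀ j ∈ Ioo 0 d, 1 / (√(j : ℝ) * √((d : ℝ) - j)) ≤
      (1 / √(j : ℝ) + 1 / √((d : ℝ) - j)) / √(d : ℝ) := by
    intro j hj
    rw [mem_Ioo] at hj
    have a1 : (0 : ℝ) < j := by exact_mod_cast hj.1
    have a2 : (0 : ℝ) < d - j := sub_pos.mpr (by exact_mod_cast hj.2)
    have b1 := Real.sqrt_pos.mpr a1
    have b2 := Real.sqrt_pos.mpr a2
    have c : √(d : ℝ) ≤ √((d : ℝ) - j) + √(j : ℝ) := by
      rw [Real.sqrt_le_left (by positivity)]
      nlinarith [Real.sq_sqrt a1.le, Real.sq_sqrt a2.le, mul_pos b1 b2]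
    rw [div_add_div _ _ b1.ne' b2.ne', div_div, div_le_div_iff₀ (by positivity) (by positivity)]
    nlinarith [mul_pos b1 b2]
  have h2 : ∑ j ∈ Ioo 0 d, 1 / √((d : ℝ) - j) = ∑ j ∈ Ioo 0 d, 1 / √(j : ℝ) := by
    refine sum_nbij' (fun j => d - j) (fun j => d - j) ?_ ?_ ?_ ?_ ?_
    · intro j hj
      simp only [mem_Ioo] at hj ⊢
      omega
    · intro j hj
      simp only [mem_Ioo] at hj ⊢
      omega
    · intro j hj
      simp only [mem_Ioo] at hj ⊢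
      omega
    · intro j hj
      simp only [mem_Ioo] at hj ⊢
      omega
    · intro j hj
      simp only [mem_Ioo] at hj
      rw [Nat.cast_sub hj.2.le]
  refine (sum_le_sum h1).trans ?_
  rw [← sum_div, sum_add_distrib, h2, div_le_iff₀ hd']
  linarith [chain_sum_sqrt d]

lemma chain_conv (φ h0 : ℝ) (hφ : 0 ≤ φ) (hh0 : 0 ≤ h0) (K n i l : ℕ) (hn : n ≤ K) (hl : l ≤ i)
    (hi : i ≤ n) (hsmall : 8 * φ * h0 * √((K : ℝ) + 1) ≤ 1) :
    ∑ j ∈ Ico i n, φ / √((j + 1 - l : ℕ) : ℝ) * h0 * 2 * (φ / √((n - j : ℕ) : ℝ)) ≤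
      φ / √((n + 1 - l : ℕ) : ℝ) := by
  set d := n + 1 - l with hd
  have h1 : ∑ j ∈ Ico i n, φ / √((j + 1 - l : ℕ) : ℝ) * h0 * 2 * (φ / √((n - j : ℕ) : ℝ)) =
      ∑ j ∈ Ico (i + 1 - l) d, 2 * φ ^ 2 * h0 * (1 / (√(j : ℝ) * √((d : ℝ) - j))) := by
    refine sum_nbij' (fun j => j + 1 - l) (fun j => j + l - 1) ?_ ?_ ?_ ?_ ?_
    · intro j hj
      simp only [mem_Ico] at hj ⊢
      omega
    · intro j hj
      simp only [mem_Ico] at hj ⊢
      omega
    · intro j hj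
      simp only [mem_Ico] at hj ⊢
      omega
    · intro j hj
      simp only [mem_Ico] at hj ⊢
      omega
    · intro j hj
      simp only [mem_Ico] at hj
      have e : ((n - j : ℕ) : ℝ) = (d : ℝ) - ((j + 1 - l : ℕ) : ℝ) := by
        rw [← Nat.cast_sub (by omega)]
        congr 1
        omega
      rw [e]
      ring
  have h2 : ∑ j ∈ Ico (i + 1 - l) d, 1 / (√(j : ℝ) * √((d : ℝ) - j)) ≤ 4 := by
    refine le_trans (sum_le_sum_of_subset_of_nonneg (fun j hj => ?_) fun _ _ _ => ?_)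
      (sum_inv_sqrt d)
    · simp only [mem_Ico, mem_Ioo] at hj ⊢
      omega
    · positivity
  have hd0 : 0 < √(d : ℝ) := Real.sqrt_pos.mpr (by
    have : 0 < d := by omega
    exact_mod_cast this)
  have h3 : √(d : ℝ) ≤ √((K : ℝ) + 1) := Real.sqrt_le_sqrt (by
    have : d ≤ K + 1 := by omega
    exact_mod_cast this)
  rw [h1, ← mul_sum, le_div_iff₀ hd0]
  have h4 : 8 * φ * h0 * √(d : ℝ) ≤ 1 :=
    le_trans (mul_le_mul_of_nonneg_left h3 (by positivity)) hsmall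
  calc 2 * φ ^ 2 * h0 * (∑ j ∈ Ico (i + 1 - l) d, 1 / (√(j : ℝ) * √((d : ℝ) - j))) * √(d : ℝ)
      ≤ 2 * φ ^ 2 * h0 * 4 * √(d : ℝ) := by gcongr
    _ = φ * (8 * φ * h0 * √(d : ℝ)) := by ring
    _ ≤ φ * 1 := by gcongr
    _ = φ := mul_one φ

lemma chain_super (φ h0 B : ℝ) (hφ : 0 ≤ φ) (hh0 : 0 ≤ h0) (hB : 0 ≤ B) (K n m : ℕ) (hn : n ≤ K)
    (hsmall : 8 * φ * h0 * √((K : ℝ) + 1) ≤ 1) (α y : ℕ → ℝ) (hy : ∀ i, 0 ≤ y i)
    (hα0 : ∀ i, 0 ≤ α i)
    (hbase : ∀ l ≤ n, Chain (fun d => φ / √(d : ℝ)) α y m n l ≤ B * (φ / √((n + 1 - l : ℕ) : ℝ)))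
    (k i : ℕ) (hk : i + k = n) (hα : ∀ j, i ≤ j → j < n → α j = 1)
    (hy0 : ∀ j, i ≤ j → j < n → y j ≤ h0) (l : ℕ) (hl : l ≤ i) :
    Chain (fun d => φ / √(d : ℝ)) α y (m + k) i l ≤ 2 * B * (φ / √((n + 1 - l : ℕ) : ℝ)) := by
  have fin : ∀ i l, l ≤ i → i ≤ n → B * (φ / √((n + 1 - l : ℕ) : ℝ) +
      ∑ j ∈ Ico i n, φ / √((j + 1 - l : ℕ) : ℝ) * h0 * 2 * (φ / √((n - j : ℕ) : ℝ))) ≤
      2 * B * (φ / √((n + 1 - l : ℕ) : ℝ)) := by
    intro i l h1 h2
    have := mul_le_mul_of_nonneg_left (chain_conv φ h0 hφ hh0 K n i l hn h1 h2 hsmall) hB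
    linarith
  have key : ∀ k i, i + k = n → (∀ j, i ≤ j → j < n → α j = 1) →
      (∀ j, i ≤ j → j < n → y j ≤ h0) → ∀ l ≤ i,
      Chain (fun d => φ / √(d : ℝ)) α y (m + k) i l ≤ B * (φ / √((n + 1 - l : ℕ) : ℝ) +
        ∑ j ∈ Ico i n, φ / √((j + 1 - l : ℕ) : ℝ) * h0 * 2 * (φ / √((n - j : ℕ) : ℝ))) := by
    intro k
    induction k with
    | zero =>
      intro i hk _ _ l hl
      obtain rfl : i = n := by omega
      simpa using hbase l hl
    | succ k ih =>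
      intro i hk hα hy0 l hl
      have a := ih (i + 1) (by omega) (fun j a b => hα j (by omega) b)
        (fun j a b => hy0 j (by omega) b)
      have a1 := a l (by omega)
      have a2 := (a (i + 1) le_rfl).trans (fin (i + 1) (i + 1) le_rfl (by omega))
      have e : n + 1 - (i + 1) = n - i := by omega
      rw [e] at a2
      have c2 := Chain_nonneg (f := fun d => φ / √(d : ℝ)) (fun d => by positivity) hα0 hy
        (m + k) (i + 1) (i + 1)
      rw [← add_assoc, sum_eq_sum_Ico_succ_bot (by omega : i < n)]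
      simp only [Chain]
      rw [hα i le_rfl (by omega), one_mul]
      have b : y i * (φ / √((i + 1 - l : ℕ) : ℝ)) *
          Chain (fun d => φ / √(d : ℝ)) α y (m + k) (i + 1) (i + 1) ≤
          h0 * (φ / √((i + 1 - l : ℕ) : ℝ)) * (2 * B * (φ / √((n - i : ℕ) : ℝ))) :=
        mul_le_mul (mul_le_mul_of_nonneg_right (hy0 i le_rfl (by omega)) (by positivity)) a2 c2
          (by positivity)
      nlinarith
  exact (key k i hk hα hy0 l hl).trans (fin i l hl (by omega))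

lemma chain_forced (φ h1 C : ℝ) (hφ : 0 ≤ φ) (α y : ℕ → ℝ) (hy : ∀ i, 0 ≤ y i)
    (hα0 : ∀ i, 0 ≤ α i) (p m : ℕ) (hαp : α p = 0) (hy1 : y p ≤ h1)
    (hC : Chain (fun d => φ / √(d : ℝ)) α y m (p + 1) (p + 1) ≤ C) (l : ℕ) :
    Chain (fun d => φ / √(d : ℝ)) α y (m + 1) p l ≤ h1 * C * (φ / √((p + 1 - l : ℕ) : ℝ)) := by
  have c2 := Chain_nonneg (f := fun d => φ / √(d : ℝ)) (fun d => by positivity) hα0 hy
    m (p + 1) (p + 1)
  have h := (hy p).trans hy1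
  simp only [Chain]
  rw [hαp, zero_mul, zero_add, mul_right_comm h1]
  exact mul_le_mul (mul_le_mul_of_nonneg_right hy1 (by positivity)) hC c2 (by positivity)

lemma chain_tail (φ h0 : ℝ) (hφ : 0 ≤ φ) (hh0 : 0 ≤ h0) (K p : ℕ) (hp : p < K)
    (hsmall : 8 * φ * h0 * √((K : ℝ) + 1) ≤ 1) (α y : ℕ → ℝ) (hy : ∀ i, 0 ≤ y i)
    (hα0 : ∀ i, 0 ≤ α i) (hα : ∀ i, p < i → α i = 1) (hy0 : ∀ i, p < i → y i ≤ h0) :
    Chain (fun d => φ / √(d : ℝ)) α y (K - (p + 1)) (p + 1) (p + 1) ≤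
      2 * (φ / √((K : ℝ) - p)) := by
  have h := chain_super φ h0 1 hφ hh0 zero_le_one K K 0 le_rfl hsmall α y hy hα0
    (fun l _ => by simp [Chain]) (K - (p + 1)) (p + 1) (by omega) (fun j a _ => hα j a)
    (fun j a _ => hy0 j a) (p + 1) le_rfl
  have e : ((K + 1 - (p + 1) : ℕ) : ℝ) = (K : ℝ) - p := by
    rw [show K + 1 - (p + 1) = K - p by omega, Nat.cast_sub hp.le]
  rwa [zero_add, mul_one, e] at h

/-- One forced cluster `p`.  Key step (supersolution): if the chain from cluster `n` on is at most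
`B * f (n+1-l)` for all `l ≤ n`, and clusters `i, ..., n-1` have `α = 1`, `y ≤ h0`, then by downward induction on `i`
the chain from `i` on is at most `B * (f (n+1-l) + ∑ j ∈ [i,n), f (j+1-l) * h0 * 2 * f (n-j)) ≤ 2 * B * f (n+1-l)` for
all `l ≤ i`, by `sum_inv_sqrt` and `hsmall`. -/
theorem chain_one (φ h0 h1 : ℝ) (hφ : 0 ≤ φ) (hh0 : 0 ≤ h0) (K p : ℕ) (hp : p < K)
    (hsmall : 8 * φ * h0 * √((K : ℝ) + 1) ≤ 1) (α y : ℕ → ℝ) (hy : ∀ i, 0 ≤ y i)
    (hα : ∀ i, i ≠ p → α i = 1) (hαp : α p = 0) (hy0 : ∀ i, i ≠ p → y i ≤ h0) (hy1 : y p ≤ h1) :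
    Chain (fun d => φ / √(d : ℝ)) α y K 0 0 ≤
      4 * φ ^ 2 * h1 / (√((p : ℝ) + 1) * √((K : ℝ) - p)) := by
  have hα0 : ∀ i, 0 ≤ α i := fun i => by
    by_cases h : i = p
    · rw [h, hαp]
    · rw [hα i h]
      exact zero_le_one
  have hh1 := (hy p).trans hy1
  have a := chain_tail φ h0 hφ hh0 K p hp hsmall α y hy hα0 (fun i h => hα i h.ne')
    (fun i h => hy0 i h.ne')
  have b := chain_super φ h0 _ hφ hh0 (by positivity) K p _ hp.le hsmall α y hy hα0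
    (fun l _ => chain_forced φ h1 _ hφ α y hy hα0 p _ hαp hy1 a l) p 0 (zero_add p)
    (fun j _ h => hα j h.ne) (fun j _ h => hy0 j h.ne) 0 le_rfl
  rw [show K - (p + 1) + 1 + p = K by omega] at b
  refine b.trans (le_of_eq ?_)
  push_cast [Nat.sub_zero]
  ring

/-- Two forced clusters `p < p'`. -/
theorem chain_two (φ h0 h1 : ℝ) (hφ : 0 ≤ φ) (hh0 : 0 ≤ h0) (K p p' : ℕ) (hp : p < p') (hp' : p' < K)
    (hsmall : 8 * φ * h0 * √((K : ℝ) + 1) ≤ 1) (α y : ℕ → ℝ) (hy : ∀ i, 0 ≤ y i)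
    (hα : ∀ i, i ≠ p → i ≠ p' → α i = 1) (hαp : α p = 0) (hαp' : α p' = 0)
    (hy0 : ∀ i, i ≠ p → i ≠ p' → y i ≤ h0) (hy1 : y p ≤ h1) (hy2 : y p' ≤ h1) :
    Chain (fun d => φ / √(d : ℝ)) α y K 0 0 ≤
      8 * φ ^ 3 * h1 ^ 2 / (√((p : ℝ) + 1) * √((K : ℝ) - p')) := by
  have hα0 : ∀ i, 0 ≤ α i := fun i => by
    by_cases h : i = p
    · rw [h, hαp]
    · by_cases h' : i = p'
      · rw [h', hαp']
      · rw [hα i h h']
        exact zero_le_one
  have hh1 := (hy p).trans hy1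
  have a := chain_tail φ h0 hφ hh0 K p' hp' hsmall α y hy hα0
    (fun i h => hα i (by omega) h.ne') (fun i h => hy0 i (by omega) h.ne')
  have b := chain_super φ h0 _ hφ hh0 (by positivity) K p' _ hp'.le hsmall α y hy hα0
    (fun l _ => chain_forced φ h1 _ hφ α y hy hα0 p' _ hαp' hy2 a l) (p' - (p + 1)) (p + 1)
    (by omega) (fun j h h' => hα j (by omega) h'.ne) (fun j h h' => hy0 j (by omega) h'.ne)
    (p + 1) le_rfl
  have c : φ / √((p' + 1 - (p + 1) : ℕ) : ℝ) ≤ φ := by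
    refine div_le_self hφ (Real.one_le_sqrt.mpr ?_)
    have : 1 ≤ p' + 1 - (p + 1) := by omega
    exact_mod_cast this
  have b' := b.trans (mul_le_mul_of_nonneg_left c (by positivity))
  have e := chain_super φ h0 _ hφ hh0 (by positivity) K p _ (by omega) hsmall α y hy hα0
    (fun l _ => chain_forced φ h1 _ hφ α y hy hα0 p _ hαp hy1 b' l) p 0 (zero_add p)
    (fun j _ h => hα j h.ne (by omega)) (fun j _ h => hy0 j h.ne (by omega)) 0 le_rfl
  rw [show K - (p' + 1) + 1 + (p' - (p + 1)) + 1 + p = K by omega] at e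
  refine e.trans (le_of_eq ?_)
  push_cast [Nat.sub_zero]
  ring

/-- `∑ i < K - d, 1 / (√(i+1) √(K-(i+d))) ≤ 4`, in the form used for weights indexed by integers. -/
lemma sum_profile (K d : ℕ) (s : Finset ℤ) (g : ℕ) :
    ∑ u ∈ s, ind (0 ≤ u + g ∧ u + g + d < K) / (√((u : ℝ) + g + 1) * √((K : ℝ) - (u + g + d))) ≤ 4 := by
  classical
  set D := K - d + 1 with hD
  let S := s.filter fun u : ℤ => 0 ≤ u + g ∧ u + g + d < K
  have h1 : ∑ u ∈ s, ind (0 ≤ u + g ∧ u + g + d < K) /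
      (√((u : ℝ) + g + 1) * √((K : ℝ) - (u + g + d))) =
      ∑ u ∈ S, 1 / (√((u : ℝ) + g + 1) * √((K : ℝ) - (u + g + d))) := by
    rw [sum_filter]
    refine sum_congr rfl fun u _ => ?_
    unfold ind
    split_ifs <;> simp
  have h2 : ∑ u ∈ S, 1 / (√((u : ℝ) + g + 1) * √((K : ℝ) - (u + g + d))) =
      ∑ j ∈ S.image fun u : ℤ => (u + g + 1).toNat, 1 / (√(j : ℝ) * √((D : ℝ) - j)) := by
    rw [sum_image]
    · refine sum_congr rfl fun u hu => ?_
      have hu' := (mem_filter.mp hu).2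
      have e1 : (((u + g + 1).toNat : ℕ) : ℝ) = (u : ℝ) + g + 1 := by
        have : (((u + g + 1).toNat : ℕ) : ℤ) = u + g + 1 := Int.toNat_of_nonneg (by omega)
        exact_mod_cast this
      have e2 : (D : ℝ) = (K : ℝ) - d + 1 := by
        rw [hD, Nat.cast_add, Nat.cast_sub (by omega)]
        simp
      rw [e1, e2]
      congr 3
      ring
    · intro u hu v hv h
      have hu' := (mem_filter.mp hu).2
      have hv' := (mem_filter.mp hv).2
      simp only at h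
      omega
  rw [h1, h2]
  refine le_trans (sum_le_sum_of_subset_of_nonneg (fun j hj => ?_) fun _ _ _ => ?_)
    (sum_inv_sqrt D)
  · obtain ⟨u, hu, rfl⟩ := mem_image.mp hj
    have hu' := (mem_filter.mp hu).2
    rw [mem_Ioo]
    omega
  · positivity
lemma profile_le (K : ℕ) (i : ℤ) (h0 : 0 ≤ i) (h1 : i < K) :
    1 / (√((i : ℝ) + 1) * √((K : ℝ) - i)) ≤ 1 / √(K : ℝ) := by
  have a0 : (0 : ℝ) ≤ i := by exact_mod_cast h0
  have a1 : (i : ℝ) + 1 ≤ K := by exact_mod_cast h1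
  refine one_div_le_one_div_of_le (Real.sqrt_pos.mpr (by linarith)) ?_
  rw [← Real.sqrt_mul (by linarith)]
  exact Real.sqrt_le_sqrt (by nlinarith)

end Pool.Agent.Lib.MP_343fe0_pr
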