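import Pool.Agent.Lib.MP_343fe0_pr.Law
import Pool.Agent.Lib.MP_343fe0_pr.Chain

set_option autoImplicit false

/-! The first replica: annealed bounds. -/

namespace Pool.Agent.Lib.MP_343fe0_pr

open Finset

variable {a : ℕ}

lemma anneal_atZ_cns (ha : 1 ≤ a) (y : ℕ → Ctx a → Bool → Ctx a → Bool → ℝ) {s z : ℕ}
    (c0 : Ctx a) (ξ0 : Bool) (h : s + stp c0 ξ0 ≤ z) (c : ℕ → Ctx a) (ξ : ℕ → Bool) :
    atZ y s z (cns c0 c) (cns ξ0 ξ) = atZ y (s + stp c0 ξ0) z c ξ := by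
  obtain ⟨h1, h2⟩ := r0_spec ha h c ξ
  have h3 : r0 s (cns c0 c) (cns ξ0 ξ) z = r0 (s + stp c0 ξ0) c ξ z + 1 := by
    apply r0_eq
    · rw [pos_cns]; exact h1
    · rw [pos_cns]; exact h2
  unfold atZ
  rw [h3, pos_cns]
  rfl

lemma anneal_atZ_cover (y : ℕ → Ctx a → Bool → Ctx a → Bool → ℝ) {s z : ℕ} (hs : s ≤ z)
    (c0 : Ctx a) (ξ0 : Bool) (h : z < s + stp c0 ξ0) (c1 : Ctx a) (ξ1 : Bool) (c : ℕ → Ctx a)
    (ξ : ℕ → Bool) :
    atZ y s z (cns c0 (cns c1 c)) (cns ξ0 (cns ξ1 ξ)) = y (z - s) c0 ξ0 c1 ξ1 := by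
  have h3 : r0 s (cns c0 (cns c1 c)) (cns ξ0 (cns ξ1 ξ)) z = 0 := by
    apply r0_eq
    · rw [pos_zero]; exact hs
    · rw [pos_cns, pos_zero]; exact h
  unfold atZ
  rw [h3, pos_zero]
  rfl

lemma anneal_w_nonneg {β : ℝ} (h0 : 0 ≤ β) (h1 : β ≤ 1) (c : Ctx a) (ξ : Bool) :
    0 ≤ kap β c * pr (1 / 2) c ξ :=
  mul_nonneg (kap_nonneg h0 h1 c) (pr_nonneg (by norm_num) (by norm_num) c ξ)

lemma anneal_w_sum (β t : ℝ) : ∑ c : Ctx a, ∑ ξ, kap β c * pr (1 / 2) c ξ * t = t := by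
  have : ∀ c : Ctx a, ∑ ξ, kap β c * pr (1 / 2) c ξ * t = kap β c * t := by
    intro c
    rw [← sum_mul, ← mul_sum, pr_sum, mul_one]
  rw [sum_congr rfl fun c _ => this c, ← sum_mul, kap_sum, one_mul]

/-- The renewal supersolution. -/
noncomputable def annealB (a : ℕ) (yb : ℕ → ℝ) (Y : ℝ) (u : ℕ) : ℝ :=
  ind (u ≤ 2 * a) * yb u + Y / ((a : ℝ) + 1) * min ((u : ℝ) / a) 5

lemma anneal_renew (ha : 1 ≤ a) {β : ℝ} (h0 : 0 ≤ β) (h1 : β ≤ 1) (yb : ℕ → ℝ)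
    (hyb : ∀ u, 0 ≤ yb u) {Y : ℝ} (hY : ∑ u ∈ range (2 * a + 1), yb u ≤ Y) (u : ℕ) :
    ∑ c : Ctx a, ∑ ξ, kap β c * pr (1 / 2) c ξ *
      (ind (stp c ξ ≤ u) * annealB a yb Y (u - stp c ξ)) ≤
      Y / ((a : ℝ) + 1) * min ((u : ℝ) / a) 5 := by
  have ha' : (1 : ℝ) ≤ a := by exact_mod_cast ha
  have hY0 : 0 ≤ Y := le_trans (sum_nonneg fun u _ => hyb u) hY
  have hYa : 0 ≤ Y / ((a : ℝ) + 1) := by positivity
  by_cases hu : a ≤ u ∧ u ≤ 4 * a + 1
  · have hu1 : (a : ℝ) ≤ u := by exact_mod_cast hu.1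
    have hu2 : (u : ℝ) ≤ 4 * a + 1 := by exact_mod_cast hu.2
    have hu3 : 1 ≤ (u : ℝ) / a := by rw [le_div_iff₀ (by linarith)]; linarith
    have hu4 : (u : ℝ) / a ≤ 5 := by rw [div_le_iff₀ (by linarith)]; linarith
    have key : ∀ (c : Ctx a) (ξ : Bool), ind (stp c ξ ≤ u) * annealB a yb Y (u - stp c ξ) ≤
        ∑ v ∈ range (2 * a + 1), ind (stp c ξ = u - v) * yb v +
          Y / ((a : ℝ) + 1) * ((u : ℝ) / a - 1) := by
      intro c ξ
      have hnn : ∀ v ∈ range (2 * a + 1), 0 ≤ ind (stp c ξ = u - v) * yb v :=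
        fun v _ => mul_nonneg (ind_nonneg _) (hyb v)
      by_cases h : stp c ξ ≤ u
      · rw [ind_true h, one_mul, annealB]
        refine add_le_add ?_ (mul_le_mul_of_nonneg_left ((min_le_left _ _).trans ?_) hYa)
        · by_cases h2 : u - stp c ξ ≤ 2 * a
          · refine le_trans ?_ (single_le_sum hnn (mem_range.mpr (Nat.lt_succ_of_le h2)))
            rw [ind_true h2, ind_true (by omega)]
          · rw [ind_false h2, zero_mul]; exact sum_nonneg hnn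
        · have h3 : (a : ℝ) ≤ stp c ξ := by exact_mod_cast stp_ge c ξ
          rw [Nat.cast_sub h, div_le_iff₀ (by linarith), sub_mul, div_mul_cancel₀ _ (by linarith)]
          linarith
      · rw [ind_false h, zero_mul]
        exact add_nonneg (sum_nonneg hnn) (mul_nonneg hYa (by linarith))
    calc _ ≤ ∑ c : Ctx a, ∑ ξ, kap β c * pr (1 / 2) c ξ *
          (∑ v ∈ range (2 * a + 1), ind (stp c ξ = u - v) * yb v +
            Y / ((a : ℝ) + 1) * ((u : ℝ) / a - 1)) :=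
          sum_le_sum fun c _ => sum_le_sum fun ξ _ =>
            mul_le_mul_of_nonneg_left (key c ξ) (anneal_w_nonneg h0 h1 c ξ)
      _ = ∑ v ∈ range (2 * a + 1), (∑ c : Ctx a, ∑ ξ, kap β c * pr (1 / 2) c ξ *
            ind (stp c ξ = u - v)) * yb v + Y / ((a : ℝ) + 1) * ((u : ℝ) / a - 1) := by
          simp only [mul_add, sum_add_distrib]
          rw [anneal_w_sum]
          congr 1
          simp only [mul_sum, sum_mul]
          rw [sum_comm (s := range (2 * a + 1))]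
          refine sum_congr rfl fun c _ => ?_
          rw [sum_comm (s := range (2 * a + 1))]
          refine sum_congr rfl fun ξ _ => sum_congr rfl fun v _ => by ring
      _ ≤ ∑ v ∈ range (2 * a + 1), 1 / ((a : ℝ) + 1) * yb v +
            Y / ((a : ℝ) + 1) * ((u : ℝ) / a - 1) := by
          gcongr with v hv
          · exact hyb v
          · exact stp_law h0 h1 _
      _ ≤ 1 / ((a : ℝ) + 1) * Y + Y / ((a : ℝ) + 1) * ((u : ℝ) / a - 1) := by
          rw [← mul_sum]; gcongr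
      _ = _ := by rw [min_eq_left hu4]; ring
  · rw [← anneal_w_sum (a := a) β (Y / ((a : ℝ) + 1) * min ((u : ℝ) / a) 5)]
    refine sum_le_sum fun c _ => sum_le_sum fun ξ _ =>
      mul_le_mul_of_nonneg_left ?_ (anneal_w_nonneg h0 h1 c ξ)
    have h3 := stp_ge c ξ
    have h4 := stp_le c ξ
    by_cases h : stp c ξ ≤ u
    · rw [ind_true h, one_mul, annealB, ind_false (by omega), zero_mul, zero_add]
      have : ((u - stp c ξ : ℕ) : ℝ) ≤ u := by exact_mod_cast Nat.sub_le _ _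
      gcongr
    · rw [ind_false h, zero_mul]
      exact mul_nonneg hYa (le_min (by positivity) (by norm_num))

lemma anneal_zz_gap {M i j : ℕ} (hM : 2 ≤ M) (h : i < j) :
    zz a M i + 4 * (2 * a + 1) ≤ zz a M j := by
  have h1 : 4 * (2 * a + 1) ≤ LL a M := by unfold LL HH; nlinarith
  have h2 : (i + 1) * LL a M ≤ j * LL a M := Nat.mul_le_mul_right _ h
  unfold zz
  nlinarith

lemma anneal_of_far {β : ℝ} {M n : ℕ}
    (y : ℕ → ℕ → Ctx a → Bool → Ctx a → Bool → ℝ) (yb : ℕ → ℕ → ℝ) (Y : ℕ → ℝ)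
    (hY0 : ∀ i, 0 ≤ Y i)
    (hP : ∀ s i (J : Finset ℕ), (∀ j ∈ J, i < j) → s ≤ zz a M i → zz a M i + 2 ≤ s + n →
      (∀ j ∈ J, zz a M j + 2 ≤ s + n) →
      AX β n (fun c ξ => atZ (y i) s (zz a M i) c ξ * ∏ j ∈ J, atZ (y j) s (zz a M j) c ξ) ≤
        annealB a (yb i) (Y i) (zz a M i - s) * ∏ j ∈ J, 5 / ((a : ℝ) + 1) * Y j)
    (s : ℕ) (J : Finset ℕ) (hJ : ∀ j ∈ J, s + 2 * a < zz a M j ∧ zz a M j + 2 ≤ s + n) :
    AX β n (fun c ξ => ∏ j ∈ J, atZ (y j) s (zz a M j) c ξ) ≤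
      ∏ j ∈ J, 5 / ((a : ℝ) + 1) * Y j := by
  rcases J.eq_empty_or_nonempty with rfl | hne
  · simp only [prod_empty]; rw [AX_const]
  · set i := J.min' hne with hi
    have hiJ : i ∈ J := J.min'_mem hne
    have h1 := hP s i (J.erase i) (fun j hj => lt_of_le_of_ne (J.min'_le j (mem_of_mem_erase hj))
      (ne_of_mem_erase hj).symm) (by have := (hJ i hiJ).1; omega) (hJ i hiJ).2
      fun j hj => (hJ j (mem_of_mem_erase hj)).2
    have e : (fun c ξ => atZ (y i) s (zz a M i) c ξ *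
        ∏ j ∈ J.erase i, atZ (y j) s (zz a M j) c ξ) =
        fun c ξ => ∏ j ∈ J, atZ (y j) s (zz a M j) c ξ := by
      funext c ξ
      exact mul_prod_erase J (fun j => atZ (y j) s (zz a M j) c ξ) hiJ
    rw [e] at h1
    refine h1.trans ?_
    rw [← mul_prod_erase J _ hiJ]
    refine mul_le_mul_of_nonneg_right ?_ (prod_nonneg fun j _ => by have := hY0 j; positivity)
    have h2 := (hJ i hiJ).1
    rw [annealB, ind_false (by omega), zero_mul, zero_add]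
    have h3 : 0 ≤ Y i / ((a : ℝ) + 1) := by have := hY0 i; positivity
    calc _ ≤ Y i / ((a : ℝ) + 1) * 5 := mul_le_mul_of_nonneg_left (min_le_right _ _) h3
      _ = _ := by ring

lemma anneal_main (ha : 1 ≤ a) {β : ℝ} (h0 : 0 ≤ β) (h1 : β ≤ 1) {M : ℕ} (hM : 2 ≤ M)
    (y : ℕ → ℕ → Ctx a → Bool → Ctx a → Bool → ℝ) (hy : ∀ i u c0 ξ0 c1 ξ1, 0 ≤ y i u c0 ξ0 c1 ξ1)
    (yb : ℕ → ℕ → ℝ)
    (hyb : ∀ i u, yb i u = ∑ c0, ∑ ξ0, ∑ c1, ∑ ξ1,
      kap β c0 * pr (1 / 2) c0 ξ0 * (kap β c1 * pr (1 / 2) c1 ξ1) * y i u c0 ξ0 c1 ξ1)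
    (Y : ℕ → ℝ) (hY : ∀ i, ∑ u ∈ range (2 * a + 1), yb i u ≤ Y i) (n : ℕ) :
    ∀ s i (J : Finset ℕ), (∀ j ∈ J, i < j) → s ≤ zz a M i → zz a M i + 2 ≤ s + n →
      (∀ j ∈ J, zz a M j + 2 ≤ s + n) →
      AX β n (fun c ξ => atZ (y i) s (zz a M i) c ξ * ∏ j ∈ J, atZ (y j) s (zz a M j) c ξ) ≤
        annealB a (yb i) (Y i) (zz a M i - s) * ∏ j ∈ J, 5 / ((a : ℝ) + 1) * Y j := by
  have hyb0 : ∀ i u, 0 ≤ yb i u := by
    intro i u
    rw [hyb]
    exact sum_nonneg fun c0 _ => sum_nonneg fun ξ0 _ => sum_nonneg fun c1 _ => sum_nonneg fun ξ1 _ =>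
      mul_nonneg (mul_nonneg (anneal_w_nonneg h0 h1 _ _) (anneal_w_nonneg h0 h1 _ _)) (hy _ _ _ _ _ _)
  have hY0 : ∀ i, 0 ≤ Y i := fun i => le_trans (sum_nonneg fun u _ => hyb0 i u) (hY i)
  induction n using Nat.strong_induction_on with
  | _ n ih =>
  intro s i J hJ hs hn hnJ
  obtain ⟨n, rfl⟩ : ∃ k, n = k + 2 := ⟨n - 2, by omega⟩
  set Pi := ∏ j ∈ J, 5 / ((a : ℝ) + 1) * Y j with hPi
  have hPi0 : 0 ≤ Pi := prod_nonneg fun j _ => by have := hY0 j; positivity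
  set u := zz a M i - s with hu
  have key : ∀ (c0 : Ctx a) (ξ0 : Bool),
      AX β (n + 1) (fun c ξ => atZ (y i) s (zz a M i) (cns c0 c) (cns ξ0 ξ) *
        ∏ j ∈ J, atZ (y j) s (zz a M j) (cns c0 c) (cns ξ0 ξ)) ≤
      (ind (stp c0 ξ0 ≤ u) * annealB a (yb i) (Y i) (u - stp c0 ξ0) +
        ind (u ≤ 2 * a) * ∑ c1, ∑ ξ1, kap β c1 * pr (1 / 2) c1 ξ1 * y i u c0 ξ0 c1 ξ1) * Pi := by
    intro c0 ξ0
    have h3 := stp_ge c0 ξ0
    have h4 := stp_le c0 ξ0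
    have hJ0 : ∀ j ∈ J, ∀ c ξ, atZ (y j) s (zz a M j) (cns c0 c) (cns ξ0 ξ) =
        atZ (y j) (s + stp c0 ξ0) (zz a M j) c ξ := by
      intro j hj c ξ
      have := anneal_zz_gap (a := a) hM (hJ j hj)
      exact anneal_atZ_cns ha _ _ _ (by omega) _ _
    have hnn : 0 ≤ ∑ c1, ∑ ξ1, kap β c1 * pr (1 / 2) c1 ξ1 * y i u c0 ξ0 c1 ξ1 :=
      sum_nonneg fun c1 _ => sum_nonneg fun ξ1 _ =>
        mul_nonneg (anneal_w_nonneg h0 h1 _ _) (hy _ _ _ _ _ _)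
    by_cases h : stp c0 ξ0 ≤ u
    · have h5 := ih (n + 1) (by omega) (s + stp c0 ξ0) i J hJ (by omega) (by omega)
        fun j hj => by have := hnJ j hj; omega
      have e : (fun c ξ => atZ (y i) s (zz a M i) (cns c0 c) (cns ξ0 ξ) *
          ∏ j ∈ J, atZ (y j) s (zz a M j) (cns c0 c) (cns ξ0 ξ)) =
          fun c ξ => atZ (y i) (s + stp c0 ξ0) (zz a M i) c ξ *
            ∏ j ∈ J, atZ (y j) (s + stp c0 ξ0) (zz a M j) c ξ := by
        funext c ξ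
        rw [anneal_atZ_cns ha _ _ _ (by omega), prod_congr rfl fun j hj => hJ0 j hj c ξ]
      rw [e, ind_true h, one_mul, show u - stp c0 ξ0 = zz a M i - (s + stp c0 ξ0) by omega]
      refine h5.trans (mul_le_mul_of_nonneg_right ?_ hPi0)
      exact le_add_of_nonneg_right (mul_nonneg (ind_nonneg _) hnn)
    · rw [ind_false h, zero_mul, zero_add, ind_true (by omega), one_mul, AX_succ, sum_mul]
      refine sum_le_sum fun c1 _ => ?_
      rw [sum_mul]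
      refine sum_le_sum fun ξ1 _ => ?_
      rw [mul_assoc (kap β c1 * pr (1 / 2) c1 ξ1)]
      refine mul_le_mul_of_nonneg_left ?_ (anneal_w_nonneg h0 h1 _ _)
      have h5 := stp_ge c1 ξ1
      have h6 := stp_le c1 ξ1
      have e : (fun c ξ => atZ (y i) s (zz a M i) (cns c0 (cns c1 c)) (cns ξ0 (cns ξ1 ξ)) *
          ∏ j ∈ J, atZ (y j) s (zz a M j) (cns c0 (cns c1 c)) (cns ξ0 (cns ξ1 ξ))) =
          fun c ξ => y i u c0 ξ0 c1 ξ1 *
            ∏ j ∈ J, atZ (y j) (s + stp c0 ξ0 + stp c1 ξ1) (zz a M j) c ξ := by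
        funext c ξ
        rw [anneal_atZ_cover _ hs _ _ (by omega)]
        congr 1
        refine prod_congr rfl fun j hj => ?_
        have := anneal_zz_gap (a := a) hM (hJ j hj)
        rw [hJ0 j hj, anneal_atZ_cns ha _ _ _ (by omega)]
      rw [e, AX_mul_left]
      refine mul_le_mul_of_nonneg_left ?_ (hy _ _ _ _ _ _)
      refine anneal_of_far y yb Y hY0 (ih n (by omega)) _ J fun j hj => ?_
      have := anneal_zz_gap (a := a) hM (hJ j hj)
      have := hnJ j hj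
      omega
  rw [AX_succ]
  refine (sum_le_sum fun c0 _ => sum_le_sum fun ξ0 _ =>
    mul_le_mul_of_nonneg_left (key c0 ξ0) (anneal_w_nonneg h0 h1 _ _)).trans ?_
  have h7 := anneal_renew ha h0 h1 (yb i) (hyb0 i) (hY i) u
  have h8 : ∑ c0 : Ctx a, ∑ ξ0, kap β c0 * pr (1 / 2) c0 ξ0 *
      ((ind (stp c0 ξ0 ≤ u) * annealB a (yb i) (Y i) (u - stp c0 ξ0) +
        ind (u ≤ 2 * a) * ∑ c1, ∑ ξ1, kap β c1 * pr (1 / 2) c1 ξ1 * y i u c0 ξ0 c1 ξ1) * Pi) =
      (∑ c0 : Ctx a, ∑ ξ0, kap β c0 * pr (1 / 2) c0 ξ0 *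
        (ind (stp c0 ξ0 ≤ u) * annealB a (yb i) (Y i) (u - stp c0 ξ0)) +
        ind (u ≤ 2 * a) * yb i u) * Pi := by
    rw [hyb]
    simp only [mul_sum, sum_mul, add_mul, mul_add, sum_add_distrib]
    congr 1
    · exact sum_congr rfl fun c0 _ => sum_congr rfl fun ξ0 _ => by ring
    · exact sum_congr rfl fun c0 _ => sum_congr rfl fun ξ0 _ => sum_congr rfl fun c1 _ =>
        sum_congr rfl fun ξ1 _ => by ring
  rw [h8]
  refine mul_le_mul_of_nonneg_right ?_ hPi0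
  rw [annealB]
  linarith

/-- Renewal bound.  Let `I` be listed increasingly, with smallest element `i`, let `u = zz i - s` and
`ybar u = ∑ c0 ξ0 c1 ξ1, weights * y i u c0 ξ0 c1 ξ1`.  Prove by induction on the number of steps `n`, for all starts
`s ≤ zz i` with `zz (max I) + 2 ≤ s + n`, that the expectation is at most
`(ind (u ≤ 2a) * ybar u + Y i / (a+1) * min (u / a) 5) * ∏ over the rest of I of 5 * Y j / (a+1)`
(`AX_succ`, `stp_law`; if the first step does not cover `zz i` then `r0` shifts by one; if it does, take one more step and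
restart at distance more than `2a` from the next cluster). -/
theorem anneal_prod (ha : 1 ≤ a) {β : ℝ} (h0 : 0 ≤ β) (h1 : β ≤ 1) {M K s N : ℕ} (hM : 2 ≤ M)
    (hs : s ≤ 2 * a + 1) (hN : K * LL a M ≤ N)
    (y : ℕ → ℕ → Ctx a → Bool → Ctx a → Bool → ℝ) (hy : ∀ i u c0 ξ0 c1 ξ1, 0 ≤ y i u c0 ξ0 c1 ξ1)
    (Y : ℕ → ℝ)
    (hY : ∀ i, ∑ u ∈ range (2 * a + 1), ∑ c0, ∑ ξ0, ∑ c1, ∑ ξ1,
      kap β c0 * pr (1 / 2) c0 ξ0 * (kap β c1 * pr (1 / 2) c1 ξ1) * y i u c0 ξ0 c1 ξ1 ≤ Y i)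
    (I : Finset ℕ) (hI : I ⊆ range K) :
    AX β N (fun c ξ => ∏ i ∈ I, atZ (y i) s (zz a M i) c ξ) ≤ ∏ i ∈ I, 5 / ((a : ℝ) + 1) * Y i := by
  have hY0 : ∀ i, 0 ≤ Y i := fun i => le_trans (sum_nonneg fun u _ => sum_nonneg fun c0 _ =>
    sum_nonneg fun ξ0 _ => sum_nonneg fun c1 _ => sum_nonneg fun ξ1 _ =>
      mul_nonneg (mul_nonneg (anneal_w_nonneg h0 h1 _ _) (anneal_w_nonneg h0 h1 _ _))
        (hy _ _ _ _ _ _)) (hY i)
  refine anneal_of_far y _ Y hY0 (anneal_main ha h0 h1 hM y hy _ (fun _ _ => rfl) Y hY N) s I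
    fun j hj => ?_
  have h2 : (j + 1) * LL a M ≤ K * LL a M := Nat.mul_le_mul_right _ (mem_range.mp (hI hj))
  have h3 : 2 * (2 * a + 1) ≤ HH a M := by unfold HH; nlinarith
  have h4 : LL a M = 2 * HH a M := rfl
  have h5 : zz a M j = j * LL a M + HH a M := rfl
  rw [add_mul, one_mul] at h2
  constructor <;> omega

/-- `Chain` is multilinear with nonnegative coefficients: prove, by induction on `n`, for all finite sets `J` of clusters
below `i`, `AX (∏ J * Chain f α · n i l) ≤ ∏ J * Chain f α · n i l`. -/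
theorem anneal_chain (ha : 1 ≤ a) {β : ℝ} (h0 : 0 ≤ β) (h1 : β ≤ 1) {M K s N : ℕ} (hM : 2 ≤ M)
    (hs : s ≤ 2 * a + 1) (hN : K * LL a M ≤ N)
    (y : ℕ → ℕ → Ctx a → Bool → Ctx a → Bool → ℝ) (hy : ∀ i u c0 ξ0 c1 ξ1, 0 ≤ y i u c0 ξ0 c1 ξ1)
    (Y : ℕ → ℝ)
    (hY : ∀ i, ∑ u ∈ range (2 * a + 1), ∑ c0, ∑ ξ0, ∑ c1, ∑ ξ1,
      kap β c0 * pr (1 / 2) c0 ξ0 * (kap β c1 * pr (1 / 2) c1 ξ1) * y i u c0 ξ0 c1 ξ1 ≤ Y i)
    (f α : ℕ → ℝ) (hf : ∀ d, 0 ≤ f d) (hα : ∀ i, 0 ≤ α i) :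
    AX β N (fun c ξ => Chain f α (fun i => atZ (y i) s (zz a M i) c ξ) K 0 0) ≤
      Chain f α (fun i => 5 / ((a : ℝ) + 1) * Y i) K 0 0 := by
  have key : ∀ n i l (J : Finset ℕ), i + n ≤ K → J ⊆ range i →
      AX β N (fun c ξ => (∏ j ∈ J, atZ (y j) s (zz a M j) c ξ) *
        Chain f α (fun i => atZ (y i) s (zz a M i) c ξ) n i l) ≤
      (∏ j ∈ J, 5 / ((a : ℝ) + 1) * Y j) * Chain f α (fun i => 5 / ((a : ℝ) + 1) * Y i) n i l := by
    intro n
    induction n with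
    | zero =>
      intro i l J hi hJ
      simp only [Chain]
      simp only [mul_comm _ (f (i + 1 - l))]
      rw [AX_mul_left]
      exact mul_le_mul_of_nonneg_left (anneal_prod ha h0 h1 hM hs hN y hy Y hY J
        (hJ.trans (range_subset_range.mpr (by omega)))) (hf _)
    | succ n ih =>
      intro i l J hi hJ
      have hiJ : i ∉ J := fun h => by simpa using hJ h
      have h2 := ih (i + 1) l J (by omega) (hJ.trans (range_subset_range.mpr (by omega)))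
      have h3 := ih (i + 1) (i + 1) (insert i J) (by omega) (by
        intro j hj
        rcases mem_insert.mp hj with rfl | hj
        · simp
        · have := mem_range.mp (hJ hj)
          exact mem_range.mpr (by omega))
      simp only [prod_insert hiJ] at h3
      have e : (fun c ξ => (∏ j ∈ J, atZ (y j) s (zz a M j) c ξ) *
          Chain f α (fun i => atZ (y i) s (zz a M i) c ξ) (n + 1) i l) =
          fun c ξ => α i * ((∏ j ∈ J, atZ (y j) s (zz a M j) c ξ) *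
            Chain f α (fun i => atZ (y i) s (zz a M i) c ξ) n (i + 1) l) +
            f (i + 1 - l) * ((atZ (y i) s (zz a M i) c ξ * ∏ j ∈ J, atZ (y j) s (zz a M j) c ξ) *
            Chain f α (fun i => atZ (y i) s (zz a M i) c ξ) n (i + 1) (i + 1)) := by
        funext c ξ
        simp only [Chain]; ring
      rw [e, AX_plus, AX_mul_left, AX_mul_left]
      have h4 := mul_le_mul_of_nonneg_left h2 (hα i)
      have h5 := mul_le_mul_of_nonneg_left h3 (hf (i + 1 - l))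
      refine (add_le_add h4 h5).trans (le_of_eq ?_)
      simp only [Chain]; ring
  simpa using key K 0 0 ∅ (by omega) (by simp)

end Pool.Agent.Lib.MP_343fe0_pr
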