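import Pool.Agent.Lib.MP_343fe0_pr.Walk

set_option autoImplicit false

/-! Level zero: sites `01` and `1`. -/

namespace Pool.Agent.Lib.MP_343fe0_pr

open Finset

/-- The background site. -/
def baseU : Wd := FreeMonoid.of false * FreeMonoid.of true
/-- The defect site. -/
def baseV : Wd := FreeMonoid.of true

/-- Law of the trace of the first `k` sites with defect set `S`. -/
noncomputable def baseQ (k : ℕ) (S : Finset ℕ) : Alg :=
  mu (word baseU baseV (fun j => decide (j ∈ S)) k)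

lemma base_mu_of (b : Bool) : Dom ((1 / 2 : ℝ) • (1 : Alg)) (mu (FreeMonoid.of b)) := by
  have h : mu (FreeMonoid.of b) =
      (1 / 2 : ℝ) • (1 + MonoidAlgebra.single (FreeMonoid.of b) (1 : ℝ)) := by
    simp [mu]
  rw [h]
  apply Dom.smul (by norm_num)
  intro w
  have := NN.single (FreeMonoid.of b) (t := 1) (by norm_num) w
  simp only [MonoidAlgebra.coeff_add, Finsupp.add_apply]
  linarith

lemma base_dom_of_eq {f g f' g' : Alg} (h : Dom f g) (h1 : f = f') (h2 : g = g') : Dom f' g' := by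
  rw [← h1, ← h2]; exact h

lemma base_V_le : Dom (mu baseV) ((2 : ℝ) • mu baseU) := by
  have h1 : Dom (((1 / 2 : ℝ) • (1 : Alg)) * mu baseV) (mu (FreeMonoid.of false) * mu baseV) :=
    Dom.mul_right (mu_nn _) (base_mu_of false)
  have h2 := Dom.smul (t := 2) (by norm_num) h1
  refine base_dom_of_eq h2 ?_ ?_
  · rw [smul_mul_assoc, one_mul, smul_smul]; norm_num
  · rw [baseU, map_mul]; rfl

lemma base_U_le : Dom (mu baseU) ((2 : ℝ) • mu baseU) := by
  have := Dom.smul_le (mu_nn baseU) (t := 1) (t' := 2) (by norm_num)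
  rwa [one_smul] at this

lemma base_one_V : Dom (1 : Alg) ((4 : ℝ) • mu baseV) := by
  have h2 := Dom.smul (t := 2) (by norm_num) (base_mu_of true)
  have h3 : Dom (1 : Alg) ((2 : ℝ) • mu baseV) := by
    refine base_dom_of_eq h2 ?_ rfl
    rw [smul_smul]; norm_num
  exact h3.trans (Dom.smul_le (mu_nn _) (by norm_num))

lemma base_one_U : Dom (1 : Alg) ((4 : ℝ) • mu baseU) := by
  have h2 := Dom.smul (t := 2) (by norm_num) (base_mu_of true)
  have h3 : Dom (1 : Alg) ((2 : ℝ) • mu baseV) := by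
    refine base_dom_of_eq h2 ?_ rfl
    rw [smul_smul]; norm_num
  have h4 := Dom.smul (t := 2) (by norm_num) base_V_le
  refine h3.trans (base_dom_of_eq h4 rfl ?_)
  rw [smul_smul]; norm_num

lemma baseQ_nn (k : ℕ) (S : Finset ℕ) : NN (baseQ k S) := mu_nn _

lemma baseQ_mass (k : ℕ) (S : Finset ℕ) : mass (baseQ k S) = 1 := mass_mu _

lemma baseQ_succ (k : ℕ) (S : Finset ℕ) :
    baseQ (k + 1) S = baseQ k S * mu (if k ∈ S then baseV else baseU) := by
  unfold baseQ
  rw [word_succ, map_mul]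
  by_cases h : k ∈ S <;> simp [h]

lemma baseQ_le (k : ℕ) (S : Finset ℕ) : Dom (baseQ k S) (((2 : ℝ) ^ k) • baseQ k ∅) := by
  induction k with
  | zero =>
    have : baseQ 0 S = baseQ 0 ∅ := by unfold baseQ; rw [word_zero, word_zero]
    rw [this, pow_zero, one_smul]; exact Dom.refl _
  | succ k ih =>
    rw [baseQ_succ, baseQ_succ]
    have h1 : Dom (mu (if k ∈ S then baseV else baseU)) ((2 : ℝ) • mu baseU) := by
      split_ifs
      · exact base_V_le
      · exact base_U_le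
    have h2 := Dom.mul_left (baseQ_nn k S) h1
    have h3 := Dom.mul_right (NN.smul (t := 2) (by norm_num) (mu_nn baseU)) ih
    refine base_dom_of_eq (h2.trans h3) rfl ?_
    rw [smul_mul_assoc, mul_smul_comm, smul_smul, pow_succ]
    simp

lemma baseQ_step (k : ℕ) (S : Finset ℕ) : Dom (baseQ k S) ((4 : ℝ) • baseQ (k + 1) S) := by
  rw [baseQ_succ]
  have h1 : Dom (1 : Alg) ((4 : ℝ) • mu (if k ∈ S then baseV else baseU)) := by
    split_ifs
    · exact base_one_V
    · exact base_one_U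
  refine base_dom_of_eq (Dom.mul_left (baseQ_nn k S) h1) (mul_one _) ?_
  rw [mul_smul_comm]

/-- The law of the token. -/
noncomputable def baseLaw (c : Ctx 1) (S : Finset ℕ) : Alg :=
  if c.2 = some true then
    (8 / 7 : ℝ) • baseQ (1 + c.1.val + 1) S + (-1 / 7 : ℝ) • baseQ (1 + c.1.val) S
  else baseQ (1 + c.1.val) S

lemma base_coeff_comb (s t : ℝ) (f g : Alg) (w : Wd) :
    (s • f + t • g).coeff w = s * f.coeff w + t * g.coeff w := by
  simp [MonoidAlgebra.coeff_add]

lemma base_coeff_smul (s : ℝ) (f : Alg) (w : Wd) : (s • f).coeff w = s * f.coeff w := by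
  simp

lemma baseLaw_nn (c : Ctx 1) (S : Finset ℕ) : NN (baseLaw c S) := by
  unfold baseLaw
  split_ifs
  · intro w
    rw [base_coeff_comb]
    have h1 := baseQ_step (1 + c.1.val) S w
    rw [base_coeff_smul] at h1
    have h2 := baseQ_nn (1 + c.1.val + 1) S w
    linarith
  · exact baseQ_nn _ _

lemma baseLaw_mass (c : Ctx 1) (S : Finset ℕ) : mass (baseLaw c S) = 1 := by
  unfold baseLaw
  split_ifs
  · rw [mass_add, mass_smul, mass_smul, baseQ_mass, baseQ_mass]; norm_num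
  · exact baseQ_mass _ _

lemma base_pow_le {k : ℕ} (hk : k ≤ 3) : (2 : ℝ) ^ k ≤ 8 := by
  calc (2 : ℝ) ^ k ≤ 2 ^ 3 := pow_le_pow_right₀ (by norm_num) hk
    _ = 8 := by norm_num

lemma baseQ_le8 {k : ℕ} (hk : k ≤ 3) (S : Finset ℕ) (w : Wd) :
    (baseQ k S).coeff w ≤ 8 * (baseQ k ∅).coeff w := by
  have h1 := baseQ_le k S w
  rw [base_coeff_smul] at h1
  have h2 := baseQ_nn k ∅ w
  have h3 := base_pow_le hk
  nlinarith

lemma baseLaw_le (c : Ctx 1) (S : Finset ℕ) (w : Wd) :
    (baseLaw c S).coeff w ≤ 16 * (baseLaw c ∅).coeff w := by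
  have hc : c.1.val ≤ 1 := Nat.lt_succ_iff.mp c.1.isLt
  unfold baseLaw
  split_ifs
  · rw [base_coeff_comb, base_coeff_comb]
    have h1 := baseQ_le8 (k := 1 + c.1.val + 1) (by omega) S w
    have h2 := baseQ_nn (1 + c.1.val) S w
    have h3 := baseQ_step (1 + c.1.val) ∅ w
    rw [base_coeff_smul] at h3
    linarith
  · have h1 := baseQ_le8 (k := 1 + c.1.val) (by omega) S w
    have h2 := baseQ_nn (1 + c.1.val) ∅ w
    linarith

/-- The tokens. -/
noncomputable def baseT : Finset Wd := by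
  classical exact insert 1 (baseQ 3 ∅).coeff.support

lemma base_one_mem : (1 : Wd) ∈ baseT := by
  classical
  unfold baseT
  exact mem_insert_self _ _

lemma baseQ_zero_of {k : ℕ} (hk : k ≤ 3) (S : Finset ℕ) {w : Wd} (hw : w ∉ baseT) :
    (baseQ k S).coeff w = 0 := by
  classical
  have h3 : (baseQ 3 ∅).coeff w = 0 := by
    by_contra h
    apply hw
    unfold baseT
    exact mem_insert_of_mem (Finsupp.mem_support_iff.mpr h)
  have hstep : ∀ j, (baseQ (j + 1) ∅).coeff w = 0 → (baseQ j ∅).coeff w = 0 := by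
    intro j hj
    have h1 := baseQ_step j ∅ w
    rw [base_coeff_smul, hj] at h1
    have h2 := baseQ_nn j ∅ w
    linarith
  have h2 := hstep 2 h3
  have h1 := hstep 1 h2
  have h0 := hstep 0 h1
  have hk0 : (baseQ k ∅).coeff w = 0 := by
    interval_cases k <;> assumption
  have h4 := baseQ_le8 hk S w
  have h5 := baseQ_nn k S w
  rw [hk0] at h4
  linarith

lemma baseLaw_support (c : Ctx 1) (S : Finset ℕ) : (baseLaw c S).coeff.support ⊆ baseT := by
  intro w hw
  by_contra h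
  have hc : c.1.val ≤ 1 := Nat.lt_succ_iff.mp c.1.isLt
  apply Finsupp.mem_support_iff.mp hw
  unfold baseLaw
  split_ifs
  · rw [base_coeff_comb, baseQ_zero_of (by omega) S h, baseQ_zero_of (by omega) S h]; ring
  · exact baseQ_zero_of (by omega) S h

lemma baseLaw_sum (c : Ctx 1) (S : Finset ℕ) :
    ∑ o : baseT, (baseLaw c S).coeff o.1 = 1 := by
  rw [← baseLaw_mass c S, mass_eq_sum _ _ (baseLaw_support c S)]
  exact Finset.sum_coe_sort baseT fun w => (baseLaw c S).coeff w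

lemma base_sum_single (f : Alg) (hf : f.coeff.support ⊆ baseT) :
    ∑ o : baseT, f.coeff o.1 • MonoidAlgebra.single o.1 (1 : ℝ) = f := by
  classical
  rw [Finset.sum_coe_sort baseT fun w => f.coeff w • (MonoidAlgebra.single w (1 : ℝ) : Alg)]
  ext w
  rw [MonoidAlgebra.coeff_sum, Finsupp.finsetSum_apply]
  simp only [base_coeff_smul, MonoidAlgebra.coeff_single, Finsupp.single_apply]
  rw [Finset.sum_eq_single w]
  · simp
  · intro b _ hb; simp [hb]
  · intro hw
    have : f.coeff w = 0 := by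
      by_contra h
      exact hw (hf (Finsupp.mem_support_iff.mpr h))
    simp [this]

/-- The likelihood ratio minus one. -/
noncomputable def baseD (c : Ctx 1) (S : Finset ℕ) (w : Wd) : ℝ :=
  ((baseLaw c S).coeff w - (baseLaw c ∅).coeff w) / (baseLaw c ∅).coeff w

lemma baseD_mul (c : Ctx 1) (S : Finset ℕ) (w : Wd) :
    (baseLaw c ∅).coeff w * baseD c S w = (baseLaw c S).coeff w - (baseLaw c ∅).coeff w := by
  unfold baseD
  by_cases h : (baseLaw c ∅).coeff w = 0
  · have h1 := baseLaw_le c S w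
    have h2 := baseLaw_nn c S w
    rw [h] at h1 ⊢
    have : (baseLaw c S).coeff w = 0 := by linarith
    simp [this]
  · field_simp

lemma baseD_ge (c : Ctx 1) (S : Finset ℕ) (w : Wd) : -1 ≤ baseD c S w := by
  unfold baseD
  rcases (baseLaw_nn c ∅ w).eq_or_lt with h | h
  · rw [← h]; simp
  · rw [le_div_iff₀ h]
    have h2 := baseLaw_nn c S w
    linarith

lemma baseD_le (c : Ctx 1) (S : Finset ℕ) (w : Wd) : baseD c S w ≤ 15 := by
  unfold baseD
  rcases (baseLaw_nn c ∅ w).eq_or_lt with h | h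
  · rw [← h]; simp
  · rw [div_le_iff₀ h]
    have h2 := baseLaw_le c S w
    linarith

lemma baseD_empty (c : Ctx 1) (w : Wd) : baseD c ∅ w = 0 := by
  unfold baseD; simp

lemma baseQ_dset (τ : ℕ → Bool) {k n : ℕ} (h : k ≤ n) :
    baseQ k (dset τ 0 n) = mu (word baseU baseV τ k) := by
  unfold baseQ
  congr 1
  apply word_congr
  intro i hi
  have : i < n := lt_of_lt_of_le hi h
  by_cases ht : τ i = true
  · simp [dset, this, ht]
  · simp [dset, ht]

lemma base_mix (i : Fin 2) (ξ : Bool) (S : Finset ℕ) :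
    ∑ t : Option Bool, (kap (1 / 8) ((i, t) : Ctx 1) * pr (1 / 2) ((i, t) : Ctx 1) ξ) •
      baseLaw (i, t) S = (1 / 4 : ℝ) • baseQ (1 + i.val + ξ.toNat) S := by
  ext w
  rw [MonoidAlgebra.coeff_sum, Finsupp.finsetSum_apply]
  simp only [base_coeff_smul]
  rw [kap_pr_sum (a := 1) (1 / 8) i ξ fun t => (baseLaw (i, t) S).coeff w]
  cases ξ
  · simp only [baseLaw, Bool.toNat_false, add_zero]
    simp only [reduceCtorEq, if_false, Option.some.injEq]
    norm_num
    ring
  · simp only [baseLaw, Bool.toNat_true]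
    simp only [reduceCtorEq, if_false, if_true, base_coeff_comb]
    norm_num
    ring

lemma base_sim (τ : ℕ → Bool) :
    ∑ c : Ctx 1, ∑ ξ : Bool, ∑ o : baseT,
        (kap (1 / 8) c * pr (1 / 2) c ξ * (baseLaw c ∅).coeff o.1 *
          (1 + baseD c (dset τ 0 (stp c ξ)) o.1)) •
          (MonoidAlgebra.single o.1 (1 : ℝ) *
            mu (word baseU baseV (sh (stp c ξ) τ) (2 * 1 + 1 - stp c ξ))) =
      mu (word baseU baseV τ (2 * 1 + 1)) := by
  have h1 : ∀ (c : Ctx 1) (ξ : Bool), ∑ o : baseT,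
        (kap (1 / 8) c * pr (1 / 2) c ξ * (baseLaw c ∅).coeff o.1 *
          (1 + baseD c (dset τ 0 (stp c ξ)) o.1)) •
          (MonoidAlgebra.single o.1 (1 : ℝ) *
            mu (word baseU baseV (sh (stp c ξ) τ) (2 * 1 + 1 - stp c ξ))) =
      ((kap (1 / 8) c * pr (1 / 2) c ξ) • baseLaw c (dset τ 0 (stp c ξ))) *
            mu (word baseU baseV (sh (stp c ξ) τ) (2 * 1 + 1 - stp c ξ)) := by
    intro c ξ
    conv_rhs => rw [← base_sum_single _ (baseLaw_support c (dset τ 0 (stp c ξ)))]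
    rw [Finset.smul_sum, Finset.sum_mul]
    refine Finset.sum_congr rfl fun o _ => ?_
    rw [smul_smul, smul_mul_assoc]
    congr 1
    have := baseD_mul c (dset τ 0 (stp c ξ)) o.1
    linear_combination (kap (1 / 8) c * pr (1 / 2) c ξ) * this
  simp only [h1]
  rw [Fintype.sum_prod_type]
  have h2 : ∀ i : Fin 2, ∑ t : Option Bool, ∑ ξ : Bool,
      ((kap (1 / 8) ((i, t) : Ctx 1) * pr (1 / 2) ((i, t) : Ctx 1) ξ) •
        baseLaw (i, t) (dset τ 0 (stp ((i, t) : Ctx 1) ξ))) *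
        mu (word baseU baseV (sh (stp ((i, t) : Ctx 1) ξ) τ) (2 * 1 + 1 - stp ((i, t) : Ctx 1) ξ)) =
      (1 / 2 : ℝ) • mu (word baseU baseV τ (2 * 1 + 1)) := by
    intro i
    rw [Finset.sum_comm]
    have h3 : ∀ ξ : Bool, ∑ t : Option Bool,
        ((kap (1 / 8) ((i, t) : Ctx 1) * pr (1 / 2) ((i, t) : Ctx 1) ξ) •
          baseLaw (i, t) (dset τ 0 (stp ((i, t) : Ctx 1) ξ))) *
          mu (word baseU baseV (sh (stp ((i, t) : Ctx 1) ξ) τ)
            (2 * 1 + 1 - stp ((i, t) : Ctx 1) ξ)) =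
        (1 / 4 : ℝ) • mu (word baseU baseV τ (2 * 1 + 1)) := by
      intro ξ
      have hs : ∀ t : Option Bool, stp ((i, t) : Ctx 1) ξ = 1 + i.val + ξ.toNat := fun _ => rfl
      simp only [hs]
      rw [← Finset.sum_mul, base_mix, baseQ_dset τ le_rfl, smul_mul_assoc, ← map_mul, ← word_add]
      have hle : 1 + i.val + ξ.toNat ≤ 2 * 1 + 1 := stp_le ((i, none) : Ctx 1) ξ
      rw [Nat.add_sub_cancel' hle]
    simp only [h3]
    rw [Finset.sum_const, card_univ, Fintype.card_bool, ← Nat.cast_smul_eq_nsmul ℝ, smul_smul]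
    norm_num
  simp only [h2]
  rw [Finset.sum_const, card_univ, Fintype.card_fin, ← Nat.cast_smul_eq_nsmul ℝ, smul_smul]
  norm_num

/-- The level zero model. -/
noncomputable def baseModel : Model 1 where
  a := 1
  β := 1 / 8
  ε := 0
  U := baseU
  V := baseV
  Tok := baseT
  fin := inferInstance
  inh := ⟨⟨1, base_one_mem⟩⟩
  ν := fun c o => (baseLaw c ∅).coeff o.1
  out := fun _ o => MonoidAlgebra.single o.1 1
  D := fun c _ S o => baseD c S o.1
  a_pos := le_rfl
  m_le := le_rfl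
  β_pos := by norm_num
  β_le := by norm_num
  ε_nonneg := le_rfl
  ε_le := by norm_num
  ν_nonneg := fun c o => baseLaw_nn c ∅ o.1
  ν_sum := fun c => baseLaw_sum c ∅
  out_nn := fun _ o => NN.single o.1 (by norm_num)
  out_mass := fun _ o => mass_single o.1 1
  D_empty := fun c _ o => baseD_empty c o.1
  D_mean := fun c _ S => by
    simp only [baseD_mul]
    rw [Finset.sum_sub_distrib, baseLaw_sum, baseLaw_sum, sub_self]
  D_ge := fun c _ S o => baseD_ge c S o.1
  sim := fun τ _ => by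
    rw [base_sim τ, sub_zero, one_smul]
    exact Dom.refl _

lemma base_abs (c : Ctx 1) (S : Finset ℕ) (w : Wd) : |baseD c S w| ≤ 15 := by
  rw [abs_le]
  exact ⟨by linarith [baseD_ge c S w], baseD_le c S w⟩

lemma base_ind_sum (s : Finset ℤ) : ∑ u ∈ s, ind (0 ≤ u ∧ u < 3) ≤ 3 := by
  classical
  have h1 : ∑ u ∈ s, ind (0 ≤ u ∧ u < 3) = ((s.filter fun u => 0 ≤ u ∧ u < 3).card : ℝ) := by
    rw [Finset.card_filter, Nat.cast_sum]
    refine Finset.sum_congr rfl fun u _ => ?_
    by_cases h : 0 ≤ u ∧ u < 3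
    · rw [ind_true h, if_pos h]; simp
    · rw [ind_false h, if_neg h]; simp
  rw [h1]
  have h2 : (s.filter fun u => 0 ≤ u ∧ u < 3) ⊆ Finset.Ico (0 : ℤ) 3 := by
    intro u hu
    rw [Finset.mem_filter] at hu
    exact Finset.mem_Ico.mpr hu.2
  have h3 := Finset.card_le_card h2
  have h4 : (Finset.Ico (0 : ℤ) 3).card = 3 := by simp
  rw [h4] at h3
  exact_mod_cast h3

lemma base_sq_le (s : Finset ℤ) (x y : ℤ → ℝ) (hy : ∀ u, |y u| ≤ 15)
    (hy0 : ∀ u, ¬ (0 ≤ u ∧ u < 3) → y u = 0) :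
    (∑ u ∈ s, x u * y u) ^ 2 ≤ ∑ u ∈ s, 675 * ind (0 ≤ u ∧ u < 3) * x u ^ 2 := by
  have h1 : ∑ u ∈ s, x u * y u =
      ∑ u ∈ s, ind (0 ≤ u ∧ u < 3) * (ind (0 ≤ u ∧ u < 3) * (x u * y u)) := by
    refine Finset.sum_congr rfl fun u _ => ?_
    by_cases h : 0 ≤ u ∧ u < 3
    · rw [ind_true h]; ring
    · rw [hy0 u h]; ring
  rw [h1]
  refine (Finset.sum_mul_sq_le_sq_mul_sq s _ _).trans ?_
  have h2 : ∑ u ∈ s, ind (0 ≤ u ∧ u < 3) ^ 2 ≤ 3 := by
    refine le_trans (le_of_eq ?_) (base_ind_sum s)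
    refine Finset.sum_congr rfl fun u _ => ?_
    by_cases h : 0 ≤ u ∧ u < 3
    · rw [ind_true h]; ring
    · rw [ind_false h]; ring
  have h3 : ∑ u ∈ s, (ind (0 ≤ u ∧ u < 3) * (x u * y u)) ^ 2 ≤
      ∑ u ∈ s, 225 * ind (0 ≤ u ∧ u < 3) * x u ^ 2 := by
    refine Finset.sum_le_sum fun u _ => ?_
    by_cases h : 0 ≤ u ∧ u < 3
    · rw [ind_true h]
      have h4 : y u ^ 2 ≤ 225 := by
        have := sq_le_sq' (abs_le.mp (hy u)).1 (abs_le.mp (hy u)).2
        linarith
      nlinarith [sq_nonneg (x u)]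
    · rw [ind_false h]; simp
  have h5 : 0 ≤ ∑ u ∈ s, (ind (0 ≤ u ∧ u < 3) * (x u * y u)) ^ 2 :=
    Finset.sum_nonneg fun u _ => sq_nonneg _
  calc (∑ u ∈ s, ind (0 ≤ u ∧ u < 3) ^ 2) * ∑ u ∈ s, (ind (0 ≤ u ∧ u < 3) * (x u * y u)) ^ 2
      ≤ 3 * ∑ u ∈ s, (ind (0 ≤ u ∧ u < 3) * (x u * y u)) ^ 2 :=
        mul_le_mul_of_nonneg_right h2 h5
    _ ≤ 3 * ∑ u ∈ s, 225 * ind (0 ≤ u ∧ u < 3) * x u ^ 2 := by linarith
    _ = ∑ u ∈ s, 675 * ind (0 ≤ u ∧ u < 3) * x u ^ 2 := by
        rw [Finset.mul_sum]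
        exact Finset.sum_congr rfl fun u _ => by ring

/-- The weights of the level zero model. -/
noncomputable def baseWts : baseModel.Wts 2025 675 0 where
  w := fun e _ _ u => if e then 0 else 675 * ind (0 ≤ u ∧ u < 3)
  nonneg := fun e _ _ u => by
    split_ifs
    · exact le_rfl
    · exact mul_nonneg (by norm_num) (ind_nonneg _)
  sup := fun _ _ u => by
    have := ind_le_one (0 ≤ u ∧ u < 3)
    simp only [Bool.false_eq_true, if_false]
    linarith
  sum := fun e _ _ s => by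
    cases e
    · simp only [Bool.false_eq_true, if_false]
      rw [← Finset.mul_sum]
      have := base_ind_sum s
      linarith
    · simp
  dom := fun e G hG c ξ s x => by
    cases e
    · simp only [Bool.false_eq_true, if_false]
      have h1 : ∀ o : baseModel.Tok, (∑ u ∈ s, x u * baseModel.feat false G c ξ u o) ^ 2 ≤
          ∑ u ∈ s, 675 * ind (0 ≤ u ∧ u < 3) * x u ^ 2 := by
        intro o
        apply base_sq_le
        · intro u
          simp only [Model.feat, Bool.false_eq_true, if_false, sub_zero]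
          exact base_abs c _ o.1
        · intro u hu
          simp only [Model.feat, Bool.false_eq_true, if_false, sub_zero]
          have hst : stp c ξ ≤ 2 * 1 + 1 := stp_le c ξ
          rw [pat_eq_empty 1 G hG u (stp c ξ) (by push_cast; omega)]
          exact baseModel.D_empty c ξ o
      calc ∑ o, baseModel.ν c o * (∑ u ∈ s, x u * baseModel.feat false G c ξ u o) ^ 2
          ≤ ∑ o, baseModel.ν c o * ∑ u ∈ s, 675 * ind (0 ≤ u ∧ u < 3) * x u ^ 2 :=
            Finset.sum_le_sum fun o _ =>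
              mul_le_mul_of_nonneg_left (h1 o) (baseModel.ν_nonneg c o)
        _ = _ := by rw [← Finset.sum_mul, baseModel.ν_sum, one_mul]
    · have h1 : ∀ (u : ℤ) (o : baseModel.Tok), baseModel.feat true G c ξ u o = 0 := by
        intro u o
        have hG' : G = ∅ ∨ G = {0} := by
          rw [Finset.range_one] at hG
          exact Finset.subset_singleton_iff.mp hG
        rcases hG' with rfl | rfl
        · simp [Model.feat, pat_empty, baseModel.D_empty]
        · simp [Model.feat]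
      simp [h1]

/-- `a = 1`, `β = 1/8`, `ε = 0`.  Tokens: the support of `mu (U ^ 3)`, `out c o = single o 1`.  Facts: `mu V ≤ 2 mu U`,
`1/4 ≤ mu U`, `1/4 ≤ mu V` (as elements of the algebra), so `Q k S = mu (word U V (· ∈ S) k) ≤ 2 ^ k mu (U ^ k)`,
`mu (U ^ k) ≤ 4 mu (U ^ (k+1))` and `Q k S ≤ 4 Q (k+1) S`.  With `len = 1 + i`:
`ν (i, none) = ν (i, some false) = mu (U ^ len)`, `ν (i, some true) = (mu (U ^ (len+1)) - mu (U ^ len) / 8) / (7/8)`;
the law under the defect set `S` is `Q len S` for `(i, none)` (both `ξ`) and `(i, some false)`, and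
`(Q (len+1) S - Q len S / 8) / (7/8)` for `(i, some true)`; `D = (law - ν) / ν`, so `-1 ≤ D ≤ 15`.
`sim` holds with equality (`kap_pr_sum`, `word_add`).  Weights: `w false c ξ u = 675 * ind (0 ≤ u < 3)`, `w true = 0`. -/
theorem base_model : ∃ X : Model 1, X.a = 1 ∧ X.β = 1 / 8 ∧ X.ε = 0 ∧
    X.U = FreeMonoid.of false * FreeMonoid.of true ∧ X.V = FreeMonoid.of true ∧
    X.Bd 2025 675 0 15 :=
  ⟨baseModel, rfl, rfl, rfl, rfl, rfl, fun c _ S o => base_abs c S o.1, ⟨baseWts⟩⟩

end Pool.Agent.Lib.MP_343fe0_pr
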