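import Pool.Agent.Lib.MP_343fe0_pr.Alg

set_option autoImplicit false

/-! Estimates for binomial weights. -/

namespace Pool.Agent.Lib.MP_343fe0_pr

open Finset

lemma bin_nat (ϱ : ℝ) (n k : ℕ) : bin ϱ n k = (n.choose k : ℝ) * ϱ ^ k * (1 - ϱ) ^ (n - k) := by
  simp [bin]

lemma bin_nonneg {ϱ : ℝ} (h0 : 0 ≤ ϱ) (h1 : ϱ ≤ 1) (n : ℕ) (j : ℤ) : 0 ≤ bin ϱ n j := by
  unfold bin
  have := sub_nonneg.mpr h1
  split_ifs
  · positivity
  · exact le_rfl

lemma bin_neg (ϱ : ℝ) (n : ℕ) {j : ℤ} (h : j < 0) : bin ϱ n j = 0 := if_neg (not_le.mpr h)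

lemma bin_gt (ϱ : ℝ) (n : ℕ) {j : ℤ} (h : (n : ℤ) < j) : bin ϱ n j = 0 := by
  obtain ⟨k, rfl⟩ := Int.eq_ofNat_of_zero_le (show 0 ≤ j by omega)
  rw [bin_nat, Nat.choose_eq_zero_of_lt (by omega)]
  simp

lemma bin_zero (ϱ : ℝ) (j : ℤ) : bin ϱ 0 j = ind (j = 0) := by
  rcases lt_trichotomy j 0 with h | rfl | h
  · rw [bin_neg _ _ h, ind_false h.ne]
  · rw [ind_true rfl]
    simp [bin]
  · rw [bin_gt _ _ (by simpa using h), ind_false h.ne']

lemma bin_succ (ϱ : ℝ) (n : ℕ) (j : ℤ) :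
    bin ϱ (n + 1) j = (1 - ϱ) * bin ϱ n j + ϱ * bin ϱ n (j - 1) := by
  rcases lt_trichotomy j 0 with h | rfl | h
  · rw [bin_neg _ _ h, bin_neg _ _ h, bin_neg _ _ (by omega)]
    simp
  · rw [bin_neg _ _ (show (0 : ℤ) - 1 < 0 by omega)]
    simp [bin, pow_succ']
  · obtain ⟨k, rfl⟩ : ∃ k : ℕ, j = ((k + 1 : ℕ) : ℤ) := ⟨(j - 1).toNat, by omega⟩
    rw [show ((k + 1 : ℕ) : ℤ) - 1 = k by omega, bin_nat, bin_nat, bin_nat, Nat.choose_succ_succ',
      Nat.add_sub_add_right]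
    rcases le_or_gt (k + 1) n with hk | hk
    · rw [show n - k = n - (k + 1) + 1 by omega]
      push_cast
      ring
    · rw [Nat.choose_eq_zero_of_lt hk]
      push_cast
      ring

lemma bin_rec (ϱ : ℝ) (n : ℕ) (f : ℤ → ℝ) : ∑ j ∈ range (n + 1 + 1), bin ϱ (n + 1) j * f j =
    (1 - ϱ) * ∑ j ∈ range (n + 1), bin ϱ n j * f j +
      ϱ * ∑ j ∈ range (n + 1), bin ϱ n j * f (j + 1) := by
  simp only [bin_succ, add_mul, sum_add_distrib, mul_assoc, ← mul_sum]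
  congr 2
  · rw [sum_range_succ, bin_gt _ _ (by omega), zero_mul, add_zero]
  · rw [sum_range_succ', bin_neg _ _ (by omega), zero_mul, add_zero]
    simp

lemma bin_sum (ϱ : ℝ) (n : ℕ) : ∑ j ∈ range (n + 1), bin ϱ n j = 1 := by
  induction n with
  | zero => simp [bin]
  | succ n ih =>
    have h := bin_rec ϱ n fun _ => 1
    simp only [mul_one, ih] at h
    rw [h]
    ring

lemma bin_var (ϱ : ℝ) (n : ℕ) (c : ℝ) :
    ∑ j ∈ range (n + 1), bin ϱ n j * ((j : ℝ) - c) ^ 2 = n * ϱ * (1 - ϱ) + (n * ϱ - c) ^ 2 := by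
  induction n generalizing c with
  | zero => simp [bin]
  | succ n ih =>
    have h := bin_rec ϱ n fun j => ((j : ℝ) - c) ^ 2
    have h1 : ∀ j : ℕ, (j : ℝ) + 1 - c = j - (c - 1) := fun j => by ring
    simp only [Int.cast_add, Int.cast_natCast, Int.cast_one, h1, ih] at h
    rw [h]
    push_cast
    ring

lemma bin_sum_supp {g : ℤ → ℝ} {N : ℕ} (h0 : ∀ j, 0 ≤ g j) (h1 : ∀ j < 0, g j = 0)
    (h2 : ∀ j, (N : ℤ) < j → g j = 0) (s : Finset ℤ) :
    ∑ j ∈ s, g j ≤ ∑ j ∈ range (N + 1), g j := by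
  rw [← sum_image (s := range (N + 1)) (g := fun k : ℕ => (k : ℤ)) (f := g)
    fun _ _ _ _ h => Nat.cast_injective h]
  refine (sum_le_sum_of_subset_of_nonneg (subset_union_left) fun j _ _ => h0 j).trans
    (sum_subset subset_union_right fun j _ hj => ?_).ge
  rcases lt_or_ge j 0 with h | h
  · exact h1 j h
  · refine h2 j (not_le.mp fun h3 => hj (mem_image.mpr ⟨j.toNat, mem_range.mpr ?_, ?_⟩)) <;> omega

lemma bin_sum_le {ϱ : ℝ} (h0 : 0 ≤ ϱ) (h1 : ϱ ≤ 1) (n : ℕ) (s : Finset ℤ) :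
    ∑ j ∈ s, bin ϱ n j ≤ 1 :=
  (bin_sum_supp (bin_nonneg h0 h1 n) (fun _ => bin_neg ϱ n) (fun _ => bin_gt ϱ n) s).trans_eq
    (bin_sum ϱ n)

lemma bin_conv (ϱ : ℝ) (n n' : ℕ) (j : ℤ) :
    bin ϱ (n + n') j = ∑ i ∈ range (n + 1), bin ϱ n i * bin ϱ n' (j - i) := by
  induction n' generalizing j with
  | zero =>
    simp only [bin_zero, add_zero]
    rcases lt_or_ge j 0 with h | h
    · rw [bin_neg _ _ h]
      exact (sum_eq_zero fun i _ => by rw [ind_false (by omega), mul_zero]).symm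
    obtain ⟨k, rfl⟩ := Int.eq_ofNat_of_zero_le h
    rw [sum_eq_single k (fun i _ hi => by rw [ind_false (by omega), mul_zero])
      fun hk => by rw [bin_gt _ _ (by simp only [mem_range] at hk; omega), zero_mul],
      ind_true (sub_self _), mul_one]
  | succ n' ih =>
    rw [← add_assoc, bin_succ, ih, ih, mul_sum, mul_sum, ← sum_add_distrib]
    refine sum_congr rfl fun i _ => ?_
    rw [bin_succ, sub_right_comm]
    ring

lemma bin_absorb (ϱ : ℝ) (n : ℕ) (j : ℤ) :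
    j * bin ϱ (n + 1) j = (n + 1) * ϱ * bin ϱ n (j - 1) := by
  rcases lt_trichotomy j 0 with h | rfl | h
  · rw [bin_neg _ _ h, bin_neg _ _ (by omega)]
    simp
  · rw [bin_neg _ _ (show (0 : ℤ) - 1 < 0 by omega)]
    simp
  · obtain ⟨k, rfl⟩ : ∃ k : ℕ, j = ((k + 1 : ℕ) : ℤ) := ⟨(j - 1).toNat, by omega⟩
    rw [show ((k + 1 : ℕ) : ℤ) - 1 = k by omega, bin_nat, bin_nat, Nat.add_sub_add_right]
    have h1 : ((n : ℝ) + 1) * n.choose k = (n + 1).choose (k + 1) * ((k : ℝ) + 1) := by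
      exact_mod_cast Nat.add_one_mul_choose_eq n k
    push_cast
    linear_combination (-ϱ ^ (k + 1) * (1 - ϱ) ^ (n - k)) * h1

lemma bin_score (ϱ : ℝ) (n : ℕ) (j : ℤ) : bin ϱ (n + 1) j * (j - (n + 1) * ϱ) =
    (n + 1) * ϱ * (1 - ϱ) * (bin ϱ n (j - 1) - bin ϱ n j) := by
  linear_combination bin_absorb ϱ n j - (n + 1) * ϱ * bin_succ ϱ n j

lemma bin_step (ϱ : ℝ) (n : ℕ) (j : ℤ) :
    j * (1 - ϱ) * bin ϱ n j = (n + 1 - j) * ϱ * bin ϱ n (j - 1) := by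
  linear_combination bin_absorb ϱ n j - j * bin_succ ϱ n j

/-- Total variation.  Score identity:
`bin ϱ (n+1) j * (j - (n+1) ϱ) = (n+1) ϱ (1-ϱ) (bin ϱ n (j-1) - bin ϱ n j)`, Cauchy-Schwarz, the variance
`(n+1) ϱ (1-ϱ)` of `bin ϱ (n+1)`, and `ϱ (1-ϱ) ≥ 3/16`. -/
lemma bin_tv {ϱ : ℝ} (h0 : 1 / 4 ≤ ϱ) (h1 : ϱ ≤ 3 / 4) (n : ℕ) (s : Finset ℤ) :
    ∑ j ∈ s, |bin ϱ n j - bin ϱ n (j - 1)| ≤ 3 / √((n : ℝ) + 1) := by
  have hn : (0 : ℝ) < n + 1 := by positivity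
  set t := √((n : ℝ) + 1) with ht
  have ht0 : 0 < t := Real.sqrt_pos.mpr hn
  have ht2 : t ^ 2 = n + 1 := Real.sq_sqrt hn.le
  have hw : 3 / 16 ≤ ϱ * (1 - ϱ) := by nlinarith
  have hb := bin_nonneg (ϱ := ϱ) (by linarith) (by linarith) (n + 1)
  have h2 : ∀ j : ℤ, t * (t ^ 2 * (ϱ * (1 - ϱ)) * |bin ϱ n j - bin ϱ n (j - 1)|) ≤
      bin ϱ (n + 1) j * (((j : ℝ) - (n + 1) * ϱ) ^ 2 + t ^ 2 / 4) := fun j => by
    have h3 : t ^ 2 * (ϱ * (1 - ϱ)) * |bin ϱ n j - bin ϱ n (j - 1)| =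
        bin ϱ (n + 1) j * |(j : ℝ) - (n + 1) * ϱ| := by
      rw [← abs_of_nonneg (hb j), ← abs_mul, bin_score, abs_sub_comm, abs_mul, ht2,
        abs_of_nonneg (a := ((n : ℝ) + 1) * ϱ * (1 - ϱ)) (by nlinarith), mul_assoc _ ϱ]
    rw [h3, mul_left_comm]
    refine mul_le_mul_of_nonneg_left ?_ (hb j)
    nlinarith [sq_nonneg (|(j : ℝ) - (n + 1) * ϱ| - t / 2), sq_abs ((j : ℝ) - (n + 1) * ϱ)]
  have h4 := (sum_le_sum fun j (_ : j ∈ s) => h2 j).trans (bin_sum_supp (N := n + 1)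
    (fun j => mul_nonneg (hb j) (by positivity)) (fun j hj => by rw [bin_neg _ _ hj, zero_mul])
    (fun j hj => by rw [bin_gt _ _ hj, zero_mul]) s)
  have h5 := bin_var ϱ (n + 1) ((n + 1) * ϱ)
  simp only [← mul_sum, mul_add, sum_add_distrib, ← sum_mul, bin_sum, Int.cast_natCast, h5] at h4
  push_cast at h4
  rw [le_div_iff₀ ht0]
  set S := ∑ j ∈ s, |bin ϱ n j - bin ϱ n (j - 1)|
  rw [← ht2] at h4
  have h6 : t ^ 2 * (ϱ * (1 - ϱ) * (S * t)) ≤ t ^ 2 * (ϱ * (1 - ϱ) * 3) := by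
    nlinarith [mul_le_mul_of_nonneg_left hw (sq_nonneg t)]
  exact le_of_mul_le_mul_left (le_of_mul_le_mul_left h6 (by positivity)) (by linarith)

lemma bin_le {ϱ : ℝ} (h0 : 1 / 4 ≤ ϱ) (h1 : ϱ ≤ 3 / 4) (n : ℕ) (j : ℤ) :
    bin ϱ n j ≤ 3 / √((n : ℝ) + 1) := by
  rcases lt_or_ge j 0 with h | h
  · rw [bin_neg _ _ h]
    positivity
  obtain ⟨k, rfl⟩ := Int.eq_ofNat_of_zero_le h
  refine le_trans ?_ (bin_tv h0 h1 n ((range (k + 1)).image fun k : ℕ => (k : ℤ)))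
  rw [sum_image fun _ _ _ _ h => Nat.cast_injective h]
  refine le_trans (le_of_eq ?_) (sum_le_sum fun i _ => le_abs_self _)
  have h2 := sum_range_sub (fun i : ℕ => bin ϱ n (i - 1)) (k + 1)
  simp only [Nat.cast_add, Nat.cast_one, add_sub_cancel_right] at h2
  rw [h2, bin_neg ϱ n (j := ((0 : ℕ) : ℤ) - 1) (by omega), sub_zero]

/-- A residue class: `f x ≤ (average of f over [x, x+L)) + (variation of f over [x, x+L])`, and the
intervals `[x, x+L)` are disjoint for `x` in one class. -/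
lemma bin_mod {ϱ : ℝ} (h0 : 1 / 4 ≤ ϱ) (h1 : ϱ ≤ 3 / 4) (n L B σ : ℕ) (hL : 1 ≤ L) :
    ∑ j ∈ range (n + 1), bin ϱ n j * ind (B + j ≡ σ [MOD L]) ≤ 1 / (L : ℝ) + 3 / √((n : ℝ) + 1) := by
  classical
  have hL0 : (0 : ℝ) < L := Nat.cast_pos.mpr hL
  set C := (range (n + 1)).filter fun j => B + j ≡ σ [MOD L] with hC
  have h2 : ∑ j ∈ range (n + 1), bin ϱ n j * ind (B + j ≡ σ [MOD L]) = ∑ j ∈ C, bin ϱ n j := by
    rw [hC, sum_filter]
    refine sum_congr rfl fun j _ => ?_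
    split_ifs with h
    · rw [ind_true h, mul_one]
    · rw [ind_false h, mul_zero]
  have hinj : ∀ c : ℤ, Set.InjOn (fun p : ℕ × ℕ => (p.1 : ℤ) + p.2 + c) (C ×ˢ range L : Finset _) := by
    rintro c ⟨x, r⟩ hp ⟨x', r'⟩ hp' h
    simp only [coe_product, Set.mem_prod, mem_coe, hC, mem_filter, mem_range] at hp hp' h
    have h3 : x + r = x' + r' := by omega
    have h4 : x ≡ x' [MOD L] := Nat.ModEq.add_left_cancel' B (hp.1.2.trans hp'.1.2.symm)
    have h5 : r ≡ r' [MOD L] := Nat.ModEq.add_left_cancel h4 (by rw [h3])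
    have h6 := h5.eq_of_lt_of_lt hp.2 hp'.2
    exact Prod.ext (by simp only; omega) h6
  have h3 := bin_sum_le (ϱ := ϱ) (by linarith) (by linarith) n
    ((C ×ˢ range L).image fun p => (p.1 : ℤ) + p.2 + 0)
  have h4 := bin_tv h0 h1 n ((C ×ˢ range L).image fun p => (p.1 : ℤ) + p.2 + 1)
  rw [sum_image (hinj _), sum_product] at h3 h4
  simp only [add_zero, add_sub_cancel_right] at h3 h4
  have h5 : ∀ x : ℕ, bin ϱ n x ≤ (∑ r ∈ range L, bin ϱ n (x + r)) / L +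
      ∑ r ∈ range L, |bin ϱ n (x + r + 1) - bin ϱ n (x + r)| := fun x => by
    rw [← sub_le_iff_le_add, le_div_iff₀ hL0]
    refine le_trans (le_of_eq ?_) (card_nsmul_le_sum (range L) _
      (bin ϱ n x - ∑ r ∈ range L, |bin ϱ n (x + r + 1) - bin ϱ n (x + r)|) fun r hr => ?_)
    · rw [card_range, nsmul_eq_mul, mul_comm]
    · have h6 := sum_range_sub (fun i : ℕ => bin ϱ n (x + i)) r
      have h7 := sum_le_sum_of_subset_of_nonneg (range_mono (mem_range.mp hr).le)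
        (f := fun i : ℕ => |bin ϱ n (x + i + 1) - bin ϱ n (x + i)|) fun _ _ _ => abs_nonneg _
      have h8 := sum_le_sum fun i (_ : i ∈ range r) =>
        neg_abs_le (bin ϱ n (x + i + 1) - bin ϱ n (x + i))
      simp only [Nat.cast_add, Nat.cast_one, Nat.cast_zero, add_zero, ← add_assoc] at h6
      rw [h6, sum_neg_distrib] at h8
      linarith
  rw [h2]
  refine (sum_le_sum fun x _ => h5 x).trans ?_
  rw [sum_add_distrib, ← sum_div]
  exact add_le_add (div_le_div_of_nonneg_right h3 hL0.le) h4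

lemma bin_le_mode {ϱ : ℝ} (h0 : 0 < ϱ) (h1 : ϱ < 1) (n : ℕ) (j : ℤ) (hj : j ≤ (n + 1) * ϱ)
    (hj' : (n + 1) * ϱ ≤ j + 1) (i : ℤ) : bin ϱ n i ≤ bin ϱ n j := by
  have hw : (0 : ℝ) < (n + 1) * ϱ * (1 - ϱ) := mul_pos (by positivity) (by linarith)
  have hb := bin_nonneg h0.le h1.le (n + 1)
  rcases le_total i j with h | h
  · induction i, h using Int.leInductionDown with
    | base => exact le_rfl
    | pred i hi ih =>
      have h2 : (i : ℝ) ≤ j := Int.cast_le.mpr hi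
      have h3 := mul_nonpos_of_nonneg_of_nonpos (hb i) (show (i : ℝ) - (n + 1) * ϱ ≤ 0 by linarith)
      rw [bin_score] at h3
      linarith [nonpos_of_mul_nonpos_right h3 hw]
  · induction i, h using Int.leInduction with
    | base => exact le_rfl
    | succ i hi ih =>
      have h2 : (j : ℝ) ≤ i := Int.cast_le.mpr hi
      have h3 := mul_nonneg (hb (i + 1))
        (show 0 ≤ ((i + 1 : ℤ) : ℝ) - (n + 1) * ϱ by push_cast; linarith)
      rw [bin_score, add_sub_cancel_right] at h3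
      linarith [nonneg_of_mul_nonneg_right h3 hw]

/-- `j` is a mode of `bin (j/n) n`; Chebyshev puts mass `3/4` on at most `2 √n + 1` points. -/
lemma bin_mode (n j : ℕ) (hn : 1 ≤ n) (hj : j ≤ n) :
    1 / (4 * √((n : ℝ) + 1)) ≤ bin ((j : ℝ) / n) n j := by
  have hn0 : (0 : ℝ) < n := Nat.cast_pos.mpr hn
  have ht1 : 1 ≤ √((n : ℝ) + 1) := Real.one_le_sqrt.mpr (by linarith)
  have htriv : 1 / (4 * √((n : ℝ) + 1)) ≤ 1 := (div_le_one (by linarith)).mpr (by linarith)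
  rcases Nat.eq_zero_or_pos j with rfl | hj0
  · simpa [bin] using htriv
  rcases hj.eq_or_lt with rfl | hjn
  · rw [div_self hn0.ne', bin_nat]
    simpa using htriv
  set ϱ := (j : ℝ) / n with hϱ
  have h0 : 0 < ϱ := div_pos (Nat.cast_pos.mpr hj0) hn0
  have h1 : ϱ < 1 := (div_lt_one hn0).mpr (Nat.cast_lt.mpr hjn)
  have h2 : n * ϱ = j := mul_div_cancel₀ _ hn0.ne'
  have hmode := bin_le_mode h0 h1 n j (by push_cast; linarith) (by push_cast; linarith)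
  have hb := bin_nonneg h0.le h1.le n
  set K := n.sqrt with hK
  have hK1 : (n : ℝ) ≤ (K + 1) ^ 2 := by exact_mod_cast (Nat.lt_succ_sqrt' n).le
  have hK2 : (K : ℝ) ≤ √((n : ℝ) + 1) := Real.le_sqrt_of_sq_le (by
    exact_mod_cast (Nat.sqrt_le' n).trans (Nat.le_succ n))
  have h3 : ∀ i ∈ range (n + 1), bin ϱ n i ≤ (if i ∈ Icc (j - K) (j + K) then bin ϱ n j else 0) +
      bin ϱ n i * ((i : ℝ) - j) ^ 2 / n := fun i _ => by
    have h4 : 0 ≤ bin ϱ n i * ((i : ℝ) - j) ^ 2 / n := by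
      have := hb i
      positivity
    split_ifs with h
    · linarith [hmode i]
    · rw [zero_add, le_div_iff₀ hn0]
      refine mul_le_mul_of_nonneg_left (hK1.trans ?_) (hb i)
      rw [mem_Icc] at h
      rcases (show i + K + 1 ≤ j ∨ j + K + 1 ≤ i by omega) with h5 | h5
      · have h6 : (i : ℝ) + K + 1 ≤ j := by exact_mod_cast h5
        nlinarith [Nat.cast_nonneg (α := ℝ) K]
      · have h6 : (j : ℝ) + K + 1 ≤ i := by exact_mod_cast h5
        nlinarith [Nat.cast_nonneg (α := ℝ) K]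
  have h4 := sum_le_sum h3
  rw [bin_sum, sum_add_distrib, ← sum_div, bin_var, sum_ite_mem, sum_const, nsmul_eq_mul,
    show (n * ϱ - j) ^ 2 = 0 by rw [h2]; ring, add_zero, mul_assoc,
    mul_div_cancel_left₀ _ hn0.ne'] at h4
  have h5 : ((range (n + 1) ∩ Icc (j - K) (j + K)).card : ℝ) ≤ 2 * K + 1 := by
    have h6 := card_le_card (inter_subset_right (s₁ := range (n + 1)) (s₂ := Icc (j - K) (j + K)))
    rw [Nat.card_Icc] at h6
    exact_mod_cast (show _ ≤ 2 * K + 1 by omega)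
  rw [div_le_iff₀ (by linarith)]
  nlinarith [mul_le_mul_of_nonneg_right h5 (hb j), hb j, sq_nonneg (ϱ - 1 / 2),
    mul_le_mul_of_nonneg_left hK2 (hb j), mul_le_mul_of_nonneg_left ht1 (hb j)]

/-- The ratio is a product of `L` factors `(n-j-i)/(j+i+1) ≥ 1 - C(A)/√n`. -/
lemma bin_ratio (A : ℝ) (hA : 0 < A) : ∃ κ : ℝ, 0 < κ ∧ κ ≤ 1 ∧ ∃ n0 : ℕ, ∀ (n L : ℕ) (j : ℤ),
    n0 ≤ n → (L : ℝ) ^ 2 ≤ A * n → |2 * (j : ℝ) - n| ≤ A * √(n : ℝ) →
    κ * bin (1 / 2) n j ≤ bin (1 / 2) n (j + L) := by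
  have hs := Real.sqrt_nonneg A
  set D := A + 2 * √A + 1 with hD
  have hD1 : 1 ≤ D := by linarith
  refine ⟨Real.exp (-(8 * D * √A)), Real.exp_pos _, Real.exp_le_one_iff.mpr
    (neg_nonpos.mpr (by positivity)), ⌈(8 * D) ^ 2⌉₊, fun n L j hn hL hj => ?_⟩
  set t := √(n : ℝ) with ht
  have ht1 : 8 * D ≤ t := Real.le_sqrt_of_sq_le (Nat.ceil_le.mp hn)
  have ht0 : 0 < t := by linarith
  have ht2 : t ^ 2 = n := Real.sq_sqrt (Nat.cast_nonneg n)
  have hLt : (L : ℝ) ≤ √A * t := by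
    rw [ht, ← Real.sqrt_mul hA.le]
    exact Real.le_sqrt_of_sq_le hL
  have hb := bin_nonneg (ϱ := 1 / 2) (by norm_num) (by norm_num) n
  set x := 4 * D / t with hx
  have hx0 : 0 ≤ x := by positivity
  have hxt : x * t = 4 * D := div_mul_cancel₀ _ ht0.ne'
  have hx1 : x ≤ 1 / 2 := by
    rw [hx, div_le_iff₀ ht0]
    linarith
  have hexp : Real.exp (-(2 * x)) ≤ 1 - x := by
    rw [Real.exp_neg, inv_le_comm₀ (Real.exp_pos _) (by linarith), inv_le_iff_one_le_mul₀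
      (by linarith)]
    nlinarith [Real.add_one_le_exp (2 * x)]
  have key : ∀ l : ℕ, l ≤ L → Real.exp (-(2 * x * l)) * bin (1 / 2) n j ≤ bin (1 / 2) n (j + l) := by
    intro l
    induction l with
    | zero => simp
    | succ l ih =>
      intro hl
      have h1 := bin_step (1 / 2) n (j + (l + 1 : ℕ))
      rw [show j + ((l + 1 : ℕ) : ℤ) - 1 = j + l by omega] at h1
      have hl' : (l : ℝ) + 1 ≤ L := by exact_mod_cast hl
      have hl0 : (0 : ℝ) ≤ l := Nat.cast_nonneg l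
      obtain ⟨h2, h3⟩ := abs_le.mp hj
      set i : ℝ := ((j + (l + 1 : ℕ) : ℤ) : ℝ) with hi
      have hi' : i = j + (l + 1) := by rw [hi]; push_cast; ring
      have h4 : t ^ 2 / 4 ≤ i := by nlinarith
      have h5 : 2 * i - (n + 1) ≤ D * t := by nlinarith
      have h6 : (1 - x) * i ≤ n + 1 - i := by nlinarith
      have h7 : 0 < i := lt_of_lt_of_le (by positivity) h4
      have h8 : (1 - x) * bin (1 / 2) n (j + l) ≤ bin (1 / 2) n (j + (l + 1 : ℕ)) := by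
        refine le_of_mul_le_mul_left ?_ h7
        nlinarith [mul_le_mul_of_nonneg_right h6 (hb (j + l))]
      refine le_trans ?_ ((mul_le_mul hexp (ih (by omega)) (mul_nonneg (Real.exp_pos _).le (hb j))
        (by linarith)).trans h8)
      rw [← mul_assoc, ← Real.exp_add]
      push_cast
      exact le_of_eq (by ring_nf)
  refine le_trans (mul_le_mul_of_nonneg_right (Real.exp_le_exp.mpr ?_) (hb j)) (key L le_rfl)
  nlinarith [mul_le_mul_of_nonneg_left hLt hx0]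

end Pool.Agent.Lib.MP_343fe0_pr
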