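import Pool.Agent.Lib.MP_343fe0_pr.Sim

set_option autoImplicit false

/-! Sites and tokens of the next level. -/

namespace Pool.Agent.Lib.MP_343fe0_pr

open Finset

lemma blk_HH (a : ℕ) {M : ℕ} (hM : 1 ≤ M) : 2 * a + 1 ≤ HH a M := by
  unfold HH; exact Nat.le_mul_of_pos_right _ hM

lemma blk_low {a M : ℕ} (P : ℕ → Finset ℕ) (k j : ℕ) (hj : j < HH a M) :
    tauP a M P (k * LL a M + j) = false := by
  have h : (k * LL a M + j) % LL a M = j := by
    rw [Nat.mul_comm, Nat.mul_add_mod, Nat.mod_eq_of_lt (by unfold LL; omega)]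
  unfold tauP
  rw [h, decide_eq_false_iff_not]
  omega

lemma blk_card {a m M : ℕ} (hm : m ≤ a) (hM : 1 ≤ M) {F : Finset ℕ} (hF : F ⊆ range m) :
    (dset (sh (2 * a + 1) (tauP a M fun _ => F)) 0 (LL a M)).card = F.card := by
  have h1 := blk_HH a hM
  have : dset (sh (2 * a + 1) (tauP a M fun _ => F)) 0 (LL a M) =
      F.image fun g => HH a M + g - (2 * a + 1) := by
    ext j
    simp only [dset, sh, mem_filter, mem_range, mem_image, zero_add,
      tauP_iff hm hM (P := fun _ => F) fun _ => hF]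
    constructor
    · rintro ⟨hj, i, g, hg, e⟩
      refine ⟨g, hg, ?_⟩
      unfold zz at e
      rcases Nat.eq_zero_or_pos i with h0 | h0
      · subst h0; omega
      · have := Nat.le_mul_of_pos_left (LL a M) h0
        omega
    · rintro ⟨g, hg, e⟩
      have := mem_range.1 (hF hg)
      refine ⟨by unfold LL; omega, 0, g, hg, ?_⟩
      unfold zz; omega
  rw [this, card_image_of_injOn]
  intro x _ y _ h
  simp only at h
  omega

lemma blk_ext {Θ : Type} [Inhabited Θ] {n : ℕ} (v : Fin n → Θ) (r : Fin n) : ext v r.val = v r := by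
  simp [ext, r.isLt]

namespace Model

variable {m : ℕ} (X : Model m)

/-- Block `i` of the right side is `blk (if τ i then F' else F)`: the last `2a+1` sites fall below `HH` in the next period. -/
lemma word_blk {M : ℕ} (hM : 1 ≤ M) (F F' : Finset ℕ) (τ : ℕ → Bool) (n : ℕ) :
    word (X.blk M F) (X.blk M F') τ n =
      word X.U X.V (sh (2 * X.a + 1) (tauP X.a M fun i => if τ i then F' else F)) (n * LL X.a M) := by
  induction n with
  | zero => simp [word_zero]
  | succ n ih =>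
    have h1 := blk_HH X.a hM
    rw [word_succ, ih, Nat.succ_mul n, word_add, sh_sh, Nat.add_comm (2 * X.a + 1),
      ← sh_sh (2 * X.a + 1) (n * LL X.a M), tauP_shift hM]
    congr 1
    have : (if τ n then X.blk M F' else X.blk M F) = X.blk M (if τ n then F' else F) := by
      split_ifs <;> rfl
    rw [this]
    unfold blk
    refine word_congr _ _ _ _ _ fun j hj => ?_
    unfold sh
    refine tauP_local (K := 1) (fun i hi => ?_) _ (by omega)
    have : i = 0 := by omega
    subst this; rfl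
lemma blk_length_le (M : ℕ) (F : Finset ℕ) (l : ℕ) (hU : X.U.length ≤ l) (hV : X.V.length ≤ l) :
    (X.blk M F).length ≤ LL X.a M * l :=
  word_length_le _ _ _ _ _ hU hV
lemma blk_length_eq {M : ℕ} (hM : 1 ≤ M) {F F' : Finset ℕ} (hF : F ⊆ range m) (hF' : F' ⊆ range m)
    (hc : F.card = F'.card) : (X.blk M F).length = (X.blk M F').length := by
  have h1 := word_length X.U X.V (sh (2 * X.a + 1) (tauP X.a M fun _ => F)) (LL X.a M)
  have h2 := word_length X.U X.V (sh (2 * X.a + 1) (tauP X.a M fun _ => F')) (LL X.a M)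
  rw [blk_card X.m_le hM hF] at h1
  rw [blk_card X.m_le hM hF', ← hc] at h2
  unfold blk
  omega
lemma blk_dif {M : ℕ} (hM : 1 ≤ M) {F F' : Finset ℕ} (h0 : 0 ∈ F ↔ 0 ∉ F') (hD : Dif X.U X.V) :
    Dif (X.blk M F) (X.blk M F') := by
  have h1 := blk_HH X.a hM
  refine Dif.word hD _ _ _ (HH X.a M - (2 * X.a + 1)) (by unfold LL; omega) (fun j hj => ?_) ?_
  · have e1 := blk_low (a := X.a) (M := M) (fun _ => F) 0 (2 * X.a + 1 + j) (by omega)
    have e2 := blk_low (a := X.a) (M := M) (fun _ => F') 0 (2 * X.a + 1 + j) (by omega)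
    rw [zero_mul, zero_add] at e1 e2
    unfold sh
    rw [e1, e2]
  · have e : 2 * X.a + 1 + (HH X.a M - (2 * X.a + 1)) = HH X.a M := by omega
    have e2 : HH X.a M % LL X.a M = HH X.a M := Nat.mod_eq_of_lt (by unfold LL; omega)
    unfold sh tauP
    rw [e, e2]
    simp only [le_refl, Nat.sub_self, true_and, ne_eq, decide_eq_decide]
    tauto

/-- Revealed data of a segment of at most `N` steps. -/
abbrev Dat (N : ℕ) : Type :=
  (Σ R : Fin (N + 1), (Fin R.val → Ctx X.a) × (Fin R.val → X.Tok)) × Lab X.a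

instance (N : ℕ) : Inhabited (X.Dat N) :=
  ⟨(⟨⟨0, Nat.succ_pos N⟩, (fun i => i.elim0, fun i => i.elim0)⟩, default)⟩

noncomputable def datW {N : ℕ} (d : X.Dat N) : ℝ :=
  (∏ r, kap X.β (d.1.2.1 r)) * ∏ r, X.ν (d.1.2.1 r) (d.1.2.2 r)

def datEv {α : Type} {N : ℕ} (Ψ : (ℕ → Ctx X.a) → (ℕ → X.Tok) → ℕ → Lab X.a → α) (d : X.Dat N) : α :=
  Ψ (ext d.1.2.1) (ext d.1.2.2) d.1.1.val d.2

lemma datW_nonneg {N : ℕ} (d : X.Dat N) : 0 ≤ X.datW d :=
  mul_nonneg (prod_nonneg fun _ _ => kap_nonneg X.β_pos.le (by linarith [X.β_le]) _)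
    (prod_nonneg fun _ _ => X.ν_nonneg _ _)
lemma sum_dat (N : ℕ) (Ψ : (ℕ → Ctx X.a) → (ℕ → X.Tok) → ℕ → Lab X.a → ℝ) :
    ∑ d : X.Dat N, X.datW d * X.datEv Ψ d = X.Tot N Ψ := by
  unfold Tot EX
  rw [Fintype.sum_prod_type, Fintype.sum_sigma, sum_range]
  refine sum_congr rfl fun R _ => ?_
  rw [Fintype.sum_prod_type]
  refine sum_congr rfl fun v _ => ?_
  rw [mul_sum]
  refine sum_congr rfl fun w _ => ?_
  simp only [datW, datEv, blk_ext]
  rw [← mul_assoc, mul_sum]

/-- Output of a step of the next level: the outputs of the steps and the raw trace of the sites up to the block boundary. -/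
noncomputable def datOut {N : ℕ} (d : X.Dat N) : Alg :=
  X.datEv (fun c o R ℓ => X.outs c o R * mu (X.U ^ (2 * X.a + 1 - ℓ.1.val))) d

lemma datOut_nn {N : ℕ} (d : X.Dat N) : NN (X.datOut d) := by
  refine NN.mul (NN.list_prod _ fun f hf => ?_) (mu_nn _)
  obtain ⟨r, _, rfl⟩ := List.mem_map.1 hf
  exact X.out_nn _ _
lemma datOut_mass {N : ℕ} (d : X.Dat N) : mass (X.datOut d) = 1 := by
  unfold datOut datEv
  rw [mass_mul, mass_mu, mul_one]
  refine mass_list_prod _ fun f hf => ?_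
  obtain ⟨r, _, rfl⟩ := List.mem_map.1 hf
  exact X.out_mass _ _

/-- `sim_iter` with `h = 1`, start `2a+1`, threshold `K L`, end `n L + 2a + 1`, and `word_blk`; the sites from `K L + y` to
`K L + 2a + 1` carry no defect; `Zf_local` replaces the arrangement of `τ` by that of `dset τ 0 K`. -/
theorem sim_blocks {M : ℕ} (hM : 1 ≤ M) {F F' : Finset ℕ} (hF : F ⊆ range m) (hF' : F' ⊆ range m)
    (N n K : ℕ) (hK : 1 ≤ K) (hKn : K ≤ n) (τ : ℕ → Bool) :
    Dom ((1 - X.ε) ^ N • ∑ d : X.Dat N, (X.datW d * X.datEv (X.ZS M K F F' (dset τ 0 K)) d) •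
        (X.datOut d * mu (word (X.blk M F) (X.blk M F') (sh K τ) (n - K))))
      (mu (word (X.blk M F) (X.blk M F') τ n)) := by
  intro w
  have h1 := blk_HH X.a hM
  set P : ℕ → Finset ℕ := fun i => if τ i then F' else F with hP
  have hPm : ∀ i, P i ⊆ range m := fun i => by
    simp only [hP]; split_ifs
    · exact hF'
    · exact hF
  have hKL : LL X.a M ≤ K * LL X.a M := Nat.le_mul_of_pos_left _ hK
  have hKn' : K * LL X.a M ≤ n * LL X.a M := Nat.mul_le_mul_right _ hKn
  have hL : LL X.a M = 2 * HH X.a M := rfl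
  have h := X.sim_iter (tauP X.a M P) (tauP_adm X.m_le hM hPm) (n * LL X.a M + (2 * X.a + 1))
    (K * LL X.a M) (by omega) w N (2 * X.a + 1) (by omega) 1 NN.one
  rw [one_mul, Nat.add_sub_cancel, ← X.word_blk hM F F' τ n] at h
  refine le_of_eq_of_le ?_ h
  rw [MonoidAlgebra.coeff_smul_apply, smul_eq_mul, ← X.sum_dat, MonoidAlgebra.coeff_sum,
    Finsupp.finsetSum_apply]
  congr 1
  refine sum_congr rfl fun d _ => ?_
  rw [MonoidAlgebra.coeff_smul_apply, smul_eq_mul, mul_assoc]
  congr 1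
  unfold datOut datEv
  generalize ext d.1.2.1 = c
  generalize ext d.1.2.2 = o
  generalize d.1.1.val = R
  generalize d.2 = ℓ
  have hy := ℓ.1.isLt
  congr 1
  · unfold ZS
    refine X.ZP_local hM (fun i hi => ?_) c o R ℓ
    simp [arrS, dset, hP, hi]
  · have e1 : n * LL X.a M + (2 * X.a + 1) - (K * LL X.a M + ℓ.1.val) =
        (2 * X.a + 1 - ℓ.1.val) + (n - K) * LL X.a M := by
      rw [Nat.sub_mul]; omega
    have e2 : K * LL X.a M + ℓ.1.val + (2 * X.a + 1 - ℓ.1.val) = K * LL X.a M + (2 * X.a + 1) := by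
      omega
    rw [e1, word_add, sh_sh, e2, ← sh_sh (2 * X.a + 1), tauP_shift hM,
      word_false _ _ _ (2 * X.a + 1 - ℓ.1.val) (fun j hj => by
        unfold sh
        rw [Nat.add_assoc]
        exact blk_low _ _ _ (by omega)), X.word_blk hM, map_mul, one_mul, mul_assoc]
    rfl

end Model

end Pool.Agent.Lib.MP_343fe0_pr
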