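import Pool.Agent.Lib.MP_343fe0_pr.Law
import Pool.Agent.Lib.MP_343fe0_pr.Chain

set_option autoImplicit false

/-! The second replica: probability that the pinned walk passes through prescribed residue classes. -/

namespace Pool.Agent.Lib.MP_343fe0_pr

open Finset

variable {a : ℕ}

private lemma bridge_prod_pr (ϱ : ℝ) (c : ℕ → Ctx a) (ξ : ℕ → Bool) (n : ℕ)
    (h : ∀ r < n, pr (1 / 2) (c r) (ξ r) ≠ 0) :
    ∏ r ∈ range n, pr ϱ (c r) (ξ r) =
      ϱ ^ ((range n).filter fun r => (c r).2 = none ∧ ξ r = true).card *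
        (1 - ϱ) ^ ((range n).filter fun r => (c r).2 = none ∧ ξ r = false).card := by
  induction n with
  | zero => simp
  | succ n ih =>
    rw [prod_range_succ, ih fun r hr => h r (by omega), range_add_one, filter_insert, filter_insert]
    have hn := h n (by omega)
    have hm1 : n ∉ (range n).filter fun r => (c r).2 = none ∧ ξ r = true := by simp
    have hm2 : n ∉ (range n).filter fun r => (c r).2 = none ∧ ξ r = false := by simp
    cases hc : (c n).2 with
    | none =>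
      cases hx : ξ n with
      | false =>
        have e : pr ϱ (c n) false = 1 - ϱ := by simp [pr, hc]
        rw [e, if_neg (by simp), if_pos (by simp), card_insert_of_notMem hm2]
        ring
      | true =>
        have e : pr ϱ (c n) true = ϱ := by simp [pr, hc]
        rw [e, if_pos (by simp), if_neg (by simp), card_insert_of_notMem hm1]
        ring
    | some b =>
      have hb : ξ n = b := pr_ne_zero hn hc
      have e : pr ϱ (c n) (ξ n) = 1 := by simp [pr, hc, hb]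
      rw [e, if_neg (by simp), if_neg (by simp)]
      ring

private lemma bridge_card_add (c : ℕ → Ctx a) (ξ : ℕ → Bool) (n : ℕ) :
    ((range n).filter fun r => (c r).2 = none ∧ ξ r = true).card +
      ((range n).filter fun r => (c r).2 = none ∧ ξ r = false).card =
      ((range n).filter fun r => (c r).2 = none).card := by
  rw [← card_filter_add_card_filter_not (s := (range n).filter fun r => (c r).2 = none)
    (fun r => ξ r = true), filter_filter, filter_filter]
  simp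

private lemma bridge_wt_eq (ϱ : ℝ) {s E R : ℕ} {c : ℕ → Ctx a} {ℓ : Lab a} {ξ ξ' : ℕ → Bool}
    (h : End s E c ξ R ℓ) (h' : End s E c ξ' R ℓ)
    (hw : ∀ r < R, pr (1 / 2) (c r) (ξ r) ≠ 0) (hw' : ∀ r < R, pr (1 / 2) (c r) (ξ' r) ≠ 0) :
    ∏ r ∈ range R, pr ϱ (c r) (ξ r) = ∏ r ∈ range R, pr ϱ (c r) (ξ' r) := by
  have e1 := pos_eq_base s R c ξ hw
  have e2 := pos_eq_base s R c ξ' hw'
  have a1 := bridge_card_add c ξ R
  have a2 := bridge_card_add c ξ' R
  have p1 := h.2.1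
  have p2 := h'.2.1
  have t1 : ((range R).filter fun r => (c r).2 = none ∧ ξ r = true).card =
      ((range R).filter fun r => (c r).2 = none ∧ ξ' r = true).card := by omega
  have t2 : ((range R).filter fun r => (c r).2 = none ∧ ξ r = false).card =
      ((range R).filter fun r => (c r).2 = none ∧ ξ' r = false).card := by omega
  rw [bridge_prod_pr ϱ c ξ R hw, bridge_prod_pr ϱ c ξ' R hw', t1, t2]

private lemma bridge_pr_zero {ϱ : ℝ} {c : Ctx a} {b : Bool} (h : pr (1 / 2) c b = 0) :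
    pr ϱ c b = 0 := by
  unfold pr at h ⊢
  cases hc : c.2 with
  | none =>
    rw [hc] at h
    cases b <;> norm_num at h
  | some b' =>
    rw [hc] at h
    exact h

private lemma bridge_prod_ext (ϱ : ℝ) (c : ℕ → Ctx a) {R : ℕ} (v : Fin R → Bool) :
    ∏ r : Fin R, pr ϱ (c r) (v r) = ∏ r ∈ range R, pr ϱ (c r) (ext v r) := by
  rw [← Fin.prod_univ_eq_prod_range (fun r => pr ϱ (c r) (ext v r)) R]
  refine prod_congr rfl fun r _ => ?_
  simp [ext, r.2]

/-- Change of the coin bias: on `End` the number of `true` coins among the first `R - 1` steps is `jj`,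
so the two weights of a path differ by a factor that does not depend on the path. -/
lemma tilt (ϱ : ℝ) (s E R : ℕ) (c : ℕ → Ctx a) (ℓ : Lab a) (Ψ : (ℕ → Bool) → ℝ) :
    QX c R (fun ξ => ind (End s E c ξ R ℓ) * Ψ ξ) *
        EX (fun r => pr ϱ (c r)) R (fun ξ => ind (End s E c ξ R ℓ)) =
      gg s E c R ℓ * EX (fun r => pr ϱ (c r)) R fun ξ => ind (End s E c ξ R ℓ) * Ψ ξ := by
  unfold gg QX EX
  rw [sum_mul_sum, sum_mul_sum, sum_comm]
  refine sum_congr rfl fun w _ => sum_congr rfl fun v _ => ?_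
  rw [bridge_prod_ext, bridge_prod_ext, bridge_prod_ext, bridge_prod_ext]
  by_cases hv : End s E c (ext v) R ℓ
  swap
  · simp [ind_false hv]
  by_cases hw : End s E c (ext w) R ℓ
  swap
  · simp [ind_false hw]
  by_cases hv0 : ∀ r < R, pr (1 / 2) (c r) (ext v r) ≠ 0
  swap
  · push Not at hv0
    obtain ⟨r, hr, h0⟩ := hv0
    rw [prod_eq_zero (mem_range.2 hr) h0,
      prod_eq_zero (f := fun r => pr ϱ (c r) (ext v r)) (mem_range.2 hr) (bridge_pr_zero h0)]
    ring
  by_cases hw0 : ∀ r < R, pr (1 / 2) (c r) (ext w r) ≠ 0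
  swap
  · push Not at hw0
    obtain ⟨r, hr, h0⟩ := hw0
    rw [prod_eq_zero (f := fun r => pr (1 / 2) (c r) (ext w r)) (mem_range.2 hr) h0,
      prod_eq_zero (f := fun r => pr ϱ (c r) (ext w r)) (mem_range.2 hr) (bridge_pr_zero h0)]
    ring
  rw [bridge_wt_eq ϱ hv hw hv0 hw0, bridge_wt_eq (1 / 2) hv hw hv0 hw0]
  ring

private lemma bridge_mono {K : ℕ} {t : ℕ → ℕ} (hmono : ∀ i ≤ K, t i ≤ t (i + 1)) {l i : ℕ}
    (hl : l ≤ i) (hi : i ≤ K + 1) : t l ≤ t i := by
  induction i, hl using Nat.le_induction with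
  | base => exact le_rfl
  | succ i hli ih => exact (ih (by omega)).trans (hmono i (by omega))

private lemma bridge_pos_splice (p d r : ℕ) (c : ℕ → Ctx a) (v w : ℕ → Bool) :
    pos p c (splice d v w) (d + r) = pos (pos p c v d) (sh d c) w r := by
  rw [pos_add, sh_splice, pos_congr p (c' := c) (ξ' := v) (fun _ _ => rfl)
    (fun i hi => splice_lt v w hi)]

private lemma bridge_End_splice (p E d n : ℕ) (hn : 1 ≤ n) (c : ℕ → Ctx a) (v w : ℕ → Bool)
    (ℓ : Lab a) :
    End p E c (splice d v w) (d + n) ℓ ↔ End (pos p c v d) E (sh d c) w n ℓ := by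
  unfold End
  have e : d + n - 1 = d + (n - 1) := by omega
  rw [e, bridge_pos_splice, bridge_pos_splice, splice_add]

private lemma bridge_gap {γ : ℝ} (hγ : 0 < γ) {l i n : ℕ} (hl : l < i)
    (h : γ * ((i : ℝ) - l) ≤ (n : ℝ) + 1) :
    4 / √((n : ℝ) + 1) ≤ 4 / √(γ * ((i - l : ℕ) : ℝ)) := by
  rw [Nat.cast_sub hl.le]
  have hlt : (l : ℝ) < i := by exact_mod_cast hl
  have hp : 0 < γ * ((i : ℝ) - l) := mul_pos hγ (by linarith)
  exact div_le_div_of_nonneg_left (by norm_num) (Real.sqrt_pos.2 hp) (Real.sqrt_le_sqrt h)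

private lemma bridge_main (ϱ : ℝ) (hϱ0 : 1 / 4 ≤ ϱ) (hϱ1 : ϱ ≤ 3 / 4) (E R L K : ℕ)
    (c : ℕ → Ctx a) (ℓ : Lab a) (γ : ℝ) (hγ : 0 < γ) (t σ : ℕ → ℕ)
    (α y : ℕ → ℝ) (hα : ∀ i, 0 ≤ α i) (hy : ∀ i, 0 ≤ y i) (hL : 1 ≤ L) (hR : R ≤ L ^ 2)
    (hR1 : 1 ≤ R) (htK : t (K + 1) = R - 1) (hmono : ∀ i ≤ K, t i ≤ t (i + 1))
    (hgap : ∀ l i, l < i → i ≤ K + 1 → γ * ((i : ℝ) - l) ≤ coins c (t l) (t i) + 1) :
    ∀ k i l p : ℕ, l ≤ i → i + k = K →
      EX (fun r => pr ϱ (sh (t l) c r)) (R - t l) (fun ξ =>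
        ind (End p E (sh (t l) c) ξ (R - t l) ℓ) *
          ∏ j ∈ Ico i K, (α j + y j *
            ind (pos p (sh (t l) c) ξ (t (j + 1) - t l) ≡ σ j [MOD L]))) ≤
      (ind (ℓ.1.val < stp (c (R - 1)) ℓ.2) * pr ϱ (c (R - 1)) ℓ.2) *
        Chain (fun d => 4 / √(γ * d)) α y k i l := by
  have h0 : (0 : ℝ) ≤ ϱ := by linarith
  have h1 : ϱ ≤ 1 := by linarith
  have hA : 0 ≤ ind (ℓ.1.val < stp (c (R - 1)) ℓ.2) * pr ϱ (c (R - 1)) ℓ.2 :=
    mul_nonneg (ind_nonneg _) (pr_nonneg h0 h1 _ _)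
  have hf : ∀ d : ℕ, (0 : ℝ) ≤ 4 / √(γ * d) := fun d => by positivity
  intro k
  induction k with
  | zero =>
    intro i l p hl hi
    have hiK : i = K := by omega
    subst hiK
    have htl : t l ≤ R - 1 := htK ▸ bridge_mono hmono (by omega) le_rfl
    simp only [Ico_self, prod_empty, mul_one, Chain]
    rw [EX_End]
    have e1 : sh (t l) c (R - t l - 1) = c (R - 1) := by
      unfold sh
      rw [show t l + (R - t l - 1) = R - 1 by omega]
    have e2 : coins (sh (t l) c) 0 (R - t l - 1) = coins c (t l) (t (i + 1)) := by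
      rw [coins_sh, htK, show t l + (R - t l - 1) = R - 1 by omega]
    rw [e1, e2, ind_congr (and_iff_right (show 1 ≤ R - t l by omega))]
    refine mul_le_mul_of_nonneg_left ?_ hA
    refine (bin_le hϱ0 hϱ1 _ _).trans (le_trans ?_ (bridge_gap hγ (show l < i + 1 by omega)
      (hgap l (i + 1) (by omega) le_rfl)))
    exact div_le_div_of_nonneg_right (by norm_num) (Real.sqrt_nonneg _)
  | succ k ih =>
    intro i l p hl hi
    have hiK : i < K := by omega
    have hti : t (i + 1) ≤ R - 1 := htK ▸ bridge_mono hmono (by omega) le_rfl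
    have htl : t l ≤ t (i + 1) := bridge_mono hmono (by omega) (by omega)
    have hsplit : ∀ ξ : ℕ → Bool, ind (End p E (sh (t l) c) ξ (R - t l) ℓ) *
          ∏ j ∈ Ico i K, (α j + y j *
            ind (pos p (sh (t l) c) ξ (t (j + 1) - t l) ≡ σ j [MOD L])) =
        α i * (ind (End p E (sh (t l) c) ξ (R - t l) ℓ) *
          ∏ j ∈ Ico (i + 1) K, (α j + y j *
            ind (pos p (sh (t l) c) ξ (t (j + 1) - t l) ≡ σ j [MOD L]))) +
        y i * (ind (pos p (sh (t l) c) ξ (t (i + 1) - t l) ≡ σ i [MOD L]) *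
          (ind (End p E (sh (t l) c) ξ (R - t l) ℓ) *
          ∏ j ∈ Ico (i + 1) K, (α j + y j *
            ind (pos p (sh (t l) c) ξ (t (j + 1) - t l) ≡ σ j [MOD L])))) := by
      intro ξ
      rw [prod_eq_prod_Ico_succ_bot hiK]
      ring
    simp only [hsplit]
    rw [EX_plus, EX_mul_left, EX_mul_left]
    have i1 := ih (i + 1) l p (by omega) (by omega)
    set A := ind (ℓ.1.val < stp (c (R - 1)) ℓ.2) * pr ϱ (c (R - 1)) ℓ.2 with hAdef
    set C2 := Chain (fun d => 4 / √(γ * d)) α y k (i + 1) (i + 1) with hC2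
    have hC2n : 0 ≤ C2 := Chain_nonneg hf hα hy _ _ _
    have i2 : EX (fun r => pr ϱ (sh (t l) c r)) (R - t l) (fun ξ =>
        ind (pos p (sh (t l) c) ξ (t (i + 1) - t l) ≡ σ i [MOD L]) *
          (ind (End p E (sh (t l) c) ξ (R - t l) ℓ) *
          ∏ j ∈ Ico (i + 1) K, (α j + y j *
            ind (pos p (sh (t l) c) ξ (t (j + 1) - t l) ≡ σ j [MOD L])))) ≤
        4 / √(γ * ((i + 1 - l : ℕ) : ℝ)) * (A * C2) := by
      set d := t (i + 1) - t l with hd
      have eR : R - t l = d + (R - t (i + 1)) := by omega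
      have esh : sh d (sh (t l) c) = sh (t (i + 1)) c := by
        rw [sh_sh, show t l + d = t (i + 1) by omega]
      have ewt : sh d (fun r => pr ϱ (sh (t l) c r)) = fun r => pr ϱ (sh (t (i + 1)) c r) := by
        rw [← esh]
        rfl
      rw [eR, EX_add, ewt]
      refine le_trans (EX_mono (fun r θ => pr_nonneg h0 h1 _ _) d
        (G := fun v => ind (pos p (sh (t l) c) v d ≡ σ i [MOD L]) * (A * C2)) fun v => ?_) ?_
      · have hin : ∀ w : ℕ → Bool,
            ind (pos p (sh (t l) c) (splice d v w) d ≡ σ i [MOD L]) *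
              (ind (End p E (sh (t l) c) (splice d v w) (d + (R - t (i + 1))) ℓ) *
              ∏ j ∈ Ico (i + 1) K, (α j + y j *
                ind (pos p (sh (t l) c) (splice d v w) (t (j + 1) - t l) ≡ σ j [MOD L]))) =
            ind (pos p (sh (t l) c) v d ≡ σ i [MOD L]) *
              (ind (End (pos p (sh (t l) c) v d) E (sh (t (i + 1)) c) w (R - t (i + 1)) ℓ) *
              ∏ j ∈ Ico (i + 1) K, (α j + y j *
                ind (pos (pos p (sh (t l) c) v d) (sh (t (i + 1)) c) w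
                  (t (j + 1) - t (i + 1)) ≡ σ j [MOD L]))) := by
          intro w
          rw [ind_congr (bridge_End_splice p E d _ (by omega) _ v w ℓ), esh,
            pos_congr p (c' := sh (t l) c) (ξ' := v) (fun _ _ => rfl)
              (fun i hi => splice_lt v w hi)]
          refine congrArg _ (congrArg _ (prod_congr rfl fun j hj => ?_))
          have hj' := mem_Ico.1 hj
          have : t (i + 1) ≤ t (j + 1) := bridge_mono hmono (by omega) (by omega)
          rw [show t (j + 1) - t l = d + (t (j + 1) - t (i + 1)) by omega, bridge_pos_splice, esh]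
        simp only [hin]
        rw [EX_mul_left]
        exact mul_le_mul_of_nonneg_left (ih (i + 1) (i + 1) _ le_rfl (by omega)) (ind_nonneg _)
      · rw [EX_mul_right]
        refine mul_le_mul_of_nonneg_right ?_ (mul_nonneg hA hC2n)
        rw [EX_walk ϱ (sh (t l) c) d p (fun x => ind (x ≡ σ i [MOD L]))]
        refine (bin_mod hϱ0 hϱ1 _ L _ _ hL).trans ?_
        have ec : coins (sh (t l) c) 0 d = coins c (t l) (t (i + 1)) := by
          rw [coins_sh, show t l + d = t (i + 1) by omega]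
        rw [ec]
        refine le_trans ?_ (bridge_gap hγ (show l < i + 1 by omega)
          (hgap l (i + 1) (by omega) (by omega)))
        have hc := coins_le c (t l) (t (i + 1))
        set n := coins c (t l) (t (i + 1))
        have hn : n + 1 ≤ L ^ 2 := by omega
        have hn' : (n : ℝ) + 1 ≤ (L : ℝ) ^ 2 := by exact_mod_cast hn
        have hs : √((n : ℝ) + 1) ≤ L := Real.sqrt_le_iff.2 ⟨by positivity, hn'⟩
        have hsp : 0 < √((n : ℝ) + 1) := Real.sqrt_pos.2 (by positivity)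
        have := one_div_le_one_div_of_le hsp hs
        have e4 : 4 / √((n : ℝ) + 1) = 1 / √((n : ℝ) + 1) + 3 / √((n : ℝ) + 1) := by ring
        linarith
    have j1 := mul_le_mul_of_nonneg_left i1 (hα i)
    have j2 := mul_le_mul_of_nonneg_left i2 (hy i)
    simp only [Chain]
    rw [← hC2]
    nlinarith [j1, j2]

/-- With `n = coins c 0 (R-1)`, `j = jj ..` and `ϱ = j / n` (`1/2` if `n = 0`): `tilt`, `EX_End`, `bin_mode` reduce the claim
to `EX (pr ϱ) R (ind End * ∏ ...) ≤ ind (..) * pr ϱ (c (R-1)) ℓ.2 * Chain ..`.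
Generalise: for every `l ≤ i`, `i + k = K`, and every start `p` at time `t l`, the expectation over the steps from `t l` on
of `ind End * ∏ over clusters i..K-1` is at most `ind (..) * pr .. * Chain f α y k i l` (induction on `k`; `EX_add`,
`EX_walk`, `bin_mod` with `1/L ≤ 1/√(n'+1)` as `n' + 1 ≤ R ≤ L^2`, and `bin_le` for the last gap). -/
theorem bridge (s E R L K : ℕ) (c : ℕ → Ctx a) (ℓ : Lab a) (γ : ℝ) (hγ : 0 < γ) (t σ : ℕ → ℕ)
    (α y : ℕ → ℝ) (hα : ∀ i, 0 ≤ α i) (hy : ∀ i, 0 ≤ y i) (hL : 1 ≤ L) (hR : R ≤ L ^ 2)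
    (ht0 : t 0 = 0) (htK : t (K + 1) = R - 1) (hmono : ∀ i ≤ K, t i ≤ t (i + 1))
    (hgap : ∀ l i, l < i → i ≤ K + 1 → γ * ((i : ℝ) - l) ≤ coins c (t l) (t i) + 1)
    (h1 : (coins c 0 (R - 1) : ℤ) ≤ 4 * jj s E c R ℓ)
    (h2 : 4 * jj s E c R ℓ ≤ 3 * coins c 0 (R - 1)) :
    QX c R (fun ξ => ind (End s E c ξ R ℓ) *
        ∏ i ∈ range K, (α i + y i * ind (pos s c ξ (t (i + 1)) ≡ σ i [MOD L]))) ≤
      gg s E c R ℓ * (4 * √(R : ℝ) * Chain (fun d => 4 / √(γ * d)) α y K 0 0) := by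
  have hf : ∀ d : ℕ, (0 : ℝ) ≤ 4 / √(γ * d) := fun d => by positivity
  have hCh : 0 ≤ Chain (fun d => 4 / √(γ * d)) α y K 0 0 := Chain_nonneg hf hα hy _ _ _
  have hg := gg_nonneg s E R c ℓ
  have hhalf : ∀ r θ, 0 ≤ pr (1 / 2) (c r) θ := fun r θ => pr_nonneg (by norm_num) (by norm_num) _ _
  by_cases hg0 : gg s E c R ℓ = 0
  · rw [hg0, zero_mul]
    have : QX c R (fun ξ => ind (End s E c ξ R ℓ) *
        ∏ i ∈ range K, (α i + y i * ind (pos s c ξ (t (i + 1)) ≡ σ i [MOD L]))) ≤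
        QX c R (fun ξ => ind (End s E c ξ R ℓ) * ∏ i ∈ range K, (α i + y i)) := by
      refine EX_mono hhalf R fun ξ => mul_le_mul_of_nonneg_left ?_ (ind_nonneg _)
      refine prod_le_prod (fun i _ => add_nonneg (hα i) (mul_nonneg (hy i) (ind_nonneg _)))
        fun i _ => ?_
      have := mul_le_mul_of_nonneg_left (ind_le_one (pos s c ξ (t (i + 1)) ≡ σ i [MOD L])) (hy i)
      linarith
    refine this.trans (le_of_eq ?_)
    unfold QX
    rw [EX_mul_right]
    unfold gg QX at hg0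
    rw [hg0, zero_mul]
  have hg' := hg0
  rw [gg_eq] at hg'
  have hind : 1 ≤ R ∧ ℓ.1.val < stp (c (R - 1)) ℓ.2 := by
    by_contra hn
    exact hg' (by rw [ind_false hn]; ring)
  have hpr : pr (1 / 2) (c (R - 1)) ℓ.2 ≠ 0 := fun h => hg' (by rw [h]; ring)
  obtain ⟨ϱ, hϱ0, hϱ1, hb⟩ : ∃ ϱ : ℝ, 1 / 4 ≤ ϱ ∧ ϱ ≤ 3 / 4 ∧
      1 / (4 * √((coins c 0 (R - 1) : ℝ) + 1)) ≤ bin ϱ (coins c 0 (R - 1)) (jj s E c R ℓ) := by
    generalize coins c 0 (R - 1) = n at h1 h2
    generalize jj s E c R ℓ = j at h1 h2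
    obtain ⟨j, rfl⟩ := Int.eq_ofNat_of_zero_le (show 0 ≤ j by omega)
    rcases Nat.eq_zero_or_pos n with rfl | hn
    · refine ⟨1 / 2, by norm_num, by norm_num, ?_⟩
      rw [bin_zero, ind_true (by omega)]
      norm_num
    · have hn' : (0 : ℝ) < n := by exact_mod_cast hn
      have k1 : (n : ℝ) ≤ 4 * j := by exact_mod_cast h1
      have k2 : 4 * (j : ℝ) ≤ 3 * n := by exact_mod_cast h2
      refine ⟨(j : ℝ) / n, ?_, ?_, bin_mode n j hn (by omega)⟩
      · rw [le_div_iff₀ hn']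
        linarith
      · rw [div_le_iff₀ hn']
        linarith
  have hprϱ : 0 < pr ϱ (c (R - 1)) ℓ.2 := by
    unfold pr at hpr ⊢
    cases hc : (c (R - 1)).2 with
    | none =>
      dsimp only
      split_ifs <;> linarith
    | some b =>
      rw [hc] at hpr
      dsimp only at hpr ⊢
      split_ifs at hpr ⊢ with h
      · norm_num
      · exact absurd rfl hpr
  have hm := bridge_main ϱ hϱ0 hϱ1 E R L K c ℓ γ hγ t σ α y hα hy hL hR hind.1 htK hmono hgap
    K 0 0 s le_rfl (by omega)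
  simp only [ht0, sh_zero, Nat.sub_zero, ← range_eq_Ico] at hm
  have ht := tilt ϱ s E R c ℓ
    (fun ξ => ∏ i ∈ range K, (α i + y i * ind (pos s c ξ (t (i + 1)) ≡ σ i [MOD L])))
  rw [EX_End, ind_true hind] at ht
  rw [ind_true hind.2] at hm
  have hQ : 0 ≤ QX c R (fun ξ => ind (End s E c ξ R ℓ) *
        ∏ i ∈ range K, (α i + y i * ind (pos s c ξ (t (i + 1)) ≡ σ i [MOD L]))) :=
    EX_nonneg hhalf R fun ξ => mul_nonneg (ind_nonneg _)
      (prod_nonneg fun i _ => add_nonneg (hα i) (mul_nonneg (hy i) (ind_nonneg _)))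
  generalize QX c R (fun ξ => ind (End s E c ξ R ℓ) *
        ∏ i ∈ range K, (α i + y i * ind (pos s c ξ (t (i + 1)) ≡ σ i [MOD L]))) = Q at ht hQ ⊢
  generalize Chain (fun d => 4 / √(γ * d)) α y K 0 0 = C at hm hCh ⊢
  have k1 := mul_le_mul_of_nonneg_left hm hg
  rw [← ht] at k1
  have k2 : Q * bin ϱ (coins c 0 (R - 1)) (jj s E c R ℓ) ≤ gg s E c R ℓ * C := by
    have : pr ϱ (c (R - 1)) ℓ.2 * (Q * bin ϱ (coins c 0 (R - 1)) (jj s E c R ℓ)) ≤
        pr ϱ (c (R - 1)) ℓ.2 * (gg s E c R ℓ * C) := by linarith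
    exact le_of_mul_le_mul_left this hprϱ
  have hc := coins_le c 0 (R - 1)
  have hn : coins c 0 (R - 1) + 1 ≤ R := by omega
  have hn' : (coins c 0 (R - 1) : ℝ) + 1 ≤ R := by exact_mod_cast hn
  have hs : √((coins c 0 (R - 1) : ℝ) + 1) ≤ √(R : ℝ) := Real.sqrt_le_sqrt hn'
  have hsp : 0 < √((coins c 0 (R - 1) : ℝ) + 1) := Real.sqrt_pos.2 (by positivity)
  have k3 : 1 ≤ 4 * √(R : ℝ) * bin ϱ (coins c 0 (R - 1)) (jj s E c R ℓ) := by
    rw [div_le_iff₀ (by positivity)] at hb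
    have hb0 : 0 ≤ bin ϱ (coins c 0 (R - 1)) (jj s E c R ℓ) :=
      bin_nonneg (by linarith) (by linarith) _ _
    nlinarith
  have k4 := mul_le_mul_of_nonneg_left k2 (show 0 ≤ 4 * √(R : ℝ) by positivity)
  have k5 := mul_le_mul_of_nonneg_left k3 hQ
  nlinarith

end Pool.Agent.Lib.MP_343fe0_pr
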