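import Pool.Agent.Lib.MP_343fe0_pr.Seg

set_option autoImplicit false

/-! Composition of segments and the data processing inequality. -/

namespace Pool.Agent.Lib.MP_343fe0_pr

open Finset

lemma comp_pos_mono {a : ℕ} (s : ℕ) (c : ℕ → Ctx a) (ξ : ℕ → Bool) {t t' : ℕ} (h : t ≤ t') :
    pos s c ξ t ≤ pos s c ξ t' :=
  le_trans (Nat.le_add_right _ _) (pos_ge s c ξ h)

lemma comp_End_lt {a : ℕ} {s E1 E2 R1 R : ℕ} {c : ℕ → Ctx a} {ξ : ℕ → Bool} {ℓ1 ℓ : Lab a}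
    (hE : E1 + (2 * a + 1) ≤ E2) (h1 : End s E1 c ξ R1 ℓ1) (h : End s E2 c ξ R ℓ) : R1 < R := by
  by_contra hc
  have h2 := comp_pos_mono s c ξ (Nat.le_of_not_lt hc)
  have h3 := h1.2.1
  have h4 := h.2.1
  have h5 := ℓ1.1.isLt
  omega

lemma comp_End_iff {a : ℕ} {s E1 E2 R1 R : ℕ} {c : ℕ → Ctx a} {ξ : ℕ → Bool} {ℓ1 ℓ : Lab a}
    (hE : E1 + (2 * a + 1) ≤ E2) (h1 : End s E1 c ξ R1 ℓ1) :
    End s E2 c ξ R ℓ ↔ End (E1 + ℓ1.1.val) E2 (sh R1 c) (sh R1 ξ) (R - R1) ℓ := by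
  have key : R1 < R → (End s E2 c ξ R ℓ ↔
      End (E1 + ℓ1.1.val) E2 (sh R1 c) (sh R1 ξ) (R - R1) ℓ) := by
    intro hlt
    have e1 : pos s c ξ (R - 1) = pos (E1 + ℓ1.1.val) (sh R1 c) (sh R1 ξ) (R - R1 - 1) := by
      rw [← h1.2.1, ← pos_add]
      congr 1
      omega
    have e2 : pos s c ξ R = pos (E1 + ℓ1.1.val) (sh R1 c) (sh R1 ξ) (R - R1) := by
      rw [← h1.2.1, ← pos_add]
      congr 1
      omega
    have e3 : ξ (R - 1) = sh R1 ξ (R - R1 - 1) := by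
      unfold sh
      congr 1
      omega
    unfold End
    rw [e1, e2, e3]
  constructor
  · intro h
    exact (key (comp_End_lt hE h1 h)).1 h
  · intro h
    have := h.one_le
    exact (key (by omega)).2 h

lemma comp_ind {a : ℕ} (ha : 1 ≤ a) {s E1 E2 : ℕ} (hs : s < E1) (hE : E1 + (2 * a + 1) ≤ E2)
    (c : ℕ → Ctx a) (ξ : ℕ → Bool) (R : ℕ) (ℓ : Lab a) :
    ind (End s E2 c ξ R ℓ) = ∑ R1 ∈ range (R + 1), ∑ ℓ1 : Lab a,
      ind (End s E1 c ξ R1 ℓ1) * ind (End (E1 + ℓ1.1.val) E2 (sh R1 c) (sh R1 ξ) (R - R1) ℓ) := by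
  have e : ∀ R1 (ℓ1 : Lab a), ind (End s E1 c ξ R1 ℓ1) *
      ind (End (E1 + ℓ1.1.val) E2 (sh R1 c) (sh R1 ξ) (R - R1) ℓ) =
      ind (End s E1 c ξ R1 ℓ1) * ind (End s E2 c ξ R ℓ) := by
    intro R1 ℓ1
    by_cases h1 : End s E1 c ξ R1 ℓ1
    · rw [ind_congr (comp_End_iff (R := R) (ℓ := ℓ) hE h1)]
    · rw [ind_false h1, zero_mul, zero_mul]
  simp only [e]
  by_cases h : End s E2 c ξ R ℓ
  · obtain ⟨R1, ℓ1, -, h1⟩ := End_exists ha hs c ξ
    have hlt := comp_End_lt hE h1 h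
    rw [ind_true h, Finset.sum_eq_single R1, Finset.sum_eq_single ℓ1, ind_true h1, one_mul]
    · intro ℓ2 _ hne
      rw [ind_false (fun h2 => hne (End.unique ha h2 h1).2), zero_mul]
    · intro hn
      exact absurd (Finset.mem_univ _) hn
    · intro R2 _ hne
      refine Finset.sum_eq_zero fun ℓ2 _ => ?_
      rw [ind_false (fun h2 => hne (End.unique ha h2 h1).1), zero_mul]
    · intro hn
      exact absurd (Finset.mem_range.2 (by omega)) hn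
  · rw [ind_false h]
    simp

lemma comp_subadd {ι κ : Type} (Φ : (ι → ℝ) → ℝ)
    (hadd : ∀ v w, Φ (fun i => v i + w i) ≤ Φ v + Φ w)
    (hhom : ∀ (t : ℝ) (v : ι → ℝ), 0 ≤ t → Φ (fun i => t * v i) = t * Φ v)
    (J : Finset κ) (v : κ → ι → ℝ) : Φ (fun i => ∑ j ∈ J, v j i) ≤ ∑ j ∈ J, Φ (v j) := by
  classical
  induction J using Finset.induction_on with
  | empty =>
    have h := hhom 0 (fun _ => 0) le_rfl
    simp only [zero_mul] at h
    simp only [Finset.sum_empty]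
    exact h.le
  | insert j J hj ih =>
    simp only [Finset.sum_insert hj]
    exact (hadd (v j) fun i => ∑ j ∈ J, v j i).trans (add_le_add le_rfl ih)

namespace Model

variable {m : ℕ} (X : Model m)

lemma comp_split (τ : ℕ → Bool) (s E1 E2 : ℕ) (c : ℕ → Ctx X.a) (o : ℕ → X.Tok) (R1 n : ℕ)
    (ℓ1 ℓ : Lab X.a) :
    QX c (R1 + n) (fun ξ => ind (End s E1 c ξ R1 ℓ1) *
        ind (End (E1 + ℓ1.1.val) E2 (sh R1 c) (sh R1 ξ) n ℓ) *
        ∏ r ∈ range (R1 + n),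
          (1 + X.D (c r) (ξ r) (dset τ (pos s c ξ r) (stp (c r) (ξ r))) (o r))) =
      X.Zf τ s E1 c o R1 ℓ1 * X.Zf τ (E1 + ℓ1.1.val) E2 (sh R1 c) (sh R1 o) n ℓ := by
  unfold Zf QX
  rw [EX_add, ← EX_mul_right]
  congr 1
  funext v
  rw [← EX_mul_left]
  have hπ : (sh R1 fun r => pr (1 / 2) (c r)) = fun r => pr (1 / 2) (sh R1 c r) := rfl
  rw [hπ]
  congr 1
  funext w
  have hv : ∀ i < R1, splice R1 v w i = v i := fun i hi => splice_lt v w hi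
  by_cases h1 : End s E1 c v R1 ℓ1
  · have h1' : End s E1 c (splice R1 v w) R1 ℓ1 :=
      End.congr (fun _ _ => rfl) (fun i hi => (hv i hi).symm) h1
    rw [ind_true h1, ind_true h1', sh_splice, Finset.prod_range_add]
    have e1 : ∏ r ∈ range R1, (1 + X.D (c r) (splice R1 v w r)
        (dset τ (pos s c (splice R1 v w) r) (stp (c r) (splice R1 v w r))) (o r)) =
        ∏ r ∈ range R1, (1 + X.D (c r) (v r) (dset τ (pos s c v r) (stp (c r) (v r))) (o r)) := by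
      refine Finset.prod_congr rfl fun r hr => ?_
      have hr' := Finset.mem_range.1 hr
      rw [hv r hr', pos_congr s (c := c) (c' := c) (ξ := splice R1 v w) (ξ' := v) (r := r)
        (fun _ _ => rfl) (fun i hi => hv i (by omega))]
    have e2 : ∏ r ∈ range n, (1 + X.D (c (R1 + r)) (splice R1 v w (R1 + r))
        (dset τ (pos s c (splice R1 v w) (R1 + r)) (stp (c (R1 + r)) (splice R1 v w (R1 + r))))
          (o (R1 + r))) =
        ∏ r ∈ range n, (1 + X.D (sh R1 c r) (w r)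
          (dset τ (pos (E1 + ℓ1.1.val) (sh R1 c) w r) (stp (sh R1 c r) (w r))) (sh R1 o r)) := by
      refine Finset.prod_congr rfl fun r _ => ?_
      rw [splice_add, pos_add, sh_splice, h1'.2.1]
      rfl
    rw [e1, e2]
    ring
  · have h1' : ¬ End s E1 c (splice R1 v w) R1 ℓ1 := fun h =>
      h1 (End.congr (fun _ _ => rfl) hv h)
    rw [ind_false h1, ind_false h1']
    ring

/-- Decomposition at the first passage of `E1` (`sum_End_eq`-type argument inside `QX`, then `EX_add`,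
`pos_add`). -/
lemma Zf_comp (τ : ℕ → Bool) {s E1 E2 : ℕ} (hs : s < E1) (hE : E1 + (2 * X.a + 1) ≤ E2)
    (c : ℕ → Ctx X.a) (o : ℕ → X.Tok) (R : ℕ) (ℓ : Lab X.a) :
    X.Zf τ s E2 c o R ℓ = ∑ R1 ∈ range (R + 1), ∑ ℓ1 : Lab X.a,
      X.Zf τ s E1 c o R1 ℓ1 * X.Zf τ (E1 + ℓ1.1.val) E2 (sh R1 c) (sh R1 o) (R - R1) ℓ := by
  have e : X.Zf τ s E2 c o R ℓ = ∑ R1 ∈ range (R + 1), ∑ ℓ1 : Lab X.a,
      QX c R (fun ξ => ind (End s E1 c ξ R1 ℓ1) *
        ind (End (E1 + ℓ1.1.val) E2 (sh R1 c) (sh R1 ξ) (R - R1) ℓ) *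
        ∏ r ∈ range R, (1 + X.D (c r) (ξ r) (dset τ (pos s c ξ r) (stp (c r) (ξ r))) (o r))) := by
    unfold Zf QX
    simp only [← EX_sum]
    congr 1
    funext ξ
    rw [comp_ind X.a_pos hs hE c ξ R ℓ, Finset.sum_mul]
    refine Finset.sum_congr rfl fun R1 _ => ?_
    rw [Finset.sum_mul]
  rw [e]
  refine Finset.sum_congr rfl fun R1 hR1 => Finset.sum_congr rfl fun ℓ1 _ => ?_
  have hR : R1 ≤ R := Nat.lt_succ_iff.1 (Finset.mem_range.1 hR1)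
  obtain ⟨n, rfl⟩ := Nat.exists_eq_add_of_le hR
  rw [Nat.add_sub_cancel_left]
  exact X.comp_split τ s E1 E2 c o R1 n ℓ1 ℓ

/-- Splitting the revealed data at time `R1`. -/
lemma comp_data (R1 n : ℕ)
    (G : (ℕ → Ctx X.a) → (ℕ → X.Tok) → (ℕ → Ctx X.a) → (ℕ → X.Tok) → ℝ)
    (hG : ∀ c c' o o' w u, (∀ r < R1, c r = c' r) → (∀ r < R1, o r = o' r) →
      G c o w u = G c' o' w u) :
    (EX (fun _ => kap X.β) (R1 + n) fun c => EX (fun r => X.ν (c r)) (R1 + n) fun o =>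
        G c o (sh R1 c) (sh R1 o)) =
      EX (fun _ => kap X.β) R1 fun c => EX (fun r => X.ν (c r)) R1 fun o =>
        EX (fun _ => kap X.β) n fun c' => EX (fun r => X.ν (c' r)) n fun o' => G c o c' o' := by
  rw [EX_add]
  congr 1
  funext v
  rw [EX_comm]
  have hπ : (sh R1 fun _ : ℕ => kap (a := X.a) X.β) = fun _ => kap X.β := rfl
  rw [hπ]
  congr 1
  funext w
  rw [EX_add]
  have h1 : ∀ r < R1, (fun r => X.ν (splice R1 v w r)) r = (fun r => X.ν (v r)) r := by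
    intro r hr
    simp only [splice_lt v w hr]
  rw [EX_congr_wt h1]
  congr 1
  funext o1
  have h2 : (sh R1 fun r => X.ν (splice R1 v w r)) = fun r => X.ν (w r) := by
    funext r
    simp only [sh, splice_add]
  rw [h2]
  congr 1
  funext o2
  rw [sh_splice, sh_splice]
  exact hG _ _ _ _ _ _ (fun r hr => splice_lt v w hr) (fun r hr => splice_lt o1 o2 hr)

/-- Revealing the passage of `E1` can only increase a subadditive functional. -/
theorem Tot_comp {ι : Type} (N : ℕ) (Φ : (ι → ℝ) → ℝ) (Cn : (ι → ℝ) → Prop)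
    (hΦ0 : ∀ v, Cn v → 0 ≤ Φ v)
    (hΦ : ∀ (J : Finset (ℕ × Lab X.a)) (v : ℕ × Lab X.a → ι → ℝ), (∀ j ∈ J, Cn (v j)) →
      Φ (fun i => ∑ j ∈ J, v j i) ≤ ∑ j ∈ J, Φ (v j))
    (τ : ι → ℕ → Bool) {s E1 E2 : ℕ} (hs : s < E1) (hE : E1 + (2 * X.a + 1) ≤ E2)
    (hC : ∀ c o R ℓ c' o' R' ℓ',
      Cn fun i => X.Zf (τ i) s E1 c o R ℓ * X.Zf (τ i) (E1 + ℓ.1.val) E2 c' o' R' ℓ') :
    X.Tot N (fun c o R ℓ => Φ fun i => X.Zf (τ i) s E2 c o R ℓ) ≤
      X.Tot N fun c o R ℓ => X.Tot N fun c' o' R' ℓ' =>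
        Φ fun i => X.Zf (τ i) s E1 c o R ℓ * X.Zf (τ i) (E1 + ℓ.1.val) E2 c' o' R' ℓ' := by
  have hβ0 : 0 ≤ X.β := X.β_pos.le
  have hβ1 : X.β ≤ 1 := X.β_le.trans (by norm_num)
  set G : (ℕ → Ctx X.a) → (ℕ → X.Tok) → ℕ → Lab X.a → (ℕ → Ctx X.a) → (ℕ → X.Tok) → ℕ →
      Lab X.a → ℝ := fun c o R ℓ c' o' R' ℓ' =>
    Φ fun i => X.Zf (τ i) s E1 c o R ℓ * X.Zf (τ i) (E1 + ℓ.1.val) E2 c' o' R' ℓ' with hGdef
  have hG0 : ∀ c o R ℓ c' o' R' ℓ', 0 ≤ G c o R ℓ c' o' R' ℓ' := fun c o R ℓ c' o' R' ℓ' =>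
    hΦ0 _ (hC c o R ℓ c' o' R' ℓ')
  set T : ℕ → ℕ → ℝ := fun R1 n =>
    EX (fun _ => kap X.β) R1 fun c => EX (fun r => X.ν (c r)) R1 fun o =>
      EX (fun _ => kap X.β) n fun c' => EX (fun r => X.ν (c' r)) n fun o' =>
        ∑ ℓ1 : Lab X.a, ∑ ℓ : Lab X.a, G c o R1 ℓ1 c' o' n ℓ with hTdef
  have hT0 : ∀ R1 n, 0 ≤ T R1 n := by
    intro R1 n
    refine EX_nonneg (fun _ θ => kap_nonneg hβ0 hβ1 θ) _ fun c => ?_
    refine EX_nonneg (fun r θ => X.ν_nonneg _ θ) _ fun o => ?_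
    refine EX_nonneg (fun _ θ => kap_nonneg hβ0 hβ1 θ) _ fun c' => ?_
    refine EX_nonneg (fun r θ => X.ν_nonneg _ θ) _ fun o' => ?_
    exact Finset.sum_nonneg fun _ _ => Finset.sum_nonneg fun _ _ => hG0 _ _ _ _ _ _ _ _
  have step1 : X.Tot N (fun c o R ℓ => Φ fun i => X.Zf (τ i) s E2 c o R ℓ) ≤
      X.Tot N fun c o R ℓ => ∑ R1 ∈ range (R + 1), ∑ ℓ1 : Lab X.a,
        G c o R1 ℓ1 (sh R1 c) (sh R1 o) (R - R1) ℓ := by
    refine X.Tot_mono N fun c o R ℓ => ?_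
    have h := hΦ (range (R + 1) ×ˢ (univ : Finset (Lab X.a)))
      (fun j i => X.Zf (τ i) s E1 c o j.1 j.2 *
        X.Zf (τ i) (E1 + j.2.1.val) E2 (sh j.1 c) (sh j.1 o) (R - j.1) ℓ)
      (fun j _ => hC _ _ _ _ _ _ _ _)
    simp only [Finset.sum_product] at h
    simp only [X.Zf_comp _ hs hE c o R ℓ]
    exact h
  have step2 : (X.Tot N fun c o R ℓ => ∑ R1 ∈ range (R + 1), ∑ ℓ1 : Lab X.a,
        G c o R1 ℓ1 (sh R1 c) (sh R1 o) (R - R1) ℓ) =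
      ∑ R ∈ range (N + 1), ∑ R1 ∈ range (R + 1), T R1 (R - R1) := by
    unfold Tot
    refine Finset.sum_congr rfl fun R _ => ?_
    have e : ∀ (c : ℕ → Ctx X.a) (o : ℕ → X.Tok),
        (∑ ℓ : Lab X.a, ∑ R1 ∈ range (R + 1), ∑ ℓ1 : Lab X.a,
          G c o R1 ℓ1 (sh R1 c) (sh R1 o) (R - R1) ℓ) =
        ∑ R1 ∈ range (R + 1), ∑ ℓ1 : Lab X.a, ∑ ℓ : Lab X.a,
          G c o R1 ℓ1 (sh R1 c) (sh R1 o) (R - R1) ℓ := by
      intro c o
      rw [Finset.sum_comm]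
      exact Finset.sum_congr rfl fun R1 _ => Finset.sum_comm
    simp only [e]
    simp only [EX_sum _ _ (range (R + 1))]
    refine Finset.sum_congr rfl fun R1 hR1 => ?_
    have hR : R1 ≤ R := Nat.lt_succ_iff.1 (Finset.mem_range.1 hR1)
    obtain ⟨n, rfl⟩ := Nat.exists_eq_add_of_le hR
    rw [Nat.add_sub_cancel_left]
    refine X.comp_data R1 n
      (fun c o c' o' => ∑ ℓ1 : Lab X.a, ∑ ℓ : Lab X.a, G c o R1 ℓ1 c' o' n ℓ) ?_
    intro c c' o o' w u hc ho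
    refine Finset.sum_congr rfl fun ℓ1 _ => Finset.sum_congr rfl fun ℓ _ => ?_
    simp only [hGdef, fun i => X.Zf_congr (τ i) s E1 ℓ1 hc ho]
  have step3 : (X.Tot N fun c o R ℓ => X.Tot N fun c' o' R' ℓ' => G c o R ℓ c' o' R' ℓ') =
      ∑ R1 ∈ range (N + 1), ∑ n ∈ range (N + 1), T R1 n := by
    unfold Tot
    refine Finset.sum_congr rfl fun R1 _ => ?_
    simp only [hTdef]
    rw [← EX_sum]
    congr 1
    funext c
    rw [← EX_sum]
    congr 1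
    funext o
    rw [Finset.sum_comm]
    refine Finset.sum_congr rfl fun n _ => ?_
    rw [← EX_sum]
    congr 1
    funext c'
    rw [← EX_sum]
  refine step1.trans ?_
  rw [step2, step3, Finset.sum_range_diag_flip]
  refine Finset.sum_le_sum fun R1 _ => ?_
  exact Finset.sum_le_sum_of_subset_of_nonneg (Finset.range_mono (Nat.sub_le _ _))
    fun n _ _ => hT0 R1 n

lemma comp_mid {M : ℕ} (hM : 1 ≤ M) (P : ℕ → Finset ℕ) (i0 s : ℕ) (c : ℕ → Ctx X.a)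
    (o : ℕ → X.Tok) (R : ℕ) (ℓ : Lab X.a) :
    X.Zf (tauP X.a M P) (i0 * LL X.a M + s) ((i0 + 1) * LL X.a M) c o R ℓ =
      X.ZP M s 1 (fun _ => P i0) c o R ℓ := by
  have e : (i0 + 1) * LL X.a M = i0 * LL X.a M + 1 * LL X.a M := by ring
  rw [e, Zf_shift, tauP_shift hM]
  refine X.ZP_local (M := M) (s := s) (K := 1) hM (P := sh i0 P) (Q := fun _ => P i0) ?_ c o R ℓ
  intro i hi
  have : i = 0 := by omega
  subst this
  rfl

lemma comp_LL {M : ℕ} (hM : 1 ≤ M) : 2 * X.a + 1 ≤ HH X.a M ∧ LL X.a M = 2 * HH X.a M := by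
  refine ⟨?_, rfl⟩
  unfold HH
  exact Nat.le_mul_of_pos_right _ hM

lemma comp_right {ι : Type} (i1 : ι) (N M K i0 : ℕ) (hM : 1 ≤ M) (hi : i0 < K)
    (Φ : (ι → ℝ) → ℝ) (hΦ0 : ∀ v, 0 ≤ Φ v)
    (hadd : ∀ v w, Φ (fun i => v i + w i) ≤ Φ v + Φ w)
    (hhom : ∀ (t : ℝ) (v : ι → ℝ), 0 ≤ t → Φ (fun i => t * v i) = t * Φ v)
    (P : ι → ℕ → Finset ℕ) (hP : ∀ i i' j, j ≠ i0 → P i j = P i' j) (B : ℝ)
    (hB : ∀ s' ≤ 2 * X.a + 1,
      X.Tot N (fun c o R ℓ => Φ fun i => X.ZP M s' 1 (fun _ => P i i0) c o R ℓ) ≤ B)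
    (s : ℕ) (hs : s ≤ 2 * X.a + 1) :
    X.Tot N (fun c o R ℓ => Φ fun i =>
      X.Zf (tauP X.a M (P i)) (i0 * LL X.a M + s) (K * LL X.a M) c o R ℓ) ≤ B := by
  obtain ⟨hH, hL⟩ := X.comp_LL hM
  have hmid : X.Tot N (fun c o R ℓ => Φ fun i =>
      X.Zf (tauP X.a M (P i)) (i0 * LL X.a M + s) ((i0 + 1) * LL X.a M) c o R ℓ) ≤ B := by
    simp only [X.comp_mid hM]
    exact hB s hs
  rcases Nat.eq_or_lt_of_le (Nat.succ_le_of_lt hi) with hK | hK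
  · rw [← hK]
    exact hmid
  · have e1 : (i0 + 1) * LL X.a M = i0 * LL X.a M + LL X.a M := by ring
    have e2 : (i0 + 1) * LL X.a M + LL X.a M ≤ K * LL X.a M := by
      have : (i0 + 1 + 1) * LL X.a M ≤ K * LL X.a M := Nat.mul_le_mul_right _ hK
      have e3 : (i0 + 1 + 1) * LL X.a M = (i0 + 1) * LL X.a M + LL X.a M := by ring
      omega
    refine (X.Tot_comp N Φ (fun _ => True) (fun v _ => hΦ0 v)
      (fun J v _ => comp_subadd Φ hadd hhom J v) (fun i => tauP X.a M (P i))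
      (s := i0 * LL X.a M + s) (E1 := (i0 + 1) * LL X.a M) (E2 := K * LL X.a M)
      (by omega) (by omega) (fun _ _ _ _ _ _ _ _ => trivial)).trans (le_trans ?_ hmid)
    refine X.Tot_mono N fun c o R ℓ => ?_
    have hloc : ∀ i c' o' R' ℓ',
        X.Zf (tauP X.a M (P i)) ((i0 + 1) * LL X.a M + ℓ.1.val) (K * LL X.a M) c' o' R' ℓ' =
        X.Zf (tauP X.a M (P i1)) ((i0 + 1) * LL X.a M + ℓ.1.val) (K * LL X.a M) c' o' R' ℓ' := by
      intro i c' o' R' ℓ'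
      refine X.Zf_local (fun j hj _ => ?_) c' o' R' ℓ'
      have hLpos : 0 < LL X.a M := by omega
      have : i0 + 1 ≤ j / LL X.a M := (Nat.le_div_iff_mul_le hLpos).2 (by omega)
      unfold tauP
      rw [hP i i1 (j / LL X.a M) (by omega)]
    have e : (fun c' o' R' ℓ' => Φ fun i =>
        X.Zf (tauP X.a M (P i)) (i0 * LL X.a M + s) ((i0 + 1) * LL X.a M) c o R ℓ *
        X.Zf (tauP X.a M (P i)) ((i0 + 1) * LL X.a M + ℓ.1.val) (K * LL X.a M) c' o' R' ℓ') =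
        fun c' o' R' ℓ' => (Φ fun i =>
          X.Zf (tauP X.a M (P i)) (i0 * LL X.a M + s) ((i0 + 1) * LL X.a M) c o R ℓ) *
        X.Zf (tauP X.a M (P i1)) ((i0 + 1) * LL X.a M + ℓ.1.val) (K * LL X.a M) c' o' R' ℓ' := by
      funext c' o' R' ℓ'
      rw [mul_comm (Φ _), ← hhom _ _ (X.Zf_nonneg _ _ _ _ _ _ _)]
      congr 1
      funext i
      rw [hloc i]
      exact mul_comm _ _
    rw [e, X.Tot_mul_left]
    exact mul_le_of_le_one_right (hΦ0 _) (X.Tot_Zf_le N _ _ _)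

/-- Arrangements that differ only at cluster `i0`: reveal the passages of `i0 * L` (if `0 < i0`) and of
`(i0 + 1) * L` (if `i0 + 1 < K`); the outer factors do not depend on `i : ι` (`Zf_local`, `tauP_local`), come out by
homogeneity and have total mass at most one (`Tot_Zf_le`); translate the middle block (`Zf_shift`, `tauP_shift`). -/
theorem localize {ι : Type} (N M K s i0 : ℕ) (hM : 1 ≤ M) (hs : s ≤ 2 * X.a + 1) (hi : i0 < K)
    (Φ : (ι → ℝ) → ℝ) (hΦ0 : ∀ v, 0 ≤ Φ v)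
    (hadd : ∀ v w, Φ (fun i => v i + w i) ≤ Φ v + Φ w)
    (hhom : ∀ (t : ℝ) (v : ι → ℝ), 0 ≤ t → Φ (fun i => t * v i) = t * Φ v)
    (P : ι → ℕ → Finset ℕ) (hP : ∀ i i' j, j ≠ i0 → P i j = P i' j) (B : ℝ)
    (hB : ∀ s' ≤ 2 * X.a + 1,
      X.Tot N (fun c o R ℓ => Φ fun i => X.ZP M s' 1 (fun _ => P i i0) c o R ℓ) ≤ B) :
    X.Tot N (fun c o R ℓ => Φ fun i => X.ZP M s K (P i) c o R ℓ) ≤ B := by
  rcases isEmpty_or_nonempty ι with hι | ⟨⟨i1⟩⟩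
  · refine le_trans (le_of_eq ?_) (hB s hs)
    congr 1
    funext c o R ℓ
    congr 1
    funext i
    exact isEmptyElim i
  obtain ⟨hH, hL⟩ := X.comp_LL hM
  have hB0 : 0 ≤ B := le_trans (X.Tot_nonneg N fun _ _ _ _ => hΦ0 _) (hB s hs)
  have hr := X.comp_right i1 N M K i0 hM hi Φ hΦ0 hadd hhom P hP B hB
  unfold ZP
  rcases Nat.eq_zero_or_pos i0 with h0 | h0
  · have h := hr s hs
    rw [h0, zero_mul, zero_add] at h
    exact h
  · have e1 : LL X.a M ≤ i0 * LL X.a M := Nat.le_mul_of_pos_left _ h0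
    have e2 : i0 * LL X.a M + LL X.a M ≤ K * LL X.a M := by
      have : (i0 + 1) * LL X.a M ≤ K * LL X.a M := Nat.mul_le_mul_right _ hi
      have e3 : (i0 + 1) * LL X.a M = i0 * LL X.a M + LL X.a M := by ring
      omega
    refine (X.Tot_comp N Φ (fun _ => True) (fun v _ => hΦ0 v)
      (fun J v _ => comp_subadd Φ hadd hhom J v) (fun i => tauP X.a M (P i))
      (s := s) (E1 := i0 * LL X.a M) (E2 := K * LL X.a M)
      (by omega) (by omega) (fun _ _ _ _ _ _ _ _ => trivial)).trans ?_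
    have hfin : X.Tot N (fun c o R ℓ =>
        B * X.Zf (tauP X.a M (P i1)) s (i0 * LL X.a M) c o R ℓ) ≤ B := by
      rw [X.Tot_mul_left]
      exact mul_le_of_le_one_right hB0 (X.Tot_Zf_le N _ _ _)
    refine le_trans (X.Tot_mono N fun c o R ℓ => ?_) hfin
    have hloc : ∀ i, X.Zf (tauP X.a M (P i)) s (i0 * LL X.a M) c o R ℓ =
        X.Zf (tauP X.a M (P i1)) s (i0 * LL X.a M) c o R ℓ := by
      intro i
      refine X.Zf_local (fun j _ hj => ?_) c o R ℓ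
      exact tauP_local (K := i0) (fun j' hj' => hP i i1 j' (by omega)) j (by omega)
    have e : (fun c' o' R' ℓ' => Φ fun i =>
        X.Zf (tauP X.a M (P i)) s (i0 * LL X.a M) c o R ℓ *
        X.Zf (tauP X.a M (P i)) (i0 * LL X.a M + ℓ.1.val) (K * LL X.a M) c' o' R' ℓ') =
        fun c' o' R' ℓ' => X.Zf (tauP X.a M (P i1)) s (i0 * LL X.a M) c o R ℓ * (Φ fun i =>
          X.Zf (tauP X.a M (P i)) (i0 * LL X.a M + ℓ.1.val) (K * LL X.a M) c' o' R' ℓ') := by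
      funext c' o' R' ℓ'
      rw [← hhom _ _ (X.Zf_nonneg _ _ _ _ _ _ _)]
      congr 1
      funext i
      rw [hloc i]
    rw [e, X.Tot_mul_left, mul_comm]
    exact mul_le_mul_of_nonneg_right (hr _ (by have := ℓ.1.isLt; omega))
      (X.Zf_nonneg _ _ _ _ _ _ _)

end Model

end Pool.Agent.Lib.MP_343fe0_pr
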