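import Mathlib

set_option autoImplicit false

/-! All definitions used in the proof of the superpolynomial lower bound for trace reconstruction.
See BLUEPRINT.md for the overall picture. -/

namespace Pool.Agent.Lib.MP_343fe0_pr

open Finset

/-! ### Words, laws of traces, affinity -/

abbrev Wd : Type := FreeMonoid Bool
abbrev Alg : Type := MonoidAlgebra ℝ Wd

/-- The law of the trace of a word, as an element of the monoid algebra of words. -/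
noncomputable def mu : Wd →* Alg :=
  FreeMonoid.lift fun b => (1 / 2 : ℝ) • (1 + MonoidAlgebra.single (FreeMonoid.of b) (1 : ℝ))

def NN (f : Alg) : Prop := ∀ w, 0 ≤ f.coeff w
def Dom (f g : Alg) : Prop := ∀ w, f.coeff w ≤ g.coeff w
noncomputable def mass (f : Alg) : ℝ := f.coeff.sum fun _ r => r
/-- Hellinger affinity. -/
noncomputable def Aff (f g : Alg) : ℝ := f.coeff.sum fun w r => √(r * g.coeff w)

/-- Shift of a sequence. -/
def sh {α : Type} (k : ℕ) (τ : ℕ → α) : ℕ → α := fun i => τ (k + i)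

/-- The word made of `n` sites, site `i` being `V` (a defect) if `τ i` and `U` otherwise. -/
def word (U V : Wd) (τ : ℕ → Bool) (n : ℕ) : Wd :=
  ((List.range n).map fun i => if τ i then V else U).prod

/-- `U` and `V` differ at a common position. -/
def Dif (U V : Wd) : Prop :=
  ∃ (p r r' : Wd) (b : Bool), U = p * FreeMonoid.of b * r ∧ V = p * FreeMonoid.of (!b) * r'

/-- Defects among the `k` sites starting at `p`, relative to `p`. -/
def dset (τ : ℕ → Bool) (p k : ℕ) : Finset ℕ := (range k).filter fun j => τ (p + j) = true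

/-- The pattern `G` placed at offset `u`, cut to the window `[0,k)`. -/
def pat (G : Finset ℕ) (u : ℤ) (k : ℕ) : Finset ℕ :=
  (range k).filter fun j => ∃ g ∈ G, (j : ℤ) = u + g

/-- The set lies in a window of length `m`. -/
def Adm (m : ℕ) (S : Finset ℕ) : Prop := ∃ u : ℕ, ∀ j ∈ S, u ≤ j ∧ j < u + m

open Classical in
/-- Indicator of a proposition. -/
noncomputable def ind (p : Prop) : ℝ := if p then 1 else 0

/-! ### Finite product expectations -/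

def ext {Θ : Type} [Inhabited Θ] {n : ℕ} (v : Fin n → Θ) : ℕ → Θ :=
  fun r => if h : r < n then v ⟨r, h⟩ else default

def cns {Θ : Type} (θ : Θ) (v : ℕ → Θ) : ℕ → Θ
  | 0 => θ
  | r + 1 => v r

def splice {Θ : Type} (t : ℕ) (v w : ℕ → Θ) : ℕ → Θ := fun r => if r < t then v r else w (r - t)

/-- Expectation over the first `n` coordinates, coordinate `r` having weights `π r`
(later coordinates are set to `default`). -/
noncomputable def EX {Θ : Type} [Fintype Θ] [Inhabited Θ] (π : ℕ → Θ → ℝ) (n : ℕ)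
    (F : (ℕ → Θ) → ℝ) : ℝ :=
  ∑ v : Fin n → Θ, (∏ r : Fin n, π r (v r)) * F (ext v)

/-- Binomial weights on `ℤ`. -/
noncomputable def bin (ϱ : ℝ) (n : ℕ) (j : ℤ) : ℝ :=
  if 0 ≤ j then (n.choose j.toNat : ℝ) * ϱ ^ j.toNat * (1 - ϱ) ^ (n - j.toNat) else 0

/-- Thue-Morse signs on `range (2 ^ T)`. -/
def sgn : ℕ → ℕ → ℤ
  | 0, _ => 1
  | T + 1, g => if g < 2 ^ T then sgn T g else -sgn T (g - 2 ^ T)

def tmF (T : ℕ) : Finset ℕ := (range (2 ^ T)).filter fun g => sgn T g = 1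
def tmF' (T : ℕ) : Finset ℕ := (range (2 ^ T)).filter fun g => sgn T g = -1

/-! ### The walk -/

/-- Context of a step: the length `a + c.1` and either a hidden fair coin (`none`) or a revealed bit. -/
abbrev Ctx (a : ℕ) : Type := Fin (a + 1) × Option Bool
/-- Label of a segment: overshoot and last bit. -/
abbrev Lab (a : ℕ) : Type := Fin (2 * a + 1) × Bool

def stp {a : ℕ} (c : Ctx a) (ξ : Bool) : ℕ := a + c.1.val + ξ.toNat

noncomputable def kap {a : ℕ} (β : ℝ) (c : Ctx a) : ℝ :=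
  (if c.2 = none then β else (1 - β) / 2) / (a + 1)

noncomputable def pr {a : ℕ} (ϱ : ℝ) (c : Ctx a) (ξ : Bool) : ℝ :=
  match c.2 with
  | none => if ξ then ϱ else 1 - ϱ
  | some b => if ξ = b then 1 else 0

def pos {a : ℕ} (s : ℕ) (c : ℕ → Ctx a) (ξ : ℕ → Bool) (r : ℕ) : ℕ :=
  s + ∑ i ∈ range r, stp (c i) (ξ i)

/-- The walk started at `s` first reaches `E` at time `R`, with label `ℓ`. -/
def End {a : ℕ} (s E : ℕ) (c : ℕ → Ctx a) (ξ : ℕ → Bool) (R : ℕ) (ℓ : Lab a) : Prop :=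
  pos s c ξ (R - 1) < E ∧ pos s c ξ R = E + ℓ.1.val ∧ ξ (R - 1) = ℓ.2

/-- Expectation over the hidden bits, given the contexts. -/
noncomputable def QX {a : ℕ} (c : ℕ → Ctx a) (n : ℕ) (F : (ℕ → Bool) → ℝ) : ℝ :=
  EX (fun r => pr (1 / 2) (c r)) n F

/-- Expectation over contexts and bits. -/
noncomputable def AX {a : ℕ} (β : ℝ) (n : ℕ) (F : (ℕ → Ctx a) → (ℕ → Bool) → ℝ) : ℝ :=
  EX (fun _ => kap β) n fun c => QX c n fun ξ => F c ξ

noncomputable def gg {a : ℕ} (s E : ℕ) (c : ℕ → Ctx a) (R : ℕ) (ℓ : Lab a) : ℝ :=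
  QX c R fun ξ => ind (End s E c ξ R ℓ)

/-- Number of coin steps in `[t,t')`. -/
def coins {a : ℕ} (c : ℕ → Ctx a) (t t' : ℕ) : ℕ := ((Ico t t').filter fun r => (c r).2 = none).card

/-- Length of the first `n` steps when all coins are `false`. -/
def base {a : ℕ} (c : ℕ → Ctx a) (n : ℕ) : ℕ := ∑ r ∈ range n, stp (c r) ((c r).2.getD false)

/-- The number of `true` coins among the first `R - 1` steps forced by `End`. -/
def jj {a : ℕ} (s E : ℕ) (c : ℕ → Ctx a) (R : ℕ) (ℓ : Lab a) : ℤ :=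
  (E : ℤ) + ℓ.1.val - s - base c (R - 1) - stp (c (R - 1)) ℓ.2

def Good {a : ℕ} (β b : ℝ) (s E : ℕ) (c : ℕ → Ctx a) (R : ℕ) (ℓ : Lab a) : Prop :=
  (∀ t t' : ℕ, t ≤ t' → t' ≤ R → β * ((t' : ℝ) - t) / 2 - b ≤ coins c t t') ∧
  (coins c 0 (R - 1) : ℤ) ≤ 4 * jj s E c R ℓ ∧ 4 * jj s E c R ℓ ≤ 3 * coins c 0 (R - 1)

/-- The step that covers site `z`. -/
noncomputable def r0 {a : ℕ} (s : ℕ) (c : ℕ → Ctx a) (ξ : ℕ → Bool) (z : ℕ) : ℕ :=
  sInf {r | z < pos s c ξ (r + 1)}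

/-- Half block, block, position of cluster `i`. -/
def HH (a M : ℕ) : ℕ := (2 * a + 1) * M
def LL (a M : ℕ) : ℕ := 2 * HH a M
def zz (a M i : ℕ) : ℕ := i * LL a M + HH a M

/-- Defects of the arrangement `P`: pattern `P i` is placed at `zz a M i`. -/
def tauP (a M : ℕ) (P : ℕ → Finset ℕ) : ℕ → Bool :=
  fun j => decide (HH a M ≤ j % LL a M ∧ j % LL a M - HH a M ∈ P (j / LL a M))

/-- Chain sums.  `Chain f α y n i l`: clusters `i, ..., i+n-1` are still to be treated, cluster `i` has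
coordinate `i+1`, the last collision has coordinate `l`. -/
def Chain (f α y : ℕ → ℝ) : ℕ → ℕ → ℕ → ℝ
  | 0, i, l => f (i + 1 - l)
  | n + 1, i, l => α i * Chain f α y n (i + 1) l + y i * f (i + 1 - l) * Chain f α y n (i + 1) (i + 1)

noncomputable def ff (β : ℝ) (M d : ℕ) : ℝ := 8 / √(β * M * d)

noncomputable def badB (β b : ℝ) (M N : ℕ) : ℝ :=
  ((N : ℝ) + 1) ^ 3 * Real.exp (-b) + 2 * ((N : ℝ) + 1) * Real.exp (-(β ^ 2 * M / 192))

/-! ### Models -/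

/-- A renewal type simulation of the deletion channel on words made of sites `U`, `V`. -/
structure Model (m : ℕ) : Type 1 where
  a : ℕ
  β : ℝ
  ε : ℝ
  U : Wd
  V : Wd
  Tok : Type
  [fin : Fintype Tok]
  [inh : Inhabited Tok]
  ν : Ctx a → Tok → ℝ
  out : Ctx a → Tok → Alg
  D : Ctx a → Bool → Finset ℕ → Tok → ℝ
  a_pos : 1 ≤ a
  m_le : m ≤ a
  β_pos : 0 < β
  β_le : β ≤ 1 / 2
  ε_nonneg : 0 ≤ ε
  ε_le : ε ≤ 1
  ν_nonneg : ∀ c o, 0 ≤ ν c o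
  ν_sum : ∀ c, ∑ o, ν c o = 1
  out_nn : ∀ c o, NN (out c o)
  out_mass : ∀ c o, mass (out c o) = 1
  D_empty : ∀ c ξ o, D c ξ ∅ o = 0
  D_mean : ∀ c ξ S, ∑ o, ν c o * D c ξ S o = 0
  D_ge : ∀ c ξ S o, -1 ≤ D c ξ S o
  sim : ∀ τ : ℕ → Bool, Adm m (dset τ 0 (2 * a + 1)) →
    Dom ((1 - ε) • ∑ c : Ctx a, ∑ ξ : Bool, ∑ o : Tok,
        (kap β c * pr (1 / 2) c ξ * ν c o * (1 + D c ξ (dset τ 0 (stp c ξ)) o)) •
          (out c o * mu (word U V (sh (stp c ξ) τ) (2 * a + 1 - stp c ξ))))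
      (mu (word U V τ (2 * a + 1)))

attribute [instance] Model.fin Model.inh

/-- A slot of a cluster factor: constant term, pattern, and whether the linear part is removed. -/
structure Slot : Type where
  al : Bool
  P : Finset ℕ
  e : Bool

abbrev Spec : Type := Slot × Slot

def arr (P : Finset ℕ) : Spec := (⟨true, P, false⟩, ⟨true, P, false⟩)
def one0 (e : Bool) (P : Finset ℕ) : Spec := (⟨false, P, e⟩, ⟨true, ∅, true⟩)
def one1 (e : Bool) (P : Finset ℕ) : Spec := (⟨true, ∅, true⟩, ⟨false, P, e⟩)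
def two (P : Finset ℕ) : Spec := (⟨false, P, false⟩, ⟨false, P, false⟩)

def item (e : Bool) (F F' : Finset ℕ) : Fin 6 → Spec :=
  ![one0 e F', one1 e F', two F', one0 e F, one1 e F, two F]
def itemSgn : Fin 6 → ℝ := ![1, 1, 1, -1, -1, -1]

def alB (b : Bool) : ℝ := if b then 1 else 0
def alpha (sp : Spec) : ℝ := alB sp.1.al * alB sp.2.al
def SpecOK (m : ℕ) (sp : Spec) : Prop := sp.1.P ⊆ range m ∧ sp.2.P ⊆ range m

/-- Number of feature classes. -/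
def kk (m : ℕ) : ℝ := 8 * 2 ^ m

/-- Annealed weight of a cluster factor. -/
noncomputable def hh (m a : ℕ) (ΩA sA Ω2 : ℝ) (sp : Spec) : ℝ :=
  5 / ((a : ℝ) + 1) * (kk m * (alB sp.2.al * (if sp.1.e then Ω2 else ΩA) +
    alB sp.1.al * (if sp.2.e then Ω2 else ΩA) +
    kk m * (if sp.1.e then Ω2 else ΩA) * (if sp.2.e then Ω2 else sA)))

/-- Annealed weight of an ordinary cluster: `hA m a ΩA sA = hh m a ΩA sA Ω2 (arr P)`. -/
noncomputable def hA (m a : ℕ) (ΩA sA : ℝ) : ℝ :=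
  5 / ((a : ℝ) + 1) * (kk m * (2 * ΩA + kk m * ΩA * sA))

def arrS (F F' S : Finset ℕ) : ℕ → Finset ℕ := fun i => if i ∈ S then F' else F

namespace Model

variable {m : ℕ} (X : Model m)

/-- Features: the likelihood ratio of the pattern `G` at offset `u`, with its linear part removed if `e`. -/
noncomputable def feat (e : Bool) (G : Finset ℕ) (c : Ctx X.a) (ξ : Bool) (u : ℤ) (o : X.Tok) : ℝ :=
  X.D c ξ (pat G u (stp c ξ)) o - if e then ∑ g ∈ G, X.D c ξ (pat {g} u (stp c ξ)) o else 0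

/-- Diagonal domination of the features. -/
structure Wts (ΩA sA Ω2 : ℝ) : Type where
  w : Bool → Ctx X.a → Bool → ℤ → ℝ
  nonneg : ∀ e c ξ u, 0 ≤ w e c ξ u
  sup : ∀ c ξ u, w false c ξ u ≤ sA
  sum : ∀ e c ξ (s : Finset ℤ), ∑ u ∈ s, w e c ξ u ≤ if e then Ω2 else ΩA
  dom : ∀ e G, G ⊆ range m → ∀ c ξ (s : Finset ℤ) (x : ℤ → ℝ),
    ∑ o, X.ν c o * (∑ u ∈ s, x u * X.feat e G c ξ u o) ^ 2 ≤ ∑ u ∈ s, w e c ξ u * x u ^ 2

/-- The invariant carried from level to level. -/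
def Bd (ΩA sA Ω2 δ : ℝ) : Prop :=
  (∀ c ξ S o, |X.D c ξ S o| ≤ δ) ∧ Nonempty (X.Wts ΩA sA Ω2)

/-- Partition function of a segment. -/
noncomputable def Zf (τ : ℕ → Bool) (s E : ℕ) (c : ℕ → Ctx X.a) (o : ℕ → X.Tok) (R : ℕ)
    (ℓ : Lab X.a) : ℝ :=
  QX c R fun ξ => ind (End s E c ξ R ℓ) *
    ∏ r ∈ range R, (1 + X.D (c r) (ξ r) (dset τ (pos s c ξ r) (stp (c r) (ξ r))) (o r))

/-- Sum over the revealed data of a segment (at most `N` steps). -/
noncomputable def Tot (N : ℕ) (Ψ : (ℕ → Ctx X.a) → (ℕ → X.Tok) → ℕ → Lab X.a → ℝ) : ℝ :=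
  ∑ R ∈ range (N + 1), EX (fun _ => kap X.β) R fun c =>
    EX (fun r => X.ν (c r)) R fun o => ∑ ℓ : Lab X.a, Ψ c o R ℓ

noncomputable def outs (c : ℕ → Ctx X.a) (o : ℕ → X.Tok) (R : ℕ) : Alg :=
  ((List.range R).map fun r => X.out (c r) (o r)).prod

noncomputable def slotF (sl : Slot) (c : Ctx X.a) (ξ : Bool) (u : ℤ) (o : X.Tok) : ℝ :=
  alB sl.al + X.feat sl.e sl.P c ξ u o

/-- Factor of cluster `i`: the two steps that may touch it. -/
noncomputable def clF (M s : ℕ) (sp : Spec) (i : ℕ) (c : ℕ → Ctx X.a) (ξ : ℕ → Bool)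
    (o : ℕ → X.Tok) : ℝ :=
  X.slotF sp.1 (c (r0 s c ξ (zz X.a M i))) (ξ (r0 s c ξ (zz X.a M i)))
      ((zz X.a M i : ℤ) - pos s c ξ (r0 s c ξ (zz X.a M i))) (o (r0 s c ξ (zz X.a M i))) *
    X.slotF sp.2 (c (r0 s c ξ (zz X.a M i) + 1)) (ξ (r0 s c ξ (zz X.a M i) + 1))
      ((zz X.a M i : ℤ) - pos s c ξ (r0 s c ξ (zz X.a M i) + 1)) (o (r0 s c ξ (zz X.a M i) + 1))

/-- Generalised partition function of a segment of `K` blocks. -/
noncomputable def Tm (M s K : ℕ) (sp : ℕ → Spec) (c : ℕ → Ctx X.a) (o : ℕ → X.Tok) (R : ℕ)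
    (ℓ : Lab X.a) : ℝ :=
  QX c R fun ξ => ind (End s (K * LL X.a M) c ξ R ℓ) * ∏ i ∈ range K, X.clF M s (sp i) i c ξ o

/-- Partition function of `K` blocks with arrangement `P`. -/
noncomputable def ZP (M s K : ℕ) (P : ℕ → Finset ℕ) (c : ℕ → Ctx X.a) (o : ℕ → X.Tok) (R : ℕ)
    (ℓ : Lab X.a) : ℝ :=
  X.Zf (tauP X.a M P) s (K * LL X.a M) c o R ℓ

/-- Partition function of a step of the next level covering `K` blocks with defect set `S`. -/
noncomputable def ZS (M K : ℕ) (F F' S : Finset ℕ) (c : ℕ → Ctx X.a) (o : ℕ → X.Tok) (R : ℕ)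
    (ℓ : Lab X.a) : ℝ :=
  X.ZP M (2 * X.a + 1) K (arrS F F' S) c o R ℓ

noncomputable def dZ (M K : ℕ) (F F' : Finset ℕ) (e : Bool) (G : Finset ℕ) (u : ℤ)
    (c : ℕ → Ctx X.a) (o : ℕ → X.Tok) (R : ℕ) (ℓ : Lab X.a) : ℝ :=
  (X.ZS M K F F' (pat G u K) c o R ℓ - X.ZS M K F F' ∅ c o R ℓ) -
    if e then ∑ g ∈ G, (X.ZS M K F F' (pat {g} u K) c o R ℓ - X.ZS M K F F' ∅ c o R ℓ) else 0

/-- The linear (Prouhet) term at cluster `i`. -/
noncomputable def LT (M s K : ℕ) (F F' : Finset ℕ) (P : ℕ → Finset ℕ) (i : ℕ)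
    (c : ℕ → Ctx X.a) (o : ℕ → X.Tok) (R : ℕ) (ℓ : Lab X.a) : ℝ :=
  ∑ g ∈ range m, (ind (g ∈ F') - ind (g ∈ F)) * X.ZP M s K (Function.update P i {g}) c o R ℓ

/-- Site of the next level. -/
def blk (M : ℕ) (F : Finset ℕ) : Wd :=
  word X.U X.V (sh (2 * X.a + 1) (tauP X.a M fun _ => F)) (LL X.a M)

/-- Negative moment of the likelihood ratio of the background. -/
noncomputable def Ren (M N : ℕ) (F : Finset ℕ) (q k s : ℕ) : ℝ :=
  X.Tot N fun c o R ℓ => gg s (k * LL X.a M) c R ℓ *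
    (gg s (k * LL X.a M) c R ℓ / X.ZP M s k (fun _ => F) c o R ℓ) ^ q

/-- Path weight of a cluster factor in the two-replica bound. -/
noncomputable def Yw {ΩA sA Ω2 : ℝ} (W : X.Wts ΩA sA Ω2) (sp : Spec) (u : ℕ)
    (c0 : Ctx X.a) (ξ0 : Bool) (c1 : Ctx X.a) (ξ1 : Bool) : ℝ :=
  alB sp.2.al * (kk m * W.w sp.1.e c0 ξ0 u) +
    alB sp.1.al * (kk m * W.w sp.2.e c1 ξ1 ((u : ℤ) - stp c0 ξ0)) +
    (kk m * W.w sp.1.e c0 ξ0 u) * (kk m * W.w sp.2.e c1 ξ1 ((u : ℤ) - stp c0 ξ0))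

/-- The standing geometric hypotheses on a segment of `K` blocks started at `s`. -/
structure Geo (M K s N : ℕ) (b : ℝ) : Prop where
  hM : 2 ≤ M
  hK : 1 ≤ K
  hs : s ≤ 2 * X.a + 1
  hN : K * LL X.a M ≤ N
  hL : 6 * M * K ≤ LL X.a M ^ 2
  hb0 : 0 ≤ b
  hb : b + X.β ≤ X.β * M / 4

end Model

/-- A path functional evaluated at the two steps that may touch site `z`. -/
noncomputable def atZ {a : ℕ} (y : ℕ → Ctx a → Bool → Ctx a → Bool → ℝ) (s z : ℕ)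
    (c : ℕ → Ctx a) (ξ : ℕ → Bool) : ℝ :=
  y (z - pos s c ξ (r0 s c ξ z)) (c (r0 s c ξ z)) (ξ (r0 s c ξ z))
    (c (r0 s c ξ z + 1)) (ξ (r0 s c ξ z + 1))

/-- The common hypotheses of `gammaA` and `gamma2`. -/
structure GamHyp {m : ℕ} (m' : ℕ) (X : Model m) (ΩA sA Ω2 δ : ℝ) (F F' : Finset ℕ) (lin : Bool)
    (M K N : ℕ) (b θ h TV : ℝ) : Prop where
  bd : X.Bd ΩA sA Ω2 δ
  geo : X.Geo M K (2 * X.a + 1) N b
  hF : F ⊆ range m
  hF' : F' ⊆ range m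
  hch : 64 * hA m X.a ΩA sA * √((K : ℝ) + 1) ≤ √(X.β * M)
  hθ : 0 < θ
  hθ1 : θ ≤ 1
  hit : ∀ t, hh m X.a ΩA sA Ω2 (item lin F F' t) ≤ h
  hTV : 0 ≤ TV
  hcard : lin = true → F.card = F'.card
  hδ : lin = true → 16 * ((m' : ℝ) + 2) * δ ≤ 1
  hlin : lin = true → ∀ (P : ℕ → Finset ℕ) (i : ℕ), i < K →
    X.Tot N (fun c o R ℓ => |X.LT M (2 * X.a + 1) K F F' P i c o R ℓ|) ≤ TV

/-- The asymptotic invariant: for large `x` there is a model with steps of about `x ^ e` sites, sites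
of at most `x ^ lam` letters, weights `x ^ -p`, `x ^ -s`, `x ^ -(p+s)` and loss `x ^ -z`. -/
def Lev (m e lam p s z : ℕ) (eq : Prop) : Prop :=
  ∃ C β : ℝ, 1 ≤ C ∧ 0 < β ∧ ∀ᶠ x : ℕ in Filter.atTop, ∃ X : Model m, X.β = β ∧
    (x : ℝ) ^ e ≤ C * X.a ∧ (X.a : ℝ) ≤ C * (x : ℝ) ^ e ∧
    (X.U.length : ℝ) ≤ C * (x : ℝ) ^ lam ∧ (X.V.length : ℝ) ≤ C * (x : ℝ) ^ lam ∧
    Dif X.U X.V ∧ (eq → X.U.length = X.V.length) ∧ X.ε ≤ C / (x : ℝ) ^ z ∧
    X.Bd (C / (x : ℝ) ^ p) (C / (x : ℝ) ^ s) (C / (x : ℝ) ^ (p + s)) (C / (x : ℝ) ^ 2)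

end Pool.Agent.Lib.MP_343fe0_pr
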