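import Mathlib

set_option autoImplicit false

namespace Pool.Agent.Lib.MP_343fe0_pr

/-- The trace of `x` under the mask `s`: the bits of `x` at the positions kept by `s`
(those `i` with `s i = true`), in their original order. -/
def trace {n : ℕ} (x s : Fin n → Bool) : List Bool :=
  ((List.finRange n).filter s).map x

/-- Some rule recovers every string `x` of length `n` from `m` independent traces with probability
at least `0.9`.  A uniformly random mask keeps each bit independently with probability `1/2`, so the
probability is the proportion of the `2 ^ (n * m)` tuples of masks on which the rule returns `x`. -/
def Reconstructible (n m : ℕ) : Prop :=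
  ∃ R : (Fin m → List Bool) → (Fin n → Bool), ∀ x : Fin n → Bool,
    (9 / 10 : ℝ) * 2 ^ (n * m) ≤
      ((Finset.univ.filter fun s : Fin m → Fin n → Bool =>
        R (fun i => trace x (s i)) = x).card : ℝ)

/-- The least number of traces that suffices for strings of length `n`. -/
noncomputable def mTr (n : ℕ) : ℕ := sInf {m | Reconstructible n m}

end Pool.Agent.Lib.MP_343fe0_pr
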