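import Pool.Agent.Lib.MP_343fe0_pr.Alg

set_option autoImplicit false

/-! Finite product expectations. -/

namespace Pool.Agent.Lib.MP_343fe0_pr

open Finset

variable {Θ : Type} [Fintype Θ] [Inhabited Θ]

omit [Fintype Θ] [Inhabited Θ] in
lemma sh_splice (t : ℕ) (v w : ℕ → Θ) : sh t (splice t v w) = w := by
  funext i; simp [sh, splice]
omit [Fintype Θ] [Inhabited Θ] in
lemma splice_lt {t r : ℕ} (v w : ℕ → Θ) (h : r < t) : splice t v w r = v r := by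
  simp [splice, h]
omit [Fintype Θ] [Inhabited Θ] in
lemma splice_add (t r : ℕ) (v w : ℕ → Θ) : splice t v w (t + r) = w r := by
  simp [splice]
omit [Fintype Θ] [Inhabited Θ] in
lemma sh_one_cns (θ : Θ) (v : ℕ → Θ) : sh 1 (cns θ v) = v := by
  funext i; rw [sh, add_comm]; rfl

omit [Fintype Θ] in
lemma ex_ext_fin {n : ℕ} (v : Fin n → Θ) (r : Fin n) : ext v r = v r := by
  simp [ext]

omit [Fintype Θ] in
lemma ex_ext_cons {n : ℕ} (θ : Θ) (v : Fin n → Θ) :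
    ext (Fin.cons θ v : Fin (n + 1) → Θ) = cns θ (ext v) := by
  funext r
  cases r with
  | zero => simp [ext, cns]
  | succ r =>
    simp only [ext, cns, Nat.add_lt_add_iff_right]
    split_ifs with h
    · exact Fin.cons_succ (α := fun _ => Θ) θ v ⟨r, h⟩
    · rfl

lemma EX_zero (π : ℕ → Θ → ℝ) (F : (ℕ → Θ) → ℝ) : EX π 0 F = F fun _ => default := by
  simp only [EX, univ_unique, univ_eq_empty, prod_empty, one_mul, sum_singleton]
  rfl
lemma EX_succ (π : ℕ → Θ → ℝ) (n : ℕ) (F : (ℕ → Θ) → ℝ) :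
    EX π (n + 1) F = ∑ θ, π 0 θ * EX (sh 1 π) n fun v => F (cns θ v) := by
  rw [EX, ← (Fin.consEquiv fun _ : Fin (n + 1) => Θ).sum_comp, Fintype.sum_prod_type]
  refine sum_congr rfl fun θ _ => ?_
  rw [EX, mul_sum]
  refine sum_congr rfl fun v _ => ?_
  rw [← ex_ext_cons]
  simp only [Fin.consEquiv_apply, Fin.prod_univ_succ, Fin.cons_zero, Fin.cons_succ, Fin.val_zero,
    Fin.val_succ, sh, add_comm 1, mul_assoc]
  rfl
lemma EX_add (π : ℕ → Θ → ℝ) (t n : ℕ) (F : (ℕ → Θ) → ℝ) :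
    EX π (t + n) F = EX π t fun v => EX (sh t π) n fun w => F (splice t v w) := by
  induction t generalizing π F with
  | zero =>
    rw [EX_zero, zero_add]
    congr 1
    funext i; simp [sh]
  | succ t ih =>
    rw [show t + 1 + n = (t + n) + 1 by ring, EX_succ, EX_succ]
    refine sum_congr rfl fun θ _ => ?_
    have h1 : sh t (sh 1 π) = sh (t + 1) π := by
      funext i; simp only [sh]; congr 1; ring
    have h2 : ∀ v w : ℕ → Θ, cns θ (splice t v w) = splice (t + 1) (cns θ v) w := fun v w => by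
      funext r
      cases r <;> simp [cns, splice]
    rw [ih, h1]
    simp only [h2]
lemma EX_congr_wt {π π' : ℕ → Θ → ℝ} {n : ℕ} (h : ∀ r < n, π r = π' r) (F : (ℕ → Θ) → ℝ) :
    EX π n F = EX π' n F :=
  sum_congr rfl fun v _ => by rw [prod_congr rfl fun r _ => by rw [h r r.2]]
lemma EX_mono_supp {π : ℕ → Θ → ℝ} (hπ : ∀ r θ, 0 ≤ π r θ) (n : ℕ) {F G : (ℕ → Θ) → ℝ}
    (h : ∀ v, (∀ r < n, π r (v r) ≠ 0) → F v ≤ G v) : EX π n F ≤ EX π n G := by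
  refine sum_le_sum fun v _ => ?_
  by_cases h0 : ∏ r : Fin n, π r (v r) = 0
  · simp [h0]
  · refine mul_le_mul_of_nonneg_left (h _ fun r hr => ?_) (prod_nonneg fun r _ => hπ _ _)
    rw [ex_ext_fin v ⟨r, hr⟩]
    exact prod_ne_zero_iff.1 h0 ⟨r, hr⟩ (mem_univ _)
/-- Only sequences of nonzero weight matter. -/
lemma EX_congr_supp (π : ℕ → Θ → ℝ) (n : ℕ) {F G : (ℕ → Θ) → ℝ}
    (h : ∀ v, (∀ r < n, π r (v r) ≠ 0) → F v = G v) : EX π n F = EX π n G := by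
  refine sum_congr rfl fun v _ => ?_
  by_cases h0 : ∏ r : Fin n, π r (v r) = 0
  · simp [h0]
  · rw [h _ fun r hr => ?_]
    rw [ex_ext_fin v ⟨r, hr⟩]
    exact prod_ne_zero_iff.1 h0 ⟨r, hr⟩ (mem_univ _)
lemma EX_mono {π : ℕ → Θ → ℝ} (hπ : ∀ r θ, 0 ≤ π r θ) (n : ℕ) {F G : (ℕ → Θ) → ℝ}
    (h : ∀ v, F v ≤ G v) : EX π n F ≤ EX π n G := EX_mono_supp hπ n fun v _ => h v
lemma EX_zero_fun (π : ℕ → Θ → ℝ) (n : ℕ) : EX π n (fun _ => 0) = 0 := by simp [EX]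
lemma EX_nonneg {π : ℕ → Θ → ℝ} (hπ : ∀ r θ, 0 ≤ π r θ) (n : ℕ) {F : (ℕ → Θ) → ℝ}
    (h : ∀ v, 0 ≤ F v) : 0 ≤ EX π n F := (EX_zero_fun π n).symm.trans_le (EX_mono hπ n h)
lemma EX_abs_le {π : ℕ → Θ → ℝ} (hπ : ∀ r θ, 0 ≤ π r θ) (n : ℕ) (F : (ℕ → Θ) → ℝ) :
    |EX π n F| ≤ EX π n fun v => |F v| :=
  (abs_sum_le_sum_abs _ _).trans_eq (sum_congr rfl fun v _ => by
    rw [abs_mul, abs_of_nonneg (prod_nonneg fun r _ => hπ _ _)])
lemma EX_plus (π : ℕ → Θ → ℝ) (n : ℕ) (F G : (ℕ → Θ) → ℝ) :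
    EX π n (fun v => F v + G v) = EX π n F + EX π n G := by
  simp only [EX, mul_add, sum_add_distrib]
lemma EX_minus (π : ℕ → Θ → ℝ) (n : ℕ) (F G : (ℕ → Θ) → ℝ) :
    EX π n (fun v => F v - G v) = EX π n F - EX π n G := by
  simp only [EX, mul_sub, sum_sub_distrib]
lemma EX_mul_left (π : ℕ → Θ → ℝ) (n : ℕ) (t : ℝ) (F : (ℕ → Θ) → ℝ) :
    EX π n (fun v => t * F v) = t * EX π n F := by
  simp only [EX, mul_sum, mul_left_comm t]
lemma EX_mul_right (π : ℕ → Θ → ℝ) (n : ℕ) (t : ℝ) (F : (ℕ → Θ) → ℝ) :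
    EX π n (fun v => F v * t) = EX π n F * t := by
  simp only [EX, sum_mul, mul_assoc]
lemma EX_sum {ι : Type} (π : ℕ → Θ → ℝ) (n : ℕ) (s : Finset ι) (F : ι → (ℕ → Θ) → ℝ) :
    EX π n (fun v => ∑ i ∈ s, F i v) = ∑ i ∈ s, EX π n (F i) := by
  simp only [EX, mul_sum]
  exact sum_comm
lemma EX_prod (π : ℕ → Θ → ℝ) (n : ℕ) (f : ℕ → Θ → ℝ) :
    EX π n (fun v => ∏ r ∈ range n, f r (v r)) = ∏ r ∈ range n, ∑ θ, π r θ * f r θ := by
  rw [EX, ← Fin.prod_univ_eq_prod_range (fun r => ∑ θ, π r θ * f r θ), Fintype.prod_sum]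
  refine sum_congr rfl fun v _ => ?_
  rw [← Fin.prod_univ_eq_prod_range (fun r => f r (ext v r)), ← prod_mul_distrib]
  simp only [ex_ext_fin]
lemma EX_const {π : ℕ → Θ → ℝ} (h1 : ∀ r, ∑ θ, π r θ = 1) (n : ℕ) (t : ℝ) :
    EX π n (fun _ => t) = t := by
  have h := EX_prod π n fun _ _ => 1
  simp only [prod_const_one, mul_one, h1] at h
  have h2 := EX_mul_left π n t fun _ => 1
  rwa [h, mul_one] at h2
lemma EX_comm {Θ' : Type} [Fintype Θ'] [Inhabited Θ'] (π : ℕ → Θ → ℝ) (π' : ℕ → Θ' → ℝ) (n n' : ℕ)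
    (F : (ℕ → Θ) → (ℕ → Θ') → ℝ) :
    EX π n (fun v => EX π' n' fun w => F v w) = EX π' n' fun w => EX π n fun v => F v w := by
  simp only [EX, mul_sum]
  rw [sum_comm]
  exact sum_congr rfl fun w _ => sum_congr rfl fun v _ => mul_left_comm _ _ _
/-- A functional of the first `R` coordinates does not see the later ones. -/
lemma EX_dep {π : ℕ → Θ → ℝ} (h1 : ∀ r, ∑ θ, π r θ = 1) {R n : ℕ} (hR : R ≤ n)
    {F : (ℕ → Θ) → ℝ} (hF : ∀ v w : ℕ → Θ, (∀ r < R, v r = w r) → F v = F w) :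
    EX π n F = EX π R F := by
  obtain ⟨k, rfl⟩ := Nat.exists_eq_add_of_le hR
  rw [EX_add]
  congr 1
  funext v
  rw [show (fun w => F (splice R v w)) = fun _ => F v from
    funext fun w => hF _ _ fun r hr => splice_lt v w hr]
  exact EX_const (fun r => h1 _) k _

end Pool.Agent.Lib.MP_343fe0_pr
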