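import Pool.Agent.Lib.MP_343fe0_pr.Factor

set_option autoImplicit false

/-! Algebraic expansion of the likelihood ratios of the next level. -/

namespace Pool.Agent.Lib.MP_343fe0_pr

open Finset

/-- The arrangement of the set of `u + g'`, `g' ∈ G`, `g' < g`. -/
def arrLt (F F' G : Finset ℕ) (u : ℤ) (g K : ℕ) : ℕ → Finset ℕ :=
  arrS F F' (pat (G.filter (· < g)) u K)

lemma expand_tele (Φ : Finset ℕ → ℝ) (G : Finset ℕ) :
    Φ G - Φ ∅ = ∑ g ∈ G, (Φ (insert g (G.filter (· < g))) - Φ (G.filter (· < g))) := by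
  induction G using Finset.induction_on_max with
  | empty => simp
  | insert a s ha ih =>
    have hna : a ∉ s := fun h => lt_irrefl _ (ha a h)
    have e1 : (insert a s).filter (· < a) = s := by
      ext x
      simp only [mem_filter, mem_insert]
      constructor
      · rintro ⟨h | h, h2⟩
        · omega
        · exact h
      · intro h; exact ⟨Or.inr h, ha x h⟩
    have e2 : ∀ g ∈ s, (insert a s).filter (· < g) = s.filter (· < g) := by
      intro g hg
      rw [filter_insert, if_neg (by have := ha g hg; omega)]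
    rw [sum_insert hna, e1, sum_congr rfl fun g hg => by rw [e2 g hg], ← ih]
    ring

lemma expand_out (S : Finset ℕ) (u : ℤ) (g K : ℕ) (h : ¬ (0 ≤ u + g ∧ u + g < K)) :
    pat (insert g S) u K = pat S u K := by
  ext j
  simp only [pat, mem_filter, mem_range, mem_insert]
  constructor
  · rintro ⟨h1, g', h2 | h2, h3⟩
    · subst h2; omega
    · exact ⟨h1, g', h2, h3⟩
  · rintro ⟨h1, g', h2, h3⟩
    exact ⟨h1, g', Or.inr h2, h3⟩

lemma expand_in (F F' S : Finset ℕ) (u : ℤ) (g K : ℕ) (h : 0 ≤ u + g ∧ u + g < K) :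
    arrS F F' (pat (insert g S) u K) = Function.update (arrS F F' (pat S u K)) (u + g).toNat F' := by
  funext j
  by_cases e : j = (u + g).toNat
  · subst e
    rw [Function.update_self]
    unfold arrS
    rw [if_pos]
    simp only [pat, mem_filter, mem_range, mem_insert]
    exact ⟨by omega, g, Or.inl rfl, by omega⟩
  · rw [Function.update_of_ne e]
    unfold arrS
    congr 1
    simp only [pat, mem_filter, mem_range, mem_insert, eq_iff_iff]
    constructor
    · rintro ⟨h1, g', h2 | h2, h3⟩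
      · subst h2; omega
      · exact ⟨h1, g', h2, h3⟩
    · rintro ⟨h1, g', h2, h3⟩
      exact ⟨h1, g', Or.inr h2, h3⟩

lemma expand_not (F F' S : Finset ℕ) (u : ℤ) (g K : ℕ) (h : 0 ≤ u + g) (hg : g ∉ S) :
    Function.update (arrS F F' (pat S u K)) (u + g).toNat F = arrS F F' (pat S u K) := by
  rw [Function.update_eq_self_iff]
  unfold arrS
  rw [if_neg]
  simp only [pat, mem_filter, mem_range, not_and, not_exists]
  intro _ g' h2 h3
  have : g' = g := by omega
  exact hg (this ▸ h2)

lemma expand_upd (P : ℕ → Finset ℕ) (i : ℕ) (A : Finset ℕ) :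
    (fun l => arr (Function.update P i A l)) = Function.update (fun l => arr (P l)) i (arr A) := by
  funext l
  by_cases e : l = i
  · subst e; simp
  · simp [Function.update_of_ne e]

lemma expand_sub {m : ℕ} {P : ℕ → Finset ℕ} (hP : ∀ l, P l ⊆ range m) (i : ℕ) {A : Finset ℕ}
    (hA : A ⊆ range m) : ∀ l, Function.update P i A l ⊆ range m := by
  intro l
  by_cases e : l = i
  · subst e; simpa using hA
  · rw [Function.update_of_ne e]; exact hP l

namespace Model

variable {m : ℕ} (X : Model m)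

/-- First order: switch the clusters `u + g` from `F` to `F'` in increasing order of `g`. -/
theorem dZ_false (M K : ℕ) (F F' G : Finset ℕ) (u : ℤ)
    (c : ℕ → Ctx X.a) (o : ℕ → X.Tok) (R : ℕ) (ℓ : Lab X.a) :
    X.dZ M K F F' false G u c o R ℓ = ∑ g ∈ G, ind (0 ≤ u + g ∧ u + g < K) *
      (X.ZP M (2 * X.a + 1) K (Function.update (arrLt F F' G u g K) (u + g).toNat F') c o R ℓ -
        X.ZP M (2 * X.a + 1) K (Function.update (arrLt F F' G u g K) (u + g).toNat F) c o R ℓ) := by
  unfold dZ ZS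
  simp only [Bool.false_eq_true, if_false, sub_zero]
  have h := expand_tele (fun S => X.ZP M (2 * X.a + 1) K (arrS F F' (pat S u K)) c o R ℓ) G
  simp only [pat_empty] at h
  rw [h]
  refine sum_congr rfl fun g _ => ?_
  unfold arrLt
  by_cases e : 0 ≤ u + g ∧ u + g < K
  · rw [ind_true e, one_mul, expand_in F F' _ u g K e, expand_not F F' _ u g K e.1 (by simp)]
  · rw [ind_false e, zero_mul, expand_out _ u g K e, sub_self]

/-- Second order: subtract from the term `g2` of `dZ_false` the same term with background `F`, and switch the clusters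
`u + g1`, `g1 < g2`, in increasing order. -/
theorem dZ_true (M K : ℕ) (F F' G : Finset ℕ) (u : ℤ)
    (c : ℕ → Ctx X.a) (o : ℕ → X.Tok) (R : ℕ) (ℓ : Lab X.a) :
    X.dZ M K F F' true G u c o R ℓ = ∑ g2 ∈ G, ∑ g1 ∈ G.filter (· < g2),
      ind (0 ≤ u + g1 ∧ u + g2 < K) *
      ((X.ZP M (2 * X.a + 1) K (Function.update (Function.update (arrLt F F' G u g1 K)
            (u + g1).toNat F') (u + g2).toNat F') c o R ℓ -
        X.ZP M (2 * X.a + 1) K (Function.update (Function.update (arrLt F F' G u g1 K)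
            (u + g1).toNat F) (u + g2).toNat F') c o R ℓ) -
       (X.ZP M (2 * X.a + 1) K (Function.update (Function.update (arrLt F F' G u g1 K)
            (u + g1).toNat F') (u + g2).toNat F) c o R ℓ -
        X.ZP M (2 * X.a + 1) K (Function.update (Function.update (arrLt F F' G u g1 K)
            (u + g1).toNat F) (u + g2).toNat F) c o R ℓ)) := by
  unfold dZ ZS
  simp only [if_true]
  set Φ : Finset ℕ → ℝ := fun S => X.ZP M (2 * X.a + 1) K (arrS F F' (pat S u K)) c o R ℓ with hΦ
  have h := expand_tele Φ G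
  have h0 : X.ZP M (2 * X.a + 1) K (arrS F F' ∅) c o R ℓ = Φ ∅ := by simp only [hΦ, pat_empty]
  rw [h0]
  change Φ G - Φ ∅ - ∑ g ∈ G, (Φ {g} - Φ ∅) = _
  rw [h, ← sum_sub_distrib]
  refine sum_congr rfl fun g2 _ => ?_
  have h2 := expand_tele (fun S => Φ (insert g2 S) - Φ S) (G.filter (· < g2))
  simp only [insert_empty_eq] at h2
  rw [h2]
  refine sum_congr rfl fun g1 hg1 => ?_
  have hlt : g1 < g2 := (mem_filter.1 hg1).2
  have e1 : (G.filter (· < g2)).filter (· < g1) = G.filter (· < g1) := by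
    ext x
    simp only [mem_filter]
    constructor
    · rintro ⟨⟨a, _⟩, b⟩; exact ⟨a, b⟩
    · rintro ⟨a, b⟩; exact ⟨⟨a, by omega⟩, b⟩
  rw [e1]
  unfold arrLt
  set S := G.filter (· < g1) with hS
  have n1 : g1 ∉ S := by simp [hS]
  have n2 : g2 ∉ S := by simp only [hS, mem_filter, not_and]; intro _; omega
  have n3 : g2 ∉ insert g1 S := by
    simp only [mem_insert, not_or]; exact ⟨by omega, n2⟩
  by_cases e : 0 ≤ u + g1 ∧ u + g2 < K
  · have a1 : 0 ≤ u + g1 ∧ u + g1 < K := by omega
    have a2 : 0 ≤ u + g2 ∧ u + g2 < K := by omega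
    rw [ind_true e, one_mul, expand_not F F' S u g1 K a1.1 n1, expand_not F F' S u g2 K a2.1 n2,
      ← expand_in F F' S u g1 K a1, expand_not F F' _ u g2 K a2.1 n3,
      ← expand_in F F' _ u g2 K a2, ← expand_in F F' _ u g2 K a2]
    simp only [hΦ]
    ring
  · rw [ind_false e, zero_mul]
    by_cases a1 : 0 ≤ u + g1 ∧ u + g1 < K
    · have a2 : ¬ (0 ≤ u + g2 ∧ u + g2 < K) := by omega
      simp only [hΦ, expand_out _ u g2 K a2]
      ring
    · rw [Finset.insert_comm]
      simp only [hΦ, expand_out _ u g1 K a1]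
      ring

/-- One switch: items plus a linear term (`ZP_eq_Tm`, `Tm_delta`). -/
theorem ZP_delta {M s K i : ℕ} (hM : 2 ≤ M) (hs : s ≤ 2 * X.a + 1) (hi : i < K) (F F' : Finset ℕ)
    (hF : F ⊆ range m) (hF' : F' ⊆ range m) (e : Bool) (hc : e = true → F.card = F'.card)
    (P : ℕ → Finset ℕ) (hP : ∀ l, P l ⊆ range m)
    (c : ℕ → Ctx X.a) (o : ℕ → X.Tok) (R : ℕ) (ℓ : Lab X.a) :
    X.ZP M s K (Function.update P i F') c o R ℓ - X.ZP M s K (Function.update P i F) c o R ℓ =
      ∑ t : Fin 6, itemSgn t *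
          X.Tm M s K (Function.update (fun l => arr (P l)) i (item e F F' t)) c o R ℓ +
        if e then X.LT M s K F F' P i c o R ℓ else 0 := by
  rw [X.ZP_eq_Tm K hM hs (expand_sub hP i hF'), X.ZP_eq_Tm K hM hs (expand_sub hP i hF),
    expand_upd, expand_upd, X.Tm_delta M s K i hi _ F F' hF hF' e hc]
  congr 2
  unfold LT
  refine sum_congr rfl fun g hg => ?_
  rw [X.ZP_eq_Tm K hM hs (expand_sub hP i (singleton_subset_iff.2 hg)), expand_upd]

/-- Two switches: `δ_i δ_j = main_i main_j + lin_i δ_j + main_i lin_j` with `main_i = δ_i - lin_i`. -/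
theorem ZP_delta2 {M s K i j : ℕ} (hM : 2 ≤ M) (hs : s ≤ 2 * X.a + 1) (hij : i < j) (hj : j < K)
    (F F' : Finset ℕ) (hF : F ⊆ range m) (hF' : F' ⊆ range m) (e : Bool)
    (hc : e = true → F.card = F'.card) (P : ℕ → Finset ℕ) (hP : ∀ l, P l ⊆ range m)
    (c : ℕ → Ctx X.a) (o : ℕ → X.Tok) (R : ℕ) (ℓ : Lab X.a) :
    (X.ZP M s K (Function.update (Function.update P i F') j F') c o R ℓ -
        X.ZP M s K (Function.update (Function.update P i F) j F') c o R ℓ) -
      (X.ZP M s K (Function.update (Function.update P i F') j F) c o R ℓ -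
        X.ZP M s K (Function.update (Function.update P i F) j F) c o R ℓ) =
      ∑ t : Fin 6, ∑ t' : Fin 6, itemSgn t * itemSgn t' *
          X.Tm M s K (Function.update (Function.update (fun l => arr (P l)) i (item e F F' t)) j
            (item e F F' t')) c o R ℓ +
        if e then
          (X.LT M s K F F' (Function.update P j F') i c o R ℓ -
              X.LT M s K F F' (Function.update P j F) i c o R ℓ) +
            (X.LT M s K F F' (Function.update P i F') j c o R ℓ -
              X.LT M s K F F' (Function.update P i F) j c o R ℓ) -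
            ∑ g ∈ range m, (ind (g ∈ F') - ind (g ∈ F)) *
              X.LT M s K F F' (Function.update P i {g}) j c o R ℓ
        else 0 := by
  have hi : i < K := hij.trans hj
  have hne : i ≠ j := hij.ne
  set A : Spec → Spec → ℝ := fun a b =>
    X.Tm M s K (Function.update (Function.update (fun l => arr (P l)) i a) j b) c o R ℓ with hA
  set w : ℕ → ℝ := fun g => ind (g ∈ F') - ind (g ∈ F) with hw
  have hZ : ∀ a b : Finset ℕ, a ⊆ range m → b ⊆ range m →
      X.ZP M s K (Function.update (Function.update P i a) j b) c o R ℓ = A (arr a) (arr b) := by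
    intro a b ha hb
    rw [X.ZP_eq_Tm K hM hs (expand_sub (expand_sub hP i ha) j hb), expand_upd, expand_upd]
  have dj : ∀ a, A a (arr F') - A a (arr F) = ∑ t : Fin 6, itemSgn t * A a (item e F F' t) +
      if e then ∑ g ∈ range m, w g * A a (arr {g}) else 0 := fun a =>
    X.Tm_delta M s K j hj _ F F' hF hF' e hc c o R ℓ
  have di : ∀ b, A (arr F') b - A (arr F) b = ∑ t : Fin 6, itemSgn t * A (item e F F' t) b +
      if e then ∑ g ∈ range m, w g * A (arr {g}) b else 0 := fun b => by
    simp only [hA, Function.update_comm hne]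
    exact X.Tm_delta M s K i hi _ F F' hF hF' e hc c o R ℓ
  have L1 : ∀ b : Finset ℕ, b ⊆ range m → X.LT M s K F F' (Function.update P j b) i c o R ℓ =
      ∑ g ∈ range m, w g * A (arr {g}) (arr b) := by
    intro b hb
    unfold LT
    refine sum_congr rfl fun g hg => ?_
    rw [← Function.update_comm hne, hZ _ _ (singleton_subset_iff.2 hg) hb]
  have L2 : ∀ a : Finset ℕ, a ⊆ range m → X.LT M s K F F' (Function.update P i a) j c o R ℓ =
      ∑ g ∈ range m, w g * A (arr a) (arr {g}) := by
    intro a ha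
    unfold LT
    refine sum_congr rfl fun g hg => ?_
    rw [hZ _ _ ha (singleton_subset_iff.2 hg)]
  have L3 : ∑ g ∈ range m, (ind (g ∈ F') - ind (g ∈ F)) *
      X.LT M s K F F' (Function.update P i {g}) j c o R ℓ =
      ∑ g ∈ range m, w g * ∑ g' ∈ range m, w g' * A (arr {g}) (arr {g'}) :=
    sum_congr rfl fun g hg => by rw [L2 _ (singleton_subset_iff.2 hg)]
  rw [hZ _ _ hF' hF', hZ _ _ hF hF', hZ _ _ hF' hF, hZ _ _ hF hF, L1 _ hF', L1 _ hF, L2 _ hF',
    L2 _ hF, L3, di, di]
  change _ = ∑ t : Fin 6, ∑ t' : Fin 6, itemSgn t * itemSgn t' *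
    A (item e F F' t) (item e F F' t') + _
  have k1 : ∑ t : Fin 6, itemSgn t * A (item e F F' t) (arr F') -
      ∑ t : Fin 6, itemSgn t * A (item e F F' t) (arr F) =
      ∑ t : Fin 6, ∑ t' : Fin 6, itemSgn t * itemSgn t' * A (item e F F' t) (item e F F' t') +
        ∑ t : Fin 6, itemSgn t *
          if e then ∑ g ∈ range m, w g * A (item e F F' t) (arr {g}) else 0 := by
    rw [← sum_sub_distrib, ← sum_add_distrib]
    refine sum_congr rfl fun t _ => ?_
    rw [← mul_sub, dj, mul_add, mul_sum]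
    congr 1
    exact sum_congr rfl fun t' _ => by ring
  cases e with
  | false =>
    simp only [Bool.false_eq_true, if_false, mul_zero, sum_const_zero, add_zero] at k1 ⊢
    exact k1
  | true =>
    simp only [if_true] at k1 di ⊢
    have k2 : ∑ t : Fin 6, itemSgn t * ∑ g ∈ range m, w g * A (item true F F' t) (arr {g}) =
        ∑ g ∈ range m, w g * A (arr F') (arr {g}) - ∑ g ∈ range m, w g * A (arr F) (arr {g}) -
          ∑ g ∈ range m, w g * ∑ g' ∈ range m, w g' * A (arr {g}) (arr {g'}) := by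
      have k3 : ∑ g ∈ range m, w g * ∑ g' ∈ range m, w g' * A (arr {g}) (arr {g'}) =
          ∑ g' ∈ range m, w g' * ∑ g ∈ range m, w g * A (arr {g}) (arr {g'}) := by
        simp only [mul_sum]
        rw [sum_comm]
        exact sum_congr rfl fun _ _ => sum_congr rfl fun _ _ => by ring
      rw [k3, ← sum_sub_distrib, ← sum_sub_distrib]
      rw [sum_congr rfl fun t _ => mul_sum (range m) _ (itemSgn t), sum_comm]
      refine sum_congr rfl fun g _ => ?_
      rw [← mul_sub, di, mul_add, mul_sum, add_sub_cancel_right]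
      exact sum_congr rfl fun t _ => by ring
    linarith

/-- `|LT| ≤ 2 m Z∅` pointwise (`ZP_close` with `n`), so `LT ^ 2 / Z∅ ≤ 2 m |LT|`. -/
theorem LT_sq (N : ℕ) {M K : ℕ} (hM : 2 ≤ M) (F F' : Finset ℕ) (hF : F ⊆ range m) {δ : ℝ}
    (hδ : ∀ c ξ S o, |X.D c ξ S o| ≤ δ) (n : ℕ) (hδ1 : 16 * n * δ ≤ 1) (P : ℕ → Finset ℕ)
    (hP : ∀ l, P l ⊆ range m) (i : ℕ) (T : Finset ℕ) (hT : T.card + 1 ≤ n)
    (hPT : ∀ l < K, l ∉ T → P l = F) :
    X.Tot N (fun c o R ℓ => X.LT M (2 * X.a + 1) K F F' P i c o R ℓ ^ 2 / X.ZS M K F F' ∅ c o R ℓ) ≤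
      2 * m * X.Tot N fun c o R ℓ => |X.LT M (2 * X.a + 1) K F F' P i c o R ℓ| := by
  rw [← X.Tot_mul_left]
  refine X.Tot_mono N fun c o R ℓ => ?_
  have e0 : arrS F F' ∅ = fun _ => F := by funext l; simp [arrS]
  unfold ZS
  rw [e0]
  set Z := X.ZP M (2 * X.a + 1) K (fun _ => F) c o R ℓ with hZ
  have hZ0 : 0 ≤ Z := X.Zf_nonneg _ _ _ _ _ _ _
  have hb : |X.LT M (2 * X.a + 1) K F F' P i c o R ℓ| ≤ 2 * m * Z := by
    unfold LT
    refine (abs_sum_le_sum_abs _ _).trans ?_
    refine (sum_le_card_nsmul _ _ (2 * Z) fun g hg => ?_).trans (by simp; ring_nf; rfl)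
    have h1 := X.ZP_close (K := K) hM le_rfl (expand_sub hP i (singleton_subset_iff.2 hg))
      (Q := fun _ => F) (fun _ => hF) hδ n (by omega) (by linarith) (insert i T)
      ((card_insert_le i T).trans hT) (by
        intro l hl hl2
        simp only [mem_insert, not_or] at hl2
        rw [Function.update_of_ne hl2.1]
        exact hPT l hl hl2.2) c o R ℓ
    rw [← hZ] at h1
    have h2 : 16 * n * δ * Z ≤ Z := by nlinarith
    have h3 : 0 ≤ X.ZP M (2 * X.a + 1) K (Function.update P i {g}) c o R ℓ :=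
      X.Zf_nonneg _ _ _ _ _ _ _
    have h4 : |ind (g ∈ F') - ind (g ∈ F)| ≤ 1 := by
      have := ind_nonneg (g ∈ F'); have := ind_le_one (g ∈ F')
      have := ind_nonneg (g ∈ F); have := ind_le_one (g ∈ F)
      rw [abs_le]; constructor <;> linarith
    rw [abs_mul, abs_of_nonneg h3]
    have h5 := (abs_le.1 h1).2
    nlinarith [abs_nonneg (ind (g ∈ F') - ind (g ∈ F))]
  rcases hZ0.eq_or_lt with h | h
  · rw [← h, div_zero]; positivity
  · rw [div_le_iff₀ h, ← sq_abs, sq]
    nlinarith [abs_nonneg (X.LT M (2 * X.a + 1) K F F' P i c o R ℓ)]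

end Model

end Pool.Agent.Lib.MP_343fe0_pr
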