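import Pool.Agent.Lib.MP_343fe0_pr.Seg

set_option autoImplicit false

/-! From steps to clusters; comparison of arrangements; expansion of the difference of two patterns. -/

namespace Pool.Agent.Lib.MP_343fe0_pr

open Finset

/-- On a path that ends after `K` blocks, a product over the steps whose factors are `1` away from the slots
`r0 i`, `r0 i + 1` (`i < K`) is the product over the slots (they are distinct and below `R`: `r0_gap`, `r0_last`). -/
lemma prod_slots {a : ℕ} (ha : 1 ≤ a) {M K s R : ℕ} (hM : 2 ≤ M) (hs : s ≤ 2 * a + 1)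
    {c : ℕ → Ctx a} {ξ : ℕ → Bool} {ℓ : Lab a} (h : End s (K * LL a M) c ξ R ℓ) (F : ℕ → ℝ)
    (hF : ∀ r < R, (∀ i < K, r ≠ r0 s c ξ (zz a M i) ∧ r ≠ r0 s c ξ (zz a M i) + 1) → F r = 1) :
    ∏ r ∈ range R, F r =
      ∏ i ∈ range K, (F (r0 s c ξ (zz a M i)) * F (r0 s c ξ (zz a M i) + 1)) := by
  classical
  have hM1 : 1 ≤ M := by omega
  have hlt : ∀ i < K, r0 s c ξ (zz a M i) + 1 < R := by
    intro i hi
    have h1 := r0_last ha hM1 hs hi h
    have h2 : 2 * M * 1 ≤ 2 * M * (K - i) := Nat.mul_le_mul_left _ (by omega)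
    omega
  have hgap : ∀ i i', i < i' → r0 s c ξ (zz a M i) + 4 ≤ r0 s c ξ (zz a M i') := by
    intro i i' hi
    have h1 := r0_gap ha hM1 hs hi.le c ξ
    have h2 : 2 * M * 1 ≤ 2 * M * (i' - i) := Nat.mul_le_mul_left _ (by omega)
    omega
  have hsub : (range K).biUnion (fun i => ({r0 s c ξ (zz a M i), r0 s c ξ (zz a M i) + 1} : Finset ℕ))
      ⊆ range R := by
    intro r hr
    simp only [mem_biUnion, mem_range, mem_insert, mem_singleton] at hr ⊢
    obtain ⟨i, hi, hr⟩ := hr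
    have := hlt i hi
    omega
  rw [← Finset.prod_subset hsub, Finset.prod_biUnion]
  · exact Finset.prod_congr rfl fun i _ => Finset.prod_pair (by omega)
  · intro i _ i' _ hne
    simp only [Function.onFun]
    rw [Finset.disjoint_left]
    intro r hr hr'
    simp only [mem_insert, mem_singleton] at hr hr'
    rcases lt_or_gt_of_ne hne with hlt | hlt
    · have := hgap _ _ hlt; omega
    · have := hgap _ _ hlt; omega
  · intro r hr hnot
    refine hF r (mem_range.1 hr) fun i hi => ?_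
    simp only [mem_biUnion, mem_range, mem_insert, mem_singleton, not_exists, not_and, not_or]
      at hnot
    exact hnot i hi

lemma factor_pat_empty (u : ℤ) (k : ℕ) : pat ∅ u k = ∅ := by
  simp [pat]

lemma factor_prod_le {K : ℕ} (f g : ℕ → ℝ) (κ : ℝ) (hκ : 1 ≤ κ) (T : Finset ℕ)
    (hf : ∀ i < K, 0 ≤ f i) (hg : ∀ i < K, 0 ≤ g i) (h1 : ∀ i < K, f i ≤ κ * g i)
    (h2 : ∀ i < K, i ∉ T → f i = g i) :
    ∏ i ∈ range K, f i ≤ κ ^ T.card * ∏ i ∈ range K, g i := by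
  classical
  calc ∏ i ∈ range K, f i ≤ ∏ i ∈ range K, ((if i ∈ T then κ else 1) * g i) := by
        refine Finset.prod_le_prod (fun i hi => hf i (mem_range.1 hi)) fun i hi => ?_
        split_ifs with h
        · exact h1 i (mem_range.1 hi)
        · rw [one_mul, h2 i (mem_range.1 hi) h]
    _ = κ ^ ((range K).filter (· ∈ T)).card * ∏ i ∈ range K, g i := by
        rw [Finset.prod_mul_distrib, ← Finset.prod_filter, Finset.prod_const]
    _ ≤ κ ^ T.card * ∏ i ∈ range K, g i := by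
        refine mul_le_mul_of_nonneg_right (pow_le_pow_right₀ hκ ?_)
          (Finset.prod_nonneg fun i hi => hg i (mem_range.1 hi))
        exact Finset.card_le_card fun i hi => (Finset.mem_filter.1 hi).2

lemma factor_prod_one_add (d : ℕ → ℝ) (R : ℕ) (h : ∀ r r', r < r' → d r * d r' = 0) :
    ∏ r ∈ range R, (1 + d r) = 1 + ∑ r ∈ range R, d r := by
  induction R with
  | zero => simp
  | succ R ih =>
    have : (∑ r ∈ range R, d r) * d R = 0 := by
      rw [Finset.sum_mul]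
      exact Finset.sum_eq_zero fun r hr => h r R (mem_range.1 hr)
    rw [Finset.prod_range_succ, Finset.sum_range_succ, ih]
    linear_combination this

lemma factor_pow_le {δ : ℝ} {n : ℕ} (h0 : 0 ≤ δ) (hn : 1 ≤ n) (h1 : 8 * n * δ ≤ 1) :
    ((1 + δ) / (1 - δ)) ^ (2 * n) ≤ 1 + 16 * n * δ := by
  have hn' : (1 : ℝ) ≤ n := by exact_mod_cast hn
  have hδ : δ ≤ 1 / 8 := by nlinarith
  have hp : 0 < 1 - δ := by linarith
  have hq : 0 < 1 + δ := by linarith
  have hb : 1 + ((2 * n : ℕ) : ℝ) * (-(2 * δ)) ≤ (1 + -(2 * δ)) ^ (2 * n) :=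
    one_add_mul_le_pow (by linarith) _
  have h2 : 1 + -(2 * δ) ≤ (1 - δ) / (1 + δ) := by
    rw [le_div_iff₀ hq]; nlinarith
  have h3 : (1 + -(2 * δ)) ^ (2 * n) ≤ ((1 - δ) / (1 + δ)) ^ (2 * n) :=
    pow_le_pow_left₀ (by linarith) h2 _
  have h4 : ((1 + δ) / (1 - δ)) ^ (2 * n) * ((1 - δ) / (1 + δ)) ^ (2 * n) = 1 := by
    rw [← mul_pow, div_mul_div_comm, mul_comm (1 - δ), div_self (by positivity), one_pow]
  have h5 : 0 ≤ ((1 + δ) / (1 - δ)) ^ (2 * n) := by positivity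
  push_cast at hb
  have h6 : ((1 + δ) / (1 - δ)) ^ (2 * n) * (1 - 4 * (n * δ)) ≤ 1 := by
    have h8 : 1 - 4 * (n * δ) ≤ ((1 - δ) / (1 + δ)) ^ (2 * n) := by linarith
    exact le_of_le_of_eq (mul_le_mul_of_nonneg_left h8 h5) h4
  have hy : 0 ≤ (n : ℝ) * δ := by positivity
  generalize ((1 + δ) / (1 - δ)) ^ (2 * n) = x at *
  have h7 : 16 * (n : ℝ) * δ = 16 * (n * δ) := by ring
  rw [h7]
  generalize (n : ℝ) * δ = y at *
  have hy1 : 8 * y ≤ 1 := by
    have : 8 * (n : ℝ) * δ = 8 * (n * δ) := by ring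
    nlinarith
  by_contra hc
  push Not at hc
  nlinarith

namespace Model

variable {m : ℕ} (X : Model m)

lemma feat_mean (e : Bool) (G : Finset ℕ) (c : Ctx X.a) (ξ : Bool) (u : ℤ) :
    ∑ o, X.ν c o * X.feat e G c ξ u o = 0 := by
  unfold feat
  cases e
  · simpa using X.D_mean c ξ _
  · simp only [if_true, mul_sub, Finset.sum_sub_distrib, X.D_mean, Finset.mul_sum]
    rw [Finset.sum_comm]
    simp [X.D_mean]
lemma feat_empty (e : Bool) (c : Ctx X.a) (ξ : Bool) (u : ℤ) (o : X.Tok) :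
    X.feat e ∅ c ξ u o = 0 := by
  simp [feat, factor_pat_empty, X.D_empty]

lemma factor_clF_arr (M s : ℕ) (P : Finset ℕ) (i : ℕ) (c : ℕ → Ctx X.a) (ξ : ℕ → Bool)
    (o : ℕ → X.Tok) : X.clF M s (arr P) i c ξ o =
      (1 + X.D (c (r0 s c ξ (zz X.a M i))) (ξ (r0 s c ξ (zz X.a M i)))
        (pat P ((zz X.a M i : ℤ) - pos s c ξ (r0 s c ξ (zz X.a M i)))
          (stp (c (r0 s c ξ (zz X.a M i))) (ξ (r0 s c ξ (zz X.a M i))))) (o (r0 s c ξ (zz X.a M i)))) *
      (1 + X.D (c (r0 s c ξ (zz X.a M i) + 1)) (ξ (r0 s c ξ (zz X.a M i) + 1))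
        (pat P ((zz X.a M i : ℤ) - pos s c ξ (r0 s c ξ (zz X.a M i) + 1))
          (stp (c (r0 s c ξ (zz X.a M i) + 1)) (ξ (r0 s c ξ (zz X.a M i) + 1))))
        (o (r0 s c ξ (zz X.a M i) + 1))) := by
  simp [clF, slotF, arr, alB, feat]

lemma factor_clF_empty (M s : ℕ) (i : ℕ) (c : ℕ → Ctx X.a) (ξ : ℕ → Bool)
    (o : ℕ → X.Tok) : X.clF M s (arr ∅) i c ξ o = 1 := by
  simp [factor_clF_arr, factor_pat_empty, X.D_empty]

lemma factor_D0 (c : Ctx X.a) (ξ : Bool) (S : Finset ℕ) (o : X.Tok) : 0 ≤ 1 + X.D c ξ S o := by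
  linarith [X.D_ge c ξ S o]

lemma factor_clF_nonneg (M s : ℕ) (P : Finset ℕ) (i : ℕ) (c : ℕ → Ctx X.a) (ξ : ℕ → Bool)
    (o : ℕ → X.Tok) : 0 ≤ X.clF M s (arr P) i c ξ o := by
  rw [factor_clF_arr]
  exact mul_nonneg (X.factor_D0 _ _ _ _) (X.factor_D0 _ _ _ _)

lemma factor_clF_le {δ : ℝ} (hδ : ∀ c ξ S o, |X.D c ξ S o| ≤ δ) (M s : ℕ) (P : Finset ℕ) (i : ℕ)
    (c : ℕ → Ctx X.a) (ξ : ℕ → Bool) (o : ℕ → X.Tok) :
    X.clF M s (arr P) i c ξ o ≤ (1 + δ) ^ 2 := by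
  have h0 : 0 ≤ δ := (abs_nonneg _).trans (hδ (c 0) true ∅ (o 0))
  rw [factor_clF_arr, sq]
  have h : ∀ c ξ S o, 1 + X.D c ξ S o ≤ 1 + δ := fun c ξ S o => by
    linarith [(abs_le.1 (hδ c ξ S o)).2]
  exact mul_le_mul (h _ _ _ _) (h _ _ _ _) (X.factor_D0 _ _ _ _) (by linarith)

lemma factor_clF_ge {δ : ℝ} (hδ : ∀ c ξ S o, |X.D c ξ S o| ≤ δ) (hδ1 : δ ≤ 1) (M s : ℕ)
    (P : Finset ℕ) (i : ℕ) (c : ℕ → Ctx X.a) (ξ : ℕ → Bool) (o : ℕ → X.Tok) :
    (1 - δ) ^ 2 ≤ X.clF M s (arr P) i c ξ o := by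
  rw [factor_clF_arr, sq]
  have h : ∀ c ξ S o, 1 - δ ≤ 1 + X.D c ξ S o := fun c ξ S o => by
    linarith [(abs_le.1 (hδ c ξ S o)).1]
  exact mul_le_mul (h _ _ _ _) (h _ _ _ _) (by linarith) (X.factor_D0 _ _ _ _)

lemma factor_pr_nonneg (c : ℕ → Ctx X.a) : ∀ r θ, 0 ≤ pr (1 / 2) (c r) θ :=
  fun r θ => pr_nonneg (by norm_num) (by norm_num) (c r) θ

lemma factor_Tm_update (M s K i0 : ℕ) (hi : i0 < K) (sp : ℕ → Spec) (q : Spec)
    (c : ℕ → Ctx X.a) (o : ℕ → X.Tok) (R : ℕ) (ℓ : Lab X.a) :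
    X.Tm M s K (Function.update sp i0 q) c o R ℓ =
      EX (fun r => pr (1 / 2) (c r)) R fun ξ => X.clF M s q i0 c ξ o *
        (ind (End s (K * LL X.a M) c ξ R ℓ) *
          ∏ i ∈ (range K).erase i0, X.clF M s (sp i) i c ξ o) := by
  unfold Tm QX
  congr 1
  funext ξ
  rw [← Finset.mul_prod_erase _ _ (mem_range.2 hi), Function.update_self,
    Finset.prod_congr rfl (g := fun i => X.clF M s (sp i) i c ξ o)
      fun i hi => by rw [Function.update_of_ne (Finset.ne_of_mem_erase hi)]]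
  ring

/-- Steps away from the slots see no defect (`tauP_iff`, `m ≤ a`), the slots see `pat (P i) ..` (`dset_tauP`). -/
theorem ZP_eq_Tm {M s : ℕ} (K : ℕ) (hM : 2 ≤ M) (hs : s ≤ 2 * X.a + 1) {P : ℕ → Finset ℕ}
    (hP : ∀ i, P i ⊆ range m) (c : ℕ → Ctx X.a) (o : ℕ → X.Tok) (R : ℕ) (ℓ : Lab X.a) :
    X.ZP M s K P c o R ℓ = X.Tm M s K (fun i => arr (P i)) c o R ℓ := by
  unfold ZP Zf Tm
  congr 1
  funext ξ
  by_cases h : End s (K * LL X.a M) c ξ R ℓ
  swap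
  · simp [ind_false h]
  congr 1
  have hM1 : 1 ≤ M := by omega
  have hH : 2 * X.a + 1 ≤ HH X.a M := Nat.le_mul_of_pos_right _ hM1
  have hz : ∀ i, s ≤ zz X.a M i := fun i => by unfold zz; omega
  rw [prod_slots X.a_pos hM hs h]
  · refine Finset.prod_congr rfl fun i _ => ?_
    obtain ⟨h1, h2⟩ := r0_spec X.a_pos (hz i) c ξ
    have h3 := pos_succ s c ξ (r0 s c ξ (zz X.a M i))
    have h4 := stp_le (c (r0 s c ξ (zz X.a M i))) (ξ (r0 s c ξ (zz X.a M i)))
    rw [factor_clF_arr, dset_tauP X.m_le hM hP i _ _ h4 (by omega) (by omega),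
      dset_tauP X.m_le hM hP i _ _ (stp_le _ _) (by omega) (by omega)]
  · intro r hr hslot
    have : dset (tauP X.a M P) (pos s c ξ r) (stp (c r) (ξ r)) = ∅ := by
      rw [Finset.eq_empty_iff_forall_notMem]
      intro j hj
      simp only [dset, Finset.mem_filter, mem_range] at hj
      obtain ⟨hj1, hj2⟩ := hj
      obtain ⟨i, g, hg, hjg⟩ := (tauP_iff X.m_le hM1 hP _).1 hj2
      have hgm : g < m := mem_range.1 (hP i hg)
      have hma := X.m_le
      have h3 := pos_succ s c ξ r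
      have h4 := pos_ge s c ξ (show r + 1 ≤ R by omega)
      have h5 := h.2.1
      have h6 := ℓ.1.isLt
      have hiK : i < K := by
        by_contra hK
        have : K * LL X.a M ≤ i * LL X.a M := Nat.mul_le_mul_right _ (by omega)
        unfold zz at hjg
        omega
      obtain ⟨h7, h8⟩ := r0_spec X.a_pos (hz i) c ξ
      obtain ⟨h9, h10⟩ := hslot i hiK
      rcases lt_or_ge r (r0 s c ξ (zz X.a M i)) with hlt | hge
      · have := pos_ge s c ξ (show r + 1 ≤ r0 s c ξ (zz X.a M i) by omega)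
        omega
      · have h11 := pos_ge s c ξ (show r0 s c ξ (zz X.a M i) + 1 + 1 ≤ r by omega)
        have h12 := pos_succ s c ξ (r0 s c ξ (zz X.a M i) + 1)
        have h13 := stp_ge (c (r0 s c ξ (zz X.a M i) + 1)) (ξ (r0 s c ξ (zz X.a M i) + 1))
        omega
    rw [this, X.D_empty, add_zero]

lemma ZP_le_ZP {M s K : ℕ} (hM : 2 ≤ M) (hs : s ≤ 2 * X.a + 1) {P Q : ℕ → Finset ℕ}
    (hP : ∀ i, P i ⊆ range m) (hQ : ∀ i, Q i ⊆ range m) {δ : ℝ} (hδ : ∀ c ξ S o, |X.D c ξ S o| ≤ δ)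
    (hδ1 : δ < 1) (T : Finset ℕ) (hT : ∀ i < K, i ∉ T → P i = Q i)
    (c : ℕ → Ctx X.a) (o : ℕ → X.Tok) (R : ℕ) (ℓ : Lab X.a) :
    X.ZP M s K P c o R ℓ ≤ ((1 + δ) / (1 - δ)) ^ (2 * T.card) * X.ZP M s K Q c o R ℓ := by
  have h0 : 0 ≤ δ := (abs_nonneg _).trans (hδ (c 0) true ∅ (o 0))
  have hp : 0 < 1 - δ := by linarith
  rw [X.ZP_eq_Tm K hM hs hP, X.ZP_eq_Tm K hM hs hQ]
  unfold Tm QX
  rw [← EX_mul_left]
  refine EX_mono (X.factor_pr_nonneg c) R fun ξ => ?_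
  rw [mul_left_comm, pow_mul]
  refine mul_le_mul_of_nonneg_left ?_ (ind_nonneg _)
  refine factor_prod_le _ _ _ (one_le_pow₀ ((one_le_div hp).2 (by linarith))) T
    (fun i _ => X.factor_clF_nonneg _ _ _ _ _ _ _) (fun i _ => X.factor_clF_nonneg _ _ _ _ _ _ _)
    (fun i _ => ?_) fun i hi hiT => by simp only [hT i hi hiT]
  calc _ ≤ (1 + δ) ^ 2 := X.factor_clF_le hδ _ _ _ _ _ _ _
    _ = ((1 + δ) / (1 - δ)) ^ 2 * (1 - δ) ^ 2 := by field_simp
    _ ≤ _ := mul_le_mul_of_nonneg_left (X.factor_clF_ge hδ hδ1.le _ _ _ _ _ _ _) (sq_nonneg _)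
lemma ZP_le_gg {M s K : ℕ} (hM : 2 ≤ M) (hs : s ≤ 2 * X.a + 1) {P : ℕ → Finset ℕ}
    (hP : ∀ i, P i ⊆ range m) {δ : ℝ} (hδ : ∀ c ξ S o, |X.D c ξ S o| ≤ δ)
    (T : Finset ℕ) (hT : ∀ i < K, i ∉ T → P i = ∅)
    (c : ℕ → Ctx X.a) (o : ℕ → X.Tok) (R : ℕ) (ℓ : Lab X.a) :
    X.ZP M s K P c o R ℓ ≤ (1 + δ) ^ (2 * T.card) * gg s (K * LL X.a M) c R ℓ := by
  have h0 : 0 ≤ δ := (abs_nonneg _).trans (hδ (c 0) true ∅ (o 0))
  rw [X.ZP_eq_Tm K hM hs hP]
  unfold Tm gg QX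
  rw [← EX_mul_left]
  refine EX_mono (X.factor_pr_nonneg c) R fun ξ => ?_
  rw [mul_comm _ (ind _), pow_mul]
  refine mul_le_mul_of_nonneg_left ?_ (ind_nonneg _)
  have := factor_prod_le (K := K) (fun i => X.clF M s (arr (P i)) i c ξ o) (fun _ => 1)
    ((1 + δ) ^ 2) (one_le_pow₀ (by linarith)) T
    (fun i _ => X.factor_clF_nonneg _ _ _ _ _ _ _) (fun i _ => zero_le_one)
    (fun i _ => by rw [mul_one]; exact X.factor_clF_le hδ _ _ _ _ _ _ _)
    fun i hi hiT => by rw [hT i hi hiT, X.factor_clF_empty]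
  simpa using this
lemma gg_le_ZP {M s K : ℕ} (hM : 2 ≤ M) (hs : s ≤ 2 * X.a + 1) {P : ℕ → Finset ℕ}
    (hP : ∀ i, P i ⊆ range m) {δ : ℝ} (hδ : ∀ c ξ S o, |X.D c ξ S o| ≤ δ) (hδ1 : δ ≤ 1)
    (c : ℕ → Ctx X.a) (o : ℕ → X.Tok) (R : ℕ) (ℓ : Lab X.a) :
    (1 - δ) ^ (2 * K) * gg s (K * LL X.a M) c R ℓ ≤ X.ZP M s K P c o R ℓ := by
  rw [X.ZP_eq_Tm K hM hs hP]
  unfold Tm gg QX
  rw [← EX_mul_left]
  refine EX_mono (X.factor_pr_nonneg c) R fun ξ => ?_
  rw [mul_comm _ (ind _), pow_mul]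
  refine mul_le_mul_of_nonneg_left ?_ (ind_nonneg _)
  calc ((1 - δ) ^ 2) ^ K = ∏ _i ∈ range K, (1 - δ) ^ 2 := by simp
    _ ≤ _ := Finset.prod_le_prod (fun i _ => sq_nonneg _)
      fun i _ => X.factor_clF_ge hδ hδ1 _ _ _ _ _ _ _
/-- `((1+δ)/(1-δ)) ^ (2 n) ≤ 1 + 16 n δ`, and the resulting two-sided comparison. -/
lemma ZP_close {M s K : ℕ} (hM : 2 ≤ M) (hs : s ≤ 2 * X.a + 1) {P Q : ℕ → Finset ℕ}
    (hP : ∀ i, P i ⊆ range m) (hQ : ∀ i, Q i ⊆ range m) {δ : ℝ} (hδ : ∀ c ξ S o, |X.D c ξ S o| ≤ δ)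
    (n : ℕ) (hn : 1 ≤ n) (hδ1 : 8 * n * δ ≤ 1) (T : Finset ℕ) (hTn : T.card ≤ n)
    (hT : ∀ i < K, i ∉ T → P i = Q i)
    (c : ℕ → Ctx X.a) (o : ℕ → X.Tok) (R : ℕ) (ℓ : Lab X.a) :
    |X.ZP M s K P c o R ℓ - X.ZP M s K Q c o R ℓ| ≤ 16 * n * δ * X.ZP M s K Q c o R ℓ := by
  have h0 : 0 ≤ δ := (abs_nonneg _).trans (hδ (c 0) true ∅ (o 0))
  have hn' : (1 : ℝ) ≤ n := by exact_mod_cast hn
  have hδ8 : δ ≤ 1 / 8 := by nlinarith
  have hp : 0 < 1 - δ := by linarith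
  have hκ : ((1 + δ) / (1 - δ)) ^ (2 * T.card) ≤ 1 + 16 * n * δ :=
    (pow_le_pow_right₀ ((one_le_div hp).2 (by linarith)) (by omega)).trans
      (factor_pow_le h0 hn hδ1)
  have hP0 : 0 ≤ X.ZP M s K P c o R ℓ := X.Zf_nonneg _ _ _ _ _ _ _
  have hQ0 : 0 ≤ X.ZP M s K Q c o R ℓ := X.Zf_nonneg _ _ _ _ _ _ _
  have h1 := (X.ZP_le_ZP hM hs hP hQ hδ (by linarith) T hT c o R ℓ).trans
    (mul_le_mul_of_nonneg_right hκ hQ0)
  have h2 := (X.ZP_le_ZP hM hs hQ hP hδ (by linarith) T (fun i hi hiT => (hT i hi hiT).symm)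
    c o R ℓ).trans (mul_le_mul_of_nonneg_right hκ hP0)
  have hη : 0 ≤ 16 * (n : ℝ) * δ := by positivity
  generalize 16 * (n : ℝ) * δ = η at *
  rcases le_total (X.ZP M s K P c o R ℓ) (X.ZP M s K Q c o R ℓ) with h | h
  · have := mul_le_mul_of_nonneg_left h hη
    rw [abs_of_nonpos (by linarith)]; linarith
  · rw [abs_of_nonneg (by linarith)]; linarith

/-- `Tm` is linear in the factor of one cluster. -/
lemma Tm_linear {ι : Type} (M s K i0 : ℕ) (hi : i0 < K) (sp : ℕ → Spec) (J : Finset ι) (t : ι → ℝ)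
    (q : ι → Spec) (c : ℕ → Ctx X.a) (o : ℕ → X.Tok)
    (h : ∀ ξ, ∑ j ∈ J, t j * X.clF M s (q j) i0 c ξ o = 0) (R : ℕ) (ℓ : Lab X.a) :
    ∑ j ∈ J, t j * X.Tm M s K (Function.update sp i0 (q j)) c o R ℓ = 0 := by
  simp only [X.factor_Tm_update M s K i0 hi, ← EX_mul_left]
  rw [← EX_sum, ← EX_zero_fun (fun r => pr (1 / 2) (c r)) R]
  congr 1
  funext ξ
  simp only [← mul_assoc]
  rw [← Finset.sum_mul, ← Finset.sum_mul, h ξ, zero_mul, zero_mul]

/-- `(1 + D0)(1 + D1) - 1 = D0 + D1 + D0 D1`. -/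
theorem Tm_arr (M s K i0 : ℕ) (hi : i0 < K) (sp : ℕ → Spec) (F : Finset ℕ)
    (c : ℕ → Ctx X.a) (o : ℕ → X.Tok) (R : ℕ) (ℓ : Lab X.a) :
    X.Tm M s K (Function.update sp i0 (arr F)) c o R ℓ -
        X.Tm M s K (Function.update sp i0 (arr ∅)) c o R ℓ =
      X.Tm M s K (Function.update sp i0 (one0 false F)) c o R ℓ +
        X.Tm M s K (Function.update sp i0 (one1 false F)) c o R ℓ +
        X.Tm M s K (Function.update sp i0 (two F)) c o R ℓ := by
  simp only [X.factor_Tm_update M s K i0 hi, ← EX_minus, ← EX_plus]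
  congr 1
  funext ξ
  rw [← sub_mul, ← add_mul, ← add_mul]
  congr 1
  simp only [clF, slotF, arr, one0, one1, two, alB, X.feat_empty, if_true]
  simp
  ring

/-- The difference of two patterns is the sum of six items and, if `e`, of the linear term.  A single defect is never seen
by two consecutive steps, so the factor of `arr {g}` is `1 + D0 + D1`, and the constants cancel as the cardinalities agree. -/
theorem Tm_delta (M s K i0 : ℕ) (hi : i0 < K) (sp : ℕ → Spec) (F F' : Finset ℕ) (hF : F ⊆ range m)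
    (hF' : F' ⊆ range m) (e : Bool) (hc : e = true → F.card = F'.card)
    (c : ℕ → Ctx X.a) (o : ℕ → X.Tok) (R : ℕ) (ℓ : Lab X.a) :
    X.Tm M s K (Function.update sp i0 (arr F')) c o R ℓ -
        X.Tm M s K (Function.update sp i0 (arr F)) c o R ℓ =
      ∑ t : Fin 6, itemSgn t * X.Tm M s K (Function.update sp i0 (item e F F' t)) c o R ℓ +
        if e then ∑ g ∈ range m, (ind (g ∈ F') - ind (g ∈ F)) *
          X.Tm M s K (Function.update sp i0 (arr {g})) c o R ℓ else 0 := by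
  classical
  have hind : ∀ (G : Finset ℕ), G ⊆ range m → ∀ f : ℕ → ℝ,
      ∑ g ∈ range m, ind (g ∈ G) * f g = ∑ g ∈ G, f g := by
    intro G hG f
    rw [← Finset.sum_subset hG fun g _ hg => by rw [ind_false hg, zero_mul]]
    exact Finset.sum_congr rfl fun g hg => by rw [ind_true hg, one_mul]
  cases e
  · simp only [X.factor_Tm_update M s K i0 hi, ← EX_minus, ← EX_mul_left, ← EX_sum]
    simp only [Bool.false_eq_true, if_false, add_zero]
    congr 1
    funext ξ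
    simp only [← mul_assoc]
    rw [← sub_mul, ← sub_mul, ← Finset.sum_mul, ← Finset.sum_mul]
    congr 2
    simp only [Fin.sum_univ_six, item, itemSgn, clF, slotF, arr, one0, one1, two, alB,
      Matrix.cons_val, X.feat_empty, if_true]
    simp
    ring
  · simp only [X.factor_Tm_update M s K i0 hi, ← EX_minus, ← EX_mul_left, ← EX_sum, if_true,
      ← EX_plus]
    congr 1
    funext ξ
    simp only [← mul_assoc]
    rw [← sub_mul, ← sub_mul, ← Finset.sum_mul, ← Finset.sum_mul, ← Finset.sum_mul,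
      ← Finset.sum_mul, ← add_mul, ← add_mul]
    congr 2
    have hcard : (F.card : ℝ) = F'.card := by exact_mod_cast hc rfl
    obtain ⟨ρ, hρ⟩ : ∃ ρ, ρ = r0 s c ξ (zz X.a M i0) := ⟨_, rfl⟩
    obtain ⟨d0, hd0⟩ : ∃ d0 : Finset ℕ → ℝ, d0 = fun G => X.D (c ρ) (ξ ρ)
      (pat G ((zz X.a M i0 : ℤ) - pos s c ξ ρ) (stp (c ρ) (ξ ρ))) (o ρ) := ⟨_, rfl⟩
    obtain ⟨d1, hd1⟩ : ∃ d1 : Finset ℕ → ℝ, d1 = fun G => X.D (c (ρ + 1)) (ξ (ρ + 1))
      (pat G ((zz X.a M i0 : ℤ) - pos s c ξ (ρ + 1)) (stp (c (ρ + 1)) (ξ (ρ + 1)))) (o (ρ + 1)) :=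
      ⟨_, rfl⟩
    have hsing : ∀ g, d0 {g} * d1 {g} = 0 := by
      intro g
      have h3 := pos_succ s c ξ ρ
      by_cases hg : (zz X.a M i0 : ℤ) - pos s c ξ (ρ + 1) + g < 0
      · have : pat {g} ((zz X.a M i0 : ℤ) - pos s c ξ (ρ + 1)) (stp (c (ρ + 1)) (ξ (ρ + 1))) = ∅ := by
          rw [Finset.eq_empty_iff_forall_notMem]
          intro j hj
          simp only [pat, Finset.mem_filter, mem_range, mem_singleton, exists_eq_left] at hj
          omega
        simp only [hd1, this, X.D_empty, mul_zero]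
      · have : pat {g} ((zz X.a M i0 : ℤ) - pos s c ξ ρ) (stp (c ρ) (ξ ρ)) = ∅ := by
          rw [Finset.eq_empty_iff_forall_notMem]
          intro j hj
          simp only [pat, Finset.mem_filter, mem_range, mem_singleton, exists_eq_left] at hj
          omega
        simp only [hd0, this, X.D_empty, zero_mul]
    have harr : ∀ G, X.clF M s (arr G) i0 c ξ o = (1 + d0 G) * (1 + d1 G) := by
      intro G; rw [factor_clF_arr, hd0, hd1, hρ]
    have h0 : ∀ G, X.clF M s (one0 true G) i0 c ξ o = d0 G - ∑ g ∈ G, d0 {g} := by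
      intro G
      simp only [clF, slotF, one0, alB, X.feat_empty, ← hρ]
      simp [feat, hd0]
    have h1 : ∀ G, X.clF M s (one1 true G) i0 c ξ o = d1 G - ∑ g ∈ G, d1 {g} := by
      intro G
      simp only [clF, slotF, one1, alB, X.feat_empty, ← hρ]
      simp [feat, hd1]
    have h2 : ∀ G, X.clF M s (two G) i0 c ξ o = d0 G * d1 G := by
      intro G
      simp only [clF, slotF, two, alB, ← hρ]
      simp [feat, hd0, hd1]
    have h3 : ∀ g, X.clF M s (arr {g}) i0 c ξ o = 1 + d0 {g} + d1 {g} := by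
      intro g; rw [harr]; linear_combination hsing g
    simp only [sub_mul, Finset.sum_sub_distrib, hind F hF, hind F' hF', h3,
      Finset.sum_add_distrib, Finset.sum_const, nsmul_eq_mul, mul_one]
    simp only [Fin.sum_univ_six, item, itemSgn, Matrix.cons_val, harr, h0, h1, h2, hcard]
    ring

/-- One block with a single defect: only one step sees it. -/
theorem ZP_single {M s : ℕ} (hM : 2 ≤ M) (hs : s ≤ 2 * X.a + 1) (g : ℕ) (hg : g < m)
    (c : ℕ → Ctx X.a) (o : ℕ → X.Tok) (R : ℕ) (ℓ : Lab X.a) :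
    X.ZP M s 1 (fun _ => {g}) c o R ℓ = gg s (1 * LL X.a M) c R ℓ +
      ∑ r ∈ range R, QX c R fun ξ => ind (End s (1 * LL X.a M) c ξ R ℓ) *
        X.D (c r) (ξ r) (pat {0} ((HH X.a M : ℤ) + g - pos s c ξ r) (stp (c r) (ξ r))) (o r) := by
  unfold ZP Zf gg QX
  rw [← EX_sum, ← EX_plus]
  congr 1
  funext ξ
  by_cases h : End s (1 * LL X.a M) c ξ R ℓ
  swap
  · rw [ind_false h]; simp
  have hM1 : 1 ≤ M := by omega
  have hH : 2 * X.a + 1 ≤ HH X.a M := Nat.le_mul_of_pos_right _ hM1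
  have hP : ∀ _i : ℕ, ({g} : Finset ℕ) ⊆ range m := fun _ => by simpa using hg
  rw [ind_true h]
  simp only [one_mul]
  rw [← factor_prod_one_add]
  · refine Finset.prod_congr rfl fun r hr => ?_
    have hr' := mem_range.1 hr
    congr 2
    ext j
    simp only [dset, pat, Finset.mem_filter, mem_range, mem_singleton, exists_eq_left,
      tauP_iff X.m_le hM1 hP]
    refine and_congr_right fun hj => ?_
    have h3 := pos_succ s c ξ r
    have h4 := pos_ge s c ξ (show r + 1 ≤ R by omega)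
    have h5 := h.2.1
    have h6 := ℓ.1.isLt
    constructor
    · rintro ⟨i, hi⟩
      have hi0 : i = 0 := by
        by_contra hK
        have : 1 * LL X.a M ≤ i * LL X.a M := Nat.mul_le_mul_right _ (by omega)
        unfold zz at hi
        omega
      subst hi0
      unfold zz at hi
      omega
    · intro hi
      refine ⟨0, ?_⟩
      unfold zz
      omega
  · intro r r' hrr
    have h3 := pos_succ s c ξ r
    have h4 := pos_ge s c ξ (show r + 1 ≤ r' by omega)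
    by_cases hg' : (HH X.a M : ℤ) + g - pos s c ξ r' < 0
    · have : pat {0} ((HH X.a M : ℤ) + g - pos s c ξ r') (stp (c r') (ξ r')) = ∅ := by
        rw [Finset.eq_empty_iff_forall_notMem]
        intro j hj
        simp only [pat, Finset.mem_filter, mem_range, mem_singleton, exists_eq_left] at hj
        omega
      rw [this, X.D_empty, mul_zero]
    · have : pat {0} ((HH X.a M : ℤ) + g - pos s c ξ r) (stp (c r) (ξ r)) = ∅ := by
        rw [Finset.eq_empty_iff_forall_notMem]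
        intro j hj
        simp only [pat, Finset.mem_filter, mem_range, mem_singleton, exists_eq_left] at hj
        omega
      rw [this, X.D_empty, zero_mul]

end Model

end Pool.Agent.Lib.MP_343fe0_pr
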