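import Pool.Agent.Lib.MP_343fe0_pr.Alg
import Pool.Agent.Lib.MP_343fe0_pr.Defs

set_option autoImplicit false

/-! From the affinity of two trace laws to a lower bound on the number of traces. -/

namespace Pool.Agent.Lib.MP_343fe0_pr

open Finset

lemma stat_trace_cons {n : ℕ} (x : Fin (n + 1) → Bool) (b : Bool) (s : Fin n → Bool) :
    trace x (Fin.cons b s : Fin (n + 1) → Bool) =
      (if b then [x 0] else []) ++ trace (fun i => x i.succ) s := by
  unfold trace
  rw [List.finRange_succ, List.filter_cons, List.filter_map]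
  have e : ((Fin.cons b s : Fin (n + 1) → Bool) ∘ Fin.succ) = s := by
    funext i
    simp
  rw [e]
  cases b <;> simp [List.map_map, Function.comp_def]

lemma stat_mu_of (b : Bool) :
    mu (FreeMonoid.of b) =
      (1 / 2 : ℝ) • ((1 : Alg) + MonoidAlgebra.single (FreeMonoid.of b) (1 : ℝ)) := rfl

/-- Induction on `n` (`Fin.cons`, `List.finRange_succ`, `List.ofFn_succ`); a convenient form is
`mu (ofList (ofFn x)) = ∑ s, (1/2)^n • single (ofList (trace x s)) 1`. -/
lemma mu_eq_sum {n : ℕ} (x : Fin n → Bool) :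
    mu (FreeMonoid.ofList (List.ofFn x)) =
      ∑ s : Fin n → Bool, MonoidAlgebra.single (FreeMonoid.ofList (trace x s)) ((1 / 2 : ℝ) ^ n) := by
  induction n with
  | zero =>
    rw [Fintype.sum_unique]
    simp [trace, MonoidAlgebra.one_def]
  | succ n ih =>
    rw [List.ofFn_succ, FreeMonoid.ofList_cons, map_mul, ih, stat_mu_of,
      ← (Fin.consEquiv fun _ : Fin (n + 1) => Bool).sum_comp, Fintype.sum_prod_type,
      Fintype.sum_bool, smul_mul_assoc, add_mul, one_mul, smul_add, Finset.mul_sum,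
      Finset.smul_sum, Finset.smul_sum, add_comm]
    congr 1
    · refine Finset.sum_congr rfl fun s _ => ?_
      have e : (Fin.consEquiv fun _ : Fin (n + 1) => Bool) (true, s) =
          (Fin.cons true s : Fin (n + 1) → Bool) := rfl
      rw [e, stat_trace_cons, MonoidAlgebra.single_mul_single, MonoidAlgebra.smul_single,
        smul_eq_mul, one_mul, pow_succ']
      rfl
    · refine Finset.sum_congr rfl fun s _ => ?_
      have e : (Fin.consEquiv fun _ : Fin (n + 1) => Bool) (false, s) =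
          (Fin.cons false s : Fin (n + 1) → Bool) := rfl
      rw [e, stat_trace_cons, MonoidAlgebra.smul_single, smul_eq_mul, pow_succ']
      rfl

lemma stat_trace_full {n : ℕ} (x s : Fin n → Bool) (h : (trace x s).length = n) :
    trace x s = List.ofFn x := by
  unfold trace at h ⊢
  rw [List.length_map] at h
  have e : (List.finRange n).filter s = List.finRange n :=
    List.filter_sublist.eq_of_length (by rw [h, List.length_finRange])
  rw [e, List.ofFn_eq_map]

lemma stat_trace_true {n : ℕ} (x : Fin n → Bool) : trace x (fun _ => true) = List.ofFn x := by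
  unfold trace
  rw [List.filter_true, List.ofFn_eq_map]

/-- Return a trace of full length if there is one; it is missed with probability `(1 - 2 ^ -n) ^ m ≤ exp (-3) ≤ 1/10`
for `m = 3 * 2 ^ n`. -/
theorem exists_reconstructible (n : ℕ) : ∃ m, Reconstructible n m := by
  classical
  have h2 : (0 : ℝ) < 2 ^ n := by positivity
  obtain ⟨m, hm⟩ := exists_pow_lt_of_lt_one (x := (1 / 10 : ℝ)) (y := ((2 : ℝ) ^ n - 1) / 2 ^ n)
    (by norm_num) (by rw [div_lt_one h2]; linarith)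
  refine ⟨m, fun t => if h : ∃ z : Fin n → Bool, ∃ i, t i = List.ofFn z then h.choose
    else fun _ => false, fun x => ?_⟩
  have hsub : (univ \ Fintype.piFinset fun _ : Fin m => (univ.erase fun _ : Fin n => true)) ⊆
      univ.filter fun s : Fin m → Fin n → Bool =>
        (if h : ∃ z : Fin n → Bool, ∃ i, trace x (s i) = List.ofFn z then h.choose
          else fun _ => false) = x := by
    intro s hs
    rw [Finset.mem_sdiff, Fintype.mem_piFinset] at hs
    obtain ⟨i, hi⟩ : ∃ i, s i = fun _ => true := by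
      by_contra hne
      exact hs.2 fun i => Finset.mem_erase.2 ⟨fun e => hne ⟨i, e⟩, mem_univ _⟩
    have hex : ∃ z : Fin n → Bool, ∃ i, trace x (s i) = List.ofFn z :=
      ⟨x, i, by rw [hi, stat_trace_true]⟩
    rw [Finset.mem_filter, dif_pos hex]
    refine ⟨mem_univ _, ?_⟩
    obtain ⟨j, hj⟩ := hex.choose_spec
    have h3 := stat_trace_full x (s j) (by rw [hj, List.length_ofFn])
    exact List.ofFn_injective (hj.symm.trans h3)
  have hcard := Finset.card_le_card hsub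
  rw [Finset.card_sdiff_of_subset (subset_univ _), Fintype.card_piFinset] at hcard
  simp only [Finset.card_univ, Fintype.card_fun, Fintype.card_bool, Fintype.card_fin,
    Finset.card_erase_of_mem (mem_univ _), Finset.prod_const] at hcard
  have h1 : 1 ≤ 2 ^ n := Nat.one_le_two_pow
  have h4 : (2 ^ n - 1) ^ m ≤ (2 ^ n) ^ m := Nat.pow_le_pow_left (Nat.sub_le _ _) m
  have h5 : ((((2 ^ n) ^ m - (2 ^ n - 1) ^ m : ℕ)) : ℝ) =
      ((2 : ℝ) ^ n) ^ m - ((2 : ℝ) ^ n - 1) ^ m := by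
    rw [Nat.cast_sub h4, Nat.cast_pow, Nat.cast_pow, Nat.cast_pow, Nat.cast_sub h1]
    push_cast
    ring
  refine le_trans ?_ (Nat.cast_le.2 hcard)
  rw [h5, pow_mul]
  rw [div_pow, div_lt_iff₀ (pow_pos h2 m)] at hm
  linarith

lemma stat_push {S : Type} [Fintype S] {m : ℕ} (T : Finset Wd) (φ : S → Wd) (hφ : ∀ s, φ s ∈ T)
    (c : ℝ) (p : Wd → ℝ) (hp : ∀ w, p w = ∑ s, ind (φ s = w) * c) (g : (Fin m → Wd) → ℝ) :
    ∑ t ∈ Fintype.piFinset (fun _ : Fin m => T), g t * ∏ i, p (t i) =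
      c ^ m * ∑ s : Fin m → S, g (fun i => φ (s i)) := by
  classical
  have e1 : ∀ t : Fin m → Wd, ∏ i, p (t i) =
      ∑ s : Fin m → S, if (fun i => φ (s i)) = t then c ^ m else 0 := by
    intro t
    simp only [hp]
    rw [Finset.prod_univ_sum, Fintype.piFinset_univ]
    refine Finset.sum_congr rfl fun s _ => ?_
    split_ifs with h
    · have : ∀ i, ind (φ (s i) = t i) * c = c := fun i => by
        rw [ind_true (congrFun h i), one_mul]
      simp [this]
    · obtain ⟨i, hi⟩ : ∃ i, φ (s i) ≠ t i := by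
        by_contra hne
        exact h (funext fun i => by_contra fun e => hne ⟨i, e⟩)
      exact Finset.prod_eq_zero (mem_univ i) (by rw [ind_false hi, zero_mul])
  simp only [e1, Finset.mul_sum]
  rw [Finset.sum_comm]
  refine Finset.sum_congr rfl fun s _ => ?_
  simp only [mul_ite, mul_zero]
  rw [Finset.sum_ite_eq, if_pos (Fintype.mem_piFinset.2 fun i => hφ (s i)), mul_comm]

lemma stat_coeff {n : ℕ} (x : Fin n → Bool) (w : Wd) :
    (mu (FreeMonoid.ofList (List.ofFn x))).coeff w =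
      ∑ s : Fin n → Bool, ind (FreeMonoid.ofList (trace x s) = w) * (1 / 2 : ℝ) ^ n := by
  classical
  rw [mu_eq_sum, MonoidAlgebra.coeff_sum, Finsupp.finsetSum_apply]
  refine Finset.sum_congr rfl fun s _ => ?_
  rw [MonoidAlgebra.coeff_single, Finsupp.single_apply]
  split_ifs with h
  · rw [ind_true h, one_mul]
  · rw [ind_false h, zero_mul]

lemma stat_half {ι : Type} (B : Finset ι) (e r P Q : ι → ℝ)
    (he0 : ∀ t, 0 ≤ e t) (hP : ∀ t, 0 ≤ P t) (hQ : ∀ t, 0 ≤ Q t) (hr : ∀ t, r t ^ 2 = P t * Q t)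
    (h1 : ∑ t ∈ B, e t * P t ≤ 1) (h2 : ∑ t ∈ B, e t * Q t ≤ 1 / 10) :
    ∑ t ∈ B, e t * r t ≤ 1 / 3 := by
  have h3 := Finset.sum_sq_le_sum_mul_sum_of_sq_le_mul B (r := fun t => e t * r t)
    (f := fun t => e t * P t) (g := fun t => e t * Q t) (fun t _ => mul_nonneg (he0 t) (hP t))
    (fun t _ => mul_nonneg (he0 t) (hQ t)) (fun t _ => le_of_eq (by rw [mul_pow, hr]; ring))
  have h4 : 0 ≤ ∑ t ∈ B, e t * Q t := Finset.sum_nonneg fun t _ => mul_nonneg (he0 t) (hQ t)
  have h5 : (∑ t ∈ B, e t * P t) * ∑ t ∈ B, e t * Q t ≤ 1 * (1 / 10) :=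
    mul_le_mul h1 h2 h4 zero_le_one
  nlinarith

lemma stat_count {n m : ℕ} (z : (Fin m → Fin n → Bool) → Prop) [DecidablePred z]
    (h : (9 / 10 : ℝ) * 2 ^ (n * m) ≤ ((univ.filter z).card : ℝ)) :
    9 / 10 ≤ ((1 / 2 : ℝ) ^ n) ^ m * ∑ s : Fin m → Fin n → Bool, ind (z s) := by
  have e : ∑ s : Fin m → Fin n → Bool, ind (z s) = ((univ.filter z).card : ℝ) := by
    rw [Finset.card_filter]
    push_cast
    refine Finset.sum_congr rfl fun s _ => ?_
    split_ifs with hs
    · exact ind_true hs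
    · exact ind_false hs
  have e2 : ((1 / 2 : ℝ) ^ n) ^ m * 2 ^ (n * m) = 1 := by
    rw [← pow_mul, ← mul_pow]
    norm_num
  have h3 : (0 : ℝ) ≤ ((1 / 2 : ℝ) ^ n) ^ m := by positivity
  have h4 := mul_le_mul_of_nonneg_left h h3
  rw [e]
  nlinarith

lemma stat_total {n m : ℕ} :
    ((1 / 2 : ℝ) ^ n) ^ m * ∑ _s : Fin m → Fin n → Bool, (1 : ℝ) = 1 := by
  simp only [Finset.sum_const, Finset.card_univ, Fintype.card_fun, Fintype.card_bool,
    Fintype.card_fin, nsmul_eq_mul, mul_one]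
  push_cast
  rw [← mul_pow, ← mul_pow]
  norm_num

/-- Let `p`, `q` be the two laws on the finite set of words of the supports, `A` the set of `m`-tuples of words on which the rule
returns `x`.  Then `P(A) ≥ 0.9`, `Q(A) ≤ 0.1` for the product laws, and
`(1-δ) ^ m ≤ Aff ^ m = ∑ √(P Q) ≤ √(P(A) Q(A)) + √(P(Aᶜ) Q(Aᶜ)) ≤ 2 √0.1 ≤ 2/3`; Bernoulli gives `1/3 ≤ m δ`. -/
theorem lower_of_Aff {n m : ℕ} (x y : Fin n → Bool) (hxy : x ≠ y) (δ : ℝ) (hδ : δ ≤ 1)
    (h : 1 - δ ≤ Aff (mu (FreeMonoid.ofList (List.ofFn x))) (mu (FreeMonoid.ofList (List.ofFn y))))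
    (hR : Reconstructible n m) : 1 / 3 ≤ m * δ := by
  classical
  obtain ⟨R, hR⟩ := hR
  obtain ⟨T, hTx, hTy⟩ : ∃ T : Finset Wd, (∀ s, FreeMonoid.ofList (trace x s) ∈ T) ∧
      ∀ s, FreeMonoid.ofList (trace y s) ∈ T :=
    ⟨(univ.image fun s => FreeMonoid.ofList (trace x s)) ∪
      univ.image fun s => FreeMonoid.ofList (trace y s),
      fun s => mem_union_left _ (mem_image_of_mem _ (mem_univ s)),
      fun s => mem_union_right _ (mem_image_of_mem _ (mem_univ s))⟩
  obtain ⟨p, hp⟩ : ∃ p : Wd → ℝ, ∀ w, (mu (FreeMonoid.ofList (List.ofFn x))).coeff w = p w :=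
    ⟨_, fun _ => rfl⟩
  obtain ⟨q, hq⟩ : ∃ q : Wd → ℝ, ∀ w, (mu (FreeMonoid.ofList (List.ofFn y))).coeff w = q w :=
    ⟨_, fun _ => rfl⟩
  have hp0 : ∀ w, 0 ≤ p w := fun w => hp w ▸ mu_nn _ w
  have hq0 : ∀ w, 0 ≤ q w := fun w => hq w ▸ mu_nn _ w
  have hsupp : (mu (FreeMonoid.ofList (List.ofFn x))).coeff.support ⊆ T := by
    intro w hw
    by_contra hwT
    refine Finsupp.mem_support_iff.1 hw ?_
    rw [stat_coeff]
    refine Finset.sum_eq_zero fun s _ => ?_
    rw [ind_false (p := FreeMonoid.ofList (trace x s) = w) (fun e => hwT (e ▸ hTx s)), zero_mul]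
  rw [Aff_eq_sum _ _ T hsupp] at h
  simp only [hp, hq] at h
  have hP := stat_push (m := m) T (fun s => FreeMonoid.ofList (trace x s)) hTx ((1 / 2 : ℝ) ^ n) p
    (fun w => (hp w).symm.trans (stat_coeff x w))
  have hQ := stat_push (m := m) T (fun s => FreeMonoid.ofList (trace y s)) hTy ((1 / 2 : ℝ) ^ n) q
    (fun w => (hq w).symm.trans (stat_coeff y w))
  have hP1 := hP fun _ => 1
  have hQ1 := hQ fun _ => 1
  rw [stat_total] at hP1 hQ1
  have hPx := hP fun t => ind (R (fun i => FreeMonoid.toList (t i)) = x)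
  have hQy := hQ fun t => ind (R (fun i => FreeMonoid.toList (t i)) = y)
  simp only [FreeMonoid.toList_ofList] at hPx hQy
  have hx := stat_count _ (hR x)
  have hy := stat_count _ (hR y)
  rw [← hPx] at hx
  rw [← hQy] at hy
  obtain ⟨B, hB⟩ : ∃ B, B = Fintype.piFinset (fun _ : Fin m => T) := ⟨_, rfl⟩
  rw [← hB] at hx hy hP1 hQ1
  obtain ⟨e, he⟩ : ∃ e : (Fin m → Wd) → ℝ,
      ∀ t, e t = ind (R (fun i => FreeMonoid.toList (t i)) = x) := ⟨_, fun _ => rfl⟩
  simp only [← he] at hx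
  have he0 : ∀ t, 0 ≤ e t := fun t => by rw [he]; exact ind_nonneg _
  have he1 : ∀ t, e t ≤ 1 := fun t => by rw [he]; exact ind_le_one _
  have hPP : ∀ t : Fin m → Wd, 0 ≤ ∏ i, p (t i) := fun t => Finset.prod_nonneg fun i _ => hp0 _
  have hQQ : ∀ t : Fin m → Wd, 0 ≤ ∏ i, q (t i) := fun t => Finset.prod_nonneg fun i _ => hq0 _
  have hr : ∀ t : Fin m → Wd, (∏ i, √(p (t i) * q (t i))) ^ 2 = (∏ i, p (t i)) * ∏ i, q (t i) := by
    intro t
    rw [← Finset.prod_pow, ← Finset.prod_mul_distrib]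
    exact Finset.prod_congr rfl fun i _ => Real.sq_sqrt (mul_nonneg (hp0 _) (hq0 _))
  have hey : ∀ t, ind (R (fun i => FreeMonoid.toList (t i)) = y) ≤ 1 - e t := fun t => by
    rw [he, ← ind_not]
    exact ind_mono fun h1 h2 => hxy (h2.symm.trans h1)
  have hy' : 9 / 10 ≤ ∑ t ∈ B, (1 - e t) * ∏ i, q (t i) :=
    hy.trans (Finset.sum_le_sum fun t _ => mul_le_mul_of_nonneg_right (hey t) (hQQ t))
  have splitP : ∑ t ∈ B, (1 - e t) * ∏ i, p (t i) = 1 - ∑ t ∈ B, e t * ∏ i, p (t i) := by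
    rw [← hP1, ← Finset.sum_sub_distrib]
    exact Finset.sum_congr rfl fun t _ => by rw [hP1]; ring
  have splitQ : ∑ t ∈ B, (1 - e t) * ∏ i, q (t i) = 1 - ∑ t ∈ B, e t * ∏ i, q (t i) := by
    rw [← hQ1, ← Finset.sum_sub_distrib]
    exact Finset.sum_congr rfl fun t _ => by rw [hQ1]; ring
  have nP : 0 ≤ ∑ t ∈ B, (1 - e t) * ∏ i, p (t i) :=
    Finset.sum_nonneg fun t _ => mul_nonneg (by linarith [he1 t]) (hPP t)
  have nQ : 0 ≤ ∑ t ∈ B, e t * ∏ i, q (t i) :=
    Finset.sum_nonneg fun t _ => mul_nonneg (he0 t) (hQQ t)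
  have a1 := stat_half B e (fun t => ∏ i, √(p (t i) * q (t i))) (fun t => ∏ i, p (t i))
    (fun t => ∏ i, q (t i)) he0 hPP hQQ hr (by linarith) (by linarith)
  have a2 := stat_half B (fun t => 1 - e t) (fun t => ∏ i, √(p (t i) * q (t i)))
    (fun t => ∏ i, q (t i)) (fun t => ∏ i, p (t i))
    (fun t => by linarith [he1 t]) hQQ hPP
    (fun t => by rw [hr, mul_comm]) (by linarith) (by linarith)
  have a3 : (∑ w ∈ T, √(p w * q w)) ^ m = ∑ t ∈ B, ∏ i, √(p (t i) * q (t i)) := by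
    rw [hB, ← Finset.prod_univ_sum (fun _ : Fin m => T) (fun _ w => √(p w * q w))]
    simp
  have a4 : ∑ t ∈ B, ∏ i, √(p (t i) * q (t i)) =
      ∑ t ∈ B, e t * ∏ i, √(p (t i) * q (t i)) +
        ∑ t ∈ B, (1 - e t) * ∏ i, √(p (t i) * q (t i)) := by
    rw [← Finset.sum_add_distrib]
    exact Finset.sum_congr rfl fun t _ => by ring
  have a5 : (1 - δ) ^ m ≤ (∑ w ∈ T, √(p w * q w)) ^ m := pow_le_pow_left₀ (by linarith) h m
  have a6 := one_add_mul_le_pow (a := -δ) (by linarith) m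
  rw [← sub_eq_add_neg] at a6
  linarith

lemma stat_ofFn (l : List Bool) (n : ℕ) (h : l.length = n) : ∃ X : Fin n → Bool, List.ofFn X = l := by
  subst h
  exact ⟨l.get, List.ofFn_get l⟩

/-- Padding with a common suffix (`Aff_mul_right`), `exists_reconstructible`, `Nat.sInf_mem`. -/
theorem mTr_ge (x y : Wd) (hxy : x ≠ y) (hl : x.length = y.length) (δ : ℝ) (hδ : δ ≤ 1)
    (h : 1 - δ ≤ Aff (mu x) (mu y)) (n : ℕ) (hn : x.length ≤ n) : 1 / 3 ≤ mTr n * δ := by
  obtain ⟨z, hz⟩ : ∃ z : Wd, z.length = n - x.length :=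
    ⟨FreeMonoid.ofList (List.replicate (n - x.length) false), List.length_replicate⟩
  have hx : (x * z).length = n := by rw [FreeMonoid.length_mul, hz]; omega
  have hy : (y * z).length = n := by rw [FreeMonoid.length_mul, hz]; omega
  obtain ⟨X, hX⟩ := stat_ofFn (FreeMonoid.toList (x * z)) n hx
  obtain ⟨Y, hY⟩ := stat_ofFn (FreeMonoid.toList (y * z)) n hy
  have hXY : X ≠ Y := by
    intro e
    rw [e, hY] at hX
    exact hxy (mul_right_cancel (FreeMonoid.toList.injective hX)).symm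
  have hR : Reconstructible n (mTr n) := Nat.sInf_mem (exists_reconstructible n)
  refine lower_of_Aff X Y hXY δ hδ ?_ hR
  rw [hX, hY, FreeMonoid.ofList_toList, FreeMonoid.ofList_toList, map_mul, map_mul]
  exact h.trans (Aff_mul_right (mu_nn x) (mu_nn y) (mu_nn z) (mass_mu z))

end Pool.Agent.Lib.MP_343fe0_pr
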