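import Pool.Agent.Lib.MP_343fe0_pr.LevStep
import Pool.Agent.Lib.MP_343fe0_pr.Stat

set_option autoImplicit false

/-! The superpolynomial lower bound. -/

namespace Pool.Agent.Lib.MP_343fe0_pr

open Finset Filter

lemma final_sqrt {t : ℝ} (ht : -1 ≤ t) : 1 + t / 2 - t ^ 2 / 2 ≤ √(1 + t) := by
  have h0 := Real.sqrt_nonneg (1 + t)
  have h1 := Real.sq_sqrt (show 0 ≤ 1 + t by linarith)
  generalize √(1 + t) = r at h0 h1
  obtain rfl : t = r ^ 2 - 1 := by linarith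
  nlinarith [mul_nonneg (mul_nonneg h0 (sq_nonneg (r - 1))) (show 0 ≤ r + 2 by linarith)]

lemma final_dset {k : ℕ} : dset (fun i => decide (i = 0)) 0 k = pat {0} 0 k := by
  ext j
  simp [dset, pat]

/-- `X.sim` for `τ = (· = 0)` and for `τ = false`; the remaining words agree as `stp ≥ 1`; `Aff_mono`, `Aff_sum`,
`√(1+t) ≥ 1 + t/2 - t^2/2` for `t ≥ -1`, `D_mean`, and `W.dom false {0}` with `s = {0}`, `x = 1`. -/
theorem model_Aff {m : ℕ} (hm : 1 ≤ m) (X : Model m) {ΩA sA Ω2 δ : ℝ} (hB : X.Bd ΩA sA Ω2 δ) :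
    1 - (X.ε + sA) ≤ Aff (mu (word X.U X.V (fun i => decide (i = 0)) (2 * X.a + 1)))
      (mu (word X.U X.V (fun _ => false) (2 * X.a + 1))) := by
  obtain ⟨-, ⟨W⟩⟩ := hB
  have h0m : ({0} : Finset ℕ) ⊆ range m := by simpa using Nat.lt_of_succ_le hm
  have hd0 : ∀ k, dset (fun _ => false) 0 k = ∅ := fun k => by simp [dset]
  have h1 := X.sim (fun i => decide (i = 0)) (final_dset ▸ pat_adm m _ h0m 0 _)
  have h0 := X.sim (fun _ => false) (hd0 _ ▸ adm_empty m)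
  have hsh : ∀ (c : Ctx X.a) (ξ : Bool), sh (stp c ξ) (fun i => decide (i = 0)) = fun _ => false := by
    intro c ξ
    funext i
    have := (X.a_pos.trans (stp_ge c ξ))
    simp only [sh, decide_eq_false_iff_not]
    omega
  have hsh0 : ∀ k, sh k (fun _ : ℕ => false) = fun _ => false := fun _ => rfl
  simp only [hsh, final_dset] at h1
  simp only [hsh0, hd0, X.D_empty, add_zero, mul_one] at h0
  set wt : Ctx X.a × Bool × X.Tok → ℝ := fun i => kap X.β i.1 * pr (1 / 2) i.1 i.2.1 * X.ν i.1 i.2.2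
    with hwt
  set D1 : Ctx X.a × Bool × X.Tok → ℝ := fun i => X.D i.1 i.2.1 (pat {0} 0 (stp i.1 i.2.1)) i.2.2
    with hD1
  set h : Ctx X.a × Bool × X.Tok → Alg := fun i =>
    X.out i.1 i.2.2 * mu (word X.U X.V (fun _ => false) (2 * X.a + 1 - stp i.1 i.2.1)) with hh
  have hε : 0 ≤ 1 - X.ε := sub_nonneg.2 X.ε_le
  have hβ1 : X.β ≤ 1 := X.β_le.trans (by norm_num)
  have hkp : ∀ (c : Ctx X.a) ξ, 0 ≤ kap X.β c * pr (1 / 2) c ξ := fun c ξ =>
    mul_nonneg (kap_nonneg X.β_pos.le hβ1 _) (pr_nonneg (by norm_num) (by norm_num) _ _)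
  have hw0 : ∀ i, 0 ≤ wt i := fun i => mul_nonneg (hkp _ _) (X.ν_nonneg _ _)
  have hD : ∀ i, -1 ≤ D1 i := fun i => X.D_ge _ _ _ _
  have hp : ∀ i, 0 ≤ (1 - X.ε) * (wt i * (1 + D1 i)) := fun i =>
    mul_nonneg hε (mul_nonneg (hw0 i) (by linarith [hD i]))
  have hq : ∀ i, 0 ≤ (1 - X.ε) * wt i := fun i => mul_nonneg hε (hw0 i)
  have hnn : ∀ i, NN (h i) := fun i => (X.out_nn _ _).mul (mu_nn _)
  have hm1 : ∀ i, mass (h i) = 1 := fun i => by
    simp only [hh, mass_mul, X.out_mass, mass_mu, mul_one]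
  have e1 : Dom (∑ i, ((1 - X.ε) * (wt i * (1 + D1 i))) • h i)
      (mu (word X.U X.V (fun i => decide (i = 0)) (2 * X.a + 1))) := by
    simpa only [Fintype.sum_prod_type, smul_sum, smul_smul] using h1
  have e0 : Dom (∑ i, ((1 - X.ε) * wt i) • h i)
      (mu (word X.U X.V (fun _ => false) (2 * X.a + 1))) := by
    simpa only [Fintype.sum_prod_type, smul_sum, smul_smul] using h0
  refine le_trans ?_ ((Aff_sum univ _ _ h (fun i _ => hp i) (fun i _ => hq i) (fun i _ => hnn i)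
    fun i _ => hm1 i).trans (Aff_mono (NN.sum _ _ fun i _ => (hnn i).smul (hp i))
      (NN.sum _ _ fun i _ => (hnn i).smul (hq i)) e1 e0))
  have hs : ∀ i, (1 - X.ε) * (wt i * (1 + D1 i / 2 - D1 i ^ 2 / 2)) ≤
      √((1 - X.ε) * (wt i * (1 + D1 i)) * ((1 - X.ε) * wt i)) := fun i => by
    rw [show (1 - X.ε) * (wt i * (1 + D1 i)) * ((1 - X.ε) * wt i) =
      ((1 - X.ε) * wt i) ^ 2 * (1 + D1 i) by ring, Real.sqrt_mul (sq_nonneg _),
      Real.sqrt_sq (hq i), ← mul_assoc]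
    exact mul_le_mul_of_nonneg_left (final_sqrt (hD i)) (hq i)
  refine le_trans ?_ (sum_le_sum fun i _ => hs i)
  have hsA : 0 ≤ sA := (W.nonneg false default false 0).trans (W.sup _ _ _)
  have hv : ∀ (c : Ctx X.a) ξ, 1 - sA / 2 ≤
      ∑ o, X.ν c o * (1 + D1 (c, ξ, o) / 2 - D1 (c, ξ, o) ^ 2 / 2) := fun c ξ => by
    have h2 := W.dom false {0} h0m c ξ {0} fun _ => 1
    simp only [sum_singleton, Model.feat, one_mul, one_pow, mul_one, Bool.false_eq_true, if_false,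
      sub_zero] at h2
    have h3 := X.D_mean c ξ (pat {0} 0 (stp c ξ))
    have h4 : ∑ o, X.ν c o * (1 + D1 (c, ξ, o) / 2 - D1 (c, ξ, o) ^ 2 / 2) =
        ∑ o, X.ν c o + (∑ o, X.ν c o * D1 (c, ξ, o)) / 2 - (∑ o, X.ν c o * D1 (c, ξ, o) ^ 2) / 2 := by
      rw [sum_div, sum_div, ← sum_add_distrib, ← sum_sub_distrib]
      exact sum_congr rfl fun o _ => by ring
    rw [h4, X.ν_sum, h3]
    linarith [W.sup c ξ 0]
  have h5 : 1 - sA / 2 ≤ ∑ i, wt i * (1 + D1 i / 2 - D1 i ^ 2 / 2) := by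
    calc 1 - sA / 2 = ∑ c : Ctx X.a, ∑ ξ, kap X.β c * pr (1 / 2) c ξ * (1 - sA / 2) := by
          simp only [← sum_mul, ← mul_sum, pr_sum, mul_one, kap_sum, one_mul]
      _ ≤ _ := by
          rw [Fintype.sum_prod_type (f := fun i => wt i * (1 + D1 i / 2 - D1 i ^ 2 / 2))]
          refine sum_le_sum fun c _ => ?_
          rw [Fintype.sum_prod_type]
          refine sum_le_sum fun ξ _ => (mul_le_mul_of_nonneg_left (hv c ξ) (hkp c ξ)).trans_eq ?_
          rw [mul_sum]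
          exact sum_congr rfl fun o _ => by simp only [hwt, mul_assoc]
  rw [← mul_sum]
  nlinarith [mul_le_mul_of_nonneg_left h5 hε, mul_nonneg X.ε_nonneg hsA]

/-- For `n` large let `x` be the largest integer with `3 C ^ 2 x ^ (e + lam) ≤ n`; then `mTr n ≥ x ^ y / (6 C)` by
`model_Aff`, `mTr_ge`, while `n ≤ 3 C ^ 2 (2x) ^ (e + lam)`. -/
theorem lower_of_Lev {m e lam p s z : ℕ} (hm : 1 ≤ m) (K : ℕ) (hE : 1 ≤ e + lam)
    (hs : K * (e + lam) < s) (hz : K * (e + lam) < z) (h : Lev m e lam p s z True) :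
    ∃ N : ℕ, ∀ n ≥ N, n ^ K ≤ mTr n := by
  obtain ⟨C, β, hC, -, h⟩ := h
  obtain ⟨x0, h⟩ := eventually_atTop.1 h
  have hC0 : 0 < C := by linarith
  set E := e + lam with hEd
  have key : ∀ x : ℕ, x0 ≤ x → 2 * C ≤ x → ∀ n : ℕ, 3 * C ^ 2 * (x : ℝ) ^ E ≤ n →
      (x : ℝ) ^ (K * E + 1) ≤ 6 * C * mTr n := fun x hx hxC n hn => by
    obtain ⟨X, -, -, ha, hU, -, hD, hl, hε, hB⟩ := h x hx
    have hx1 : (1 : ℝ) ≤ x := by linarith
    have hy : (0 : ℝ) < (x : ℝ) ^ (K * E + 1) := by positivity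
    have hdiv : ∀ t, K * E < t → C / (x : ℝ) ^ t ≤ C / (x : ℝ) ^ (K * E + 1) := fun t ht =>
      div_le_div_of_nonneg_left hC0.le hy (pow_le_pow_right₀ hx1 ht)
    have hδ : 2 * C / (x : ℝ) ^ (K * E + 1) ≤ 1 :=
      (div_le_one hy).2 (hxC.trans (le_self_pow₀ hx1 (by omega)))
    have hA := model_Aff hm X hB
    have hlen : ∀ τ, (word X.U X.V τ (2 * X.a + 1)).length = (2 * X.a + 1) * X.U.length := fun τ => by
      have := word_length X.U X.V τ (2 * X.a + 1)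
      rw [← hl trivial] at this
      omega
    have hn' : (word X.U X.V (fun i => decide (i = 0)) (2 * X.a + 1)).length ≤ n := by
      rw [hlen, ← Nat.cast_le (α := ℝ)]
      refine le_trans ?_ hn
      have ha1 : (1 : ℝ) ≤ X.a := by exact_mod_cast X.a_pos
      calc (((2 * X.a + 1) * X.U.length : ℕ) : ℝ) = (2 * X.a + 1) * X.U.length := by push_cast; ring
        _ ≤ (3 * (C * (x : ℝ) ^ e)) * (C * (x : ℝ) ^ lam) :=
          mul_le_mul (by linarith) hU (Nat.cast_nonneg _) (by positivity)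
        _ = _ := by rw [hEd, pow_add]; ring
    have h3 := mTr_ge _ _ (hD.word (fun i => decide (i = 0)) (fun _ => false) (2 * X.a + 1) 0
      (by omega) (by simp) (by simp)).ne ((hlen _).trans (hlen _).symm) _ hδ (le_trans (by
        have := hdiv s hs
        have := hdiv z hz
        rw [mul_div_assoc]
        linarith) hA) n hn'
    rw [← mul_div_assoc, le_div_iff₀ hy] at h3
    linarith
  obtain ⟨x1, hx1⟩ := exists_nat_ge (max (max (x0 : ℝ) (2 * C)) (6 * C * (3 * C ^ 2 * 2 ^ E) ^ K))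
  obtain ⟨N, hN⟩ := exists_nat_ge (3 * C ^ 2 * (x1 : ℝ) ^ E)
  refine ⟨max N x1, fun n hn => ?_⟩
  classical
  have hP1 : 3 * C ^ 2 * (x1 : ℝ) ^ E ≤ n := hN.trans (Nat.cast_le.2 (le_of_max_le_left hn))
  set x := Nat.findGreatest (fun x : ℕ => 3 * C ^ 2 * (x : ℝ) ^ E ≤ n) n with hxd
  have hx : x1 ≤ x := Nat.le_findGreatest (le_of_max_le_right hn) hP1
  have hP : 3 * C ^ 2 * (x : ℝ) ^ E ≤ n :=
    Nat.findGreatest_spec (P := fun x : ℕ => 3 * C ^ 2 * (x : ℝ) ^ E ≤ n) (le_of_max_le_right hn) hP1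
  have hx' : (x1 : ℝ) ≤ x := Nat.cast_le.2 hx
  simp only [max_le_iff] at hx1
  obtain ⟨⟨h1, h2⟩, h3⟩ := hx1
  have hx1 : (1 : ℝ) ≤ x := by linarith
  have hup : (n : ℝ) ≤ 3 * C ^ 2 * ((x : ℝ) + 1) ^ E := by
    by_cases hc : x + 1 ≤ n
    · have := Nat.findGreatest_is_greatest (P := fun x : ℕ => 3 * C ^ 2 * (x : ℝ) ^ E ≤ n)
        (Nat.lt_succ_self x) hc
      push_cast at this
      exact (not_le.1 this).le
    · have h4 : (n : ℝ) ≤ x + 1 := by exact_mod_cast (not_le.1 hc).le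
      have h5 : (x : ℝ) + 1 ≤ ((x : ℝ) + 1) ^ E := le_self_pow₀ (by linarith) (by omega)
      have h6 : (1 : ℝ) ≤ 3 * C ^ 2 := by nlinarith
      exact h4.trans (h5.trans (le_mul_of_one_le_left (by positivity) h6))
  have hup2 : (n : ℝ) ≤ 3 * C ^ 2 * 2 ^ E * (x : ℝ) ^ E := by
    rw [mul_assoc _ _ (_ ^ E), ← mul_pow]
    exact hup.trans (by gcongr; linarith)
  have hk := key x (by exact_mod_cast h1.trans hx') (h2.trans hx') n hP
  rw [← Nat.cast_le (α := ℝ), ← mul_le_mul_iff_right₀ (show 0 < 6 * C by positivity)]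
  refine le_trans ?_ hk
  calc 6 * C * ((n ^ K : ℕ) : ℝ) ≤ 6 * C * (3 * C ^ 2 * 2 ^ E * (x : ℝ) ^ E) ^ K := by
        push_cast; gcongr
    _ = 6 * C * (3 * C ^ 2 * 2 ^ E) ^ K * (x : ℝ) ^ (K * E) := by
        rw [mul_pow, ← pow_mul, mul_comm E K]; ring
    _ ≤ x * (x : ℝ) ^ (K * E) := mul_le_mul_of_nonneg_right (h3.trans hx') (by positivity)
    _ = _ := by ring

/-- Exponents `(e, lam, p, s)` at level `j + 1`. -/
def expo : ℕ → ℕ × ℕ × ℕ × ℕ
  | 0 => (10, 10, 0, 5)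
  | j + 1 => (2 * (expo j).1 + 10, (expo j).2.1 + (expo j).1 + 10,
      (expo j).2.2.1 + (expo j).2.2.2 - 1, (expo j).2.2.1 + (expo j).2.2.2 + (expo j).1 + 4)

lemma final_expo (j : ℕ) : (expo j).1 + 10 = 20 * 2 ^ j ∧ (expo j).2.1 = (expo j).1 ∧
    5 * (j + 1) * 2 ^ j ≤ (expo j).2.2.1 + (expo j).2.2.2 := by
  induction j with
  | zero => simp [expo]
  | succ j ih =>
    obtain ⟨h1, h2, h3⟩ := ih
    have h4 : 1 ≤ 2 ^ j := Nat.one_le_two_pow
    have h5 : 5 * (j + 1 + 1) * 2 ^ (j + 1) = 2 * (5 * (j + 1) * 2 ^ j) + 10 * 2 ^ j := by ring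
    have h6 : 5 * 1 * 1 ≤ 5 * (j + 1) * 2 ^ j := by gcongr; omega
    simp only [expo]
    rw [h5]
    omega

/-- With `y j = p + s`: `e j = lam j = 10 (2 ^ (j+1) - 1)`, `y (j+1) = 2 y j + e j + 3`, so `y j ≥ 5 (j+1) 2 ^ j` and
`s (j+1) ≥ y j`.  Fix `J = 16 (K+1)`, `T` large for all levels `j ≤ J` (`e`, `y` are monotone), and induct on `j` with all `z`. -/
theorem superpoly (K : ℕ) : ∃ N : ℕ, ∀ n ≥ N, n ^ K ≤ mTr n := by
  obtain ⟨T, hT⟩ : ∃ T : ℕ, ∀ j ≤ 16 * K,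
      2 * ((expo j).2.2.1 + (expo j).2.2.2) + 7 * (expo j).1 + 43 ≤ T :=
    ⟨_, fun j hj => le_sup (f := fun j => 2 * ((expo j).2.2.1 + (expo j).2.2.2) + 7 * (expo j).1 + 43)
      (mem_range.2 (Nat.lt_succ_of_le hj))⟩
  have hT1 : 1 ≤ T := by have := hT 0 (by omega); omega
  have hm : 1 ≤ 2 ^ T := Nat.one_le_two_pow
  have hy : ∀ j, 1 ≤ (expo j).2.2.1 + (expo j).2.2.2 := fun j =>
    le_trans (by positivity : 0 < 5 * (j + 1) * 2 ^ j) (final_expo j).2.2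
  have step : ∀ j ≤ 16 * K, (∀ z, ∃ q, Lev (2 ^ T) (expo j).1 (expo j).2.1 (expo j).2.2.1
      (expo j).2.2.2 z q) → ∀ z, Lev (2 ^ T) (expo (j + 1)).1 (expo (j + 1)).2.1 (expo (j + 1)).2.2.1
      (expo (j + 1)).2.2.2 z True := fun j hj h z => by
    obtain ⟨q, hq⟩ := h (z + 3 * (expo j).1 + 20)
    exact lev_step T _ _ _ _ z q hT1 (hy j) (by have := hT j hj; omega) hq
  have all : ∀ j ≤ 16 * K, ∀ z, ∃ q, Lev (2 ^ T) (expo j).1 (expo j).2.1 (expo j).2.2.1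
      (expo j).2.2.2 z q := fun j => by
    induction j with
    | zero => exact fun _ z => ⟨False, lev_one _ z hm⟩
    | succ j ih => exact fun hj z => ⟨True, step j (by omega) (ih (by omega)) z⟩
  refine lower_of_Lev hm K ?_ ?_ (Nat.lt_succ_self _) (step _ le_rfl (all _ le_rfl) _)
  · simp only [expo]; omega
  · obtain ⟨h1, h2, h3⟩ := final_expo (16 * K)
    have h4 : K * (2 * (expo (16 * K)).1 + 10 + ((expo (16 * K)).2.1 + (expo (16 * K)).1 + 10)) ≤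
        K * (80 * 2 ^ (16 * K)) := Nat.mul_le_mul_left _ (by omega)
    have h5 : 5 * (16 * K + 1) * 2 ^ (16 * K) = K * (80 * 2 ^ (16 * K)) + 5 * 2 ^ (16 * K) := by ring
    rw [show expo (16 * K + 1) = _ from expo.eq_2 _]
    dsimp only
    omega

end Pool.Agent.Lib.MP_343fe0_pr
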