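import Pool.Agent.Lib.MP_343fe0_pr.Rep2
import Pool.Agent.Lib.MP_343fe0_pr.Bridge
import Pool.Agent.Lib.MP_343fe0_pr.Anneal

set_option autoImplicit false

/-! The main second moment bound. -/

namespace Pool.Agent.Lib.MP_343fe0_pr

open Finset

lemma hh_arr (m a : ℕ) (ΩA sA Ω2 : ℝ) (P : Finset ℕ) : hh m a ΩA sA Ω2 (arr P) = hA m a ΩA sA := by
  simp only [hh, hA, arr, alB, if_true, Bool.false_eq_true, if_false]
  ring

lemma main2_alB_nonneg (b : Bool) : 0 ≤ alB b := by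
  unfold alB; split_ifs <;> norm_num

lemma main2_alpha_nonneg (sp : Spec) : 0 ≤ alpha sp :=
  mul_nonneg (main2_alB_nonneg _) (main2_alB_nonneg _)

lemma main2_kk_nonneg (m : ℕ) : 0 ≤ kk m := by unfold kk; positivity

lemma main2_hh_nonneg (m a : ℕ) {ΩA sA Ω2 : ℝ} (h1 : 0 ≤ ΩA) (h2 : 0 ≤ sA) (h3 : 0 ≤ Ω2) (sp : Spec) :
    0 ≤ hh m a ΩA sA Ω2 sp := by
  have e1 : 0 ≤ (if sp.1.e then Ω2 else ΩA) := by split_ifs <;> assumption
  have e2 : 0 ≤ (if sp.2.e then Ω2 else ΩA) := by split_ifs <;> assumption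
  have e3 : 0 ≤ (if sp.2.e then Ω2 else sA) := by split_ifs <;> assumption
  have a1 := main2_alB_nonneg sp.1.al
  have a2 := main2_alB_nonneg sp.2.al
  have k := main2_kk_nonneg m
  unfold hh
  positivity

lemma main2_alpha_arr (P : Finset ℕ) : alpha (arr P) = 1 := by simp [alpha, arr, alB]

lemma main2_specOK_arr {m : ℕ} {P : Finset ℕ} (h : P ⊆ range m) : SpecOK m (arr P) := ⟨h, h⟩

lemma main2_s_le_zz {a M s : ℕ} (hM : 1 ≤ M) (hs : s ≤ 2 * a + 1) (i : ℕ) : s ≤ zz a M i := by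
  unfold zz HH
  have : (2 * a + 1) * 1 ≤ (2 * a + 1) * M := Nat.mul_le_mul_left _ hM
  omega

/-- The collision times of a first path. -/
noncomputable def main2T {a : ℕ} (M K s R : ℕ) (c : ℕ → Ctx a) (ξ : ℕ → Bool) (n : ℕ) : ℕ :=
  if n = 0 then 0 else if n ≤ K then r0 s c ξ (zz a M (n - 1)) + 1 else R - 1

lemma main2T_gap {a : ℕ} (ha : 1 ≤ a) {M K s R : ℕ} (hM : 2 ≤ M) (hK : 1 ≤ K) (hs : s ≤ 2 * a + 1)
    {c : ℕ → Ctx a} {ξ : ℕ → Bool} {ℓ : Lab a} (h : End s (K * LL a M) c ξ R ℓ) {l i : ℕ}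
    (hli : l < i) (hi : i ≤ K + 1) :
    main2T M K s R c ξ l + M * (i - l) ≤ main2T M K s R c ξ i + 2 ∧ main2T M K s R c ξ i ≤ R := by
  have hM1 : 1 ≤ M := by omega
  have hR1 := h.one_le
  have hRge := End_R_ge hs h
  obtain ⟨i', rfl⟩ : ∃ i', i = i' + 1 := ⟨i - 1, by omega⟩
  by_cases hiK : i' + 1 ≤ K
  · have hi'K : i' < K := by omega
    have hlast := r0_last ha hM1 hs hi'K h
    have hMK : 2 * M * 1 ≤ 2 * M * (K - i') := Nat.mul_le_mul_left _ (by omega)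
    have ti : main2T M K s R c ξ (i' + 1) = r0 s c ξ (zz a M i') + 1 := by
      simp [main2T, hiK]
    rw [ti]
    refine ⟨?_, by omega⟩
    rcases Nat.eq_zero_or_pos l with rfl | hl
    · have hf := r0_first ha hM1 hs i' c ξ
      have t0 : main2T M K s R c ξ 0 = 0 := by simp [main2T]
      rw [t0]
      have : M * (i' + 1 - 0) ≤ 2 * M * i' + M := by
        rw [Nat.sub_zero, Nat.mul_succ]
        have : M * i' ≤ 2 * M * i' := by nlinarith
        omega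
      omega
    · obtain ⟨l', rfl⟩ : ∃ l', l = l' + 1 := ⟨l - 1, by omega⟩
      have tl : main2T M K s R c ξ (l' + 1) = r0 s c ξ (zz a M l') + 1 := by
        have : l' + 1 ≤ K := by omega
        simp [main2T, this]
      rw [tl]
      have hg := r0_gap ha hM1 hs (show l' ≤ i' by omega) c ξ
      have e : i' + 1 - (l' + 1) = i' - l' := by omega
      rw [e]
      have : M * (i' - l') ≤ 2 * M * (i' - l') := by nlinarith
      omega
  · have hi'K : i' = K := by omega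
    subst hi'K
    have ti : main2T M i' s R c ξ (i' + 1) = R - 1 := by simp [main2T]
    rw [ti]
    refine ⟨?_, by omega⟩
    rcases Nat.eq_zero_or_pos l with rfl | hl
    · have t0 : main2T M i' s R c ξ 0 = 0 := by simp [main2T]
      rw [t0]
      have : M * (i' + 1 - 0) ≤ 2 * M * i' := by
        rw [Nat.sub_zero]; nlinarith
      omega
    · obtain ⟨l', rfl⟩ : ∃ l', l = l' + 1 := ⟨l - 1, by omega⟩
      have tl : main2T M i' s R c ξ (l' + 1) = r0 s c ξ (zz a M l') + 1 := by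
        have : l' + 1 ≤ i' := by omega
        simp [main2T, this]
      rw [tl]
      have hlast := r0_last ha hM1 hs (show l' < i' by omega) h
      have e : i' + 1 - (l' + 1) = i' - l' := by omega
      rw [e]
      obtain ⟨d, hd⟩ : ∃ d, i' - l' = d + 1 := ⟨i' - l' - 1, by omega⟩
      rw [hd] at hlast ⊢
      have : M * (d + 1) + M ≤ 2 * M * (d + 1) := by nlinarith
      omega

lemma main2_ff_eq (β : ℝ) (M : ℕ) :
    (fun d : ℕ => 4 / √(β * M / 4 * d)) = ff β M := by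
  funext d
  unfold ff
  have e : β * M / 4 * d = (β * M * d) / 2 ^ 2 := by ring
  rw [e, Real.sqrt_div' _ (by positivity), Real.sqrt_sq (by norm_num)]
  by_cases h : √(β * M * d) = 0
  · simp [h]
  · field_simp
    norm_num

lemma main2_ff_nonneg (β : ℝ) (M d : ℕ) : 0 ≤ ff β M d := by unfold ff; positivity

lemma main2_ff_phi {β : ℝ} (hβ : 0 < β) (M : ℕ) :
    ff β M = fun d : ℕ => (8 / √(β * M)) / √(d : ℝ) := by
  funext d
  unfold ff
  rw [Real.sqrt_mul (by positivity), div_div]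

lemma main2_QX_mono {a : ℕ} (c : ℕ → Ctx a) (n : ℕ) {F G : (ℕ → Bool) → ℝ} (h : ∀ ξ, F ξ ≤ G ξ) :
    QX c n F ≤ QX c n G :=
  EX_mono (fun r θ => pr_nonneg (by norm_num) (by norm_num) (c r) θ) n h

lemma main2_QX_nonneg {a : ℕ} (c : ℕ → Ctx a) (n : ℕ) {F : (ℕ → Bool) → ℝ} (h : ∀ ξ, 0 ≤ F ξ) :
    0 ≤ QX c n F :=
  EX_nonneg (fun r θ => pr_nonneg (by norm_num) (by norm_num) (c r) θ) n h

/-- The second replica on good data. -/
lemma main2_bridge {a : ℕ} (ha : 1 ≤ a) {β b : ℝ} (hβ : 0 < β) {M K s R : ℕ} (hM : 2 ≤ M)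
    (hK : 1 ≤ K) (hs : s ≤ 2 * a + 1) (hL : 6 * M * K ≤ LL a M ^ 2) (hb : b + β ≤ β * M / 4)
    {c : ℕ → Ctx a} {ξ : ℕ → Bool} {ℓ : Lab a} (h : End s (K * LL a M) c ξ R ℓ)
    (hg : Good β b s (K * LL a M) c R ℓ) (α y : ℕ → ℝ) (hα : ∀ i, 0 ≤ α i) (hy : ∀ i, 0 ≤ y i) :
    QX c R (fun ξ' => ind (End s (K * LL a M) c ξ' R ℓ) *
        ∏ i ∈ range K, (α i + y i * ind (pos s c ξ' (r0 s c ξ (zz a M i) + 1) ≡
          pos s c ξ (r0 s c ξ (zz a M i) + 1) [MOD LL a M]))) ≤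
      gg s (K * LL a M) c R ℓ * (4 * √(6 * (M : ℝ) * K) * Chain (ff β M) α y K 0 0) := by
  have hMpos : (0 : ℝ) < M := by exact_mod_cast (show 0 < M by omega)
  have hRle := End_R_le ha h
  have hL1 : 1 ≤ LL a M := by
    unfold LL HH
    have : 1 * 1 ≤ (2 * a + 1) * M := Nat.mul_le_mul (by omega) (by omega)
    omega
  have key := bridge s (K * LL a M) R (LL a M) K c ℓ (β * M / 4) (by positivity)
    (main2T M K s R c ξ) (fun i => pos s c ξ (r0 s c ξ (zz a M i) + 1)) α y hα hy hL1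
    (hRle.trans hL) (by simp [main2T]) (by simp [main2T])
    (fun i hi => by
      have := (main2T_gap ha hM hK hs h (Nat.lt_succ_self i) (by omega)).1
      have e : i + 1 - i = 1 := by omega
      simp only [Nat.succ_eq_add_one] at this
      rw [e] at this
      omega)
    (fun l i hli hi => by
      obtain ⟨g1, g2⟩ := main2T_gap ha hM hK hs h hli hi
      obtain ⟨d, rfl⟩ : ∃ d, i = l + (d + 1) := ⟨i - l - 1, by omega⟩
      have e : l + (d + 1) - l = d + 1 := by omega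
      rw [e] at g1
      have hle : main2T M K s R c ξ l ≤ main2T M K s R c ξ (l + (d + 1)) := by
        have : M * 1 ≤ M * (d + 1) := Nat.mul_le_mul_left _ (by omega)
        omega
      have g3 := hg.1 _ _ hle g2
      have g1' : (main2T M K s R c ξ l : ℝ) + M * (d + 1) ≤ main2T M K s R c ξ (l + (d + 1)) + 2 := by
        exact_mod_cast g1
      have hd : (0 : ℝ) ≤ d := Nat.cast_nonneg d
      push_cast
      have e2 : β * M / 4 * ((l : ℝ) + (d + 1) - l) = β * M / 4 * (d + 1) := by ring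
      rw [e2]
      have hβM : 0 ≤ β * M * d := by positivity
      nlinarith)
    hg.2.1 hg.2.2
  rw [main2_ff_eq β] at key
  have e : (fun ξ' => ind (End s (K * LL a M) c ξ' R ℓ) *
        ∏ i ∈ range K, (α i + y i * ind (pos s c ξ' (r0 s c ξ (zz a M i) + 1) ≡
          pos s c ξ (r0 s c ξ (zz a M i) + 1) [MOD LL a M]))) =
      fun ξ' => ind (End s (K * LL a M) c ξ' R ℓ) *
        ∏ i ∈ range K, (α i + y i * ind (pos s c ξ' (main2T M K s R c ξ (i + 1)) ≡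
          pos s c ξ (r0 s c ξ (zz a M i) + 1) [MOD LL a M])) := by
    funext ξ'
    congr 1
    refine prod_congr rfl fun i hi => ?_
    have hi' : i + 1 ≤ K := mem_range.1 hi
    have ti : main2T M K s R c ξ (i + 1) = r0 s c ξ (zz a M i) + 1 := by simp [main2T, hi']
    rw [ti]
  rw [e]
  refine key.trans (mul_le_mul_of_nonneg_left ?_ (gg_nonneg _ _ _ _ _))
  refine mul_le_mul_of_nonneg_right ?_ (Chain_nonneg (main2_ff_nonneg β M) hα hy _ _ _)
  refine mul_le_mul_of_nonneg_left (Real.sqrt_le_sqrt ?_) (by norm_num)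
  exact_mod_cast hRle

lemma main2_atZ_congr {a : ℕ} (ha : 1 ≤ a) {M K s R i : ℕ} (hM : 2 ≤ M) (hs : s ≤ 2 * a + 1)
    (hi : i < K) (y : ℕ → Ctx a → Bool → Ctx a → Bool → ℝ) {c c' : ℕ → Ctx a} {ξ ξ' : ℕ → Bool}
    (hc : ∀ r < R, c r = c' r) (hξ : ∀ r < R, ξ r = ξ' r) (h : K * LL a M ≤ pos s c ξ R) :
    atZ y s (zz a M i) c ξ = atZ y s (zz a M i) c' ξ' := by
  have hM1 : 1 ≤ M := by omega
  have hlast := r0_last' ha hM1 hs hi h
  have hMK : 2 * M * 1 ≤ 2 * M * (K - i) := Nat.mul_le_mul_left _ (by omega)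
  have h1 : r0 s c ξ (zz a M i) + 1 < R := by omega
  have h0 : r0 s c ξ (zz a M i) < R := by omega
  have e := r0_congr ha (main2_s_le_zz hM1 hs i) hc hξ h0
  unfold atZ
  rw [e, hc _ h0, hc _ h1, hξ _ h0, hξ _ h1,
    pos_congr s (c := c) (c' := c') (ξ := ξ) (ξ' := ξ') (fun r hr => hc r (by omega))
      (fun r hr => hξ r (by omega))]

namespace Model

variable {m : ℕ} (X : Model m)

lemma Bd.nonneg {X : Model m} {ΩA sA Ω2 δ : ℝ} (h : X.Bd ΩA sA Ω2 δ) :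
    0 ≤ ΩA ∧ 0 ≤ sA ∧ 0 ≤ Ω2 ∧ 0 ≤ δ := by
  obtain ⟨h1, ⟨W⟩⟩ := h
  refine ⟨?_, ?_, ?_, ?_⟩
  · simpa using W.sum false default false ∅
  · exact (W.nonneg false default false 0).trans (W.sup default false 0)
  · simpa using W.sum true default false ∅
  · exact (abs_nonneg _).trans (h1 default false ∅ default)

lemma Bd.mono {X : Model m} {ΩA sA Ω2 δ ΩA' sA' Ω2' δ' : ℝ} (h : X.Bd ΩA sA Ω2 δ) (h1 : ΩA ≤ ΩA')
    (h2 : sA ≤ sA') (h3 : Ω2 ≤ Ω2') (h4 : δ ≤ δ') : X.Bd ΩA' sA' Ω2' δ' := by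
  obtain ⟨hd, ⟨W⟩⟩ := h
  refine ⟨fun c ξ S o => (hd c ξ S o).trans h4, ⟨⟨W.w, W.nonneg, fun c ξ u => (W.sup c ξ u).trans h2,
    fun e c ξ s => (W.sum e c ξ s).trans ?_, W.dom⟩⟩⟩
  split_ifs <;> assumption

lemma main2_Yw_nonneg {ΩA sA Ω2 : ℝ} (W : X.Wts ΩA sA Ω2) (sp : Spec) (u : ℕ)
    (c0 : Ctx X.a) (ξ0 : Bool) (c1 : Ctx X.a) (ξ1 : Bool) : 0 ≤ X.Yw W sp u c0 ξ0 c1 ξ1 := by
  have a1 := main2_alB_nonneg sp.1.al
  have a2 := main2_alB_nonneg sp.2.al
  have k := main2_kk_nonneg m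
  have w1 := W.nonneg sp.1.e c0 ξ0 u
  have w2 := W.nonneg sp.2.e c1 ξ1 ((u : ℤ) - stp c0 ξ0)
  unfold Yw
  positivity

lemma main2_w_sum {ΩA sA Ω2 : ℝ} (W : X.Wts ΩA sA Ω2) (e : Bool) (c : Ctx X.a) (ξ : Bool) (n : ℕ)
    (d : ℤ) : ∑ u ∈ range n, W.w e c ξ ((u : ℤ) - d) ≤ if e then Ω2 else ΩA := by
  have h := W.sum e c ξ ((range n).image fun u : ℕ => (u : ℤ) - d)
  rw [sum_image (fun x _ y _ hxy => by simpa using hxy)] at h
  exact h

/-- The annealed weight of a cluster. -/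
lemma main2_Y {ΩA sA Ω2 : ℝ} (W : X.Wts ΩA sA Ω2) (sp : Spec) :
    ∑ u ∈ range (2 * X.a + 1), ∑ c0, ∑ ξ0, ∑ c1, ∑ ξ1,
      kap X.β c0 * pr (1 / 2) c0 ξ0 * (kap X.β c1 * pr (1 / 2) c1 ξ1) * X.Yw W sp u c0 ξ0 c1 ξ1 ≤
      kk m * (alB sp.2.al * (if sp.1.e then Ω2 else ΩA) +
        alB sp.1.al * (if sp.2.e then Ω2 else ΩA) +
        kk m * (if sp.1.e then Ω2 else ΩA) * (if sp.2.e then Ω2 else sA)) := by
  set Y : ℝ := kk m * (alB sp.2.al * (if sp.1.e then Ω2 else ΩA) +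
        alB sp.1.al * (if sp.2.e then Ω2 else ΩA) +
        kk m * (if sp.1.e then Ω2 else ΩA) * (if sp.2.e then Ω2 else sA)) with hY
  have a1 := main2_alB_nonneg sp.1.al
  have a2 := main2_alB_nonneg sp.2.al
  have k := main2_kk_nonneg m
  have hβ0 : 0 ≤ X.β := X.β_pos.le
  have hβ1 : X.β ≤ 1 := X.β_le.trans (by norm_num)
  have step : ∀ c0 ξ0 c1 ξ1, ∑ u ∈ range (2 * X.a + 1), X.Yw W sp u c0 ξ0 c1 ξ1 ≤ Y := by
    intro c0 ξ0 c1 ξ1
    have s1 := X.main2_w_sum W sp.1.e c0 ξ0 (2 * X.a + 1) 0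
    simp only [sub_zero] at s1
    have s2 := X.main2_w_sum W sp.2.e c1 ξ1 (2 * X.a + 1) (stp c0 ξ0)
    have hsup : ∀ u : ℤ, W.w sp.2.e c1 ξ1 u ≤ if sp.2.e then Ω2 else sA := by
      intro u
      cases he : sp.2.e
      · simpa using W.sup c1 ξ1 u
      · simpa using W.sum true c1 ξ1 {u}
    have hs0 : 0 ≤ if sp.2.e then Ω2 else sA := (W.nonneg _ _ _ 0).trans (hsup 0)
    have s3 : ∑ u ∈ range (2 * X.a + 1), W.w sp.1.e c0 ξ0 u * W.w sp.2.e c1 ξ1 ((u : ℤ) - stp c0 ξ0) ≤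
        (if sp.1.e then Ω2 else ΩA) * (if sp.2.e then Ω2 else sA) := by
      calc _ ≤ ∑ u ∈ range (2 * X.a + 1), W.w sp.1.e c0 ξ0 u * (if sp.2.e then Ω2 else sA) :=
            sum_le_sum fun u _ => mul_le_mul_of_nonneg_left (hsup _) (W.nonneg _ _ _ _)
        _ = (∑ u ∈ range (2 * X.a + 1), W.w sp.1.e c0 ξ0 u) * (if sp.2.e then Ω2 else sA) := by
            rw [sum_mul]
        _ ≤ _ := mul_le_mul_of_nonneg_right s1 hs0
    have e : ∑ u ∈ range (2 * X.a + 1), X.Yw W sp u c0 ξ0 c1 ξ1 =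
        kk m * (alB sp.2.al * ∑ u ∈ range (2 * X.a + 1), W.w sp.1.e c0 ξ0 u +
          alB sp.1.al * ∑ u ∈ range (2 * X.a + 1), W.w sp.2.e c1 ξ1 ((u : ℤ) - stp c0 ξ0) +
          kk m * ∑ u ∈ range (2 * X.a + 1),
            W.w sp.1.e c0 ξ0 u * W.w sp.2.e c1 ξ1 ((u : ℤ) - stp c0 ξ0)) := by
      simp only [mul_sum, ← sum_add_distrib]
      refine sum_congr rfl fun u _ => ?_
      unfold Yw
      ring
    rw [e, hY]
    refine mul_le_mul_of_nonneg_left ?_ k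
    refine add_le_add (add_le_add (mul_le_mul_of_nonneg_left s1 a2) (mul_le_mul_of_nonneg_left s2 a1)) ?_
    rw [mul_assoc]
    exact mul_le_mul_of_nonneg_left s3 k
  have hw : ∀ (c : Ctx X.a) (ξ : Bool), 0 ≤ kap X.β c * pr (1 / 2) c ξ := fun c ξ =>
    mul_nonneg (kap_nonneg hβ0 hβ1 c) (pr_nonneg (by norm_num) (by norm_num) c ξ)
  have tot : ∑ c : Ctx X.a, ∑ ξ : Bool, kap X.β c * pr (1 / 2) c ξ = 1 := by
    simp only [← mul_sum, pr_sum, mul_one, kap_sum]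
  calc _ = ∑ c0, ∑ ξ0, ∑ c1, ∑ ξ1, kap X.β c0 * pr (1 / 2) c0 ξ0 * (kap X.β c1 * pr (1 / 2) c1 ξ1) *
          ∑ u ∈ range (2 * X.a + 1), X.Yw W sp u c0 ξ0 c1 ξ1 := by
        rw [sum_comm]
        refine sum_congr rfl fun c0 _ => ?_
        rw [sum_comm]
        refine sum_congr rfl fun ξ0 _ => ?_
        rw [sum_comm]
        refine sum_congr rfl fun c1 _ => ?_
        rw [sum_comm]
        refine sum_congr rfl fun ξ1 _ => ?_
        rw [mul_sum]
    _ ≤ ∑ c0 : Ctx X.a, ∑ ξ0, ∑ c1 : Ctx X.a, ∑ ξ1,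
          kap X.β c0 * pr (1 / 2) c0 ξ0 * (kap X.β c1 * pr (1 / 2) c1 ξ1) * Y :=
        sum_le_sum fun c0 _ => sum_le_sum fun ξ0 _ => sum_le_sum fun c1 _ => sum_le_sum fun ξ1 _ =>
          mul_le_mul_of_nonneg_left (step c0 ξ0 c1 ξ1) (mul_nonneg (hw _ _) (hw _ _))
    _ = Y := by
        simp only [← sum_mul, ← mul_sum]
        simp only [pr_sum, mul_one, kap_sum, one_mul]

/-- `Tot_le_of_EX` and `rep2`; on good data and for a first path with `End`, `bridge` with `γ = β M / 4`, `t 0 = 0`,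
`t (i+1) = r0 i + 1` (`i < K`), `t (K+1) = R - 1` (all gaps are at least `M d - 2` steps: `r0_first`, `r0_gap`, `r0_last`,
`End_R_ge`; `R ≤ 6 M K ≤ L ^ 2`: `End_R_le`); note `4 / √(β M / 4 * d) = ff β M d` and `gg * B / gg ≤ B`.
Then `Tot_QX`, `stop_le` (`r0_last'`, `r0_congr`) and `anneal_chain` with `5 / (a+1) * Y i = hh .. (sp j i)`. -/
theorem main2 {ΩA sA Ω2 δ : ℝ} (hB : X.Bd ΩA sA Ω2 δ) {M K s N : ℕ} {b : ℝ} (G : X.Geo M K s N b)
    {J : Type} (sJ : Finset J) (x : J → ℝ) (sp : J → ℕ → Spec)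
    (hsp : ∀ j i, SpecOK m (sp j i)) (i1 : J → ℕ) (hi : ∀ j ∈ sJ, i1 j < K)
    (hinj : Set.InjOn i1 sJ) (hal : ∀ j ∈ sJ, alpha (sp j (i1 j)) = 0) :
    X.Tot N (fun c o R ℓ => ind (Good X.β b s (K * LL X.a M) c R ℓ) *
        (∑ j ∈ sJ, x j * X.Tm M s K (sp j) c o R ℓ) ^ 2 / gg s (K * LL X.a M) c R ℓ) ≤
      ∑ j ∈ sJ, x j ^ 2 * (4 * √(6 * (M : ℝ) * K) *
        Chain (ff X.β M) (fun i => alpha (sp j i)) (fun i => hh m X.a ΩA sA Ω2 (sp j i)) K 0 0) := by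
  obtain ⟨-, ⟨W⟩⟩ := hB
  have hβ0 : 0 ≤ X.β := X.β_pos.le
  have hβ1 : X.β ≤ 1 := X.β_le.trans (by norm_num)
  set Ψ : J → (ℕ → Ctx X.a) → (ℕ → Bool) → ℝ := fun j c ξ => 4 * √(6 * (M : ℝ) * K) *
    Chain (ff X.β M) (fun i => alpha (sp j i))
      (fun i => atZ (X.Yw W (sp j i)) s (zz X.a M i) c ξ) K 0 0 with hΨ
  have hat : ∀ j i c ξ, 0 ≤ atZ (X.Yw W (sp j i)) s (zz X.a M i) c ξ := fun j i c ξ =>
    X.main2_Yw_nonneg W _ _ _ _ _ _
  have hΨ0 : ∀ j c ξ, 0 ≤ Ψ j c ξ := fun j c ξ =>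
    mul_nonneg (by positivity) (Chain_nonneg (main2_ff_nonneg _ _)
      (fun i => main2_alpha_nonneg _) (fun i => hat j i c ξ) _ _ _)
  have step1 : X.Tot N (fun c o R ℓ => ind (Good X.β b s (K * LL X.a M) c R ℓ) *
        (∑ j ∈ sJ, x j * X.Tm M s K (sp j) c o R ℓ) ^ 2 / gg s (K * LL X.a M) c R ℓ) ≤
      X.Tot N (fun c _ R ℓ => ∑ j ∈ sJ, x j ^ 2 *
        QX c R fun ξ => ind (End s (K * LL X.a M) c ξ R ℓ) * Ψ j c ξ) := by
    refine X.Tot_le_of_EX N fun c R ℓ => ?_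
    have hB0 : 0 ≤ ∑ j ∈ sJ, x j ^ 2 *
        QX c R fun ξ => ind (End s (K * LL X.a M) c ξ R ℓ) * Ψ j c ξ :=
      sum_nonneg fun j _ => mul_nonneg (sq_nonneg _)
        (main2_QX_nonneg c R fun ξ => mul_nonneg (ind_nonneg _) (hΨ0 j c ξ))
    by_cases hg : Good X.β b s (K * LL X.a M) c R ℓ
    · have e : (fun o => ind (Good X.β b s (K * LL X.a M) c R ℓ) *
          (∑ j ∈ sJ, x j * X.Tm M s K (sp j) c o R ℓ) ^ 2 / gg s (K * LL X.a M) c R ℓ) =
          fun o => (∑ j ∈ sJ, x j * X.Tm M s K (sp j) c o R ℓ) ^ 2 *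
            (gg s (K * LL X.a M) c R ℓ)⁻¹ := by
        funext o
        rw [ind_true hg, one_mul, div_eq_mul_inv]
      rw [e, EX_mul_right]
      have r := X.rep2 W K G.hM G.hs sJ x sp hsp i1 hi hinj hal c R ℓ
      have r2 : EX (fun r => X.ν (c r)) R
            (fun o => (∑ j ∈ sJ, x j * X.Tm M s K (sp j) c o R ℓ) ^ 2) ≤
          (∑ j ∈ sJ, x j ^ 2 * QX c R fun ξ => ind (End s (K * LL X.a M) c ξ R ℓ) * Ψ j c ξ) *
            gg s (K * LL X.a M) c R ℓ := by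
        refine r.trans ?_
        rw [sum_mul]
        refine sum_le_sum fun j _ => ?_
        rw [mul_assoc]
        refine mul_le_mul_of_nonneg_left ?_ (sq_nonneg _)
        have e2 : (QX c R fun ξ => ind (End s (K * LL X.a M) c ξ R ℓ) * Ψ j c ξ) *
            gg s (K * LL X.a M) c R ℓ =
            QX c R fun ξ => ind (End s (K * LL X.a M) c ξ R ℓ) * Ψ j c ξ *
              gg s (K * LL X.a M) c R ℓ := by
          unfold QX
          rw [EX_mul_right]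
        rw [e2]
        refine main2_QX_mono c R fun ξ => ?_
        by_cases hE : End s (K * LL X.a M) c ξ R ℓ
        · rw [ind_true hE, one_mul, one_mul, mul_comm (Ψ j c ξ)]
          exact main2_bridge X.a_pos X.β_pos G.hM G.hK G.hs G.hL G.hb hE hg _ _
            (fun i => main2_alpha_nonneg _) (fun i => hat j i c ξ)
        · rw [ind_false hE]; simp
      rcases (gg_nonneg s (K * LL X.a M) R c ℓ).eq_or_lt with h0 | h0
      · rw [← h0]; simpa using hB0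
      · rw [← div_eq_mul_inv, div_le_iff₀ h0]
        exact r2
    · have e : (fun o => ind (Good X.β b s (K * LL X.a M) c R ℓ) *
          (∑ j ∈ sJ, x j * X.Tm M s K (sp j) c o R ℓ) ^ 2 / gg s (K * LL X.a M) c R ℓ) =
          fun _ => 0 := by
        funext o
        rw [ind_false hg, zero_mul, zero_div]
      rw [e, EX_zero_fun]
      exact hB0
  refine step1.trans ?_
  rw [X.Tot_sum N sJ (fun j c _ R ℓ => x j ^ 2 *
    QX c R fun ξ => ind (End s (K * LL X.a M) c ξ R ℓ) * Ψ j c ξ)]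
  refine sum_le_sum fun j _ => ?_
  rw [X.Tot_mul_left N (x j ^ 2) (fun c _ R ℓ =>
    QX c R fun ξ => ind (End s (K * LL X.a M) c ξ R ℓ) * Ψ j c ξ)]
  refine mul_le_mul_of_nonneg_left ?_ (sq_nonneg _)
  rw [X.Tot_QX N (fun c ξ R ℓ => ind (End s (K * LL X.a M) c ξ R ℓ) * Ψ j c ξ)]
  refine (stop_le X.a_pos hβ0 hβ1 s (K * LL X.a M) N (Ψ j) (hΨ0 j) ?_).trans ?_
  · intro R c c' ξ ξ' hc hξ hE
    simp only [hΨ]
    congr 1
    refine Chain_congr _ _ _ (fun _ _ _ => rfl) fun i _ hi' => ?_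
    exact main2_atZ_congr X.a_pos G.hM G.hs (by omega) _ hc hξ hE
  · simp only [hΨ]
    rw [AX_mul_left]
    refine mul_le_mul_of_nonneg_left ?_ (by positivity)
    exact anneal_chain X.a_pos hβ0 hβ1 G.hM G.hs G.hN (fun i => X.Yw W (sp j i))
      (fun i u c0 ξ0 c1 ξ1 => X.main2_Yw_nonneg W _ _ _ _ _ _) _
      (fun i => X.main2_Y W (sp j i)) (ff X.β M) (fun i => alpha (sp j i))
      (main2_ff_nonneg _ _) (fun i => main2_alpha_nonneg _)

lemma main2_small {ΩA sA : ℝ} {M K : ℕ} (hM : 2 ≤ M)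
    (hch : 64 * hA m X.a ΩA sA * √((K : ℝ) + 1) ≤ √(X.β * M)) :
    8 * (8 / √(X.β * M)) * hA m X.a ΩA sA * √((K : ℝ) + 1) ≤ 1 := by
  have hMpos : (0 : ℝ) < M := by exact_mod_cast (show 0 < M by omega)
  have hβ := X.β_pos
  have hs : 0 < √(X.β * M) := Real.sqrt_pos.2 (by positivity)
  have e : 8 * (8 / √(X.β * M)) * hA m X.a ΩA sA * √((K : ℝ) + 1) =
      (64 * hA m X.a ΩA sA * √((K : ℝ) + 1)) / √(X.β * M) := by
    ring
  rw [e, div_le_one hs]
  exact hch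

lemma main2_sqrt6 : √(6 : ℝ) ≤ 5 / 2 := by
  rw [Real.sqrt_le_iff]; norm_num

/-- One item: `main2` and `chain_one` with `φ = 8 / √(β M)`; `4 √6 * 4 * 64 ≤ 2600`. -/
theorem main_one {ΩA sA Ω2 δ : ℝ} (hB : X.Bd ΩA sA Ω2 δ) {M K s N : ℕ} {b : ℝ} (G : X.Geo M K s N b)
    (hch : 64 * hA m X.a ΩA sA * √((K : ℝ) + 1) ≤ √(X.β * M))
    {J : Type} (sJ : Finset J) (x : J → ℝ) (P : J → ℕ → Finset ℕ) (hP : ∀ j i, P j i ⊆ range m)
    (i1 : J → ℕ) (hi : ∀ j ∈ sJ, i1 j < K) (hinj : Set.InjOn i1 sJ)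
    (q : Spec) (hq : SpecOK m q) (hal : alpha q = 0) (h : ℝ) (hh1 : hh m X.a ΩA sA Ω2 q ≤ h) :
    X.Tot N (fun c o R ℓ => ind (Good X.β b s (K * LL X.a M) c R ℓ) *
        (∑ j ∈ sJ, x j * X.Tm M s K (Function.update (fun i => arr (P j i)) (i1 j) q) c o R ℓ) ^ 2 /
          gg s (K * LL X.a M) c R ℓ) ≤
      ∑ j ∈ sJ, x j ^ 2 * (2600 * h * √(K : ℝ) / (X.β * √(M : ℝ)) /
        (√((i1 j : ℝ) + 1) * √((K : ℝ) - i1 j))) := by
  obtain ⟨n1, n2, n3, -⟩ := hB.nonneg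
  have hMpos : (0 : ℝ) < M := by exact_mod_cast (show 0 < M by have := G.hM; omega)
  have hβ := X.β_pos
  have h0 : 0 ≤ h := (main2_hh_nonneg m X.a n1 n2 n3 q).trans hh1
  have hA0 : 0 ≤ hA m X.a ΩA sA := by
    rw [← hh_arr m X.a ΩA sA Ω2 ∅]; exact main2_hh_nonneg m X.a n1 n2 n3 _
  refine (X.main2 hB G sJ x (fun j => Function.update (fun i => arr (P j i)) (i1 j) q) ?_ i1 hi hinj
    ?_).trans (sum_le_sum fun j hj => mul_le_mul_of_nonneg_left ?_ (sq_nonneg _))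
  · intro j i
    by_cases e : i = i1 j
    · rw [e, Function.update_self]; exact hq
    · rw [Function.update_of_ne e]; exact main2_specOK_arr (hP j i)
  · intro j _
    rw [Function.update_self]; exact hal
  · rw [main2_ff_phi hβ]
    have c1 := chain_one (8 / √(X.β * M)) (hA m X.a ΩA sA) h (by positivity) hA0 K (i1 j) (hi j hj)
      (X.main2_small G.hM hch)
      (fun i => alpha (Function.update (fun i => arr (P j i)) (i1 j) q i))
      (fun i => hh m X.a ΩA sA Ω2 (Function.update (fun i => arr (P j i)) (i1 j) q i))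
      (fun i => main2_hh_nonneg m X.a n1 n2 n3 _)
      (fun i e => by rw [Function.update_of_ne e]; exact main2_alpha_arr _)
      (by rw [Function.update_self]; exact hal)
      (fun i e => by rw [Function.update_of_ne e, hh_arr])
      (by rw [Function.update_self]; exact hh1)
    refine (mul_le_mul_of_nonneg_left c1 (by positivity)).trans ?_
    rw [← mul_div_assoc]
    refine div_le_div_of_nonneg_right ?_ (by positivity)
    have hsM : 0 < √(M : ℝ) := Real.sqrt_pos.2 hMpos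
    have e1 : √(6 * (M : ℝ) * K) = √6 * √(M : ℝ) * √(K : ℝ) := by
      rw [Real.sqrt_mul (by positivity), Real.sqrt_mul (by norm_num)]
    have e2 : (8 / √(X.β * M)) ^ 2 = 64 / (X.β * (√(M : ℝ) * √(M : ℝ))) := by
      rw [div_pow, Real.sq_sqrt (by positivity), Real.mul_self_sqrt hMpos.le]; norm_num
    rw [e1, e2]
    have e3 : 4 * (√6 * √(M : ℝ) * √(K : ℝ)) * (4 * (64 / (X.β * (√(M : ℝ) * √(M : ℝ)))) * h) =
        (1024 * √6) * (h * √(K : ℝ) / (X.β * √(M : ℝ))) := by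
      field_simp
      ring
    have e4 : 2600 * h * √(K : ℝ) / (X.β * √(M : ℝ)) = 2600 * (h * √(K : ℝ) / (X.β * √(M : ℝ))) := by
      ring
    rw [e3, e4]
    refine mul_le_mul_of_nonneg_right ?_ (by positivity)
    have := main2_sqrt6
    linarith

/-- Two items: `main2` and `chain_two`; `4 √6 * 8 * 512 ≤ 41000`. -/
theorem main_two {ΩA sA Ω2 δ : ℝ} (hB : X.Bd ΩA sA Ω2 δ) {M K s N : ℕ} {b : ℝ} (G : X.Geo M K s N b)
    (hch : 64 * hA m X.a ΩA sA * √((K : ℝ) + 1) ≤ √(X.β * M))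
    {J : Type} (sJ : Finset J) (x : J → ℝ) (P : J → ℕ → Finset ℕ) (hP : ∀ j i, P j i ⊆ range m)
    (i1 i2 : J → ℕ) (hi : ∀ j ∈ sJ, i1 j < i2 j) (hi2 : ∀ j ∈ sJ, i2 j < K) (hinj : Set.InjOn i1 sJ)
    (q q' : Spec) (hq : SpecOK m q) (hq' : SpecOK m q') (hal : alpha q = 0) (hal' : alpha q' = 0)
    (h : ℝ) (hh1 : hh m X.a ΩA sA Ω2 q ≤ h) (hh2 : hh m X.a ΩA sA Ω2 q' ≤ h) :
    X.Tot N (fun c o R ℓ => ind (Good X.β b s (K * LL X.a M) c R ℓ) *
        (∑ j ∈ sJ, x j * X.Tm M s K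
          (Function.update (Function.update (fun i => arr (P j i)) (i1 j) q) (i2 j) q') c o R ℓ) ^ 2 /
          gg s (K * LL X.a M) c R ℓ) ≤
      ∑ j ∈ sJ, x j ^ 2 * (41000 * h ^ 2 * √(K : ℝ) / (X.β * √X.β * M) /
        (√((i1 j : ℝ) + 1) * √((K : ℝ) - i2 j))) := by
  obtain ⟨n1, n2, n3, -⟩ := hB.nonneg
  have hMpos : (0 : ℝ) < M := by exact_mod_cast (show 0 < M by have := G.hM; omega)
  have hβ := X.β_pos
  have hA0 : 0 ≤ hA m X.a ΩA sA := by
    rw [← hh_arr m X.a ΩA sA Ω2 ∅]; exact main2_hh_nonneg m X.a n1 n2 n3 _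
  refine (X.main2 hB G sJ x
    (fun j => Function.update (Function.update (fun i => arr (P j i)) (i1 j) q) (i2 j) q') ?_ i1
    (fun j hj => (hi j hj).trans (hi2 j hj)) hinj
    ?_).trans (sum_le_sum fun j hj => mul_le_mul_of_nonneg_left ?_ (sq_nonneg _))
  · intro j i
    by_cases e2 : i = i2 j
    · rw [e2, Function.update_self]; exact hq'
    · rw [Function.update_of_ne e2]
      by_cases e : i = i1 j
      · rw [e, Function.update_self]; exact hq
      · rw [Function.update_of_ne e]; exact main2_specOK_arr (hP j i)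
  · intro j hj
    rw [Function.update_of_ne (hi j hj).ne, Function.update_self]; exact hal
  · rw [main2_ff_phi hβ]
    have c1 := chain_two (8 / √(X.β * M)) (hA m X.a ΩA sA) h (by positivity) hA0 K (i1 j) (i2 j)
      (hi j hj) (hi2 j hj) (X.main2_small G.hM hch)
      (fun i => alpha
        (Function.update (Function.update (fun i => arr (P j i)) (i1 j) q) (i2 j) q' i))
      (fun i => hh m X.a ΩA sA Ω2
        (Function.update (Function.update (fun i => arr (P j i)) (i1 j) q) (i2 j) q' i))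
      (fun i => main2_hh_nonneg m X.a n1 n2 n3 _)
      (fun i e e' => by
        rw [Function.update_of_ne e', Function.update_of_ne e]; exact main2_alpha_arr _)
      (by rw [Function.update_of_ne (hi j hj).ne, Function.update_self]; exact hal)
      (by rw [Function.update_self]; exact hal')
      (fun i e e' => by rw [Function.update_of_ne e', Function.update_of_ne e, hh_arr])
      (by rw [Function.update_of_ne (hi j hj).ne, Function.update_self]; exact hh1)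
      (by rw [Function.update_self]; exact hh2)
    refine (mul_le_mul_of_nonneg_left c1 (by positivity)).trans ?_
    rw [← mul_div_assoc]
    refine div_le_div_of_nonneg_right ?_ (by positivity)
    have hsM : 0 < √(M : ℝ) := Real.sqrt_pos.2 hMpos
    have hsβ : 0 < √X.β := Real.sqrt_pos.2 hβ
    have e1 : √(6 * (M : ℝ) * K) = √6 * √(M : ℝ) * √(K : ℝ) := by
      rw [Real.sqrt_mul (by positivity), Real.sqrt_mul (by norm_num)]
    have e2 : (8 / √(X.β * M)) ^ 3 = 512 / (X.β * √X.β * M * √(M : ℝ)) := by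
      rw [div_pow, Real.sqrt_mul hβ.le]
      have f1 : √X.β ^ 2 = X.β := Real.sq_sqrt hβ.le
      have f2 : √(M : ℝ) ^ 2 = M := Real.sq_sqrt hMpos.le
      have f3 : (√X.β * √(M : ℝ)) ^ 3 = √X.β ^ 2 * √X.β * √(M : ℝ) ^ 2 * √(M : ℝ) := by ring
      rw [f3, f1, f2]
      norm_num
    rw [e1, e2]
    have e3 : 4 * (√6 * √(M : ℝ) * √(K : ℝ)) * (8 * (512 / (X.β * √X.β * M * √(M : ℝ))) * h ^ 2) =
        (16384 * √6) * (h ^ 2 * √(K : ℝ) / (X.β * √X.β * M)) := by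
      field_simp
      ring
    have e4 : 41000 * h ^ 2 * √(K : ℝ) / (X.β * √X.β * M) =
        41000 * (h ^ 2 * √(K : ℝ) / (X.β * √X.β * M)) := by ring
    rw [e3, e4]
    refine mul_le_mul_of_nonneg_right ?_ (by positivity)
    have := main2_sqrt6
    linarith

lemma main2_profile (K : ℕ) :
    ∑ j ∈ range K, 1 / (√((j : ℝ) + 1) * √((K : ℝ) - j)) ≤ 4 := by
  have h := sum_inv_sqrt (K + 1)
  have e : Ioo 0 (K + 1) = (range K).image (· + 1) := by
    ext j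
    simp only [mem_Ioo, mem_image, mem_range]
    constructor
    · rintro ⟨h1, h2⟩
      exact ⟨j - 1, by omega, by omega⟩
    · rintro ⟨i, h1, rfl⟩
      omega
  rw [e, sum_image (fun x _ y _ hxy => by simpa using hxy)] at h
  refine le_of_eq_of_le (sum_congr rfl fun j _ => ?_) h
  push_cast
  have : (K : ℝ) + 1 - (j + 1) = K - j := by ring
  rw [this]

/-- Variance of the background.  Telescope `ZP F - gg = ∑ j < K, (ZP (F on [0,j]) - ZP (F on [0,j)))`, use `ZP_eq_Tm`, `Tm_arr`,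
`(u+v+w)^2 ≤ 3 (u^2+v^2+w^2)`, `main_one` with `x = 1`, `i1 = id`, and `sum_profile`; `9 * 4 * 2600 ≤ 100000`. -/
theorem var_bound {ΩA sA Ω2 δ : ℝ} (hB : X.Bd ΩA sA Ω2 δ) {M K s N : ℕ} {b : ℝ} (G : X.Geo M K s N b)
    (hch : 64 * hA m X.a ΩA sA * √((K : ℝ) + 1) ≤ √(X.β * M))
    (F : Finset ℕ) (hF : F ⊆ range m) (h : ℝ) (h1 : hh m X.a ΩA sA Ω2 (one0 false F) ≤ h)
    (h2 : hh m X.a ΩA sA Ω2 (one1 false F) ≤ h) (h3 : hh m X.a ΩA sA Ω2 (two F) ≤ h) :
    X.Tot N (fun c o R ℓ => ind (Good X.β b s (K * LL X.a M) c R ℓ) *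
        (X.ZP M s K (fun _ => F) c o R ℓ - gg s (K * LL X.a M) c R ℓ) ^ 2 /
          gg s (K * LL X.a M) c R ℓ) ≤ 100000 * h * √(K : ℝ) / (X.β * √(M : ℝ)) := by
  obtain ⟨n1, n2, n3, -⟩ := hB.nonneg
  have hM1 : 1 ≤ M := by have := G.hM; omega
  have hMpos : (0 : ℝ) < M := by exact_mod_cast (show 0 < M by omega)
  have hβ := X.β_pos
  have h0 : 0 ≤ h := (main2_hh_nonneg m X.a n1 n2 n3 _).trans h1
  set P : ℕ → ℕ → Finset ℕ := fun j i => if i < j then F else ∅ with hPdef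
  have hP : ∀ j i, P j i ⊆ range m := by
    intro j i
    simp only [hPdef]
    split_ifs
    · exact hF
    · exact empty_subset _
  set S : Spec → (ℕ → Ctx X.a) → (ℕ → X.Tok) → ℕ → Lab X.a → ℝ := fun q c o R ℓ =>
    ∑ j ∈ range K, 1 * X.Tm M s K (Function.update (fun i => arr (P j i)) j q) c o R ℓ with hS
  have tele : ∀ c o R ℓ, X.ZP M s K (fun _ => F) c o R ℓ - gg s (K * LL X.a M) c R ℓ =
      S (one0 false F) c o R ℓ + S (one1 false F) c o R ℓ + S (two F) c o R ℓ := by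
    intro c o R ℓ
    have e1 : X.ZP M s K (fun _ => F) c o R ℓ = X.ZP M s K (P K) c o R ℓ :=
      X.ZP_local hM1 (fun i hi => by simp [hPdef, hi]) c o R ℓ
    have e0 : gg s (K * LL X.a M) c R ℓ = X.ZP M s K (P 0) c o R ℓ := by
      rw [← X.ZP_empty M s K c o R ℓ]
      exact X.ZP_local hM1 (fun i _ => by simp [hPdef]) c o R ℓ
    rw [e1, e0, ← sum_range_sub (fun j => X.ZP M s K (P j) c o R ℓ)]
    simp only [hS, ← sum_add_distrib, one_mul]
    refine sum_congr rfl fun j hj => ?_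
    rw [X.ZP_eq_Tm K G.hM G.hs (hP (j + 1)), X.ZP_eq_Tm K G.hM G.hs (hP j),
      ← X.Tm_arr M s K j (mem_range.1 hj) (fun i => arr (P j i)) F c o R ℓ]
    have u1 : (fun i => arr (P (j + 1) i)) = Function.update (fun i => arr (P j i)) j (arr F) := by
      funext i
      by_cases e : i = j
      · rw [e, Function.update_self]; simp [hPdef]
      · rw [Function.update_of_ne e]
        have : i < j + 1 ↔ i < j := by omega
        simp only [hPdef, this]
    have u0 : (fun i => arr (P j i)) = Function.update (fun i => arr (P j i)) j (arr ∅) := by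
      funext i
      by_cases e : i = j
      · rw [e, Function.update_self]; simp [hPdef]
      · rw [Function.update_of_ne e]
    rw [u1, ← u0]
  have one : ∀ q : Spec, SpecOK m q → alpha q = 0 → hh m X.a ΩA sA Ω2 q ≤ h →
      X.Tot N (fun c o R ℓ => ind (Good X.β b s (K * LL X.a M) c R ℓ) * S q c o R ℓ ^ 2 /
        gg s (K * LL X.a M) c R ℓ) ≤ 10400 * (h * √(K : ℝ) / (X.β * √(M : ℝ))) := by
    intro q hq hal hh1
    refine (X.main_one hB G hch (range K) (fun _ => 1) P hP id (fun j hj => mem_range.1 hj)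
      (Set.injOn_id _) q hq hal h hh1).trans ?_
    have e : ∑ j ∈ range K, (1 : ℝ) ^ 2 * (2600 * h * √(K : ℝ) / (X.β * √(M : ℝ)) /
        (√(((id j : ℕ) : ℝ) + 1) * √((K : ℝ) - (id j : ℕ)))) =
        2600 * (h * √(K : ℝ) / (X.β * √(M : ℝ))) *
          ∑ j ∈ range K, 1 / (√((j : ℝ) + 1) * √((K : ℝ) - j)) := by
      rw [mul_sum]
      refine sum_congr rfl fun j _ => ?_
      simp only [id]
      ring
    rw [e]
    have hp := main2_profile K
    have hq0 : 0 ≤ h * √(K : ℝ) / (X.β * √(M : ℝ)) := by positivity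
    nlinarith
  have o1 := one (one0 false F) ⟨hF, empty_subset _⟩ (by simp [alpha, one0, alB]) h1
  have o2 := one (one1 false F) ⟨empty_subset _, hF⟩ (by simp [alpha, one1, alB]) h2
  have o3 := one (two F) ⟨hF, hF⟩ (by simp [alpha, two, alB]) h3
  have le3 : X.Tot N (fun c o R ℓ => ind (Good X.β b s (K * LL X.a M) c R ℓ) *
        (X.ZP M s K (fun _ => F) c o R ℓ - gg s (K * LL X.a M) c R ℓ) ^ 2 /
          gg s (K * LL X.a M) c R ℓ) ≤
      X.Tot N (fun c o R ℓ => 3 * (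
        ind (Good X.β b s (K * LL X.a M) c R ℓ) * S (one0 false F) c o R ℓ ^ 2 /
          gg s (K * LL X.a M) c R ℓ +
        ind (Good X.β b s (K * LL X.a M) c R ℓ) * S (one1 false F) c o R ℓ ^ 2 /
          gg s (K * LL X.a M) c R ℓ +
        ind (Good X.β b s (K * LL X.a M) c R ℓ) * S (two F) c o R ℓ ^ 2 /
          gg s (K * LL X.a M) c R ℓ)) := by
    refine X.Tot_mono N fun c o R ℓ => ?_
    rw [tele]
    have g0 := gg_nonneg s (K * LL X.a M) R c ℓ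
    have i0 := ind_nonneg (Good X.β b s (K * LL X.a M) c R ℓ)
    generalize S (one0 false F) c o R ℓ = u
    generalize S (one1 false F) c o R ℓ = v
    generalize S (two F) c o R ℓ = w
    generalize gg s (K * LL X.a M) c R ℓ = g at g0 ⊢
    generalize ind (Good X.β b s (K * LL X.a M) c R ℓ) = t at i0 ⊢
    have e : 3 * (t * u ^ 2 / g + t * v ^ 2 / g + t * w ^ 2 / g) =
        t * (3 * (u ^ 2 + v ^ 2 + w ^ 2)) / g := by ring
    rw [e]
    refine div_le_div_of_nonneg_right (mul_le_mul_of_nonneg_left ?_ i0) g0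
    nlinarith [sq_nonneg (u - v), sq_nonneg (v - w), sq_nonneg (u - w)]
  refine le3.trans ?_
  rw [X.Tot_mul_left, X.Tot_plus, X.Tot_plus]
  have hq0 : 0 ≤ h * √(K : ℝ) / (X.β * √(M : ℝ)) := by positivity
  have e : 100000 * h * √(K : ℝ) / (X.β * √(M : ℝ)) =
      100000 * (h * √(K : ℝ) / (X.β * √(M : ℝ))) := by ring
  rw [e]
  linarith

end Model

end Pool.Agent.Lib.MP_343fe0_pr
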