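import Pool.Agent.Lib.MP_343fe0_pr.Expand
import Pool.Agent.Lib.MP_343fe0_pr.Main2

set_option autoImplicit false

/-! The quadratic functional used in `gammaA` and `gamma2`. -/

namespace Pool.Agent.Lib.MP_343fe0_pr

open Finset

lemma gam_sum_ind (m' K : ℕ) (hK : 1 ≤ K) (s : Finset ℤ) :
    ∑ u ∈ s, ind (-(m' : ℤ) < u ∧ u < K) ≤ ((m' : ℝ) + 1) * K := by
  classical
  have h1 : ∑ u ∈ s, ind (-(m' : ℤ) < u ∧ u < K) ≤ ∑ u ∈ Ioo (-(m' : ℤ)) K, (1 : ℝ) := by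
    rw [← Finset.sum_filter_add_sum_filter_not s (fun u => -(m' : ℤ) < u ∧ u < K)]
    rw [Finset.sum_eq_zero (s := s.filter fun u => ¬ (-(m' : ℤ) < u ∧ u < K))
      fun u hu => ind_false (mem_filter.1 hu).2, add_zero]
    refine le_trans (Finset.sum_le_sum fun u _ => ind_le_one _) ?_
    exact Finset.sum_le_sum_of_subset_of_nonneg (fun u hu => mem_Ioo.2 (mem_filter.1 hu).2)
      fun _ _ _ => zero_le_one
  refine h1.trans ?_
  rw [Finset.sum_const, Int.card_Ioo, nsmul_eq_mul, mul_one]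
  have h2 : ((K : ℤ) - -(m' : ℤ) - 1).toNat ≤ (m' + 1) * K := by
    have : m' * 1 ≤ m' * K := Nat.mul_le_mul_left _ hK
    have h3 : (m' + 1) * K = m' * K + K := by ring
    omega
  exact_mod_cast h2

lemma hh_nonneg (m a : ℕ) {ΩA sA Ω2 : ℝ} (h1 : 0 ≤ ΩA) (h2 : 0 ≤ sA) (h3 : 0 ≤ Ω2) (sp : Spec) :
    0 ≤ hh m a ΩA sA Ω2 sp := by
  unfold hh
  have := kk_pos m
  have := alB_nonneg sp.1.al
  have := alB_nonneg sp.2.al
  have : 0 ≤ if sp.1.e then Ω2 else ΩA := by split_ifs <;> assumption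
  have : 0 ≤ if sp.2.e then Ω2 else ΩA := by split_ifs <;> assumption
  have : 0 ≤ if sp.2.e then Ω2 else sA := by split_ifs <;> assumption
  positivity

lemma item_ok (m : ℕ) (e : Bool) {F F' : Finset ℕ} (hF : F ⊆ range m) (hF' : F' ⊆ range m)
    (t : Fin 6) : SpecOK m (item e F F' t) := by
  fin_cases t <;> simp [item, SpecOK, one0, one1, two, hF, hF']

lemma item_alpha (e : Bool) (F F' : Finset ℕ) (t : Fin 6) : alpha (item e F F' t) = 0 := by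
  fin_cases t <;> simp [item, alpha, alB, one0, one1, two]

lemma itemSgn_sq (t : Fin 6) : itemSgn t ^ 2 = 1 := by
  fin_cases t <;> simp [itemSgn]

lemma arrS_subset {m : ℕ} {F F' : Finset ℕ} (hF : F ⊆ range m) (hF' : F' ⊆ range m) (S : Finset ℕ)
    (i : ℕ) : arrS F F' S i ⊆ range m := by
  unfold arrS; split_ifs <;> assumption

lemma arrLt_subset {m : ℕ} {F F' : Finset ℕ} (hF : F ⊆ range m) (hF' : F' ⊆ range m) (G : Finset ℕ)
    (u : ℤ) (g K i : ℕ) : arrLt F F' G u g K i ⊆ range m := arrS_subset hF hF' _ _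

lemma update_subset {m : ℕ} {P : ℕ → Finset ℕ} (hP : ∀ l, P l ⊆ range m) (i : ℕ) {Q : Finset ℕ}
    (hQ : Q ⊆ range m) (l : ℕ) : Function.update P i Q l ⊆ range m := by
  rcases eq_or_ne l i with rfl | h
  · simpa using hQ
  · simpa [Function.update_of_ne h] using hP l

namespace Model

variable {m : ℕ} (X : Model m) (N M K : ℕ) (F F' : Finset ℕ) (b θ : ℝ)

noncomputable def QQ (f : (ℕ → Ctx X.a) → (ℕ → X.Tok) → ℕ → Lab X.a → ℝ) : ℝ :=
  X.Tot N fun c o R ℓ => ind (Good X.β b (2 * X.a + 1) (K * LL X.a M) c R ℓ ∧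
      θ * gg (2 * X.a + 1) (K * LL X.a M) c R ℓ ≤ X.ZS M K F F' ∅ c o R ℓ) *
    f c o R ℓ ^ 2 / X.ZS M K F F' ∅ c o R ℓ

lemma ZS_nonneg (S : Finset ℕ) (c : ℕ → Ctx X.a) (o : ℕ → X.Tok) (R : ℕ) (ℓ : Lab X.a) :
    0 ≤ X.ZS M K F F' S c o R ℓ := X.Zf_nonneg ..

lemma QQ_sum_le {ι : Type} (I : Finset ι) (f : ι → (ℕ → Ctx X.a) → (ℕ → X.Tok) → ℕ → Lab X.a → ℝ) :
    X.QQ N M K F F' b θ (fun c o R ℓ => ∑ i ∈ I, f i c o R ℓ) ≤
      I.card * ∑ i ∈ I, X.QQ N M K F F' b θ (f i) := by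
  unfold QQ
  rw [← X.Tot_sum, ← X.Tot_mul_left]
  refine X.Tot_mono N fun c o R ℓ => ?_
  rw [← Finset.sum_div, ← Finset.mul_sum, ← mul_div_assoc]
  refine div_le_div_of_nonneg_right ?_ (X.ZS_nonneg ..)
  rw [mul_left_comm]
  exact mul_le_mul_of_nonneg_left sq_sum_le_card_mul_sum_sq (ind_nonneg _)

lemma QQ_add_le (f g : (ℕ → Ctx X.a) → (ℕ → X.Tok) → ℕ → Lab X.a → ℝ) :
    X.QQ N M K F F' b θ (fun c o R ℓ => f c o R ℓ + g c o R ℓ) ≤
      2 * X.QQ N M K F F' b θ f + 2 * X.QQ N M K F F' b θ g := by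
  unfold QQ
  rw [← X.Tot_mul_left, ← X.Tot_mul_left, ← X.Tot_plus]
  refine X.Tot_mono N fun c o R ℓ => ?_
  rw [← mul_div_assoc, ← mul_div_assoc, ← add_div]
  refine div_le_div_of_nonneg_right ?_ (X.ZS_nonneg ..)
  have := ind_nonneg (Good X.β b (2 * X.a + 1) (K * LL X.a M) c R ℓ ∧
      θ * gg (2 * X.a + 1) (K * LL X.a M) c R ℓ ≤ X.ZS M K F F' ∅ c o R ℓ)
  nlinarith [mul_nonneg this (sq_nonneg (f c o R ℓ - g c o R ℓ))]

lemma QQ_smul (t : ℝ) (f : (ℕ → Ctx X.a) → (ℕ → X.Tok) → ℕ → Lab X.a → ℝ) :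
    X.QQ N M K F F' b θ (fun c o R ℓ => t * f c o R ℓ) = t ^ 2 * X.QQ N M K F F' b θ f := by
  unfold QQ
  rw [← X.Tot_mul_left]
  congr 1
  funext c o R ℓ
  ring

lemma QQ_nonneg (f : (ℕ → Ctx X.a) → (ℕ → X.Tok) → ℕ → Lab X.a → ℝ) :
    0 ≤ X.QQ N M K F F' b θ f :=
  X.Tot_nonneg N fun _ _ _ _ => div_nonneg (mul_nonneg (ind_nonneg _) (sq_nonneg _)) (X.ZS_nonneg ..)

lemma QQ_zero : X.QQ N M K F F' b θ (fun _ _ _ _ => 0) = 0 := by
  have := X.QQ_smul N M K F F' b θ 0 (fun _ _ _ _ => 0)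
  simpa using this

lemma QQ_le_main (hθ : 0 < θ) (f : (ℕ → Ctx X.a) → (ℕ → X.Tok) → ℕ → Lab X.a → ℝ) :
    X.QQ N M K F F' b θ f ≤ 1 / θ * X.Tot N fun c o R ℓ =>
      ind (Good X.β b (2 * X.a + 1) (K * LL X.a M) c R ℓ) * f c o R ℓ ^ 2 /
        gg (2 * X.a + 1) (K * LL X.a M) c R ℓ := by
  unfold QQ
  rw [← X.Tot_mul_left]
  refine X.Tot_mono N fun c o R ℓ => ?_
  have hg := gg_nonneg (2 * X.a + 1) (K * LL X.a M) R c ℓ
  have hr : 0 ≤ 1 / θ * (ind (Good X.β b (2 * X.a + 1) (K * LL X.a M) c R ℓ) * f c o R ℓ ^ 2 /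
      gg (2 * X.a + 1) (K * LL X.a M) c R ℓ) :=
    mul_nonneg (by positivity) (div_nonneg (mul_nonneg (ind_nonneg _) (sq_nonneg _)) hg)
  by_cases h : Good X.β b (2 * X.a + 1) (K * LL X.a M) c R ℓ ∧
      θ * gg (2 * X.a + 1) (K * LL X.a M) c R ℓ ≤ X.ZS M K F F' ∅ c o R ℓ
  · rcases hg.eq_or_lt with h0 | h0
    · have : X.ZS M K F F' ∅ c o R ℓ = 0 := X.Zf_of_gg _ o h0.symm
      rw [this, div_zero]
      exact hr
    · rw [ind_true h, ind_true h.1, one_mul, one_div, ← div_eq_inv_mul, div_div, mul_comm _ θ]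
      exact div_le_div_of_nonneg_left (sq_nonneg _) (mul_pos hθ h0) h.2
  · rw [ind_false h, zero_mul, zero_div]
    exact hr

end Model

lemma GamHyp.QQ_LT {m m' : ℕ} {X : Model m} {ΩA sA Ω2 δ : ℝ} {F F' : Finset ℕ} {M K N : ℕ}
    {b θ h TV : ℝ} (H : GamHyp m' X ΩA sA Ω2 δ F F' true M K N b θ h TV) (P : ℕ → Finset ℕ)
    (hP : ∀ l, P l ⊆ range m) (i : ℕ) (hi : i < K) (T : Finset ℕ) (hT : T.card ≤ m' + 1)
    (hPT : ∀ l < K, l ∉ T → P l = F) :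
    X.QQ N M K F F' b θ (X.LT M (2 * X.a + 1) K F F' P i) ≤ 2 * m * TV := by
  have h1 := X.LT_sq N H.geo.hM F F' H.hF H.bd.1 (m' + 2) (by have := H.hδ rfl; push_cast; exact this)
    P hP i T (by omega) hPT
  refine le_trans (X.Tot_mono N fun c o R ℓ => ?_) (h1.trans ?_)
  · refine div_le_div_of_nonneg_right ?_ (X.ZS_nonneg ..)
    exact mul_le_of_le_one_left (sq_nonneg _) (ind_le_one _)
  · exact mul_le_mul_of_nonneg_left (H.hlin rfl P i hi) (by positivity)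

lemma GamHyp.h_nonneg {m m' : ℕ} {X : Model m} {ΩA sA Ω2 δ : ℝ} {F F' : Finset ℕ} {lin : Bool}
    {M K N : ℕ} {b θ h TV : ℝ} (H : GamHyp m' X ΩA sA Ω2 δ F F' lin M K N b θ h TV) : 0 ≤ h := by
  obtain ⟨h1, h2, h3, -⟩ := H.bd.nonneg
  exact (hh_nonneg m X.a h1 h2 h3 _).trans (H.hit 0)

lemma arrLt_off (F F' : Finset ℕ) {m' : ℕ} {G : Finset ℕ} (hG : G ⊆ range m') (u : ℤ) (g K : ℕ) :
    ∃ T : Finset ℕ, T.card ≤ m' ∧ ∀ l, l ∉ T → arrLt F F' G u g K l = F :=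
  ⟨pat (G.filter (· < g)) u K, (pat_adm m' _ ((filter_subset _ _).trans hG) u K).card_le,
    fun l hl => by simp [arrLt, arrS, hl]⟩

/-- Counting the terms with an index in range. -/
lemma gam_card_le {m' K : ℕ} {G : Finset ℕ} (hG : G ⊆ range m') (s : Finset ℤ) :
    ((s ×ˢ G).filter fun p : ℤ × ℕ => 0 ≤ p.1 + (p.2 : ℤ) ∧ p.1 + (p.2 : ℤ) < K).card ≤ m' * K := by
  have : ((s ×ˢ G).filter fun p : ℤ × ℕ => 0 ≤ p.1 + (p.2 : ℤ) ∧ p.1 + (p.2 : ℤ) < K).card ≤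
      (range m' ×ˢ range K).card := by
    refine Finset.card_le_card_of_injOn (fun p : ℤ × ℕ => (p.2, (p.1 + (p.2 : ℤ)).toNat)) ?_ ?_
    · intro p hp
      simp only [coe_filter, mem_product, Set.mem_ofPred_eq] at hp
      simp only [coe_product, Set.mem_prod, mem_coe, mem_range]
      exact ⟨mem_range.1 (hG hp.1.2), by omega⟩
    · intro p hp q hq hpq
      simp only [coe_filter, mem_product, Set.mem_ofPred_eq] at hp hq
      simp only [Prod.mk.injEq] at hpq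
      obtain ⟨h1, h2⟩ := hpq
      refine Prod.ext ?_ h1
      rw [h1] at h2 hp
      omega
  simpa using this

end Pool.Agent.Lib.MP_343fe0_pr
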