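import Pool.Agent.Lib.MP_343fe0_pr.GamAux

set_option autoImplicit false

/-! Second order second moment bound for the likelihood ratios of the next level (see also `gammaA`). -/

namespace Pool.Agent.Lib.MP_343fe0_pr

open Finset

/-- The profile of two items. -/
noncomputable def gbW (c2 : ℝ) (K : ℕ) (u : ℤ) (g1 g2 : ℕ) : ℝ :=
  c2 * (ind (0 ≤ u + g1 ∧ u + g2 < K) / (√((u : ℝ) + g1 + 1) * √((K : ℝ) - (u + g2))))

lemma gbW_nonneg {c2 : ℝ} (hc : 0 ≤ c2) (K : ℕ) (u : ℤ) (g1 g2 : ℕ) : 0 ≤ gbW c2 K u g1 g2 :=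
  mul_nonneg hc (div_nonneg (ind_nonneg _) (by positivity))

lemma gbW_sum {c2 : ℝ} (hc : 0 ≤ c2) (K : ℕ) (s : Finset ℤ) {g1 g2 : ℕ} (h : g1 < g2) :
    ∑ u ∈ s, gbW c2 K u g1 g2 ≤ c2 * 4 := by
  unfold gbW
  rw [← Finset.mul_sum]
  refine mul_le_mul_of_nonneg_left ?_ hc
  obtain ⟨d, rfl⟩ := Nat.exists_eq_add_of_le h.le
  have := sum_profile K d s g1
  simpa [add_assoc] using this

lemma GamHyp.main_B {m m' : ℕ} {X : Model m} {ΩA sA Ω2 δ : ℝ} {F F' : Finset ℕ} {lin : Bool}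
    {M K N : ℕ} {b θ h TV : ℝ} (H : GamHyp m' X ΩA sA Ω2 δ F F' lin M K N b θ h TV)
    (G : Finset ℕ) (s : Finset ℤ) (x : ℤ → ℝ) {g1 g2 : ℕ} (hg : g1 < g2) (t t' : Fin 6) :
    X.QQ N M K F F' b θ (fun c o R ℓ => itemSgn t * itemSgn t' *
      ∑ u ∈ s.filter (fun u : ℤ => 0 ≤ u + g1 ∧ u + g2 < K), x u * X.Tm M (2 * X.a + 1) K
        (Function.update (Function.update (fun l => arr (arrLt F F' G u g1 K l)) (u + g1).toNat
          (item lin F F' t)) (u + g2).toNat (item lin F F' t')) c o R ℓ) ≤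
      1 / θ * ∑ u ∈ s, gbW (41000 * h ^ 2 * √(K : ℝ) / (X.β * √X.β * M)) K u g1 g2 * x u ^ 2 := by
  rw [X.QQ_smul, mul_pow, itemSgn_sq, itemSgn_sq, one_mul, one_mul]
  refine (X.QQ_le_main N M K F F' b θ H.hθ _).trans
    (mul_le_mul_of_nonneg_left ?_ (by have := H.hθ; positivity))
  refine (X.main_two H.bd H.geo H.hch (s.filter fun u : ℤ => 0 ≤ u + g1 ∧ u + g2 < K) x
    (fun u => arrLt F F' G u g1 K) (fun u l => arrLt_subset H.hF H.hF' G u g1 K l)
    (fun u => (u + g1).toNat) (fun u => (u + g2).toNat) ?_ ?_ ?_ _ _ (item_ok m lin H.hF H.hF' t)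
    (item_ok m lin H.hF H.hF' t') (item_alpha lin F F' t) (item_alpha lin F F' t') h
    (H.hit t) (H.hit t')).trans ?_
  · intro u hu
    have := (mem_filter.1 hu).2
    omega
  · intro u hu
    have := (mem_filter.1 hu).2
    omega
  · intro u hu v hv huv
    have h1 := (mem_filter.1 (mem_coe.1 hu)).2
    have h2 := (mem_filter.1 (mem_coe.1 hv)).2
    simp only at huv
    omega
  · rw [Finset.sum_filter]
    refine Finset.sum_le_sum fun u _ => ?_
    split_ifs with hu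
    · have e1 : (((u + g1).toNat : ℕ) : ℝ) = (u : ℝ) + g1 := by
        rw [← Int.cast_natCast, Int.toNat_of_nonneg hu.1]
        push_cast
        rfl
      have e2 : (((u + g2).toNat : ℕ) : ℝ) = (u : ℝ) + g2 := by
        rw [← Int.cast_natCast, Int.toNat_of_nonneg (by omega)]
        push_cast
        rfl
      rw [e1, e2, gbW, ind_true hu]
      apply le_of_eq
      ring
    · have hβ := X.β_pos
      exact mul_nonneg (gbW_nonneg (by positivity) _ _ _ _) (sq_nonneg _)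

/-- The linear part of a double switch. -/
noncomputable def gbL {m : ℕ} (X : Model m) (M K : ℕ) (F F' : Finset ℕ) (P : ℕ → Finset ℕ) (i j : ℕ)
    (c : ℕ → Ctx X.a) (o : ℕ → X.Tok) (R : ℕ) (ℓ : Lab X.a) : ℝ :=
  (X.LT M (2 * X.a + 1) K F F' (Function.update P j F') i c o R ℓ -
      X.LT M (2 * X.a + 1) K F F' (Function.update P j F) i c o R ℓ) +
    (X.LT M (2 * X.a + 1) K F F' (Function.update P i F') j c o R ℓ -
      X.LT M (2 * X.a + 1) K F F' (Function.update P i F) j c o R ℓ) -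
    ∑ g ∈ range m, (ind (g ∈ F') - ind (g ∈ F)) *
      X.LT M (2 * X.a + 1) K F F' (Function.update P i {g}) j c o R ℓ

lemma gb_QQ_sub {m : ℕ} (X : Model m) (N M K : ℕ) (F F' : Finset ℕ) (b θ : ℝ)
    (f g : (ℕ → Ctx X.a) → (ℕ → X.Tok) → ℕ → Lab X.a → ℝ) :
    X.QQ N M K F F' b θ (fun c o R ℓ => f c o R ℓ - g c o R ℓ) ≤
      2 * X.QQ N M K F F' b θ f + 2 * X.QQ N M K F F' b θ g := by
  have h1 := X.QQ_add_le N M K F F' b θ f fun c o R ℓ => -1 * g c o R ℓ
  rw [X.QQ_smul] at h1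
  simpa [sub_eq_add_neg] using h1

lemma GamHyp.QQ_gbL {m m' : ℕ} {X : Model m} {ΩA sA Ω2 δ : ℝ} {F F' : Finset ℕ} {M K N : ℕ}
    {b θ h TV : ℝ} (H : GamHyp m' X ΩA sA Ω2 δ F F' true M K N b θ h TV) (P : ℕ → Finset ℕ)
    (hP : ∀ l, P l ⊆ range m) (i j : ℕ) (hi : i < K) (hj : j < K) (T : Finset ℕ) (hT : T.card ≤ m')
    (hPT : ∀ l, l ∉ T → P l = F) :
    X.QQ N M K F F' b θ (gbL X M K F F' P i j) ≤ (32 + 2 * (m : ℝ) ^ 2) * (2 * m * TV) := by
  have key : ∀ (k l : ℕ) (Q : Finset ℕ), Q ⊆ range m → l < K →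
      X.QQ N M K F F' b θ (X.LT M (2 * X.a + 1) K F F' (Function.update P k Q) l) ≤ 2 * m * TV := by
    intro k l Q hQ hl
    refine H.QQ_LT _ (update_subset hP k hQ) l hl (insert k T)
      ((card_insert_le _ _).trans (by omega)) fun r _ hr => ?_
    rw [mem_insert, not_or] at hr
    rw [Function.update_of_ne hr.1]
    exact hPT r hr.2
  have hB : 0 ≤ 2 * m * TV := by have := H.hTV; positivity
  have h1 := gb_QQ_sub X N M K F F' b θ (X.LT M (2 * X.a + 1) K F F' (Function.update P j F') i)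
    (X.LT M (2 * X.a + 1) K F F' (Function.update P j F) i)
  have h2 := gb_QQ_sub X N M K F F' b θ (X.LT M (2 * X.a + 1) K F F' (Function.update P i F') j)
    (X.LT M (2 * X.a + 1) K F F' (Function.update P i F) j)
  have h3 := X.QQ_add_le N M K F F' b θ
    (fun c o R ℓ => X.LT M (2 * X.a + 1) K F F' (Function.update P j F') i c o R ℓ -
      X.LT M (2 * X.a + 1) K F F' (Function.update P j F) i c o R ℓ)
    (fun c o R ℓ => X.LT M (2 * X.a + 1) K F F' (Function.update P i F') j c o R ℓ -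
      X.LT M (2 * X.a + 1) K F F' (Function.update P i F) j c o R ℓ)
  have h4 := X.QQ_sum_le N M K F F' b θ (range m) fun g c o R ℓ => (ind (g ∈ F') - ind (g ∈ F)) *
      X.LT M (2 * X.a + 1) K F F' (Function.update P i {g}) j c o R ℓ
  have h5 : ∑ g ∈ range m, X.QQ N M K F F' b θ (fun c o R ℓ => (ind (g ∈ F') - ind (g ∈ F)) *
      X.LT M (2 * X.a + 1) K F F' (Function.update P i {g}) j c o R ℓ) ≤ m * (2 * m * TV) := by
    refine (Finset.sum_le_card_nsmul _ _ (2 * m * TV) fun g hg => ?_).trans ?_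
    · rw [X.QQ_smul]
      have a1 := ind_nonneg (g ∈ F')
      have a2 := ind_nonneg (g ∈ F)
      have a3 := ind_le_one (g ∈ F')
      have a4 := ind_le_one (g ∈ F)
      have a5 : (ind (g ∈ F') - ind (g ∈ F)) ^ 2 ≤ 1 := by nlinarith
      exact (mul_le_of_le_one_left (X.QQ_nonneg ..) a5).trans
        (key i j {g} (singleton_subset_iff.2 hg) hj)
    · rw [card_range, nsmul_eq_mul]
  rw [card_range] at h4
  have h6 := h4.trans (mul_le_mul_of_nonneg_left h5 (Nat.cast_nonneg m))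
  have h7 := gb_QQ_sub X N M K F F' b θ
    (fun c o R ℓ => (X.LT M (2 * X.a + 1) K F F' (Function.update P j F') i c o R ℓ -
      X.LT M (2 * X.a + 1) K F F' (Function.update P j F) i c o R ℓ) +
      (X.LT M (2 * X.a + 1) K F F' (Function.update P i F') j c o R ℓ -
      X.LT M (2 * X.a + 1) K F F' (Function.update P i F) j c o R ℓ))
    (fun c o R ℓ => ∑ g ∈ range m, (ind (g ∈ F') - ind (g ∈ F)) *
      X.LT M (2 * X.a + 1) K F F' (Function.update P i {g}) j c o R ℓ)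
  have k1 := key j i F' H.hF' hi
  have k2 := key j i F H.hF hi
  have k3 := key i j F' H.hF' hj
  have k4 := key i j F H.hF hj
  refine le_trans (le_of_eq rfl) (h7.trans ?_)
  nlinarith

lemma GamHyp.lin_B {m m' : ℕ} {X : Model m} {ΩA sA Ω2 δ : ℝ} {F F' : Finset ℕ} {lin : Bool}
    {M K N : ℕ} {b θ h TV : ℝ} (H : GamHyp m' X ΩA sA Ω2 δ F F' lin M K N b θ h TV)
    {G : Finset ℕ} (hG : G ⊆ range m') (s : Finset ℤ) (x : ℤ → ℝ) :
    X.QQ N M K F F' b θ (fun c o R ℓ =>
      ∑ p ∈ ((s ×ˢ G).filter (fun p : ℤ × ℕ => 0 ≤ p.1 + (p.2 : ℤ) ∧ p.1 + (p.2 : ℤ) < K)) ×ˢ G,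
        (x p.1.1 * ind (p.1.2 < p.2 ∧ p.1.1 + (p.2 : ℤ) < K)) *
          if lin then gbL X M K F F' (arrLt F F' G p.1.1 p.1.2 K)
            (p.1.1 + p.1.2).toNat (p.1.1 + p.2).toNat c o R ℓ else 0) ≤
      ∑ u ∈ s, (m' : ℝ) ^ 4 * K * ((32 + 2 * (m : ℝ) ^ 2) * (2 * m * TV)) *
        ind (-(m' : ℤ) < u ∧ u < K) * x u ^ 2 := by
  have hTV := H.hTV
  set B := (32 + 2 * (m : ℝ) ^ 2) * (2 * m * TV) with hB
  have hB0 : 0 ≤ B := by positivity
  have hr : ∀ u, 0 ≤ (m' : ℝ) ^ 4 * K * B * ind (-(m' : ℤ) < u ∧ u < K) * x u ^ 2 :=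
    fun u => mul_nonneg (mul_nonneg (by positivity) (ind_nonneg _)) (sq_nonneg _)
  have hGc : (G.card : ℝ) ≤ m' := by exact_mod_cast (card_le_card hG).trans (card_range m').le
  cases lin with
  | false =>
    simp only [Bool.false_eq_true, if_false, mul_zero, Finset.sum_const_zero]
    rw [X.QQ_zero]
    exact Finset.sum_nonneg fun u _ => hr u
  | true =>
    simp only [if_true]
    refine (X.QQ_sum_le N M K F F' b θ _ fun (p : (ℤ × ℕ) × ℕ) c o R ℓ =>
      (x p.1.1 * ind (p.1.2 < p.2 ∧ p.1.1 + (p.2 : ℤ) < K)) * gbL X M K F F' (arrLt F F' G p.1.1 p.1.2 K)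
        (p.1.1 + p.1.2).toNat (p.1.1 + p.2).toNat c o R ℓ).trans ?_
    have h1 : ∑ p ∈ ((s ×ˢ G).filter
          (fun p : ℤ × ℕ => 0 ≤ p.1 + (p.2 : ℤ) ∧ p.1 + (p.2 : ℤ) < K)) ×ˢ G,
        X.QQ N M K F F' b θ (fun c o R ℓ => (x p.1.1 * ind (p.1.2 < p.2 ∧ p.1.1 + (p.2 : ℤ) < K)) *
          gbL X M K F F' (arrLt F F' G p.1.1 p.1.2 K)
            (p.1.1 + p.1.2).toNat (p.1.1 + p.2).toNat c o R ℓ) ≤
        ∑ u ∈ s, m' * (m' * (B * ind (-(m' : ℤ) < u ∧ u < K) * x u ^ 2)) := by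
      rw [Finset.sum_product, Finset.sum_filter, Finset.sum_product]
      refine Finset.sum_le_sum fun u _ => ?_
      have h0 : 0 ≤ B * ind (-(m' : ℤ) < u ∧ u < K) * x u ^ 2 :=
        mul_nonneg (mul_nonneg hB0 (ind_nonneg _)) (sq_nonneg _)
      refine (Finset.sum_le_card_nsmul G _ (m' * (B * ind (-(m' : ℤ) < u ∧ u < K) * x u ^ 2))
        fun g hg => ?_).trans ?_
      · have hg' := mem_range.1 (hG hg)
        simp only
        split_ifs with hu
        · refine (Finset.sum_le_card_nsmul G _ (B * ind (-(m' : ℤ) < u ∧ u < K) * x u ^ 2)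
            fun g2 _ => ?_).trans ?_
          · rw [X.QQ_smul]
            by_cases h2 : g < g2 ∧ u + (g2 : ℤ) < K
            · rw [ind_true h2, ind_true (by omega), mul_one, mul_one, mul_comm]
              refine mul_le_mul_of_nonneg_right ?_ (sq_nonneg _)
              obtain ⟨T, hT, hPT⟩ := arrLt_off F F' hG u g K
              exact H.QQ_gbL _ (fun l => arrLt_subset H.hF H.hF' G u g K l) _ _ (by omega) (by omega)
                T hT hPT
            · rw [ind_false h2]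
              simpa using h0
          · rw [nsmul_eq_mul]
            exact mul_le_mul_of_nonneg_right hGc h0
        · positivity
      · rw [nsmul_eq_mul]
        exact mul_le_mul_of_nonneg_right hGc (by positivity)
    have h2 : ((((s ×ˢ G).filter
        (fun p : ℤ × ℕ => 0 ≤ p.1 + (p.2 : ℤ) ∧ p.1 + (p.2 : ℤ) < K)) ×ˢ G).card : ℝ) ≤
        m' * K * m' := by
      rw [card_product]
      push_cast
      exact mul_le_mul (by exact_mod_cast gam_card_le hG s) hGc (by positivity) (by positivity)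
    refine (mul_le_mul h2 h1 (Finset.sum_nonneg fun _ _ => X.QQ_nonneg ..) (by positivity)).trans ?_
    rw [Finset.mul_sum]
    exact Finset.sum_le_sum fun u _ => le_of_eq (by ring)

/-- As for `gammaA` (file GammaA), with `dZ_true`, `ZP_delta2`, `main_two`: at most `36 m' ^ 2` item terms `(g1,g2,t,t')` and at most
`(4 + m) m' ^ 2 K` linear terms. -/
theorem gamma2 (m m' : ℕ) : ∃ C : ℝ, 0 < C ∧ ∀ (X : Model m) (ΩA sA Ω2 δ : ℝ) (F F' : Finset ℕ)
    (lin : Bool) (M K N : ℕ) (b θ h TV : ℝ), GamHyp m' X ΩA sA Ω2 δ F F' lin M K N b θ h TV →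
    ∃ w : ℤ → ℝ, (∀ u, 0 ≤ w u) ∧
      (∀ s : Finset ℤ, ∑ u ∈ s, w u ≤
        C * (h ^ 2 * √(K : ℝ) / (θ * X.β * √X.β * M) + (K : ℝ) ^ 2 * TV)) ∧
      ∀ G, G ⊆ range m' → ∀ (s : Finset ℤ) (x : ℤ → ℝ),
        X.Tot N (fun c o R ℓ => ind (Good X.β b (2 * X.a + 1) (K * LL X.a M) c R ℓ ∧
            θ * gg (2 * X.a + 1) (K * LL X.a M) c R ℓ ≤ X.ZS M K F F' ∅ c o R ℓ) *
          (∑ u ∈ s, x u * X.dZ M K F F' true G u c o R ℓ) ^ 2 / X.ZS M K F F' ∅ c o R ℓ) ≤
          ∑ u ∈ s, w u * x u ^ 2 := by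
  refine ⟨2 * 36 * 36 * m' ^ 4 * 41000 * 4 +
    2 * m' ^ 4 * ((32 + 2 * (m : ℝ) ^ 2) * (2 * m)) * (m' + 1) + 1, by positivity, ?_⟩
  intro X ΩA sA Ω2 δ F F' lin M K N b θ h TV H
  have hβ := X.β_pos
  have hθ := H.hθ
  have hTV := H.hTV
  have hM : (0 : ℝ) < M := by have := H.geo.hM; positivity
  set c2 := 41000 * h ^ 2 * √(K : ℝ) / (X.β * √X.β * M) with hc2
  have hc : 0 ≤ c2 := by positivity
  have hsβ : 0 < √X.β := by positivity
  set I : Finset ℕ → Finset (ℕ × ℕ) := fun G => (G ×ˢ G).filter fun p => p.2 < p.1 with hI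
  have hIc : ∀ G, G ⊆ range m' → ((I G).card : ℝ) ≤ m' ^ 2 := by
    intro G hG
    have h1 : G.card ≤ m' := (card_le_card hG).trans (card_range m').le
    have h2 : (I G).card ≤ m' ^ 2 := by
      refine (card_filter_le _ _).trans ?_
      rw [card_product, sq]
      exact Nat.mul_le_mul h1 h1
    exact_mod_cast h2
  refine ⟨fun u => 2 * 36 * 36 * m' ^ 2 / θ * ∑ p ∈ I (range m'), gbW c2 K u p.2 p.1 +
    2 * ((m' : ℝ) ^ 4 * K * ((32 + 2 * (m : ℝ) ^ 2) * (2 * m * TV)) * ind (-(m' : ℤ) < u ∧ u < K)),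
    ?_, ?_, ?_⟩
  · intro u
    exact add_nonneg (mul_nonneg (by positivity) (Finset.sum_nonneg fun g _ => gbW_nonneg hc _ _ _ _))
      (mul_nonneg (by norm_num) (mul_nonneg (by positivity) (ind_nonneg _)))
  · intro s
    rw [Finset.sum_add_distrib, ← Finset.mul_sum, ← Finset.mul_sum, ← Finset.mul_sum,
      Finset.sum_comm]
    have h1 : ∑ p ∈ I (range m'), ∑ u ∈ s, gbW c2 K u p.2 p.1 ≤ m' ^ 2 * (c2 * 4) := by
      refine (Finset.sum_le_card_nsmul _ _ _ fun p hp => gbW_sum hc K s (mem_filter.1 hp).2).trans ?_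
      rw [nsmul_eq_mul]
      exact mul_le_mul_of_nonneg_right (hIc _ subset_rfl) (by positivity)
    have h2 : 2 * 36 * 36 * m' ^ 2 / θ * ∑ p ∈ I (range m'), ∑ u ∈ s, gbW c2 K u p.2 p.1 ≤
        2 * 36 * 36 * m' ^ 4 * 41000 * 4 * (h ^ 2 * √(K : ℝ) / (θ * X.β * √X.β * M)) := by
      refine (mul_le_mul_of_nonneg_left h1 (by positivity)).trans (le_of_eq ?_)
      rw [hc2]
      field_simp
    have h3 : 2 * ((m' : ℝ) ^ 4 * K * ((32 + 2 * (m : ℝ) ^ 2) * (2 * m * TV)) *
        ∑ u ∈ s, ind (-(m' : ℤ) < u ∧ u < K)) ≤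
        2 * m' ^ 4 * ((32 + 2 * (m : ℝ) ^ 2) * (2 * m)) * (m' + 1) * ((K : ℝ) ^ 2 * TV) := by
      refine (mul_le_mul_of_nonneg_left (mul_le_mul_of_nonneg_left (gam_sum_ind m' K H.geo.hK s)
        (by positivity)) (by norm_num)).trans (le_of_eq ?_)
      ring
    have p1 : 0 ≤ h ^ 2 * √(K : ℝ) / (θ * X.β * √X.β * M) := by positivity
    have p2 : 0 ≤ (K : ℝ) ^ 2 * TV := by positivity
    have p3 : (0 : ℝ) ≤ 2 * 36 * 36 * m' ^ 4 * 41000 * 4 := by positivity
    have p4 : (0 : ℝ) ≤ 2 * m' ^ 4 * ((32 + 2 * (m : ℝ) ^ 2) * (2 * m)) * (m' + 1) := by positivity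
    nlinarith [mul_nonneg p3 p2, mul_nonneg p4 p1]
  · intro G hG s x
    have e : (fun c o R ℓ => ∑ u ∈ s, x u * X.dZ M K F F' true G u c o R ℓ) = fun c o R ℓ =>
        (∑ p ∈ I G ×ˢ (univ : Finset (Fin 6 × Fin 6)), itemSgn p.2.1 * itemSgn p.2.2 *
          ∑ u ∈ s.filter (fun u : ℤ => 0 ≤ u + p.1.2 ∧ u + p.1.1 < K), x u * X.Tm M (2 * X.a + 1) K
            (Function.update (Function.update (fun l => arr (arrLt F F' G u p.1.2 K l))
              (u + p.1.2).toNat (item lin F F' p.2.1)) (u + p.1.1).toNat (item lin F F' p.2.2))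
              c o R ℓ) +
        ∑ p ∈ ((s ×ˢ G).filter (fun p : ℤ × ℕ => 0 ≤ p.1 + (p.2 : ℤ) ∧ p.1 + (p.2 : ℤ) < K)) ×ˢ G,
          (x p.1.1 * ind (p.1.2 < p.2 ∧ p.1.1 + (p.2 : ℤ) < K)) *
            if lin then gbL X M K F F' (arrLt F F' G p.1.1 p.1.2 K)
              (p.1.1 + p.1.2).toNat (p.1.1 + p.2).toNat c o R ℓ else 0 := by
      funext c o R ℓ
      have eA : ∑ p ∈ I G ×ˢ (univ : Finset (Fin 6 × Fin 6)), itemSgn p.2.1 * itemSgn p.2.2 *
          ∑ u ∈ s.filter (fun u : ℤ => 0 ≤ u + p.1.2 ∧ u + p.1.1 < K), x u * X.Tm M (2 * X.a + 1) K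
            (Function.update (Function.update (fun l => arr (arrLt F F' G u p.1.2 K l))
              (u + p.1.2).toNat (item lin F F' p.2.1)) (u + p.1.1).toNat (item lin F F' p.2.2))
              c o R ℓ = ∑ u ∈ s, ∑ g2 ∈ G, ∑ g1 ∈ G, ind (g1 < g2) * (ind (0 ≤ u + g1 ∧ u + g2 < K) *
            (x u * ∑ t : Fin 6, ∑ t' : Fin 6, itemSgn t * itemSgn t' * X.Tm M (2 * X.a + 1) K
              (Function.update (Function.update (fun l => arr (arrLt F F' G u g1 K l))
                (u + g1).toNat (item lin F F' t)) (u + g2).toNat (item lin F F' t')) c o R ℓ)) := by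
        rw [Finset.sum_product, hI, Finset.sum_filter, Finset.sum_product,
          Finset.sum_comm (s := s) (t := G)]
        refine Finset.sum_congr rfl fun g2 _ => ?_
        rw [Finset.sum_comm (s := s) (t := G)]
        refine Finset.sum_congr rfl fun g1 _ => ?_
        by_cases hg : g1 < g2
        · simp only [if_pos hg, ind_true hg, one_mul, Finset.sum_filter, Finset.mul_sum,
            Fintype.sum_prod_type]
          rw [Finset.sum_comm (s := s)]
          refine Finset.sum_congr rfl fun t _ => ?_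
          rw [Finset.sum_comm (s := s)]
          refine Finset.sum_congr rfl fun t' _ => Finset.sum_congr rfl fun u _ => ?_
          by_cases hu : 0 ≤ u + g1 ∧ u + g2 < K
          · rw [if_pos hu, ind_true hu]
            ring
          · rw [if_neg hu, ind_false hu]
            ring
        · simp [if_neg hg, ind_false hg]
      have eB : ∑ p ∈ ((s ×ˢ G).filter
            (fun p : ℤ × ℕ => 0 ≤ p.1 + (p.2 : ℤ) ∧ p.1 + (p.2 : ℤ) < K)) ×ˢ G,
          ((x p.1.1 * ind (p.1.2 < p.2 ∧ p.1.1 + (p.2 : ℤ) < K)) *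
            if lin then gbL X M K F F' (arrLt F F' G p.1.1 p.1.2 K)
              (p.1.1 + p.1.2).toNat (p.1.1 + p.2).toNat c o R ℓ else 0) =
          ∑ u ∈ s, ∑ g2 ∈ G, ∑ g1 ∈ G, ind (g1 < g2) * (ind (0 ≤ u + g1 ∧ u + g2 < K) *
            (x u * if lin then gbL X M K F F' (arrLt F F' G u g1 K)
              (u + g1).toNat (u + g2).toNat c o R ℓ else 0)) := by
        rw [Finset.sum_product, Finset.sum_filter, Finset.sum_product]
        refine Finset.sum_congr rfl fun u _ => ?_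
        rw [Finset.sum_comm (s := G) (t := G)]
        refine Finset.sum_congr rfl fun g1 _ => ?_
        simp only
        by_cases hu : 0 ≤ u + g1 ∧ u + g1 < K
        · rw [if_pos hu]
          refine Finset.sum_congr rfl fun g2 _ => ?_
          rw [ind_and, ind_and, ind_true hu.1]
          ring
        · rw [if_neg hu]
          refine (Finset.sum_eq_zero fun g2 _ => ?_).symm
          by_cases hg : g1 < g2
          · rw [ind_false (p := 0 ≤ u + g1 ∧ u + g2 < K) (by omega)]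
            simp
          · simp [ind_false hg]
      rw [eA, eB, ← Finset.sum_add_distrib]
      refine Finset.sum_congr rfl fun u _ => ?_
      rw [X.dZ_true, Finset.mul_sum, ← Finset.sum_add_distrib]
      refine Finset.sum_congr rfl fun g2 _ => ?_
      rw [Finset.sum_filter, Finset.mul_sum, ← Finset.sum_add_distrib]
      refine Finset.sum_congr rfl fun g1 _ => ?_
      by_cases hg : g1 < g2
      · rw [if_pos hg, ind_true hg]
        by_cases hu : 0 ≤ u + g1 ∧ u + g2 < K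
        · rw [ind_true hu, X.ZP_delta2 H.geo.hM le_rfl (by omega) (by omega) F F' H.hF H.hF' lin H.hcard _
            (fun l => arrLt_subset H.hF H.hF' G u g1 K l)]
          simp only [gbL]
          ring
        · simp [ind_false hu]
      · simp [if_neg hg, ind_false hg]
    change X.QQ N M K F F' b θ (fun c o R ℓ => ∑ u ∈ s, x u * X.dZ M K F F' true G u c o R ℓ) ≤ _
    rw [e]
    refine (X.QQ_add_le N M K F F' b θ _ _).trans ?_
    have h1 := (X.QQ_sum_le N M K F F' b θ (I G ×ˢ (univ : Finset (Fin 6 × Fin 6))) fun p c o R ℓ =>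
      itemSgn p.2.1 * itemSgn p.2.2 *
        ∑ u ∈ s.filter (fun u : ℤ => 0 ≤ u + p.1.2 ∧ u + p.1.1 < K), x u * X.Tm M (2 * X.a + 1) K
          (Function.update (Function.update (fun l => arr (arrLt F F' G u p.1.2 K l))
            (u + p.1.2).toNat (item lin F F' p.2.1)) (u + p.1.1).toNat (item lin F F' p.2.2)) c o R ℓ)
    have h2 := H.lin_B hG s x
    have hcard : ((I G ×ˢ (univ : Finset (Fin 6 × Fin 6))).card : ℝ) ≤ 36 * m' ^ 2 := by
      rw [card_product, card_univ, Fintype.card_prod, Fintype.card_fin]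
      push_cast
      have := hIc G hG
      linarith
    have h3 : ∑ p ∈ I G ×ˢ (univ : Finset (Fin 6 × Fin 6)), X.QQ N M K F F' b θ (fun c o R ℓ =>
        itemSgn p.2.1 * itemSgn p.2.2 *
        ∑ u ∈ s.filter (fun u : ℤ => 0 ≤ u + p.1.2 ∧ u + p.1.1 < K), x u * X.Tm M (2 * X.a + 1) K
          (Function.update (Function.update (fun l => arr (arrLt F F' G u p.1.2 K l))
            (u + p.1.2).toNat (item lin F F' p.2.1)) (u + p.1.1).toNat (item lin F F' p.2.2))
            c o R ℓ) ≤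
        36 * (1 / θ * ∑ u ∈ s, (∑ p ∈ I (range m'), gbW c2 K u p.2 p.1) * x u ^ 2) := by
      refine (Finset.sum_le_sum fun (p : (ℕ × ℕ) × Fin 6 × Fin 6) hp =>
        H.main_B G s x (mem_filter.1 (mem_product.1 hp).1).2 p.2.1 p.2.2).trans ?_
      rw [Finset.sum_product]
      simp only [Finset.sum_const, card_univ, Fintype.card_prod, Fintype.card_fin, nsmul_eq_mul]
      rw [← Finset.mul_sum, ← Finset.mul_sum, Finset.sum_comm]
      refine mul_le_mul (by norm_num) (mul_le_mul_of_nonneg_left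
        (Finset.sum_le_sum fun u _ => ?_) (by positivity)) (mul_nonneg (by positivity)
          (Finset.sum_nonneg fun u _ => Finset.sum_nonneg fun p _ =>
            mul_nonneg (gbW_nonneg hc _ _ _ _) (sq_nonneg _))) (by norm_num)
      rw [← Finset.sum_mul]
      exact mul_le_mul_of_nonneg_right (Finset.sum_le_sum_of_subset_of_nonneg
        (filter_subset_filter _ (product_subset_product hG hG))
        fun g _ _ => gbW_nonneg hc _ _ _ _) (sq_nonneg _)
    have h4 := h1.trans (mul_le_mul hcard h3 (Finset.sum_nonneg fun _ _ => X.QQ_nonneg ..)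
      (by positivity))
    refine (add_le_add (mul_le_mul_of_nonneg_left h4 (by norm_num))
      (mul_le_mul_of_nonneg_left h2 (by norm_num))).trans (le_of_eq ?_)
    simp only [Finset.mul_sum (s := s), ← Finset.sum_add_distrib]
    exact Finset.sum_congr rfl fun u _ => by ring


end Pool.Agent.Lib.MP_343fe0_pr
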