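import Pool.Agent.Lib.MP_343fe0_pr.GamAux

set_option autoImplicit false

/-! First order second moment bound for the likelihood ratios of the next level. -/

namespace Pool.Agent.Lib.MP_343fe0_pr

open Finset

/-- The profile of one item. -/
noncomputable def gaW (c1 : ℝ) (K : ℕ) (i : ℤ) : ℝ :=
  c1 * (ind (0 ≤ i ∧ i < K) / (√((i : ℝ) + 1) * √((K : ℝ) - i)))

lemma gaW_nonneg {c1 : ℝ} (hc : 0 ≤ c1) (K : ℕ) (i : ℤ) : 0 ≤ gaW c1 K i :=
  mul_nonneg hc (div_nonneg (ind_nonneg _) (by positivity))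

lemma gaW_le {c1 : ℝ} (hc : 0 ≤ c1) (K : ℕ) (i : ℤ) : gaW c1 K i ≤ c1 / √(K : ℝ) := by
  unfold gaW
  by_cases h : 0 ≤ i ∧ i < K
  · rw [ind_true h, div_eq_mul_one_div c1]
    exact mul_le_mul_of_nonneg_left (profile_le K i h.1 h.2) hc
  · rw [ind_false h]
    simp only [zero_div, mul_zero]
    positivity

lemma gaW_sum {c1 : ℝ} (hc : 0 ≤ c1) (K : ℕ) (s : Finset ℤ) (g : ℕ) :
    ∑ u ∈ s, gaW c1 K (u + g) ≤ c1 * 4 := by
  unfold gaW
  rw [← Finset.mul_sum]
  refine mul_le_mul_of_nonneg_left ?_ hc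
  have := sum_profile K 0 s g
  simpa using this

lemma GamHyp.main_A {m m' : ℕ} {X : Model m} {ΩA sA Ω2 δ : ℝ} {F F' : Finset ℕ} {lin : Bool}
    {M K N : ℕ} {b θ h TV : ℝ} (H : GamHyp m' X ΩA sA Ω2 δ F F' lin M K N b θ h TV)
    (G : Finset ℕ) (s : Finset ℤ) (x : ℤ → ℝ) (g : ℕ) (t : Fin 6) :
    X.QQ N M K F F' b θ (fun c o R ℓ => itemSgn t *
      ∑ u ∈ s.filter (fun u : ℤ => 0 ≤ u + g ∧ u + g < K), x u * X.Tm M (2 * X.a + 1) K
        (Function.update (fun l => arr (arrLt F F' G u g K l)) (u + g).toNat (item lin F F' t))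
          c o R ℓ) ≤
      1 / θ * ∑ u ∈ s, gaW (2600 * h * √(K : ℝ) / (X.β * √(M : ℝ))) K (u + g) * x u ^ 2 := by
  rw [X.QQ_smul, itemSgn_sq, one_mul]
  refine (X.QQ_le_main N M K F F' b θ H.hθ _).trans
    (mul_le_mul_of_nonneg_left ?_ (by have := H.hθ; positivity))
  refine (X.main_one H.bd H.geo H.hch (s.filter fun u : ℤ => 0 ≤ u + g ∧ u + g < K) x
    (fun u => arrLt F F' G u g K) (fun u l => arrLt_subset H.hF H.hF' G u g K l)
    (fun u => (u + g).toNat) ?_ ?_ _ (item_ok m lin H.hF H.hF' t) (item_alpha lin F F' t) h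
    (H.hit t)).trans ?_
  · intro u hu
    have := (mem_filter.1 hu).2
    omega
  · intro u hu v hv huv
    have h1 := (mem_filter.1 (mem_coe.1 hu)).2
    have h2 := (mem_filter.1 (mem_coe.1 hv)).2
    simp only at huv
    omega
  · rw [Finset.sum_filter]
    refine Finset.sum_le_sum fun u _ => ?_
    split_ifs with hu
    · have e : (((u + g).toNat : ℕ) : ℝ) = ((u + g : ℤ) : ℝ) := by
        rw [← Int.cast_natCast, Int.toNat_of_nonneg hu.1]
      rw [e, gaW, ind_true hu]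
      apply le_of_eq
      ring
    · have hβ := X.β_pos
      have hh := H.h_nonneg
      exact mul_nonneg (gaW_nonneg (by positivity) _ _) (sq_nonneg _)

lemma GamHyp.lin_A {m m' : ℕ} {X : Model m} {ΩA sA Ω2 δ : ℝ} {F F' : Finset ℕ} {lin : Bool}
    {M K N : ℕ} {b θ h TV : ℝ} (H : GamHyp m' X ΩA sA Ω2 δ F F' lin M K N b θ h TV)
    {G : Finset ℕ} (hG : G ⊆ range m') (s : Finset ℤ) (x : ℤ → ℝ) :
    X.QQ N M K F F' b θ (fun c o R ℓ =>
      ∑ p ∈ (s ×ˢ G).filter (fun p : ℤ × ℕ => 0 ≤ p.1 + (p.2 : ℤ) ∧ p.1 + (p.2 : ℤ) < K),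
        x p.1 * if lin then X.LT M (2 * X.a + 1) K F F' (arrLt F F' G p.1 p.2 K) (p.1 + p.2).toNat
          c o R ℓ else 0) ≤
      ∑ u ∈ s, 2 * m * (m' : ℝ) ^ 2 * K * TV * ind (-(m' : ℤ) < u ∧ u < K) * x u ^ 2 := by
  have hTV := H.hTV
  have hr : ∀ u, 0 ≤ 2 * m * (m' : ℝ) ^ 2 * K * TV * ind (-(m' : ℤ) < u ∧ u < K) * x u ^ 2 :=
    fun u => mul_nonneg (mul_nonneg (by positivity) (ind_nonneg _)) (sq_nonneg _)
  cases lin with
  | false =>
    simp only [Bool.false_eq_true, if_false, mul_zero, Finset.sum_const_zero]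
    rw [X.QQ_zero]
    exact Finset.sum_nonneg fun u _ => hr u
  | true =>
    simp only [if_true]
    refine (X.QQ_sum_le N M K F F' b θ _ fun (p : ℤ × ℕ) c o R ℓ => x p.1 *
      X.LT M (2 * X.a + 1) K F F' (arrLt F F' G p.1 p.2 K) (p.1 + p.2).toNat c o R ℓ).trans ?_
    have h1 : ∑ p ∈ (s ×ˢ G).filter (fun p : ℤ × ℕ => 0 ≤ p.1 + (p.2 : ℤ) ∧ p.1 + (p.2 : ℤ) < K),
        X.QQ N M K F F' b θ (fun c o R ℓ => x p.1 *
          X.LT M (2 * X.a + 1) K F F' (arrLt F F' G p.1 p.2 K) (p.1 + p.2).toNat c o R ℓ) ≤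
        ∑ u ∈ s, m' * (2 * m * TV * ind (-(m' : ℤ) < u ∧ u < K) * x u ^ 2) := by
      rw [Finset.sum_filter, Finset.sum_product]
      refine Finset.sum_le_sum fun u _ => ?_
      have h0 : 0 ≤ 2 * m * TV * ind (-(m' : ℤ) < u ∧ u < K) * x u ^ 2 :=
        mul_nonneg (mul_nonneg (by positivity) (ind_nonneg _)) (sq_nonneg _)
      refine (Finset.sum_le_card_nsmul G _ (2 * m * TV * ind (-(m' : ℤ) < u ∧ u < K) * x u ^ 2)
        fun g hg => ?_).trans ?_
      · have hg' := mem_range.1 (hG hg)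
        simp only
        split_ifs with hu
        · rw [X.QQ_smul, ind_true (by omega), mul_one, mul_comm]
          refine mul_le_mul_of_nonneg_right ?_ (sq_nonneg _)
          obtain ⟨T, hT, hPT⟩ := arrLt_off F F' hG u g K
          exact H.QQ_LT _ (fun l => arrLt_subset H.hF H.hF' G u g K l) _ (by omega) T (by omega)
            fun l _ hl => hPT l hl
        · exact h0
      · rw [nsmul_eq_mul]
        refine mul_le_mul_of_nonneg_right ?_ h0
        exact_mod_cast (card_le_card hG).trans (card_range m').le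
    have h2 : (((s ×ˢ G).filter
        (fun p : ℤ × ℕ => 0 ≤ p.1 + (p.2 : ℤ) ∧ p.1 + (p.2 : ℤ) < K)).card : ℝ) ≤ m' * K := by
      exact_mod_cast gam_card_le hG s
    refine (mul_le_mul h2 h1 (Finset.sum_nonneg fun _ _ => X.QQ_nonneg ..) (by positivity)).trans ?_
    rw [Finset.mul_sum]
    exact Finset.sum_le_sum fun u _ => le_of_eq (by ring)

/-- `dZ_false`, `ZP_delta`.  Split `∑ u, x u * dZ` into the item part and the linear part, `(A + B) ^ 2 ≤ 2 A ^ 2 + 2 B ^ 2`.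
Item part: at most `6 m'` terms `(g,t)`; for each use `1 / Z∅ ≤ 1 / (θ gg)` (if `gg = 0` everything vanishes) and `main_one` on
`s.filter (0 ≤ u + g < K)` with `i1 u = (u + g).toNat`.  Linear part: at most `m' K` terms `(g,u)`, Cauchy-Schwarz and `LT_sq` with
`n = m' + 2`.  Take `w u = 72 m' / θ * ∑ g < m', W (u+g) + 4 m m' ^ 2 K TV * ind (-m' < u < K)`, where
`W i = ind (0 ≤ i < K) * 2600 h √K / (β √M) / (√(i+1) √(K-i))`; `profile_le`, `sum_profile`. -/
theorem gammaA (m m' : ℕ) : ∃ C : ℝ, 0 < C ∧ ∀ (X : Model m) (ΩA sA Ω2 δ : ℝ) (F F' : Finset ℕ)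
    (lin : Bool) (M K N : ℕ) (b θ h TV : ℝ), GamHyp m' X ΩA sA Ω2 δ F F' lin M K N b θ h TV →
    ∃ w : ℤ → ℝ, (∀ u, 0 ≤ w u) ∧ (∀ u, w u ≤ C * (h / (θ * X.β * √(M : ℝ)) + K * TV)) ∧
      (∀ s : Finset ℤ, ∑ u ∈ s, w u ≤ C * (h * √(K : ℝ) / (θ * X.β * √(M : ℝ)) + (K : ℝ) ^ 2 * TV)) ∧
      ∀ G, G ⊆ range m' → ∀ (s : Finset ℤ) (x : ℤ → ℝ),
        X.Tot N (fun c o R ℓ => ind (Good X.β b (2 * X.a + 1) (K * LL X.a M) c R ℓ ∧
            θ * gg (2 * X.a + 1) (K * LL X.a M) c R ℓ ≤ X.ZS M K F F' ∅ c o R ℓ) *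
          (∑ u ∈ s, x u * X.dZ M K F F' false G u c o R ℓ) ^ 2 / X.ZS M K F F' ∅ c o R ℓ) ≤
          ∑ u ∈ s, w u * x u ^ 2 := by
  refine ⟨72 * m' ^ 2 * 2600 * 4 + 4 * m * m' ^ 2 * (m' + 1) + 1, by positivity, ?_⟩
  intro X ΩA sA Ω2 δ F F' lin M K N b θ h TV H
  have hβ := X.β_pos
  have hθ := H.hθ
  have hh := H.h_nonneg
  have hTV := H.hTV
  have hK : (1 : ℝ) ≤ K := by exact_mod_cast H.geo.hK
  have hM : (0 : ℝ) < M := by have := H.geo.hM; positivity
  set c1 := 2600 * h * √(K : ℝ) / (X.β * √(M : ℝ)) with hc1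
  have hc : 0 ≤ c1 := by positivity
  have hsK : 0 < √(K : ℝ) := by positivity
  have hsM : 0 < √(M : ℝ) := by positivity
  refine ⟨fun u => 72 * m' / θ * ∑ g ∈ range m', gaW c1 K (u + g) +
    4 * m * (m' : ℝ) ^ 2 * K * TV * ind (-(m' : ℤ) < u ∧ u < K), ?_, ?_, ?_, ?_⟩
  · intro u
    exact add_nonneg (mul_nonneg (by positivity) (Finset.sum_nonneg fun g _ => gaW_nonneg hc _ _))
      (mul_nonneg (by positivity) (ind_nonneg _))
  · intro u
    have h1 : ∑ g ∈ range m', gaW c1 K (u + g) ≤ m' * (c1 / √(K : ℝ)) := by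
      refine (Finset.sum_le_card_nsmul _ _ _ fun g _ => gaW_le hc K _).trans ?_
      rw [card_range, nsmul_eq_mul]
    have h2 : 72 * m' / θ * ∑ g ∈ range m', gaW c1 K (u + g) ≤
        72 * m' ^ 2 * 2600 * (h / (θ * X.β * √(M : ℝ))) := by
      refine (mul_le_mul_of_nonneg_left h1 (by positivity)).trans (le_of_eq ?_)
      rw [hc1]
      field_simp
    have h3 : 4 * m * (m' : ℝ) ^ 2 * K * TV * ind (-(m' : ℤ) < u ∧ u < K) ≤
        4 * m * (m' : ℝ) ^ 2 * (K * TV) := by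
      refine (mul_le_of_le_one_right (by positivity) (ind_le_one _)).trans (le_of_eq ?_)
      ring
    have p1 : 0 ≤ h / (θ * X.β * √(M : ℝ)) := by positivity
    have p2 : 0 ≤ (K : ℝ) * TV := by positivity
    have p3 : (0 : ℝ) ≤ m' ^ 2 := by positivity
    have p4 : (0 : ℝ) ≤ m * m' ^ 2 := by positivity
    have p5 : (0 : ℝ) ≤ m * m' ^ 2 * m' := by positivity
    nlinarith [mul_nonneg p3 p1, mul_nonneg p3 p2, mul_nonneg p4 p1, mul_nonneg p4 p2,
      mul_nonneg p5 p1, mul_nonneg p5 p2]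
  · intro s
    rw [Finset.sum_add_distrib, ← Finset.mul_sum, ← Finset.mul_sum, Finset.sum_comm]
    have h1 : ∑ g ∈ range m', ∑ u ∈ s, gaW c1 K (u + g) ≤ m' * (c1 * 4) := by
      refine (Finset.sum_le_card_nsmul _ _ _ fun g _ => gaW_sum hc K s g).trans ?_
      rw [card_range, nsmul_eq_mul]
    have h2 : 72 * m' / θ * ∑ g ∈ range m', ∑ u ∈ s, gaW c1 K (u + g) ≤
        72 * m' ^ 2 * 2600 * 4 * (h * √(K : ℝ) / (θ * X.β * √(M : ℝ))) := by
      refine (mul_le_mul_of_nonneg_left h1 (by positivity)).trans (le_of_eq ?_)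
      rw [hc1]
      field_simp
    have h3 : 4 * m * (m' : ℝ) ^ 2 * K * TV * ∑ u ∈ s, ind (-(m' : ℤ) < u ∧ u < K) ≤
        4 * m * (m' : ℝ) ^ 2 * (m' + 1) * ((K : ℝ) ^ 2 * TV) := by
      refine (mul_le_mul_of_nonneg_left (gam_sum_ind m' K H.geo.hK s) (by positivity)).trans
        (le_of_eq ?_)
      ring
    have p1 : 0 ≤ h * √(K : ℝ) / (θ * X.β * √(M : ℝ)) := by positivity
    have p2 : 0 ≤ (K : ℝ) ^ 2 * TV := by positivity
    have p3 : (0 : ℝ) ≤ 72 * m' ^ 2 * 2600 * 4 := by positivity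
    have p4 : (0 : ℝ) ≤ 4 * m * m' ^ 2 * (m' + 1) := by positivity
    nlinarith [mul_nonneg p3 p2, mul_nonneg p4 p1]
  · intro G hG s x
    have e : (fun c o R ℓ => ∑ u ∈ s, x u * X.dZ M K F F' false G u c o R ℓ) = fun c o R ℓ =>
        (∑ p ∈ G ×ˢ (univ : Finset (Fin 6)), itemSgn p.2 *
          ∑ u ∈ s.filter (fun u : ℤ => 0 ≤ u + p.1 ∧ u + p.1 < K), x u * X.Tm M (2 * X.a + 1) K
            (Function.update (fun l => arr (arrLt F F' G u p.1 K l)) (u + p.1).toNat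
              (item lin F F' p.2)) c o R ℓ) +
        ∑ p ∈ (s ×ˢ G).filter (fun p : ℤ × ℕ => 0 ≤ p.1 + (p.2 : ℤ) ∧ p.1 + (p.2 : ℤ) < K),
          x p.1 * if lin then X.LT M (2 * X.a + 1) K F F' (arrLt F F' G p.1 p.2 K) (p.1 + p.2).toNat
            c o R ℓ else 0 := by
      funext c o R ℓ
      simp only [X.dZ_false, Finset.sum_product, Finset.sum_filter, Finset.mul_sum]
      rw [Finset.sum_comm (s := s) (t := G), Finset.sum_comm (s := s) (t := G),
        ← Finset.sum_add_distrib]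
      refine Finset.sum_congr rfl fun g _ => ?_
      rw [Finset.sum_comm (s := univ) (t := s), ← Finset.sum_add_distrib]
      refine Finset.sum_congr rfl fun u _ => ?_
      by_cases hu : 0 ≤ u + g ∧ u + g < K
      · rw [ind_true hu, one_mul, X.ZP_delta H.geo.hM le_rfl (by omega) F F' H.hF H.hF' lin H.hcard _
          (fun l => arrLt_subset H.hF H.hF' G u g K l), mul_add, Finset.mul_sum]
        simp only [if_pos hu]
        congr 1
        exact Finset.sum_congr rfl fun t _ => by ring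
      · simp [ind_false hu, if_neg hu]
    change X.QQ N M K F F' b θ (fun c o R ℓ => ∑ u ∈ s, x u * X.dZ M K F F' false G u c o R ℓ) ≤ _
    rw [e]
    refine (X.QQ_add_le N M K F F' b θ _ _).trans ?_
    have h1 := (X.QQ_sum_le N M K F F' b θ (G ×ˢ (univ : Finset (Fin 6))) fun p c o R ℓ =>
      itemSgn p.2 * ∑ u ∈ s.filter (fun u : ℤ => 0 ≤ u + p.1 ∧ u + p.1 < K), x u * X.Tm M (2 * X.a + 1) K
        (Function.update (fun l => arr (arrLt F F' G u p.1 K l)) (u + p.1).toNat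
          (item lin F F' p.2)) c o R ℓ)
    have h2 := H.lin_A hG s x
    have hcard : ((G ×ˢ (univ : Finset (Fin 6))).card : ℝ) ≤ 6 * m' := by
      have : G.card ≤ m' := (card_le_card hG).trans (card_range m').le
      rw [card_product, card_univ, Fintype.card_fin]
      push_cast
      have : (G.card : ℝ) ≤ m' := by exact_mod_cast this
      linarith
    have h3 : ∑ p ∈ G ×ˢ (univ : Finset (Fin 6)), X.QQ N M K F F' b θ (fun c o R ℓ =>
        itemSgn p.2 * ∑ u ∈ s.filter (fun u : ℤ => 0 ≤ u + p.1 ∧ u + p.1 < K), x u *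
          X.Tm M (2 * X.a + 1) K (Function.update (fun l => arr (arrLt F F' G u p.1 K l))
            (u + p.1).toNat (item lin F F' p.2)) c o R ℓ) ≤
        6 * (1 / θ * ∑ u ∈ s, (∑ g ∈ range m', gaW c1 K (u + g)) * x u ^ 2) := by
      refine (Finset.sum_le_sum fun p _ => H.main_A G s x p.1 p.2).trans ?_
      rw [Finset.sum_product]
      simp only [Finset.sum_const, card_univ, Fintype.card_fin, nsmul_eq_mul, Nat.cast_ofNat]
      rw [← Finset.mul_sum, ← Finset.mul_sum, Finset.sum_comm]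
      refine mul_le_mul_of_nonneg_left (mul_le_mul_of_nonneg_left
        (Finset.sum_le_sum fun u _ => ?_) (by positivity)) (by norm_num)
      rw [← Finset.sum_mul]
      exact mul_le_mul_of_nonneg_right (Finset.sum_le_sum_of_subset_of_nonneg hG
        fun g _ _ => gaW_nonneg hc _ _) (sq_nonneg _)
    have h4 := h1.trans (mul_le_mul hcard h3 (Finset.sum_nonneg fun _ _ => X.QQ_nonneg ..)
      (by positivity))
    refine (add_le_add (mul_le_mul_of_nonneg_left h4 (by norm_num))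
      (mul_le_mul_of_nonneg_left h2 (by norm_num))).trans (le_of_eq ?_)
    simp only [Finset.mul_sum (s := s), ← Finset.sum_add_distrib]
    exact Finset.sum_congr rfl fun u _ => by ring


end Pool.Agent.Lib.MP_343fe0_pr
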