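import Pool.Agent.Lib.MP_343fe0_pr.Ex

set_option autoImplicit false

/-! Hoeffding inequality and the Schur test. -/

namespace Pool.Agent.Lib.MP_343fe0_pr

open Finset

variable {Θ : Type} [Fintype Θ] [Inhabited Θ]

omit [Inhabited Θ] in
lemma schur_mgf {p Y : Θ → ℝ} (hp : ∀ θ, 0 ≤ p θ) (h1 : ∑ θ, p θ = 1) {b : ℝ}
    (hY : ∀ θ, |Y θ| ≤ b) (hm : ∑ θ, p θ * Y θ = 0) (l : ℝ) :
    ∑ θ, p θ * Real.exp (l * Y θ) ≤ Real.exp (l ^ 2 * b ^ 2 / 2) := by
  have key : ∀ θ, Real.exp (l * Y θ) ≤ Real.cosh (l * b) + Y θ * (Real.sinh (l * b) / b) := by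
    intro θ
    have hb : 0 ≤ b := (abs_nonneg _).trans (hY θ)
    have h2 : |Y θ / b| ≤ 1 := by
      rw [abs_div, abs_of_nonneg hb]
      exact div_le_one_of_le₀ (hY θ) hb
    have h3 := Real.exp_mul_le_cosh_add_mul_sinh h2 (l * b)
    have h4 : Y θ / b * (l * b) = l * Y θ := by
      rcases hb.eq_or_lt with h | h
      · have h5 := hY θ
        rw [← h, abs_nonpos_iff] at h5
        rw [h5]
        simp
      · field_simp
    rw [h4] at h3
    refine h3.trans (le_of_eq ?_)
    ring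
  calc _ ≤ ∑ θ, p θ * (Real.cosh (l * b) + Y θ * (Real.sinh (l * b) / b)) :=
        sum_le_sum fun θ _ => mul_le_mul_of_nonneg_left (key θ) (hp θ)
    _ = Real.cosh (l * b) := by
        simp only [mul_add, sum_add_distrib, ← mul_assoc, ← sum_mul, h1, hm]
        ring
    _ ≤ _ := by
        rw [← mul_pow]
        exact Real.cosh_le_exp_half_sq _

lemma schur_one_sided {π : ℕ → Θ → ℝ} (hπ : ∀ r θ, 0 ≤ π r θ) (h1 : ∀ r, ∑ θ, π r θ = 1) (n : ℕ)
    (Y : ℕ → Θ → ℝ) (b : ℕ → ℝ) (hY : ∀ r < n, ∀ θ, |Y r θ| ≤ b r)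
    (hmean : ∀ r < n, ∑ θ, π r θ * Y r θ = 0) (v t : ℝ) (hv : 0 < v)
    (hb : ∑ r ∈ range n, b r ^ 2 ≤ v) (ht : 0 ≤ t) :
    EX π n (fun w => ind (t < ∑ r ∈ range n, Y r (w r))) ≤ Real.exp (-(t ^ 2 / (2 * v))) := by
  have hl : 0 ≤ t / v := by positivity
  calc _ ≤ EX π n fun w => Real.exp (-(t / v * t)) *
          ∏ r ∈ range n, Real.exp (t / v * Y r (w r)) := by
        refine EX_mono hπ n fun w => ?_
        rw [← Real.exp_sum, ← Real.exp_add, ← mul_sum]
        by_cases h : t < ∑ r ∈ range n, Y r (w r)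
        · rw [ind_true h]
          apply Real.one_le_exp
          nlinarith
        · rw [ind_false h]
          exact (Real.exp_pos _).le
    _ = Real.exp (-(t / v * t)) * ∏ r ∈ range n, ∑ θ, π r θ * Real.exp (t / v * Y r θ) := by
        rw [EX_mul_left, EX_prod π n fun r θ => Real.exp (t / v * Y r θ)]
    _ ≤ Real.exp (-(t / v * t)) * ∏ r ∈ range n, Real.exp ((t / v) ^ 2 * b r ^ 2 / 2) := by
        refine mul_le_mul_of_nonneg_left (prod_le_prod (fun r _ => sum_nonneg fun θ _ =>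
          mul_nonneg (hπ r θ) (Real.exp_pos _).le) fun r hr => ?_) (Real.exp_pos _).le
        exact schur_mgf (hπ r) (h1 r) (hY r (mem_range.1 hr)) (hmean r (mem_range.1 hr)) _
    _ ≤ _ := by
        rw [← Real.exp_sum, ← Real.exp_add, ← sum_div, ← mul_sum]
        apply Real.exp_le_exp.2
        have h2 := mul_le_mul_of_nonneg_left hb (sq_nonneg (t / v))
        have h3 : (t / v) ^ 2 * v = t ^ 2 / v := by field_simp
        have h4 : t / v * t = t ^ 2 / v := by ring
        have h5 : t ^ 2 / (2 * v) = t ^ 2 / v / 2 := by field_simp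
        linarith

/-- Exponential Chebyshev for a sum of independent bounded centred terms:
`E exp (λ Y) ≤ cosh (λ b) ≤ exp (λ ^ 2 b ^ 2 / 2)` by convexity, `EX_prod`, then optimise `λ = t / v`. -/
lemma EX_hoeffding {π : ℕ → Θ → ℝ} (hπ : ∀ r θ, 0 ≤ π r θ) (h1 : ∀ r, ∑ θ, π r θ = 1) (n : ℕ)
    (Y : ℕ → Θ → ℝ) (b : ℕ → ℝ) (hY : ∀ r < n, ∀ θ, |Y r θ| ≤ b r)
    (hmean : ∀ r < n, ∑ θ, π r θ * Y r θ = 0) (v t : ℝ) (hv : 0 < v)
    (hb : ∑ r ∈ range n, b r ^ 2 ≤ v) (ht : 0 ≤ t) :
    EX π n (fun w => ind (t < |∑ r ∈ range n, Y r (w r)|)) ≤ 2 * Real.exp (-(t ^ 2 / (2 * v))) := by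
  have a1 := schur_one_sided hπ h1 n Y b hY hmean v t hv hb ht
  have a2 := schur_one_sided hπ h1 n (fun r θ => -Y r θ) b
    (fun r hr θ => by rw [abs_neg]; exact hY r hr θ)
    (fun r hr => by simp only [mul_neg, sum_neg_distrib, hmean r hr, neg_zero]) v t hv hb ht
  rw [two_mul]
  refine le_trans ?_ (add_le_add a1 a2)
  rw [← EX_plus]
  refine EX_mono hπ n fun w => le_trans (ind_mono fun h => ?_) (ind_or_le _ _)
  rw [sum_neg_distrib]
  exact lt_abs.1 h

/-- Symmetric positive semidefinite kernels. -/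
def schurP {Xs : Type} [Fintype Xs] (K : Xs → Xs → ℝ) : Prop :=
  (∀ x x', K x x' = K x' x) ∧ ∀ h : Xs → ℝ, 0 ≤ ∑ x, ∑ x', h x * h x' * K x x'

lemma schurP_iff {Xs : Type} [Fintype Xs] (K : Xs → Xs → ℝ) :
    schurP K ↔ (Matrix.of K).PosSemidef := by
  rw [Matrix.posSemidef_iff_dotProduct_mulVec, schurP]
  refine and_congr ⟨fun h => ?_, fun h x x' => ?_⟩ (forall_congr' fun h => ?_)
  · ext x x'
    simp [h x x']
  · simpa using congrFun (congrFun h x') x
  · refine iff_of_eq (congrArg _ ?_)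
    simp only [dotProduct, Matrix.mulVec, Matrix.of_apply, mul_sum, star_trivial]
    exact sum_congr rfl fun x _ => sum_congr rfl fun x' _ => by ring

lemma schurP_mul {Xs : Type} [Fintype Xs] {K K' : Xs → Xs → ℝ} (h : schurP K) (h' : schurP K') :
    schurP fun x x' => K x x' * K' x x' :=
  (schurP_iff _).2 (((schurP_iff _).1 h).hadamard ((schurP_iff _).1 h'))

lemma schurP_add {Xs : Type} [Fintype Xs] {K K' : Xs → Xs → ℝ} (h : schurP K) (h' : schurP K') :
    schurP fun x x' => K x x' + K' x x' := by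
  refine ⟨fun x x' => congrArg₂ (· + ·) (h.1 x x') (h'.1 x x'), fun g => ?_⟩
  simp only [mul_add, sum_add_distrib]
  exact add_nonneg (h.2 g) (h'.2 g)

lemma schurP_prod {Xs : Type} [Fintype Xs] {K K' : ℕ → Xs → Xs → ℝ} (h : ∀ r, schurP (K r))
    (h' : ∀ r, schurP fun x x' => K' r x x' - K r x x') (R : ℕ) :
    schurP (fun x x' => ∏ r ∈ range R, K r x x') ∧
      schurP fun x x' => ∏ r ∈ range R, K' r x x' - ∏ r ∈ range R, K r x x' := by
  induction R with
  | zero =>
    refine ⟨⟨fun _ _ => rfl, fun g => ?_⟩, fun _ _ => rfl, fun g => by simp⟩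
    simp only [range_zero, prod_empty, mul_one]
    rw [← sum_mul_sum]
    exact mul_self_nonneg _
  | succ R ih =>
    simp only [prod_range_succ]
    refine ⟨schurP_mul ih.1 (h R), ?_⟩
    have h2 := schurP_add (schurP_mul ih.2 (schurP_add (h R) (h' R))) (schurP_mul ih.1 (h' R))
    refine (congrArg schurP ?_).mp h2
    funext x x'
    ring

omit [Inhabited Θ] in
lemma schur_gram {Xs : Type} [Fintype Xs] (p : Θ → ℝ) (f : Xs → Θ → ℝ) (g : Xs → ℝ) :
    ∑ x, ∑ x', g x * g x' * ∑ θ, p θ * (f x θ * f x' θ) = ∑ θ, p θ * (∑ x, g x * f x θ) ^ 2 := by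
  simp only [sq, sum_mul_sum]
  simp only [mul_sum]
  symm
  rw [sum_comm]
  refine sum_congr rfl fun x _ => ?_
  rw [sum_comm]
  exact sum_congr rfl fun x' _ => sum_congr rfl fun θ _ => by ring

/-- Schur test with diagonal domination.  Expanding the square and `EX_prod` give
`∑ x x', h x h x' ∏ r, K r x x'` with the Gram kernels
`K r x x' = α r x α r x' + ∑ o, ν r o φ r (lab r x) o φ r (lab r x') o`; `hdom` says that
`K' r - K r` is positive semidefinite, where `K' r` is the kernel on the right.  Hadamard products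
preserve the order (`Matrix.PosSemidef.hadamard`, or by hand: replace one factor at a time). -/
theorem schur {Xs Λ : Type} [Fintype Xs] (R : ℕ) (ν : ℕ → Θ → ℝ) (hν : ∀ r θ, 0 ≤ ν r θ)
    (hν1 : ∀ r, ∑ θ, ν r θ = 1) (φ : ℕ → Λ → Θ → ℝ) (w : ℕ → Λ → ℝ) (hw : ∀ r l, 0 ≤ w r l)
    (hmean : ∀ r l, ∑ θ, ν r θ * φ r l θ = 0)
    (hdom : ∀ r (s : Finset Λ) (y : Λ → ℝ),
      ∑ θ, ν r θ * (∑ l ∈ s, y l * φ r l θ) ^ 2 ≤ ∑ l ∈ s, w r l * y l ^ 2)
    (α : ℕ → Xs → ℝ) (lab : ℕ → Xs → Λ) (h : Xs → ℝ) :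
    EX ν R (fun o => (∑ x, h x * ∏ r ∈ range R, (α r x + φ r (lab r x) (o r))) ^ 2) ≤
      ∑ x, ∑ x', h x * h x' *
        ∏ r ∈ range R, (α r x * α r x' + ind (lab r x = lab r x') * w r (lab r x)) := by
  classical
  have _ := hw
  have hK : ∀ r, schurP fun x x' =>
      ∑ θ, ν r θ * ((α r x + φ r (lab r x) θ) * (α r x' + φ r (lab r x') θ)) := by
    intro r
    refine ⟨fun x x' => sum_congr rfl fun θ _ => by ring, fun g => ?_⟩
    rw [schur_gram (ν r) (fun x θ => α r x + φ r (lab r x) θ) g]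
    exact sum_nonneg fun θ _ => mul_nonneg (hν r θ) (sq_nonneg _)
  have hD : ∀ r, schurP fun x x' =>
      (α r x * α r x' + ind (lab r x = lab r x') * w r (lab r x)) -
        ∑ θ, ν r θ * ((α r x + φ r (lab r x) θ) * (α r x' + φ r (lab r x') θ)) := by
    intro r
    have e : ∀ x x', (α r x * α r x' + ind (lab r x = lab r x') * w r (lab r x)) -
        ∑ θ, ν r θ * ((α r x + φ r (lab r x) θ) * (α r x' + φ r (lab r x') θ)) =
        ind (lab r x = lab r x') * w r (lab r x) -
          ∑ θ, ν r θ * (φ r (lab r x) θ * φ r (lab r x') θ) := by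
      intro x x'
      have e1 : ∀ θ, ν r θ * ((α r x + φ r (lab r x) θ) * (α r x' + φ r (lab r x') θ)) =
          α r x * α r x' * ν r θ + α r x * (ν r θ * φ r (lab r x') θ) +
            α r x' * (ν r θ * φ r (lab r x) θ) +
            ν r θ * (φ r (lab r x) θ * φ r (lab r x') θ) := fun θ => by ring
      simp only [e1, sum_add_distrib, ← mul_sum, hν1, hmean]
      ring
    simp only [e]
    refine ⟨fun x x' => ?_, fun g => ?_⟩
    · refine congrArg₂ (· - ·) ?_ ?_
      · by_cases hx : lab r x = lab r x'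
        · rw [hx]
        · rw [ind_false hx, ind_false (Ne.symm hx), zero_mul, zero_mul]
      · exact sum_congr rfl fun θ _ => by ring
    · simp only [mul_sub, sum_sub_distrib]
      rw [schur_gram (ν r) (fun x θ => φ r (lab r x) θ) g, sub_nonneg]
      have hm : ∀ x ∈ (univ : Finset Xs), lab r x ∈ univ.image (lab r) :=
        fun x hx => mem_image_of_mem _ hx
      have h1 := hdom r (univ.image (lab r)) fun l => ∑ x with lab r x = l, g x
      have e1 : ∀ θ, ∑ l ∈ univ.image (lab r), (∑ x with lab r x = l, g x) * φ r l θ =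
          ∑ x, g x * φ r (lab r x) θ := by
        intro θ
        rw [← sum_fiberwise_of_maps_to hm]
        refine sum_congr rfl fun l _ => ?_
        rw [sum_mul]
        exact sum_congr rfl fun x hx => by rw [(mem_filter.1 hx).2]
      have e2 : ∑ l ∈ univ.image (lab r), w r l * (∑ x with lab r x = l, g x) ^ 2 =
          ∑ x, ∑ x', g x * g x' * (ind (lab r x = lab r x') * w r (lab r x)) := by
        rw [← sum_fiberwise_of_maps_to hm]
        refine sum_congr rfl fun l _ => ?_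
        rw [sq, sum_mul, mul_sum]
        refine sum_congr rfl fun x hx => ?_
        rw [(mem_filter.1 hx).2, sum_filter, mul_sum, mul_sum]
        refine sum_congr rfl fun x' _ => ?_
        by_cases hx' : lab r x' = l
        · rw [if_pos hx', ind_true hx'.symm]
          ring
        · rw [if_neg hx', ind_false (Ne.symm hx')]
          ring
      simpa only [e1, e2] using h1
  have h2 := (schurP_prod hK hD R).2.2 h
  simp only [mul_sub, sum_sub_distrib, sub_nonneg] at h2
  refine le_trans (le_of_eq ?_) h2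
  simp only [sq, sum_mul_sum, EX_sum]
  refine sum_congr rfl fun x _ => sum_congr rfl fun x' _ => ?_
  rw [← EX_prod ν R fun r θ => (α r x + φ r (lab r x) θ) * (α r x' + φ r (lab r x') θ),
    ← EX_mul_left]
  congr 1
  funext o
  rw [prod_mul_distrib]
  ring

end Pool.Agent.Lib.MP_343fe0_pr
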