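import Pool.Agent.Lib.MP_343fe0_pr.Seg
import Pool.Agent.Lib.MP_343fe0_pr.Schur

set_option autoImplicit false

/-! Probability of bad contexts; overlap of two consecutive numbers of blocks. -/

namespace Pool.Agent.Lib.MP_343fe0_pr

open Finset

lemma badB_nonneg (β b : ℝ) (M N : ℕ) : 0 ≤ badB β b M N := by
  unfold badB; positivity

section Aux

variable {a : ℕ}

lemma good_mean (β : ℝ) (F : Option Bool → Bool → ℝ) :
    ∑ c : Ctx a, ∑ ξ, kap β c * pr (1 / 2) c ξ * F c.2 ξ =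
      ∑ ξ : Bool, (β * F none ξ + (1 - β) * F (some ξ) ξ) / 2 := by
  rw [Finset.sum_comm]
  refine Finset.sum_congr rfl fun ξ _ => ?_
  rw [Fintype.sum_prod_type]
  have h : ∀ i : Fin (a + 1), ∑ t : Option Bool,
      kap β ((i, t) : Ctx a) * pr (1 / 2) ((i, t) : Ctx a) ξ * F ((i, t) : Ctx a).2 ξ =
      (β * F none ξ + (1 - β) * F (some ξ) ξ) / (2 * ((a : ℝ) + 1)) := fun i =>
    kap_pr_sum β i ξ fun t => F t ξ
  rw [Finset.sum_congr rfl fun i _ => h i, Finset.sum_const, Finset.card_univ, Fintype.card_fin,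
    nsmul_eq_mul]
  have ha : (0 : ℝ) < (a : ℝ) + 1 := by positivity
  push_cast
  field_simp

lemma good_AX_supp {β : ℝ} (h0 : 0 ≤ β) (h1 : β ≤ 1) (n : ℕ)
    {F G : (ℕ → Ctx a) → (ℕ → Bool) → ℝ}
    (h : ∀ c ξ, (∀ r < n, pr (1 / 2) (c r) (ξ r) ≠ 0) → F c ξ ≤ G c ξ) :
    AX β n F ≤ AX β n G := by
  unfold AX QX
  refine EX_mono (fun _ c => kap_nonneg h0 h1 c) n fun c => ?_
  exact EX_mono_supp (fun r ξ => pr_nonneg (by norm_num) (by norm_num) (c r) ξ) n fun ξ hξ =>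
    h c ξ hξ

lemma good_AX_QX {β : ℝ} (h0 : 0 ≤ β) (h1 : β ≤ 1) (n : ℕ)
    {F : (ℕ → Ctx a) → (ℕ → Bool) → ℝ} (B : ℝ) (h : ∀ c, QX c n (F c) ≤ B) : AX β n F ≤ B := by
  unfold AX
  refine (EX_mono (G := fun _ => B) (fun _ c => kap_nonneg h0 h1 c) n fun c => h c).trans ?_
  rw [EX_const (fun _ => kap_sum β)]

lemma good_sum_End (ha : 1 ≤ a) (s E R : ℕ) (c : ℕ → Ctx a) (ξ : ℕ → Bool) :
    ∑ ℓ : Lab a, ind (End s E c ξ R ℓ) ≤ 1 := by
  refine le_trans ?_ (sum_End_le ha s E R c ξ)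
  exact Finset.single_le_sum (f := fun R' => ∑ ℓ : Lab a, ind (End s E c ξ R' ℓ))
    (fun R' _ => Finset.sum_nonneg fun ℓ _ => ind_nonneg _) (Finset.self_mem_range_succ R)

lemma good_sum_End_mul (ha : 1 ≤ a) (s E R : ℕ) (c : ℕ → Ctx a) (ξ : ℕ → Bool) (A : Lab a → ℝ)
    (B : ℝ) (hB : 0 ≤ B) (h : ∀ ℓ, End s E c ξ R ℓ → A ℓ ≤ B) :
    ∑ ℓ : Lab a, A ℓ * ind (End s E c ξ R ℓ) ≤ B := by
  calc ∑ ℓ : Lab a, A ℓ * ind (End s E c ξ R ℓ) ≤ ∑ ℓ : Lab a, B * ind (End s E c ξ R ℓ) := by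
        refine Finset.sum_le_sum fun ℓ _ => ?_
        by_cases hE : End s E c ξ R ℓ
        · exact mul_le_mul_of_nonneg_right (h ℓ hE) (ind_nonneg _)
        · rw [ind_false hE, mul_zero, mul_zero]
    _ = B * ∑ ℓ : Lab a, ind (End s E c ξ R ℓ) := by rw [Finset.mul_sum]
    _ ≤ B := mul_le_of_le_one_right hB (good_sum_End ha s E R c ξ)

/-- The centred coin. -/
def goodY (t : Option Bool) (ξ : Bool) : ℝ := if t = none then (if ξ then 1 else -1) else 0

lemma good_abs_Y (t : Option Bool) (ξ : Bool) : |goodY t ξ| ≤ 1 := by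
  unfold goodY
  split_ifs <;> simp

lemma good_mean_Y (c : Ctx a) : ∑ ξ, pr (1 / 2) c ξ * goodY c.2 ξ = 0 := by
  rcases c with ⟨i, _ | b⟩
  · simp [pr, goodY]; norm_num
  · simp [goodY]

lemma good_sum_Y (c : ℕ → Ctx a) (ξ : ℕ → Bool) (n : ℕ) :
    ∑ r ∈ range n, goodY (c r).2 (ξ r) =
      2 * (((range n).filter fun r => (c r).2 = none ∧ ξ r = true).card : ℝ) - coins c 0 n := by
  unfold coins
  rw [← Finset.range_eq_Ico, Finset.card_filter, Finset.card_filter]
  push_cast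
  rw [Finset.mul_sum, ← Finset.sum_sub_distrib]
  refine Finset.sum_congr rfl fun r _ => ?_
  unfold goodY
  by_cases h1 : (c r).2 = none <;> by_cases h2 : ξ r = true <;> simp [h1, h2] <;> norm_num

lemma good_jj {s E R : ℕ} {c : ℕ → Ctx a} {ξ : ℕ → Bool} {ℓ : Lab a} (h : End s E c ξ R ℓ)
    (hs : ∀ r < R, pr (1 / 2) (c r) (ξ r) ≠ 0) :
    2 * (jj s E c R ℓ : ℝ) - coins c 0 (R - 1) = ∑ r ∈ range (R - 1), goodY (c r).2 (ξ r) := by
  have hR := h.one_le
  obtain ⟨-, h2, h3⟩ := h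
  have h4 := pos_eq_base (ϱ := 1 / 2) s (R - 1) c ξ fun r hr => hs r (by omega)
  have h5 := pos_succ s c ξ (R - 1)
  rw [Nat.sub_add_cancel hR, h3, h2, h4] at h5
  have h6 : jj s E c R ℓ =
      (((range (R - 1)).filter fun r => (c r).2 = none ∧ ξ r = true).card : ℤ) := by
    unfold jj
    omega
  rw [good_sum_Y, h6]
  push_cast
  ring

lemma good_coins_sum (c : ℕ → Ctx a) (t t' : ℕ) :
    (coins c t t' : ℝ) = ∑ r ∈ Ico t t', (if (c r).2 = none then (1 : ℝ) else 0) := by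
  unfold coins
  rw [Finset.card_filter]
  push_cast
  rfl

/-- The factor of the exponential bound for a poor window. -/
noncomputable def goodW (β : ℝ) (t t' r : ℕ) (u : Option Bool) : ℝ :=
  if t ≤ r ∧ r < t' then Real.exp (β / 2 - if u = none then 1 else 0) else 1

lemma good_W_nonneg (β : ℝ) (t t' r : ℕ) (u : Option Bool) : 0 ≤ goodW β t t' r u := by
  unfold goodW
  split_ifs <;> positivity

lemma good_W_prod (β : ℝ) {t t' R : ℕ} (h1 : t ≤ t') (h2 : t' ≤ R) (c : ℕ → Ctx a) :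
    ∏ r ∈ range R, goodW β t t' r (c r).2 =
      Real.exp (β * ((t' : ℝ) - t) / 2 - coins c t t') := by
  unfold goodW
  rw [← Finset.prod_filter]
  have h3 : (range R).filter (fun r => t ≤ r ∧ r < t') = Ico t t' := by
    ext r; simp only [Finset.mem_filter, Finset.mem_range, Finset.mem_Ico]; omega
  rw [h3, ← Real.exp_sum, Finset.sum_sub_distrib, ← good_coins_sum, Finset.sum_const, Nat.card_Ico,
    nsmul_eq_mul, Nat.cast_sub h1]
  congr 1; ring

lemma good_W_mean {β : ℝ} (h0 : 0 ≤ β) (t t' r : ℕ) :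
    ∑ c : Ctx a, ∑ ξ, kap β c * pr (1 / 2) c ξ * goodW β t t' r c.2 ≤ 1 := by
  rw [good_mean β fun u _ => goodW β t t' r u]
  unfold goodW
  by_cases h : t ≤ r ∧ r < t'
  · simp only [if_pos h, Fintype.sum_bool, if_true, reduceCtorEq, if_false, sub_zero]
    have h1 : Real.exp (β / 2 - 1) ≤ Real.exp (β / 2) / 2 := by
      rw [Real.exp_sub]
      have h2 : (2 : ℝ) ≤ Real.exp 1 := by
        have := Real.add_one_le_exp (1 : ℝ); linarith
      exact div_le_div_of_nonneg_left (Real.exp_pos _).le (by norm_num) h2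
    have h3 : (1 - β / 2) * Real.exp (β / 2) ≤ 1 := by
      have h4 := Real.add_one_le_exp (-(β / 2))
      have h5 : Real.exp (-(β / 2)) * Real.exp (β / 2) = 1 := by rw [← Real.exp_add]; simp
      have h6 := Real.exp_pos (β / 2)
      nlinarith
    have h7 := mul_le_mul_of_nonneg_left h1 h0
    nlinarith
  · simp only [if_neg h, Fintype.sum_bool]
    linarith

lemma good_W_AX {β : ℝ} (h0 : 0 ≤ β) (h1 : β ≤ 1) (t t' R : ℕ) :
    AX β R (fun (c : ℕ → Ctx a) _ => ∏ r ∈ range R, goodW β t t' r (c r).2) ≤ 1 := by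
  rw [AX_prod β R fun r c _ => goodW β t t' r c.2]
  refine Finset.prod_le_one (fun r _ => ?_) fun r _ => good_W_mean h0 t t' r
  exact Finset.sum_nonneg fun c _ => Finset.sum_nonneg fun ξ _ =>
    mul_nonneg (mul_nonneg (kap_nonneg h0 h1 c) (pr_nonneg (by norm_num) (by norm_num) c ξ))
      (good_W_nonneg _ _ _ _ _)

lemma good_hoeff (c : ℕ → Ctx a) (R : ℕ) (v t : ℝ) (hv : 0 < v) (hR : (R : ℝ) ≤ v) (ht : 0 ≤ t) :
    QX c R (fun ξ => ind (t < |∑ r ∈ range (R - 1), goodY (c r).2 (ξ r)|)) ≤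
      2 * Real.exp (-(t ^ 2 / (2 * v))) := by
  have h := EX_hoeffding (π := fun r => pr (1 / 2) (c r))
    (fun r ξ => pr_nonneg (by norm_num) (by norm_num) (c r) ξ) (fun r => pr_sum _ (c r)) R
    (fun r ξ => if r < R - 1 then goodY (c r).2 ξ else 0) (fun _ => 1)
    (fun r _ ξ => by
      split_ifs
      · exact good_abs_Y _ _
      · simp)
    (fun r _ => by
      by_cases hr : r < R - 1
      · simp only [if_pos hr]; exact good_mean_Y (c r)
      · simp only [if_neg hr, mul_zero, Finset.sum_const_zero])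
    v t hv (by simpa using hR) ht
  have h2 : ∀ ξ : ℕ → Bool, ∑ r ∈ range R, (if r < R - 1 then goodY (c r).2 (ξ r) else 0) =
      ∑ r ∈ range (R - 1), goodY (c r).2 (ξ r) := by
    intro ξ
    rw [← Finset.sum_filter]
    congr 1
    ext r; simp only [Finset.mem_filter, Finset.mem_range]; omega
  simp only [h2] at h
  exact h

lemma good_mgf_mean {β : ℝ} (h0 : 0 ≤ β) (h1 : β ≤ 1) (l : ℝ) :
    ∑ c : Ctx a, ∑ ξ, kap β c * pr (1 / 2) c ξ * Real.exp (l * goodY c.2 ξ) ≤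
      Real.exp (l ^ 2 / 2) := by
  rw [good_mean β fun u ξ => Real.exp (l * goodY u ξ)]
  simp only [Fintype.sum_bool, goodY, if_true, reduceCtorEq, if_false, mul_zero, Real.exp_zero,
    mul_one, Bool.false_eq_true, mul_neg]
  have h2 := Real.cosh_le_exp_half_sq l
  have h3 := Real.one_le_cosh l
  rw [Real.cosh_eq] at h2 h3
  nlinarith

lemma good_cut (f : ℕ → ℝ) (hf : ∀ R, 0 ≤ f R) (N v : ℕ) (h : ∀ R, v < R → f R = 0) :
    ∑ R ∈ range (N + 1), f R ≤ ∑ R ∈ range (v + 1), f R := by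
  rw [← Finset.sum_filter_of_ne (s := range (N + 1)) (p := fun R => R ≤ v)
    (fun R _ hR => by by_contra hc; exact hR (h R (not_le.mp hc)))]
  refine Finset.sum_le_sum_of_subset_of_nonneg (fun R hR => ?_) fun R _ _ => hf R
  simp only [Finset.mem_filter, Finset.mem_range] at hR ⊢
  omega

lemma good_stop (ha : 1 ≤ a) {β : ℝ} (h0 : 0 ≤ β) (h1 : β ≤ 1) (l : ℝ) (M K s N : ℕ) :
    ∑ R ∈ range (N + 1), AX β R (fun (c : ℕ → Ctx a) ξ =>
      ∑ ℓ : Lab a, ind (End s (K * LL a M) c ξ R ℓ) *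
        ∏ r ∈ range R, Real.exp (l * goodY (c r).2 (ξ r))) ≤
      Real.exp (l ^ 2 / 2) ^ (6 * M * K) := by
  refine le_trans (good_cut _ (fun R => ?_) N (6 * M * K) fun R hR => ?_)
    (stop_mgf ha h0 h1 (fun c ξ => Real.exp (l * goodY c.2 ξ)) (fun _ _ => (Real.exp_pos _).le) _
      (Real.one_le_exp (by positivity)) (good_mgf_mean h0 h1 l) (K * LL a M) (6 * M * K) s)
  · rw [← AX_const (a := a) β R 0]
    exact AX_mono h0 h1 R fun c ξ => Finset.sum_nonneg fun ℓ _ =>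
      mul_nonneg (ind_nonneg _) (Finset.prod_nonneg fun r _ => (Real.exp_pos _).le)
  · rw [← AX_const (a := a) β R 0]
    congr 1
    funext c ξ
    refine Finset.sum_eq_zero fun ℓ _ => ?_
    rw [ind_false fun hE => absurd (End_R_le ha hE) (by omega), zero_mul]

end Aux

namespace Model

variable {m : ℕ} (X : Model m)

/-- On good data there are many coins: `R - 1 ≥ 2 M K - 2` (`End_R_ge`). -/
lemma coins_ge {M K s N : ℕ} {b : ℝ} (G : X.Geo M K s N b) {c : ℕ → Ctx X.a} {ξ : ℕ → Bool} {R : ℕ}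
    {ℓ : Lab X.a} (h : End s (K * LL X.a M) c ξ R ℓ)
    (hw : ∀ t t' : ℕ, t ≤ t' → t' ≤ R → X.β * ((t' : ℝ) - t) / 2 - b ≤ coins c t t') :
    X.β * M * K / 2 ≤ coins c 0 (R - 1) := by
  have hR := h.one_le
  have h1 := End_R_ge G.hs h
  have h2 := hw 0 (R - 1) (Nat.zero_le _) (Nat.sub_le _ _)
  rw [Nat.cast_sub hR] at h2
  have h3 : (2 : ℝ) * M * K ≤ R + 1 := by exact_mod_cast h1
  have h4 : (1 : ℝ) ≤ K := by exact_mod_cast G.hK
  have hβ := X.β_pos
  have hM : (0 : ℝ) ≤ M := Nat.cast_nonneg M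
  have h5 := G.hb
  have h6 : X.β * M * 1 ≤ X.β * M * K := mul_le_mul_of_nonneg_left h4 (by positivity)
  have h7 := mul_le_mul_of_nonneg_left h3 hβ.le
  have h8 : 0 ≤ X.β * M := by positivity
  push_cast at h2
  nlinarith

lemma good_Tot (N s E : ℕ) (A : (ℕ → Ctx X.a) → ℕ → Lab X.a → ℝ) :
    X.Tot N (fun c _ R ℓ => A c R ℓ * gg s E c R ℓ) =
      ∑ R ∈ range (N + 1), AX X.β R fun c ξ => ∑ ℓ, A c R ℓ * ind (End s E c ξ R ℓ) := by
  rw [← X.Tot_QX N fun c ξ R ℓ => A c R ℓ * ind (End s E c ξ R ℓ)]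
  congr 1
  funext c o R ℓ
  unfold gg QX
  rw [EX_mul_left]

/-- `Tot_QX`; union bound over `R` and the windows `t ≤ t' ≤ R`: the indicator of a poor window is at most
`exp (-b) * ∏ r ∈ [t,t'), exp (β/2 - ind (coin))`, each factor having mean `exp (β/2) (1 - β (1 - 1/e)) ≤ 1` (`AX_prod`).
If all windows are rich and the tilt condition fails then, on paths of nonzero weight with `End` (`pos_eq_base`),
`|∑ r < R-1, ind (coin) (2 ξ r - 1)| = |2 jj - coins| > coins / 2 ≥ β M K / 4` with `R ≤ 6 M K`; given the contexts use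
`EX_hoeffding` with `v = 6 M K`. -/
theorem bad_bound {M K s N : ℕ} {b : ℝ} (G : X.Geo M K s N b) :
    X.Tot N (fun c _ R ℓ => ind (¬ Good X.β b s (K * LL X.a M) c R ℓ) *
      gg s (K * LL X.a M) c R ℓ) ≤ badB X.β b M N := by
  have hβ0 := X.β_pos
  have hβ1 : X.β ≤ 1 := X.β_le.trans (by norm_num)
  have hM : (2 : ℝ) ≤ M := by exact_mod_cast G.hM
  have hK : (1 : ℝ) ≤ K := by exact_mod_cast G.hK
  rw [X.good_Tot N s (K * LL X.a M) fun c R ℓ => ind (¬ Good X.β b s (K * LL X.a M) c R ℓ)]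
  have hterm : ∀ R ∈ range (N + 1), (AX X.β R fun (c : ℕ → Ctx X.a) ξ =>
      ∑ ℓ, ind (¬ Good X.β b s (K * LL X.a M) c R ℓ) * ind (End s (K * LL X.a M) c ξ R ℓ)) ≤
      ((N : ℝ) + 1) ^ 2 * Real.exp (-b) + 2 * Real.exp (-(X.β ^ 2 * M / 192)) := by
    intro R hRN
    have hRN' : R ≤ N := by simpa [Nat.lt_succ_iff] using hRN
    refine le_trans (good_AX_supp hβ0.le hβ1 R (G := fun c ξ =>
      (∑ t ∈ range (N + 1), ∑ t' ∈ range (N + 1),
        Real.exp (-b) * ∏ r ∈ range R, goodW X.β t t' r (c r).2) +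
      ind (R ≤ 6 * M * K) *
        ind (X.β * M * K / 4 < |∑ r ∈ range (R - 1), goodY (c r).2 (ξ r)|)) fun c ξ hs => ?_) ?_
    · have hA : 0 ≤ ∑ t ∈ range (N + 1), ∑ t' ∈ range (N + 1),
          Real.exp (-b) * ∏ r ∈ range R, goodW X.β t t' r (c r).2 :=
        Finset.sum_nonneg fun t _ => Finset.sum_nonneg fun t' _ =>
          mul_nonneg (Real.exp_pos _).le (Finset.prod_nonneg fun r _ => good_W_nonneg _ _ _ _ _)
      have hB : 0 ≤ ind (R ≤ 6 * M * K) *
          ind (X.β * M * K / 4 < |∑ r ∈ range (R - 1), goodY (c r).2 (ξ r)|) :=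
        mul_nonneg (ind_nonneg _) (ind_nonneg _)
      refine good_sum_End_mul X.a_pos s _ R c ξ _ _ (add_nonneg hA hB) fun ℓ hE => ?_
      by_cases hG : Good X.β b s (K * LL X.a M) c R ℓ
      · rw [ind_false (not_not.mpr hG)]; exact add_nonneg hA hB
      rw [ind_true hG]
      by_cases hw : ∀ t t' : ℕ, t ≤ t' → t' ≤ R → X.β * ((t' : ℝ) - t) / 2 - b ≤ coins c t t'
      · have h1 := X.coins_ge G hE hw
        have h2 := good_jj hE hs
        have h3 : ¬ ((coins c 0 (R - 1) : ℤ) ≤ 4 * jj s (K * LL X.a M) c R ℓ ∧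
            4 * jj s (K * LL X.a M) c R ℓ ≤ 3 * coins c 0 (R - 1)) := fun h => hG ⟨hw, h⟩
        have h4 : X.β * M * K / 4 < |∑ r ∈ range (R - 1), goodY (c r).2 (ξ r)| := by
          rw [← h2]
          rcases not_and_or.mp h3 with h5 | h5
          · have h6 : 4 * (jj s (K * LL X.a M) c R ℓ : ℝ) < coins c 0 (R - 1) := by
              exact_mod_cast not_le.mp h5
            refine lt_of_lt_of_le ?_ (neg_le_abs _)
            linarith
          · have h6 : 3 * (coins c 0 (R - 1) : ℝ) < 4 * (jj s (K * LL X.a M) c R ℓ : ℝ) := by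
              exact_mod_cast not_le.mp h5
            refine lt_of_lt_of_le ?_ (le_abs_self _)
            linarith
        rw [ind_true h4, ind_true (End_R_le X.a_pos hE)]
        linarith
      · push Not at hw
        obtain ⟨t, t', h1, h2, h3⟩ := hw
        have h4 : 1 ≤ Real.exp (-b) * ∏ r ∈ range R, goodW X.β t t' r (c r).2 := by
          rw [good_W_prod X.β h1 h2 c, ← Real.exp_add]
          exact Real.one_le_exp (by linarith)
        have h5 : Real.exp (-b) * ∏ r ∈ range R, goodW X.β t t' r (c r).2 ≤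
            ∑ t' ∈ range (N + 1), Real.exp (-b) * ∏ r ∈ range R, goodW X.β t t' r (c r).2 :=
          Finset.single_le_sum
            (f := fun t' => Real.exp (-b) * ∏ r ∈ range R, goodW X.β t t' r (c r).2)
            (fun t' _ => mul_nonneg (Real.exp_pos _).le
              (Finset.prod_nonneg fun r _ => good_W_nonneg _ _ _ _ _))
            (Finset.mem_range.mpr (by omega))
        have h6 : ∑ t' ∈ range (N + 1), Real.exp (-b) * ∏ r ∈ range R, goodW X.β t t' r (c r).2 ≤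
            ∑ t ∈ range (N + 1), ∑ t' ∈ range (N + 1),
              Real.exp (-b) * ∏ r ∈ range R, goodW X.β t t' r (c r).2 :=
          Finset.single_le_sum
            (f := fun t => ∑ t' ∈ range (N + 1),
              Real.exp (-b) * ∏ r ∈ range R, goodW X.β t t' r (c r).2)
            (fun t _ => Finset.sum_nonneg fun t' _ => mul_nonneg (Real.exp_pos _).le
              (Finset.prod_nonneg fun r _ => good_W_nonneg _ _ _ _ _))
            (Finset.mem_range.mpr (by omega))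
        linarith
    · rw [AX_plus]
      refine add_le_add ?_ ?_
      · rw [AX_sum]
        calc ∑ t ∈ range (N + 1), AX X.β R (fun (c : ℕ → Ctx X.a) _ => ∑ t' ∈ range (N + 1),
              Real.exp (-b) * ∏ r ∈ range R, goodW X.β t t' r (c r).2)
            ≤ ∑ t ∈ range (N + 1), ∑ t' ∈ range (N + 1), Real.exp (-b) := by
              refine Finset.sum_le_sum fun t _ => ?_
              rw [AX_sum]
              refine Finset.sum_le_sum fun t' _ => ?_
              rw [AX_mul_left]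
              exact mul_le_of_le_one_right (Real.exp_pos _).le (good_W_AX hβ0.le hβ1 t t' R)
          _ = ((N : ℝ) + 1) ^ 2 * Real.exp (-b) := by
              simp only [Finset.sum_const, Finset.card_range, nsmul_eq_mul]
              push_cast
              ring
      · rw [AX_mul_left]
        by_cases hR : R ≤ 6 * M * K
        · rw [ind_true hR, one_mul]
          refine good_AX_QX hβ0.le hβ1 R _ fun c => ?_
          have hv : (0 : ℝ) < 6 * M * K := by positivity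
          refine (good_hoeff c R (6 * M * K) (X.β * M * K / 4) hv (by exact_mod_cast hR)
            (by positivity)).trans ?_
          refine mul_le_mul_of_nonneg_left (Real.exp_le_exp.mpr (neg_le_neg ?_)) (by norm_num)
          have h1 : (X.β * M * K / 4) ^ 2 / (2 * (6 * M * K)) = X.β ^ 2 * M / 192 * K := by
            field_simp
            ring
          rw [h1]
          exact le_mul_of_one_le_right (by positivity) hK
        · rw [ind_false hR, zero_mul]
          positivity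
  refine (Finset.sum_le_sum hterm).trans (le_of_eq ?_)
  simp only [Finset.sum_const, Finset.card_range, nsmul_eq_mul, badB]
  push_cast
  ring

/-- Deviation at the stopping time: `stop_mgf` with `φ = exp (± λ ind (coin) (2ξ - 1))`, `κ = exp (λ^2/2)`, the sum over `R`
cut at `6 M K` (`End_R_le`), `λ = 2 / √(6 M K)`; the last step changes the sum by at most `1`; `2 exp (-2) ≤ 3/10`. -/
theorem dev_bound {M K s N : ℕ} {b : ℝ} (G : X.Geo M K s N b) :
    X.Tot N (fun c _ R ℓ =>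
      ind (2 * √(6 * (M : ℝ) * K) + 1 <
        |2 * (jj s (K * LL X.a M) c R ℓ : ℝ) - coins c 0 (R - 1)|) *
      gg s (K * LL X.a M) c R ℓ) ≤ 3 / 10 := by
  have hβ0 := X.β_pos
  have hβ1 : X.β ≤ 1 := X.β_le.trans (by norm_num)
  have hM : (2 : ℝ) ≤ M := by exact_mod_cast G.hM
  have hK : (1 : ℝ) ≤ K := by exact_mod_cast G.hK
  have hv : (0 : ℝ) < 6 * (M : ℝ) * K := by positivity
  have hsq : 0 < √(6 * (M : ℝ) * K) := Real.sqrt_pos.mpr hv
  set l : ℝ := 2 / √(6 * (M : ℝ) * K) with hl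
  have hl0 : 0 < l := by positivity
  have hl1 : l * (2 * √(6 * (M : ℝ) * K)) = 4 := by
    rw [hl]; field_simp; norm_num
  have hl2 : Real.exp (l ^ 2 / 2) ^ (6 * M * K) = Real.exp 2 := by
    rw [← Real.exp_nat_mul, hl, div_pow, Real.sq_sqrt hv.le]
    congr 1
    push_cast
    field_simp
  rw [X.good_Tot N s (K * LL X.a M) fun c R ℓ => ind (2 * √(6 * (M : ℝ) * K) + 1 <
    |2 * (jj s (K * LL X.a M) c R ℓ : ℝ) - coins c 0 (R - 1)|)]
  have hterm : ∀ R ∈ range (N + 1), (AX X.β R fun (c : ℕ → Ctx X.a) ξ =>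
      ∑ ℓ, ind (2 * √(6 * (M : ℝ) * K) + 1 <
        |2 * (jj s (K * LL X.a M) c R ℓ : ℝ) - coins c 0 (R - 1)|) *
        ind (End s (K * LL X.a M) c ξ R ℓ)) ≤
      Real.exp (-4) * (AX X.β R (fun (c : ℕ → Ctx X.a) ξ =>
        ∑ ℓ : Lab X.a, ind (End s (K * LL X.a M) c ξ R ℓ) *
          ∏ r ∈ range R, Real.exp (l * goodY (c r).2 (ξ r))) +
        AX X.β R (fun (c : ℕ → Ctx X.a) ξ =>
        ∑ ℓ : Lab X.a, ind (End s (K * LL X.a M) c ξ R ℓ) *
          ∏ r ∈ range R, Real.exp (-l * goodY (c r).2 (ξ r)))) := by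
    intro R _
    rw [← AX_plus, ← AX_mul_left]
    refine good_AX_supp hβ0.le hβ1 R fun c ξ hs => ?_
    rw [← Finset.sum_add_distrib, Finset.mul_sum]
    refine Finset.sum_le_sum fun ℓ _ => ?_
    by_cases hE : End s (K * LL X.a M) c ξ R ℓ
    · rw [ind_true hE, mul_one, one_mul, one_mul, ← Real.exp_sum, ← Real.exp_sum,
        ← Finset.mul_sum, ← Finset.mul_sum, good_jj hE hs]
      by_cases hd : 2 * √(6 * (M : ℝ) * K) + 1 < |∑ r ∈ range (R - 1), goodY (c r).2 (ξ r)|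
      · rw [ind_true hd]
        have h1 : ∑ r ∈ range R, goodY (c r).2 (ξ r) =
            ∑ r ∈ range (R - 1), goodY (c r).2 (ξ r) + goodY (c (R - 1)).2 (ξ (R - 1)) := by
          rw [← Finset.sum_range_succ, Nat.sub_add_cancel hE.one_le]
        have h2 := abs_le.mp (good_abs_Y (c (R - 1)).2 (ξ (R - 1)))
        have e1 := Real.exp_pos (l * ∑ r ∈ range R, goodY (c r).2 (ξ r))
        have e2 := Real.exp_pos (-l * ∑ r ∈ range R, goodY (c r).2 (ξ r))
        have e3 := Real.exp_pos (-4 : ℝ)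
        rcases lt_abs.mp hd with h3 | h3
        · have h4 : 2 * √(6 * (M : ℝ) * K) ≤ ∑ r ∈ range R, goodY (c r).2 (ξ r) := by linarith
          have h5 := mul_le_mul_of_nonneg_left h4 hl0.le
          have h6 : 1 ≤ Real.exp (-4) * Real.exp (l * ∑ r ∈ range R, goodY (c r).2 (ξ r)) := by
            rw [← Real.exp_add]
            exact Real.one_le_exp (by linarith)
          nlinarith
        · have h4 : 2 * √(6 * (M : ℝ) * K) ≤ -∑ r ∈ range R, goodY (c r).2 (ξ r) := by linarith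
          have h5 := mul_le_mul_of_nonneg_left h4 hl0.le
          have h6 : 1 ≤ Real.exp (-4) * Real.exp (-l * ∑ r ∈ range R, goodY (c r).2 (ξ r)) := by
            rw [← Real.exp_add]
            exact Real.one_le_exp (by linarith)
          nlinarith
      · rw [ind_false hd]
        positivity
    · simp only [ind_false hE, mul_zero, zero_mul, add_zero, le_refl]
  refine (Finset.sum_le_sum hterm).trans ?_
  rw [← Finset.mul_sum, Finset.sum_add_distrib]
  have h1 := good_stop X.a_pos hβ0.le hβ1 l M K s N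
  have h2 := good_stop X.a_pos hβ0.le hβ1 (-l) M K s N
  rw [neg_sq] at h2
  rw [hl2] at h1 h2
  have h3 : Real.exp (-4) * (Real.exp 2 + Real.exp 2) ≤ 3 / 10 := by
    have h4 : Real.exp (-4) * Real.exp 2 * (Real.exp 1 * Real.exp 1) = 1 := by
      rw [← Real.exp_add, ← Real.exp_add, ← Real.exp_add]; norm_num
    have h5 : (2.7 : ℝ) < Real.exp 1 := lt_trans (by norm_num) Real.exp_one_gt_d9
    have h6 : (7 : ℝ) ≤ Real.exp 1 * Real.exp 1 := by nlinarith
    have h7 : 0 < Real.exp (-4) * Real.exp 2 := by positivity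
    nlinarith
  exact (mul_le_mul_of_nonneg_left (add_le_add h1 h2) (Real.exp_pos _).le).trans h3

end Model

/-- `gg_eq`: the two weights are `bin (1/2) n j` and `bin (1/2) n (j + L)` times a common factor.  On good data of nonzero
weight `n ≥ β M k / 2 ≥ β c0 L ^ 2 / 8` (`coins_ge`), so `bin_ratio` applies with `A = 16 / (β c0)` off the event of
`dev_bound`; total mass is one (`Tot_gg_eq`); take `o0 = κ / 2`. -/
theorem overlap (β c0 : ℝ) (hβ : 0 < β) (hc : 0 < c0) (hc1 : c0 ≤ 1) :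
    ∃ o0 : ℝ, 0 < o0 ∧ o0 ≤ 1 ∧ ∃ M0 : ℕ, ∀ (m : ℕ) (X : Model m) (M k N : ℕ) (b : ℝ), X.β = β →
      X.Geo M k (2 * X.a + 1) N b → M0 ≤ M → c0 * (2 * (X.a : ℝ) + 1) ^ 2 * M ≤ k →
      badB β b M N ≤ 1 / 5 →
      o0 ≤ X.Tot N fun c _ R ℓ => min (gg (2 * X.a + 1) (k * LL X.a M) c R ℓ)
        (gg (2 * X.a + 1) ((k + 1) * LL X.a M) c R ℓ) := by
  obtain ⟨κ, hκ0, hκ1, n0, hκ⟩ := bin_ratio (16 / (β * c0)) (by positivity)
  refine ⟨κ / 2, by positivity, by linarith, ⌈2 * ((n0 : ℝ) + 1) / β⌉₊, ?_⟩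
  intro m X M k N b hXβ G hM0 hk hbad
  subst hXβ
  have hβ1 : X.β ≤ 1 := X.β_le.trans (by norm_num)
  have hM : (2 : ℝ) ≤ M := by exact_mod_cast G.hM
  have hK : (1 : ℝ) ≤ k := by exact_mod_cast G.hK
  have hM1 : 2 * ((n0 : ℝ) + 1) / X.β ≤ M := Nat.ceil_le.mp hM0
  have hM2 : 2 * ((n0 : ℝ) + 1) ≤ M * X.β := (div_le_iff₀ hβ).mp hM1
  have hsE : 2 * X.a + 1 < k * LL X.a M := by
    have h1 := G.hM
    have h2 := G.hK
    unfold LL HH
    calc 2 * X.a + 1 < 1 * (2 * ((2 * X.a + 1) * 1)) := by omega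
      _ ≤ k * (2 * ((2 * X.a + 1) * M)) :=
        Nat.mul_le_mul h2 (Nat.mul_le_mul_left _ (Nat.mul_le_mul_left _ (by omega)))
  have hpt : ∀ (c : ℕ → Ctx X.a) (R : ℕ) (ℓ : Lab X.a),
      κ * (gg (2 * X.a + 1) (k * LL X.a M) c R ℓ -
        ind (¬ Good X.β b (2 * X.a + 1) (k * LL X.a M) c R ℓ) *
          gg (2 * X.a + 1) (k * LL X.a M) c R ℓ -
        ind (2 * √(6 * (M : ℝ) * k) + 1 <
          |2 * (jj (2 * X.a + 1) (k * LL X.a M) c R ℓ : ℝ) - coins c 0 (R - 1)|) *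
          gg (2 * X.a + 1) (k * LL X.a M) c R ℓ) ≤
      min (gg (2 * X.a + 1) (k * LL X.a M) c R ℓ) (gg (2 * X.a + 1) ((k + 1) * LL X.a M) c R ℓ) := by
    intro c R ℓ
    have g0 := gg_nonneg (2 * X.a + 1) (k * LL X.a M) R c ℓ
    have g1 := gg_nonneg (2 * X.a + 1) ((k + 1) * LL X.a M) R c ℓ
    have hmin := le_min g0 g1
    have i1 := ind_nonneg (¬ Good X.β b (2 * X.a + 1) (k * LL X.a M) c R ℓ)
    have i2 := ind_nonneg (2 * √(6 * (M : ℝ) * k) + 1 <
          |2 * (jj (2 * X.a + 1) (k * LL X.a M) c R ℓ : ℝ) - coins c 0 (R - 1)|)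
    by_cases hz : gg (2 * X.a + 1) (k * LL X.a M) c R ℓ = 0
    · refine le_trans (le_of_eq ?_) hmin
      rw [hz]; ring
    by_cases hG : Good X.β b (2 * X.a + 1) (k * LL X.a M) c R ℓ
    swap
    · refine le_trans (mul_nonpos_of_nonneg_of_nonpos hκ0.le ?_) hmin
      rw [ind_true hG]
      have := mul_nonneg i2 g0
      linarith
    by_cases hd : 2 * √(6 * (M : ℝ) * k) + 1 <
          |2 * (jj (2 * X.a + 1) (k * LL X.a M) c R ℓ : ℝ) - coins c 0 (R - 1)|
    · refine le_trans (mul_nonpos_of_nonneg_of_nonpos hκ0.le ?_) hmin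
      rw [ind_true hd]
      have := mul_nonneg i1 g0
      linarith
    rw [ind_false hd, ind_false (not_not.mpr hG), zero_mul, sub_zero, sub_zero]
    refine le_min (mul_le_of_le_one_left g0 hκ1) ?_
    obtain ⟨ξ, hE⟩ := exists_End_of_gg hz
    have hn := X.coins_ge G hE hG.1
    set n : ℕ := coins c 0 (R - 1) with hndef
    have hMk : 0 ≤ X.β * M := by positivity
    have hn1 : (n0 : ℝ) + 1 ≤ n := by nlinarith
    have hn0 : n0 ≤ n := by
      have : (n0 : ℝ) ≤ n := by linarith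
      exact_mod_cast this
    have hn2 : (1 : ℝ) ≤ n := by
      have : (0 : ℝ) ≤ n0 := Nat.cast_nonneg n0
      linarith
    have hβc : 0 < X.β * c0 := by positivity
    have hLsq : ((LL X.a M : ℕ) : ℝ) ^ 2 ≤ 16 / (X.β * c0) * n := by
      rw [div_mul_eq_mul_div, le_div_iff₀ hβc]
      have h1 : ((LL X.a M : ℕ) : ℝ) = 2 * ((2 * (X.a : ℝ) + 1) * M) := by
        unfold LL HH; push_cast; ring
      have h2 : c0 * (2 * (X.a : ℝ) + 1) ^ 2 * M * (4 * (X.β * M)) ≤ k * (4 * (X.β * M)) :=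
        mul_le_mul_of_nonneg_right hk (by positivity)
      rw [h1]
      nlinarith
    have hdev : |2 * (jj (2 * X.a + 1) (k * LL X.a M) c R ℓ : ℝ) - n| ≤
        16 / (X.β * c0) * √(n : ℝ) := by
      refine (not_lt.mp hd).trans ?_
      have hs1 : 1 ≤ √(n : ℝ) := Real.one_le_sqrt.mpr hn2
      have hs2 : √(6 * (M : ℝ) * k) ≤ 4 / X.β * √(n : ℝ) := by
        refine Real.sqrt_le_iff.mpr ⟨by positivity, ?_⟩
        rw [mul_pow, Real.sq_sqrt (by positivity), div_pow, div_mul_eq_mul_div,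
          le_div_iff₀ (by positivity)]
        have h1 : X.β ^ 2 ≤ X.β := by nlinarith
        have h2 : 6 * (M : ℝ) * k * X.β ^ 2 ≤ 6 * (M : ℝ) * k * X.β :=
          mul_le_mul_of_nonneg_left h1 (by positivity)
        nlinarith
      have hs3 : 16 / X.β ≤ 16 / (X.β * c0) :=
        div_le_div_of_nonneg_left (by norm_num) hβc (mul_le_of_le_one_right hβ.le hc1)
      have hs4 : 1 ≤ 1 / X.β := one_le_one_div hβ hβ1
      have hs5 : 1 * 1 ≤ 1 / X.β * √(n : ℝ) := mul_le_mul hs4 hs1 zero_le_one (by positivity)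
      have hs6 : 16 / X.β * √(n : ℝ) ≤ 16 / (X.β * c0) * √(n : ℝ) :=
        mul_le_mul_of_nonneg_right hs3 (by positivity)
      have hs7 : 16 / X.β * √(n : ℝ) = 16 * (1 / X.β * √(n : ℝ)) := by ring
      have hs8 : 4 / X.β * √(n : ℝ) = 4 * (1 / X.β * √(n : ℝ)) := by ring
      linarith
    have hr := hκ n (LL X.a M) (jj (2 * X.a + 1) (k * LL X.a M) c R ℓ) hn0 hLsq hdev
    have hj : jj (2 * X.a + 1) ((k + 1) * LL X.a M) c R ℓ =
        jj (2 * X.a + 1) (k * LL X.a M) c R ℓ + (LL X.a M : ℕ) := by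
      unfold jj; push_cast; ring
    rw [gg_eq, gg_eq, hj, mul_left_comm]
    exact mul_le_mul_of_nonneg_left hr
      (mul_nonneg (ind_nonneg _) (pr_nonneg (by norm_num) (by norm_num) _ _))
  refine le_trans ?_ (X.Tot_mono N fun c _ R ℓ => hpt c R ℓ)
  rw [X.Tot_mul_left, X.Tot_minus, X.Tot_minus, X.Tot_gg_eq N hsE G.hN]
  have h1 := (X.bad_bound G).trans hbad
  have h2 := X.dev_bound G
  nlinarith

/-- From the overlap of the reference measures to the overlap of the backgrounds on the good sets.  With `θ1 = o0 / 12`: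
`min Z0 Z1 ≥ θ1 min g0 g1` unless `Zi < θ1 gi`, whose `gi`-mass is at most `θ1 * Tot (gi * (gi / Zi)) ≤ 3 θ1`
because `r ≤ 1 + r ^ q`. -/
theorem overlap_good {m : ℕ} (X : Model m) (N q : ℕ) (hq : 1 ≤ q) (o0 η : ℝ) (ho : 0 < o0)
    (hη : η ≤ o0 ^ 2 / 100)
    (g Z : Bool → (ℕ → Ctx X.a) → (ℕ → X.Tok) → ℕ → Lab X.a → ℝ)
    (Gd : Bool → (ℕ → Ctx X.a) → (ℕ → X.Tok) → ℕ → Lab X.a → Prop)
    (hg : ∀ i c o R ℓ, 0 ≤ g i c o R ℓ) (hZ : ∀ i c o R ℓ, 0 ≤ Z i c o R ℓ)
    (hpos : ∀ i c o R ℓ, 0 < g i c o R ℓ → 0 < Z i c o R ℓ)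
    (hg1 : ∀ i, X.Tot N (g i) ≤ 1)
    (hov : o0 ≤ X.Tot N fun c o R ℓ => min (g false c o R ℓ) (g true c o R ℓ))
    (hren : ∀ i, X.Tot N (fun c o R ℓ => g i c o R ℓ * (g i c o R ℓ / Z i c o R ℓ) ^ q) ≤ 2)
    (hbad : ∀ i, X.Tot N (fun c o R ℓ => ind (¬ Gd i c o R ℓ) * Z i c o R ℓ) ≤ η) :
    2 * (o0 ^ 2 / 100) ≤ X.Tot N fun c o R ℓ =>
      ind (Gd false c o R ℓ ∧ Gd true c o R ℓ) * min (Z false c o R ℓ) (Z true c o R ℓ) := by
  set θ : ℝ := o0 / 12 with hθ
  have hθ0 : 0 < θ := by positivity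
  have hpow : ∀ r : ℝ, 0 ≤ r → r ≤ 1 + r ^ q := by
    intro r hr
    rcases le_total r 1 with h | h
    · have := pow_nonneg hr q
      linarith
    · have := le_self_pow₀ h (by omega : q ≠ 0)
      linarith
  have hpt : ∀ c o R ℓ,
      θ * min (g false c o R ℓ) (g true c o R ℓ) -
        θ ^ 2 * (g false c o R ℓ + g false c o R ℓ * (g false c o R ℓ / Z false c o R ℓ) ^ q) -
        θ ^ 2 * (g true c o R ℓ + g true c o R ℓ * (g true c o R ℓ / Z true c o R ℓ) ^ q) -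
        ind (¬ Gd false c o R ℓ) * Z false c o R ℓ - ind (¬ Gd true c o R ℓ) * Z true c o R ℓ ≤
      ind (Gd false c o R ℓ ∧ Gd true c o R ℓ) * min (Z false c o R ℓ) (Z true c o R ℓ) := by
    intro c o R ℓ
    have hA : ∀ i, 0 ≤ θ ^ 2 * (g i c o R ℓ + g i c o R ℓ * (g i c o R ℓ / Z i c o R ℓ) ^ q) :=
      fun i => mul_nonneg (sq_nonneg _) (add_nonneg (hg i c o R ℓ)
        (mul_nonneg (hg i c o R ℓ) (pow_nonneg (div_nonneg (hg i c o R ℓ) (hZ i c o R ℓ)) q)))
    have hB : ∀ i, θ * g i c o R ℓ -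
        θ ^ 2 * (g i c o R ℓ + g i c o R ℓ * (g i c o R ℓ / Z i c o R ℓ) ^ q) ≤ Z i c o R ℓ := by
      intro i
      by_cases h : θ * g i c o R ℓ ≤ Z i c o R ℓ
      · have := hA i
        linarith
      · have h1 : Z i c o R ℓ < θ * g i c o R ℓ := not_le.mp h
        have h2 : 0 < g i c o R ℓ := by
          by_contra h3
          have h4 : g i c o R ℓ = 0 := le_antisymm (not_lt.mp h3) (hg i c o R ℓ)
          rw [h4, mul_zero] at h1
          exact absurd (hZ i c o R ℓ) (not_le.mpr h1)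
        have h3 := hpos i c o R ℓ h2
        have h4 : 1 ≤ θ * (g i c o R ℓ / Z i c o R ℓ) := by
          rw [← mul_div_assoc, le_div_iff₀ h3]; linarith
        have h5 := hpow _ (div_nonneg h2.le h3.le)
        have h6 : 1 ≤ θ * (1 + (g i c o R ℓ / Z i c o R ℓ) ^ q) :=
          h4.trans (mul_le_mul_of_nonneg_left h5 hθ0.le)
        have h7 := mul_le_mul_of_nonneg_left h6 (mul_pos hθ0 h2).le
        nlinarith
    have hm0 := mul_le_mul_of_nonneg_left (min_le_left (g false c o R ℓ) (g true c o R ℓ)) hθ0.le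
    have hm1 := mul_le_mul_of_nonneg_left (min_le_right (g false c o R ℓ) (g true c o R ℓ)) hθ0.le
    have hC : θ * min (g false c o R ℓ) (g true c o R ℓ) -
        θ ^ 2 * (g false c o R ℓ + g false c o R ℓ * (g false c o R ℓ / Z false c o R ℓ) ^ q) -
        θ ^ 2 * (g true c o R ℓ + g true c o R ℓ * (g true c o R ℓ / Z true c o R ℓ) ^ q) ≤
        min (Z false c o R ℓ) (Z true c o R ℓ) := by
      have a0 := hA false
      have a1 := hA true
      have b0 := hB false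
      have b1 := hB true
      exact le_min (by linarith) (by linarith)
    have z0 := hZ false c o R ℓ
    have z1 := hZ true c o R ℓ
    have m0 := min_le_left (Z false c o R ℓ) (Z true c o R ℓ)
    have m1 := min_le_right (Z false c o R ℓ) (Z true c o R ℓ)
    by_cases h0 : Gd false c o R ℓ <;> by_cases h1 : Gd true c o R ℓ
    · rw [ind_true (And.intro h0 h1), ind_false (not_not.mpr h0), ind_false (not_not.mpr h1)]
      linarith
    · rw [ind_false (fun h : Gd false c o R ℓ ∧ Gd true c o R ℓ => h1 h.2),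
        ind_false (not_not.mpr h0), ind_true h1]
      linarith
    · rw [ind_false (fun h : Gd false c o R ℓ ∧ Gd true c o R ℓ => h0 h.1),
        ind_false (not_not.mpr h1), ind_true h0]
      linarith
    · rw [ind_false (fun h : Gd false c o R ℓ ∧ Gd true c o R ℓ => h0 h.1), ind_true h0,
        ind_true h1]
      linarith
  refine le_trans ?_ (X.Tot_mono N hpt)
  rw [X.Tot_minus, X.Tot_minus, X.Tot_minus, X.Tot_minus, X.Tot_mul_left, X.Tot_mul_left,
    X.Tot_mul_left, X.Tot_plus, X.Tot_plus]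
  have e0 : X.Tot N (fun c o R ℓ => g false c o R ℓ) ≤ 1 := hg1 false
  have e1 : X.Tot N (fun c o R ℓ => g true c o R ℓ) ≤ 1 := hg1 true
  have r0 := hren false
  have r1 := hren true
  have d0 := hbad false
  have d1 := hbad true
  have s0 := mul_le_mul_of_nonneg_left (add_le_add e0 r0) (sq_nonneg θ)
  have s1 := mul_le_mul_of_nonneg_left (add_le_add e1 r1) (sq_nonneg θ)
  have s2 := mul_le_mul_of_nonneg_left hov hθ0.le
  have s3 : θ * o0 = o0 ^ 2 / 12 := by rw [hθ]; ring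
  have s4 : θ ^ 2 = o0 ^ 2 / 144 := by rw [hθ]; ring
  have s5 : 0 ≤ o0 ^ 2 := sq_nonneg o0
  rw [s4] at s0 s1 ⊢
  linarith

end Pool.Agent.Lib.MP_343fe0_pr
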