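import Pool.Agent.Lib.MP_343fe0_pr.Comp
import Pool.Agent.Lib.MP_343fe0_pr.Factor
import Pool.Agent.Lib.MP_343fe0_pr.Good
import Pool.Agent.Lib.MP_343fe0_pr.Bridge

set_option autoImplicit false

/-! The first step: the likelihood ratio of a few isolated defects is close to one with very high probability. -/

namespace Pool.Agent.Lib.MP_343fe0_pr

open Finset

lemma hoeff_pr_nonneg {a : ℕ} (c : ℕ → Ctx a) : ∀ (r : ℕ) (θ : Bool), 0 ≤ pr (1 / 2) (c r) θ :=
  fun r θ => pr_nonneg (by norm_num) (by norm_num) (c r) θ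

/-- At most one step covers a given site. -/
lemma hoeff_sum_hit_le {a : ℕ} (s z R : ℕ) (c : ℕ → Ctx a) (ξ : ℕ → Bool) :
    ∑ r ∈ range R, ind (pos s c ξ r ≤ z ∧ z < pos s c ξ (r + 1)) ≤ 1 := by
  have h1 : ∑ r ∈ range R, ind (pos s c ξ r ≤ z ∧ z < pos s c ξ (r + 1)) ≤
      ∑ r ∈ range R, if r = r0 s c ξ z then (1 : ℝ) else 0 := by
    refine Finset.sum_le_sum fun r _ => ?_
    by_cases h : pos s c ξ r ≤ z ∧ z < pos s c ξ (r + 1)
    · rw [ind_true h, if_pos (r0_eq h.1 h.2).symm]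
    · rw [ind_false h]
      split_ifs <;> norm_num
  refine h1.trans ?_
  rw [Finset.sum_ite_eq']
  split_ifs <;> norm_num

lemma hoeff_hit_le_sum {a : ℕ} (s z r L : ℕ) (c : ℕ → Ctx a) (ξ : ℕ → Bool) :
    ind (pos s c ξ r ≤ z ∧ z < pos s c ξ (r + 1)) ≤
      ∑ u ∈ range (2 * a + 1), ind (pos s c ξ r ≡ z - u [MOD L]) := by
  by_cases h : pos s c ξ r ≤ z ∧ z < pos s c ξ (r + 1)
  · rw [ind_true h]
    have h2 := h.2
    rw [pos_succ] at h2
    have h3 := stp_le (c r) (ξ r)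
    have hm : z - pos s c ξ r ∈ range (2 * a + 1) := by
      rw [Finset.mem_range]; omega
    have h4 : pos s c ξ r ≡ z - (z - pos s c ξ r) [MOD L] := by
      have : z - (z - pos s c ξ r) = pos s c ξ r := by have := h.1; omega
      rw [this]
    calc (1 : ℝ) = ind (pos s c ξ r ≡ z - (z - pos s c ξ r) [MOD L]) := (ind_true h4).symm
      _ ≤ _ := Finset.single_le_sum (f := fun u => ind (pos s c ξ r ≡ z - u [MOD L]))
        (fun u _ => ind_nonneg _) hm
  · rw [ind_false h]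
    exact Finset.sum_nonneg fun u _ => ind_nonneg _

lemma hoeff_num {β : ℝ} (hβ : 0 < β) {M R : ℕ} (hM : 1 ≤ M) (hR : R ≤ 6 * M) :
    4 * √(R : ℝ) * (4 / √(β * M / 4 * ((1 : ℕ) : ℝ)) * (4 / √(β * M / 4 * ((1 : ℕ) : ℝ)))) ≤
      640 / (β * √(M : ℝ)) := by
  have hM0 : (0 : ℝ) < M := by exact_mod_cast hM
  have hγ : 0 < β * M / 4 * ((1 : ℕ) : ℝ) := by positivity
  have hsM : 0 < √(M : ℝ) := Real.sqrt_pos.2 hM0
  have hMM : √(M : ℝ) * √(M : ℝ) = M := Real.mul_self_sqrt hM0.le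
  have h1 : 4 / √(β * M / 4 * ((1 : ℕ) : ℝ)) * (4 / √(β * M / 4 * ((1 : ℕ) : ℝ))) = 64 / (β * M) := by
    rw [div_mul_div_comm, Real.mul_self_sqrt hγ.le]
    push_cast
    field_simp
    norm_num
  have h2 : √(R : ℝ) ≤ 5 / 2 * √(M : ℝ) := by
    rw [Real.sqrt_le_left (by positivity)]
    have : (R : ℝ) ≤ 6 * M := by exact_mod_cast hR
    nlinarith
  rw [h1]
  calc 4 * √(R : ℝ) * (64 / (β * M)) ≤ 4 * (5 / 2 * √(M : ℝ)) * (64 / (β * M)) := by gcongr
    _ = 640 / (β * √(M : ℝ)) := by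
      rw [eq_div_iff (by positivity)]
      field_simp
      nlinarith

lemma hoeff_pat_empty (u : ℤ) (k : ℕ) (h : ¬ (0 ≤ u ∧ u < k)) : pat {0} u k = ∅ := by
  refine pat_eq_empty 1 {0} (by simp) u k ?_
  push_cast
  omega

namespace Model

variable {m : ℕ} (X : Model m)

/-- The probability that step `r` covers the cluster of a single block: sum over the `2a+1` offsets of `bridge` with `K = 1`,
`t 1 = r`, `α = 0`, `y = 1`, `γ = β M / 4`, if `M - 1 ≤ r` and `r + M ≤ R` (`r0_first`, `r0_last`); otherwise it vanishes.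
`4 √(6M) * (8 / √(β M)) ^ 2 ≤ 640 / (β √M)`. -/
lemma hit_bound {M s N : ℕ} {b : ℝ} (G : X.Geo M 1 s N b) (c : ℕ → Ctx X.a) (R : ℕ) (ℓ : Lab X.a)
    (hg : Good X.β b s (1 * LL X.a M) c R ℓ) (r : ℕ) :
    QX c R (fun ξ => ind (End s (1 * LL X.a M) c ξ R ℓ) *
        ind (pos s c ξ r ≤ HH X.a M ∧ HH X.a M < pos s c ξ (r + 1))) ≤
      gg s (1 * LL X.a M) c R ℓ * (640 * (2 * (X.a : ℝ) + 1) / (X.β * √(M : ℝ))) := by
  have ha := X.a_pos
  have hβ := X.β_pos
  have hM2 := G.hM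
  have hM1 : 1 ≤ M := by omega
  have hgg := gg_nonneg s (1 * LL X.a M) R c ℓ
  by_cases hex : ∃ ξ, End s (1 * LL X.a M) c ξ R ℓ ∧
      (pos s c ξ r ≤ HH X.a M ∧ HH X.a M < pos s c ξ (r + 1))
  swap
  · have h0 : (fun ξ => ind (End s (1 * LL X.a M) c ξ R ℓ) *
        ind (pos s c ξ r ≤ HH X.a M ∧ HH X.a M < pos s c ξ (r + 1))) = fun _ => 0 := by
      funext ξ
      rw [← ind_and]
      exact ind_false fun h => hex ⟨ξ, h⟩
    rw [h0, QX, EX_zero_fun]
    positivity
  obtain ⟨ξ0, hE, hp1, hp2⟩ := hex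
  have hz : zz X.a M 0 = HH X.a M := by simp [zz]
  have hr0 : r0 s c ξ0 (zz X.a M 0) = r := by rw [hz]; exact r0_eq hp1 hp2
  have hf := r0_first ha hM1 G.hs 0 c ξ0
  have hl := r0_last ha hM1 G.hs (show 0 < 1 by norm_num) hE
  rw [hr0] at hf hl
  have hR6 : R ≤ 6 * M := by simpa using End_R_le ha hE
  have hL2 : R ≤ LL X.a M ^ 2 := hR6.trans (by simpa using G.hL)
  have hL1 : 1 ≤ LL X.a M := by
    rcases Nat.eq_zero_or_pos (LL X.a M) with h | h
    · rw [h] at hL2; omega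
    · exact h
  have hf' : M ≤ r + 1 := by omega
  have hl' : r + M ≤ R := by omega
  have hM0 : (0 : ℝ) < M := by exact_mod_cast hM1
  have hγ : 0 < X.β * M / 4 := by positivity
  let t : ℕ → ℕ := fun i => if i = 0 then 0 else if i = 1 then r else R - 1
  have hb := G.hb
  have hfR : (M : ℝ) ≤ r + 1 := by exact_mod_cast hf'
  have hlR : (r : ℝ) + M ≤ R := by exact_mod_cast hl'
  have hRc : ((R - 1 : ℕ) : ℝ) = (R : ℝ) - 1 := by
    rw [Nat.cast_sub (by omega)]; simp
  have hgap : ∀ l i : ℕ, l < i → i ≤ 1 + 1 →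
      X.β * M / 4 * ((i : ℝ) - l) ≤ coins c (t l) (t i) + 1 := by
    intro l i hli hi
    have h01 := hg.1 0 r (by omega) (by omega)
    have h12 := hg.1 r (R - 1) (by omega) (by omega)
    have h02 := hg.1 0 (R - 1) (by omega) (by omega)
    rw [hRc] at h12 h02
    have e1 : X.β * (M - 1) ≤ X.β * r := by gcongr; linarith
    have e2 : X.β * (M - 1) ≤ X.β * (R - 1 - r) :=
      mul_le_mul_of_nonneg_left (by linarith) hβ.le
    have hi' : i = 1 ∨ i = 2 := by omega
    rcases hi' with rfl | rfl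
    · obtain rfl : l = 0 := by omega
      simp only [t, if_true, one_ne_zero, if_false]
      push_cast at h01 ⊢
      nlinarith
    · have hl'' : l = 0 ∨ l = 1 := by omega
      rcases hl'' with rfl | rfl
      · simp only [t, if_true, OfNat.ofNat_ne_zero, OfNat.ofNat_ne_one, if_false]
        push_cast at h02 ⊢
        nlinarith
      · simp only [t, if_true, OfNat.ofNat_ne_zero, OfNat.ofNat_ne_one, one_ne_zero, if_false]
        push_cast at h12 ⊢
        nlinarith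
  have hone : ∀ u : ℕ, QX c R (fun ξ => ind (End s (1 * LL X.a M) c ξ R ℓ) *
      ind (pos s c ξ r ≡ HH X.a M - u [MOD LL X.a M])) ≤
      gg s (1 * LL X.a M) c R ℓ * (640 / (X.β * √(M : ℝ))) := by
    intro u
    have hbr := bridge s (1 * LL X.a M) R (LL X.a M) 1 c ℓ (X.β * M / 4) hγ t
      (fun _ => HH X.a M - u) (fun _ => 0) (fun _ => 1) (fun _ => le_rfl) (fun _ => zero_le_one)
      hL1 hL2 (by simp [t]) (by simp [t])
      (by
        intro i hi
        have hi' : i = 0 ∨ i = 1 := by omega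
        rcases hi' with rfl | rfl
        · simp [t]
        · simp only [t, one_ne_zero, if_false, if_true]
          norm_num
          omega)
      hgap hg.2.1 hg.2.2
    simp only [Finset.prod_range_one, zero_add, one_mul, Chain, zero_mul, t, one_ne_zero, if_false,
      if_true, Nat.sub_zero, Nat.add_sub_cancel] at hbr
    simp only [one_mul]
    refine hbr.trans ?_
    have hgg' := hgg
    simp only [one_mul] at hgg'
    exact mul_le_mul_of_nonneg_left (hoeff_num hβ hM1 hR6) hgg'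
  calc QX c R (fun ξ => ind (End s (1 * LL X.a M) c ξ R ℓ) *
        ind (pos s c ξ r ≤ HH X.a M ∧ HH X.a M < pos s c ξ (r + 1)))
      ≤ QX c R (fun ξ => ∑ u ∈ range (2 * X.a + 1), ind (End s (1 * LL X.a M) c ξ R ℓ) *
          ind (pos s c ξ r ≡ HH X.a M - u [MOD LL X.a M])) := by
        refine EX_mono (hoeff_pr_nonneg c) R fun ξ => ?_
        rw [← Finset.mul_sum]
        exact mul_le_mul_of_nonneg_left (hoeff_hit_le_sum _ _ _ _ _ _) (ind_nonneg _)
    _ = ∑ u ∈ range (2 * X.a + 1), QX c R (fun ξ => ind (End s (1 * LL X.a M) c ξ R ℓ) *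
          ind (pos s c ξ r ≡ HH X.a M - u [MOD LL X.a M])) := EX_sum _ _ _ _
    _ ≤ ∑ _u ∈ range (2 * X.a + 1), gg s (1 * LL X.a M) c R ℓ * (640 / (X.β * √(M : ℝ))) :=
        Finset.sum_le_sum fun u _ => hone u
    _ = _ := by
        rw [Finset.sum_const, Finset.card_range, nsmul_eq_mul]
        push_cast
        ring

/-- `ZP_single` with `g = 0`: `ZP - gg = ∑ r, Y r (o r)` with `|Y r| ≤ δ p r`, `∑ p r ≤ gg`, `p r ≤ gg * pmax` (`hit_bound`), so
`EX_hoeffding` applies with `v = δ ^ 2 gg ^ 2 pmax`, `t = δ1 gg`; always `|ZP - gg| ≤ δ gg`; `bad_bound`. -/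
theorem hoeff_block (hm : 1 ≤ m) {M s N : ℕ} {b : ℝ} (G : X.Geo M 1 s N b) {δ : ℝ} (hδ0 : 0 < δ)
    (hδ : ∀ c ξ S o, |X.D c ξ S o| ≤ δ) (δ1 : ℝ) (hδ1 : 0 ≤ δ1) :
    X.Tot N (fun c o R ℓ => max 0 (|X.ZP M s 1 (fun _ => {0}) c o R ℓ - gg s (1 * LL X.a M) c R ℓ| -
        δ1 * gg s (1 * LL X.a M) c R ℓ)) ≤
      δ * (2 * Real.exp (-(δ1 ^ 2 * X.β * √(M : ℝ) / (1280 * δ ^ 2 * (2 * (X.a : ℝ) + 1)))) +
        badB X.β b M N) := by
  have hβ := X.β_pos
  have hM2 := G.hM
  have hM0 : (0 : ℝ) < M := by exact_mod_cast (show 0 < M by omega)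
  have hsM : 0 < √(M : ℝ) := Real.sqrt_pos.2 hM0
  set T : ℝ := 2 * Real.exp (-(δ1 ^ 2 * X.β * √(M : ℝ) / (1280 * δ ^ 2 * (2 * (X.a : ℝ) + 1))))
    with hT
  have hT0 : 0 ≤ T := by positivity
  have key : ∀ (c : ℕ → Ctx X.a) (R : ℕ) (ℓ : Lab X.a),
      EX (fun r => X.ν (c r)) R (fun o =>
        max 0 (|X.ZP M s 1 (fun _ => {0}) c o R ℓ - gg s (1 * LL X.a M) c R ℓ| -
          δ1 * gg s (1 * LL X.a M) c R ℓ)) ≤
      δ * (T * gg s (1 * LL X.a M) c R ℓ +
        ind (¬ Good X.β b s (1 * LL X.a M) c R ℓ) * gg s (1 * LL X.a M) c R ℓ) := by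
    intro c R ℓ
    have hν : ∀ (r : ℕ) (θ : X.Tok), 0 ≤ X.ν (c r) θ := fun r θ => X.ν_nonneg _ _
    have hν1 : ∀ r : ℕ, ∑ θ, X.ν (c r) θ = 1 := fun r => X.ν_sum _
    set g := gg s (1 * LL X.a M) c R ℓ with hg
    have hg0 : 0 ≤ g := gg_nonneg _ _ _ _ _
    let Y : ℕ → X.Tok → ℝ := fun r θ => QX c R fun ξ => ind (End s (1 * LL X.a M) c ξ R ℓ) *
      X.D (c r) (ξ r) (pat {0} ((HH X.a M : ℤ) + (0 : ℕ) - pos s c ξ r) (stp (c r) (ξ r))) θ
    let p : ℕ → ℝ := fun r => QX c R fun ξ => ind (End s (1 * LL X.a M) c ξ R ℓ) *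
      ind (pos s c ξ r ≤ HH X.a M ∧ HH X.a M < pos s c ξ (r + 1))
    have hZ : ∀ o, X.ZP M s 1 (fun _ => {0}) c o R ℓ - g = ∑ r ∈ range R, Y r (o r) := by
      intro o
      rw [X.ZP_single hM2 G.hs 0 (by omega) c o R ℓ]
      simp only [Y, hg, add_sub_cancel_left]
    have hp0 : ∀ r, 0 ≤ p r := fun r =>
      EX_nonneg (hoeff_pr_nonneg c) R fun ξ => mul_nonneg (ind_nonneg _) (ind_nonneg _)
    have hY : ∀ r θ, |Y r θ| ≤ δ * p r := by
      intro r θ
      refine (EX_abs_le (hoeff_pr_nonneg c) R _).trans ?_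
      simp only [p, QX]
      rw [← EX_mul_left]
      refine EX_mono (hoeff_pr_nonneg c) R fun ξ => ?_
      rw [abs_mul, abs_of_nonneg (ind_nonneg _), mul_left_comm]
      refine mul_le_mul_of_nonneg_left ?_ (ind_nonneg _)
      by_cases h : pos s c ξ r ≤ HH X.a M ∧ HH X.a M < pos s c ξ (r + 1)
      · rw [ind_true h, mul_one]
        exact hδ _ _ _ _
      · rw [ind_false h, mul_zero, hoeff_pat_empty, X.D_empty, abs_zero]
        rw [pos_succ] at h
        push_cast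
        omega
    have hmean : ∀ r, ∑ θ, X.ν (c r) θ * Y r θ = 0 := by
      intro r
      simp only [Y, QX]
      simp only [← EX_mul_left]
      rw [← EX_sum]
      refine Eq.trans (congrArg _ ?_) (EX_zero_fun _ R)
      funext ξ
      simp only [mul_left_comm (X.ν (c r) _)]
      rw [← Finset.mul_sum, X.D_mean, mul_zero]
    have hpsum : ∑ r ∈ range R, p r ≤ g := by
      simp only [p, QX]
      rw [← EX_sum, hg, gg, QX]
      refine EX_mono (hoeff_pr_nonneg c) R fun ξ => ?_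
      rw [← Finset.mul_sum]
      exact mul_le_of_le_one_right (ind_nonneg _) (hoeff_sum_hit_le _ _ _ _ _)
    have hS : ∀ o : ℕ → X.Tok, |∑ r ∈ range R, Y r (o r)| ≤ δ * g := by
      intro o
      refine (Finset.abs_sum_le_sum_abs _ _).trans ?_
      refine (Finset.sum_le_sum fun r _ => hY r (o r)).trans ?_
      rw [← Finset.mul_sum]
      exact mul_le_mul_of_nonneg_left hpsum hδ0.le
    have h1 : EX (fun r => X.ν (c r)) R (fun o =>
        max 0 (|X.ZP M s 1 (fun _ => {0}) c o R ℓ - g| - δ1 * g)) ≤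
        δ * g * EX (fun r => X.ν (c r)) R
          (fun o => ind (δ1 * g < |∑ r ∈ range R, Y r (o r)|)) := by
      rw [← EX_mul_left]
      refine EX_mono hν R fun o => ?_
      rw [hZ o]
      have h2 := hS o
      have h3 : 0 ≤ δ1 * g := mul_nonneg hδ1 hg0
      by_cases h : δ1 * g < |∑ r ∈ range R, Y r (o r)|
      · rw [ind_true h, mul_one]
        exact max_le (by positivity) (by linarith)
      · rw [ind_false h, mul_zero]
        exact max_le le_rfl (by linarith [not_lt.1 h])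
    refine h1.trans ?_
    rw [mul_assoc]
    refine mul_le_mul_of_nonneg_left ?_ hδ0.le
    rcases hg0.eq_or_lt with hz | hpos
    · rw [← hz]; simp
    rw [← add_mul, mul_comm]
    refine mul_le_mul_of_nonneg_right ?_ hg0
    by_cases hgood : Good X.β b s (1 * LL X.a M) c R ℓ
    · rw [ind_false (not_not.2 hgood), add_zero]
      set pm : ℝ := 640 * (2 * (X.a : ℝ) + 1) / (X.β * √(M : ℝ)) with hpm
      have hpm0 : 0 < pm := by positivity
      have hpb : ∀ r, p r ≤ g * pm := fun r => X.hit_bound G c R ℓ hgood r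
      have hv : ∑ r ∈ range R, (δ * p r) ^ 2 ≤ δ ^ 2 * g ^ 2 * pm := by
        calc ∑ r ∈ range R, (δ * p r) ^ 2 ≤ ∑ r ∈ range R, δ ^ 2 * (g * pm) * p r := by
              refine Finset.sum_le_sum fun r _ => ?_
              have := mul_le_mul_of_nonneg_right (hpb r) (hp0 r)
              have h5 : 0 ≤ δ ^ 2 := by positivity
              nlinarith [mul_le_mul_of_nonneg_left this h5]
          _ = δ ^ 2 * (g * pm) * ∑ r ∈ range R, p r := by rw [Finset.mul_sum]
          _ ≤ δ ^ 2 * (g * pm) * g := mul_le_mul_of_nonneg_left hpsum (by positivity)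
          _ = _ := by ring
      have hH := EX_hoeffding hν hν1 R Y (fun r => δ * p r) (fun r _ θ => hY r θ)
        (fun r _ => hmean r) (δ ^ 2 * g ^ 2 * pm) (δ1 * g) (by positivity) hv (mul_nonneg hδ1 hg0)
      refine hH.trans (le_of_eq ?_)
      rw [hT, hpm]
      congr 3
      field_simp
      ring
    · rw [ind_true hgood]
      calc _ ≤ EX (fun r => X.ν (c r)) R (fun _ => (1 : ℝ)) := EX_mono hν R fun o => ind_le_one _
        _ = 1 := EX_const hν1 R 1
        _ ≤ T + 1 := by linarith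
  refine (X.Tot_le_of_EX N key).trans ?_
  rw [X.Tot_mul_left, X.Tot_plus, X.Tot_mul_left]
  refine mul_le_mul_of_nonneg_left ?_ hδ0.le
  exact add_le_add (mul_le_of_le_one_right hT0 (X.Tot_gg_le N _ _)) (X.bad_bound G)

lemma hoeff_geo {M K s s' N : ℕ} {b : ℝ} (G : X.Geo M K s N b) (hs' : s' ≤ 2 * X.a + 1) :
    X.Geo M 1 s' N b where
  hM := G.hM
  hK := le_rfl
  hs := hs'
  hN := (Nat.mul_le_mul_right _ G.hK).trans G.hN
  hL := (Nat.mul_le_mul_left _ G.hK).trans G.hL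
  hb0 := G.hb0
  hb := G.hb

/-- Adding one defect. -/
lemma hoeff_insert (hm : 1 ≤ m) {M K N : ℕ} {b : ℝ}
    (G : X.Geo M K (2 * X.a + 1) N b) {δ : ℝ} (hδ0 : 0 < δ) (hδ : ∀ c ξ S o, |X.D c ξ S o| ≤ δ)
    (δ1 : ℝ) (hδ1 : 0 ≤ δ1) (S : Finset ℕ) (j : ℕ) (hj : j < K) (hjS : j ∉ S) :
    X.Tot N (fun c o R ℓ => max 0 (|X.ZS M K ∅ {0} (insert j S) c o R ℓ - X.ZS M K ∅ {0} S c o R ℓ| -
        δ1 * X.ZS M K ∅ {0} S c o R ℓ)) ≤
      δ * (2 * Real.exp (-(δ1 ^ 2 * X.β * √(M : ℝ) / (1280 * δ ^ 2 * (2 * (X.a : ℝ) + 1)))) +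
        badB X.β b M N) := by
  have hM2 := G.hM
  have h := X.localize (ι := Bool) N M K (2 * X.a + 1) j (by omega) le_rfl hj
    (fun v => max 0 (|v true - v false| - δ1 * v false)) (fun v => le_max_left _ _)
    (by
      intro v w
      refine max_le (add_nonneg (le_max_left _ _) (le_max_left _ _)) ?_
      have h1 := le_max_right 0 (|v true - v false| - δ1 * v false)
      have h2 := le_max_right 0 (|w true - w false| - δ1 * w false)
      have h3 : |v true + w true - (v false + w false)| ≤ |v true - v false| + |w true - w false| := by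
        have : v true + w true - (v false + w false) = (v true - v false) + (w true - w false) := by
          ring
        rw [this]
        exact abs_add_le _ _
      linarith)
    (by
      intro t v ht
      rw [mul_max_of_nonneg _ _ ht, mul_zero, ← mul_sub, abs_mul, abs_of_nonneg ht]
      congr 1
      ring)
    (fun i => arrS ∅ {0} (if i then insert j S else S))
    (by
      intro i i' k hk
      have h1 : ∀ i : Bool, arrS ∅ {0} (if i then insert j S else S) k = arrS ∅ {0} S k := by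
        intro i
        cases i
        · simp
        · simp [arrS, hk]
      rw [h1 i, h1 i'])
    _
    (by
      intro s' hs'
      have h1 : arrS ∅ {0} (insert j S) j = {0} := by simp [arrS]
      have h2 : arrS ∅ {0} S j = ∅ := by simp [arrS, hjS]
      simp only [if_true, Bool.false_eq_true, if_false, h1, h2, X.ZP_empty]
      exact X.hoeff_block hm (X.hoeff_geo G hs') hδ0 hδ δ1 hδ1)
  simpa only [if_true, Bool.false_eq_true, if_false, ZS] using h

lemma hoeff_card (hm : 1 ≤ m) (m' : ℕ) {M K N : ℕ} {b : ℝ}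
    (G : X.Geo M K (2 * X.a + 1) N b) {δ : ℝ} (hδ0 : 0 < δ) (hδ : ∀ c ξ S o, |X.D c ξ S o| ≤ δ)
    (δ1 : ℝ) (hδ1 : 0 ≤ δ1) (S : Finset ℕ) (hS : S ⊆ range K) (hc : S.card ≤ m') :
    X.Tot N (fun c o R ℓ => max 0 (|X.ZS M K ∅ {0} S c o R ℓ -
        gg (2 * X.a + 1) (K * LL X.a M) c R ℓ| -
        S.card * ((1 + δ) ^ (2 * m') * δ1 * gg (2 * X.a + 1) (K * LL X.a M) c R ℓ))) ≤
      S.card * (δ * (2 * Real.exp (-(δ1 ^ 2 * X.β * √(M : ℝ) / (1280 * δ ^ 2 * (2 * (X.a : ℝ) + 1)))) +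
        badB X.β b M N)) := by
  induction S using Finset.induction_on with
  | empty =>
    have h0 : arrS ∅ {0} ∅ = fun _ => (∅ : Finset ℕ) := by
      funext i; simp [arrS]
    have h1 := X.Tot_mul_left N 0 (fun _ _ _ _ => 0)
    simp only [ZS, h0, X.ZP_empty, sub_self, abs_zero, Finset.card_empty, Nat.cast_zero, zero_mul,
      max_self] at h1 ⊢
    exact h1.le
  | insert j S hjS ih =>
    have hj : j < K := Finset.mem_range.1 (hS (Finset.mem_insert_self _ _))
    have hS' : S ⊆ range K := (Finset.subset_insert _ _).trans hS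
    rw [Finset.card_insert_of_notMem hjS] at hc ⊢
    have hc' : S.card ≤ m' := by omega
    have h1 := X.hoeff_insert hm G hδ0 hδ δ1 hδ1 S j hj hjS
    have h2 := ih hS' hc'
    push_cast
    rw [add_mul, one_mul]
    refine le_trans ?_ (add_le_add h2 h1)
    rw [← X.Tot_plus]
    refine X.Tot_mono N fun c o R ℓ => ?_
    refine max_le (add_nonneg (le_max_left _ _) (le_max_left _ _)) ?_
    have hg0 := gg_nonneg (2 * X.a + 1) (K * LL X.a M) R c ℓ
    have hle : X.ZS M K ∅ {0} S c o R ℓ ≤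
        (1 + δ) ^ (2 * m') * gg (2 * X.a + 1) (K * LL X.a M) c R ℓ := by
      refine (X.ZP_le_gg G.hM le_rfl (P := arrS ∅ {0} S) ?_ hδ S ?_ c o R ℓ).trans ?_
      · intro i
        unfold arrS
        split_ifs
        · exact Finset.singleton_subset_iff.2 (Finset.mem_range.2 hm)
        · simp
      · intro i _ hi
        simp [arrS, hi]
      · refine mul_le_mul_of_nonneg_right ?_ hg0
        exact pow_le_pow_right₀ (by linarith) (by omega)
    have h3 := le_max_right 0 (|X.ZS M K ∅ {0} S c o R ℓ - gg (2 * X.a + 1) (K * LL X.a M) c R ℓ| -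
        S.card * ((1 + δ) ^ (2 * m') * δ1 * gg (2 * X.a + 1) (K * LL X.a M) c R ℓ))
    have h4 := le_max_right 0 (|X.ZS M K ∅ {0} (insert j S) c o R ℓ - X.ZS M K ∅ {0} S c o R ℓ| -
        δ1 * X.ZS M K ∅ {0} S c o R ℓ)
    have h5 := abs_sub_le (X.ZS M K ∅ {0} (insert j S) c o R ℓ) (X.ZS M K ∅ {0} S c o R ℓ)
      (gg (2 * X.a + 1) (K * LL X.a M) c R ℓ)
    have h6 := mul_le_mul_of_nonneg_left hle hδ1
    nlinarith

/-- Remove the defects of `S` one at a time: for `j ∈ S`, `localize` with `ι = Bool` and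
`Φ v = max 0 (|v true - v false| - δ1 * v false)` bounds `Tot (Φ (ZS (S ∩ [0,j]), ZS (S ∩ [0,j))))` by the bound `B` of `hoeff_block`;
`ZS (S ∩ [0,j)) ≤ (1+δ) ^ (2 m') gg` (`ZP_le_gg`); so `Tot (max 0 (|ZS S - gg| - m' (1+δ)^(2m') δ1 gg)) ≤ m' B`; Markov; union over the
at most `K * 2 ^ m'` nonempty admissible `S ⊆ range K` (the empty set gives `ZS = gg`). -/
theorem hoeff_all (hm : 1 ≤ m) (m' : ℕ) (hm' : 1 ≤ m') {M K N : ℕ} {b : ℝ}
    (G : X.Geo M K (2 * X.a + 1) N b) {δ : ℝ} (hδ0 : 0 < δ) (hδ : ∀ c ξ S o, |X.D c ξ S o| ≤ δ)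
    (δ1 : ℝ) (hδ1 : 0 < δ1) :
    X.Tot N (fun c o R ℓ => ind (∃ S, S ⊆ range K ∧ Adm m' S ∧
        2 * m' * (1 + δ) ^ (2 * m') * δ1 * gg (2 * X.a + 1) (K * LL X.a M) c R ℓ <
          |X.ZS M K ∅ {0} S c o R ℓ - gg (2 * X.a + 1) (K * LL X.a M) c R ℓ|) *
        gg (2 * X.a + 1) (K * LL X.a M) c R ℓ) ≤
      (K : ℝ) * 2 ^ m' * (δ *
        (2 * Real.exp (-(δ1 ^ 2 * X.β * √(M : ℝ) / (1280 * δ ^ 2 * (2 * (X.a : ℝ) + 1)))) +
          badB X.β b M N)) / δ1 := by
  set B : ℝ := δ * (2 * Real.exp (-(δ1 ^ 2 * X.β * √(M : ℝ) /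
    (1280 * δ ^ 2 * (2 * (X.a : ℝ) + 1)))) + badB X.β b M N) with hB
  have hB0 : 0 ≤ B := by
    have := badB_nonneg X.β b M N
    positivity
  have hm0 : (0 : ℝ) < m' := by exact_mod_cast hm'
  have hC : (1 : ℝ) ≤ (1 + δ) ^ (2 * m') := one_le_pow₀ (by linarith)
  let Fam : Finset (Finset ℕ) :=
    ((range K).biUnion fun u => (Ico u (u + m')).powerset).filter fun S => S ⊆ range K
  have hcard : (Fam.card : ℝ) ≤ K * 2 ^ m' := by
    have h1 : Fam.card ≤ K * 2 ^ m' := by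
      refine (Finset.card_filter_le _ _).trans (Finset.card_biUnion_le.trans ?_)
      simp
    exact_mod_cast h1
  have hFam : ∀ S ∈ Fam, S ⊆ range K ∧ S.card ≤ m' := by
    intro S hS
    obtain ⟨h1, h2⟩ := Finset.mem_filter.1 hS
    obtain ⟨u, _, hu⟩ := Finset.mem_biUnion.1 h1
    refine ⟨h2, ?_⟩
    simpa using Finset.card_le_card (Finset.mem_powerset.1 hu)
  let Ψ : Finset ℕ → (ℕ → Ctx X.a) → (ℕ → X.Tok) → ℕ → Lab X.a → ℝ := fun S c o R ℓ =>
    max 0 (|X.ZS M K ∅ {0} S c o R ℓ - gg (2 * X.a + 1) (K * LL X.a M) c R ℓ| -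
      S.card * ((1 + δ) ^ (2 * m') * δ1 * gg (2 * X.a + 1) (K * LL X.a M) c R ℓ))
  have hΨ : ∀ S ∈ Fam, X.Tot N (Ψ S) ≤ m' * B := by
    intro S hS
    obtain ⟨h1, h2⟩ := hFam S hS
    refine (X.hoeff_card hm m' G hδ0 hδ δ1 hδ1.le S h1 h2).trans ?_
    exact mul_le_mul_of_nonneg_right (by exact_mod_cast h2) hB0
  calc _ ≤ X.Tot N (fun c o R ℓ => (m' * δ1)⁻¹ * ∑ S ∈ Fam, Ψ S c o R ℓ) := by
        refine X.Tot_mono N fun c o R ℓ => ?_
        have hg0 := gg_nonneg (2 * X.a + 1) (K * LL X.a M) R c ℓ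
        have hnn : ∀ S ∈ Fam, 0 ≤ Ψ S c o R ℓ := fun S _ => le_max_left _ _
        unfold ind
        split_ifs with h
        · obtain ⟨S, hS1, hS2, hS3⟩ := h
          have hW : 0 ≤ (1 + δ) ^ (2 * m') * δ1 * gg (2 * X.a + 1) (K * LL X.a M) c R ℓ := by
            positivity
          have hne : S.Nonempty := by
            rw [Finset.nonempty_iff_ne_empty]
            rintro rfl
            have h0 : arrS ∅ {0} ∅ = fun _ => (∅ : Finset ℕ) := by
              funext i; simp [arrS]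
            simp only [ZS, h0, X.ZP_empty, sub_self, abs_zero] at hS3
            nlinarith
          have hmem : S ∈ Fam := by
            obtain ⟨u, hu⟩ := hS2
            obtain ⟨j, hj⟩ := hne
            refine Finset.mem_filter.2 ⟨Finset.mem_biUnion.2 ⟨u, ?_, ?_⟩, hS1⟩
            · have h1 := Finset.mem_range.1 (hS1 hj)
              have h2 := (hu j hj).1
              exact Finset.mem_range.2 (by omega)
            · exact Finset.mem_powerset.2 fun i hi => Finset.mem_Ico.2 (hu i hi)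
          have hcS : (S.card : ℝ) ≤ m' := by exact_mod_cast (hFam S hmem).2
          rw [one_mul, le_inv_mul_iff₀ (by positivity)]
          refine le_trans ?_ (Finset.single_le_sum hnn hmem)
          refine le_trans ?_ (le_max_right _ _)
          have h1 := mul_le_mul_of_nonneg_right hcS hW
          have h2 : m' * δ1 * gg (2 * X.a + 1) (K * LL X.a M) c R ℓ ≤
              m' * ((1 + δ) ^ (2 * m') * δ1 * gg (2 * X.a + 1) (K * LL X.a M) c R ℓ) := by
            have h3 : 0 ≤ m' * δ1 * gg (2 * X.a + 1) (K * LL X.a M) c R ℓ := by positivity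
            nlinarith [mul_le_mul_of_nonneg_right hC h3]
          nlinarith
        · rw [zero_mul]
          exact mul_nonneg (by positivity) (Finset.sum_nonneg hnn)
    _ = (m' * δ1)⁻¹ * ∑ S ∈ Fam, X.Tot N (Ψ S) := by rw [X.Tot_mul_left, X.Tot_sum]
    _ ≤ (m' * δ1)⁻¹ * ∑ _S ∈ Fam, m' * B :=
        mul_le_mul_of_nonneg_left (Finset.sum_le_sum hΨ) (by positivity)
    _ = Fam.card * B / δ1 := by
        rw [Finset.sum_const, nsmul_eq_mul]
        field_simp
    _ ≤ _ := by gcongr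

end Model

end Pool.Agent.Lib.MP_343fe0_pr
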