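import Pool.Agent.Lib.MP_343fe0_pr.Walk
import Pool.Agent.Lib.MP_343fe0_pr.Ex
import Pool.Agent.Lib.MP_343fe0_pr.Binom

set_option autoImplicit false

/-! Laws of the position, quenched and annealed expectations, stopping. -/

namespace Pool.Agent.Lib.MP_343fe0_pr

open Finset

variable {a : ℕ}

lemma law_coins_sum (c : ℕ → Ctx a) (t t' : ℕ) :
    coins c t t' = ∑ r ∈ Ico t t', if (c r).2 = none then 1 else 0 := by
  rw [coins, card_filter]

lemma coins_add (c : ℕ → Ctx a) {t t' t'' : ℕ} (h1 : t ≤ t') (h2 : t' ≤ t'') :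
    coins c t t'' = coins c t t' + coins c t' t'' := by
  simp only [law_coins_sum]
  rw [sum_Ico_consecutive _ h1 h2]
lemma coins_sh (c : ℕ → Ctx a) (t n : ℕ) : coins (sh t c) 0 n = coins c t (t + n) := by
  simp only [law_coins_sum]
  rw [sum_Ico_eq_sum_range, sum_Ico_eq_sum_range]
  simp [sh]
lemma coins_le (c : ℕ → Ctx a) (t t' : ℕ) : coins c t t' ≤ t' - t :=
  (card_filter_le _ _).trans_eq (Nat.card_Ico _ _)
lemma law_coins_succ (c : ℕ → Ctx a) (n : ℕ) :
    coins c 0 (n + 1) = coins c 0 n + if (c n).2 = none then 1 else 0 := by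
  simp only [law_coins_sum]
  rw [sum_Ico_succ_top (Nat.zero_le n)]
lemma law_base_succ (c : ℕ → Ctx a) (n : ℕ) :
    base c (n + 1) = base c n + stp (c n) ((c n).2.getD false) := sum_range_succ _ _
lemma law_stp_true (c : Ctx a) : stp c true = stp c false + 1 := rfl
/-- On sequences of nonzero weight the position is `base` plus the number of `true` coins. -/
lemma pos_eq_base {ϱ : ℝ} (s n : ℕ) (c : ℕ → Ctx a) (ξ : ℕ → Bool)
    (h : ∀ r < n, pr ϱ (c r) (ξ r) ≠ 0) :
    pos s c ξ n = s + base c n + ((range n).filter fun r => (c r).2 = none ∧ ξ r = true).card := by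
  induction n with
  | zero => simp [pos, base]
  | succ n ih =>
    rw [pos_succ, ih fun r hr => h r (by omega), law_base_succ, card_filter, card_filter,
      sum_range_succ]
    cases hc : (c n).2 with
    | none =>
      cases hξ : ξ n
      · simp; omega
      · simp [law_stp_true]; omega
    | some b =>
      rw [pr_ne_zero (h n (by omega)) hc]
      simp; omega

lemma law_EX_last {Θ : Type} [Fintype Θ] [Inhabited Θ] (π : ℕ → Θ → ℝ) (n : ℕ)
    (F : (ℕ → Θ) → ℝ) :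
    EX π (n + 1) F = EX π n fun v => ∑ θ, π n θ * F (splice n v (cns θ fun _ => default)) := by
  rw [EX_add]
  congr 1
  funext v
  rw [EX_succ]
  simp only [EX_zero]
  rfl

lemma law_pos_splice (s n : ℕ) (c : ℕ → Ctx a) (v w : ℕ → Bool) :
    pos s c (splice n v w) n = pos s c v n :=
  pos_congr s (fun _ _ => rfl) fun _ hi => splice_lt v w hi

lemma law_splice_at {Θ : Type} (n : ℕ) (v w : ℕ → Θ) (θ : Θ) : splice n v (cns θ w) n = θ :=
  splice_add n 0 v (cns θ w)

/-- The law of the position after `n` steps is binomial (induction on `n`, `EX_succ`, `bin_succ`). -/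
lemma EX_walk (ϱ : ℝ) (c : ℕ → Ctx a) (n s : ℕ) (F : ℕ → ℝ) :
    EX (fun r => pr ϱ (c r)) n (fun ξ => F (pos s c ξ n)) =
      ∑ j ∈ range (coins c 0 n + 1), bin ϱ (coins c 0 n) j * F (s + base c n + j) := by
  induction n generalizing F with
  | zero => simp [EX_zero, pos, base, coins, bin]
  | succ n ih =>
    rw [law_EX_last]
    simp only [pos_succ, law_pos_splice, law_splice_at]
    rw [ih fun p => ∑ θ, pr ϱ (c n) θ * F (p + stp (c n) θ), law_coins_succ, law_base_succ]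
    cases hc : (c n).2 with
    | none =>
      simp only [pr, hc, if_true, Fintype.sum_bool, Option.getD_none, bin_succ, add_mul,
        sum_add_distrib, mul_add, Bool.false_eq_true, if_false]
      rw [add_comm]
      congr 1
      · rw [sum_range_succ _ (coins c 0 n + 1), bin_gt ϱ (coins c 0 n) (by push_cast; omega)]
        simp only [mul_zero, zero_mul, add_zero]
        refine sum_congr rfl fun j _ => ?_
        rw [show s + base c n + j + stp (c n) false = s + (base c n + stp (c n) false) + j by omega]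
        ring
      · rw [sum_range_succ' _ (coins c 0 n + 1), bin_neg ϱ (coins c 0 n) (by norm_num)]
        simp only [mul_zero, zero_mul, add_zero]
        refine sum_congr rfl fun j _ => ?_
        rw [show s + base c n + j + stp (c n) true = s + (base c n + stp (c n) false) + (j + 1) by
          rw [law_stp_true]; omega]
        push_cast
        rw [add_sub_cancel_right]
        ring
    | some b =>
      simp only [pr, hc, ite_mul, one_mul, zero_mul, sum_ite_eq', mem_univ, if_true,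
        Option.getD_some, reduceCtorEq, if_false, add_zero]
      refine sum_congr rfl fun j _ => ?_
      rw [show s + base c n + j + stp (c n) b = s + (base c n + stp (c n) b) + j by omega]

lemma law_bin_pick (ϱ : ℝ) (k : ℕ) (J : ℤ) :
    ∑ j ∈ range (k + 1), bin ϱ k j * ind ((j : ℤ) = J) = bin ϱ k J := by
  by_cases h0 : J < 0
  · rw [bin_neg ϱ k h0]
    exact sum_eq_zero fun j _ => by rw [ind_false (by omega), mul_zero]
  by_cases h1 : (k : ℤ) < J
  · rw [bin_gt ϱ k h1]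
    exact sum_eq_zero fun j hj => by
      rw [ind_false (by have := mem_range.1 hj; omega), mul_zero]
  obtain ⟨j0, rfl⟩ := Int.eq_ofNat_of_zero_le (not_lt.1 h0)
  rw [sum_eq_single j0, ind_true rfl, mul_one]
  · intro j _ hj
    rw [ind_false (by omega), mul_zero]
  · intro hj
    exact absurd (mem_range.2 (by omega)) hj

/-- The same with the last step pinned by the label. -/
lemma EX_End (ϱ : ℝ) (s E R : ℕ) (c : ℕ → Ctx a) (ℓ : Lab a) :
    EX (fun r => pr ϱ (c r)) R (fun ξ => ind (End s E c ξ R ℓ)) =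
      ind (1 ≤ R ∧ ℓ.1.val < stp (c (R - 1)) ℓ.2) * pr ϱ (c (R - 1)) ℓ.2 *
        bin ϱ (coins c 0 (R - 1)) (jj s E c R ℓ) := by
  cases R with
  | zero =>
    rw [EX_zero, ind_false fun h => by have := End.one_le h; omega, ind_false (by omega)]
    simp
  | succ n =>
    rw [law_EX_last]
    have h1 : ∀ v : ℕ → Bool, ∑ θ, pr ϱ (c n) θ *
        ind (End s E c (splice n v (cns θ fun _ => default)) (n + 1) ℓ) =
        pr ϱ (c n) ℓ.2 * ind (pos s c v n < E ∧ pos s c v n + stp (c n) ℓ.2 = E + ℓ.1.val) := by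
      intro v
      simp only [End, Nat.add_sub_cancel, pos_succ, law_pos_splice, law_splice_at]
      rw [sum_eq_single ℓ.2]
      · simp
      · intro b _ hb
        rw [ind_false fun h => hb h.2.2, mul_zero]
      · simp
    simp only [h1]
    rw [EX_walk ϱ c n s fun p => pr ϱ (c n) ℓ.2 * ind (p < E ∧ p + stp (c n) ℓ.2 = E + ℓ.1.val),
      Nat.add_sub_cancel, ← law_bin_pick, mul_sum]
    refine sum_congr rfl fun j _ => ?_
    rw [ind_congr (q := (1 ≤ n + 1 ∧ ℓ.1.val < stp (c n) ℓ.2) ∧ (j : ℤ) = jj s E c (n + 1) ℓ)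
      (by simp only [jj, Nat.add_sub_cancel]; omega), ind_and]
    ring
lemma gg_eq (s E R : ℕ) (c : ℕ → Ctx a) (ℓ : Lab a) :
    gg s E c R ℓ = ind (1 ≤ R ∧ ℓ.1.val < stp (c (R - 1)) ℓ.2) * pr (1 / 2) (c (R - 1)) ℓ.2 *
      bin (1 / 2) (coins c 0 (R - 1)) (jj s E c R ℓ) := EX_End _ s E R c ℓ
lemma law_pr_nonneg (c : Ctx a) (ξ : Bool) : 0 ≤ pr (1 / 2) c ξ :=
  pr_nonneg (by norm_num) (by norm_num) c ξ
lemma gg_nonneg (s E R : ℕ) (c : ℕ → Ctx a) (ℓ : Lab a) : 0 ≤ gg s E c R ℓ := by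
  rw [gg, QX]
  exact EX_nonneg (fun r ξ => law_pr_nonneg (c r) ξ) R fun _ => ind_nonneg _
/-- If `gg` does not vanish some path of nonzero weight ends with this label. -/
lemma exists_End_of_gg {s E R : ℕ} {c : ℕ → Ctx a} {ℓ : Lab a} (h : gg s E c R ℓ ≠ 0) :
    ∃ ξ, End s E c ξ R ℓ := by
  by_contra hn
  refine h ?_
  have : (fun ξ => ind (End s E c ξ R ℓ)) = fun _ => 0 :=
    funext fun ξ => ind_false fun h' => hn ⟨ξ, h'⟩
  rw [gg, this]
  exact EX_zero_fun _ _

lemma QX_succ (c0 : Ctx a) (c : ℕ → Ctx a) (n : ℕ) (F : (ℕ → Bool) → ℝ) :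
    QX (cns c0 c) (n + 1) F = ∑ ξ0, pr (1 / 2) c0 ξ0 * QX c n fun ξ => F (cns ξ0 ξ) := by
  have : sh 1 (fun r => pr (1 / 2) (cns c0 c r)) = fun r => pr (1 / 2) (c r) := by
    funext r; rw [sh, add_comm]; rfl
  rw [QX, EX_succ, this]
  rfl
lemma AX_zero (β : ℝ) (F : (ℕ → Ctx a) → (ℕ → Bool) → ℝ) :
    AX β 0 F = F (fun _ => default) fun _ => default := by
  rw [AX, EX_zero, QX, EX_zero]
lemma AX_succ (β : ℝ) (n : ℕ) (F : (ℕ → Ctx a) → (ℕ → Bool) → ℝ) :
    AX β (n + 1) F = ∑ c0, ∑ ξ0, kap β c0 * pr (1 / 2) c0 ξ0 *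
      AX β n fun c ξ => F (cns c0 c) (cns ξ0 ξ) := by
  rw [AX, EX_succ]
  refine sum_congr rfl fun c0 _ => ?_
  simp only [QX_succ]
  rw [EX_sum, mul_sum]
  refine sum_congr rfl fun ξ0 _ => ?_
  rw [EX_mul_left, mul_assoc]
  rfl
lemma AX_mono {β : ℝ} (h0 : 0 ≤ β) (h1 : β ≤ 1) (n : ℕ) {F G : (ℕ → Ctx a) → (ℕ → Bool) → ℝ}
    (h : ∀ c ξ, F c ξ ≤ G c ξ) : AX β n F ≤ AX β n G :=
  EX_mono (fun _ _ => kap_nonneg h0 h1 _) n fun c =>
    EX_mono (fun _ _ => law_pr_nonneg _ _) n (h c)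
lemma AX_const (β : ℝ) (n : ℕ) (t : ℝ) : AX β n (fun (_ : ℕ → Ctx a) _ => t) = t := by
  have : ∀ c : ℕ → Ctx a, QX c n (fun _ => t) = t := fun c => EX_const (fun _ => pr_sum _ _) n t
  simp only [AX, this]
  exact EX_const (fun _ => kap_sum β) n t
lemma AX_plus (β : ℝ) (n : ℕ) (F G : (ℕ → Ctx a) → (ℕ → Bool) → ℝ) :
    AX β n (fun c ξ => F c ξ + G c ξ) = AX β n F + AX β n G := by
  simp only [AX, QX, EX_plus]
lemma AX_mul_left (β : ℝ) (n : ℕ) (t : ℝ) (F : (ℕ → Ctx a) → (ℕ → Bool) → ℝ) :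
    AX β n (fun c ξ => t * F c ξ) = t * AX β n F := by
  simp only [AX, QX, EX_mul_left]
lemma AX_sum {ι : Type} (β : ℝ) (n : ℕ) (s : Finset ι) (F : ι → (ℕ → Ctx a) → (ℕ → Bool) → ℝ) :
    AX β n (fun c ξ => ∑ i ∈ s, F i c ξ) = ∑ i ∈ s, AX β n (F i) := by
  simp only [AX, QX, EX_sum]
lemma AX_prod (β : ℝ) (n : ℕ) (φ : ℕ → Ctx a → Bool → ℝ) :
    AX β n (fun c ξ => ∏ r ∈ range n, φ r (c r) (ξ r)) =
      ∏ r ∈ range n, ∑ c0, ∑ ξ0, kap β c0 * pr (1 / 2) c0 ξ0 * φ r c0 ξ0 := by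
  have : ∀ c : ℕ → Ctx a, QX c n (fun ξ => ∏ r ∈ range n, φ r (c r) (ξ r)) =
      ∏ r ∈ range n, ∑ ξ0, pr (1 / 2) (c r) ξ0 * φ r (c r) ξ0 :=
    fun c => EX_prod _ n fun r => φ r (c r)
  simp only [AX, this]
  rw [EX_prod _ n fun r c0 => ∑ ξ0, pr (1 / 2) c0 ξ0 * φ r c0 ξ0]
  simp only [mul_sum, mul_assoc]
lemma AX_dep (β : ℝ) {R n : ℕ} (hR : R ≤ n) {F : (ℕ → Ctx a) → (ℕ → Bool) → ℝ}
    (hF : ∀ c c' ξ ξ', (∀ r < R, c r = c' r) → (∀ r < R, ξ r = ξ' r) → F c ξ = F c' ξ') :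
    AX β n F = AX β R F := by
  have h1 : ∀ c : ℕ → Ctx a, QX c n (fun ξ => F c ξ) = QX c R fun ξ => F c ξ := fun c =>
    EX_dep (fun _ => pr_sum _ _) hR fun v w h => hF c c v w (fun _ _ => rfl) h
  simp only [AX, h1]
  refine EX_dep (fun _ => kap_sum β) hR fun c c' h => ?_
  have h2 : (fun ξ => F c ξ) = fun ξ => F c' ξ := funext fun ξ => hF c c' ξ ξ h fun _ _ => rfl
  rw [h2]
  exact EX_congr_wt (fun r hr => by rw [h r hr]) _
/-- From the stopped walk to the free walk (`AX_dep`, `sum_End_le`). -/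
lemma stop_le (ha : 1 ≤ a) {β : ℝ} (h0 : 0 ≤ β) (h1 : β ≤ 1) (s E N : ℕ)
    (Ψ : (ℕ → Ctx a) → (ℕ → Bool) → ℝ) (hΨ : ∀ c ξ, 0 ≤ Ψ c ξ)
    (hdep : ∀ R c c' ξ ξ', (∀ r < R, c r = c' r) → (∀ r < R, ξ r = ξ' r) → E ≤ pos s c ξ R →
      Ψ c ξ = Ψ c' ξ') :
    ∑ R ∈ range (N + 1), AX β R (fun c ξ => ∑ ℓ : Lab a, ind (End s E c ξ R ℓ) * Ψ c ξ) ≤
      AX β N Ψ := by
  have e1 : ∀ R ∈ range (N + 1),
      AX β R (fun c ξ => ∑ ℓ : Lab a, ind (End s E c ξ R ℓ) * Ψ c ξ) =
      AX β N (fun c ξ => ∑ ℓ : Lab a, ind (End s E c ξ R ℓ) * Ψ c ξ) := by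
    intro R hR
    refine (AX_dep β (Nat.lt_succ_iff.1 (mem_range.1 hR)) fun c c' ξ ξ' hc hξ => ?_).symm
    refine sum_congr rfl fun ℓ _ => ?_
    by_cases he : End s E c ξ R ℓ
    · rw [ind_true he, ind_true (he.congr hc hξ),
        hdep R c c' ξ ξ' hc hξ (by have := he.2.1; omega)]
    · rw [ind_false he, ind_false fun he' : End s E c' ξ' R ℓ => he (he'.congr
        (fun i hi => (hc i hi).symm) fun i hi => (hξ i hi).symm), zero_mul, zero_mul]
  rw [sum_congr rfl e1, ← AX_sum β N (range (N + 1)) fun R c ξ =>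
    ∑ ℓ : Lab a, ind (End s E c ξ R ℓ) * Ψ c ξ]
  refine AX_mono h0 h1 N fun c ξ => ?_
  simp only [← sum_mul]
  exact mul_le_of_le_one_left (hΨ c ξ) (sum_End_le ha s E N c ξ)
/-- Optional stopping for products (induction on `N`, generalising `s`; `AX_succ`, `End_cns`). -/
lemma stop_mgf (ha : 1 ≤ a) {β : ℝ} (h0 : 0 ≤ β) (h1 : β ≤ 1) (φ : Ctx a → Bool → ℝ)
    (hφ : ∀ c ξ, 0 ≤ φ c ξ) (κ : ℝ) (hκ : 1 ≤ κ)
    (hm : ∑ c, ∑ ξ, kap β c * pr (1 / 2) c ξ * φ c ξ ≤ κ) (E N s : ℕ) :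
    ∑ R ∈ range (N + 1), AX β R (fun c ξ =>
      ∑ ℓ : Lab a, ind (End s E c ξ R ℓ) * ∏ r ∈ range R, φ (c r) (ξ r)) ≤ κ ^ N := by
  have hz : ∀ s : ℕ, AX β 0 (fun c ξ =>
      ∑ ℓ : Lab a, ind (End s E c ξ 0 ℓ) * ∏ r ∈ range 0, φ (c r) (ξ r)) = 0 := by
    intro s
    rw [AX_zero]
    exact sum_eq_zero fun ℓ _ => by
      rw [ind_false fun h => by have := End.one_le h; omega, zero_mul]
  induction N generalizing s with
  | zero => rw [zero_add, sum_range_one, hz, pow_zero]; exact zero_le_one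
  | succ N ih =>
    have hκN : 1 ≤ κ ^ N := one_le_pow₀ hκ
    by_cases hs : s < E
    swap
    · refine le_trans (le_of_eq (sum_eq_zero fun R _ => ?_)) (by positivity)
      refine Eq.trans ?_ (AX_const (a := a) β R 0)
      congr 1
      funext c ξ
      refine sum_eq_zero fun ℓ _ => ?_
      rw [ind_false fun h => ?_, zero_mul]
      have h2 := h.1
      have h3 := pos_ge s c ξ (Nat.zero_le (R - 1))
      rw [pos_zero] at h3
      omega
    rw [sum_range_succ', hz, add_zero]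
    simp only [AX_succ]
    rw [sum_comm]
    have key : ∀ (c0 : Ctx a) (ξ0 : Bool), ∑ R ∈ range (N + 1), AX β R (fun c ξ =>
        ∑ ℓ : Lab a, ind (End s E (cns c0 c) (cns ξ0 ξ) (R + 1) ℓ) *
          ∏ r ∈ range R, φ (c r) (ξ r)) ≤ κ ^ N := by
      intro c0 ξ0
      by_cases hE : E ≤ s + stp c0 ξ0
      · rw [sum_eq_single 0]
        · rw [AX_zero]
          simp only [prod_range_zero, mul_one]
          refine le_trans ?_ ((sum_End_le ha s E 1 (cns c0 fun _ => default)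
            (cns ξ0 fun _ => default)).trans hκN)
          rw [sum_range_succ]
          exact le_add_of_nonneg_left (sum_nonneg fun _ _ => sum_nonneg fun _ _ => ind_nonneg _)
        · intro R _ hR
          refine Eq.trans ?_ (AX_const (a := a) β R 0)
          congr 1
          funext c ξ
          refine sum_eq_zero fun ℓ _ => ?_
          rw [End_cns hs ha, if_pos hE, ind_false fun h => hR h.1, zero_mul]
        · simp
      · simp only [End_cns hs ha, if_neg hE]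
        exact ih _
    calc _ ≤ ∑ c0 : Ctx a, ∑ ξ0, kap β c0 * pr (1 / 2) c0 ξ0 * φ c0 ξ0 * κ ^ N := by
          refine sum_le_sum fun c0 _ => ?_
          rw [sum_comm]
          refine sum_le_sum fun ξ0 _ => ?_
          refine le_trans (le_of_eq ?_) (mul_le_mul_of_nonneg_left (key c0 ξ0)
            (mul_nonneg (mul_nonneg (kap_nonneg h0 h1 c0) (law_pr_nonneg c0 ξ0)) (hφ c0 ξ0)))
          rw [mul_sum]
          refine sum_congr rfl fun R _ => ?_
          rw [mul_assoc _ (φ c0 ξ0), ← AX_mul_left β R (φ c0 ξ0)]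
          congr 2
          funext c ξ
          rw [mul_sum]
          refine sum_congr rfl fun ℓ _ => ?_
          rw [prod_range_succ']
          simp only [cns]
          ring
      _ ≤ κ ^ (N + 1) := by
          simp only [← sum_mul]
          rw [pow_succ']
          exact mul_le_mul_of_nonneg_right hm (by positivity)

end Pool.Agent.Lib.MP_343fe0_pr
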