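import Pool.Agent.Lib.MP_343fe0_pr.PkgFirst
import Pool.Agent.Lib.MP_343fe0_pr.Base

set_option autoImplicit false

/-! Level one. -/

namespace Pool.Agent.Lib.MP_343fe0_pr

open Finset Filter

/-- Exponentials beat powers. -/
lemma levone_exp (A t : ℝ) (ht : 0 < t) (n : ℕ) :
    ∀ᶠ x : ℕ in atTop, A * (x : ℝ) ^ n * Real.exp (-(t * x)) ≤ 1 := by
  have h1 : Tendsto (fun x : ℕ => t * (x : ℝ)) atTop atTop :=
    tendsto_natCast_atTop_atTop.const_mul_atTop ht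
  have h2 := ((Real.tendsto_pow_mul_exp_neg_atTop_nhds_zero n).comp h1).const_mul (A / t ^ n)
  rw [mul_zero] at h2
  filter_upwards [h2.eventually (gt_mem_nhds zero_lt_one)] with x hx
  have e : A * (x : ℝ) ^ n * Real.exp (-(t * x)) =
      A / t ^ n * ((t * x) ^ n * Real.exp (-(t * x))) := by
    rw [mul_pow]
    field_simp
  rw [e]
  exact le_of_lt hx

lemma levone_exp' (t : ℝ) (ht : 0 < t) (n : ℕ) :
    ∀ᶠ x : ℕ in atTop, Real.exp (-(t * x)) ≤ 1 / (x : ℝ) ^ n := by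
  filter_upwards [levone_exp 1 t ht n, eventually_ge_atTop 1] with x hx h1
  have hx1 : (0 : ℝ) < x := by exact_mod_cast h1
  rw [le_div_iff₀ (pow_pos hx1 n)]
  linarith

/-- Superpolynomial smallness of the probability of bad contexts for `b = x`, `M = x ^ 10`. -/
lemma badB_small (β C : ℝ) (hβ : 0 < β) (k l : ℕ) :
    ∀ᶠ x : ℕ in atTop, ∀ N : ℕ, (N : ℝ) ≤ C * (x : ℝ) ^ k → badB β x (x ^ 10) N ≤ 1 / (x : ℝ) ^ l := by
  have ht : 0 < β ^ 2 / 192 := by positivity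
  filter_upwards [levone_exp (2 * (|C| + 1) ^ 3) 1 one_pos (3 * k + l),
    levone_exp (4 * (|C| + 1)) (β ^ 2 / 192) ht (k + l), eventually_ge_atTop 1] with x h1 h2 h3 N hN
  have hx1 : (1 : ℝ) ≤ x := by exact_mod_cast h3
  have hx0 : (0 : ℝ) < x := by linarith
  have hk : (1 : ℝ) ≤ (x : ℝ) ^ k := one_le_pow₀ hx1
  have hl : (0 : ℝ) < (x : ℝ) ^ l := pow_pos hx0 l
  have hN1 : (N : ℝ) + 1 ≤ (|C| + 1) * (x : ℝ) ^ k := by
    have : C * (x : ℝ) ^ k ≤ |C| * (x : ℝ) ^ k :=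
      mul_le_mul_of_nonneg_right (le_abs_self C) (by positivity)
    linarith
  have hN0 : (0 : ℝ) ≤ (N : ℝ) + 1 := by positivity
  have he : Real.exp (-(β ^ 2 * ((x ^ 10 : ℕ) : ℝ) / 192)) ≤ Real.exp (-(β ^ 2 / 192 * x)) := by
    apply Real.exp_le_exp.2
    have : (x : ℝ) ≤ (x : ℝ) ^ 10 := le_self_pow₀ hx1 (by norm_num)
    have h4 := mul_le_mul_of_nonneg_left this ht.le
    push_cast
    linarith
  have hA : ((N : ℝ) + 1) ^ 3 * Real.exp (-(x : ℝ)) * (x : ℝ) ^ l ≤ 1 / 2 := by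
    have h4 : ((N : ℝ) + 1) ^ 3 ≤ ((|C| + 1) * (x : ℝ) ^ k) ^ 3 := pow_le_pow_left₀ hN0 hN1 3
    have h5 : ((N : ℝ) + 1) ^ 3 * Real.exp (-(x : ℝ)) * (x : ℝ) ^ l ≤
        ((|C| + 1) * (x : ℝ) ^ k) ^ 3 * Real.exp (-(x : ℝ)) * (x : ℝ) ^ l := by gcongr
    have e : 2 * (((|C| + 1) * (x : ℝ) ^ k) ^ 3 * Real.exp (-(x : ℝ)) * (x : ℝ) ^ l) =
        2 * (|C| + 1) ^ 3 * (x : ℝ) ^ (3 * k + l) * Real.exp (-(1 * x)) := by
      rw [one_mul]
      ring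
    linarith
  have hB : 2 * ((N : ℝ) + 1) * Real.exp (-(β ^ 2 * ((x ^ 10 : ℕ) : ℝ) / 192)) * (x : ℝ) ^ l ≤
      1 / 2 := by
    have h5 : 2 * ((N : ℝ) + 1) * Real.exp (-(β ^ 2 * ((x ^ 10 : ℕ) : ℝ) / 192)) * (x : ℝ) ^ l ≤
        2 * ((|C| + 1) * (x : ℝ) ^ k) * Real.exp (-(β ^ 2 / 192 * x)) * (x : ℝ) ^ l := by gcongr
    have e : 2 * (2 * ((|C| + 1) * (x : ℝ) ^ k) * Real.exp (-(β ^ 2 / 192 * x)) * (x : ℝ) ^ l) =
        4 * (|C| + 1) * (x : ℝ) ^ (k + l) * Real.exp (-(β ^ 2 / 192 * x)) := by ring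
    linarith
  unfold badB
  rw [le_div_iff₀ hl, add_mul]
  linarith

/-- `pkg_first` applied to `base_model` (`C0 = 2025`, `Bd.mono`) with `M = x ^ 10`, `b = x`, `δ1 = 1 / x ^ 2`,
`a' = ⌈9 c M⌉₊`, `η = 1 / x ^ (z + 1)`; note `√M = x ^ 5` and `δ1 ^ 2 √M = x`. -/
theorem lev_one (m z : ℕ) (hm : 1 ≤ m) : Lev m 10 10 0 5 z False := by
  obtain ⟨X, ha, hβ, hε, hU, hV, hBd⟩ := base_model
  obtain ⟨c, β', C, hc0, hc1, hβ', hC, M0, hpkg⟩ :=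
    pkg_first 1 m le_rfl hm (1 / 8) 2025 (by norm_num) (by norm_num)
  have hBd' : X.Bd 2025 2025 2025 2025 :=
    hBd.mono le_rfl (by norm_num) (by norm_num) (by norm_num)
  have hci : 0 < 1 / c := by positivity
  have hC0 : 0 < C := by linarith
  refine ⟨C + 1 / c + 18, β', by linarith, hβ', ?_⟩
  have ht : 0 < 1 / (C * 3) := by positivity
  filter_upwards [badB_small (1 / 8) 222 (by norm_num) 20 (z + 15),
    levone_exp' (1 / (C * 3)) ht (z + 15), eventually_ge_atTop 6, eventually_ge_atTop M0,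
    tendsto_natCast_atTop_atTop.eventually_ge_atTop C,
    tendsto_natCast_atTop_atTop.eventually_ge_atTop ((m : ℝ) / c)] with x hbad hexp h6 hM0 hxC hxm
  have hx6 : (6 : ℝ) ≤ x := by exact_mod_cast h6
  have hx1 : (1 : ℝ) ≤ x := by linarith
  have hx0 : (0 : ℝ) < x := by linarith
  have hx10 : (x : ℝ) ≤ (x : ℝ) ^ 10 := le_self_pow₀ hx1 (by norm_num)
  have hM1 : 1 ≤ x ^ 10 := Nat.one_le_pow _ _ (by omega)
  have hMM : M0 ≤ x ^ 10 := hM0.trans (Nat.le_self_pow (by norm_num) x)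
  have hm1 : (1 : ℝ) ≤ m := by exact_mod_cast hm
  have hmc : (m : ℝ) ≤ c * (x : ℝ) ^ 10 := by
    rw [div_le_iff₀ hc0] at hxm
    nlinarith
  set a' : ℕ := ⌈9 * c * (x : ℝ) ^ 10⌉₊ with ha'
  have hlo : 9 * c * (x : ℝ) ^ 10 ≤ a' := Nat.le_ceil _
  have hhi : (a' : ℝ) ≤ 18 * c * (x : ℝ) ^ 10 := by
    have : (a' : ℝ) < 9 * c * (x : ℝ) ^ 10 + 1 := Nat.ceil_lt_add_one (by positivity)
    nlinarith
  have hhi' : (a' : ℝ) ≤ 18 * (x : ℝ) ^ 10 := by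
    have : c * (x : ℝ) ^ 10 ≤ 1 * (x : ℝ) ^ 10 := by gcongr
    linarith
  have hsq : √(((x ^ 10 : ℕ) : ℝ)) = (x : ℝ) ^ 5 := by
    have e : ((x ^ 10 : ℕ) : ℝ) = ((x : ℝ) ^ 5) ^ 2 := by
      push_cast
      ring
    rw [e, Real.sqrt_sq (by positivity)]
  have hLL : LL X.a (x ^ 10) = 6 * x ^ 10 := by
    unfold LL HH
    rw [ha]
    ring
  have hN : (((2 * a' + 1) * LL X.a (x ^ 10) : ℕ) : ℝ) ≤ 222 * (x : ℝ) ^ 20 := by
    rw [hLL]
    push_cast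
    have h1 : (1 : ℝ) ≤ (x : ℝ) ^ 10 := by linarith
    have h2 : 2 * (a' : ℝ) + 1 ≤ 37 * (x : ℝ) ^ 10 := by linarith
    calc (2 * (a' : ℝ) + 1) * (6 * (x : ℝ) ^ 10) ≤ 37 * (x : ℝ) ^ 10 * (6 * (x : ℝ) ^ 10) := by
          gcongr
      _ = 222 * (x : ℝ) ^ 20 := by ring
  have hxz : (x : ℝ) ≤ (x : ℝ) ^ (z + 1) := le_self_pow₀ hx1 (by omega)
  have hx2 : (x : ℝ) ≤ (x : ℝ) ^ 2 := le_self_pow₀ hx1 (by omega)
  obtain ⟨X', h1, h2, h3, h4, h5, h7⟩ := hpkg X (x ^ 10) a' x (1 / (x : ℝ) ^ 2)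
    (1 / (x : ℝ) ^ (z + 1)) hβ hBd' hMM
    (by rw [ha]; push_cast; linarith) (by rw [ha]; push_cast; linarith)
    (by
      have : (m : ℝ) ≤ a' := by nlinarith
      exact_mod_cast this)
    hx0.le
    (by
      push_cast
      have h9 : (6 : ℝ) ^ 9 ≤ (x : ℝ) ^ 9 := pow_le_pow_left₀ (by norm_num) hx6 9
      have e : (x : ℝ) ^ 10 = (x : ℝ) ^ 9 * x := by ring
      rw [e]
      nlinarith)
    (by positivity)
    (by
      rw [mul_one_div, div_le_one (by positivity)]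
      linarith)
    (by
      have e1 : (1 / (x : ℝ) ^ 2) ^ 2 * √(((x ^ 10 : ℕ) : ℝ)) / (C * (2 * (X.a : ℝ) + 1)) =
          1 / (C * 3) * x := by
        rw [hsq, ha]
        field_simp
        norm_num
      rw [e1]
      have hb := hbad _ hN
      have hsum : Real.exp (-(1 / (C * 3) * (x : ℝ))) +
          badB (1 / 8) x (x ^ 10) ((2 * a' + 1) * LL X.a (x ^ 10)) ≤ 2 / (x : ℝ) ^ (z + 15) := by
        have : (2 : ℝ) / (x : ℝ) ^ (z + 15) = 1 / (x : ℝ) ^ (z + 15) + 1 / (x : ℝ) ^ (z + 15) := by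
          ring
        linarith
      have h36 : (36 : ℝ) ≤ (x : ℝ) ^ 2 := by nlinarith
      calc (a' : ℝ) * (Real.exp (-(1 / (C * 3) * (x : ℝ))) +
            badB (1 / 8) x (x ^ 10) ((2 * a' + 1) * LL X.a (x ^ 10))) / (1 / (x : ℝ) ^ 2)
          ≤ (a' : ℝ) * (2 / (x : ℝ) ^ (z + 15)) / (1 / (x : ℝ) ^ 2) := by gcongr
        _ ≤ 18 * (x : ℝ) ^ 10 * (2 / (x : ℝ) ^ (z + 15)) / (1 / (x : ℝ) ^ 2) := by gcongr
        _ = 36 / ((x : ℝ) ^ 2 * (x : ℝ) ^ (z + 1)) := by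
          field_simp
          ring
        _ ≤ (x : ℝ) ^ 2 / ((x : ℝ) ^ 2 * (x : ℝ) ^ (z + 1)) := by gcongr
        _ = 1 / (x : ℝ) ^ (z + 1) := by field_simp)
    (by
      rw [mul_one_div, div_le_one (by positivity)]
      linarith)
  have hCC : C ≤ C + 1 / c + 18 := by linarith
  have hlen : ∀ F, ((X.blk (x ^ 10) F).length : ℝ) ≤ (C + 1 / c + 18) * (x : ℝ) ^ 10 := by
    intro F
    have h := X.blk_length_le (x ^ 10) F 2 (by rw [hU]; simp) (by rw [hV]; simp)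
    rw [hLL] at h
    have h' : ((X.blk (x ^ 10) F).length : ℝ) ≤ 6 * (x : ℝ) ^ 10 * 2 := by exact_mod_cast h
    have : (12 : ℝ) * (x : ℝ) ^ 10 ≤ (C + 1 / c + 18) * (x : ℝ) ^ 10 := by
      gcongr
      linarith
    linarith
  refine ⟨X', h2, ?_, ?_, ?_, ?_, ?_, False.elim, ?_, ?_⟩
  · rw [h1]
    have e : (x : ℝ) ^ 10 = 1 / c * (c * (x : ℝ) ^ 10) := by field_simp
    have h8 : c * (x : ℝ) ^ 10 ≤ a' := by nlinarith
    calc (x : ℝ) ^ 10 = 1 / c * (c * (x : ℝ) ^ 10) := e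
      _ ≤ 1 / c * a' := by gcongr
      _ ≤ (C + 1 / c + 18) * a' := by
        gcongr
        linarith
  · rw [h1]
    have : (18 : ℝ) * (x : ℝ) ^ 10 ≤ (C + 1 / c + 18) * (x : ℝ) ^ 10 := by
      gcongr
      linarith
    linarith
  · rw [h3]
    exact hlen _
  · rw [h4]
    exact hlen _
  · rw [h3, h4]
    refine X.blk_dif hM1 (by simp) ⟨1, FreeMonoid.of true, 1, false, ?_, ?_⟩
    · rw [hU, one_mul]
    · rw [hV, one_mul, mul_one]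
      rfl
  · rw [hε, mul_zero, zero_add, mul_one_div] at h5
    refine h5.trans ?_
    have : (x : ℝ) ^ z ≤ (x : ℝ) ^ (z + 1) := pow_le_pow_right₀ hx1 (by omega)
    gcongr
  · rw [hsq] at h7
    refine h7.mono ?_ ?_ ?_ ?_
    · simpa using hCC
    · gcongr
    · rw [zero_add]
      gcongr
    · rw [mul_one_div]
      gcongr

end Pool.Agent.Lib.MP_343fe0_pr
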