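import Pool.Agent.Lib.MP_343fe0_pr.PkgPte
import Pool.Agent.Lib.MP_343fe0_pr.LevOne

set_option autoImplicit false

/-! From one level to the next. -/

namespace Pool.Agent.Lib.MP_343fe0_pr

open Finset Filter

lemma levstep_pow {t u : ℝ} (ht : 1 ≤ t) (hu : 0 ≤ u) {i j k : ℕ} (h : i + k ≤ j) :
    u * t ^ i / t ^ j ≤ u / t ^ k := by
  have ht0 : 0 < t := by linarith
  rw [div_le_div_iff₀ (by positivity) (by positivity), mul_assoc, ← pow_add]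
  exact mul_le_mul_of_nonneg_left (pow_le_pow_right₀ ht h) hu

lemma levstep_div {t u v : ℝ} (ht : 0 < t) (h : u ≤ v) (k : ℕ) : u / t ^ k ≤ v / t ^ k := by
  gcongr

lemma levstep_ev (B : ℝ) : ∀ᶠ x : ℕ in atTop, B ≤ (x : ℝ) :=
  tendsto_natCast_atTop_atTop.eventually_ge_atTop B

lemma levstep_beta {t β : ℝ} (hβ : 0 < β) (h : 8 / β + 8 ≤ t) : t + β ≤ β * t ^ 10 / 4 := by
  have h3 : 0 < 8 / β := by positivity
  have h1 : t ^ 2 ≤ t ^ 10 := pow_le_pow_right₀ (by linarith) (by omega)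
  have h2 : 8 / β * β = 8 := by field_simp
  have h4 : 8 + 8 * β ≤ β * t := by nlinarith
  have h5 : β * t ^ 2 ≤ β * t ^ 10 := by gcongr
  nlinarith

lemma levstep_om {t C : ℝ} (ht : 0 < t) (hC : 1 ≤ C) (p s : ℕ) :
    C / t ^ (p + s) + C / t ^ p * (C / t ^ s) ≤ 2 * C ^ 2 / t ^ (p + s) := by
  have h1 : C ≤ C ^ 2 := by nlinarith
  have h2 := levstep_div ht h1 (p + s)
  have h3 : C / t ^ p * (C / t ^ s) = C ^ 2 / t ^ (p + s) := by rw [pow_add]; field_simp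
  have h4 : 2 * C ^ 2 / t ^ (p + s) = C ^ 2 / t ^ (p + s) + C ^ 2 / t ^ (p + s) := by ring
  linarith

lemma levstep_tv {t C A : ℝ} (ht : 1 ≤ t) (hC : 1 ≤ C) {e : ℕ}
    (h : (2 * A + 1) ^ 2 ≤ 9 * C ^ 2 * t ^ (2 * e)) (T z : ℕ) :
    (t ^ 10) ^ 2 * (2 * A + 1) ^ 2 / (t ^ 5) ^ T + 1 / t ^ (5 * T + z + 1) ≤
      10 * C ^ 2 * t ^ (2 * e + 20) / t ^ (5 * T) := by
  have ht0 : 0 < t := by linarith
  rw [← pow_mul t 5 T]
  have h1 : (t ^ 10) ^ 2 * (2 * A + 1) ^ 2 ≤ 9 * (C ^ 2 * t ^ (2 * e + 20)) := by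
    calc (t ^ 10) ^ 2 * (2 * A + 1) ^ 2 ≤ (t ^ 10) ^ 2 * (9 * C ^ 2 * t ^ (2 * e)) := by gcongr
      _ = _ := by ring
  have h2 := levstep_div ht0 h1 (5 * T)
  have h3 : 1 / t ^ (5 * T + z + 1) ≤ C ^ 2 * t ^ (2 * e + 20) / t ^ (5 * T) := by
    have h4 : 1 ≤ C ^ 2 * t ^ (2 * e + 20) :=
      one_le_mul_of_one_le_of_one_le (one_le_pow₀ hC) (one_le_pow₀ ht)
    gcongr
    omega
  have h5 : 10 * C ^ 2 * t ^ (2 * e + 20) / t ^ (5 * T) =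
      9 * (C ^ 2 * t ^ (2 * e + 20)) / t ^ (5 * T) + C ^ 2 * t ^ (2 * e + 20) / t ^ (5 * T) := by ring
  linarith

lemma levstep_size {t C A c a' : ℝ} (ht : 1 ≤ t) (hC : 1 ≤ C) (hA0 : 1 ≤ A) (hc0 : 0 < c)
    (hc1 : c ≤ 1) {e T : ℕ} (hA1 : t ^ e ≤ C * A) (hA2 : A ≤ C * t ^ e) (htc : 2 ^ T / c ≤ t)
    (ha1 : c * (2 * A + 1) ^ 2 * t ^ 10 ≤ a') (ha2 : a' < c * (2 * A + 1) ^ 2 * t ^ 10 + 1) :
    2 ^ T ≤ a' ∧ 1 ≤ a' ∧ a' ≤ 2 * c * (2 * A + 1) ^ 2 * t ^ 10 ∧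
      (2 * A + 1) ^ 2 ≤ 9 * C ^ 2 * t ^ (2 * e) ∧ a' ≤ 18 * C ^ 2 * t ^ (2 * e + 10) ∧
      2 * a' + 1 ≤ 37 * C ^ 2 * t ^ (2 * e + 10) ∧
      2 * ((2 * A + 1) * t ^ 10) ≤ 6 * C * t ^ (e + 10) ∧ t ^ (2 * e + 10) ≤ C ^ 2 / c * a' := by
  have ht0 : 0 < t := by linarith
  have h2T : (1 : ℝ) ≤ 2 ^ T := one_le_pow₀ (by norm_num)
  have hct : 2 ^ T ≤ c * (2 * A + 1) ^ 2 * t ^ 10 := by
    rw [div_le_iff₀ hc0] at htc
    have h1 : (1 : ℝ) ≤ (2 * A + 1) ^ 2 := one_le_pow₀ (by linarith)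
    calc (2 : ℝ) ^ T ≤ c * 1 * t ^ 1 := by linarith
      _ ≤ c * (2 * A + 1) ^ 2 * t ^ 10 := by gcongr; omega
  have ha3 : a' ≤ 2 * c * (2 * A + 1) ^ 2 * t ^ 10 := by linarith
  have h2A : 2 * A + 1 ≤ 3 * C * t ^ e := by linarith
  have h2A' : (2 * A + 1) ^ 2 ≤ 9 * C ^ 2 * t ^ (2 * e) := by
    calc (2 * A + 1) ^ 2 ≤ (3 * C * t ^ e) ^ 2 := by gcongr
      _ = _ := by ring
  have ha4 : a' ≤ 18 * C ^ 2 * t ^ (2 * e + 10) := by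
    calc a' ≤ 2 * c * (2 * A + 1) ^ 2 * t ^ 10 := ha3
      _ ≤ 2 * 1 * (9 * C ^ 2 * t ^ (2 * e)) * t ^ 10 := by gcongr
      _ = _ := by ring
  have h5 : 1 ≤ C ^ 2 * t ^ (2 * e + 10) :=
    one_le_mul_of_one_le_of_one_le (one_le_pow₀ hC) (one_le_pow₀ ht)
  refine ⟨by linarith, by linarith, ha3, h2A', ha4, by linarith, ?_, ?_⟩
  · calc 2 * ((2 * A + 1) * t ^ 10) ≤ 2 * ((3 * C * t ^ e) * t ^ 10) := by gcongr
      _ = _ := by ring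
  · calc t ^ (2 * e + 10) = (t ^ e) ^ 2 * t ^ 10 := by ring
      _ ≤ (C * (2 * A + 1)) ^ 2 * t ^ 10 := by
        gcongr
        refine hA1.trans ?_
        gcongr
        linarith
      _ = C ^ 2 / c * (c * (2 * A + 1) ^ 2 * t ^ 10) := by field_simp
      _ ≤ _ := by gcongr

lemma levstep_eps {t C K C' N ε : ℝ} (ht : 1 ≤ t) (hC : 1 ≤ C) (hK : 1 ≤ K)
    (hC' : 4000 * (K * C ^ 6) ≤ C') {e z : ℕ} (T : ℕ) (hN : N ≤ 222 * C ^ 3 * t ^ (3 * e + 20))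
    (hε0 : 0 ≤ ε) (hε : ε ≤ C / t ^ (z + 3 * e + 20)) :
    N * ε + K * (1 / t ^ (5 * T + z + 1) + (1 / t) ^ (z + 1)) ≤ C' / t ^ z := by
  have ht0 : 0 < t := by linarith
  have h1 : N * ε ≤ 222 * C ^ 4 / t ^ z := by
    calc _ ≤ (222 * C ^ 3 * t ^ (3 * e + 20)) * (C / t ^ (z + 3 * e + 20)) := by gcongr
      _ = 222 * C ^ 4 * t ^ (3 * e + 20) / t ^ (z + 3 * e + 20) := by ring
      _ ≤ _ := levstep_pow ht (by positivity) (by omega)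
  have h2 : 1 / t ^ (5 * T + z + 1) ≤ 1 / t ^ z := by gcongr; omega
  have h3 : (1 / t) ^ (z + 1) ≤ 1 / t ^ z := by
    rw [one_div_pow]; gcongr; omega
  have h4 : K * (1 / t ^ (5 * T + z + 1) + (1 / t) ^ (z + 1)) ≤ K * (1 / t ^ z + 1 / t ^ z) := by
    gcongr
  have h5 : 222 * C ^ 4 / t ^ z + K * (1 / t ^ z + 1 / t ^ z) = (222 * C ^ 4 + 2 * K) / t ^ z := by
    ring
  have h6 : (222 * C ^ 4 + 2 * K) / t ^ z ≤ C' / t ^ z := by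
    have h7 : C ^ 4 ≤ C ^ 6 := pow_le_pow_right₀ hC (by omega)
    have h8 : C ^ 6 ≤ K * C ^ 6 := le_mul_of_one_le_left (by positivity) hK
    have h9 : K ≤ K * C ^ 6 := le_mul_of_one_le_right (by linarith) (one_le_pow₀ hC)
    exact levstep_div ht0 (by linarith) z
  linarith

lemma levstep_bd {t C K C' A a' : ℝ} (ht : 1 ≤ t) (hC : 1 ≤ C) (hK : 1 ≤ K) (hA0 : 1 ≤ A)
    (hC' : 4000 * (K * C ^ 6) ≤ C') {T e q : ℕ} (hq : 1 ≤ q) (hT : 2 * q + 7 * e + 43 ≤ 5 * T)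
    (hA1 : t ^ e ≤ C * A) (ha1 : 1 ≤ a') (ha : a' ≤ 18 * C ^ 2 * t ^ (2 * e + 10)) :
    K * (2 * C ^ 2 / t ^ q / (1 / t) + a' ^ 2 * (10 * C ^ 2 * t ^ (2 * e + 20) / t ^ (5 * T))) ≤
      C' / t ^ (q - 1) ∧
    K * (2 * C ^ 2 / t ^ q / (1 / t * A * t ^ 5) +
      a' * (10 * C ^ 2 * t ^ (2 * e + 20) / t ^ (5 * T))) ≤ C' / t ^ (q + e + 4) ∧
    K * ((2 * C ^ 2 / t ^ q) ^ 2 / (1 / t * A * t ^ 5) +
      a' ^ 2 * (10 * C ^ 2 * t ^ (2 * e + 20) / t ^ (5 * T))) ≤ C' / t ^ (q - 1 + (q + e + 4)) ∧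
    K * (C / t ^ 2) ≤ C' / t ^ 2 := by
  have ht0 : 0 < t := by linarith
  have hC6 : ∀ i, i ≤ 6 → C ^ i ≤ C ^ 6 := fun i hi => pow_le_pow_right₀ hC hi
  have hKC : 0 ≤ K * C ^ 6 := by positivity
  have hW : ∀ j, j ≤ 2 * q + e + 3 →
      a' ^ 2 * (10 * C ^ 2 * t ^ (2 * e + 20) / t ^ (5 * T)) ≤ 3240 * C ^ 6 / t ^ j := by
    intro j hj
    calc _ ≤ (18 * C ^ 2 * t ^ (2 * e + 10)) ^ 2 *
          (10 * C ^ 2 * t ^ (2 * e + 20) / t ^ (5 * T)) := by gcongr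
      _ = 3240 * C ^ 6 * t ^ (6 * e + 40) / t ^ (5 * T) := by ring
      _ ≤ _ := levstep_pow ht (by positivity) (by omega)
  have hAinv : ∀ u : ℝ, 0 ≤ u → ∀ j, u / t ^ j / (1 / t * A * t ^ 5) ≤ u * C / t ^ (j + e + 4) := by
    intro u hu j
    have e1 : u / t ^ j / (1 / t * A * t ^ 5) = u / (t ^ (j + 4) * A) := by
      field_simp; ring
    rw [e1, div_le_div_iff₀ (by positivity) (by positivity)]
    calc u * t ^ (j + e + 4) = u * t ^ (j + 4) * t ^ e := by ring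
      _ ≤ u * t ^ (j + 4) * (C * A) := by gcongr
      _ = _ := by ring
  have hfin : ∀ (u : ℝ) (j : ℕ), u ≤ 4 * C ^ 6 →
      K * (u / t ^ j + 3240 * C ^ 6 / t ^ j) ≤ C' / t ^ j := by
    intro u j hu
    rw [← add_div, ← mul_div_assoc]
    refine levstep_div ht0 ?_ j
    have : K * u ≤ K * (4 * C ^ 6) := by gcongr
    linarith
  have hC60 : 0 ≤ C ^ 6 := by positivity
  refine ⟨?_, ?_, ?_, ?_⟩
  · refine le_trans ?_ (hfin (2 * C ^ 2) (q - 1) (by have := hC6 2 (by omega); linarith))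
    have h1 : 2 * C ^ 2 / t ^ q / (1 / t) ≤ 2 * C ^ 2 / t ^ (q - 1) := by
      have : 2 * C ^ 2 / t ^ q / (1 / t) = 2 * C ^ 2 * t ^ 1 / t ^ q := by field_simp
      rw [this]
      exact levstep_pow ht (by positivity) (by omega)
    have h2 := hW (q - 1) (by omega)
    gcongr
  · refine le_trans ?_ (hfin (2 * C ^ 2 * C) (q + e + 4) (by have := hC6 3 (by omega); linarith))
    have h1 := hAinv (2 * C ^ 2) (by positivity) q
    have h2 := hW (q + e + 4) (by omega)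
    have h3 : a' * (10 * C ^ 2 * t ^ (2 * e + 20) / t ^ (5 * T)) ≤
        a' ^ 2 * (10 * C ^ 2 * t ^ (2 * e + 20) / t ^ (5 * T)) := by
      gcongr
      nlinarith
    have h4 := h3.trans h2
    gcongr
  · refine le_trans ?_ (hfin (4 * C ^ 4 * C) (q - 1 + (q + e + 4))
      (by have := hC6 5 (by omega); linarith))
    have h1 := hAinv (4 * C ^ 4) (by positivity) (2 * q)
    have h2 := hW (q - 1 + (q + e + 4)) (by omega)
    have h3 : (2 * C ^ 2 / t ^ q) ^ 2 = 4 * C ^ 4 / t ^ (2 * q) := by ring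
    have h4 : 4 * C ^ 4 * C / t ^ (2 * q + e + 4) ≤ 4 * C ^ 4 * C / t ^ (q - 1 + (q + e + 4)) :=
      div_le_div_of_nonneg_left (by positivity) (by positivity) (pow_le_pow_right₀ ht (by omega))
    have h5 := h1.trans h4
    rw [h3]
    gcongr
  · rw [← mul_div_assoc]
    refine levstep_div ht0 ?_ 2
    have h1 := hC6 1 (by omega)
    rw [pow_one] at h1
    have h2 : K * C ≤ K * C ^ 6 := by gcongr
    linarith

lemma levstep_small {t C K : ℝ} (ht : 1 ≤ t) (hC : 1 ≤ C) (hK : 1 ≤ K) (h37 : 37 * C ^ 2 ≤ t)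
    (hKC : K * C ≤ t) (e i j : ℕ) :
    37 * C ^ 2 * t ^ (2 * e + 10) ≤ t ^ (2 * (e + 6)) ∧ K * (C / t ^ 2) * t ≤ 1 ∧
      K * (1 / t ^ (i + 1)) ≤ 1 ∧ K * (1 / t) ^ (j + 1) ≤ 1 := by
  have ht0 : 0 < t := by linarith
  have hKt : K ≤ t := le_trans (le_mul_of_one_le_right (by linarith) hC) hKC
  have htp2 : ∀ i, t ≤ t ^ (i + 1) := fun i => by
    simpa using pow_le_pow_right₀ ht (show 1 ≤ i + 1 by omega)
  refine ⟨?_, ?_, ?_, ?_⟩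
  · calc _ ≤ t * t ^ (2 * e + 10) := by gcongr
      _ = t ^ (2 * e + 11) := by ring
      _ ≤ _ := pow_le_pow_right₀ ht (by omega)
  · have : K * (C / t ^ 2) * t = K * C / t := by field_simp
    rw [this, div_le_one ht0]; exact hKC
  · rw [mul_one_div, div_le_one (by positivity)]
    exact hKt.trans (htp2 _)
  · rw [one_div, inv_pow, ← div_eq_mul_inv, div_le_one (by positivity)]
    exact hKt.trans (htp2 _)

lemma levstep_const {C K c : ℝ} (hC : 1 ≤ C) (hK : 1 ≤ K) (hc : 0 < c) :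
    1 ≤ C ^ 2 / c + 4000 * (K * C ^ 6) ∧ 18 * C ^ 2 ≤ C ^ 2 / c + 4000 * (K * C ^ 6) ∧
      C ^ 2 / c ≤ C ^ 2 / c + 4000 * (K * C ^ 6) ∧
      4000 * (K * C ^ 6) ≤ C ^ 2 / c + 4000 * (K * C ^ 6) := by
  have h1 : C ^ 2 ≤ C ^ 6 := pow_le_pow_right₀ hC (by omega)
  have h2 : 1 ≤ C ^ 2 := one_le_pow₀ hC
  have h3 : C ^ 6 ≤ K * C ^ 6 := le_mul_of_one_le_left (by positivity) hK
  have h4 : 0 ≤ C ^ 2 / c := by positivity
  refine ⟨?_, ?_, ?_, ?_⟩ <;> linarith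

/-- `pkg_pte` with `m' = 2 ^ T`, `q0 = z + 1`, `hB = e + 6`, `C0 = C`, `M = x ^ 10`, `b = x`, `θ = 1 / x`, `Y = x`,
`a' = ⌈c (2a+1)^2 M⌉₊`, `ΩR = 2 C ^ 2 / x ^ (p+s)`, `bad = 1 / x ^ (5 T + z + 1)` (`badB_small`),
`TV = 10 C ^ 2 x ^ (2e + 20) / x ^ (5 T)`; `blk_length_le`, `blk_length_eq`, `blk_dif`. -/
theorem lev_step (T e lam p s z : ℕ) (eq : Prop) (hT : 1 ≤ T) (hps : 1 ≤ p + s)
    (hTl : 2 * (p + s) + 7 * e + 43 ≤ 5 * T) (h : Lev (2 ^ T) e lam p s (z + 3 * e + 20) eq) :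
    Lev (2 ^ T) (2 * e + 10) (lam + e + 10) (p + s - 1) (p + s + e + 4) z True := by
  obtain ⟨C, β, hC, hβ, hev⟩ := h
  obtain ⟨c, β', K, hc0, hc1, hβ', hK, M0, hpk⟩ := pkg_pte T (2 ^ T) (z + 1) (e + 6) hT
    Nat.one_le_two_pow (by omega) (by omega) β C hβ hC
  obtain ⟨hC1, hC2, hC3, hC4⟩ := levstep_const hC hK hc0
  generalize C ^ 2 / c + 4000 * (K * C ^ 6) = C' at hC1 hC2 hC3 hC4
  refine ⟨C', β', hC1, hβ', ?_⟩
  filter_upwards [hev, badB_small β (222 * C ^ 3) hβ (3 * e + 20) (5 * T + z + 1),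
    levstep_ev 1, levstep_ev M0, levstep_ev (2 ^ T / c), levstep_ev (8 / β + 8),
    levstep_ev (37 * C ^ 2), levstep_ev (K * C)] with x hX hbad ht1 htM htc htβ ht37 htK
  obtain ⟨X, hXβ, hA1, hA2, hU, hV, hD, -, hε, hB⟩ := hX
  clear hev
  have hx1 : 1 ≤ x := Nat.one_le_cast.mp ht1
  have hA0 : (1 : ℝ) ≤ X.a := Nat.one_le_cast.mpr X.a_pos
  have hM : ((x ^ 10 : ℕ) : ℝ) = (x : ℝ) ^ 10 := Nat.cast_pow _ _
  have hM0 : M0 ≤ x ^ 10 := (Nat.cast_le.mp htM).trans (Nat.le_self_pow (by omega) x)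
  have hM1 : 1 ≤ x ^ 10 := Nat.one_le_pow _ _ hx1
  have hLL0 : ((LL X.a (x ^ 10) : ℕ) : ℝ) = 2 * ((2 * (X.a : ℝ) + 1) * (x : ℝ) ^ 10) := by
    unfold LL HH; push_cast; rfl
  have hpk' := hpk X (x ^ 10)
  clear hpk
  have hl1 := fun F => X.blk_length_le (x ^ 10) F (max X.U.length X.V.length) (le_max_left _ _)
    (le_max_right _ _)
  have hl2 := X.blk_dif hM1 (iff_of_true (zero_mem_tmF T) (zero_not_mem_tmF' T)) hD
  have hl3 := X.blk_length_eq hM1 (tmF_subset T) (tmF'_subset T) (card_tmF T hT)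
  generalize x ^ 10 = M at hbad hM hM0 hM1 hLL0 hpk' hl1 hl2 hl3
  generalize (x : ℝ) = t at *
  have ht0 : 0 < t := by linarith
  have hC0 : 0 < C := by linarith
  have hsq : √(M : ℝ) = t ^ 5 := by
    rw [hM, show t ^ 10 = (t ^ 5) ^ 2 by ring, Real.sqrt_sq (by positivity)]
  obtain ⟨a', ha1, ha2⟩ : ∃ a' : ℕ, c * (2 * (X.a : ℝ) + 1) ^ 2 * t ^ 10 ≤ a' ∧
      (a' : ℝ) < c * (2 * (X.a : ℝ) + 1) ^ 2 * t ^ 10 + 1 :=
    ⟨_, Nat.le_ceil _, Nat.ceil_lt_add_one (by positivity)⟩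
  obtain ⟨hs1, hs2, hs3, hs4, hs5, hs6, hs7, hs8⟩ :=
    levstep_size ht1 hC hA0 hc0 hc1 hA1 hA2 htc ha1 ha2
  obtain ⟨hm1, hm2, hm3, hm4⟩ := levstep_small ht1 hC hK ht37 htK e (5 * T + z) z
  obtain ⟨hb1, hb2, hb3, hb4⟩ := levstep_bd ht1 hC hK hA0 hC4 hps hTl hA1 hs2 hs5
  rw [← hLL0] at hs7
  have hN : (((2 * a' + 1) * LL X.a M : ℕ) : ℝ) ≤ 222 * C ^ 3 * t ^ (3 * e + 20) := by
    rw [Nat.cast_mul]
    calc (((2 * a' + 1 : ℕ) : ℝ)) * ((LL X.a M : ℕ) : ℝ)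
        ≤ (37 * C ^ 2 * t ^ (2 * e + 10)) * (6 * C * t ^ (e + 10)) :=
          mul_le_mul (by push_cast; exact hs6) hs7 (Nat.cast_nonneg _) (by positivity)
      _ = _ := by ring
  have hdiv : ∀ i, C / t ^ i ≤ C := fun i => div_le_self hC0.le (one_le_pow₀ ht1)
  obtain ⟨X', hXa, hXb, hXU, hXV, hXe, hXB⟩ := hpk' a' (C / t ^ p) (C / t ^ s)
    (C / t ^ (p + s)) (C / t ^ 2) (2 * C ^ 2 / t ^ (p + s)) t (1 / t) t (1 / t ^ (5 * T + z + 1))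
    (10 * C ^ 2 * t ^ (2 * e + 20) / t ^ (5 * T))
    hXβ hB (hdiv _) (hdiv _) (hdiv _) (levstep_om ht0 hC p s) hM0
    (by rw [hM]; exact ha1) (by rw [hM]; exact hs3) (by exact_mod_cast hs1) ht0.le
    (by rw [hM]; exact levstep_beta hβ htβ) (by positivity) (by rw [div_le_one ht0]; exact ht1) ht1
    (hs6.trans hm1) hm2 (hbad _ hN) hm3 hm4
    (by rw [hsq, hM]; exact levstep_tv ht1 hC hs4 T z)
  clear hpk'
  have hlen : ∀ F, ((X.blk M F).length : ℝ) ≤ C' * t ^ (lam + e + 10) := by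
    intro F
    have h2 : ((max X.U.length X.V.length : ℕ) : ℝ) ≤ C * t ^ lam := by
      rw [Nat.cast_max]; exact max_le hU hV
    have h3 : ((X.blk M F).length : ℝ) ≤
        ((LL X.a M : ℕ) : ℝ) * ((max X.U.length X.V.length : ℕ) : ℝ) := by exact_mod_cast hl1 F
    have h4 : 0 ≤ C ^ 2 := by positivity
    calc _ ≤ _ := h3
      _ ≤ (6 * C * t ^ (e + 10)) * (C * t ^ lam) :=
          mul_le_mul hs7 h2 (Nat.cast_nonneg _) (by positivity)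
      _ = 6 * C ^ 2 * t ^ (lam + e + 10) := by ring
      _ ≤ _ := mul_le_mul_of_nonneg_right (by linarith only [h4, hC2]) (by positivity)
  rw [hsq] at hXB
  refine ⟨X', hXb, ?_, ?_, by rw [hXU]; exact hlen _, by rw [hXV]; exact hlen _,
    by rw [hXU, hXV]; exact hl2, fun _ => by rw [hXU, hXV]; exact hl3,
    hXe.trans (levstep_eps ht1 hC hK hC4 T hN X.ε_nonneg hε), hXB.mono hb1 hb2 hb3 hb4⟩
  · rw [hXa]
    exact hs8.trans (mul_le_mul_of_nonneg_right hC3 (Nat.cast_nonneg _))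
  · rw [hXa]
    exact hs5.trans (mul_le_mul_of_nonneg_right hC2 (by positivity))

end Pool.Agent.Lib.MP_343fe0_pr
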