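import Pool.Agent.Lib.MP_343fe0_pr.Binom
import Pool.Agent.Lib.MP_343fe0_pr.CoreEq

set_option autoImplicit false

/-! Prouhet-Thue-Morse cancellation. -/

namespace Pool.Agent.Lib.MP_343fe0_pr

open Finset

lemma sgn_cases (T g : ℕ) : sgn T g = 1 ∨ sgn T g = -1 := by
  induction T generalizing g with
  | zero => left; rfl
  | succ T ih =>
    unfold sgn
    split_ifs
    · exact ih g
    · rcases ih (g - 2 ^ T) with h | h <;> simp [h]

lemma tmF_subset (T : ℕ) : tmF T ⊆ range (2 ^ T) := filter_subset _ _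
lemma tmF'_subset (T : ℕ) : tmF' T ⊆ range (2 ^ T) := filter_subset _ _

lemma pte_sgn_zero (T : ℕ) : sgn T 0 = 1 := by
  induction T with
  | zero => rfl
  | succ T ih => unfold sgn; rw [if_pos (by positivity)]; exact ih

lemma zero_mem_tmF (T : ℕ) : 0 ∈ tmF T := by
  simp [tmF, pte_sgn_zero]

lemma zero_not_mem_tmF' (T : ℕ) : 0 ∉ tmF' T := by
  simp [tmF', pte_sgn_zero]

lemma ind_tm (T g : ℕ) (hg : g < 2 ^ T) :
    ind (g ∈ tmF' T) - ind (g ∈ tmF T) = -(sgn T g : ℝ) := by
  rcases sgn_cases T g with h | h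
  · rw [ind_false (by simp [tmF', h]), ind_true (by simp [tmF, h, hg]), h]; simp
  · rw [ind_true (by simp [tmF', h, hg]), ind_false (by simp [tmF, h]), h]; simp

lemma pte_sum_succ (T : ℕ) (h : ℕ → ℝ) :
    ∑ g ∈ range (2 ^ (T + 1)), (sgn (T + 1) g : ℝ) * h g =
      -∑ g ∈ range (2 ^ T), (sgn T g : ℝ) * (h (2 ^ T + g) - h g) := by
  rw [pow_succ, mul_two, sum_range_add, ← sum_neg_distrib, ← sum_add_distrib]
  refine sum_congr rfl fun g hg => ?_
  have h1 : sgn (T + 1) g = sgn T g := by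
    rw [sgn, if_pos (mem_range.1 hg)]
  have h2 : sgn (T + 1) (2 ^ T + g) = -sgn T g := by
    rw [sgn, if_neg (by omega), Nat.add_sub_cancel_left]
  rw [h1, h2]; push_cast; ring

lemma card_tmF (T : ℕ) (hT : 1 ≤ T) : (tmF T).card = (tmF' T).card := by
  obtain ⟨T, rfl⟩ : ∃ k, T = k + 1 := ⟨T - 1, by omega⟩
  have h0 := pte_sum_succ T fun _ => 1
  simp only [sub_self, mul_zero, sum_const_zero, neg_zero, mul_one] at h0
  have h1 : ∑ g ∈ range (2 ^ (T + 1)), (ind (g ∈ tmF' (T + 1)) - ind (g ∈ tmF (T + 1))) = 0 := by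
    rw [sum_congr rfl fun g hg => ind_tm (T + 1) g (mem_range.1 hg), sum_neg_distrib, h0, neg_zero]
  have h2 : ∀ s : Finset ℕ, s ⊆ range (2 ^ (T + 1)) →
      ∑ g ∈ range (2 ^ (T + 1)), ind (g ∈ s) = (s.card : ℝ) := by
    intro s hs
    rw [← sum_subset hs fun g _ hg => ind_false hg, sum_congr rfl fun g hg => ind_true hg]
    simp
  rw [sum_sub_distrib, h2 _ (tmF'_subset _), h2 _ (tmF_subset _)] at h1
  exact_mod_cast (sub_eq_zero.1 h1).symm

/-- The `i`-th difference of `f` is bounded by `B * d ^ i` for `i ≤ k`. -/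
def PteSm (d : ℝ) : ℕ → ℝ → (ℤ → ℝ) → Prop
  | 0, B, f => ∀ y, |f y| ≤ B
  | k + 1, B, f => (∀ y, |f y| ≤ B) ∧ PteSm d k (B * d) fun y => f (y + 1) - f y

lemma PteSm.bound {d B : ℝ} {k : ℕ} {f : ℤ → ℝ} (h : PteSm d k B f) (y : ℤ) : |f y| ≤ B := by
  cases k with
  | zero => exact h y
  | succ k => exact h.1 y

lemma PteSm.pred {d B : ℝ} {k : ℕ} {f : ℤ → ℝ} (h : PteSm d (k + 1) B f) : PteSm d k B f := by
  induction k generalizing B f with
  | zero => exact h.1
  | succ k ih => exact ⟨h.1, ih h.2⟩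

lemma PteSm.congr {d B B' : ℝ} {k : ℕ} {f g : ℤ → ℝ} (h : PteSm d k B f) (hB : B = B')
    (hf : ∀ y, f y = g y) : PteSm d k B' g := by
  obtain rfl : f = g := funext hf
  exact hB ▸ h

lemma PteSm.mono {d B B' : ℝ} {k : ℕ} {f : ℤ → ℝ} (h : PteSm d k B f) (hd : 0 ≤ d)
    (hB : B ≤ B') : PteSm d k B' f := by
  induction k generalizing B B' f with
  | zero => exact fun y => (h y).trans hB
  | succ k ih =>
    exact ⟨fun y => (h.1 y).trans hB, ih h.2 (mul_le_mul_of_nonneg_right hB hd)⟩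

lemma PteSm.shift {d B : ℝ} {k : ℕ} {f : ℤ → ℝ} (h : PteSm d k B f) (c : ℤ) :
    PteSm d k B fun y => f (y + c) := by
  induction k generalizing B f with
  | zero => exact fun y => h _
  | succ k ih =>
    exact ⟨fun y => h.1 _, (ih h.2).congr rfl fun y => by rw [add_right_comm y c 1]⟩

lemma PteSm.add {d B B' : ℝ} {k : ℕ} {f g : ℤ → ℝ} (h : PteSm d k B f) (h' : PteSm d k B' g) :
    PteSm d k (B + B') fun y => f y + g y := by
  induction k generalizing B B' f g with
  | zero => exact fun y => (abs_add_le _ _).trans (add_le_add (h y) (h' y))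
  | succ k ih =>
    exact ⟨fun y => (abs_add_le _ _).trans (add_le_add (h.1 y) (h'.1 y)),
      (ih h.2 h'.2).congr (by ring) fun y => by ring⟩

lemma PteSm.smul {d B : ℝ} {k : ℕ} {f : ℤ → ℝ} (h : PteSm d k B f) (c : ℝ) :
    PteSm d k (|c| * B) fun y => c * f y := by
  induction k generalizing B f with
  | zero =>
    exact fun y => by rw [abs_mul]; exact mul_le_mul_of_nonneg_left (h y) (abs_nonneg c)
  | succ k ih =>
    exact ⟨fun y => by rw [abs_mul]; exact mul_le_mul_of_nonneg_left (h.1 y) (abs_nonneg c),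
      (ih h.2).congr (by ring) fun y => by ring⟩

lemma pteSm_zero (d : ℝ) (k : ℕ) : PteSm d k 0 fun _ => 0 := by
  induction k with
  | zero => exact fun y => by simp
  | succ k ih => exact ⟨fun y => by simp, ih.congr (by ring) fun y => by ring⟩

lemma PteSm.reflect {d B : ℝ} {k : ℕ} {f : ℤ → ℝ} (h : PteSm d k B f) (J : ℤ) :
    PteSm d k B fun y => f (J - y) := by
  induction k generalizing B f J with
  | zero => exact fun y => h _
  | succ k ih =>
    refine ⟨fun y => h.1 _, ((ih h.2 (J - 1)).smul (-1)).congr (by simp) fun y => ?_⟩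
    rw [show J - 1 - y + 1 = J - y by ring, show J - 1 - y = J - (y + 1) by ring]
    ring

lemma PteSm.mul {d B B' : ℝ} {k : ℕ} {f g : ℤ → ℝ} (h : PteSm d k B f) (h' : PteSm d k B' g) :
    PteSm (2 * d) k (B * B') fun y => f y * g y := by
  have hb : ∀ {k : ℕ} {B B' : ℝ} {f g : ℤ → ℝ}, PteSm d k B f → PteSm d k B' g →
      ∀ y, |f y * g y| ≤ B * B' := fun h h' y => by
    rw [abs_mul]
    exact mul_le_mul (h.bound y) (h'.bound y) (abs_nonneg _) ((abs_nonneg _).trans (h.bound y))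
  induction k generalizing B B' f g with
  | zero => exact hb h h'
  | succ k ih =>
    exact ⟨hb h h', ((ih h.2 (h'.pred.shift 1)).add (ih h.pred h'.2)).congr (by ring)
      fun y => by ring⟩

lemma PteSm.step {d B : ℝ} {k : ℕ} {f : ℤ → ℝ} (h : PteSm d (k + 1) B f) (m : ℕ) :
    PteSm d k (m * (B * d)) fun y => f (y + m) - f y := by
  induction m with
  | zero => exact (pteSm_zero d k).congr (by simp) fun y => by simp
  | succ m ih =>
    refine (ih.add (h.2.shift m)).congr (by push_cast; ring) fun y => ?_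
    push_cast
    rw [add_assoc]; ring

lemma PteSm.sum {d B : ℝ} {k : ℕ} {f : ℤ → ℝ} (h : PteSm d k B f) (s : Finset ℕ) (w : ℕ → ℝ)
    (c : ℕ → ℤ) : PteSm d k ((∑ i ∈ s, |w i|) * B) fun y => ∑ i ∈ s, w i * f (y + c i) := by
  induction s using Finset.induction_on with
  | empty => exact (pteSm_zero d k).congr (by simp) fun y => by simp
  | insert a s ha ih =>
    exact (((h.shift (c a)).smul (w a)).add ih).congr (by rw [sum_insert ha]; ring)
      fun y => by rw [sum_insert ha]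

lemma pte_tm (T : ℕ) : ∃ c : ℝ, 0 < c ∧ ∀ (d B : ℝ) (h : ℤ → ℝ) (y : ℤ), PteSm d T B h →
    |∑ g ∈ range (2 ^ T), (sgn T g : ℝ) * h (y + g)| ≤ c * B * d ^ T := by
  induction T with
  | zero =>
    refine ⟨1, one_pos, fun d B h y hh => ?_⟩
    simpa [sgn] using hh y
  | succ T ih =>
    obtain ⟨c, hc, H⟩ := ih
    refine ⟨c * 2 ^ T, by positivity, fun d B h y hh => ?_⟩
    rw [pte_sum_succ T fun g => h (y + g), abs_neg]
    have := H d _ _ y (hh.step (2 ^ T))
    refine le_of_eq_of_le ?_ (this.trans (le_of_eq ?_))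
    · congr 1
      refine sum_congr rfl fun g _ => ?_
      congr 3
      push_cast; ring
    · push_cast; ring

lemma pte_bin (m k : ℕ) : ∀ n, k * m ≤ n → PteSm (3 / √((m : ℝ) + 1)) k 1 (bin (1 / 2) n) := by
  have h1 : ∀ (n : ℕ) (y : ℤ), |bin (1 / 2) n y| ≤ 1 := fun n y => by
    rw [abs_of_nonneg (bin_nonneg (by norm_num) (by norm_num) n y)]
    simpa using bin_sum_le (ϱ := 1 / 2) (by norm_num) (by norm_num) n {y}
  induction k with
  | zero => exact fun n _ => h1 n
  | succ k ih =>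
    intro n hn
    obtain ⟨n', rfl⟩ : ∃ n', n = m + n' := ⟨n - m, by rw [add_mul] at hn; omega⟩
    have hn' : k * m ≤ n' := by rw [add_mul] at hn; omega
    refine ⟨h1 _, ?_⟩
    have hs := (ih n' hn').sum (range (m + 2))
      (fun i => bin (1 / 2) m i - bin (1 / 2) m ((i : ℤ) - 1)) fun i => 1 - (i : ℤ)
    refine (hs.mono (by positivity) ?_).congr rfl fun y => ?_
    · rw [mul_one, one_mul]
      have := bin_tv (ϱ := 1 / 2) (by norm_num) (by norm_num) m
        ((range (m + 2)).image fun i : ℕ => (i : ℤ))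
      rwa [sum_image fun a _ b _ hab => by exact_mod_cast hab] at this
    · simp only [sub_mul, sum_sub_distrib]
      rw [bin_conv, bin_conv]
      congr 1
      · rw [sum_range_succ, bin_gt _ m (by push_cast; omega), zero_mul, add_zero]
        refine sum_congr rfl fun i _ => ?_
        congr 2; ring
      · rw [sum_range_succ', bin_neg _ m (by norm_num), zero_mul, add_zero]
        refine sum_congr rfl fun i _ => ?_
        congr 2 <;> push_cast <;> ring

/-- `∑ sgn T g h (y+g)` is `∏ i < T, (1 - shift ^ (2 ^ i))` applied to `h`, so it is bounded by a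
constant times the supremum of the `T`-th difference of `h y = f y * f' (J - y)`. -/
theorem pte (T : ℕ) : ∃ C : ℝ, 0 < C ∧ ∀ (n0 n1 n2 : ℕ) (y J : ℤ), n0 ≤ n1 → n0 ≤ n2 →
    |∑ g ∈ range (2 ^ T), (sgn T g : ℝ) * (bin (1 / 2) n1 (y + g) * bin (1 / 2) n2 (J - (y + g)))| ≤
      C / √((n0 : ℝ) + 1) ^ T := by
  obtain ⟨c, hc, H⟩ := pte_tm T
  refine ⟨c * (6 * √((T : ℝ) + 1)) ^ T, by positivity, fun n0 n1 n2 y J h1 h2 => ?_⟩
  set m := n0 / (T + 1) with hm
  have hm1 : T * m ≤ n0 := by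
    have := Nat.mul_div_le n0 (T + 1)
    rw [← hm, add_mul] at this; omega
  have hm2 : n0 + 1 ≤ (T + 1) * (m + 1) := Nat.lt_mul_div_succ n0 (Nat.succ_pos T)
  have hs := (pte_bin m T n1 (hm1.trans h1)).mul ((pte_bin m T n2 (hm1.trans h2)).reflect J)
  refine (H _ _ _ y hs).trans ?_
  rw [mul_one, mul_one, mul_div_assoc, ← div_pow]
  refine mul_le_mul_of_nonneg_left (pow_le_pow_left₀ (by positivity) ?_ T) hc.le
  have hq : √((n0 : ℝ) + 1) ≤ √((T : ℝ) + 1) * √((m : ℝ) + 1) := by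
    rw [← Real.sqrt_mul (by positivity)]
    exact Real.sqrt_le_sqrt (by exact_mod_cast hm2)
  rw [← mul_div_assoc, div_le_div_iff₀ (by positivity) (by positivity)]
  nlinarith [hq]

end Pool.Agent.Lib.MP_343fe0_pr
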