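import Pool.Agent.Lib.MP_343fe0_pr.Comp
import Pool.Agent.Lib.MP_343fe0_pr.Factor
import Pool.Agent.Lib.MP_343fe0_pr.Good
import Pool.Agent.Lib.MP_343fe0_pr.Pte

set_option autoImplicit false

/-! The linear term is negligible. -/

namespace Pool.Agent.Lib.MP_343fe0_pr

open Finset

lemma lin_base_split {a : ℕ} (c : ℕ → Ctx a) (r k : ℕ) :
    base c (r + 1 + k) = base c r + stp (c r) ((c r).2.getD false) + base (sh (r + 1) c) k := by
  unfold base
  rw [Finset.sum_range_add, Finset.sum_range_succ]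
  rfl

lemma lin_sh_splice {Θ : Type} (r : ℕ) (v w : ℕ → Θ) (θ : Θ) :
    sh (r + 1) (splice r v (cns θ w)) = w := by
  rw [← sh_sh 1 r, sh_splice, sh_one_cns]

lemma lin_splice_at {Θ : Type} (r : ℕ) (v w : ℕ → Θ) (θ : Θ) :
    splice r v (cns θ w) r = θ := by
  have h := splice_add r 0 v (cns θ w)
  simpa [cns] using h

lemma lin_pos_splice {a : ℕ} (s r : ℕ) (c : ℕ → Ctx a) (v w : ℕ → Bool) :
    pos s c (splice r v w) r = pos s c v r :=
  pos_congr s (fun _ _ => rfl) (fun _ hi => splice_lt v w hi)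

lemma lin_pos_tail {a : ℕ} (s r k : ℕ) (c : ℕ → Ctx a) (v w : ℕ → Bool) (θ : Bool) :
    pos s c (splice r v (cns θ w)) (r + 1 + k) =
      pos (pos s c v r + stp (c r) θ) (sh (r + 1) c) w k := by
  rw [pos_add, lin_sh_splice, pos_succ, lin_pos_splice, lin_splice_at]

lemma lin_End_tail {a : ℕ} (s E r k : ℕ) (c : ℕ → Ctx a) (v w : ℕ → Bool) (θ : Bool) (ℓ : Lab a) :
    End s E c (splice r v (cns θ w)) (r + 1 + (k + 1)) ℓ ↔
      End (pos s c v r + stp (c r) θ) E (sh (r + 1) c) w (k + 1) ℓ := by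
  unfold End
  have h1 : r + 1 + (k + 1) - 1 = r + 1 + k := by omega
  have h2 : k + 1 - 1 = k := by omega
  have h3 : splice r v (cns θ w) (r + 1 + k) = w k := by
    have h := congrFun (lin_sh_splice r v w θ) k
    exact h
  rw [h1, h2, lin_pos_tail, lin_pos_tail, h3]

lemma lin_EX_split {Θ : Type} [Fintype Θ] [Inhabited Θ] (π : ℕ → Θ → ℝ) (r n : ℕ)
    (F : (ℕ → Θ) → ℝ) :
    EX π (r + 1 + n) F = EX π r fun v => ∑ θ, π r θ *
      EX (sh 1 (sh r π)) n fun w => F (splice r v (cns θ w)) := by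
  have hR : r + 1 + n = r + (n + 1) := by omega
  rw [hR, EX_add]
  congr 1
  funext v
  rw [EX_succ]
  rfl

/-- Splitting a pinned path at step `r`: binomial law before (`EX_walk`), the bit of step `r`, pinned path after (`EX_End`). -/
lemma QX_split {a : ℕ} (s E R r : ℕ) (hr : r + 1 < R) (c : ℕ → Ctx a) (ℓ : Lab a)
    (Ψ : Bool → ℕ → ℝ) :
    QX c R (fun ξ => ind (End s E c ξ R ℓ) * Ψ (ξ r) (pos s c ξ r)) =
      ∑ ξ0, pr (1 / 2) (c r) ξ0 * (ind (ℓ.1.val < stp (c (R - 1)) ℓ.2) * pr (1 / 2) (c (R - 1)) ℓ.2) *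
        ∑ j ∈ range (coins c 0 r + 1), bin (1 / 2) (coins c 0 r) j *
          bin (1 / 2) (coins c (r + 1) (R - 1))
            (jj s E c R ℓ + stp (c r) ((c r).2.getD false) - stp (c r) ξ0 - j) *
          Ψ ξ0 (s + base c r + j) := by
  obtain ⟨k, rfl⟩ : ∃ k, R = r + 1 + (k + 1) := ⟨R - r - 2, by omega⟩
  have h1 : r + 1 + (k + 1) - 1 = r + 1 + k := by omega
  set A : ℝ := ind (ℓ.1.val < stp (c (r + 1 + k)) ℓ.2) * pr (1 / 2) (c (r + 1 + k)) ℓ.2 with hA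
  set G : Bool → ℕ → ℝ := fun θ p => bin (1 / 2) (coins c (r + 1) (r + 1 + k))
    (jj (p + stp (c r) θ) E (sh (r + 1) c) (k + 1) ℓ) * Ψ θ p with hG
  have key : ∀ (v : ℕ → Bool) (θ : Bool),
      EX (sh 1 (sh r fun i => pr (1 / 2) (c i))) (k + 1) (fun w =>
        ind (End s E c (splice r v (cns θ w)) (r + 1 + (k + 1)) ℓ) *
          Ψ (splice r v (cns θ w) r) (pos s c (splice r v (cns θ w)) r)) =
        A * G θ (pos s c v r) := by
    intro v θ
    have e1 : (sh 1 (sh r fun i => pr (1 / 2 : ℝ) (c i))) = fun i => pr (1 / 2) (sh (r + 1) c i) := by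
      rw [sh_sh]; rfl
    have e2 : (fun w : ℕ → Bool => ind (End s E c (splice r v (cns θ w)) (r + 1 + (k + 1)) ℓ) *
          Ψ (splice r v (cns θ w) r) (pos s c (splice r v (cns θ w)) r)) =
        fun w => ind (End (pos s c v r + stp (c r) θ) E (sh (r + 1) c) w (k + 1) ℓ) *
          Ψ θ (pos s c v r) := by
      funext w
      rw [ind_congr (lin_End_tail s E r k c v w θ ℓ), lin_splice_at, lin_pos_splice]
    rw [e1, e2, EX_mul_right, EX_End]
    have h2 : k + 1 - 1 = k := by omega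
    have e3 : sh (r + 1) c k = c (r + 1 + k) := rfl
    rw [h2, e3, coins_sh, ind_congr (and_iff_right (by omega : 1 ≤ k + 1))]
    simp only [hA, hG]
    ring
  unfold QX
  rw [h1, lin_EX_split]
  simp only [key]
  rw [EX_sum]
  refine Finset.sum_congr rfl fun θ _ => ?_
  have e4 : (fun v : ℕ → Bool => pr (1 / 2 : ℝ) (c r) θ * (A * G θ (pos s c v r))) =
      fun v => (pr (1 / 2) (c r) θ * A) * G θ (pos s c v r) := by
    funext v
    ring
  rw [e4, EX_mul_left, EX_walk (1 / 2) c r s (G θ)]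
  congr 1
  refine Finset.sum_congr rfl fun j _ => ?_
  simp only [hG]
  have e5 : jj (s + base c r + j + stp (c r) θ) E (sh (r + 1) c) (k + 1) ℓ =
      jj s E c (r + 1 + (k + 1)) ℓ + stp (c r) ((c r).2.getD false) - stp (c r) θ - j := by
    unfold jj
    have h2 : k + 1 - 1 = k := by omega
    have e3 : sh (r + 1) c k = c (r + 1 + k) := rfl
    rw [h1, h2, e3, lin_base_split]
    push_cast
    ring
  rw [e5]
  ring

lemma lin_sgn_sum (T : ℕ) (hT : 1 ≤ T) : ∑ g ∈ range (2 ^ T), (sgn T g : ℝ) = 0 := by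
  obtain ⟨T, rfl⟩ : ∃ k, T = k + 1 := ⟨T - 1, by omega⟩
  have h2 : 2 ^ (T + 1) = 2 ^ T + 2 ^ T := by rw [pow_succ]; omega
  rw [h2, Finset.sum_range_add]
  have e1 : ∑ g ∈ range (2 ^ T), (sgn (T + 1) g : ℝ) = ∑ g ∈ range (2 ^ T), (sgn T g : ℝ) := by
    refine Finset.sum_congr rfl fun g hg => ?_
    have hg' := Finset.mem_range.1 hg
    simp only [sgn, if_pos hg']
  have e2 : ∑ g ∈ range (2 ^ T), (sgn (T + 1) (2 ^ T + g) : ℝ) =
      -∑ g ∈ range (2 ^ T), (sgn T g : ℝ) := by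
    rw [← Finset.sum_neg_distrib]
    refine Finset.sum_congr rfl fun g _ => ?_
    have hg' : ¬ (2 ^ T + g < 2 ^ T) := by omega
    simp only [sgn, if_neg hg', Nat.add_sub_cancel_left]
    push_cast
    ring
  rw [e1, e2]
  ring

lemma lin_sgn_abs (T g : ℕ) : |(sgn T g : ℝ)| = 1 := by
  rcases sgn_cases T g with h | h <;> rw [h] <;> simp

lemma lin_pick (ϱ : ℝ) (n : ℕ) (f : ℤ → ℝ) (z : ℤ) :
    ∑ j ∈ range (n + 1), bin ϱ n j * f j * ind (z = j) = bin ϱ n z * f z := by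
  by_cases h0 : z < 0
  · rw [bin_neg ϱ n h0, zero_mul]
    refine Finset.sum_eq_zero fun j _ => ?_
    rw [ind_false (by omega), mul_zero]
  by_cases h1 : (n : ℤ) < z
  · rw [bin_gt ϱ n h1, zero_mul]
    refine Finset.sum_eq_zero fun j hj => ?_
    have := Finset.mem_range.1 hj
    rw [ind_false (by omega), mul_zero]
  obtain ⟨i, rfl⟩ : ∃ i : ℕ, z = i := ⟨z.toNat, by omega⟩
  rw [Finset.sum_eq_single i]
  · rw [ind_true rfl, mul_one]
  · intro j _ hj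
    rw [ind_false (by omega), mul_zero]
  · intro hi
    exact absurd (Finset.mem_range.2 (by omega)) hi

lemma lin_pat (u : ℤ) (k : ℕ) (f : Finset ℕ → ℝ) (hf : f ∅ = 0) :
    f (pat {0} u k) = ∑ v ∈ range k, ind (u = v) * f {v} := by
  by_cases h : 0 ≤ u ∧ u < k
  · obtain ⟨i, rfl⟩ : ∃ i : ℕ, u = i := ⟨u.toNat, by omega⟩
    have hi : i < k := by omega
    have e : pat {0} (i : ℤ) k = {i} := by
      ext j
      simp only [pat, Finset.mem_filter, Finset.mem_range, Finset.mem_singleton, exists_eq_left]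
      omega
    rw [e, Finset.sum_eq_single i]
    · rw [ind_true rfl, one_mul]
    · intro j _ hj
      rw [ind_false (by omega), zero_mul]
    · intro hi'
      exact absurd (Finset.mem_range.2 hi) hi'
  · rw [pat_eq_empty 1 {0} (by simp) u k (by omega), hf]
    symm
    refine Finset.sum_eq_zero fun j hj => ?_
    have := Finset.mem_range.1 hj
    rw [ind_false (by omega), zero_mul]

/-- The inner sum over the position and the Thue-Morse signs. -/
lemma lin_inner (T : ℕ) {C : ℝ}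
    (hC : ∀ (n0 n1 n2 : ℕ) (y J : ℤ), n0 ≤ n1 → n0 ≤ n2 →
      |∑ g ∈ range (2 ^ T), (sgn T g : ℝ) * (bin (1 / 2) n1 (y + g) * bin (1 / 2) n2 (J - (y + g)))| ≤
        C / √((n0 : ℝ) + 1) ^ T)
    (n0 n1 n2 : ℕ) (h1 : n0 ≤ n1) (h2 : n0 ≤ n2) (J : ℤ) (H p k : ℕ) (f : Finset ℕ → ℝ)
    (hf : f ∅ = 0) (hf1 : ∀ S, |f S| ≤ 1) :
    |∑ j ∈ range (n1 + 1), bin (1 / 2) n1 j * bin (1 / 2) n2 (J - j) *
        ∑ g ∈ range (2 ^ T), (sgn T g : ℝ) * f (pat {0} ((H : ℤ) + g - (p + j : ℕ)) k)| ≤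
      k * (C / √((n0 : ℝ) + 1) ^ T) := by
  have e : ∑ j ∈ range (n1 + 1), bin (1 / 2) n1 j * bin (1 / 2) n2 (J - j) *
        ∑ g ∈ range (2 ^ T), (sgn T g : ℝ) * f (pat {0} ((H : ℤ) + g - (p + j : ℕ)) k) =
      ∑ v ∈ range k, f {v} * ∑ g ∈ range (2 ^ T), (sgn T g : ℝ) *
        (bin (1 / 2) n1 ((H : ℤ) - p - v + g) * bin (1 / 2) n2 (J - ((H : ℤ) - p - v + g))) := by
    have e1 : ∀ v g : ℕ, bin (1 / 2) n1 ((H : ℤ) - p - v + g) *
        bin (1 / 2) n2 (J - ((H : ℤ) - p - v + g)) =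
        ∑ j ∈ range (n1 + 1), bin (1 / 2) n1 j * bin (1 / 2) n2 (J - j) *
          ind ((H : ℤ) + g - (p + j : ℕ) = v) := by
      intro v g
      rw [← lin_pick (1 / 2) n1 (fun z => bin (1 / 2) n2 (J - z)) ((H : ℤ) - p - v + g)]
      refine Finset.sum_congr rfl fun j _ => ?_
      rw [ind_congr (show ((H : ℤ) - p - v + g = j) ↔ ((H : ℤ) + g - (p + j : ℕ) = v) by
        push_cast; constructor <;> intro h <;> omega)]
    simp only [e1, lin_pat _ k f hf, Finset.mul_sum]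
    rw [Finset.sum_comm]
    conv_rhs => rw [Finset.sum_comm]
    refine Finset.sum_congr rfl fun g _ => ?_
    rw [Finset.sum_comm]
    refine Finset.sum_congr rfl fun v _ => Finset.sum_congr rfl fun j _ => ?_
    ring
  rw [e]
  refine (Finset.abs_sum_le_sum_abs _ _).trans ?_
  refine (Finset.sum_le_sum (g := fun _ => C / √((n0 : ℝ) + 1) ^ T) fun v _ => ?_).trans ?_
  · rw [abs_mul]
    have h3 := hC n0 n1 n2 ((H : ℤ) - p - v) J h1 h2
    calc _ ≤ 1 * (C / √((n0 : ℝ) + 1) ^ T) :=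
          mul_le_mul (hf1 _) h3 (abs_nonneg _) zero_le_one
      _ = _ := one_mul _
  · rw [Finset.sum_const, Finset.card_range, nsmul_eq_mul]

/-- The contribution of step `r`. -/
noncomputable def lin_term {T : ℕ} (X : Model (2 ^ T)) (M s : ℕ) (c : ℕ → Ctx X.a) (o : ℕ → X.Tok)
    (R : ℕ) (ℓ : Lab X.a) (r : ℕ) : ℝ :=
  QX c R fun ξ => ind (End s (1 * LL X.a M) c ξ R ℓ) *
    ∑ g ∈ range (2 ^ T), (sgn T g : ℝ) *
      X.D (c r) (ξ r) (pat {0} ((HH X.a M : ℤ) + g - pos s c ξ r) (stp (c r) (ξ r))) (o r)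

lemma lin_sum_eq {T : ℕ} (hT : 1 ≤ T) (X : Model (2 ^ T)) {M s : ℕ} (hM : 2 ≤ M)
    (hs : s ≤ 2 * X.a + 1) (c : ℕ → Ctx X.a) (o : ℕ → X.Tok) (R : ℕ) (ℓ : Lab X.a) :
    ∑ g ∈ range (2 ^ T), (sgn T g : ℝ) * X.ZP M s 1 (fun _ => {g}) c o R ℓ =
      ∑ r ∈ range R, lin_term X M s c o R ℓ r := by
  have e1 : ∑ g ∈ range (2 ^ T), (sgn T g : ℝ) * X.ZP M s 1 (fun _ => {g}) c o R ℓ =
      ∑ g ∈ range (2 ^ T), ((sgn T g : ℝ) * gg s (1 * LL X.a M) c R ℓ +
        ∑ r ∈ range R, (sgn T g : ℝ) * QX c R fun ξ => ind (End s (1 * LL X.a M) c ξ R ℓ) *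
          X.D (c r) (ξ r) (pat {0} ((HH X.a M : ℤ) + g - pos s c ξ r) (stp (c r) (ξ r))) (o r)) := by
    refine Finset.sum_congr rfl fun g hg => ?_
    rw [X.ZP_single hM hs g (Finset.mem_range.1 hg), mul_add, Finset.mul_sum]
  rw [e1, Finset.sum_add_distrib, ← Finset.sum_mul, lin_sgn_sum T hT, zero_mul, zero_add,
    Finset.sum_comm]
  refine Finset.sum_congr rfl fun r _ => ?_
  unfold lin_term QX
  simp only [← EX_mul_left]
  rw [← EX_sum]
  congr 1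
  funext ξ
  rw [Finset.mul_sum]
  refine Finset.sum_congr rfl fun g _ => ?_
  ring

lemma lin_term_zero {T : ℕ} (X : Model (2 ^ T)) {M s : ℕ} (c : ℕ → Ctx X.a) (o : ℕ → X.Tok)
    (R : ℕ) (ℓ : Lab X.a) (r : ℕ)
    (h : ∀ ξ, End s (1 * LL X.a M) c ξ R ℓ → ∀ g : ℕ, g < 2 ^ T →
      pat {0} ((HH X.a M : ℤ) + g - pos s c ξ r) (stp (c r) (ξ r)) = ∅) :
    lin_term X M s c o R ℓ r = 0 := by
  unfold lin_term QX
  rw [← EX_zero_fun (fun r => pr (1 / 2 : ℝ) (c r)) R]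
  congr 1
  funext ξ
  by_cases hE : End s (1 * LL X.a M) c ξ R ℓ
  · rw [Finset.sum_eq_zero, mul_zero]
    intro g hg
    rw [h ξ hE g (Finset.mem_range.1 hg), X.D_empty, mul_zero]
  · rw [ind_false hE, zero_mul]

lemma lin_term_early {T : ℕ} (X : Model (2 ^ T)) {M s : ℕ} (hs : s ≤ 2 * X.a + 1)
    (c : ℕ → Ctx X.a) (o : ℕ → X.Tok) (R : ℕ) (ℓ : Lab X.a) (r : ℕ) (hr : r + 2 ≤ M) :
    lin_term X M s c o R ℓ r = 0 := by
  refine lin_term_zero X c o R ℓ r fun ξ _ g _ => ?_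
  refine pat_eq_empty 1 {0} (by simp) _ _ (Or.inr ?_)
  have h1 := pos_le s c ξ (Nat.zero_le (r + 1))
  rw [pos_zero, pos_succ, Nat.sub_zero] at h1
  have h2 : (2 * X.a + 1) * (r + 2) ≤ (2 * X.a + 1) * M := Nat.mul_le_mul_left _ hr
  have h3 : (2 * X.a + 1) * (r + 2) = (2 * X.a + 1) * (r + 1) + (2 * X.a + 1) := by ring
  have h4 : HH X.a M = (2 * X.a + 1) * M := rfl
  omega

lemma lin_term_late {T : ℕ} (X : Model (2 ^ T)) {M s : ℕ}
    (c : ℕ → Ctx X.a) (o : ℕ → X.Tok) (R : ℕ) (ℓ : Lab X.a) (r : ℕ) (hr : r < R) (hr' : R < r + M) :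
    lin_term X M s c o R ℓ r = 0 := by
  refine lin_term_zero X c o R ℓ r fun ξ hE g hg => ?_
  refine pat_eq_empty 1 {0} (by simp) _ _ (Or.inl ?_)
  have h1 := pos_le s c ξ hr.le
  have h2 : (2 * X.a + 1) * (R - r + 1) ≤ (2 * X.a + 1) * M := Nat.mul_le_mul_left _ (by omega)
  have h3 : (2 * X.a + 1) * (R - r + 1) = (2 * X.a + 1) * (R - r) + (2 * X.a + 1) := by ring
  have h4 : HH X.a M = (2 * X.a + 1) * M := rfl
  have h5 : LL X.a M = 2 * HH X.a M := rfl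
  have h6 := hE.2.1
  have h7 := X.m_le
  omega

lemma lin_term_long {T : ℕ} (X : Model (2 ^ T)) {M s : ℕ}
    (c : ℕ → Ctx X.a) (o : ℕ → X.Tok) (R : ℕ) (ℓ : Lab X.a) (r : ℕ) (hR : 6 * M < R) :
    lin_term X M s c o R ℓ r = 0 := by
  refine lin_term_zero X c o R ℓ r fun ξ hE g _ => ?_
  have := End_R_le X.a_pos hE
  omega

lemma lin_term_good {T : ℕ} {C : ℝ} (hC0 : 0 < C)
    (hC : ∀ (n0 n1 n2 : ℕ) (y J : ℤ), n0 ≤ n1 → n0 ≤ n2 →
      |∑ g ∈ range (2 ^ T), (sgn T g : ℝ) * (bin (1 / 2) n1 (y + g) * bin (1 / 2) n2 (J - (y + g)))| ≤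
        C / √((n0 : ℝ) + 1) ^ T)
    (X : Model (2 ^ T)) {M s N : ℕ} {b : ℝ} (G : X.Geo M 1 s N b)
    (hD : ∀ c ξ S o, |X.D c ξ S o| ≤ 1)
    (c : ℕ → Ctx X.a) (o : ℕ → X.Tok) (R : ℕ) (ℓ : Lab X.a)
    (hg : Good X.β b s (1 * LL X.a M) c R ℓ) (r : ℕ) (hr : r < R) :
    |lin_term X M s c o R ℓ r| ≤ (2 * (X.a : ℝ) + 1) * (C * 2 ^ T / √(X.β * M) ^ T) := by
  have hβ := X.β_pos
  have hM := G.hM
  have hM' : (2 : ℝ) ≤ M := by exact_mod_cast hM
  have hpos : 0 < √(X.β * M) := Real.sqrt_pos.2 (by positivity)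
  have hB : 0 ≤ (2 * (X.a : ℝ) + 1) * (C * 2 ^ T / √(X.β * M) ^ T) := by positivity
  by_cases h1 : r + 2 ≤ M
  · rw [lin_term_early X G.hs c o R ℓ r h1, abs_zero]; exact hB
  by_cases h2 : R < r + M
  · rw [lin_term_late X c o R ℓ r hr h2, abs_zero]; exact hB
  have hr1 : r + 1 < R := by omega
  have hb := G.hb
  have c1 : X.β * M / 4 ≤ coins c 0 r := by
    have h3 := hg.1 0 r (Nat.zero_le _) hr.le
    have h4 : (M : ℝ) ≤ r + 1 := by exact_mod_cast (by omega : M ≤ r + 1)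
    have h5 : X.β * M ≤ X.β * (r + 1) := mul_le_mul_of_nonneg_left h4 hβ.le
    push_cast at h3
    nlinarith
  have c2 : X.β * M / 4 ≤ coins c (r + 1) (R - 1) := by
    have h3 := hg.1 (r + 1) (R - 1) (by omega) (by omega)
    have h4 : (r : ℝ) + M ≤ R := by exact_mod_cast (by omega : r + M ≤ R)
    have h5 : X.β * (r + M) ≤ X.β * R := mul_le_mul_of_nonneg_left h4 hβ.le
    rw [Nat.cast_sub (by omega : 1 ≤ R)] at h3
    push_cast at h3
    nlinarith
  set n0 : ℕ := min (coins c 0 r) (coins c (r + 1) (R - 1)) with hn0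
  have c0 : X.β * M / 4 ≤ n0 := by
    rw [hn0, Nat.cast_min]
    exact le_min c1 c2
  have hsq : √(X.β * M) ≤ 2 * √((n0 : ℝ) + 1) := by
    have h4 : (2 : ℝ) * √((n0 : ℝ) + 1) = √(4 * ((n0 : ℝ) + 1)) := by
      rw [Real.sqrt_mul (by norm_num), show (4 : ℝ) = 2 ^ 2 by norm_num,
        Real.sqrt_sq (by norm_num)]
    rw [h4]
    exact Real.sqrt_le_sqrt (by linarith)
  have hpos0 : 0 < √((n0 : ℝ) + 1) := Real.sqrt_pos.2 (by positivity)
  have hfrac : C / √((n0 : ℝ) + 1) ^ T ≤ C * 2 ^ T / √(X.β * M) ^ T := by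
    rw [div_le_div_iff₀ (by positivity) (by positivity), mul_assoc, ← mul_pow]
    exact mul_le_mul_of_nonneg_left (pow_le_pow_left₀ hpos.le hsq T) hC0.le
  have hsplit := QX_split s (1 * LL X.a M) R r hr1 c ℓ (fun θ p =>
    ∑ g ∈ range (2 ^ T), (sgn T g : ℝ) *
      X.D (c r) θ (pat {0} ((HH X.a M : ℤ) + g - p) (stp (c r) θ)) (o r))
  unfold lin_term
  rw [hsplit]
  refine (Finset.abs_sum_le_sum_abs _ _).trans ?_
  refine (Finset.sum_le_sum (g := fun θ => pr (1 / 2) (c r) θ *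
    ((2 * (X.a : ℝ) + 1) * (C * 2 ^ T / √(X.β * M) ^ T))) fun θ _ => ?_).trans ?_
  · have hin := lin_inner T hC n0 (coins c 0 r) (coins c (r + 1) (R - 1)) (min_le_left _ _)
      (min_le_right _ _)
      (jj s (1 * LL X.a M) c R ℓ + stp (c r) ((c r).2.getD false) - stp (c r) θ)
      (HH X.a M) (s + base c r) (stp (c r) θ) (fun S => X.D (c r) θ S (o r))
      (X.D_empty _ _ _) (fun S => hD _ _ _ _)
    have p0 : 0 ≤ pr (1 / 2 : ℝ) (c r) θ := pr_nonneg (by norm_num) (by norm_num) _ _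
    have p1 : 0 ≤ pr (1 / 2 : ℝ) (c (R - 1)) ℓ.2 := pr_nonneg (by norm_num) (by norm_num) _ _
    have p2 : pr (1 / 2 : ℝ) (c (R - 1)) ℓ.2 ≤ 1 := pr_le_one (by norm_num) (by norm_num) _ _
    have p3 := ind_nonneg (ℓ.1.val < stp (c (R - 1)) ℓ.2)
    have p4 := ind_le_one (ℓ.1.val < stp (c (R - 1)) ℓ.2)
    have p5 : ind (ℓ.1.val < stp (c (R - 1)) ℓ.2) * pr (1 / 2 : ℝ) (c (R - 1)) ℓ.2 ≤ 1 :=
      mul_le_one₀ p4 p1 p2
    have p6 : (stp (c r) θ : ℝ) ≤ 2 * (X.a : ℝ) + 1 := by exact_mod_cast stp_le (c r) θ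
    rw [abs_mul, abs_of_nonneg (mul_nonneg p0 (mul_nonneg p3 p1)), mul_assoc]
    refine mul_le_mul_of_nonneg_left ?_ p0
    calc _ ≤ 1 * ((2 * (X.a : ℝ) + 1) * (C * 2 ^ T / √(X.β * M) ^ T)) := by
          refine mul_le_mul p5 (hin.trans ?_) (abs_nonneg _) zero_le_one
          exact mul_le_mul p6 hfrac (by positivity) (by positivity)
      _ = _ := one_mul _
  · rw [← Finset.sum_mul, pr_sum, one_mul]

/-- One block.  By `ZP_single` and `∑ sgn = 0` the sum is `∑ r < R, QX (ind End * ∑ g, sgn g * D (pat {0} (H + g - pos r) ..))`.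
With `End`, step `r` can see a site `H + g` (`g < m ≤ a`) only if `M - 1 ≤ r` and `r + M ≤ R`, otherwise the term vanishes;
then on good data `coins c 0 r` and `coins c (r+1) (R-1)` are at least `β M / 4`.  Use `QX_split`, write
`D (pat {0} u k) = ∑ v < k, ind (u = v) * D {v}`, and apply `pte` for each `v`, with `|D| ≤ 1`.  So on good data the sum is at most
`R (2a+1) C / √(β M / 4) ^ T`, and it vanishes for `R > 6 M` (`Tot_le_count`).  On bad data bound by `∑ g, ZP {g}` and use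
`Tot_marginal`, `bad_bound`. -/
theorem lin_block (T : ℕ) (hT : 1 ≤ T) : ∃ C : ℝ, 0 < C ∧ ∀ (X : Model (2 ^ T)) (M s N : ℕ) (b : ℝ),
    X.Geo M 1 s N b → (∀ c ξ S o, |X.D c ξ S o| ≤ 1) →
    X.Tot N (fun c o R ℓ =>
        |∑ g ∈ range (2 ^ T), (sgn T g : ℝ) * X.ZP M s 1 (fun _ => {g}) c o R ℓ|) ≤
      C * ((M : ℝ) ^ 2 * (2 * (X.a : ℝ) + 1) ^ 2 / √(X.β * M) ^ T + badB X.β b M N) := by
  obtain ⟨C, hC0, hC⟩ := pte T
  refine ⟨84 * C * 2 ^ T + 2 ^ T, by positivity, fun X M s N b G hD => ?_⟩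
  have hβ := X.β_pos
  have hM := G.hM
  have hM' : (2 : ℝ) ≤ M := by exact_mod_cast hM
  have hpos : 0 < √(X.β * M) := Real.sqrt_pos.2 (by positivity)
  set B : ℝ := 6 * M * ((2 * (X.a : ℝ) + 1) * (C * 2 ^ T / √(X.β * M) ^ T)) with hB
  have hB0 : 0 ≤ B := by positivity
  have hpt : ∀ c o R ℓ,
      |∑ g ∈ range (2 ^ T), (sgn T g : ℝ) * X.ZP M s 1 (fun _ => {g}) c o R ℓ| ≤
        ind (R ≤ 6 * M) * B + ∑ g ∈ range (2 ^ T),
          ind (¬ Good X.β b s (1 * LL X.a M) c R ℓ) *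
            X.Zf (tauP X.a M fun _ => {g}) s (1 * LL X.a M) c o R ℓ := by
    intro c o R ℓ
    by_cases hg : Good X.β b s (1 * LL X.a M) c R ℓ
    · rw [ind_false (not_not.2 hg)]
      simp only [zero_mul, Finset.sum_const_zero, add_zero]
      rw [lin_sum_eq hT X hM G.hs]
      by_cases hR : R ≤ 6 * M
      · rw [ind_true hR, one_mul]
        refine (Finset.abs_sum_le_sum_abs _ _).trans ?_
        refine (Finset.sum_le_sum fun r hr =>
          lin_term_good hC0 hC X G hD c o R ℓ hg r (Finset.mem_range.1 hr)).trans ?_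
        rw [Finset.sum_const, Finset.card_range, nsmul_eq_mul]
        have hR' : (R : ℝ) ≤ 6 * M := by exact_mod_cast hR
        exact mul_le_mul_of_nonneg_right hR' (by positivity)
      · rw [ind_false hR, zero_mul, Finset.sum_eq_zero, abs_zero]
        intro r _
        exact lin_term_long X c o R ℓ r (by omega)
    · rw [ind_true hg]
      refine le_add_of_nonneg_of_le (mul_nonneg (ind_nonneg _) hB0) ?_
      refine (Finset.abs_sum_le_sum_abs _ _).trans (Finset.sum_le_sum fun g _ => ?_)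
      rw [abs_mul, lin_sgn_abs]
      exact le_of_eq (by rw [Model.ZP, abs_of_nonneg (X.Zf_nonneg _ _ _ _ _ _ _)])
  refine (X.Tot_mono N hpt).trans ?_
  rw [X.Tot_plus N (fun _ _ R _ => ind (R ≤ 6 * M) * B), X.Tot_sum]
  have t1 := X.Tot_le_count N (Ψ := fun _ _ R _ => ind (R ≤ 6 * M) * B) (6 * M) B hB0
    (fun _ _ _ _ => le_rfl)
  have t2 : ∑ g ∈ range (2 ^ T), X.Tot N (fun c o R ℓ =>
      ind (¬ Good X.β b s (1 * LL X.a M) c R ℓ) *
        X.Zf (tauP X.a M fun _ => {g}) s (1 * LL X.a M) c o R ℓ) ≤ 2 ^ T * badB X.β b M N := by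
    refine (Finset.sum_le_sum (g := fun _ => badB X.β b M N) fun g _ => ?_).trans ?_
    · rw [X.Tot_marginal N _ s (1 * LL X.a M)
        (fun c R ℓ => ind (¬ Good X.β b s (1 * LL X.a M) c R ℓ))]
      exact X.bad_bound G
    · rw [Finset.sum_const, Finset.card_range, nsmul_eq_mul]
      push_cast
      exact le_rfl
  have hbad := badB_nonneg X.β b M N
  set W : ℝ := (M : ℝ) ^ 2 * (2 * (X.a : ℝ) + 1) ^ 2 / √(X.β * M) ^ T with hW
  have hW0 : 0 ≤ W := by positivity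
  have t3 : (((6 * M : ℕ) : ℝ) + 1) * (2 * (2 * X.a + 1)) * B ≤ 84 * C * 2 ^ T * W := by
    have h7 : ((6 * M : ℕ) : ℝ) + 1 ≤ 7 * M := by push_cast; linarith
    calc _ ≤ (7 * M) * (2 * (2 * X.a + 1)) * B := by gcongr
      _ = _ := by rw [hB, hW]; ring
  have t4 : 0 ≤ 84 * C * 2 ^ T * badB X.β b M N := by positivity
  have t5 : 0 ≤ (2 : ℝ) ^ T * W := by positivity
  nlinarith

/-- `localize` with `ι = ℕ`, `Φ v = |∑ g ∈ range (2^T), sgn T g * v g|`, and `ind_tm`. -/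
theorem lin_bound (T : ℕ) (hT : 1 ≤ T) : ∃ C : ℝ, 0 < C ∧ ∀ (X : Model (2 ^ T)) (M K s N : ℕ) (b : ℝ),
    X.Geo M K s N b → (∀ c ξ S o, |X.D c ξ S o| ≤ 1) → ∀ (P : ℕ → Finset ℕ) (i : ℕ), i < K →
    X.Tot N (fun c o R ℓ => |X.LT M s K (tmF T) (tmF' T) P i c o R ℓ|) ≤
      C * ((M : ℝ) ^ 2 * (2 * (X.a : ℝ) + 1) ^ 2 / √(X.β * M) ^ T + badB X.β b M N) := by
  obtain ⟨C, hC0, hC⟩ := lin_block T hT
  refine ⟨C, hC0, fun X M K s N b G hD P i hi => ?_⟩
  have hM := G.hM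
  have e : (fun c o R ℓ => |X.LT M s K (tmF T) (tmF' T) P i c o R ℓ|) = fun c o R ℓ =>
      |∑ g ∈ range (2 ^ T), (sgn T g : ℝ) * X.ZP M s K (Function.update P i {g}) c o R ℓ| := by
    funext c o R ℓ
    unfold Model.LT
    rw [← abs_neg, ← Finset.sum_neg_distrib]
    congr 1
    refine Finset.sum_congr rfl fun g hg => ?_
    rw [ind_tm T g (Finset.mem_range.1 hg)]
    ring
  rw [e]
  refine X.localize N M K s i (by omega) G.hs hi
    (fun v : ℕ → ℝ => |∑ g ∈ range (2 ^ T), (sgn T g : ℝ) * v g|) (fun v => abs_nonneg _)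
    (fun v w => ?_) (fun t v ht => ?_) (fun g => Function.update P i {g}) (fun g g' j hj => ?_) _
    (fun s' hs' => ?_)
  · simp only [mul_add, Finset.sum_add_distrib]
    exact abs_add_le _ _
  · have e1 : ∑ g ∈ range (2 ^ T), (sgn T g : ℝ) * (t * v g) =
        t * ∑ g ∈ range (2 ^ T), (sgn T g : ℝ) * v g := by
      rw [Finset.mul_sum]
      exact Finset.sum_congr rfl fun g _ => by ring
    simp only [e1]
    rw [abs_mul, abs_of_nonneg ht]
  · simp only [Function.update_of_ne hj]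
  · simp only [Function.update_self]
    refine hC X M s' N b ⟨hM, le_rfl, hs', ?_, ?_, G.hb0, G.hb⟩ hD
    · exact (Nat.mul_le_mul_right _ G.hK).trans G.hN
    · exact (Nat.mul_le_mul_left _ G.hK).trans G.hL

end Pool.Agent.Lib.MP_343fe0_pr
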