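import Pool.Agent.Lib.MP_343fe0_pr.Alg

set_option autoImplicit false

/-! Extraction of a hidden fair coin from two overlapping laws. -/

namespace Pool.Agent.Lib.MP_343fe0_pr

open Finset

section NormAux

variable {Xs : Type} [Fintype Xs]

lemma norm_var_eq (ν h : Xs → ℝ) (h1 : ∑ x, ν x = 1) :
    ∑ x, ν x * (h x - ∑ y, ν y * h y) ^ 2 = ∑ x, ν x * h x ^ 2 - (∑ y, ν y * h y) ^ 2 := by
  set c := ∑ y, ν y * h y with hc
  have e : ∀ x, ν x * (h x - c) ^ 2 = ν x * h x ^ 2 - 2 * c * (ν x * h x) + c ^ 2 * ν x := by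
    intro x
    ring
  simp only [e]
  rw [Finset.sum_add_distrib, Finset.sum_sub_distrib, ← Finset.mul_sum, ← Finset.mul_sum, h1, ← hc]
  ring

lemma norm_var_le (ν h : Xs → ℝ) (h1 : ∑ x, ν x = 1) :
    ∑ x, ν x * (h x - ∑ y, ν y * h y) ^ 2 ≤ ∑ x, ν x * h x ^ 2 := by
  rw [norm_var_eq ν h h1]
  linarith [sq_nonneg (∑ y, ν y * h y)]

lemma norm_mean_sq (ν h : Xs → ℝ) (h0 : ∀ x, 0 ≤ ν x) (h1 : ∑ x, ν x = 1) :
    (∑ y, ν y * h y) ^ 2 ≤ ∑ x, ν x * h x ^ 2 := by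
  have h2 := norm_var_eq ν h h1
  have h3 : 0 ≤ ∑ x, ν x * (h x - ∑ y, ν y * h y) ^ 2 :=
    Finset.sum_nonneg fun x _ => mul_nonneg (h0 x) (sq_nonneg _)
  linarith

lemma norm_mean_abs (ν h : Xs → ℝ) (h0 : ∀ x, 0 ≤ ν x) (h1 : ∑ x, ν x = 1) (B : ℝ)
    (hB : ∀ x, |h x| ≤ B) : |∑ y, ν y * h y| ≤ B := by
  refine le_trans (Finset.abs_sum_le_sum_abs _ _) ?_
  calc ∑ y, |ν y * h y| ≤ ∑ y, ν y * B := by
        refine Finset.sum_le_sum fun y _ => ?_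
        rw [abs_mul, abs_of_nonneg (h0 y)]
        exact mul_le_mul_of_nonneg_left (hB y) (h0 y)
    _ = B := by rw [← Finset.sum_mul, h1, one_mul]

lemma norm_mean_zero (ν h : Xs → ℝ) (h1 : ∑ x, ν x = 1) :
    ∑ x, ν x * (h x - ∑ y, ν y * h y) = 0 := by
  set c := ∑ y, ν y * h y with hc
  have e : ∀ x, ν x * (h x - c) = ν x * h x - c * ν x := by
    intro x
    ring
  simp only [e]
  rw [Finset.sum_sub_distrib, ← Finset.mul_sum, h1, ← hc]
  ring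

/-- `f ↦ u * f + t * ∑ ν * (u * f)` as a linear map. -/
noncomputable def normL (u t ν : Xs → ℝ) : (Xs → ℝ) →ₗ[ℝ] (Xs → ℝ) where
  toFun f x := u x * f x + t x * ∑ y, ν y * (u y * f y)
  map_add' f g := by
    funext x
    simp only [Pi.add_apply, mul_add, Finset.sum_add_distrib]
    ring
  map_smul' c f := by
    funext x
    simp only [Pi.smul_apply, smul_eq_mul, RingHom.id_apply]
    have e : ∑ y, ν y * (u y * (c * f y)) = c * ∑ y, ν y * (u y * f y) := by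
      rw [Finset.mul_sum]
      exact Finset.sum_congr rfl fun y _ => by ring
    rw [e]
    ring

lemma normL_apply (u t ν f : Xs → ℝ) (x : Xs) :
    normL u t ν f x = u x * f x + t x * ∑ y, ν y * (u y * f y) := rfl

/-- Centring as a linear map. -/
noncomputable def normC (ν : Xs → ℝ) : (Xs → ℝ) →ₗ[ℝ] (Xs → ℝ) where
  toFun f x := f x - ∑ y, ν y * f y
  map_add' f g := by
    funext x
    simp only [Pi.add_apply, mul_add, Finset.sum_add_distrib]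
    ring
  map_smul' c f := by
    funext x
    simp only [Pi.smul_apply, smul_eq_mul, RingHom.id_apply]
    have e : ∑ y, ν y * (c * f y) = c * ∑ y, ν y * f y := by
      rw [Finset.mul_sum]
      exact Finset.sum_congr rfl fun y _ => by ring
    rw [e]
    ring

lemma normC_apply (ν f : Xs → ℝ) (x : Xs) : normC ν f x = f x - ∑ y, ν y * f y := rfl

/-- The final numerical inequality. -/
lemma norm_final_ineq {η μ b H C : ℝ} (hη0 : 0 ≤ η) (hη1 : η ≤ 1 / 10) (hμ : 2 / 5 ≤ μ)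
    (hb : b ≤ μ + η) (hH : 1 / 2 ≤ H) (hC : -η ≤ μ * C) (hHC : 0 ≤ H - C) :
    (1 - 10 * η) * (b / μ * (H - C)) ≤ H := by
  have hμ0 : 0 < μ := by linarith
  have h1 : b / μ ≤ 1 + 5 / 2 * η := by
    rw [div_le_iff₀ hμ0]
    nlinarith
  have h2 : -C ≤ 5 / 2 * η := by
    by_contra hc
    push Not at hc
    nlinarith
  have h3 : H - C ≤ H * (1 + 5 * η) := by nlinarith
  have h4 : b / μ * (H - C) ≤ (1 + 5 / 2 * η) * (H * (1 + 5 * η)) :=
    le_trans (mul_le_mul_of_nonneg_right h1 hHC)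
      (mul_le_mul_of_nonneg_left h3 (by linarith))
  have h5 : (1 - 10 * η) * ((1 + 5 / 2 * η) * (1 + 5 * η)) ≤ 1 := by nlinarith [mul_nonneg hη0 hη0, mul_nonneg hη0 (mul_nonneg hη0 hη0)]
  calc (1 - 10 * η) * (b / μ * (H - C))
      ≤ (1 - 10 * η) * ((1 + 5 / 2 * η) * (H * (1 + 5 * η))) :=
        mul_le_mul_of_nonneg_left h4 (by linarith)
    _ = H * ((1 - 10 * η) * ((1 + 5 / 2 * η) * (1 + 5 * η))) := by ring
    _ ≤ H * 1 := mul_le_mul_of_nonneg_left h5 (by linarith)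
    _ = H := mul_one H

lemma norm_ind_cases (P : Prop) : (P ∧ ind P = 1) ∨ (¬ P ∧ ind P = 0) := by
  by_cases h : P
  · exact Or.inl ⟨h, ind_true h⟩
  · exact Or.inr ⟨h, ind_false h⟩

lemma norm_sum_good (G : Xs → Prop) (q : Xs → ℝ) (h1 : ∑ x, q x = 1) :
    ∑ x, ind (G x) * q x = 1 - ∑ x, ind (¬ G x) * q x := by
  rw [← h1, ← Finset.sum_sub_distrib]
  refine Finset.sum_congr rfl fun x _ => ?_
  rw [ind_not]
  ring

lemma norm_core (p : Xs → ℝ) (G : Xs → Prop) (g : Xs → ℝ) (β' η δ' : ℝ) (hp0 : ∀ x, 0 ≤ p x)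
    (hp1 : ∑ x, p x = 1) (hβ0 : 0 < β') (hβ1 : β' ≤ 1 / 2) (hη0 : 0 ≤ η) (hη1 : η ≤ 1 / 10)
    (hδ0 : 0 ≤ δ') (hδ1 : δ' ≤ 1 / 4) (hbad : ∑ x, ind (¬ G x) * p x ≤ η)
    (hg0 : ∀ x, 0 ≤ g x) (hg : ∀ x, 2 * g x ≤ ind (G x) * p x) (hgs : ∑ x, g x = β') :
    ∃ (ν1 : Xs → ℝ) (Λ0 Λ1 : (Xs → ℝ) →ₗ[ℝ] (Xs → ℝ)),
      (∀ x, 0 ≤ ν1 x) ∧ (∑ x, ν1 x = 1) ∧
      (∀ f, ∑ x, g x / β' * Λ0 f x = 0) ∧ (∀ f, ∑ x, ν1 x * Λ1 f x = 0) ∧
      (∀ f, ∑ x, g x / β' * Λ0 f x ^ 2 ≤ 5 / β' * ∑ x, ind (G x) * f x ^ 2 / p x) ∧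
      (∀ f, ∑ x, ν1 x * Λ1 f x ^ 2 ≤ 5 / β' * ∑ x, ind (G x) * f x ^ 2 / p x) ∧
      (∀ f : Xs → ℝ, (∀ x, G x → |f x| ≤ δ' * p x) → ∀ x, |Λ0 f x| ≤ 4 * δ') ∧
      (∀ f : Xs → ℝ, (∀ x, G x → |f x| ≤ δ' * p x) → ∀ x, |Λ1 f x| ≤ 4 * δ') ∧
      ∀ q : Xs → ℝ, (∀ x, 0 ≤ q x) → ∑ x, q x = 1 → ∑ x, ind (¬ G x) * q x ≤ η →
        (∀ x, G x → |q x - p x| ≤ δ' * p x) → ∀ x,
        (1 - 10 * η) * (β' * (g x / β' * (1 + Λ0 (q - p) x)) +
          (1 - β') * (ν1 x * (1 + Λ1 (q - p) x))) ≤ q x := by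
  -- notation
  obtain ⟨a, ha⟩ : ∃ a : Xs → ℝ, ∀ x, a x = ind (G x) * p x := ⟨_, fun _ => rfl⟩
  obtain ⟨u, hu⟩ : ∃ u : Xs → ℝ, ∀ x, u x = ind (G x) / p x := ⟨_, fun _ => rfl⟩
  obtain ⟨t, ht⟩ : ∃ t : Xs → ℝ, ∀ x, t x = g x / (a x - g x) := ⟨_, fun _ => rfl⟩
  obtain ⟨μ, hμ⟩ : ∃ μ : ℝ, μ = ∑ x, a x - β' := ⟨_, rfl⟩
  obtain ⟨ν0, hν0⟩ : ∃ ν0 : Xs → ℝ, ∀ x, ν0 x = g x / β' := ⟨_, fun _ => rfl⟩
  obtain ⟨ν1, hν1⟩ : ∃ ν1 : Xs → ℝ, ∀ x, ν1 x = (a x - g x) / μ := ⟨_, fun _ => rfl⟩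
  have hga : ∀ x, 2 * g x ≤ a x := fun x => by rw [ha]; exact hg x
  have ha0 : ∀ x, 0 ≤ a x := fun x => by linarith [hga x, hg0 x]
  have hag : ∀ x, 0 ≤ a x - g x := fun x => by linarith [hga x, hg0 x]
  have hbad0 : 0 ≤ ∑ x, ind (¬ G x) * p x :=
    Finset.sum_nonneg fun x _ => mul_nonneg (ind_nonneg _) (hp0 x)
  have hsa : ∑ x, a x = 1 - ∑ x, ind (¬ G x) * p x := by
    rw [← norm_sum_good G p hp1]
    exact Finset.sum_congr rfl fun x _ => ha x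
  have hμ1 : 2 / 5 ≤ μ := by linarith
  have hμ2 : 1 - β' ≤ μ + η := by linarith
  have hμ0 : 0 < μ := by linarith
  have h00 : ∀ x, 0 ≤ ν0 x := fun x => by rw [hν0]; exact div_nonneg (hg0 x) hβ0.le
  have h01 : ∑ x, ν0 x = 1 := by
    simp only [hν0]
    rw [← Finset.sum_div, hgs, div_self hβ0.ne']
  have h10 : ∀ x, 0 ≤ ν1 x := fun x => by rw [hν1]; exact div_nonneg (hag x) hμ0.le
  have h11 : ∑ x, ν1 x = 1 := by
    simp only [hν1]
    rw [← Finset.sum_div, Finset.sum_sub_distrib, hgs, ← hμ, div_self hμ0.ne']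
  have ht0 : ∀ x, 0 ≤ t x := fun x => by rw [ht]; exact div_nonneg (hg0 x) (hag x)
  have ht1 : ∀ x, t x ≤ 1 := fun x => by
    rw [ht]
    exact div_le_one_of_le₀ (by linarith [hga x]) (hag x)
  have htg : ∀ x, (a x - g x) * t x = g x := by
    intro x
    rw [ht]
    by_cases h : a x - g x = 0
    · have h1 : g x = 0 := by linarith [hga x, hg0 x]
      rw [h, h1, zero_mul]
    · field_simp
  -- second moments
  have hsq : ∀ (f : Xs → ℝ) x, a x * (u x * f x) ^ 2 = ind (G x) * f x ^ 2 / p x := by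
    intro f x
    rw [ha, hu]
    rcases norm_ind_cases (G x) with ⟨_, h⟩ | ⟨_, h⟩
    · rw [h]
      by_cases hp : p x = 0
      · simp [hp]
      · field_simp
    · rw [h]
      simp
  have hV0 : ∀ f : Xs → ℝ, 0 ≤ ∑ x, ind (G x) * f x ^ 2 / p x := fun f =>
    Finset.sum_nonneg fun x _ => div_nonneg (mul_nonneg (ind_nonneg _) (sq_nonneg _)) (hp0 x)
  have hm0 : ∀ f : Xs → ℝ, ∑ x, ν0 x * (u x * f x) ^ 2 ≤
      1 / (2 * β') * ∑ x, ind (G x) * f x ^ 2 / p x := by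
    intro f
    rw [Finset.mul_sum]
    refine Finset.sum_le_sum fun x _ => ?_
    rw [← hsq, hν0]
    have h1 : g x / β' ≤ 1 / (2 * β') * a x := by
      rw [div_le_iff₀ hβ0]
      have : 1 / (2 * β') * a x * β' = a x / 2 := by field_simp
      rw [this]
      linarith [hga x]
    calc g x / β' * (u x * f x) ^ 2 ≤ 1 / (2 * β') * a x * (u x * f x) ^ 2 :=
          mul_le_mul_of_nonneg_right h1 (sq_nonneg _)
      _ = 1 / (2 * β') * (a x * (u x * f x) ^ 2) := by ring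
  have hm1 : ∀ f : Xs → ℝ, ∑ x, ν1 x * (u x * f x) ^ 2 ≤
      5 / 2 * ∑ x, ind (G x) * f x ^ 2 / p x := by
    intro f
    rw [Finset.mul_sum]
    refine Finset.sum_le_sum fun x _ => ?_
    rw [← hsq, hν1]
    have h1 : (a x - g x) / μ ≤ 5 / 2 * a x := by
      rw [div_le_iff₀ hμ0]
      nlinarith [ha0 x, hg0 x]
    calc (a x - g x) / μ * (u x * f x) ^ 2 ≤ 5 / 2 * a x * (u x * f x) ^ 2 :=
          mul_le_mul_of_nonneg_right h1 (sq_nonneg _)
      _ = 5 / 2 * (a x * (u x * f x) ^ 2) := by ring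
  -- sup bounds
  have hγ : ∀ f : Xs → ℝ, (∀ x, G x → |f x| ≤ δ' * p x) → ∀ x, |u x * f x| ≤ δ' := by
    intro f hf x
    rw [hu]
    rcases norm_ind_cases (G x) with ⟨hx, h⟩ | ⟨_, h⟩
    · rw [h]
      by_cases hp : p x = 0
      · simpa [hp] using hδ0
      · have hp' : 0 < p x := lt_of_le_of_ne (hp0 x) (Ne.symm hp)
        rw [abs_mul, abs_of_nonneg (div_nonneg zero_le_one hp'.le), div_mul_eq_mul_div, one_mul,
          div_le_iff₀ hp']
        exact hf x hx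
    · rw [h]
      simpa using hδ0
  have hE : ∀ f : Xs → ℝ, (∀ x, G x → |f x| ≤ δ' * p x) → |∑ y, ν0 y * (u y * f y)| ≤ δ' :=
    fun f hf => norm_mean_abs ν0 _ h00 h01 δ' (hγ f hf)
  have hH : ∀ f : Xs → ℝ, (∀ x, G x → |f x| ≤ δ' * p x) → ∀ x, |normL u t ν0 f x| ≤ 2 * δ' := by
    intro f hf x
    rw [normL_apply]
    refine le_trans (abs_add_le _ _) ?_
    have h1 : |t x * ∑ y, ν0 y * (u y * f y)| ≤ δ' := by
      rw [abs_mul, abs_of_nonneg (ht0 x)]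
      calc t x * |∑ y, ν0 y * (u y * f y)| ≤ 1 * δ' :=
            mul_le_mul (ht1 x) (hE f hf) (abs_nonneg _) zero_le_one
        _ = δ' := one_mul _
    linarith [hγ f hf x]
  have hL0 : ∀ (f : Xs → ℝ) x, normL u (fun _ => -1) ν0 f x =
      u x * f x - ∑ y, ν0 y * (u y * f y) := by
    intro f x
    rw [normL_apply]
    ring
  have hL1 : ∀ (f : Xs → ℝ) x, ((normC ν1).comp (normL u t ν0)) f x =
      normL u t ν0 f x - ∑ y, ν1 y * normL u t ν0 f y := fun f x => rfl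
  have hβinv : 2 ≤ 1 / β' := by
    rw [le_div_iff₀ hβ0]
    linarith
  refine ⟨ν1, normL u (fun _ => -1) ν0, (normC ν1).comp (normL u t ν0), h10, h11, ?_, ?_, ?_, ?_,
    ?_, ?_, ?_⟩
  · intro f
    simp only [← hν0, hL0]
    exact norm_mean_zero ν0 (fun x => u x * f x) h01
  · intro f
    simp only [hL1]
    exact norm_mean_zero ν1 _ h11
  · intro f
    simp only [← hν0, hL0]
    refine le_trans (norm_var_le ν0 (fun x => u x * f x) h01) (le_trans (hm0 f) ?_)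
    refine mul_le_mul_of_nonneg_right ?_ (hV0 f)
    have e1 : 1 / (2 * β') = 1 / 2 * (1 / β') := by field_simp
    have e2 : 5 / β' = 5 * (1 / β') := by ring
    rw [e1, e2]
    linarith
  · intro f
    simp only [hL1]
    refine le_trans (norm_var_le ν1 _ h11) ?_
    have h1 := norm_mean_sq ν0 (fun x => u x * f x) h00 h01
    have h2 := hm0 f
    have h3 := hm1 f
    have h4 : ∑ x, ν1 x * normL u t ν0 f x ^ 2 ≤
        ∑ x, (2 * (ν1 x * (u x * f x) ^ 2) + 2 * (∑ y, ν0 y * (u y * f y)) ^ 2 * ν1 x) := by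
      refine Finset.sum_le_sum fun x _ => ?_
      rw [normL_apply]
      set E := ∑ y, ν0 y * (u y * f y)
      set c := u x * f x
      have h5 : (t x * E) ^ 2 ≤ E ^ 2 := by
        rw [mul_pow]
        have h6 : t x ^ 2 ≤ 1 := pow_le_one₀ (ht0 x) (ht1 x)
        nlinarith [sq_nonneg E]
      have h6 : (c + t x * E) ^ 2 ≤ 2 * c ^ 2 + 2 * E ^ 2 := by
        nlinarith [sq_nonneg (c - t x * E)]
      have h7 := mul_le_mul_of_nonneg_left h6 (h10 x)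
      linarith
    rw [Finset.sum_add_distrib, ← Finset.mul_sum, ← Finset.mul_sum, h11] at h4
    have e1 : 1 / (2 * β') = 1 / 2 * (1 / β') := by field_simp
    have e2 : 5 / β' = 5 * (1 / β') := by ring
    rw [e1] at h2
    rw [e2]
    have h8 := mul_le_mul_of_nonneg_right hβinv (hV0 f)
    nlinarith [hV0 f]
  · intro f hf x
    rw [hL0]
    refine le_trans (abs_sub _ _) ?_
    linarith [hγ f hf x, hE f hf]
  · intro f hf x
    rw [hL1]
    refine le_trans (abs_sub _ _) ?_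
    linarith [hH f hf x, norm_mean_abs ν1 _ h10 h11 _ (hH f hf)]
  · intro q hq0 hq1 hqb hqc x
    have hf : ∀ y, G y → |(q - p) y| ≤ δ' * p y := hqc
    have hau : ∀ y, a y * (u y * (q - p) y) = ind (G y) * q y - ind (G y) * p y := by
      intro y
      rw [ha, hu, Pi.sub_apply]
      rcases norm_ind_cases (G y) with ⟨hy, h⟩ | ⟨_, h⟩
      · rw [h]
        by_cases hp : p y = 0
        · have h1 := hqc y hy
          rw [hp, mul_zero, sub_zero] at h1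
          have h2 : q y = 0 := abs_eq_zero.1 (le_antisymm h1 (abs_nonneg _))
          simp [hp, h2]
        · field_simp
      · rw [h]
        simp
    have hC : μ * ∑ y, ν1 y * normL u t ν0 (q - p) y =
        ∑ y, ind (¬ G y) * p y - ∑ y, ind (¬ G y) * q y := by
      have e1 : ∀ y, μ * (ν1 y * normL u t ν0 (q - p) y) =
          (ind (G y) * q y - ind (G y) * p y) - β' * (ν0 y * (u y * (q - p) y)) +
            (∑ z, ν0 z * (u z * (q - p) z)) * g y := by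
        intro y
        rw [normL_apply, ← hau y, hν1, hν0]
        have e2 : μ * ((a y - g y) / μ * (u y * (q - p) y + t y * ∑ z, ν0 z * (u z * (q - p) z))) =
            (a y - g y) * (u y * (q - p) y) + (a y - g y) * t y * ∑ z, ν0 z * (u z * (q - p) z) := by
          field_simp
        have e3 : β' * (g y / β' * (u y * (q - p) y)) = g y * (u y * (q - p) y) := by
          field_simp
        rw [e2, e3, htg]
        ring
      rw [Finset.mul_sum]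
      simp only [e1]
      rw [Finset.sum_add_distrib, Finset.sum_sub_distrib, Finset.sum_sub_distrib, ← Finset.mul_sum,
        ← Finset.mul_sum, hgs, norm_sum_good G p hp1, norm_sum_good G q hq1]
      ring
    have hC' : -η ≤ μ * ∑ y, ν1 y * normL u t ν0 (q - p) y := by linarith
    have hCabs := abs_le.1 (norm_mean_abs ν1 _ h10 h11 _ (hH _ hf))
    have hHx := abs_le.1 (hH _ hf x)
    have hγx := abs_le.1 (hγ _ hf x)
    have hEx := abs_le.1 (hE _ hf)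
    rw [hL0, hL1]
    have hnum := norm_final_ineq (b := 1 - β') (H := 1 + normL u t ν0 (q - p) x) hη0 hη1 hμ1 hμ2
      (by linarith) hC' (by linarith)
    have e1 : β' * (g x / β' * (1 + (u x * (q - p) x - ∑ y, ν0 y * (u y * (q - p) y)))) =
        g x * (1 + (u x * (q - p) x - ∑ y, ν0 y * (u y * (q - p) y))) := by
      field_simp
    have e2 : (1 - β') * (ν1 x * (1 + (normL u t ν0 (q - p) x -
        ∑ y, ν1 y * normL u t ν0 (q - p) y))) =
        (a x - g x) * ((1 - β') / μ * (1 + normL u t ν0 (q - p) x -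
          ∑ y, ν1 y * normL u t ν0 (q - p) y)) := by
      rw [hν1]
      field_simp
      ring
    rw [e1, e2]
    have h1 : (1 - 10 * η) * (g x * (1 + (u x * (q - p) x - ∑ y, ν0 y * (u y * (q - p) y)))) ≤
        g x * (1 + (u x * (q - p) x - ∑ y, ν0 y * (u y * (q - p) y))) := by
      have h2 : 0 ≤ g x * (1 + (u x * (q - p) x - ∑ y, ν0 y * (u y * (q - p) y))) :=
        mul_nonneg (hg0 x) (by linarith)
      nlinarith
    have h2 := mul_le_mul_of_nonneg_left hnum (hag x)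
    have h3 : g x * (1 + (u x * (q - p) x - ∑ y, ν0 y * (u y * (q - p) y))) +
        (a x - g x) * (1 + normL u t ν0 (q - p) x) = ind (G x) * q x := by
      rw [normL_apply]
      have e3 : (a x - g x) * (1 + (u x * (q - p) x + t x * ∑ y, ν0 y * (u y * (q - p) y))) =
          (a x - g x) * (1 + u x * (q - p) x) +
            (a x - g x) * t x * ∑ y, ν0 y * (u y * (q - p) y) := by ring
      rw [e3, htg]
      have e4 := hau x
      have e5 := ha x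
      linarith
    have h4 : ind (G x) * q x ≤ q x := by
      have := mul_le_mul_of_nonneg_right (ind_le_one (G x)) (hq0 x)
      linarith
    linarith

end NormAux

/-- Let `ov` be the overlap, `g x = β' / ov * ind (Gd false x ∧ Gd true x) * min (p false x) (p true x) ≤ p ξ x / 2`,
`ν none = g / β'`, `ν (some ξ) = (ind (Gd ξ) * p ξ - g) / μ ξ` with `μ ξ = ∑ ind (Gd ξ) * p ξ - β' ≥ 1 - η - β' ≥ 1/4`,
`γ ξ f x = ind (Gd ξ x) * f x / p ξ x`, `E f = ∑ ν none * γ ξ f`, `t ξ x = g x / (ind (Gd ξ x) * p ξ x - g x) ∈ [0,1]`,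
`Λ none ξ f = γ - E f`, `Λ (some ξ) ξ f = γ + t * E f - ∑ ν (some ξ) * (γ + t * E f)`, `Λ (some b) ξ = 0` for `b ≠ ξ`.
On `Gd ξ`: `q = p (1+γ) = g (1 + γ - E) + (p - g)(1 + γ + t E)`, and the last centring constant equals
`(q (Gd) - p (Gd)) / μ ξ`, of size at most `4 η`; `(1 - 10 η)(1 + 8 η) ≤ 1 - 2 η`.  Variances: `1 / (2β')` and `8 + 1 / β' ≤ 5 / β'`. -/
theorem norm_lemma {Xs : Type} [Fintype Xs] (p : Bool → Xs → ℝ) (Gd : Bool → Xs → Prop)
    (β' η δ' : ℝ) (hp0 : ∀ ξ x, 0 ≤ p ξ x) (hp1 : ∀ ξ, ∑ x, p ξ x = 1) (hβ0 : 0 < β')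
    (hβ1 : β' ≤ 1 / 2) (hη0 : 0 ≤ η) (hη1 : η ≤ 1 / 10) (hδ0 : 0 ≤ δ') (hδ1 : δ' ≤ 1 / 4)
    (hbad : ∀ ξ, ∑ x, ind (¬ Gd ξ x) * p ξ x ≤ η)
    (hov : 2 * β' ≤ ∑ x, ind (Gd false x ∧ Gd true x) * min (p false x) (p true x)) :
    ∃ (ν : Option Bool → Xs → ℝ) (Λ : Option Bool → Bool → (Xs → ℝ) →ₗ[ℝ] (Xs → ℝ)),
      (∀ t x, 0 ≤ ν t x) ∧ (∀ t, ∑ x, ν t x = 1) ∧
      (∀ t ξ f, ∑ x, ν t x * Λ t ξ f x = 0) ∧
      (∀ t ξ f, ∑ x, ν t x * Λ t ξ f x ^ 2 ≤ 5 / β' * ∑ x, ind (Gd ξ x) * f x ^ 2 / p ξ x) ∧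
      (∀ t ξ (f : Xs → ℝ), (∀ x, Gd ξ x → |f x| ≤ δ' * p ξ x) → ∀ x, |Λ t ξ f x| ≤ 4 * δ') ∧
      ∀ ξ (q : Xs → ℝ), (∀ x, 0 ≤ q x) → ∑ x, q x = 1 → ∑ x, ind (¬ Gd ξ x) * q x ≤ η →
        (∀ x, Gd ξ x → |q x - p ξ x| ≤ δ' * p ξ x) → ∀ x,
        (1 - 10 * η) * (β' * (ν none x * (1 + Λ none ξ (q - p ξ) x)) +
          (1 - β') * (ν (some ξ) x * (1 + Λ (some ξ) ξ (q - p ξ) x))) ≤ q x := by
  obtain ⟨r, hr⟩ : ∃ r : Xs → ℝ, ∀ x,
      r x = ind (Gd false x ∧ Gd true x) * min (p false x) (p true x) := ⟨_, fun _ => rfl⟩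
  have hov' : 2 * β' ≤ ∑ x, r x := by simpa only [hr] using hov
  have hr0 : ∀ x, 0 ≤ r x := fun x => by
    rw [hr]
    exact mul_nonneg (ind_nonneg _) (le_min (hp0 _ _) (hp0 _ _))
  have hrp : ∀ ξ x, r x ≤ ind (Gd ξ x) * p ξ x := by
    intro ξ x
    rw [hr]
    cases ξ
    · exact mul_le_mul (ind_mono fun h => h.1) (min_le_left _ _) (le_min (hp0 _ _) (hp0 _ _))
        (ind_nonneg _)
    · exact mul_le_mul (ind_mono fun h => h.2) (min_le_right _ _) (le_min (hp0 _ _) (hp0 _ _))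
        (ind_nonneg _)
  have hs0 : 0 < ∑ x, r x := by linarith
  obtain ⟨g, hg⟩ : ∃ g : Xs → ℝ, ∀ x, g x = β' / (∑ y, r y) * r x := ⟨_, fun _ => rfl⟩
  have hg0 : ∀ x, 0 ≤ g x := fun x => by
    rw [hg]
    exact mul_nonneg (div_nonneg hβ0.le hs0.le) (hr0 x)
  have hgs : ∑ x, g x = β' := by
    simp only [hg]
    rw [← Finset.mul_sum]
    field_simp
  have hgp : ∀ ξ x, 2 * g x ≤ ind (Gd ξ x) * p ξ x := by
    intro ξ x
    have h1 : β' / (∑ y, r y) ≤ 1 / 2 := by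
      rw [div_le_iff₀ hs0]
      linarith
    have h2 := mul_le_mul_of_nonneg_right h1 (hr0 x)
    rw [hg]
    linarith [hrp ξ x]
  have hcore := fun ξ => norm_core (p ξ) (Gd ξ) g β' η δ' (hp0 ξ) (hp1 ξ) hβ0 hβ1 hη0 hη1 hδ0 hδ1
    (hbad ξ) hg0 (hgp ξ) hgs
  choose ν1 Λ0 Λ1 c1 c2 c3 c4 c5 c6 c7 c8 c9 using hcore
  have hV0 : ∀ ξ (f : Xs → ℝ), 0 ≤ 5 / β' * ∑ x, ind (Gd ξ x) * f x ^ 2 / p ξ x := fun ξ f =>
    mul_nonneg (div_nonneg (by norm_num) hβ0.le) (Finset.sum_nonneg fun x _ =>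
      div_nonneg (mul_nonneg (ind_nonneg _) (sq_nonneg _)) (hp0 ξ x))
  refine ⟨fun t => t.elim (fun x => g x / β') ν1,
    fun t ξ => t.elim (Λ0 ξ) fun b => if b = ξ then Λ1 ξ else 0, ?_, ?_, ?_, ?_, ?_, ?_⟩
  · rintro (_ | b) x
    · exact div_nonneg (hg0 x) hβ0.le
    · exact c1 b x
  · rintro (_ | b)
    · show ∑ x, g x / β' = 1
      rw [← Finset.sum_div, hgs, div_self hβ0.ne']
    · exact c2 b
  · rintro (_ | b) ξ f
    · exact c3 ξ f
    · show ∑ x, ν1 b x * (if b = ξ then Λ1 ξ else 0) f x = 0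
      by_cases h : b = ξ
      · rw [if_pos h, h]
        exact c4 ξ f
      · rw [if_neg h]
        simp
  · rintro (_ | b) ξ f
    · exact c5 ξ f
    · show ∑ x, ν1 b x * (if b = ξ then Λ1 ξ else 0) f x ^ 2 ≤ _
      by_cases h : b = ξ
      · rw [if_pos h, h]
        exact c6 ξ f
      · rw [if_neg h]
        simpa using hV0 ξ f
  · rintro (_ | b) ξ f hf x
    · exact c7 ξ f hf x
    · show |(if b = ξ then Λ1 ξ else 0) f x| ≤ _
      by_cases h : b = ξ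
      · rw [if_pos h]
        exact c8 ξ f hf x
      · rw [if_neg h]
        simp only [LinearMap.zero_apply, Pi.zero_apply, abs_zero]
        linarith
  · intro ξ q h1 h2 h3 h4 x
    show (1 - 10 * η) * (β' * (g x / β' * (1 + Λ0 ξ (q - p ξ) x)) +
      (1 - β') * (ν1 ξ x * (1 + (if ξ = ξ then Λ1 ξ else 0) (q - p ξ) x))) ≤ q x
    rw [if_pos rfl]
    exact c9 ξ q h1 h2 h3 h4 x

end Pool.Agent.Lib.MP_343fe0_pr
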