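import Pool.Agent.Lib.MP_343fe0_pr.Step
import Pool.Agent.Lib.MP_343fe0_pr.GammaA
import Pool.Agent.Lib.MP_343fe0_pr.Gamma2
import Pool.Agent.Lib.MP_343fe0_pr.Hoeff
import Pool.Agent.Lib.MP_343fe0_pr.Good

set_option autoImplicit false

/-! The first step, non-asymptotic form: background without defects, one defect per defective block. -/

namespace Pool.Agent.Lib.MP_343fe0_pr

open Finset

lemma pkgFirst_ZS_empty {m : ℕ} (X : Model m) (M K : ℕ) (c : ℕ → Ctx X.a) (o : ℕ → X.Tok) (R : ℕ)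
    (ℓ : Lab X.a) :
    X.ZS M K ∅ {0} ∅ c o R ℓ = gg (2 * X.a + 1) (K * LL X.a M) c R ℓ := by
  have h : arrS ∅ {0} ∅ = fun _ => (∅ : Finset ℕ) := by
    funext i
    simp [arrS]
  unfold Model.ZS
  rw [h]
  exact X.ZP_empty M (2 * X.a + 1) K c o R ℓ

lemma pkgFirst_ZS_nonneg {m : ℕ} (X : Model m) (M K : ℕ) (S : Finset ℕ) (c : ℕ → Ctx X.a)
    (o : ℕ → X.Tok) (R : ℕ) (ℓ : Lab X.a) : 0 ≤ X.ZS M K ∅ {0} S c o R ℓ :=
  X.Zf_nonneg _ _ _ c o R ℓ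

lemma pkgFirst_ZS_le {m : ℕ} (hm : 1 ≤ m) (X : Model m) {m' M : ℕ} (K : ℕ) (hM : 2 ≤ M) {δ : ℝ}
    (hδ0 : 0 ≤ δ) (hδ : ∀ c ξ S o, |X.D c ξ S o| ≤ δ) (S : Finset ℕ) (hS : Adm m' S)
    (c : ℕ → Ctx X.a) (o : ℕ → X.Tok) (R : ℕ) (ℓ : Lab X.a) :
    X.ZS M K ∅ {0} S c o R ℓ ≤ (1 + δ) ^ (2 * m') * gg (2 * X.a + 1) (K * LL X.a M) c R ℓ := by
  have hP : ∀ i, arrS ∅ {0} S i ⊆ range m := by
    intro i
    unfold arrS
    split_ifs
    · intro x hx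
      rw [Finset.mem_singleton] at hx
      rw [Finset.mem_range]
      omega
    · exact Finset.empty_subset _
  have hT : ∀ i < K, i ∉ S → arrS ∅ {0} S i = ∅ := by
    intro i _ hi
    simp [arrS, hi]
  have h1 := X.ZP_le_gg (K := K) hM le_rfl hP hδ S hT c o R ℓ
  refine le_trans h1 (mul_le_mul_of_nonneg_right ?_ (gg_nonneg _ _ _ _ _))
  exact pow_le_pow_right₀ (by linarith) (by have := hS.card_le; omega)

/-- The good event of the first step. -/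
def pkgFirst_Gd {m : ℕ} (X : Model m) (m' M : ℕ) (b δ' : ℝ) (K : ℕ) (c : ℕ → Ctx X.a)
    (o : ℕ → X.Tok) (R : ℕ) (ℓ : Lab X.a) : Prop :=
  Good X.β b (2 * X.a + 1) (K * LL X.a M) c R ℓ ∧ ∀ S, S ⊆ range K → Adm m' S →
    |X.ZS M K ∅ {0} S c o R ℓ - gg (2 * X.a + 1) (K * LL X.a M) c R ℓ| ≤
      δ' * gg (2 * X.a + 1) (K * LL X.a M) c R ℓ

lemma pkgFirst_bad {m : ℕ} (hm : 1 ≤ m) (X : Model m) (m' : ℕ) (hm' : 1 ≤ m') {M K N : ℕ} {b : ℝ}
    (G : X.Geo M K (2 * X.a + 1) N b) {δ : ℝ} (hδ0 : 0 < δ) (hδ : ∀ c ξ S o, |X.D c ξ S o| ≤ δ)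
    (δ1 : ℝ) (hδ1 : 0 < δ1) (S : Finset ℕ) (hS : Adm m' S) :
    X.Tot N (fun c o R ℓ => ind (¬ pkgFirst_Gd X m' M b (2 * m' * (1 + δ) ^ (2 * m') * δ1) K c o R ℓ) *
        X.ZS M K ∅ {0} S c o R ℓ) ≤
      badB X.β b M N + (1 + δ) ^ (2 * m') * ((K : ℝ) * 2 ^ m' * (δ *
        (2 * Real.exp (-(δ1 ^ 2 * X.β * √(M : ℝ) / (1280 * δ ^ 2 * (2 * (X.a : ℝ) + 1)))) +
          badB X.β b M N)) / δ1) := by
  have h1 := X.bad_bound G
  have h2 := X.hoeff_all hm m' hm' G hδ0 hδ δ1 hδ1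
  have h3 : X.Tot N (fun c o R ℓ => ind (¬ Good X.β b (2 * X.a + 1) (K * LL X.a M) c R ℓ) *
      X.ZS M K ∅ {0} S c o R ℓ) ≤ badB X.β b M N := by
    have h4 := X.Tot_marginal N (tauP X.a M (arrS ∅ {0} S)) (2 * X.a + 1) (K * LL X.a M)
      (fun c R ℓ => ind (¬ Good X.β b (2 * X.a + 1) (K * LL X.a M) c R ℓ))
    exact le_trans (le_of_eq h4) h1
  have hp : 0 ≤ (1 + δ) ^ (2 * m') := by positivity
  refine le_trans ?_ (add_le_add h3 (mul_le_mul_of_nonneg_left h2 hp))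
  rw [← X.Tot_mul_left N, ← X.Tot_plus N]
  apply X.Tot_mono N
  intro c o R ℓ
  have hZ0 := pkgFirst_ZS_nonneg X M K S c o R ℓ
  have hZ1 := pkgFirst_ZS_le hm X K G.hM hδ0.le hδ S hS c o R ℓ
  have hg0 := gg_nonneg (2 * X.a + 1) (K * LL X.a M) R c ℓ
  by_cases hG : Good X.β b (2 * X.a + 1) (K * LL X.a M) c R ℓ
  · by_cases hE : ∃ S, S ⊆ range K ∧ Adm m' S ∧
        2 * m' * (1 + δ) ^ (2 * m') * δ1 * gg (2 * X.a + 1) (K * LL X.a M) c R ℓ <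
          |X.ZS M K ∅ {0} S c o R ℓ - gg (2 * X.a + 1) (K * LL X.a M) c R ℓ|
    · rw [ind_true hE, ind_false (not_not.mpr hG)]
      have h5 := mul_le_mul_of_nonneg_right (ind_le_one
        (¬ pkgFirst_Gd X m' M b (2 * m' * (1 + δ) ^ (2 * m') * δ1) K c o R ℓ)) hZ0
      linarith
    · have hGd : pkgFirst_Gd X m' M b (2 * m' * (1 + δ) ^ (2 * m') * δ1) K c o R ℓ := by
        refine ⟨hG, fun S' h1 h2 => ?_⟩
        by_contra hlt
        exact hE ⟨S', h1, h2, not_le.mp hlt⟩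
      rw [ind_false hE, ind_false (not_not.mpr hG), ind_false (not_not.mpr hGd)]
      simp
  · rw [ind_true hG]
    have h5 := mul_le_mul_of_nonneg_right (ind_le_one
      (¬ pkgFirst_Gd X m' M b (2 * m' * (1 + δ) ^ (2 * m') * δ1) K c o R ℓ)) hZ0
    have h6 := mul_nonneg hp (mul_nonneg (ind_nonneg (∃ S, S ⊆ range K ∧ Adm m' S ∧
        2 * m' * (1 + δ) ^ (2 * m') * δ1 * gg (2 * X.a + 1) (K * LL X.a M) c R ℓ <
          |X.ZS M K ∅ {0} S c o R ℓ - gg (2 * X.a + 1) (K * LL X.a M) c R ℓ|)) hg0)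
    linarith

lemma pkgFirst_hit (m a : ℕ) (C0 : ℝ) (hC0 : 0 ≤ C0) (t : Fin 6) :
    hh m a C0 C0 C0 (item false ∅ {0} t) ≤ hA m a C0 C0 := by
  have hk : 0 ≤ kk m := by unfold kk; positivity
  have h5 : (0 : ℝ) ≤ 5 / ((a : ℝ) + 1) := by positivity
  unfold hh hA
  refine mul_le_mul_of_nonneg_left (mul_le_mul_of_nonneg_left ?_ hk) h5
  fin_cases t <;> simp [item, one0, one1, two, alB] <;> linarith

/-- The weights of the next level. -/
lemma pkgFirst_w (m m' : ℕ) : ∃ C : ℝ, 0 < C ∧ ∀ (X : Model m) (C0 : ℝ) (M K N : ℕ) (b δ' : ℝ),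
    X.Bd C0 C0 C0 C0 → 1 ≤ m → X.Geo M K (2 * X.a + 1) N b →
    64 * hA m X.a C0 C0 * √((K : ℝ) + 1) ≤ √(X.β * M) →
    ∃ w : Bool → ℤ → ℝ, (∀ e u, 0 ≤ w e u) ∧
      (∀ u, w false u ≤ C * (hA m X.a C0 C0 / (X.β * √(M : ℝ)))) ∧
      (∀ e (s : Finset ℤ), ∑ u ∈ s, w e u ≤
        if e then C * (hA m X.a C0 C0 ^ 2 * √(K : ℝ) / (X.β * √X.β * M))
        else C * (hA m X.a C0 C0 * √(K : ℝ) / (X.β * √(M : ℝ)))) ∧
      ∀ e G, G ⊆ range m' → ∀ (s : Finset ℤ) (x : ℤ → ℝ),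
        X.Tot N (fun c o R ℓ => ind (pkgFirst_Gd X m' M b δ' K c o R ℓ) *
          (∑ u ∈ s, x u * X.dZ M K ∅ {0} e G u c o R ℓ) ^ 2 / X.ZS M K ∅ {0} ∅ c o R ℓ) ≤
          ∑ u ∈ s, w e u * x u ^ 2 := by
  obtain ⟨CA, hCA, HA⟩ := gammaA m m'
  obtain ⟨C2, hC2, H2⟩ := gamma2 m m'
  refine ⟨CA + C2, by positivity, ?_⟩
  intro X C0 M K N b δ' hB hm G hch
  have hC0 : 0 ≤ C0 := hB.nonneg.1
  have hyp : GamHyp m' X C0 C0 C0 C0 ∅ {0} false M K N b 1 (hA m X.a C0 C0) 0 :=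
    { bd := hB
      geo := G
      hF := Finset.empty_subset _
      hF' := by
        intro x hx
        rw [Finset.mem_singleton] at hx
        rw [Finset.mem_range]
        omega
      hch := hch
      hθ := one_pos
      hθ1 := le_rfl
      hit := fun t => pkgFirst_hit m X.a C0 hC0 t
      hTV := le_rfl
      hcard := fun h => absurd h (by simp)
      hδ := fun h => absurd h (by simp)
      hlin := fun h => absurd h (by simp) }
  obtain ⟨wA, hA0, hA1, hA2, hA3⟩ := HA X C0 C0 C0 C0 ∅ {0} false M K N b 1 _ 0 hyp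
  obtain ⟨w2, h20, h22, h23⟩ := H2 X C0 C0 C0 C0 ∅ {0} false M K N b 1 _ 0 hyp
  have hh0 : 0 ≤ hA m X.a C0 C0 := by
    have hk : 0 ≤ kk m := by unfold kk; positivity
    unfold hA
    positivity
  have hβ := X.β_pos
  have hmono : ∀ (e : Bool) (G : Finset ℕ) (s : Finset ℤ) (x : ℤ → ℝ),
      X.Tot N (fun c o R ℓ => ind (pkgFirst_Gd X m' M b δ' K c o R ℓ) *
          (∑ u ∈ s, x u * X.dZ M K ∅ {0} e G u c o R ℓ) ^ 2 / X.ZS M K ∅ {0} ∅ c o R ℓ) ≤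
      X.Tot N (fun c o R ℓ => ind (Good X.β b (2 * X.a + 1) (K * LL X.a M) c R ℓ ∧
            1 * gg (2 * X.a + 1) (K * LL X.a M) c R ℓ ≤ X.ZS M K ∅ {0} ∅ c o R ℓ) *
          (∑ u ∈ s, x u * X.dZ M K ∅ {0} e G u c o R ℓ) ^ 2 / X.ZS M K ∅ {0} ∅ c o R ℓ) := by
    intro e G s x
    apply X.Tot_mono N
    intro c o R ℓ
    refine div_le_div_of_nonneg_right ?_ (pkgFirst_ZS_nonneg X M K ∅ c o R ℓ)
    refine mul_le_mul_of_nonneg_right (ind_mono fun h => ⟨h.1, ?_⟩) (sq_nonneg _)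
    rw [pkgFirst_ZS_empty, one_mul]
  refine ⟨fun e => if e then w2 else wA, ?_, ?_, ?_, ?_⟩
  · intro e u
    cases e
    · exact hA0 u
    · exact h20 u
  · intro u
    have h1 := hA1 u
    simp only [mul_zero, add_zero, one_mul] at h1
    have h2 : 0 ≤ C2 * (hA m X.a C0 C0 / (X.β * √(M : ℝ))) := by positivity
    show wA u ≤ _
    linarith
  · intro e s
    cases e
    · have h1 := hA2 s
      simp only [mul_zero, add_zero, one_mul] at h1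
      have h2 : 0 ≤ C2 * (hA m X.a C0 C0 * √(K : ℝ) / (X.β * √(M : ℝ))) := by positivity
      show ∑ u ∈ s, wA u ≤ (CA + C2) * (hA m X.a C0 C0 * √(K : ℝ) / (X.β * √(M : ℝ)))
      linarith
    · have h1 := h22 s
      simp only [mul_zero, add_zero, one_mul] at h1
      have h2 : 0 ≤ CA * (hA m X.a C0 C0 ^ 2 * √(K : ℝ) / (X.β * √X.β * M)) := by positivity
      show ∑ u ∈ s, w2 u ≤ (CA + C2) * (hA m X.a C0 C0 ^ 2 * √(K : ℝ) / (X.β * √X.β * M))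
      linarith
  · intro e G hG s x
    cases e
    · exact le_trans (hmono false G s x) (hA3 G hG s x)
    · exact le_trans (hmono true G s x) (h23 G hG s x)

/-- The numerical part of the bad-set bound. -/
lemma pkgFirst_num (p t C0 a' K E E' B δ1 η : ℝ) (hp : 0 ≤ p) (ht : 0 ≤ t) (hC0 : 0 ≤ C0)
    (ha : 1 ≤ a') (hK : K ≤ 3 * a') (hE0 : 0 ≤ E) (hE : E ≤ E') (hB : 0 ≤ B)
    (hδ0 : 0 < δ1) (hδ1 : δ1 ≤ 1) (hη : a' * (E' + B) / δ1 ≤ η) :
    B ≤ η ∧ B + p * (K * t * (C0 * (2 * E + B)) / δ1) ≤ (1 + 6 * p * t * C0) * η := by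
  have hE'0 : 0 ≤ E' := le_trans hE0 hE
  have h1 : B ≤ η := by
    refine le_trans ?_ hη
    rw [le_div_iff₀ hδ0]
    nlinarith [mul_nonneg (sub_nonneg.mpr ha) (add_nonneg hE'0 hB), mul_nonneg hB (sub_nonneg.mpr hδ1)]
  refine ⟨h1, ?_⟩
  have h2 : K * t * (C0 * (2 * E + B)) / δ1 ≤ 6 * t * C0 * (a' * (E' + B) / δ1) := by
    rw [← mul_div_assoc]
    refine div_le_div_of_nonneg_right ?_ hδ0.le
    have h3 : K * (2 * E + B) ≤ (3 * a') * (2 * (E' + B)) :=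
      mul_le_mul hK (by linarith) (by linarith) (by linarith)
    have h4 := mul_le_mul_of_nonneg_left h3 (mul_nonneg ht hC0)
    nlinarith
  have h5 : 6 * t * C0 * (a' * (E' + B) / δ1) ≤ 6 * t * C0 * η :=
    mul_le_mul_of_nonneg_left hη (by positivity)
  have h6 := mul_le_mul_of_nonneg_left (le_trans h2 h5) hp
  nlinarith

/-- The numerical part of the chain condition. -/
lemma pkgFirst_ch (H0 a β c M K : ℝ) (hH : 0 < H0) (ha : 0 ≤ a)
    (hc : c ≤ β / (131072 * H0 ^ 2)) (hM : 0 ≤ M) (hK0 : 0 ≤ K)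
    (hK : K + 1 ≤ 8 * c * (2 * a + 1) ^ 2 * M) :
    64 * (H0 / (a + 1)) * √(K + 1) ≤ √(β * M) := by
  have h0 : 0 ≤ 64 * (H0 / (a + 1)) := by positivity
  apply Real.le_sqrt_of_sq_le
  rw [mul_pow, Real.sq_sqrt (by linarith)]
  have h1 : (64 * (H0 / (a + 1))) ^ 2 * (2 * a + 1) ^ 2 ≤ 16384 * H0 ^ 2 := by
    have h2 : 64 * (H0 / (a + 1)) * (2 * a + 1) ≤ 128 * H0 := by
      have h3 : H0 / (a + 1) * (a + 1) = H0 := by field_simp
      have h4 : 0 ≤ H0 / (a + 1) := by positivity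
      nlinarith
    rw [← mul_pow]
    have h5 := pow_le_pow_left₀ (by positivity) h2 2
    nlinarith
  have h6 : c * (131072 * H0 ^ 2) ≤ β := by
    rwa [le_div_iff₀ (by positivity)] at hc
  have hcM : 0 ≤ 8 * c * M := by
    by_contra hneg
    have h7 : 8 * c * M < 0 := not_le.mp hneg
    have h8 : 0 < (2 * a + 1) ^ 2 := by positivity
    nlinarith
  calc (64 * (H0 / (a + 1))) ^ 2 * (K + 1)
      ≤ (64 * (H0 / (a + 1))) ^ 2 * (8 * c * (2 * a + 1) ^ 2 * M) :=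
        mul_le_mul_of_nonneg_left hK (sq_nonneg _)
    _ = ((64 * (H0 / (a + 1))) ^ 2 * (2 * a + 1) ^ 2) * (8 * c * M) := by ring
    _ ≤ 16384 * H0 ^ 2 * (8 * c * M) := mul_le_mul_of_nonneg_right h1 hcM
    _ = (c * (131072 * H0 ^ 2)) * M := by ring
    _ ≤ β * M := mul_le_mul_of_nonneg_right h6 hM

/-- The numerical part of the bounds on the weights. -/
lemma pkgFirst_wt (H0 a β M K : ℝ) (hH : 0 < H0) (ha : 0 ≤ a) (hβ : 0 < β) (hM : 0 < M)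
    (hK : K ≤ (2 * a + 1) ^ 2 * M) :
    H0 / (a + 1) / (β * √M) ≤ H0 / β / √M ∧
    H0 / (a + 1) * √K / (β * √M) ≤ 2 * H0 / β ∧
    (H0 / (a + 1)) ^ 2 * √K / (β * √β * M) ≤ 2 * H0 ^ 2 / (β * √β) / √M := by
  have hs : 0 < √M := Real.sqrt_pos.mpr hM
  have hsβ : 0 < √β := Real.sqrt_pos.mpr hβ
  have h0 : 0 ≤ H0 / (a + 1) := by positivity
  have h1 : H0 / (a + 1) ≤ H0 := div_le_self hH.le (by linarith)
  have h2 : √K ≤ (2 * a + 1) * √M := by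
    apply Real.sqrt_le_iff.mpr
    refine ⟨by positivity, ?_⟩
    rw [mul_pow, Real.sq_sqrt hM.le]
    exact hK
  have h3 : H0 / (a + 1) * √K ≤ 2 * H0 * √M := by
    have h4 : H0 / (a + 1) * (a + 1) = H0 := by field_simp
    have h5 : H0 / (a + 1) * (2 * a + 1) ≤ 2 * H0 := by nlinarith
    calc H0 / (a + 1) * √K ≤ H0 / (a + 1) * ((2 * a + 1) * √M) := mul_le_mul_of_nonneg_left h2 h0
      _ = H0 / (a + 1) * (2 * a + 1) * √M := by ring
      _ ≤ 2 * H0 * √M := mul_le_mul_of_nonneg_right h5 hs.le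
  refine ⟨?_, ?_, ?_⟩
  · rw [div_div H0 β]
    exact div_le_div_of_nonneg_right h1 (by positivity)
  · rw [div_le_div_iff₀ (by positivity) hβ]
    have h6 := mul_le_mul_of_nonneg_right h3 hβ.le
    nlinarith
  · have h7 : (H0 / (a + 1)) ^ 2 * √K ≤ 2 * H0 ^ 2 * √M := by
      have h8 := mul_le_mul h1 h3 (by positivity) hH.le
      nlinarith
    have h9 : 2 * H0 ^ 2 / (β * √β) / √M = 2 * H0 ^ 2 * √M / (β * √β * M) := by
      have h10 : √M * √M = M := Real.mul_self_sqrt hM.le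
      rw [div_div, div_eq_div_iff (by positivity) (by positivity)]
      calc 2 * H0 ^ 2 * (β * √β * M) = 2 * H0 ^ 2 * (β * √β * (√M * √M)) := by rw [h10]
        _ = 2 * H0 ^ 2 * √M * (β * √β * √M) := by ring
    rw [h9]
    exact div_le_div_of_nonneg_right h7 (by positivity)

/-- `step_model` with `F = ∅`, `F' = {0}`, `N = (2a'+1) L`, `δ' = 2 m' (1+C0)^(2m') δ1`,
`Gd K := Good ∧ ∀ S ⊆ range K, Adm m' S → |ZS S - gg| ≤ δ' gg`; here `ZS ∅ = gg` (`ZP_empty`).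
`hbad`: `Tot_marginal` + `bad_bound`, and `ZS S ≤ (1+C0)^(2m') gg` (`ZP_le_gg`) + `hoeff_all` (with `δ := C0`).
`hov`: `overlap` (with `c0 = c`) and `overlap_good` with `q = 1`, `β' = o0 ^ 2 / 100`.
`hw`: `gammaA`, `gamma2` with `lin = false`, `θ = 1`, `TV = 0`, `h = 5 kk (C0 + kk C0 ^ 2) / (a+1)`.
Choose `c ≤ 1/20` so small that `64 hA √(K+1) ≤ √(β M)` for `K + 1 ≤ 4 a' ≤ 8 c (2a+1)^2 M`; `6 M K ≤ L ^ 2` since `K ≤ 3 a'`. -/
theorem pkg_first (m m' : ℕ) (hm : 1 ≤ m) (hm' : 1 ≤ m') (β C0 : ℝ) (hβ : 0 < β) (hC0 : 1 ≤ C0) :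
    ∃ c β' C : ℝ, 0 < c ∧ c ≤ 1 ∧ 0 < β' ∧ 1 ≤ C ∧ ∃ M0 : ℕ,
    ∀ (X : Model m) (M a' : ℕ) (b δ1 η : ℝ), X.β = β → X.Bd C0 C0 C0 C0 → M0 ≤ M →
      c * (2 * (X.a : ℝ) + 1) ^ 2 * M ≤ a' → (a' : ℝ) ≤ 2 * c * (2 * (X.a : ℝ) + 1) ^ 2 * M →
      m' ≤ a' → 0 ≤ b → b + β ≤ β * M / 4 → 0 < δ1 → C * δ1 ≤ 1 →
      (a' : ℝ) * (Real.exp (-(δ1 ^ 2 * √(M : ℝ) / (C * (2 * (X.a : ℝ) + 1)))) +
        badB β b M ((2 * a' + 1) * LL X.a M)) / δ1 ≤ η → C * η ≤ 1 →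
      ∃ X' : Model m', X'.a = a' ∧ X'.β = β' ∧ X'.U = X.blk M ∅ ∧ X'.V = X.blk M {0} ∧
        X'.ε ≤ ((2 * a' + 1) * LL X.a M : ℕ) * X.ε + C * η ∧
        X'.Bd C (C / √(M : ℝ)) (C / √(M : ℝ)) (C * δ1) := by
  have hk : 0 < kk m := by unfold kk; positivity
  have hC00 : 0 < C0 := by linarith
  obtain ⟨H0, hH0⟩ : ∃ H0 : ℝ, H0 = 5 * (kk m * (2 * C0 + kk m * C0 * C0)) := ⟨_, rfl⟩
  have hH : 0 < H0 := by rw [hH0]; positivity
  have hAeq : ∀ a : ℕ, hA m a C0 C0 = H0 / ((a : ℝ) + 1) := by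
    intro a
    unfold hA
    rw [hH0]
    ring
  obtain ⟨c, hcdef⟩ : ∃ c : ℝ, c = min (1 / 20) (β / (131072 * H0 ^ 2)) := ⟨_, rfl⟩
  have hc0 : 0 < c := by rw [hcdef]; exact lt_min (by norm_num) (by positivity)
  have hc1 : c ≤ 1 / 20 := by rw [hcdef]; exact min_le_left _ _
  have hc2 : c ≤ β / (131072 * H0 ^ 2) := by rw [hcdef]; exact min_le_right _ _
  obtain ⟨o0, ho0, ho1, M1, Hov⟩ := overlap β c hβ hc0 (by linarith)
  obtain ⟨CW, hCW, HW⟩ := pkgFirst_w m m'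
  obtain ⟨p, hpdef⟩ : ∃ p : ℝ, p = (1 + C0) ^ (2 * m') := ⟨_, rfl⟩
  have hp : 0 < p := by rw [hpdef]; positivity
  obtain ⟨B, hBdef⟩ : ∃ B : ℝ, B = 1 + 6 * p * 2 ^ m' * C0 := ⟨_, rfl⟩
  have hB : 0 < B := by rw [hBdef]; positivity
  obtain ⟨β', hβ'def⟩ : ∃ β' : ℝ, β' = o0 ^ 2 / 100 := ⟨_, rfl⟩
  have hβ' : 0 < β' := by rw [hβ'def]; positivity
  have hβ'1 : β' ≤ 1 / 100 := by
    rw [hβ'def]
    have : o0 ^ 2 ≤ 1 := pow_le_one₀ ho0.le ho1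
    linarith
  have hsβ : 0 < √β := Real.sqrt_pos.mpr hβ
  have hm'0 : (0 : ℝ) < m' := by exact_mod_cast hm'
  have t1 : 0 < 1280 * C0 ^ 2 / β := by positivity
  have t2 : 0 < B / β' := by positivity
  have t3 : 0 < 8 * m' * p := by positivity
  have t4 : 0 < 5 / β' * (CW * (2 * H0 / β)) := by positivity
  have t5 : 0 < 5 / β' * (CW * (2 * H0 ^ 2 / (β * √β))) := by positivity
  obtain ⟨C, hCdef⟩ : ∃ C : ℝ, C = 5 + 1280 * C0 ^ 2 / β + B / β' + 8 * m' * p +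
    5 / β' * (CW * (2 * H0 / β)) + 5 / β' * (CW * (2 * H0 ^ 2 / (β * √β))) := ⟨_, rfl⟩
  have u0 : 5 ≤ C := by linarith
  have u1 : 1280 * C0 ^ 2 / β ≤ C := by linarith
  have u2 : B / β' ≤ C := by linarith
  have u3 : 8 * m' * p ≤ C := by linarith
  have u4 : 5 / β' * (CW * (2 * H0 / β)) ≤ C := by linarith
  have u5 : 5 / β' * (CW * (2 * H0 ^ 2 / (β * √β))) ≤ C := by linarith
  have hC : 0 < C := by linarith
  refine ⟨c, β', C, hc0, by linarith, hβ', by linarith, max 2 M1, ?_⟩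
  intro X M a' b δ1 η hXβ hBd hM hlo hhi hma hb0 hb hδ0 hδC hη hηC
  have hM2 : 2 ≤ M := le_trans (le_max_left _ _) hM
  have hM1 : M1 ≤ M := le_trans (le_max_right _ _) hM
  have hMr : (0 : ℝ) < M := by exact_mod_cast (by omega : 0 < M)
  have hsM : 0 < √(M : ℝ) := Real.sqrt_pos.mpr hMr
  have ha1 : 1 ≤ a' := le_trans hm' hma
  have ha1r : (1 : ℝ) ≤ a' := by exact_mod_cast ha1
  have hXa : (0 : ℝ) ≤ X.a := Nat.cast_nonneg _
  have hA2 : 0 < (2 * (X.a : ℝ) + 1) ^ 2 * M := by positivity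
  have hδ1 : δ1 ≤ 1 := by
    have h1 := mul_le_mul_of_nonneg_right u0 hδ0.le
    linarith only [h1, hδC, hδ0]
  have hKr : ∀ K : ℕ, K ≤ 2 * a' + 1 → (K : ℝ) ≤ 2 * a' + 1 := by
    intro K hK
    exact_mod_cast hK
  have hgeo : ∀ K : ℕ, a' ≤ K → K ≤ 2 * a' + 1 →
      X.Geo M K (2 * X.a + 1) ((2 * a' + 1) * LL X.a M) b := by
    intro K h1 h2
    refine ⟨hM2, by omega, le_rfl, Nat.mul_le_mul_right _ h2, ?_, hb0, by rw [hXβ]; exact hb⟩
    have h3 := hKr K h2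
    have h4 : (K : ℝ) ≤ 6 * c * ((2 * (X.a : ℝ) + 1) ^ 2 * M) := by
      linarith only [h3, hhi, ha1r]
    have h5 : 6 * c * ((2 * (X.a : ℝ) + 1) ^ 2 * M) ≤ 2 / 3 * ((2 * (X.a : ℝ) + 1) ^ 2 * M) :=
      mul_le_mul_of_nonneg_right (by linarith only [hc1]) hA2.le
    have h6 : 6 * (M : ℝ) * K ≤ (2 * ((2 * (X.a : ℝ) + 1) * M)) ^ 2 := by
      have h7 := mul_le_mul_of_nonneg_left (le_trans h4 h5) (by positivity : (0 : ℝ) ≤ 6 * M)
      linarith only [h7]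
    unfold LL HH
    exact_mod_cast h6
  have hexp : Real.exp (-(δ1 ^ 2 * X.β * √(M : ℝ) / (1280 * C0 ^ 2 * (2 * (X.a : ℝ) + 1)))) ≤
      Real.exp (-(δ1 ^ 2 * √(M : ℝ) / (C * (2 * (X.a : ℝ) + 1)))) := by
    apply Real.exp_le_exp.mpr
    rw [neg_le_neg_iff, hXβ, div_le_div_iff₀ (by positivity) (by positivity)]
    have h1 : 1280 * C0 ^ 2 ≤ C * β := by rwa [div_le_iff₀ hβ] at u1
    have h2 := mul_le_mul_of_nonneg_left h1
      (by positivity : 0 ≤ δ1 ^ 2 * √(M : ℝ) * (2 * (X.a : ℝ) + 1))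
    linarith only [h2]
  have hnum : ∀ K : ℕ, K ≤ 2 * a' + 1 → badB β b M ((2 * a' + 1) * LL X.a M) ≤ η ∧
      badB β b M ((2 * a' + 1) * LL X.a M) + p * ((K : ℝ) * 2 ^ m' * (C0 *
        (2 * Real.exp (-(δ1 ^ 2 * X.β * √(M : ℝ) / (1280 * C0 ^ 2 * (2 * (X.a : ℝ) + 1)))) +
          badB β b M ((2 * a' + 1) * LL X.a M))) / δ1) ≤ B * η := by
    intro K hK
    rw [hBdef]
    exact pkgFirst_num p (2 ^ m') C0 a' K _ _ _ δ1 η hp.le (by positivity) hC00.le ha1r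
      (by have h1 := hKr K hK; linarith only [h1, ha1r]) (Real.exp_pos _).le hexp (badB_nonneg _ _ _ _) hδ0 hδ1 hη
  have hη0 : 0 ≤ η := le_trans (badB_nonneg _ _ _ _) (hnum 0 (Nat.zero_le _)).1
  have hη5 : η ≤ 1 / 5 := by
    have h1 := mul_le_mul_of_nonneg_right u0 hη0
    linarith only [h1, hηC]
  have hBC : B ≤ C * β' := by rwa [div_le_iff₀ hβ'] at u2
  have hBη : B * η ≤ β' := by
    have h1 := mul_le_mul_of_nonneg_right hBC hη0
    have h2 := mul_le_mul_of_nonneg_right hηC hβ'.le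
    linarith only [h1, h2]
  have hbad : ∀ K, a' ≤ K → K ≤ 2 * a' + 1 → ∀ S, S ⊆ range K → Adm m' S →
      X.Tot ((2 * a' + 1) * LL X.a M) (fun c o R ℓ =>
        ind (¬ pkgFirst_Gd X m' M b (2 * m' * p * δ1) K c o R ℓ) *
          X.ZS M K ∅ {0} S c o R ℓ) ≤ B * η := by
    intro K h1 h2 S _ hS
    have h3 := pkgFirst_bad hm X m' hm' (hgeo K h1 h2) hC00 hBd.1 δ1 hδ0 S hS
    rw [← hpdef] at h3
    refine le_trans h3 (le_trans (le_of_eq ?_) (hnum K h2).2)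
    rw [hXβ]
  obtain ⟨X', e1, e2, e3, e4, e5, e6⟩ := step_model X m' M a' ((2 * a' + 1) * LL X.a M) ∅ {0}
    (Finset.empty_subset _)
    (by
      intro x hx
      rw [Finset.mem_singleton] at hx
      rw [Finset.mem_range]
      omega)
    (by omega) ha1 hma le_rfl β' (B * η) (2 * m' * p * δ1) (CW * (2 * H0 / β))
    (CW * (H0 / β / √(M : ℝ))) (CW * (2 * H0 ^ 2 / (β * √β) / √(M : ℝ))) hβ' (by linarith only [hβ'1])
    (mul_nonneg hB.le hη0) (by linarith only [hβ'1, hBη]) (by positivity)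
    (by
      have h1 := mul_le_mul_of_nonneg_right u3 hδ0.le
      linarith only [h1, hδC])
    (pkgFirst_Gd X m' M b (2 * m' * p * δ1))
    (by
      intro K c o R ℓ _ _ hG S h1 h2
      rw [pkgFirst_ZS_empty]
      exact hG.2 S h1 h2)
    hbad
    (by
      intro k h1 h2
      have h3 : c * (2 * (X.a : ℝ) + 1) ^ 2 * M ≤ k :=
        le_trans hlo (by exact_mod_cast h1)
      have h4 := Hov m X M k _ b hXβ (hgeo k h1 (by omega)) hM1 h3
        (le_trans (hnum 0 (Nat.zero_le _)).1 hη5)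
      have h5 := overlap_good X ((2 * a' + 1) * LL X.a M) 1 le_rfl o0 (B * η) ho0
        (by rw [← hβ'def]; exact hBη)
        (fun i c _ R ℓ => gg (2 * X.a + 1) ((k + i.toNat) * LL X.a M) c R ℓ)
        (fun i c o R ℓ => X.ZS M (k + i.toNat) ∅ {0} ∅ c o R ℓ)
        (fun i => pkgFirst_Gd X m' M b (2 * m' * p * δ1) (k + i.toNat))
        (fun i c o R ℓ => gg_nonneg _ _ _ _ _)
        (fun i c o R ℓ => pkgFirst_ZS_nonneg X M _ ∅ c o R ℓ)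
        (fun i c o R ℓ h => by rw [pkgFirst_ZS_empty]; exact h)
        (fun i => X.Tot_gg_le _ _ _)
        h4
        (fun i => by
          refine le_trans (X.Tot_mono _ ?_) (le_trans (X.Tot_gg_le ((2 * a' + 1) * LL X.a M)
            (2 * X.a + 1) ((k + i.toNat) * LL X.a M)) (by norm_num))
          intro c o R ℓ
          rw [pkgFirst_ZS_empty, pow_one]
          exact mul_le_of_le_one_right (gg_nonneg _ _ _ _ _) (div_self_le_one _))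
        (fun i => hbad (k + i.toNat) (by omega) (by cases i <;> simp <;> omega) ∅
          (Finset.empty_subset _) (adm_empty _))
      rw [hβ'def]
      exact h5)
    (by
      intro K h1 h2
      have h3 := hKr K h2
      have hch : 64 * hA m X.a C0 C0 * √((K : ℝ) + 1) ≤ √(X.β * M) := by
        rw [hAeq, hXβ]
        exact pkgFirst_ch H0 X.a β c M K hH hXa hc2 hMr.le (Nat.cast_nonneg _)
          (by linarith only [h3, hhi, ha1r])
      obtain ⟨w, w0, w1, w2, w3⟩ := HW X C0 M K _ b (2 * m' * p * δ1) hBd hm (hgeo K h1 h2) hch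
      have h4 : (K : ℝ) ≤ (2 * (X.a : ℝ) + 1) ^ 2 * M := by
        have h5 : (K : ℝ) ≤ 6 * c * ((2 * (X.a : ℝ) + 1) ^ 2 * M) := by
          linarith only [h3, hhi, ha1r]
        have h6 : 6 * c * ((2 * (X.a : ℝ) + 1) ^ 2 * M) ≤ 1 * ((2 * (X.a : ℝ) + 1) ^ 2 * M) :=
          mul_le_mul_of_nonneg_right (by linarith only [hc1]) hA2.le
        linarith only [h5, h6]
      obtain ⟨v1, v2, v3⟩ := pkgFirst_wt H0 X.a β M K hH hXa hβ hMr h4
      rw [hAeq, hXβ] at w1 w2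
      refine ⟨w, w0, fun u => le_trans (w1 u) (mul_le_mul_of_nonneg_left v1 hCW.le), ?_, w3⟩
      intro e s
      refine le_trans (w2 e s) ?_
      cases e
      · exact mul_le_mul_of_nonneg_left v2 hCW.le
      · exact mul_le_mul_of_nonneg_left v3 hCW.le)
  refine ⟨X', e1, e2, e3, e4, le_trans e5 ?_, e6.mono u4 ?_ ?_ ?_⟩
  · have h1 := mul_le_mul_of_nonneg_left hβ'1 hC.le
    have h2 : 10 * B ≤ C := by linarith only [h1, hBC, hB]
    have h3 := mul_le_mul_of_nonneg_right h2 hη0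
    linarith only [h3]
  · rw [le_div_iff₀ hsM]
    have h1 : 5 / β' * (CW * (H0 / β / √(M : ℝ))) * √(M : ℝ) = 5 / β' * (CW * (H0 / β)) := by
      field_simp
    have h2 : 5 / β' * (CW * (2 * H0 / β)) = 2 * (5 / β' * (CW * (H0 / β))) := by ring
    rw [h1]
    linarith only [h2, u4, t4]
  · rw [le_div_iff₀ hsM]
    have h1 : 5 / β' * (CW * (2 * H0 ^ 2 / (β * √β) / √(M : ℝ))) * √(M : ℝ) =
        5 / β' * (CW * (2 * H0 ^ 2 / (β * √β))) := by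
      field_simp
    rw [h1]
    exact u5
  · have h1 := mul_le_mul_of_nonneg_right u3 hδ0.le
    linarith only [h1]

end Pool.Agent.Lib.MP_343fe0_pr
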