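import Pool.Agent.Lib.MP_343fe0_pr.RenA
import Pool.Agent.Lib.MP_343fe0_pr.Comp
import Pool.Agent.Lib.MP_343fe0_pr.Main2
import Pool.Agent.Lib.MP_343fe0_pr.Good

set_option autoImplicit false

/-! Negative moments of the likelihood ratio of the background. -/

namespace Pool.Agent.Lib.MP_343fe0_pr

open Finset

namespace Model

variable {m : ℕ} (X : Model m)

lemma renyi_ZP_nonneg (M s K : ℕ) (P : ℕ → Finset ℕ) (c : ℕ → Ctx X.a) (o : ℕ → X.Tok) (R : ℕ)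
    (ℓ : Lab X.a) : 0 ≤ X.ZP M s K P c o R ℓ := X.Zf_nonneg _ _ _ _ _ _ _

lemma Ren_nonneg (M N : ℕ) (F : Finset ℕ) (q k s : ℕ) : 0 ≤ X.Ren M N F q k s := by
  refine X.Tot_nonneg N fun c o R ℓ => ?_
  have h1 := gg_nonneg s (k * LL X.a M) R c ℓ
  have h2 := X.renyi_ZP_nonneg M s k (fun _ => F) c o R ℓ
  positivity

lemma renyi_delta_nonneg {δ : ℝ} (hδ : ∀ c ξ S o, |X.D c ξ S o| ≤ δ) : 0 ≤ δ :=
  (abs_nonneg _).trans (hδ default false ∅ default)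

lemma renyi_Zf_pos {δ : ℝ} (hδ : ∀ c ξ S o, |X.D c ξ S o| ≤ δ) (hδ1 : δ < 1) (τ : ℕ → Bool)
    {s E : ℕ} {c : ℕ → Ctx X.a} (o : ℕ → X.Tok) {R : ℕ} {ℓ : Lab X.a} (h : 0 < gg s E c R ℓ) :
    0 < X.Zf τ s E c o R ℓ := by
  have h1 : 0 < 1 - δ := by linarith
  have key : (1 - δ) ^ R * gg s E c R ℓ ≤ X.Zf τ s E c o R ℓ := by
    unfold gg Zf QX
    rw [← EX_mul_left]
    refine EX_mono (fun r θ => pr_nonneg (by norm_num) (by norm_num) (c r) θ) R fun ξ => ?_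
    rw [mul_comm]
    refine mul_le_mul_of_nonneg_left ?_ (ind_nonneg _)
    calc (1 - δ) ^ R = ∏ _r ∈ range R, (1 - δ) := by rw [prod_const, card_range]
      _ ≤ _ := prod_le_prod (fun _ _ => h1.le) fun r _ => by
          have := (abs_le.1 (hδ (c r) (ξ r) (dset τ (pos s c ξ r) (stp (c r) (ξ r))) (o r))).1
          linarith
  exact lt_of_lt_of_le (by positivity) key

lemma renyi_L_ge {M : ℕ} (hM : 1 ≤ M) : 2 * (2 * X.a + 1) ≤ LL X.a M := by
  unfold LL HH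
  have : (2 * X.a + 1) * 1 ≤ (2 * X.a + 1) * M := Nat.mul_le_mul_left _ hM
  omega

/-- `Tot_comp` with `ι = Bool`, `τ false = fun _ => false`, `τ true = tauP .. (fun _ => F)`, `Φ v = v false * (v false / v true) ^ q`,
`Cn v := 0 ≤ v false ∧ 0 ≤ v true ∧ (0 < v false → 0 < v true)` (`persp_subadd`; positivity holds for every start and end since
all factors `1 + D` are positive); `Φ` is multiplicative; translate by `k1 * L` (`Zf_shift`, `tauP_shift`). -/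
theorem ren_sub {M N : ℕ} (hM : 1 ≤ M) (F : Finset ℕ) {δ : ℝ} (hδ : ∀ c ξ S o, |X.D c ξ S o| ≤ δ)
    (hδ1 : δ < 1) (q k1 k2 s : ℕ) (hk1 : 1 ≤ k1) (hk2 : 1 ≤ k2) (hs : s ≤ 2 * X.a + 1) (B : ℝ)
    (hB : ∀ s' ≤ 2 * X.a + 1, X.Ren M N F q k2 s' ≤ B) :
    X.Ren M N F q (k1 + k2) s ≤ X.Ren M N F q k1 s * B := by
  have hL := X.renyi_L_ge hM
  have hk1L : 1 * LL X.a M ≤ k1 * LL X.a M := Nat.mul_le_mul_right _ hk1
  have hk2L : 1 * LL X.a M ≤ k2 * LL X.a M := Nat.mul_le_mul_right _ hk2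
  have hE : (k1 + k2) * LL X.a M = k1 * LL X.a M + k2 * LL X.a M := by ring
  have key := X.Tot_comp (ι := Bool) N (fun v => v false * (v false / v true) ^ q)
    (fun v => 0 ≤ v false ∧ 0 ≤ v true ∧ (0 < v false → 0 < v true))
    (fun v hv => by
      obtain ⟨h1, h2, -⟩ := hv
      positivity)
    (fun J v hv => persp_subadd q J (fun j => v j false) (fun j => v j true)
      (fun j hj => (hv j hj).1) (fun j hj => (hv j hj).2.1) (fun j hj => (hv j hj).2.2))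
    (fun i => cond i (tauP X.a M fun _ => F) fun _ => false)
    (s := s) (E1 := k1 * LL X.a M) (E2 := (k1 + k2) * LL X.a M) (by omega) (by omega)
    (fun c o R ℓ c' o' R' ℓ' => by
      refine ⟨mul_nonneg (X.Zf_nonneg _ _ _ _ _ _ _) (X.Zf_nonneg _ _ _ _ _ _ _),
        mul_nonneg (X.Zf_nonneg _ _ _ _ _ _ _) (X.Zf_nonneg _ _ _ _ _ _ _), fun h => ?_⟩
      simp only [cond_false, X.Zf_false] at h
      have g1 := gg_nonneg s (k1 * LL X.a M) R c ℓ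
      have g2 := gg_nonneg (k1 * LL X.a M + ℓ.1.val) ((k1 + k2) * LL X.a M) R' c' ℓ'
      have p1 : 0 < gg s (k1 * LL X.a M) c R ℓ := by
        rcases g1.eq_or_lt with e | e
        · rw [← e, zero_mul] at h; exact absurd h (lt_irrefl _)
        · exact e
      have p2 : 0 < gg (k1 * LL X.a M + ℓ.1.val) ((k1 + k2) * LL X.a M) c' R' ℓ' := by
        rcases g2.eq_or_lt with e | e
        · rw [← e, mul_zero] at h; exact absurd h (lt_irrefl _)
        · exact e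
      exact mul_pos (X.renyi_Zf_pos hδ hδ1 _ o p1) (X.renyi_Zf_pos hδ hδ1 _ o' p2))
  simp only [cond_false, cond_true] at key
  have e0 : X.Ren M N F q (k1 + k2) s = X.Tot N fun c o R ℓ =>
      X.Zf (fun _ => false) s ((k1 + k2) * LL X.a M) c o R ℓ *
        (X.Zf (fun _ => false) s ((k1 + k2) * LL X.a M) c o R ℓ /
          X.Zf (tauP X.a M fun _ => F) s ((k1 + k2) * LL X.a M) c o R ℓ) ^ q := by
    simp only [X.Zf_false]
    rfl
  rw [e0]
  refine key.trans ?_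
  rw [mul_comm _ B, Ren, ← X.Tot_mul_left]
  refine X.Tot_mono N fun c o R ℓ => ?_
  have e1 : (fun c' o' R' ℓ' => X.Zf (fun _ => false) s (k1 * LL X.a M) c o R ℓ *
        X.Zf (fun _ => false) (k1 * LL X.a M + ℓ.1.val) ((k1 + k2) * LL X.a M) c' o' R' ℓ' *
      (X.Zf (fun _ => false) s (k1 * LL X.a M) c o R ℓ *
          X.Zf (fun _ => false) (k1 * LL X.a M + ℓ.1.val) ((k1 + k2) * LL X.a M) c' o' R' ℓ' /
        (X.Zf (tauP X.a M fun _ => F) s (k1 * LL X.a M) c o R ℓ *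
          X.Zf (tauP X.a M fun _ => F) (k1 * LL X.a M + ℓ.1.val) ((k1 + k2) * LL X.a M)
            c' o' R' ℓ')) ^ q) =
      fun c' o' R' ℓ' => (gg s (k1 * LL X.a M) c R ℓ *
        (gg s (k1 * LL X.a M) c R ℓ / X.ZP M s k1 (fun _ => F) c o R ℓ) ^ q) *
        (gg ℓ.1.val (k2 * LL X.a M) c' R' ℓ' *
          (gg ℓ.1.val (k2 * LL X.a M) c' R' ℓ' / X.ZP M ℓ.1.val k2 (fun _ => F) c' o' R' ℓ') ^ q) := by
    funext c' o' R' ℓ'
    rw [hE, X.Zf_shift, X.Zf_shift, tauP_shift hM]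
    have s1 : sh (k1 * LL X.a M) (fun _ : ℕ => false) = fun _ => false := rfl
    have s2 : sh k1 (fun _ : ℕ => F) = fun _ => F := rfl
    rw [s1, s2, X.Zf_false, X.Zf_false]
    unfold ZP
    rw [← div_mul_div_comm, mul_pow]
    ring
  rw [e1, X.Tot_mul_left, mul_comm B]
  refine mul_le_mul_of_nonneg_left (hB ℓ.1.val (by have := ℓ.1.isLt; omega)) ?_
  have h1 := gg_nonneg s (k1 * LL X.a M) R c ℓ
  have h2 := X.renyi_ZP_nonneg M s k1 (fun _ => F) c o R ℓ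
  positivity

/-- `gg_le_ZP`. -/
theorem ren_base {M : ℕ} (N : ℕ) (hM : 2 ≤ M) (F : Finset ℕ) (hF : F ⊆ range m) {δ : ℝ}
    (hδ : ∀ c ξ S o, |X.D c ξ S o| ≤ δ) (q s : ℕ) (hs : s ≤ 2 * X.a + 1) (hδ1 : δ ≤ 1 / 2)
    (hq : 4 * δ * q ≤ 1) : X.Ren M N F q 1 s ≤ 3 := by
  have hb : (1 / 2 : ℝ) ≤ ((1 - δ) ^ (2 * 1)) ^ q := by
    have := one_add_mul_le_pow (show (-2 : ℝ) ≤ -δ by linarith) (2 * q)
    rw [← pow_mul]
    have e : 2 * 1 * q = 2 * q := by ring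
    rw [e]
    push_cast at this
    have e2 : (1 : ℝ) + -δ = 1 - δ := by ring
    rw [e2] at this
    linarith
  have hp : 0 < (1 - δ) ^ (2 * 1) := pow_pos (by linarith) _
  have le : X.Ren M N F q 1 s ≤ X.Tot N fun c _ R ℓ => 2 * gg s (1 * LL X.a M) c R ℓ := by
    refine X.Tot_mono N fun c o R ℓ => ?_
    have g0 := gg_nonneg s (1 * LL X.a M) R c ℓ
    have h1 := X.gg_le_ZP (K := 1) hM hs (P := fun _ => F) (fun _ => hF) hδ (by linarith) c o R ℓ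
    rw [mul_comm 2]
    refine mul_le_mul_of_nonneg_left ?_ g0
    have z0 := X.renyi_ZP_nonneg M s 1 (fun _ => F) c o R ℓ
    have h2 : gg s (1 * LL X.a M) c R ℓ / X.ZP M s 1 (fun _ => F) c o R ℓ ≤
        1 / (1 - δ) ^ (2 * 1) := by
      rcases z0.eq_or_lt with e | e
      · rw [← e, div_zero]; positivity
      · rw [div_le_div_iff₀ e hp]; linarith
    calc _ ≤ (1 / (1 - δ) ^ (2 * 1)) ^ q := pow_le_pow_left₀ (by positivity) h2 q
      _ = 1 / ((1 - δ) ^ (2 * 1)) ^ q := by rw [div_pow, one_pow]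
      _ ≤ 2 := by rw [div_le_iff₀ (by positivity)]; linarith
  rw [X.Tot_mul_left N 2 (fun c _ R ℓ => gg s (1 * LL X.a M) c R ℓ)] at le
  have := X.Tot_gg_le N s (1 * LL X.a M)
  linarith

/-- `taylor_pt` on good data, `tail_pt` on bad data, `Tot_marginal` kills the linear term. -/
theorem ren_taylor {M k s N : ℕ} {b : ℝ} (G : X.Geo M k s N b) (F : Finset ℕ) (hF : F ⊆ range m)
    {δ : ℝ} (hδ : ∀ c ξ S o, |X.D c ξ S o| ≤ δ) (hδ1 : δ < 1) (q : ℕ) (hq : 1 ≤ q) (Λ : ℝ)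
    (hΛ : 1 ≤ Λ) (σ2 : ℝ)
    (hσ : X.Tot N (fun c o R ℓ => ind (Good X.β b s (k * LL X.a M) c R ℓ) *
        (X.ZP M s k (fun _ => F) c o R ℓ - gg s (k * LL X.a M) c R ℓ) ^ 2 /
          gg s (k * LL X.a M) c R ℓ) ≤ σ2) :
    X.Ren M N F q k s ≤ 1 + (q : ℝ) ^ 2 * Λ * σ2 + Λ * badB X.β b M N +
      X.Ren M N F (2 * q) k s / Λ := by
  have hΛ0 : 0 < Λ := by linarith
  have le : X.Ren M N F q k s ≤ X.Tot N fun c o R ℓ =>
      gg s (k * LL X.a M) c R ℓ +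
      (-(q : ℝ)) * (ind (Good X.β b s (k * LL X.a M) c R ℓ) * X.ZP M s k (fun _ => F) c o R ℓ -
        ind (Good X.β b s (k * LL X.a M) c R ℓ) * gg s (k * LL X.a M) c R ℓ) +
      (q : ℝ) ^ 2 * Λ * (ind (Good X.β b s (k * LL X.a M) c R ℓ) *
        (X.ZP M s k (fun _ => F) c o R ℓ - gg s (k * LL X.a M) c R ℓ) ^ 2 /
          gg s (k * LL X.a M) c R ℓ) +
      Λ * (ind (¬ Good X.β b s (k * LL X.a M) c R ℓ) * gg s (k * LL X.a M) c R ℓ) +
      Λ⁻¹ * (gg s (k * LL X.a M) c R ℓ *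
        (gg s (k * LL X.a M) c R ℓ / X.ZP M s k (fun _ => F) c o R ℓ) ^ (2 * q)) := by
    refine X.Tot_mono N fun c o R ℓ => ?_
    have g0 := gg_nonneg s (k * LL X.a M) R c ℓ
    have z0 := X.renyi_ZP_nonneg M s k (fun _ => F) c o R ℓ
    by_cases hg : Good X.β b s (k * LL X.a M) c R ℓ
    · rw [ind_true hg, ind_false (not_not.2 hg)]
      rcases g0.eq_or_lt with e | e
      · have z : X.ZP M s k (fun _ => F) c o R ℓ = 0 := X.Zf_of_gg _ o e.symm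
        rw [z, ← e]
        simp
      · have z : 0 < X.ZP M s k (fun _ => F) c o R ℓ := X.renyi_Zf_pos hδ hδ1 _ o e
        have t := taylor_pt q hq _ _ Λ e z hΛ
        refine t.trans (le_of_eq ?_)
        ring
    · rw [ind_false hg, ind_true hg]
      have t := tail_pt q _ _ Λ g0 z0 hΛ
      refine t.trans ?_
      rw [div_eq_inv_mul _ Λ]
      simp only [zero_mul, sub_self, mul_zero, zero_div, one_mul, add_zero]
      linarith
  rw [X.Tot_plus, X.Tot_plus, X.Tot_plus, X.Tot_plus, X.Tot_mul_left, X.Tot_mul_left,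
    X.Tot_mul_left, X.Tot_mul_left, X.Tot_minus] at le
  have m1 := X.Tot_marginal N (tauP X.a M fun _ => F) s (k * LL X.a M)
    (fun c R ℓ => ind (Good X.β b s (k * LL X.a M) c R ℓ))
  have m2 : X.Tot N (fun c o R ℓ => ind (Good X.β b s (k * LL X.a M) c R ℓ) *
      X.ZP M s k (fun _ => F) c o R ℓ) = X.Tot N fun c _ R ℓ =>
        ind (Good X.β b s (k * LL X.a M) c R ℓ) * gg s (k * LL X.a M) c R ℓ := m1
  rw [m2, sub_self, mul_zero, add_zero] at le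
  have b1 := X.Tot_gg_le N s (k * LL X.a M)
  have b2 := X.bad_bound G
  have b3 : (q : ℝ) ^ 2 * Λ * X.Tot N (fun c o R ℓ => ind (Good X.β b s (k * LL X.a M) c R ℓ) *
        (X.ZP M s k (fun _ => F) c o R ℓ - gg s (k * LL X.a M) c R ℓ) ^ 2 /
          gg s (k * LL X.a M) c R ℓ) ≤ (q : ℝ) ^ 2 * Λ * σ2 :=
    mul_le_mul_of_nonneg_left hσ (by positivity)
  have b4 := mul_le_mul_of_nonneg_left b2 hΛ0.le
  rw [div_eq_inv_mul (X.Ren M N F (2 * q) k s) Λ]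
  have e : X.Ren M N F (2 * q) k s = X.Tot N fun c o R ℓ => gg s (k * LL X.a M) c R ℓ *
      (gg s (k * LL X.a M) c R ℓ / X.ZP M s k (fun _ => F) c o R ℓ) ^ (2 * q) := rfl
  rw [e]
  linarith

/-- `ren_abstract` for the supremum over the starts `s ≤ 2a+1`, with `η = 100000 h √kmax / (β √M)` from `var_bound`. -/
theorem renyi {ΩA sA Ω2 δ : ℝ} (hB : X.Bd ΩA sA Ω2 δ) {M kmax N : ℕ} {b : ℝ}
    (G : X.Geo M kmax (2 * X.a + 1) N b)
    (hch : 64 * hA m X.a ΩA sA * √((kmax : ℝ) + 1) ≤ √(X.β * M))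
    (F : Finset ℕ) (hF : F ⊆ range m) (h : ℝ) (h1 : hh m X.a ΩA sA Ω2 (one0 false F) ≤ h)
    (h2 : hh m X.a ΩA sA Ω2 (one1 false F) ≤ h) (h3 : hh m X.a ΩA sA Ω2 (two F) ≤ h)
    (q0 hB' : ℕ) (Y : ℝ) (hh2 : 2 ≤ hB') (hq : 1 ≤ q0) (hY : 1 ≤ Y)
    (hk : (kmax : ℝ) ≤ Y ^ (2 * hB')) (hδ : 16 * q0 * δ * Y ≤ 1)
    (hη : 27 * (4 ^ hB') ^ 2 * 2 ^ hB' * (q0 : ℝ) ^ 2 *
      (100000 * h * √(kmax : ℝ) / (X.β * √(M : ℝ))) ≤ 1)
    (hb : 27 * (4 ^ hB') ^ 2 * badB X.β b M N ≤ 1) (k s : ℕ) (hk1 : 1 ≤ k) (hk2 : k ≤ kmax)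
    (hs : s ≤ 2 * X.a + 1) : X.Ren M N F q0 k s ≤ 2 := by
  obtain ⟨n1, n2, n3, n4⟩ := hB.nonneg
  have hD := hB.1
  have hM := G.hM
  have hMpos : (0 : ℝ) < M := by exact_mod_cast (show 0 < M by omega)
  have hβ := X.β_pos
  have hq' : (1 : ℝ) ≤ q0 := by exact_mod_cast hq
  have hδ16 : 16 * δ ≤ 1 := by
    have : δ * 1 ≤ δ * (q0 * Y) := mul_le_mul_of_nonneg_left (by nlinarith) n4
    nlinarith
  have h0 : 0 ≤ h := (main2_hh_nonneg m X.a n1 n2 n3 _).trans h1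
  have hA0 : 0 ≤ hA m X.a ΩA sA := by
    rw [← hh_arr m X.a ΩA sA Ω2 ∅]; exact main2_hh_nonneg m X.a n1 n2 n3 _
  have hne : (range (2 * X.a + 2)).Nonempty := ⟨0, by simp⟩
  set Rs : ℕ → ℕ → ℝ := fun q k => (range (2 * X.a + 2)).sup' hne fun s => X.Ren M N F q k s with hRs
  have hle : ∀ q k s, s ≤ 2 * X.a + 1 → X.Ren M N F q k s ≤ Rs q k := fun q k s hs =>
    le_sup' (fun s => X.Ren M N F q k s) (mem_range.2 (by omega))
  have hge : ∀ q k (B : ℝ), (∀ s, s ≤ 2 * X.a + 1 → X.Ren M N F q k s ≤ B) → Rs q k ≤ B :=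
    fun q k B hB => sup'_le hne _ fun s hs => hB s (by have := mem_range.1 hs; omega)
  have hR0 : ∀ q k, 0 ≤ Rs q k := fun q k => (X.Ren_nonneg M N F q k 0).trans (hle q k 0 (by omega))
  refine (hle q0 k s hs).trans (ren_abstract Rs kmax q0 hB'
    (100000 * h * √(kmax : ℝ) / (X.β * √(M : ℝ))) (badB X.β b M N) Y hR0 ?_ ?_ ?_ hh2 hq hY hk
    (by positivity) hη (badB_nonneg _ _ _ _) hb k hk1 hk2)
  · intro q k1 k2 g1 g2 _
    refine hge _ _ _ fun s hs => ?_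
    refine (X.ren_sub (by omega) F hD (by linarith) q k1 k2 s g1 g2 hs (Rs q k2)
      (fun s' hs' => hle q k2 s' hs')).trans ?_
    exact mul_le_mul_of_nonneg_right (hle q k1 s hs) (hR0 q k2)
  · intro q k Λ g1 g2 g3 g4
    refine hge _ _ _ fun s hs => ?_
    have G' : X.Geo M k s N b :=
      ⟨hM, g2, hs, (Nat.mul_le_mul_right _ g3).trans G.hN,
        (Nat.mul_le_mul_left _ g3).trans G.hL, G.hb0, G.hb⟩
    have g3' : (k : ℝ) ≤ kmax := by exact_mod_cast g3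
    have hch' : 64 * hA m X.a ΩA sA * √((k : ℝ) + 1) ≤ √(X.β * M) :=
      (mul_le_mul_of_nonneg_left (Real.sqrt_le_sqrt (by linarith)) (by positivity)).trans hch
    have v := X.var_bound hB G' hch' F hF h h1 h2 h3
    have t := X.ren_taylor G' F hF hD (by linarith) q g1 Λ g4 _ v
    have kpos : (0 : ℝ) < kmax := by exact_mod_cast (show 0 < kmax by omega)
    have e : 100000 * h * √(kmax : ℝ) / (X.β * √(M : ℝ)) * √((k : ℝ) / kmax) =
        100000 * h * √(k : ℝ) / (X.β * √(M : ℝ)) := by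
      have hs : 0 < √(kmax : ℝ) := Real.sqrt_pos.2 kpos
      rw [Real.sqrt_div' _ kpos.le]
      field_simp
    rw [e]
    have d : X.Ren M N F (2 * q) k s / Λ ≤ Rs (2 * q) k / Λ :=
      div_le_div_of_nonneg_right (hle _ _ s hs) (by linarith)
    linarith
  · intro q g
    refine hge _ _ _ fun s hs => ?_
    refine X.ren_base N hM F hF hD q s hs (by linarith) ?_
    have : 4 * δ * q ≤ 4 * δ * (4 * q0 * Y) := mul_le_mul_of_nonneg_left g (by positivity)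
    linarith

/-- Markov: on `Z < θ g` (and `0 < g`, so `0 < Z`) one has `Z ≤ θ g ≤ θ * θ ^ q * g * (g / Z) ^ q`. -/
theorem low_tail {M s : ℕ} (N k q : ℕ) (hM : 2 ≤ M) (hs : s ≤ 2 * X.a + 1) (F : Finset ℕ)
    (hF : F ⊆ range m) {δ : ℝ} (hδ : ∀ c ξ S o, |X.D c ξ S o| ≤ δ) (hδ1 : δ < 1) (θ : ℝ)
    (hθ : 0 < θ) (hθ1 : θ ≤ 1) (hR : X.Ren M N F q k s ≤ 2) :
    X.Tot N (fun c o R ℓ =>
      ind (X.ZP M s k (fun _ => F) c o R ℓ < θ * gg s (k * LL X.a M) c R ℓ) *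
        X.ZP M s k (fun _ => F) c o R ℓ) ≤ 2 * θ ^ q := by
  have le : X.Tot N (fun c o R ℓ =>
      ind (X.ZP M s k (fun _ => F) c o R ℓ < θ * gg s (k * LL X.a M) c R ℓ) *
        X.ZP M s k (fun _ => F) c o R ℓ) ≤ X.Tot N fun c o R ℓ => θ ^ q *
        (gg s (k * LL X.a M) c R ℓ *
          (gg s (k * LL X.a M) c R ℓ / X.ZP M s k (fun _ => F) c o R ℓ) ^ q) := by
    refine X.Tot_mono N fun c o R ℓ => ?_
    have g0 := gg_nonneg s (k * LL X.a M) R c ℓ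
    have z0 := X.renyi_ZP_nonneg M s k (fun _ => F) c o R ℓ
    by_cases hz : X.ZP M s k (fun _ => F) c o R ℓ < θ * gg s (k * LL X.a M) c R ℓ
    · rw [ind_true hz, one_mul]
      have gp : 0 < gg s (k * LL X.a M) c R ℓ := by
        rcases g0.eq_or_lt with e | e
        · rw [← e, mul_zero] at hz; linarith
        · exact e
      have zp : 0 < X.ZP M s k (fun _ => F) c o R ℓ := X.renyi_Zf_pos hδ hδ1 _ o gp
      generalize X.ZP M s k (fun _ => F) c o R ℓ = z at hz zp ⊢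
      generalize gg s (k * LL X.a M) c R ℓ = g at hz gp ⊢
      have r1 : 1 ≤ θ * (g / z) := by
        rw [← mul_div_assoc, le_div_iff₀ zp]; linarith
      have r2 : 1 ≤ (θ * (g / z)) ^ q := one_le_pow₀ r1
      have e : θ ^ q * (g * (g / z) ^ q) = g * (θ * (g / z)) ^ q := by rw [mul_pow]; ring
      rw [e]
      nlinarith
    · rw [ind_false hz, zero_mul]
      positivity
  rw [X.Tot_mul_left] at le
  refine le.trans ?_
  rw [mul_comm 2]
  exact mul_le_mul_of_nonneg_left hR (by positivity)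

end Model

end Pool.Agent.Lib.MP_343fe0_pr
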