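import Pool.Agent.Lib.MP_343fe0_pr.Step
import Pool.Agent.Lib.MP_343fe0_pr.GammaA
import Pool.Agent.Lib.MP_343fe0_pr.Gamma2
import Pool.Agent.Lib.MP_343fe0_pr.Renyi
import Pool.Agent.Lib.MP_343fe0_pr.Lin

set_option autoImplicit false

/-! The Prouhet step, non-asymptotic form. -/

namespace Pool.Agent.Lib.MP_343fe0_pr

open Finset

private lemma pkgpte_kk (m : ℕ) : 1 ≤ kk m := by
  unfold kk
  have : (1 : ℝ) ≤ 2 ^ m := one_le_pow₀ (by norm_num)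
  linarith

private lemma pkgpte_div (a : ℕ) {x y : ℝ} (h : 5 * x ≤ y) :
    5 / ((a : ℝ) + 1) * x ≤ y / ((a : ℝ) + 1) := by
  rw [div_mul_eq_mul_div]
  exact div_le_div_of_nonneg_right h (by positivity)

private lemma pkgpte_h0 (m a : ℕ) {ΩA sA Ω2 C0 : ℝ} (h1 : 0 ≤ ΩA) (h2 : 0 ≤ sA) (h3 : 0 ≤ Ω2)
    (k1 : ΩA ≤ C0) (k2 : sA ≤ C0) (k3 : Ω2 ≤ C0) (F : Finset ℕ) :
    hA m a ΩA sA ≤ 5 * (kk m * (2 * C0 + kk m * C0 ^ 2)) / ((a : ℝ) + 1) ∧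
    hh m a ΩA sA Ω2 (one0 false F) ≤ 5 * (kk m * (2 * C0 + kk m * C0 ^ 2)) / ((a : ℝ) + 1) ∧
    hh m a ΩA sA Ω2 (one1 false F) ≤ 5 * (kk m * (2 * C0 + kk m * C0 ^ 2)) / ((a : ℝ) + 1) ∧
    hh m a ΩA sA Ω2 (two F) ≤ 5 * (kk m * (2 * C0 + kk m * C0 ^ 2)) / ((a : ℝ) + 1) := by
  have hk := pkgpte_kk m
  have hC : 0 ≤ C0 := h1.trans k1
  have p1 : ΩA * sA ≤ C0 ^ 2 := by nlinarith [mul_le_mul k1 k2 h2 hC]
  have p2 : ΩA * Ω2 ≤ C0 ^ 2 := by nlinarith [mul_le_mul k1 k3 h3 hC]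
  have p3 : Ω2 * sA ≤ C0 ^ 2 := by nlinarith [mul_le_mul k3 k2 h2 hC]
  have hk0 : 0 ≤ kk m := by linarith
  have q1 := mul_le_mul_of_nonneg_left p1 hk0
  have q2 := mul_le_mul_of_nonneg_left p2 hk0
  have q3 := mul_le_mul_of_nonneg_left p3 hk0
  refine ⟨?_, ?_, ?_, ?_⟩
  · unfold hA
    refine pkgpte_div a (mul_le_mul_of_nonneg_left (mul_le_mul_of_nonneg_left ?_ hk0) (by norm_num))
    linarith
  · unfold hh
    refine pkgpte_div a (mul_le_mul_of_nonneg_left (mul_le_mul_of_nonneg_left ?_ hk0) (by norm_num))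
    simp only [one0, alB, if_true, Bool.false_eq_true, if_false]
    linarith
  · unfold hh
    refine pkgpte_div a (mul_le_mul_of_nonneg_left (mul_le_mul_of_nonneg_left ?_ hk0) (by norm_num))
    simp only [one1, alB, if_true, Bool.false_eq_true, if_false]
    linarith
  · unfold hh
    refine pkgpte_div a (mul_le_mul_of_nonneg_left (mul_le_mul_of_nonneg_left ?_ hk0) (by norm_num))
    simp only [two, alB, Bool.false_eq_true, if_false]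
    linarith

private lemma pkgpte_h1 (m a : ℕ) {ΩA sA Ω2 C0 ΩR : ℝ} (h1 : 0 ≤ ΩA) (h2 : 0 ≤ sA) (h3 : 0 ≤ Ω2)
    (hC : 1 ≤ C0) (k3 : Ω2 ≤ C0) (hR : Ω2 + ΩA * sA ≤ ΩR) (F F' : Finset ℕ) (t : Fin 6) :
    hh m a ΩA sA Ω2 (item true F F' t) ≤ 5 * (kk m * (1 + kk m * C0)) * ΩR / ((a : ℝ) + 1) := by
  have hk := pkgpte_kk m
  have hk0 : 0 ≤ kk m := by linarith
  have p0 : 0 ≤ ΩA * sA := mul_nonneg h1 h2
  have hR0 : 0 ≤ ΩR := by linarith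
  have p1 : Ω2 * Ω2 ≤ C0 * ΩR := mul_le_mul k3 (by linarith) h3 (by linarith)
  have p2 : ΩA * sA ≤ C0 * ΩR := by nlinarith
  have q1 := mul_le_mul_of_nonneg_left p1 hk0
  have q2 := mul_le_mul_of_nonneg_left p2 hk0
  have e0 : ∀ P, hh m a ΩA sA Ω2 (one0 true P) ≤
      5 * (kk m * (1 + kk m * C0)) * ΩR / ((a : ℝ) + 1) := by
    intro P
    unfold hh
    refine pkgpte_div a ?_
    simp only [one0, alB, if_true, Bool.false_eq_true, if_false]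
    have : 1 * Ω2 + 0 * Ω2 + kk m * Ω2 * Ω2 ≤ (1 + kk m * C0) * ΩR := by linarith
    have := mul_le_mul_of_nonneg_left this hk0
    linarith
  have e1 : ∀ P, hh m a ΩA sA Ω2 (one1 true P) ≤
      5 * (kk m * (1 + kk m * C0)) * ΩR / ((a : ℝ) + 1) := by
    intro P
    unfold hh
    refine pkgpte_div a ?_
    simp only [one1, alB, if_true, Bool.false_eq_true, if_false]
    have : 0 * Ω2 + 1 * Ω2 + kk m * Ω2 * Ω2 ≤ (1 + kk m * C0) * ΩR := by linarith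
    have := mul_le_mul_of_nonneg_left this hk0
    linarith
  have e2 : ∀ P, hh m a ΩA sA Ω2 (two P) ≤
      5 * (kk m * (1 + kk m * C0)) * ΩR / ((a : ℝ) + 1) := by
    intro P
    unfold hh
    refine pkgpte_div a ?_
    simp only [two, alB, Bool.false_eq_true, if_false]
    have : 0 * ΩA + 0 * ΩA + kk m * ΩA * sA ≤ (1 + kk m * C0) * ΩR := by linarith
    have := mul_le_mul_of_nonneg_left this hk0
    linarith
  fin_cases t
  · exact e0 F'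
  · exact e1 F'
  · exact e2 F'
  · exact e0 F
  · exact e1 F
  · exact e2 F

private lemma pkgpte_sqrt {ρ : ℝ} (hρ : 0 < ρ) (a a' M K : ℕ) (ha' : 1 ≤ a')
    (h : (a' : ℝ) ≤ 2 * (ρ ^ 2 / 32) * (2 * (a : ℝ) + 1) ^ 2 * M) (hK : K ≤ 2 * a' + 1) :
    √((K : ℝ) + 1) ≤ ρ * ((a : ℝ) + 1) * √(M : ℝ) := by
  refine Real.sqrt_le_iff.2 ⟨by positivity, ?_⟩
  rw [mul_pow, mul_pow, Real.sq_sqrt (by positivity)]
  have h1 : (K : ℝ) ≤ 2 * a' + 1 := by exact_mod_cast hK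
  have h2 : (1 : ℝ) ≤ a' := by exact_mod_cast ha'
  have h3 : (2 * (a : ℝ) + 1) ^ 2 ≤ 4 * ((a : ℝ) + 1) ^ 2 := by
    have : (0 : ℝ) ≤ a := by positivity
    nlinarith
  have h4 : ρ ^ 2 * M * (2 * (a : ℝ) + 1) ^ 2 ≤ ρ ^ 2 * M * (4 * ((a : ℝ) + 1) ^ 2) :=
    mul_le_mul_of_nonneg_left h3 (by positivity)
  linarith

private lemma pkgpte_w {H ΩR θ β a sM sK K a' C3 TV : ℝ} (hH : 0 ≤ H) (hR : 0 ≤ ΩR) (hθ : 0 < θ)
    (hβ : 0 < β) (ha : 1 ≤ a) (hM : 0 < sM) (hsK : sK ≤ (a + 1) * sM) (hK0 : 0 ≤ K)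
    (hK : K ≤ 3 * a') (hC3 : 0 ≤ C3) (hTV : 0 ≤ TV) :
    H * ΩR / (a + 1) / (θ * β * sM) + K * (C3 * TV) ≤
      (H / β + H ^ 2 / (β * √β) + 9 * C3) * (ΩR / (θ * a * sM) + a' * TV) ∧
    H * ΩR / (a + 1) * sK / (θ * β * sM) + K ^ 2 * (C3 * TV) ≤
      (H / β + H ^ 2 / (β * √β) + 9 * C3) * (ΩR / θ + a' ^ 2 * TV) ∧
    (H * ΩR / (a + 1)) ^ 2 * sK / (θ * β * √β * sM ^ 2) + K ^ 2 * (C3 * TV) ≤
      (H / β + H ^ 2 / (β * √β) + 9 * C3) * (ΩR ^ 2 / (θ * a * sM) + a' ^ 2 * TV) := by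
  have ha0 : 0 < a := by linarith
  have ha' : 0 ≤ a' := by linarith
  have hsβ : 0 < √β := Real.sqrt_pos.2 hβ
  have u1 : 0 ≤ H / β := by positivity
  have u2 : 0 ≤ H ^ 2 / (β * √β) := by positivity
  have v1 : 0 ≤ ΩR / (θ * a * sM) := by positivity
  have v2 : 0 ≤ ΩR / θ := by positivity
  have v3 : 0 ≤ ΩR ^ 2 / (θ * a * sM) := by positivity
  have w1 : 0 ≤ a' * TV := by positivity
  have w2 : 0 ≤ a' ^ 2 * TV := by positivity
  have hCT : 0 ≤ C3 * TV := by positivity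
  have k1 : K * (C3 * TV) ≤ 9 * C3 * (a' * TV) := by
    have := mul_le_mul_of_nonneg_right hK hCT
    have : 0 ≤ C3 * (a' * TV) := by positivity
    linarith
  have k2 : K ^ 2 * (C3 * TV) ≤ 9 * C3 * (a' ^ 2 * TV) := by
    have h : K ^ 2 ≤ (3 * a') ^ 2 := pow_le_pow_left₀ hK0 hK 2
    have := mul_le_mul_of_nonneg_right h hCT
    linarith
  have hinv : 1 / (a + 1) ≤ 1 / a := one_div_le_one_div_of_le ha0 (by linarith)
  have j1 : H * ΩR / (a + 1) / (θ * β * sM) ≤ H / β * (ΩR / (θ * a * sM)) := by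
    have e1 : H * ΩR / (a + 1) / (θ * β * sM) = H * ΩR / (θ * β * sM) * (1 / (a + 1)) := by
      field_simp
    have e2 : H / β * (ΩR / (θ * a * sM)) = H * ΩR / (θ * β * sM) * (1 / a) := by
      field_simp
    rw [e1, e2]
    exact mul_le_mul_of_nonneg_left hinv (by positivity)
  have j2 : H * ΩR / (a + 1) * sK / (θ * β * sM) ≤ H / β * (ΩR / θ) := by
    have e2 : H / β * (ΩR / θ) = H * ΩR / (a + 1) * ((a + 1) * sM) / (θ * β * sM) := by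
      field_simp
    rw [e2]
    exact div_le_div_of_nonneg_right (mul_le_mul_of_nonneg_left hsK (by positivity)) (by positivity)
  have j3 : (H * ΩR / (a + 1)) ^ 2 * sK / (θ * β * √β * sM ^ 2) ≤
      H ^ 2 / (β * √β) * (ΩR ^ 2 / (θ * a * sM)) := by
    have e1 : (H * ΩR / (a + 1)) ^ 2 * ((a + 1) * sM) / (θ * β * √β * sM ^ 2) =
        H ^ 2 * ΩR ^ 2 / (θ * β * √β * sM) * (1 / (a + 1)) := by
      field_simp
    have e2 : H ^ 2 / (β * √β) * (ΩR ^ 2 / (θ * a * sM)) =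
        H ^ 2 * ΩR ^ 2 / (θ * β * √β * sM) * (1 / a) := by
      field_simp
    rw [e2]
    refine le_trans (div_le_div_of_nonneg_right
      (mul_le_mul_of_nonneg_left hsK (by positivity)) (by positivity)) ?_
    rw [e1]
    exact mul_le_mul_of_nonneg_left hinv (by positivity)
  refine ⟨?_, ?_, ?_⟩
  · linarith [mul_nonneg u1 w1, mul_nonneg u2 v1, mul_nonneg u2 w1, mul_nonneg hC3 v1]
  · linarith [mul_nonneg u1 w2, mul_nonneg u2 v2, mul_nonneg u2 w2, mul_nonneg hC3 v2]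
  · linarith [mul_nonneg u1 w2, mul_nonneg u1 v3, mul_nonneg u2 w2, mul_nonneg hC3 v3]

private lemma pkgpte_arr (F F' : Finset ℕ) : arrS F F' ∅ = fun _ => F := by
  funext i
  simp [arrS]

private lemma pkgpte_arr_sub {m : ℕ} {F F' : Finset ℕ} (hF : F ⊆ range m) (hF' : F' ⊆ range m)
    (S : Finset ℕ) (i : ℕ) : arrS F F' S i ⊆ range m := by
  unfold arrS
  split_ifs
  · exact hF'
  · exact hF

private lemma pkgpte_small {C x D : ℝ} (hx : 0 ≤ x) (h : C * x ≤ 1) (hD : D ≤ C) : D * x ≤ 1 :=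
  (mul_le_mul_of_nonneg_right hD hx).trans h

/-- `step_model` with `F = tmF T`, `F' = tmF' T`, `N = (2a'+1) L`, `δ' = 16 m' δ` (`ZP_close`), `Gd K := Good ∧ θ gg ≤ ZS ∅`.
`renyi` (with `kmax = 2a'+1`, `h = 5 kk (C0 + kk C0 ^ 2) / (a+1)`) gives `Ren q0 K ≤ 2`.
`hbad`: `Tot_marginal` + `bad_bound`, and `ZS S ≤ 2 ZS ∅` + `low_tail`, so `η = bad + 4 θ ^ q0`.
`hov`: `overlap`, `overlap_good` (`gg_le_ZP` for positivity), `β' = o0 ^ 2 / 100`.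
`hw`: `gammaA`, `gamma2` with `lin = true`, `TV` from `lin_bound` (use `β ≤ 1`, absorb `β ^ (-T/2)` in `C`), and
`h = 5 kk (1 + kk C0) kk ΩR / (a+1)`, which bounds `hh` of all six items.
Choose `c ≤ 1/20` small enough for `hch` and for the hypothesis `hη` of `renyi`, using `K + 1 ≤ 4 a' ≤ 8 c (2a+1)^2 M`. -/
theorem pkg_pte (T m' q0 hB : ℕ) (hT : 1 ≤ T) (hm' : 1 ≤ m') (hq : 1 ≤ q0) (hhB : 2 ≤ hB)
    (β C0 : ℝ) (hβ : 0 < β) (hC0 : 1 ≤ C0) :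
    ∃ c β' C : ℝ, 0 < c ∧ c ≤ 1 ∧ 0 < β' ∧ 1 ≤ C ∧ ∃ M0 : ℕ,
    ∀ (X : Model (2 ^ T)) (M a' : ℕ) (ΩA sA Ω2 δ ΩR b θ Y bad TV : ℝ), X.β = β →
      X.Bd ΩA sA Ω2 δ → ΩA ≤ C0 → sA ≤ C0 → Ω2 ≤ C0 → Ω2 + ΩA * sA ≤ ΩR → M0 ≤ M →
      c * (2 * (X.a : ℝ) + 1) ^ 2 * M ≤ a' → (a' : ℝ) ≤ 2 * c * (2 * (X.a : ℝ) + 1) ^ 2 * M →
      m' ≤ a' → 0 ≤ b → b + β ≤ β * M / 4 → 0 < θ → θ ≤ 1 → 1 ≤ Y →
      2 * (a' : ℝ) + 1 ≤ Y ^ (2 * hB) → C * δ * Y ≤ 1 →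
      badB β b M ((2 * a' + 1) * LL X.a M) ≤ bad → C * bad ≤ 1 → C * θ ^ q0 ≤ 1 →
      (M : ℝ) ^ 2 * (2 * (X.a : ℝ) + 1) ^ 2 / √(M : ℝ) ^ T + bad ≤ TV →
      ∃ X' : Model m', X'.a = a' ∧ X'.β = β' ∧ X'.U = X.blk M (tmF T) ∧ X'.V = X.blk M (tmF' T) ∧
        X'.ε ≤ ((2 * a' + 1) * LL X.a M : ℕ) * X.ε + C * (bad + θ ^ q0) ∧
        X'.Bd (C * (ΩR / θ + (a' : ℝ) ^ 2 * TV)) (C * (ΩR / (θ * X.a * √(M : ℝ)) + a' * TV))
          (C * (ΩR ^ 2 / (θ * X.a * √(M : ℝ)) + (a' : ℝ) ^ 2 * TV)) (C * δ) := by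
  have hk := pkgpte_kk (2 ^ T)
  obtain ⟨H0, hH0def⟩ : ∃ H0 : ℝ, H0 = 5 * (kk (2 ^ T) * (2 * C0 + kk (2 ^ T) * C0 ^ 2)) := ⟨_, rfl⟩
  obtain ⟨H1, hH1def⟩ : ∃ H1 : ℝ, H1 = 5 * (kk (2 ^ T) * (1 + kk (2 ^ T) * C0)) := ⟨_, rfl⟩
  obtain ⟨Q, hQdef⟩ : ∃ Q : ℝ, Q = 27 * (4 ^ hB) ^ 2 * 2 ^ hB * (q0 : ℝ) ^ 2 := ⟨_, rfl⟩
  have hq' : (1 : ℝ) ≤ q0 := by exact_mod_cast hq
  have hm'' : (1 : ℝ) ≤ m' := by exact_mod_cast hm'
  have hH0 : 0 < H0 := by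
    rw [hH0def]
    positivity
  have hH1 : 0 < H1 := by
    rw [hH1def]
    positivity
  have hQ : 0 < Q := by
    rw [hQdef]
    positivity
  have hsβ : 0 < √β := Real.sqrt_pos.2 hβ
  obtain ⟨ρ, hρ0, hρ1, hρ2, hρ3⟩ : ∃ ρ : ℝ, 0 < ρ ∧ ρ ≤ 1 ∧ 64 * H0 * ρ ≤ √β ∧
      Q * 100000 * H0 * ρ ≤ β := by
    refine ⟨min 1 (min (√β / (64 * H0)) (β / (Q * 100000 * H0))), by positivity, min_le_left _ _,
      ?_, ?_⟩
    · rw [mul_comm, ← le_div_iff₀ (by positivity)]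
      exact (min_le_right _ _).trans (min_le_left _ _)
    · rw [mul_comm, ← le_div_iff₀ (by positivity)]
      exact (min_le_right _ _).trans (min_le_right _ _)
  have hc1 : ρ ^ 2 / 32 ≤ 1 / 32 := by
    have := pow_le_one₀ (n := 2) hρ0.le hρ1
    linarith
  obtain ⟨o0, ho0, ho1, M1, hov⟩ := overlap β (ρ ^ 2 / 32) hβ (by positivity) (by linarith)
  have ho2 : o0 ^ 2 ≤ 1 := pow_le_one₀ ho0.le ho1
  obtain ⟨CA, hCA, hgA⟩ := gammaA (2 ^ T) m'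
  obtain ⟨C2, hC2, hg2⟩ := gamma2 (2 ^ T) m'
  obtain ⟨CL, hCL, hlin⟩ := lin_bound T hT
  obtain ⟨C3, hC3def⟩ : ∃ C3 : ℝ, C3 = CL * (1 / √β ^ T + 1) := ⟨_, rfl⟩
  have hC3 : 0 < C3 := by
    rw [hC3def]
    positivity
  obtain ⟨D0, hD0def⟩ : ∃ D0 : ℝ, D0 = H1 / β + H1 ^ 2 / (β * √β) + 9 * C3 := ⟨_, rfl⟩
  have hD0 : 0 < D0 := by
    rw [hD0def]
    positivity
  obtain ⟨C, cq, cb, co, cm, c50, cD⟩ : ∃ C : ℝ, 16 * (q0 : ℝ) ≤ C ∧ 27 * (4 ^ hB) ^ 2 ≤ C ∧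
      500 / o0 ^ 2 ≤ C ∧ 64 * (m' : ℝ) ≤ C ∧ 50 ≤ C ∧
      5 / (o0 ^ 2 / 100) * ((CA + C2) * D0) ≤ C := by
    have t1 : 0 ≤ 16 * (q0 : ℝ) := by positivity
    have t2 : (0 : ℝ) ≤ 27 * (4 ^ hB) ^ 2 := by positivity
    have t3 : 0 ≤ 500 / o0 ^ 2 := by positivity
    have t4 : 0 ≤ 64 * (m' : ℝ) := by positivity
    have t5 : 0 ≤ 5 / (o0 ^ 2 / 100) * ((CA + C2) * D0) := by positivity
    refine ⟨16 * (q0 : ℝ) + 27 * (4 ^ hB) ^ 2 + 500 / o0 ^ 2 + 64 * (m' : ℝ) + 50 +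
      5 / (o0 ^ 2 / 100) * ((CA + C2) * D0), ?_, ?_, ?_, ?_, ?_, ?_⟩ <;> linarith
  refine ⟨ρ ^ 2 / 32, o0 ^ 2 / 100, C, by positivity, by linarith, by positivity, by linarith,
    max M1 2, ?_⟩
  intro X M a' ΩA sA Ω2 δ ΩR b θ Y bad TV hXβ hBd kA ks k2 hR hM ha1 ha2 hma hb0 hb hθ0 hθ1 hY hkY
    hδY hbad hCbad hCθ hTV
  obtain ⟨nA, ns, n2, nδ⟩ := hBd.nonneg
  have hD := hBd.1
  have hM2 : 2 ≤ M := (le_max_right _ _).trans hM
  have hM1 : M1 ≤ M := (le_max_left _ _).trans hM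
  have ha'1 : 1 ≤ a' := hm'.trans hma
  have ha'r : (1 : ℝ) ≤ a' := by exact_mod_cast ha'1
  have hMr : (0 : ℝ) < M := by exact_mod_cast (show 0 < M by omega)
  have hsM : 0 < √(M : ℝ) := Real.sqrt_pos.2 hMr
  have har : (1 : ℝ) ≤ X.a := by exact_mod_cast X.a_pos
  have hCδ : C * δ ≤ 1 := by
    have : C * δ * 1 ≤ C * δ * Y := mul_le_mul_of_nonneg_left hY (by positivity)
    linarith
  have hbB := badB_nonneg β b M ((2 * a' + 1) * LL X.a M)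
  have hbad0 : 0 ≤ bad := hbB.trans hbad
  have hθq : 0 ≤ θ ^ q0 := by positivity
  have hδ50 : 50 * δ ≤ 1 := pkgpte_small nδ hCδ c50
  have hδm : 64 * (m' : ℝ) * δ ≤ 1 := pkgpte_small nδ hCδ cm
  have hmδ : δ ≤ m' * δ := le_mul_of_one_le_left nδ hm''
  have hbad50 : 50 * bad ≤ 1 := pkgpte_small hbad0 hCbad c50
  have hθ50 : 50 * θ ^ q0 ≤ 1 := pkgpte_small hθq hCθ c50
  have hη : bad + 4 * θ ^ q0 ≤ o0 ^ 2 / 100 := by
    have t1 := pkgpte_small hbad0 hCbad co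
    have t2 := pkgpte_small hθq hCθ co
    have ho3 : 0 < o0 ^ 2 := by positivity
    rw [div_mul_eq_mul_div, div_le_one ho3] at t1 t2
    linarith
  have hF := tmF_subset T
  have hF' := tmF'_subset T
  set N := (2 * a' + 1) * LL X.a M with hN
  have hgeo : ∀ K, 1 ≤ K → K ≤ 2 * a' + 1 → X.Geo M K (2 * X.a + 1) N b := by
    intro K h1 h2
    refine ⟨hM2, h1, le_rfl, Nat.mul_le_mul_right _ h2, ?_, hb0, by rw [hXβ]; exact hb⟩
    have hK : (K : ℝ) ≤ 2 * a' + 1 := by exact_mod_cast h2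
    have : 6 * (M : ℝ) * K ≤ (2 * ((2 * X.a + 1) * M)) ^ 2 := by
      have t0 : 0 ≤ (2 * (X.a : ℝ) + 1) ^ 2 * M := by positivity
      have t1 := mul_le_mul_of_nonneg_right hc1 t0
      have t2 : (K : ℝ) ≤ 6 / 32 * ((2 * (X.a : ℝ) + 1) ^ 2 * M) := by linarith
      have t3 := mul_le_mul_of_nonneg_left t2 hMr.le
      have t4 : 0 ≤ M * ((2 * (X.a : ℝ) + 1) ^ 2 * M) := by positivity
      linarith
    unfold LL HH
    exact_mod_cast this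
  have hsq : ∀ K, K ≤ 2 * a' + 1 → √((K : ℝ) + 1) ≤ ρ * ((X.a : ℝ) + 1) * √(M : ℝ) :=
    fun K h => pkgpte_sqrt hρ0 X.a a' M K ha'1 ha2 h
  have hsq' : ∀ K, K ≤ 2 * a' + 1 → √(K : ℝ) ≤ ρ * ((X.a : ℝ) + 1) * √(M : ℝ) :=
    fun K h => (Real.sqrt_le_sqrt (by linarith)).trans (hsq K h)
  obtain ⟨g0, g1, g2, g3⟩ := pkgpte_h0 (2 ^ T) X.a nA ns n2 kA ks k2 (tmF T)
  rw [← hH0def] at g0 g1 g2 g3
  have hch : ∀ K, K ≤ 2 * a' + 1 →
      64 * hA (2 ^ T) X.a ΩA sA * √((K : ℝ) + 1) ≤ √(X.β * M) := by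
    intro K h
    rw [hXβ, Real.sqrt_mul hβ.le]
    have t1 : 64 * hA (2 ^ T) X.a ΩA sA * √((K : ℝ) + 1) ≤
        64 * (H0 / ((X.a : ℝ) + 1)) * (ρ * ((X.a : ℝ) + 1) * √(M : ℝ)) :=
      mul_le_mul (by linarith) (hsq K h) (Real.sqrt_nonneg _) (by positivity)
    have e : 64 * (H0 / ((X.a : ℝ) + 1)) * (ρ * ((X.a : ℝ) + 1) * √(M : ℝ)) =
        64 * H0 * ρ * √(M : ℝ) := by
      field_simp
    rw [e] at t1
    exact t1.trans (mul_le_mul_of_nonneg_right hρ2 hsM.le)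
  have hren : ∀ k, 1 ≤ k → k ≤ 2 * a' + 1 → X.Ren M N (tmF T) q0 k (2 * X.a + 1) ≤ 2 := by
    intro k h1 h2
    refine X.renyi hBd (hgeo (2 * a' + 1) (by omega) le_rfl) (hch _ le_rfl) (tmF T) hF _ g1 g2 g3
      q0 hB Y hhB hq hY (by push_cast; exact hkY) ?_ ?_ ?_ k _ h1 h2 le_rfl
    · have := mul_le_mul_of_nonneg_right cq (show 0 ≤ δ * Y by positivity)
      linarith
    · rw [← hQdef, hXβ]
      have t1 : 100000 * (H0 / ((X.a : ℝ) + 1)) * √((2 * a' + 1 : ℕ) : ℝ) / (β * √(M : ℝ)) ≤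
          100000 * (H0 / ((X.a : ℝ) + 1)) * (ρ * ((X.a : ℝ) + 1) * √(M : ℝ)) / (β * √(M : ℝ)) :=
        div_le_div_of_nonneg_right (mul_le_mul_of_nonneg_left (hsq' _ le_rfl) (by positivity))
          (by positivity)
      have e : Q * (100000 * (H0 / ((X.a : ℝ) + 1)) * (ρ * ((X.a : ℝ) + 1) * √(M : ℝ)) /
          (β * √(M : ℝ))) = Q * 100000 * H0 * ρ / β := by
        field_simp
      refine (mul_le_mul_of_nonneg_left t1 hQ.le).trans ?_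
      rw [e, div_le_one hβ]
      exact hρ3
    · rw [hXβ]
      exact (mul_le_mul_of_nonneg_left hbad (by positivity)).trans (pkgpte_small hbad0 hCbad cb)
  have hZ0 : ∀ K c o R ℓ, X.ZS M K (tmF T) (tmF' T) ∅ c o R ℓ =
      X.ZP M (2 * X.a + 1) K (fun _ => tmF T) c o R ℓ := by
    intro K c o R ℓ
    unfold Model.ZS
    rw [pkgpte_arr]
  have hZn : ∀ K S c o R ℓ, 0 ≤ X.ZS M K (tmF T) (tmF' T) S c o R ℓ :=
    fun K S c o R ℓ => X.Zf_nonneg _ _ _ _ _ _ _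
  have hclose : ∀ K c o R ℓ S, Adm m' S →
      |X.ZS M K (tmF T) (tmF' T) S c o R ℓ - X.ZS M K (tmF T) (tmF' T) ∅ c o R ℓ| ≤
        16 * m' * δ * X.ZS M K (tmF T) (tmF' T) ∅ c o R ℓ := by
    intro K c o R ℓ S hS
    refine X.ZP_close hM2 le_rfl (pkgpte_arr_sub hF hF' S) (pkgpte_arr_sub hF hF' ∅) hD m' hm'
      (by linarith) S hS.card_le (fun i _ hi => ?_) c o R ℓ
    simp [arrS, hi]
  have hbadZ : ∀ K, a' ≤ K → K ≤ 2 * a' + 1 → ∀ S, Adm m' S →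
      X.Tot N (fun c o R ℓ => ind (¬ (Good X.β b (2 * X.a + 1) (K * LL X.a M) c R ℓ ∧
        θ * gg (2 * X.a + 1) (K * LL X.a M) c R ℓ ≤ X.ZS M K (tmF T) (tmF' T) ∅ c o R ℓ)) *
        X.ZS M K (tmF T) (tmF' T) S c o R ℓ) ≤ bad + 4 * θ ^ q0 := by
    intro K h1 h2 S hS
    refine le_trans (X.Tot_mono N (Φ := fun c o R ℓ =>
      ind (¬ Good X.β b (2 * X.a + 1) (K * LL X.a M) c R ℓ) *
        X.Zf (tauP X.a M (arrS (tmF T) (tmF' T) S)) (2 * X.a + 1) (K * LL X.a M) c o R ℓ +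
      2 * (ind (X.ZP M (2 * X.a + 1) K (fun _ => tmF T) c o R ℓ <
        θ * gg (2 * X.a + 1) (K * LL X.a M) c R ℓ) *
        X.ZP M (2 * X.a + 1) K (fun _ => tmF T) c o R ℓ)) fun c o R ℓ => ?_) ?_
    · have t1 := hclose K c o R ℓ S hS
      have t2 := hZn K S c o R ℓ
      have t3 := hZn K ∅ c o R ℓ
      have e : X.Zf (tauP X.a M (arrS (tmF T) (tmF' T) S)) (2 * X.a + 1) (K * LL X.a M) c o R ℓ =
        X.ZS M K (tmF T) (tmF' T) S c o R ℓ := rfl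
      rw [e, ← hZ0]
      have t4 : X.ZS M K (tmF T) (tmF' T) S c o R ℓ ≤ 2 * X.ZS M K (tmF T) (tmF' T) ∅ c o R ℓ := by
        have := (abs_le.1 t1).2
        have : 16 * m' * δ * X.ZS M K (tmF T) (tmF' T) ∅ c o R ℓ ≤
            1 * X.ZS M K (tmF T) (tmF' T) ∅ c o R ℓ :=
          mul_le_mul_of_nonneg_right (by linarith) t3
        linarith
      have t5 := mul_nonneg (ind_nonneg (X.ZS M K (tmF T) (tmF' T) ∅ c o R ℓ <
        θ * gg (2 * X.a + 1) (K * LL X.a M) c R ℓ)) t3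
      by_cases hG : Good X.β b (2 * X.a + 1) (K * LL X.a M) c R ℓ
      · by_cases hl : θ * gg (2 * X.a + 1) (K * LL X.a M) c R ℓ ≤
            X.ZS M K (tmF T) (tmF' T) ∅ c o R ℓ
        · rw [ind_false (not_not.2 ⟨hG, hl⟩), ind_false (not_not.2 hG)]
          linarith
        · rw [ind_true (fun h => hl h.2), ind_false (not_not.2 hG), ind_true (not_le.1 hl)]
          linarith
      · rw [ind_true (fun h => hG h.1), ind_true hG]
        linarith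
    · rw [X.Tot_plus, X.Tot_mul_left, X.Tot_marginal N _ _ _
        (fun c R ℓ => ind (¬ Good X.β b (2 * X.a + 1) (K * LL X.a M) c R ℓ))]
      have t1 := X.bad_bound (hgeo K (by omega) h2)
      have t2 := X.low_tail N K q0 hM2 le_rfl (tmF T) hF hD (by linarith) θ hθ0 hθ1
        (hren K (by omega) h2)
      rw [← hXβ] at hbad
      linarith
  have hTV0 : 0 ≤ TV := le_trans (by positivity) hTV
  have hR0 : 0 ≤ ΩR := le_trans (by positivity) hR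
  obtain ⟨X', e1, e2, e3, e4, e5, e6⟩ := step_model X m' M a' N (tmF T) (tmF' T) hF hF' (by omega)
    ha'1 hma le_rfl (o0 ^ 2 / 100) (bad + 4 * θ ^ q0) (16 * m' * δ)
    ((CA + C2) * D0 * (ΩR / θ + (a' : ℝ) ^ 2 * TV))
    ((CA + C2) * D0 * (ΩR / (θ * X.a * √(M : ℝ)) + a' * TV))
    ((CA + C2) * D0 * (ΩR ^ 2 / (θ * X.a * √(M : ℝ)) + (a' : ℝ) ^ 2 * TV))
    (by positivity) (by linarith) (by positivity) (by linarith) (by positivity) (by linarith)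
    (fun K c o R ℓ => Good X.β b (2 * X.a + 1) (K * LL X.a M) c R ℓ ∧
      θ * gg (2 * X.a + 1) (K * LL X.a M) c R ℓ ≤ X.ZS M K (tmF T) (tmF' T) ∅ c o R ℓ)
    (fun K c o R ℓ _ _ _ S _ hS => hclose K c o R ℓ S hS)
    (fun K h1 h2 S _ hS => hbadZ K h1 h2 S hS)
    (by
      intro k h1 h2
      have hkr : (a' : ℝ) ≤ k := by exact_mod_cast h1
      have t1 := hov (2 ^ T) X M k N b hXβ (hgeo k (by omega) (by omega)) hM1 (ha1.trans hkr)
        (by linarith)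
      have hκ1 : ∀ i : Bool, a' ≤ (bif i then k + 1 else k) := by
        intro i
        cases i <;> simp <;> omega
      have hκ2 : ∀ i : Bool, (bif i then k + 1 else k) ≤ 2 * a' + 1 := by
        intro i
        cases i <;> simp <;> omega
      refine overlap_good X N q0 hq o0 (bad + 4 * θ ^ q0) ho0 hη
        (fun i c _ R ℓ => gg (2 * X.a + 1) ((bif i then k + 1 else k) * LL X.a M) c R ℓ)
        (fun i c o R ℓ => X.ZS M (bif i then k + 1 else k) (tmF T) (tmF' T) ∅ c o R ℓ)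
        (fun i c o R ℓ => Good X.β b (2 * X.a + 1) ((bif i then k + 1 else k) * LL X.a M) c R ℓ ∧
          θ * gg (2 * X.a + 1) ((bif i then k + 1 else k) * LL X.a M) c R ℓ ≤
            X.ZS M (bif i then k + 1 else k) (tmF T) (tmF' T) ∅ c o R ℓ)
        (fun i c o R ℓ => gg_nonneg _ _ _ _ _) (fun i c o R ℓ => hZn _ _ _ _ _ _)
        (fun i c o R ℓ hp => ?_) (fun i => X.Tot_gg_le N _ _) t1 (fun i => ?_)
        (fun i => hbadZ _ (hκ1 i) (hκ2 i) ∅ (adm_empty m'))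
      · refine lt_of_lt_of_le ?_ (X.gg_le_ZP hM2 le_rfl (pkgpte_arr_sub hF hF' ∅) hD (by linarith)
          c o R ℓ)
        exact mul_pos (pow_pos (by linarith) _) hp
      · have := hren _ (ha'1.trans (hκ1 i)) (hκ2 i)
        unfold Model.Ren at this
        simp only [hZ0]
        exact this)
    (by
      intro K h1 h2
      have hK1 : 1 ≤ K := by omega
      have hgh : GamHyp m' X ΩA sA Ω2 δ (tmF T) (tmF' T) true M K N b θ
          (H1 * ΩR / ((X.a : ℝ) + 1)) (C3 * TV) := by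
        refine ⟨hBd, hgeo K hK1 h2, hF, hF', hch K h2, hθ0, hθ1, fun t => ?_, by positivity,
          fun _ => card_tmF T hT, fun _ => by linarith, fun _ P i hi => ?_⟩
        · rw [hH1def]
          exact pkgpte_h1 _ _ nA ns n2 hC0 k2 hR _ _ t
        · refine (hlin X M K _ N b (hgeo K hK1 h2) (fun c ξ S o => (hD c ξ S o).trans (by linarith))
            P i hi).trans ?_
          rw [hC3def, mul_assoc CL, hXβ, Real.sqrt_mul hβ.le, mul_pow]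
          refine mul_le_mul_of_nonneg_left ?_ hCL.le
          have e : (M : ℝ) ^ 2 * (2 * (X.a : ℝ) + 1) ^ 2 / (√β ^ T * √(M : ℝ) ^ T) =
              1 / √β ^ T * ((M : ℝ) ^ 2 * (2 * (X.a : ℝ) + 1) ^ 2 / √(M : ℝ) ^ T) := by
            field_simp
          rw [e]
          have u1 : 0 ≤ 1 / √β ^ T := by positivity
          have u2 : 0 ≤ (M : ℝ) ^ 2 * (2 * (X.a : ℝ) + 1) ^ 2 / √(M : ℝ) ^ T := by positivity
          have u3 := mul_le_mul_of_nonneg_left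
            (show (M : ℝ) ^ 2 * (2 * (X.a : ℝ) + 1) ^ 2 / √(M : ℝ) ^ T ≤ TV by linarith) u1
          linarith
      obtain ⟨wA, a1, a2, a3, a4⟩ := hgA X _ _ _ _ _ _ _ _ _ _ _ _ _ _ hgh
      obtain ⟨w2, b1, b3, b4⟩ := hg2 X _ _ _ _ _ _ _ _ _ _ _ _ _ _ hgh
      have hKr : (K : ℝ) ≤ 3 * a' := by
        have : (K : ℝ) ≤ 2 * a' + 1 := by exact_mod_cast h2
        linarith
      have hsK : √(K : ℝ) ≤ ((X.a : ℝ) + 1) * √(M : ℝ) := by
        refine (hsq' K h2).trans ?_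
        rw [mul_assoc]
        exact mul_le_of_le_one_left (by positivity) hρ1
      obtain ⟨j1, j2, j3⟩ := pkgpte_w (H := H1) (ΩR := ΩR) (θ := θ) (β := β) (a := X.a)
        (sM := √(M : ℝ)) (sK := √(K : ℝ)) (K := K) (a' := a') (C3 := C3) (TV := TV) hH1.le hR0 hθ0 hβ
        har hsM hsK (by positivity) hKr hC3.le hTV0
      rw [← hD0def] at j1 j2 j3
      rw [Real.sq_sqrt hMr.le] at j3
      rw [hXβ] at a2 a3 b3
      have v1 : 0 ≤ D0 * (ΩR / (θ * X.a * √(M : ℝ)) + a' * TV) := by positivity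
      have v2 : 0 ≤ D0 * (ΩR / θ + (a' : ℝ) ^ 2 * TV) := by positivity
      have v3 : 0 ≤ D0 * (ΩR ^ 2 / (θ * X.a * √(M : ℝ)) + (a' : ℝ) ^ 2 * TV) := by positivity
      refine ⟨fun e => bif e then w2 else wA, ?_, ?_, ?_, ?_⟩
      · intro e u
        cases e
        · exact a1 u
        · exact b1 u
      · intro u
        refine (a2 u).trans ((mul_le_mul_of_nonneg_left j1 hCA.le).trans ?_)
        rw [mul_assoc (CA + C2)]
        exact mul_le_mul_of_nonneg_right (le_add_of_nonneg_right hC2.le) v1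
      · intro e s
        cases e
        · refine (a3 s).trans ((mul_le_mul_of_nonneg_left j2 hCA.le).trans ?_)
          rw [if_neg (by simp), mul_assoc (CA + C2)]
          exact mul_le_mul_of_nonneg_right (le_add_of_nonneg_right hC2.le) v2
        · refine (b3 s).trans ((mul_le_mul_of_nonneg_left j3 hC2.le).trans ?_)
          rw [if_pos rfl, mul_assoc (CA + C2)]
          exact mul_le_mul_of_nonneg_right (le_add_of_nonneg_left hCA.le) v3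
      · intro e G hG s x
        cases e
        · exact a4 G hG s x
        · exact b4 G hG s x)
  refine ⟨X', e1, e2, e3, e4, e5.trans ?_, e6.mono ?_ ?_ ?_ ?_⟩
  · have := mul_le_mul_of_nonneg_right c50 (add_nonneg hbad0 hθq)
    linarith
  · rw [← mul_assoc]
    exact mul_le_mul_of_nonneg_right cD (by positivity)
  · rw [← mul_assoc]
    exact mul_le_mul_of_nonneg_right cD (by positivity)
  · rw [← mul_assoc]
    exact mul_le_mul_of_nonneg_right cD (by positivity)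
  · have := mul_le_mul_of_nonneg_right cm nδ
    linarith

end Pool.Agent.Lib.MP_343fe0_pr
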