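import Pool.Agent.Lib.MP_343fe0_pr.QOv
import Pool.Agent.Lib.MP_343fe0_pr.Final

set_option autoImplicit false

/-! The starting states, taken from the superpolynomial construction. -/

namespace Pool.Agent.Lib.MP_343fe0_pr

open Finset Filter

lemma qbase_single {ι : Type} [Fintype ι] (F : ι → Alg) (h : ∀ i, NN (F i)) (i : ι) :
    Dom (F i) (∑ j, F j) := fun w => by
  rw [alg_coeff_sum]
  exact single_le_sum (f := fun j => (F j).coeff w) (fun j _ => h j w) (mem_univ i)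

lemma qbase_mass_sum {ι : Type} (s : Finset ι) (F : ι → Alg) :
    mass (∑ j ∈ s, F j) = ∑ j ∈ s, mass (F j) := by
  simp only [alg_mass_eq, map_sum]

/-- The part of the simulation with a hidden coin of value `ξ`. -/
noncomputable def qbasePart {m : ℕ} (X : Model m) (ξ : Bool) : Alg :=
  (1 - X.ε) • ∑ i : Fin (X.a + 1), ∑ o : X.Tok,
    (X.β / (X.a + 1) * (1 / 2) * X.ν (i, none) o) •
      (X.out (i, none) o * mu (X.U ^ (2 * X.a + 1 - stp ((i, none) : Ctx X.a) ξ)))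

lemma qbase_nn {m : ℕ} (X : Model m) (ξ : Bool) : NN (qbasePart X ξ) := by
  have := X.β_pos
  refine NN.smul (sub_nonneg.2 X.ε_le) (NN.sum _ _ fun i _ => NN.sum _ _ fun o _ =>
    NN.smul (mul_nonneg (by positivity) (X.ν_nonneg _ _)) ((X.out_nn _ _).mul (mu_nn _)))

lemma qbase_mass {m : ℕ} (X : Model m) (ξ : Bool) :
    mass (qbasePart X ξ) = (1 - X.ε) * (X.β / 2) := by
  have ha : (X.a : ℝ) + 1 ≠ 0 := by positivity
  simp only [qbasePart, mass_smul, qbase_mass_sum, mass_mul, X.out_mass, mass_mu, mul_one,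
    ← mul_sum, X.ν_sum, sum_const, card_univ, Fintype.card_fin, nsmul_eq_mul]
  push_cast
  field_simp

lemma qbase_dom {m : ℕ} (X : Model m) (ξ : Bool) :
    Dom (qbasePart X ξ) (mu (X.U ^ (2 * X.a + 1))) := by
  have hd0 : ∀ k, dset (fun _ => false) 0 k = ∅ := fun k => by simp [dset]
  have h0 := X.sim (fun _ => false) (hd0 _ ▸ adm_empty m)
  have hsh0 : ∀ k, sh k (fun _ : ℕ => false) = fun _ => false := fun _ => rfl
  have hw : ∀ n, word X.U X.V (fun _ => false) n = X.U ^ n := fun n =>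
    word_false _ _ _ _ fun _ _ => rfl
  simp only [hsh0, hd0, X.D_empty, add_zero, mul_one, hw] at h0
  refine Dom.trans (Dom.smul (sub_nonneg.2 X.ε_le) ?_) h0
  have hβ1 : X.β ≤ 1 := X.β_le.trans (by norm_num)
  have hn : ∀ (c : Ctx X.a) (ξ : Bool), NN (∑ o : X.Tok, (kap X.β c * pr (1 / 2) c ξ * X.ν c o) •
      (X.out c o * mu (X.U ^ (2 * X.a + 1 - stp c ξ)))) := fun c ξ =>
    NN.sum _ _ fun o _ => NN.smul (mul_nonneg (mul_nonneg (kap_nonneg X.β_pos.le hβ1 _)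
      (pr_nonneg (by norm_num) (by norm_num) _ _)) (X.ν_nonneg _ _))
      ((X.out_nn _ _).mul (mu_nn _))
  rw [Fintype.sum_prod_type]
  refine Dom.sum _ _ _ fun i _ => ?_
  refine Dom.trans ?_ (qbase_single (fun t : Option Bool => ∑ ξ : Bool, ∑ o : X.Tok,
    (kap X.β ((i, t) : Ctx X.a) * pr (1 / 2) ((i, t) : Ctx X.a) ξ * X.ν (i, t) o) •
      (X.out (i, t) o * mu (X.U ^ (2 * X.a + 1 - stp ((i, t) : Ctx X.a) ξ))))
    (fun t => NN.sum _ _ fun ξ _ => hn _ _) none)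
  refine Dom.trans ?_ (qbase_single (fun ξ : Bool => ∑ o : X.Tok,
    (kap X.β ((i, none) : Ctx X.a) * pr (1 / 2) ((i, none) : Ctx X.a) ξ * X.ν (i, none) o) •
      (X.out (i, none) o * mu (X.U ^ (2 * X.a + 1 - stp ((i, none) : Ctx X.a) ξ))))
    (fun ξ => hn _ _) ξ)
  have e1 : kap X.β ((i, none) : Ctx X.a) = X.β / (X.a + 1) := by simp [kap]
  have e2 : pr (1 / 2) ((i, none) : Ctx X.a) ξ = 1 / 2 := by
    cases ξ <;> norm_num [pr]
  rw [e1, e2]
  exact Dom.refl _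

lemma qbase_shift {m : ℕ} (X : Model m) : qbasePart X true * mu X.U = qbasePart X false := by
  unfold qbasePart
  rw [smul_mul_assoc, sum_mul]
  refine congrArg _ (sum_congr rfl fun i _ => ?_)
  rw [sum_mul]
  refine sum_congr rfl fun o _ => ?_
  have : 2 * X.a + 1 - stp ((i, none) : Ctx X.a) false =
      2 * X.a + 1 - stp ((i, none) : Ctx X.a) true + 1 := by
    have := i.2
    simp only [stp, Bool.toNat_true, Bool.toNat_false]
    omega
  rw [this, smul_mul_assoc, mul_assoc (X.out _ _), pow_succ X.U, map_mul]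

lemma qbase_ov {m : ℕ} (X : Model m) (hε : X.ε ≤ 1 / 2) : Ov (muL X.U) (288 * X.a / X.β) := by
  have hβ := X.β_pos
  have hβ1 := X.β_le
  have hε0 := X.ε_nonneg
  have ha : (1 : ℝ) ≤ X.a := by exact_mod_cast X.a_pos
  have h1 : Dom (qbasePart X false) (mu (X.U ^ (2 * X.a + 1 + 1))) := by
    rw [← qbase_shift, pow_succ _ (2 * X.a + 1), map_mul]
    exact Dom.mul_right (mu_nn _) (qbase_dom X true)
  obtain ⟨ν, r0, r1, e0, e1, n0, n1, n2⟩ :=
    common_of_dom _ _ _ (qbase_nn X false) (qbase_dom X false) h1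
  rw [qbase_mass] at n0 n1 n2
  rw [map_pow] at e0 e1
  have c0 : X.β / 4 ≤ (1 - X.ε) * (X.β / 2) := by nlinarith
  have c1 : 0 < (1 - X.ε) * (X.β / 2) := lt_of_lt_of_le (by positivity) c0
  refine (ov_of_common (norm_muL X.U).le (2 * X.a + 1) _ c1 (by nlinarith) ν r0 r1 e0 e1 n0 n1
    n2).mono ?_
  rw [div_le_div_iff₀ c1 hβ]
  push_cast
  nlinarith [mul_le_mul_of_nonneg_left c0 (show (0 : ℝ) ≤ 288 * X.a by positivity),
    mul_nonneg (sub_nonneg.2 ha) hβ.le]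

lemma qbase_tv {m : ℕ} (hm : 1 ≤ m) (X : Model m) {ΩA sA Ω2 δ : ℝ} (hB : X.Bd ΩA sA Ω2 δ)
    (n : ℕ) (hn : 2 * X.a ≤ n) :
    ‖muL X.U ^ n * (muL X.V - muL X.U) * muL X.U ^ n‖ ^ 2 ≤ 8 * (X.ε + sA) := by
  have h := tv_sq_le _ _ _ (model_Aff hm X hB)
  have e1 : word X.U X.V (fun i => decide (i = 0)) (2 * X.a + 1) = X.V * X.U ^ (2 * X.a) := by
    rw [add_comm, word_add, word_false X.U X.V (sh 1 _) _ fun i _ => by simp [sh]]
    simp [word]
  have e2 : word X.U X.V (fun _ => false) (2 * X.a + 1) = X.U * X.U ^ (2 * X.a) := by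
    rw [word_false _ _ _ _ fun _ _ => rfl, pow_succ']
  rw [e1, e2, map_mul, map_mul, map_pow, ← sub_mul] at h
  refine le_trans (pow_le_pow_left₀ (norm_nonneg _) ?_ 2) h
  have := norm_pad_mono (norm_muL X.U).le (muL X.V - muL X.U) (Nat.zero_le n) hn
  rwa [pow_zero, one_mul] at this

lemma qbase_lev (K : ℕ) : ∃ m e lam p s z : ℕ, 1 ≤ m ∧ 1 ≤ e + lam ∧ K * (e + lam) < s ∧
    K * (e + lam) < z ∧ Lev m e lam p s z True := by
  obtain ⟨T, hT⟩ : ∃ T : ℕ, ∀ j ≤ 16 * K,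
      2 * ((expo j).2.2.1 + (expo j).2.2.2) + 7 * (expo j).1 + 43 ≤ T :=
    ⟨_, fun j hj => le_sup (f := fun j => 2 * ((expo j).2.2.1 + (expo j).2.2.2) + 7 * (expo j).1 + 43)
      (mem_range.2 (Nat.lt_succ_of_le hj))⟩
  have hT1 : 1 ≤ T := by have := hT 0 (by omega); omega
  have hm : 1 ≤ 2 ^ T := Nat.one_le_two_pow
  have hy : ∀ j, 1 ≤ (expo j).2.2.1 + (expo j).2.2.2 := fun j =>
    le_trans (by positivity : 0 < 5 * (j + 1) * 2 ^ j) (final_expo j).2.2
  have step : ∀ j ≤ 16 * K, (∀ z, ∃ q, Lev (2 ^ T) (expo j).1 (expo j).2.1 (expo j).2.2.1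
      (expo j).2.2.2 z q) → ∀ z, Lev (2 ^ T) (expo (j + 1)).1 (expo (j + 1)).2.1 (expo (j + 1)).2.2.1
      (expo (j + 1)).2.2.2 z True := fun j hj h z => by
    obtain ⟨q, hq⟩ := h (z + 3 * (expo j).1 + 20)
    exact lev_step T _ _ _ _ z q hT1 (hy j) (by have := hT j hj; omega) hq
  have all : ∀ j ≤ 16 * K, ∀ z, ∃ q, Lev (2 ^ T) (expo j).1 (expo j).2.1 (expo j).2.2.1
      (expo j).2.2.2 z q := fun j => by
    induction j with
    | zero => exact fun _ z => ⟨False, lev_one _ z hm⟩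
    | succ j ih => exact fun hj z => ⟨True, step j (by omega) (ih (by omega)) z⟩
  refine ⟨_, _, _, _, _, _, hm, ?_, ?_, Nat.lt_succ_self _, step _ le_rfl (all _ le_rfl) _⟩
  · simp only [expo]; omega
  · obtain ⟨h1, h2, h3⟩ := final_expo (16 * K)
    have h4 : K * (2 * (expo (16 * K)).1 + 10 + ((expo (16 * K)).2.1 + (expo (16 * K)).1 + 10)) ≤
        K * (80 * 2 ^ (16 * K)) := Nat.mul_le_mul_left _ (by omega)
    have h5 : 5 * (16 * K + 1) * 2 ^ (16 * K) = K * (80 * 2 ^ (16 * K)) + 5 * 2 ^ (16 * K) := by ring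
    rw [show expo (16 * K + 1) = _ from expo.eq_2 _]
    dsimp only
    omega

/-- Take a model `X` of a level with `s, z` much larger than `e + lam` (as in `superpoly`), `π = X.U`, `β = X.V`.
Overlap: `X.sim` for `τ = false`, keeping the contexts with a hidden coin and the value `ξ = false`, resp. `ξ = true`,
gives a common part of mass `(1 - ε) β / 2` of the laws of `U ^ (2a+1)` and `U ^ (2a+2)`; then `common_of_dom`,
`ov_of_common`.  Profile: `model_Aff`, `tv_sq_le`, `norm_pad_mono`.  Finally `b = x ^ (e + lam + 1)`. -/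
theorem qbase (K B : ℕ) : ∃ (b : ℕ) (Z : St), B ≤ b ∧ Z.a ≤ b ∧ Z.PB b 2 K := by
  obtain ⟨m, e, lam, p, s, z, hm, hE, hs, hz, C, β, hC, hβ, h⟩ := qbase_lev (4 * K)
  have hC0 : 0 < C := by linarith
  obtain ⟨x, ⟨X, rfl, -, ha, hU, -, hD, hl, hε, hB⟩, x1, x2, x3⟩ := (h.and
    ((eventually_ge_atTop B).and ((tendsto_natCast_atTop_atTop (R := ℝ).eventually_ge_atTop
      (16 * C)).and (tendsto_natCast_atTop_atTop (R := ℝ).eventually_ge_atTop
        (288 * C / β))))).exists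
  have hx1 : (1 : ℝ) ≤ x := by linarith
  have hx0 : (0 : ℝ) < x := by linarith
  have hx1' : 1 ≤ x := by exact_mod_cast hx1
  have ha1 : (1 : ℝ) ≤ X.a := by exact_mod_cast X.a_pos
  set E := e + lam + 1 with hEd
  have up : ∀ (c : ℝ) (t : ℕ), c ≤ x → t < E → c * (x : ℝ) ^ t ≤ ((x ^ E : ℕ) : ℝ) := fun c t hc ht => by
    push_cast
    calc c * (x : ℝ) ^ t ≤ x * (x : ℝ) ^ t := by gcongr
      _ = (x : ℝ) ^ (t + 1) := by ring
      _ ≤ _ := pow_le_pow_right₀ hx1 ht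
  have hKE : 2 * (E * K) ≤ 4 * K * (e + lam) := by
    have : E * K ≤ (2 * (e + lam)) * K := Nat.mul_le_mul_right _ (by omega)
    nlinarith
  have dn : ∀ t, 4 * K * (e + lam) < t → C / (x : ℝ) ^ t ≤ 1 / 16 / (x : ℝ) ^ (2 * (E * K)) := by
    intro t ht
    rw [div_le_div_iff₀ (by positivity) (by positivity)]
    calc C * (x : ℝ) ^ (2 * (E * K)) ≤ (1 / 16 * x) * (x : ℝ) ^ (2 * (E * K)) := by
          gcongr; linarith
      _ = 1 / 16 * (x : ℝ) ^ (2 * (E * K) + 1) := by ring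
      _ ≤ _ := mul_le_mul_of_nonneg_left (pow_le_pow_right₀ hx1 (by omega)) (by norm_num)
  have hε2 : X.ε ≤ 1 / 2 := by
    refine (hε.trans (dn z hz)).trans ?_
    exact (div_le_self (by norm_num) (one_le_pow₀ hx1)).trans (by norm_num)
  have hov : Ov (muL X.U) ((x ^ E : ℕ) : ℝ) := by
    refine (qbase_ov X hε2).mono (le_trans ?_ (up _ e x3 (by omega)))
    rw [div_mul_eq_mul_div]
    refine div_le_div_of_nonneg_right ?_ hβ.le
    linarith
  have hlen : X.U.length ≤ x ^ E := by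
    rw [← Nat.cast_le (α := ℝ)]
    exact hU.trans (up C lam (by linarith) (by omega))
  have hb1 : 1 ≤ x ^ E := Nat.one_le_pow _ _ hx1'
  have h2a : 2 * X.a + 1 ≤ x ^ E := by
    rw [← Nat.cast_le (α := ℝ)]
    refine le_trans ?_ (up (3 * C) e (by linarith) (by omega))
    push_cast
    linarith
  refine ⟨x ^ E, ⟨X.U, X.V, x ^ E, (hl trivial).symm, hD.ne, hlen, hb1, hov⟩,
    x1.trans (Nat.le_self_pow (by omega) x), le_rfl, fun n hn => ?_⟩
  have hn' : x ^ E ≤ n + 1 := by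
    have hn2 : (x ^ E) ^ 2 ≤ (n + 1) * x ^ E := hn
    rw [sq] at hn2
    exact Nat.le_of_mul_le_mul_right hn2 hb1
  have h8 := qbase_tv hm X hB n (by omega)
  refine (sq_le_sq₀ (norm_nonneg _) (by positivity)).1 (h8.trans ?_)
  have e1 : (1 / ((x ^ E : ℕ) : ℝ) ^ K) ^ 2 = 16 * (1 / 16 / (x : ℝ) ^ (2 * (E * K))) := by
    push_cast
    rw [← pow_mul, one_div, inv_pow, ← pow_mul, mul_comm (E * K) 2]
    field_simp
  rw [e1]
  linarith [hε.trans (dn z hz), dn s hs]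

end Pool.Agent.Lib.MP_343fe0_pr
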