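import Pool.Agent.Lib.MP_343fe0_pr.QOv

set_option autoImplicit false

/-! Cells (one displaced copy of `β` in the filler) and sites (Thue-Morse clusters of cells). -/

namespace Pool.Agent.Lib.MP_343fe0_pr

open Finset

/-- `2 c + 1` periods, the one at position `c + v` being `β`. -/
def cell (π β : Wd) (c : ℕ) (v : ℤ) : Wd := π ^ ((c : ℤ) + v).toNat * β * π ^ ((c : ℤ) - v).toNat

/-- `2 ^ p` cells, the cell `i` being displaced by `sgn p i * u`. -/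
def site (π β : Wd) (c p : ℕ) (u : ℤ) : Wd := opr (fun i => cell π β c (sgn p i * u)) (2 ^ p)

lemma qcella_pow (π : Wd) (n : ℕ) : (π ^ n).length = n * π.length := by
  rw [← opr_const (f := fun _ => π) π fun _ _ => rfl]
  exact opr_length _ n _ fun _ _ => rfl

lemma qcella_abs (p i : ℕ) (u : ℤ) : |sgn p i * u| = |u| := by rw [abs_mul, sgn_abs, one_mul]

lemma qcella_nat {c : ℕ} {v : ℤ} (hv : |v| ≤ c) :
    ((c : ℤ) + v).toNat + 1 + ((c : ℤ) - v).toNat = 2 * c + 1 := by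
  have := abs_le.1 hv
  omega

lemma qcella_len (Z : St) (c : ℕ) (v : ℤ) (hv : |v| ≤ c) :
    (cell Z.π Z.β c v).length = (2 * c + 1) * Z.π.length := by
  rw [cell, FreeMonoid.length_mul, FreeMonoid.length_mul, qcella_pow, qcella_pow, Z.len,
    ← qcella_nat hv, add_mul, add_mul, one_mul]

lemma site_length (Z : St) (c p : ℕ) (u : ℤ) (hu : |u| ≤ c) :
    (site Z.π Z.β c p u).length = 2 ^ p * (2 * c + 1) * Z.π.length := by
  rw [site, opr_length _ _ _ fun j _ => qcella_len Z c _ ((qcella_abs p j u).trans_le hu), mul_assoc]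

/-- `opr_inj` at the cell `0` (`sgn_at_zero`), then cancel `π ^ (c - A)` and compare blocks of length `π.length`. -/
lemma site_ne (Z : St) (c p : ℕ) (A : ℤ) (h0 : 0 < A) (hA : A ≤ c) :
    site Z.π Z.β c p (-A) ≠ site Z.π Z.β c p A := by
  intro h
  have h1 : |A| ≤ c := (abs_of_pos h0).trans_le hA
  have h2 := opr_inj _ _ _ _ (fun j _ => qcella_len Z c _ ((qcella_abs p j _).trans_le
    ((abs_neg A).trans_le h1))) (fun j _ => qcella_len Z c _ ((qcella_abs p j _).trans_le h1)) h 0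
    (by positivity)
  obtain ⟨k, hk⟩ : ∃ k, ((c : ℤ) + A).toNat = ((c : ℤ) - A).toNat + 1 + k :=
    Nat.exists_eq_add_of_le (by omega)
  simp only [sgn_at_zero, one_mul, cell, sub_neg_eq_add, ← sub_eq_add_neg] at h2
  conv_rhs at h2 => rw [hk, pow_add, pow_succ]
  simp only [mul_assoc, mul_right_inj] at h2
  have h3 := congrArg FreeMonoid.toList h2
  rw [FreeMonoid.toList_mul, FreeMonoid.toList_mul] at h3
  exact Z.ne (FreeMonoid.toList.injective (List.append_inj h3 Z.len).1).symm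

/-- The law of a site. -/
noncomputable def St.S (Z : St) (c p : ℕ) (u : ℤ) : L1 := muL (site Z.π Z.β c p u)

/-- The perturbation of a cell. -/
noncomputable def St.yv (Z : St) (c : ℕ) (v : ℤ) : L1 :=
  muL Z.π ^ ((c : ℤ) + v).toNat * (muL Z.β - muL Z.π) * muL Z.π ^ ((c : ℤ) - v).toNat

/-- The first order term of a site. -/
noncomputable def St.fs (Z : St) (c p : ℕ) (u : ℤ) : L1 :=
  ∑ i ∈ range (2 ^ p), br1 (muL Z.π ^ (2 * c + 1)) (2 ^ p) i (Z.yv c (sgn p i * u))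

lemma mu_cell (Z : St) (c : ℕ) (v : ℤ) (hv : |v| ≤ c) :
    muL (cell Z.π Z.β c v) = muL Z.π ^ (2 * c + 1) + Z.yv c v := by
  rw [cell, St.yv, map_mul, map_mul, map_pow, map_pow, ← qcella_nat hv, pow_add, pow_succ]
  noncomm_ring

lemma norm_yv (Z : St) (c U : ℕ) (hU : U ≤ c) (v : ℤ) (hv : |v| ≤ U) : ‖Z.yv c v‖ ≤ Z.N (c - U) := by
  have := abs_le.1 hv
  exact norm_pad_mono (norm_muL _).le _ (by omega) (by omega)

lemma qcella_mu (Z : St) (c p U : ℕ) (hU : U ≤ c) (u : ℤ) (hu : |u| ≤ U) (j : ℕ) :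
    muL (cell Z.π Z.β c (sgn p j * u)) = muL Z.π ^ (2 * c + 1) + Z.yv c (sgn p j * u) :=
  mu_cell Z c _ ((qcella_abs p j u).trans_le (hu.trans (Int.ofNat_le.2 hU)))

lemma qcella_one (Z : St) (c p U : ℕ) (hU : U ≤ c) (u : ℤ) (hu : |u| ≤ U) :
    ∀ j < 2 ^ p, ‖muL Z.π ^ (2 * c + 1) + Z.yv c (sgn p j * u)‖ ≤ 1 := fun j _ => by
  rw [← qcella_mu Z c p U hU u hu, norm_muL]

lemma qcella_S (Z : St) (c p U : ℕ) (hU : U ≤ c) (u : ℤ) (hu : |u| ≤ U) : Z.S c p u =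
    opr (fun j => muL Z.π ^ (2 * c + 1) + Z.yv c (sgn p j * u)) (2 ^ p) := by
  rw [St.S, site, map_opr]
  exact opr_congr fun j _ => qcella_mu Z c p U hU u hu j

/-- `map_opr`, `mu_cell`, `opr_p1`. -/
lemma site_p1 (Z : St) (c p U : ℕ) (hU : U ≤ c) (u : ℤ) (hu : |u| ≤ U) :
    ‖Z.S c p u - muL Z.π ^ (2 ^ p * (2 * c + 1))‖ ≤ 2 ^ p * Z.N (c - U) := by
  have h := opr_p1 (norm_pow_le_one (norm_muL Z.π).le (2 * c + 1)) _ (2 ^ p) _
    (qcella_one Z c p U hU u hu) fun j _ => norm_yv Z c U hU _ ((qcella_abs p j u).trans_le hu)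
  rwa [← qcella_S Z c p U hU u hu, ← pow_mul', Nat.cast_pow, Nat.cast_ofNat] at h

/-- `map_opr`, `mu_cell`, `opr_p2`. -/
lemma site_p2 (Z : St) (c p U : ℕ) (hU : U ≤ c) (u : ℤ) (hu : |u| ≤ U) :
    ‖Z.S c p u - muL Z.π ^ (2 ^ p * (2 * c + 1)) - Z.fs c p u‖ ≤ (2 ^ p * Z.N (c - U)) ^ 2 := by
  have h := opr_p2 (norm_pow_le_one (norm_muL Z.π).le (2 * c + 1)) _ (2 ^ p) _
    (qcella_one Z c p U hU u hu) fun j _ => norm_yv Z c U hU _ ((qcella_abs p j u).trans_le hu)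
  rwa [← qcella_S Z c p U hU u hu, ← pow_mul', Nat.cast_pow, Nat.cast_ofNat] at h

lemma qcella_fs (Z : St) (c p U : ℕ) (hU : U ≤ c) (u : ℤ) (hu : |u| ≤ U) :
    ‖Z.fs c p u‖ ≤ 2 ^ p * Z.N (c - U) := by
  refine (norm_sum_le _ _).trans ((sum_le_card_nsmul _ _ (Z.N (c - U)) fun j _ =>
    (norm_pad_le (norm_pow_le_one (norm_muL Z.π).le _) _ _ _).trans
      (norm_yv Z c U hU _ ((qcella_abs p j u).trans_le hu))).trans_eq ?_)
  rw [card_range, nsmul_eq_mul, Nat.cast_pow, Nat.cast_ofNat]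

lemma qcella_sum {ι : Type} (s : Finset ι) (w : ι → ℝ) (y : ι → L1) (ε : ℝ)
    (h : ∀ i ∈ s, ‖y i‖ ≤ ε) : ‖∑ i ∈ s, w i • y i‖ ≤ (∑ i ∈ s, |w i|) * ε := by
  rw [sum_mul]
  exact (norm_sum_le _ _).trans (sum_le_sum fun i hi => (norm_smul_le _ _).trans
    (mul_le_mul_of_nonneg_left (h i hi) (abs_nonneg _)))

/-- Write the combination as `f + s` with `f = ∑ w i • fs (u i)` (`hw` kills the zeroth order), `‖f‖ ≤ (∑ |w i|) 2 ^ p ε`,
`‖s‖ ≤ (∑ |w i|) (2 ^ p ε) ^ 2`, and use `norm_pad_change` for `f` with `site_p1`. -/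
lemma site_comb (Z : St) (c p U n : ℕ) (hU : U ≤ c) (u0 : ℤ) (hu0 : |u0| ≤ U) {ι : Type} (s : Finset ι)
    (w : ι → ℝ) (u : ι → ℤ) (hu : ∀ i ∈ s, |u i| ≤ U) (hw : ∑ i ∈ s, w i = 0) :
    ‖Z.S c p u0 ^ n * (∑ i ∈ s, w i • Z.S c p (u i)) * Z.S c p u0 ^ n‖ ≤
      ‖muL Z.π ^ (n * (2 ^ p * (2 * c + 1))) * (∑ i ∈ s, w i • Z.fs c p (u i)) *
          muL Z.π ^ (n * (2 ^ p * (2 * c + 1)))‖ +
        (∑ i ∈ s, |w i|) * (2 * n + 1) * (2 ^ p * Z.N (c - U)) ^ 2 := by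
  have hm := (norm_muL Z.π).le
  have hx : ‖Z.S c p u0‖ ≤ 1 := (norm_muL _).le
  have e : ∑ i ∈ s, w i • Z.S c p (u i) = ∑ i ∈ s, w i • Z.fs c p (u i) + ∑ i ∈ s, w i •
      (Z.S c p (u i) - muL Z.π ^ (2 ^ p * (2 * c + 1)) - Z.fs c p (u i)) := by
    simp only [smul_sub, sum_sub_distrib, ← Finset.sum_smul, hw, zero_smul, sub_zero,
      add_sub_cancel]
  have h1 := qcella_sum s w _ _ fun i hi => qcella_fs Z c p U hU _ (hu i hi)
  have h2 := qcella_sum s w _ _ fun i hi => site_p2 Z c p U hU _ (hu i hi)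
  have h3 := norm_pad_change hx (norm_pow_le_one hm (2 ^ p * (2 * c + 1)))
    (∑ i ∈ s, w i • Z.fs c p (u i)) n
  have h4 := site_p1 Z c p U hU u0 hu0
  have h5 := mul_le_mul_of_nonneg_left (mul_le_mul h4 h1 (norm_nonneg _) ((norm_nonneg _).trans h4))
    (show (0 : ℝ) ≤ 2 * n by positivity)
  rw [← pow_mul'] at h3
  rw [e, mul_add, add_mul]
  refine (norm_add_le _ _).trans ?_
  linarith [(norm_pad_le hx _ n n).trans h2]

lemma qcellb_sgn (p i U : ℕ) {u : ℤ} (hu : |u| ≤ U) : |sgn p i * u| ≤ U := by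
  rwa [abs_mul, sgn_abs, one_mul]

lemma qcellb_br (m y : L1) (q K i L : ℕ) :
    m ^ L * br1 (m ^ q) K i y * m ^ L = m ^ (L + i * q) * y * m ^ (L + (K - 1 - i) * q) := by
  rw [br1, ← pow_mul, ← pow_mul, add_comm L ((K - 1 - i) * q), pow_add, pow_add, mul_comm q, mul_comm q]
  simp only [mul_assoc]

lemma qcellb_yv (Z : St) (c : ℕ) (v : ℤ) (a b : ℕ) : muL Z.π ^ a * Z.yv c v * muL Z.π ^ b =
    muL Z.π ^ (a + ((c : ℤ) + v).toNat) * (muL Z.β - muL Z.π) * muL Z.π ^ (b + ((c : ℤ) - v).toNat) := by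
  rw [St.yv, add_comm b, pow_add, pow_add]
  simp only [mul_assoc]

lemma qcellb_d (Z : St) : ‖muL Z.β - muL Z.π‖ ≤ 2 := by
  have h := norm_sub_le (muL Z.β) (muL Z.π)
  rw [norm_muL, norm_muL] at h
  linarith

lemma qcellb_two (Z : St) (c p U n : ℕ) (hU : U ≤ c) (u0 u v : ℤ) (hu0 : |u0| ≤ U) (hu : |u| ≤ U)
    (hv : |v| ≤ U) : ‖Z.S c p u0 ^ n * (Z.S c p u - Z.S c p v) * Z.S c p u0 ^ n‖ ≤
      ‖muL Z.π ^ (n * (2 ^ p * (2 * c + 1))) * (Z.fs c p u - Z.fs c p v) *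
          muL Z.π ^ (n * (2 ^ p * (2 * c + 1)))‖ + 2 * (2 * n + 1) * (2 ^ p * Z.N (c - U)) ^ 2 := by
  have h := site_comb Z c p U n hU u0 hu0 univ ![1, -1] ![u, v]
    (fun i _ => by fin_cases i; exacts [hu, hv]) (by simp)
  simp only [Fin.sum_univ_two, Matrix.cons_val_zero, Matrix.cons_val_one, one_smul, neg_smul, abs_neg,
    abs_one, ← sub_eq_add_neg, one_add_one_eq_two] at h
  exact h

lemma qcellb_fs (Z : St) (c p U L : ℕ) (hU : U ≤ c) (u : ℤ) (hu : |u| ≤ U) :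
    ‖muL Z.π ^ L * Z.fs c p u * muL Z.π ^ L‖ ≤ 2 ^ p * Z.N (L + (c - U)) := by
  rw [St.fs, mul_sum, sum_mul]
  refine (norm_sum_le _ _).trans ((sum_le_card_nsmul _ _ (Z.N (L + (c - U))) fun i _ => ?_).trans_eq ?_)
  · have h := abs_le.1 (qcellb_sgn p i U hu)
    rw [qcellb_br, qcellb_yv]
    exact norm_pad_mono (norm_muL _).le _ (by omega) (by omega)
  · rw [card_range, nsmul_eq_mul, Nat.cast_pow, Nat.cast_ofNat]

/-- `site_comb` for two terms; every first order term is padded by `n H + (c - U)` periods. -/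
theorem site_U1 (Z : St) (c p U n : ℕ) (hU : U ≤ c) (u0 u v : ℤ) (hu0 : |u0| ≤ U) (hu : |u| ≤ U) (hv : |v| ≤ U) :
    ‖Z.S c p u0 ^ n * (Z.S c p u - Z.S c p v) * Z.S c p u0 ^ n‖ ≤
      2 * 2 ^ p * Z.N (n * (2 ^ p * (2 * c + 1)) + (c - U)) +
        2 * (2 * n + 1) * (2 ^ p * Z.N (c - U)) ^ 2 := by
  refine (qcellb_two Z c p U n hU u0 u v hu0 hu hv).trans (add_le_add_left ?_ _)
  rw [mul_sub, sub_mul]
  have h1 := qcellb_fs Z c p U (n * (2 ^ p * (2 * c + 1))) hU u hu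
  have h2 := qcellb_fs Z c p U (n * (2 ^ p * (2 * c + 1))) hU v hv
  exact (norm_sub_le _ _).trans (by linarith)

/-- `fs A - fs (-A) = ∑ i, sgn p i • br1 _ _ i (yv A - yv (-A))`; `hide` with `e i = i * (2c+1)`,
`k = (2 ^ p - 1) * (2c+1)`, `tm_dvd`. -/
theorem site_U2 (Z : St) (c p U n n1 : ℕ) (hU : U ≤ c) (u0 A : ℤ) (hu0 : |u0| ≤ U) (hA : |A| ≤ U) (θ : ℝ)
    (hθ : 0 ≤ θ) (h1 : 4 * (((2 ^ p * (2 * c + 1) : ℕ) : ℝ) + 1) ^ 2 * Z.a ≤ θ ^ 2 * (n1 + 1))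
    (h2 : p * n1 ≤ n * (2 ^ p * (2 * c + 1))) :
    ‖Z.S c p u0 ^ n * (Z.S c p A - Z.S c p (-A)) * Z.S c p u0 ^ n‖ ≤
      4 * 2 ^ p * θ ^ p + 2 * (2 * n + 1) * (2 ^ p * Z.N (c - U)) ^ 2 := by
  refine (qcellb_two Z c p U n hU u0 A (-A) hu0 hA (by rwa [abs_neg])).trans (add_le_add_left ?_ _)
  generalize n * (2 ^ p * (2 * c + 1)) = L at h2
  have e : muL Z.π ^ L * (Z.fs c p A - Z.fs c p (-A)) * muL Z.π ^ L =
      ∑ i ∈ range (2 ^ p), (sgn p i : ℝ) • (muL Z.π ^ (L + i * (2 * c + 1)) * (Z.yv c A - Z.yv c (-A)) *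
        muL Z.π ^ (L + ((2 ^ p - 1) * (2 * c + 1) - i * (2 * c + 1)))) := by
    rw [St.fs, St.fs, ← sum_sub_distrib, mul_sum, sum_mul]
    refine sum_congr rfl fun i _ => ?_
    rw [mul_sub, sub_mul, qcellb_br, qcellb_br, ← Nat.sub_mul, mul_sub, sub_mul]
    rcases (abs_eq zero_le_one).1 (sgn_abs p i) with h | h
    · rw [h, one_mul, one_mul, Int.cast_one, one_smul]
    · rw [h, neg_one_mul, neg_one_mul, neg_neg, Int.cast_neg, Int.cast_one, neg_smul, one_smul, neg_sub]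
  have hk : (((2 ^ p - 1) * (2 * c + 1) : ℕ) : ℝ) ≤ ((2 ^ p * (2 * c + 1) : ℕ) : ℝ) :=
    Nat.cast_le.2 (Nat.mul_le_mul_right _ (Nat.sub_le _ _))
  have h := hide (norm_muL Z.π).le Z.ov (range (2 ^ p)) (fun i => (sgn p i : ℝ)) (fun i => i * (2 * c + 1))
    ((2 ^ p - 1) * (2 * c + 1)) p n1 L L
    (fun i hi => Nat.mul_le_mul_right _ (Nat.le_sub_one_of_lt (mem_range.1 hi))) (tm_dvd p _) θ hθ
    (le_trans (by gcongr) h1) h2 h2 (Z.yv c A - Z.yv c (-A))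
  have hs : ∑ i ∈ range (2 ^ p), |(sgn p i : ℝ)| = 2 ^ p := by
    rw [sum_congr rfl fun i _ => by rw [← Int.cast_abs, sgn_abs, Int.cast_one]]
    simp
  have hy : ∀ v, ‖Z.yv c v‖ ≤ 2 := fun v => (norm_pad_le (norm_muL _).le _ _ _).trans (qcellb_d Z)
  have hy' : ‖Z.yv c A - Z.yv c (-A)‖ ≤ 4 :=
    (norm_sub_le _ _).trans (by linarith [hy A, hy (-A)])
  rw [hs] at h
  rw [e]
  exact h.trans ((mul_le_mul_of_nonneg_left hy' (by positivity)).trans_eq (by ring))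

/-- Cell by cell: `hide` with `y = muL β - muL π`, `e i = (U + sgn p j * u i).toNat`, `k = 2 U`, `mom_dvd`. -/
theorem site_U3 (Z : St) (c p U n n1 : ℕ) (hU : U ≤ c) (u0 : ℤ) (hu0 : |u0| ≤ U) {ι : Type} (s : Finset ι)
    (w : ι → ℝ) (u : ι → ℤ) (hu : ∀ i ∈ s, |u i| ≤ U) (hw : ∑ i ∈ s, w i = 0)
    (hmom : ∀ k < p, ∑ i ∈ s, w i * (u i : ℝ) ^ k = 0) (θ : ℝ) (hθ : 0 ≤ θ)
    (h1 : 4 * (2 * (U : ℝ) + 1) ^ 2 * Z.a ≤ θ ^ 2 * (n1 + 1)) (h2 : p * n1 ≤ n * (2 ^ p * (2 * c + 1))) :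
    ‖Z.S c p u0 ^ n * (∑ i ∈ s, w i • Z.S c p (u i)) * Z.S c p u0 ^ n‖ ≤
      2 * 2 ^ p * (∑ i ∈ s, |w i|) * θ ^ p + (∑ i ∈ s, |w i|) * (2 * n + 1) * (2 ^ p * Z.N (c - U)) ^ 2 := by
  refine (site_comb Z c p U n hU u0 hu0 s w u hu hw).trans (add_le_add_left ?_ _)
  generalize n * (2 ^ p * (2 * c + 1)) = L at h2
  have e : muL Z.π ^ L * (∑ i ∈ s, w i • Z.fs c p (u i)) * muL Z.π ^ L =
      ∑ j ∈ range (2 ^ p), ∑ i ∈ s, w i •
        (muL Z.π ^ (L + j * (2 * c + 1) + (c - U) + ((U : ℤ) + sgn p j * u i).toNat) *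
          (muL Z.β - muL Z.π) * muL Z.π ^ (L + (2 ^ p - 1 - j) * (2 * c + 1) + (c - U) +
            (2 * U - ((U : ℤ) + sgn p j * u i).toNat))) := by
    rw [sum_comm, mul_sum, sum_mul]
    refine sum_congr rfl fun i hi => ?_
    rw [mul_smul_comm, smul_mul_assoc, St.fs, mul_sum, sum_mul, smul_sum]
    refine sum_congr rfl fun j _ => ?_
    have h := abs_le.1 (qcellb_sgn p j U (hu i hi))
    rw [qcellb_br, qcellb_yv, add_assoc _ (c - U), add_assoc _ (c - U),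
      show ((c : ℤ) + sgn p j * u i).toNat = c - U + ((U : ℤ) + sgn p j * u i).toNat by omega,
      show ((c : ℤ) - sgn p j * u i).toNat = c - U + (2 * U - ((U : ℤ) + sgn p j * u i).toNat) by omega]
  rw [e]
  refine (norm_sum_le _ _).trans ((sum_le_card_nsmul _ _ ((∑ i ∈ s, |w i|) * θ ^ p * 2)
    fun j _ => ?_).trans_eq ?_)
  · have hb := fun i hi => abs_le.1 (qcellb_sgn p j U (hu i hi))
    refine (hide (norm_muL Z.π).le Z.ov s w (fun i => ((U : ℤ) + sgn p j * u i).toNat) (2 * U) p n1 _ _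
      (fun i hi => by have := hb i hi; omega)
      (mom_dvd s w (fun i => sgn p j * u i) U p (fun i hi => by have := hb i hi; omega) fun k hk => ?_)
      θ hθ (by exact_mod_cast h1) (by omega) (by omega) _).trans
      (mul_le_mul_of_nonneg_left (qcellb_d Z) (by positivity))
    simp only [Int.cast_mul, mul_pow, mul_left_comm (w _), ← mul_sum, hmom k hk, mul_zero]
  · rw [card_range, nsmul_eq_mul, Nat.cast_pow, Nat.cast_ofNat]
    ring

end Pool.Agent.Lib.MP_343fe0_pr
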