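import Pool.Agent.Lib.MP_343fe0_pr.QBase

set_option autoImplicit false

/-! Iteration of the cycle and the final bound. -/

namespace Pool.Agent.Lib.MP_343fe0_pr

/-- The invariant of the iteration. -/
def Inv (Z : St) (b ω : ℕ) : Prop :=
  Z.a ≤ b ^ 8000 ∧ Z.PB b 8000 (8 * ω) ∧ Z.PB b 14000 (15 * ω)

/-- One cycle of the construction. -/
def Cycle : Prop := ∀ (Z : St) (b ω ω' : ℕ), 10 ^ 9 ≤ ω → 2 ^ ((1000 * ω) ^ 20) ≤ b → 57 * ω' ≤ 59 * ω →
  Inv Z b ω → ∃ Z' : St, Inv Z' (b ^ 57) ω'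

/-- The words `π ^ n β π ^ n` and `π ^ n π π ^ n` with `n = b ^ R`; `aff_ge_tv`, `mTr_ge`. -/
theorem mTr_ge_of_PB (Z : St) (b R w : ℕ) (hb : 1 ≤ b) (h : Z.PB b R w) (n : ℕ)
    (hn : (2 * b ^ R + 1) * Z.a ≤ n) : (2 / 3 : ℝ) * (b : ℝ) ^ w ≤ mTr n := by
  generalize hk : b ^ R = k at hn
  have hN : Z.N k ≤ 1 / (b : ℝ) ^ w :=
    h k (hk ▸ (Nat.le_succ k).trans (Nat.le_mul_of_pos_right _ Z.pos))
  have hw : (1 : ℝ) ≤ (b : ℝ) ^ w := one_le_pow₀ (by exact_mod_cast hb)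
  have hw0 : (0 : ℝ) < (b : ℝ) ^ w := by linarith
  have hA := aff_ge_tv (Z.π ^ k * Z.β * Z.π ^ k) (Z.π ^ k * Z.π * Z.π ^ k)
  have e : muL (Z.π ^ k * Z.β * Z.π ^ k) - muL (Z.π ^ k * Z.π * Z.π ^ k) =
      muL Z.π ^ k * (muL Z.β - muL Z.π) * muL Z.π ^ k := by
    rw [map_mul, map_mul, map_mul, map_mul, map_pow, mul_sub, sub_mul]
  rw [e] at hA
  have hp : ∀ j : ℕ, (Z.π ^ j).length = j * Z.π.length := fun j => by
    induction j with
    | zero => simp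
    | succ j ih => rw [pow_succ, FreeMonoid.length_mul, ih, Nat.succ_mul]
  have h3 := mTr_ge (Z.π ^ k * Z.β * Z.π ^ k) (Z.π ^ k * Z.π * Z.π ^ k)
    (fun e => Z.ne (mul_left_cancel (mul_right_cancel e)).symm)
    (by simp only [FreeMonoid.length_mul, Z.len]) (1 / (b : ℝ) ^ w / 2)
    (by
      have : 1 / (b : ℝ) ^ w ≤ 1 := (div_le_one hw0).2 hw
      linarith)
    (le_trans (by
      have : ‖muL Z.π ^ k * (muL Z.β - muL Z.π) * muL Z.π ^ k‖ ≤ 1 / (b : ℝ) ^ w := hN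
      linarith) hA) n
    (by
      simp only [FreeMonoid.length_mul, Z.len, hp]
      refine le_trans (le_of_eq (by ring)) ((Nat.mul_le_mul_left (2 * k + 1) Z.le).trans hn))
  rw [div_div, mul_one_div, le_div_iff₀ (by positivity)] at h3
  linarith

/-- The sequence of profile exponents. -/
def qfinalW (w : ℕ) : ℕ → ℕ
  | 0 => w
  | j + 1 => qfinalW w j + qfinalW w j / 29

lemma qfinal_ge (w j : ℕ) : w ≤ qfinalW w j := by
  induction j with
  | zero => exact le_rfl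
  | succ j ih => exact ih.trans (Nat.le_add_right _ _)

lemma qfinal_geo (w : ℕ) (hw : 870 ≤ w) (j : ℕ) : (31 / 30 : ℝ) ^ j ≤ qfinalW w j := by
  induction j with
  | zero =>
    have : (870 : ℝ) ≤ w := by exact_mod_cast hw
    simp only [qfinalW, pow_zero]
    linarith
  | succ j ih =>
    have h1 := hw.trans (qfinal_ge w j)
    have h2 : 31 * qfinalW w j ≤ 30 * qfinalW w (j + 1) := by
      simp only [qfinalW]
      omega
    have h3 : (31 : ℝ) * qfinalW w j ≤ 30 * qfinalW w (j + 1) := by exact_mod_cast h2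
    rw [pow_succ]
    linarith

lemma qfinal_pow (u v : ℕ) (h : 29 * v ≤ 30 * u) : (1000 * v) ^ 20 ≤ (1000 * u) ^ 20 * 57 := by
  have h1 : (29 * (1000 * v)) ^ 20 ≤ (30 * (1000 * u)) ^ 20 := Nat.pow_le_pow_left (by omega) _
  rw [mul_pow 29, mul_pow 30] at h1
  generalize (1000 * v) ^ 20 = x at h1 ⊢
  generalize (1000 * u) ^ 20 = y at h1 ⊢
  have h2 : 30 ^ 20 * y ≤ 29 ^ 20 * (y * 57) := by
    rw [mul_comm y, ← mul_assoc]
    exact Nat.mul_le_mul_right _ (by norm_num)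
  exact Nat.le_of_mul_le_mul_left (h1.trans h2) (by norm_num)

lemma qfinal_iter (h : Cycle) (w b : ℕ) (hw : 10 ^ 9 ≤ w) (hb : 2 ^ ((1000 * w) ^ 20) ≤ b)
    (Z : St) (hZ : Inv Z b w) (j : ℕ) :
    2 ^ ((1000 * qfinalW w j) ^ 20) ≤ b ^ 57 ^ j ∧ ∃ Z' : St, Inv Z' (b ^ 57 ^ j) (qfinalW w j) := by
  induction j with
  | zero =>
    rw [pow_zero, pow_one]
    exact ⟨hb, Z, hZ⟩
  | succ j ih =>
    obtain ⟨h1, Z', h2⟩ := ih
    rw [pow_succ 57 j, pow_mul]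
    refine ⟨?_, h Z' _ _ _ (hw.trans (qfinal_ge w j)) h1 ?_ h2⟩
    · refine le_trans ?_ (Nat.pow_le_pow_left h1 57)
      rw [← pow_mul]
      refine Nat.pow_le_pow_right (by norm_num) (qfinal_pow _ _ ?_)
      simp only [qfinalW]
      omega
    · simp only [qfinalW]
      omega

lemma qfinal_root : (57 : ℝ) ^ (1 / 200 : ℝ) < 31 / 30 := by
  have h : (57 : ℝ) < (31 / 30) ^ 200 := by
    have h1 : (2 : ℝ) ≤ (31 / 30) ^ 25 := by norm_num
    calc (57 : ℝ) < 2 ^ 8 := by norm_num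
      _ ≤ ((31 / 30) ^ 25) ^ 8 := pow_le_pow_left₀ (by norm_num) h1 8
      _ = _ := by rw [← pow_mul]
  calc (57 : ℝ) ^ (1 / 200 : ℝ) < (((31 / 30 : ℝ)) ^ 200) ^ (1 / 200 : ℝ) :=
        Real.rpow_lt_rpow (by norm_num) h (by norm_num)
    _ = 31 / 30 := by
        rw [one_div]
        exact Real.pow_rpow_inv_natCast (by norm_num) (by norm_num : (200 : ℕ) ≠ 0)

lemma qfinal_low (Z : St) (b w n : ℕ) (hb : 2 ≤ b) (hw : 1 ≤ w) (hZ : Inv Z b w)
    (hn : 3 * b ^ 16000 ≤ n) : (b : ℝ) ^ w ≤ mTr n := by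
  have h1 : 1 ≤ b ^ 8000 := Nat.one_le_pow _ _ (lt_of_lt_of_le two_pos hb)
  have h2 : b ^ 16000 = b ^ 8000 * b ^ 8000 := by rw [← pow_add]
  have h3 := hZ.1
  rw [h2] at hn
  have h4 := mTr_ge_of_PB Z b 8000 (8 * w) (by omega) hZ.2.1 n (by
    generalize b ^ 8000 = k at h1 h3 hn ⊢
    refine le_trans ?_ hn
    rw [← mul_assoc]
    exact Nat.mul_le_mul (by omega) h3)
  have hb' : (2 : ℝ) ≤ b := by exact_mod_cast hb
  have h5 : (b : ℝ) ^ (w + 1) ≤ (b : ℝ) ^ (8 * w) := pow_le_pow_right₀ (by linarith) (by omega)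
  have h6 : (0 : ℝ) ≤ (b : ℝ) ^ w := by positivity
  rw [pow_succ] at h5
  nlinarith

lemma qfinal_log (b n t : ℕ) (hb : 3 ≤ b) (ht : 1 ≤ t) (hn0 : 1 ≤ n) (hn : n ≤ 3 * (b ^ t) ^ 16000) :
    Real.log n ≤ 16001 * Real.log b * t := by
  have hb' : (3 : ℝ) ≤ b := by exact_mod_cast hb
  have h1 : n ≤ b ^ (16001 * t) := by
    refine hn.trans ?_
    rw [← pow_mul, show 16001 * t = t + t * 16000 by ring, pow_add]
    exact Nat.mul_le_mul_right _ (hb.trans (Nat.le_self_pow (by omega) b))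
  have h2 : (n : ℝ) ≤ (b : ℝ) ^ (16001 * t) := by exact_mod_cast h1
  have h3 := Real.log_le_log (by exact_mod_cast hn0) h2
  rw [Real.log_pow] at h3
  push_cast at h3
  linarith

lemma qfinal_main (h : Cycle) (w b : ℕ) (hw : 10 ^ 9 ≤ w) (hb : 2 ^ ((1000 * w) ^ 20) ≤ b)
    (hb3 : 3 ≤ b) (Z : St) (hZ : Inv Z b w) :
    ∃ N : ℕ, ∀ n ≥ N, Real.exp (Real.log n ^ (201 / 200 : ℝ)) ≤ mTr n := by
  have hw1 : 870 ≤ w := le_trans (by norm_num) hw
  have hb' : (3 : ℝ) ≤ b := by exact_mod_cast hb3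
  have hL : 0 < Real.log b := Real.log_pos (by linarith)
  set L := Real.log b with hLd
  set q : ℝ := (57 : ℝ) ^ (1 / 200 : ℝ) with hq
  have q0 : 0 < q := Real.rpow_pos_of_pos (by norm_num) _
  have q1 : 1 < 31 / 30 / q := (one_lt_div q0).2 qfinal_root
  set A : ℝ := (16001 * L * 57) ^ (201 / 200 : ℝ) with hA
  obtain ⟨j0, hj0⟩ := Filter.eventually_atTop.1
    ((tendsto_pow_atTop_atTop_of_one_lt q1).eventually_ge_atTop (A / L))
  refine ⟨3 * (b ^ 57 ^ j0) ^ 16000, fun n hn => ?_⟩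
  classical
  have hex : ∃ j, n < 3 * (b ^ 57 ^ (j0 + j)) ^ 16000 := by
    refine ⟨n, ?_⟩
    have a1 : j0 + n < 57 ^ (j0 + n) := Nat.lt_pow_self (by norm_num)
    have a2 : 57 ^ (j0 + n) < b ^ 57 ^ (j0 + n) := Nat.lt_pow_self (by omega)
    have a3 : b ^ 57 ^ (j0 + n) ≤ (b ^ 57 ^ (j0 + n)) ^ 16000 := Nat.le_self_pow (Nat.succ_ne_zero 15999) _
    generalize (b ^ 57 ^ (j0 + n)) ^ 16000 = y at a3 ⊢
    generalize b ^ 57 ^ (j0 + n) = x at a2 a3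
    generalize 57 ^ (j0 + n) = u at a1 a2
    omega
  have h0 : Nat.find hex ≠ 0 := fun e => by
    have := Nat.find_spec hex
    rw [e, Nat.add_zero] at this
    exact absurd hn (not_le.2 this)
  obtain ⟨i, hi⟩ := Nat.exists_eq_succ_of_ne_zero h0
  have hup := Nat.find_spec hex
  have hlo := not_lt.1 (Nat.find_min hex (show i < Nat.find hex by omega))
  rw [hi] at hup
  set j := j0 + i with hj
  have hup' : n ≤ 3 * (b ^ 57 ^ (j + 1)) ^ 16000 := hup.le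
  obtain ⟨-, Z', hZ'⟩ := qfinal_iter h w b hw hb Z hZ j
  have t1 : ∀ k, 1 ≤ 57 ^ k := fun k => Nat.one_le_pow _ _ (by norm_num)
  have hb2 : 2 ≤ b ^ 57 ^ j := le_trans (by omega) (Nat.le_self_pow (by have := t1 j; omega) b)
  have hm := qfinal_low Z' _ _ n hb2 (le_trans (by omega) (qfinal_ge w j)) hZ' hlo
  have hn1 : 1 ≤ n := by
    refine le_trans ?_ hlo
    have : 1 ≤ (b ^ 57 ^ j) ^ 16000 := Nat.one_le_pow _ _ (by omega)
    generalize (b ^ 57 ^ j) ^ 16000 = y at this ⊢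
    omega
  have hlog := qfinal_log b n _ hb3 (t1 (j + 1)) hn1 hup'
  refine le_trans ?_ hm
  have e1 : ((b ^ 57 ^ j : ℕ) : ℝ) ^ qfinalW w j = Real.exp (qfinalW w j * ((57 : ℝ) ^ j * L)) := by
    have : (57 : ℝ) ^ j = ((57 ^ j : ℕ) : ℝ) := by push_cast; rfl
    rw [Real.exp_nat_mul, this, Real.exp_nat_mul, hLd, Real.exp_log (by linarith), Nat.cast_pow]
  rw [e1, Real.exp_le_exp]
  have p0 : (0 : ℝ) < (57 : ℝ) ^ j := by positivity
  have e2 : Real.log n ^ (201 / 200 : ℝ) ≤ A * ((57 : ℝ) ^ j * q ^ j) := by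
    calc Real.log n ^ (201 / 200 : ℝ) ≤ ((16001 * L * 57) * (57 : ℝ) ^ j) ^ (201 / 200 : ℝ) := by
          refine Real.rpow_le_rpow (Real.log_natCast_nonneg n) (hlog.trans_eq ?_) (by norm_num)
          push_cast
          ring
      _ = A * ((57 : ℝ) ^ j * q ^ j) := by
          rw [Real.mul_rpow (by positivity) p0.le, show (201 / 200 : ℝ) = 1 + 1 / 200 by norm_num,
            Real.rpow_add p0, Real.rpow_one, ← Real.rpow_pow_comm (by norm_num), hA,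
            show (201 / 200 : ℝ) = 1 + 1 / 200 by norm_num]
  refine e2.trans ?_
  have e3 := hj0 j (Nat.le_add_right _ _)
  rw [div_pow, div_le_div_iff₀ hL (pow_pos q0 j)] at e3
  have e4 := mul_le_mul_of_nonneg_right (qfinal_geo w hw1 j) hL.le
  calc A * ((57 : ℝ) ^ j * q ^ j) = (57 : ℝ) ^ j * (A * q ^ j) := by ring
    _ ≤ (57 : ℝ) ^ j * (qfinalW w j * L) := mul_le_mul_of_nonneg_left (e3.trans e4) p0.le
    _ = _ := by ring

lemma qfinal_start (h : Cycle) (w : ℕ) (hw : 10 ^ 9 ≤ w) :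
    ∃ N : ℕ, ∀ n ≥ N, Real.exp (Real.log n ^ (201 / 200 : ℝ)) ≤ mTr n := by
  obtain ⟨b, Z, h1, h2, h3⟩ := qbase (15 * w) (max 3 (2 ^ ((1000 * w) ^ 20)))
  have hb3 : 3 ≤ b := le_of_max_le_left h1
  exact qfinal_main h w b hw (le_of_max_le_right h1) hb3 Z
    ⟨h2.trans (Nat.le_self_pow (Nat.succ_ne_zero 7999) b), h3.mono (by omega) (by norm_num) (by omega),
      h3.mono (by omega) (by norm_num) le_rfl⟩

/-- `b j = b0 ^ (57 ^ j)`, `ω (j+1) = ω j + ω j / 29`, so `(31/30) ^ j ω 0 ≤ ω j ≤ (30/29) ^ j ω 0` and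
`(30/29) ^ 20 ≤ 57`; start with `qbase (15 * 10 ^ 9) (2 ^ ((10 ^ 12) ^ 20))`.  For `n` take the largest `j` with
`3 * b j ^ 16000 ≤ n`; note `57 ^ (201/200) < 57 * 31 / 30`. -/
theorem quasi_of_cycle (h : Cycle) :
    ∃ N : ℕ, ∀ n ≥ N, Real.exp (Real.log n ^ (201 / 200 : ℝ)) ≤ mTr n :=
  qfinal_start h _ le_rfl

end Pool.Agent.Lib.MP_343fe0_pr
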