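import Pool.Agent.Lib.MP_343fe0_pr.QOpS
import Pool.Agent.Lib.MP_343fe0_pr.QFinal

set_option autoImplicit false

/-! One cycle: a short step followed by two long steps. -/

namespace Pool.Agent.Lib.MP_343fe0_pr

/-- A state with a two level profile at the scale `x`. -/
def Two (Z : St) (b x v1 v2 : ℕ) : Prop := Z.a ≤ b ^ (8 * x) ∧ Z.PB b (8 * x) v1 ∧ Z.PB b (14 * x) v2

lemma two_of_opS {Z : St} {b r v1 v2 : ℕ} (hb : 1 ≤ b) (h1 : Z.a ≤ b ^ (8 * r)) (h2 : Z.PB b 0 v1)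
    (h3 : Z.PB b (14 * r + 12) v2) : Two Z b (r + 1) v1 v2 :=
  ⟨h1.trans (Nat.pow_le_pow_right hb (by omega)), h2.mono hb (by omega) le_rfl, h3.mono hb (by omega) le_rfl⟩

lemma size_D {b p r : ℕ} (hb : 2 ^ ((p + (p + 2) ^ 6 * (r + 2) + 10) ^ 3) ≤ b) : 2 ^ (p + 10) ≤ b :=
  le_trans (Nat.pow_le_pow_right two_pos
    (le_trans (by omega) (Nat.le_self_pow (by norm_num) (p + (p + 2) ^ 6 * (r + 2) + 10)))) hb

/-- The short step. -/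
theorem step_short {Z : St} {b x v1 v2 : ℕ} (p r w1 w2 : ℕ)
    (hb : 2 ^ ((p + (p + 2) ^ 6 * (r + 2) + 10) ^ 3) ≤ b) (h : Two Z b x v1 v2) (hx : 10 ≤ x)
    (hr : 14 * x + 13 ≤ 4 * r) (h1 : v2 + 16 * x + 10 ≤ 2 * v1) (h2 : 2 * v1 + 4 * r ≤ 2 * v2)
    (h3 : 12 * r + 5 ≤ v2) (h4 : 8 * x + 6 ≤ v1) (hp : 2 * v1 + 2 * v2 ≤ p) (hw1 : w1 + 8 * r + 9 ≤ 2 * v2)
    (hw2 : w2 + 26 * r + 16 * x + 37 ≤ 2 * v1 + 2 * v2) : ∃ Z' : St, Two Z' b (r + 1) w1 w2 := by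
  have hb1 : 1 ≤ b := le_trans Nat.one_le_two_pow hb
  obtain ⟨ha, hv1, hv2⟩ := h
  obtain ⟨v, rfl⟩ : ∃ v, v2 = v + 2 := ⟨v2 - 2, by omega⟩
  obtain ⟨E, hE⟩ : ∃ E, E + 16 * x + 12 = 2 * v1 := ⟨2 * v1 - (16 * x + 12), by omega⟩
  obtain ⟨Z1, ha1, hk1, hn1⟩ := opD Z b p (8 * x) v1 (size_D hb) ha hv1 (by omega)
  obtain ⟨Z2, ha2, hk2, hn2⟩ := opS Z1 b p r (14 * x + 3) (8 * x + 2) v (2 * (8 * x) + 8) E hb (by omega) ha1
    (by omega) (hk1 _ _ hv2 (by omega)) (hn1 _ (by omega) (by omega)) (by omega) (by omega) (by omega) (by omega)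
    (by omega) (by omega) (by omega)
  exact ⟨Z2, two_of_opS hb1 ha2 (hk2 _ (by omega)) (hn2 _ (by omega))⟩

/-- The long step. -/
theorem step_long {Z : St} {b x v1 v2 : ℕ} (p w1 w2 : ℕ)
    (hb : 2 ^ ((p + (p + 2) ^ 6 * (4 * x + 6 + 2) + 10) ^ 3) ≤ b) (h : Two Z b x v1 v2) (hx : 10 ≤ x)
    (h1 : v2 + 16 * x + 10 ≤ 2 * v1) (h2 : v1 + 20 * x + 20 ≤ v2) (h3 : 40 * x + 50 ≤ v1)
    (hp : 4 * v1 + 2 * v2 ≤ p) (hw1 : w1 + 64 * x + 77 ≤ 4 * v1)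
    (hw2 : w2 + 164 * x + 223 ≤ 4 * v1 + 2 * v2) : ∃ Z' : St, Two Z' b (4 * x + 7) w1 w2 := by
  have hb1 : 1 ≤ b := le_trans Nat.one_le_two_pow hb
  obtain ⟨ha, hv1, hv2⟩ := h
  obtain ⟨v, rfl⟩ : ∃ v, v2 = v + 2 := ⟨v2 - 2, by omega⟩
  obtain ⟨w, hw⟩ : ∃ w, w + 16 * x + 12 = 2 * v1 := ⟨2 * v1 - (16 * x + 12), by omega⟩
  obtain ⟨E, hE⟩ : ∃ E, E + 28 * x + 18 = 2 * v := ⟨2 * v - (28 * x + 18), by omega⟩
  obtain ⟨Z1, ha1, hk1, hn1⟩ := opD Z b p (8 * x) v1 (size_D hb) ha hv1 (by omega)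
  obtain ⟨Z2, ha2, hk2, hn2⟩ := opD Z1 b p (14 * x + 3) v (size_D hb)
    (ha1.trans (Nat.pow_le_pow_right hb1 (by omega))) (hk1 _ _ hv2 (by omega)) (by omega)
  obtain ⟨Z3, ha3, hk3, hn3⟩ := opS Z2 b p (4 * x + 6) (2 * (8 * x) + 8 + 3) (14 * x + 3 + 2) w
    (2 * (14 * x + 3) + 8) E hb (by omega) ha2 (by omega)
    (hk2 _ _ (hn1 _ (by omega) (by omega)) (by omega)) (hn2 _ (by omega) (by omega)) (by omega) (by omega)
    (by omega) (by omega) (by omega) (by omega) (by omega)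
  exact ⟨Z3, two_of_opS hb1 ha3 (hk3 _ (by omega)) (hn3 _ (by omega))⟩

lemma size_cycle {b ω r : ℕ} (hω : 10 ^ 9 ≤ ω) (hb : 2 ^ ((1000 * ω) ^ 20) ≤ b) (hr : r ≤ 60000) :
    2 ^ ((950 * ω + (950 * ω + 2) ^ 6 * (r + 2) + 10) ^ 3) ≤ b := by
  refine le_trans (Nat.pow_le_pow_right two_pos ?_) hb
  set t := 1000 * ω with ht
  have h1 : (950 * ω + 2) ^ 6 ≤ t ^ 6 := Nat.pow_le_pow_left (by omega) 6
  have h2 : t ≤ t ^ 6 := Nat.le_self_pow (by norm_num) t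
  have h3 : 950 * ω + (950 * ω + 2) ^ 6 * (r + 2) + 10 ≤ 60003 * t ^ 6 := by
    have := Nat.mul_le_mul h1 (show r + 2 ≤ 60002 by omega)
    omega
  have h4 : 60003 ^ 3 ≤ t ^ 2 := le_trans (by norm_num) (Nat.pow_le_pow_left (show 10 ^ 12 ≤ t by omega) 2)
  calc _ ≤ (60003 * t ^ 6) ^ 3 := Nat.pow_le_pow_left h3 3
    _ = 60003 ^ 3 * t ^ 18 := by ring
    _ ≤ t ^ 2 * t ^ 18 := Nat.mul_le_mul_right _ h4
    _ = t ^ 20 := by ring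

theorem cycle : Cycle := by
  intro Z b ω ω' hω hb hω' h
  have hb1 : 1 ≤ b := le_trans Nat.one_le_two_pow hb
  have h0 : Two Z b 1000 (8 * ω) (15 * ω) := h
  have hs := fun r hr => size_cycle (r := r) hω hb hr
  norm_num only at hω
  obtain ⟨Z1, h1⟩ := step_short (950 * ω) 3504 (30 * ω - 1000000) (46 * ω - 1000000)
    (hs _ (by omega)) h0 (by omega) (by omega) (by omega) (by omega) (by omega) (by omega) (by omega)
    (by omega) (by omega)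
  obtain ⟨Z2, h2⟩ := step_long (950 * ω) (120 * ω - 10000000) (212 * ω - 10000000)
    (hs _ (by omega)) h1 (by omega) (by omega) (by omega) (by omega) (by omega) (by omega) (by omega)
  obtain ⟨Z3, h3, h4, h5⟩ := step_long (950 * ω) (480 * ω - 100000000) (904 * ω - 100000000)
    (hs _ (by omega)) h2 (by omega) (by omega) (by omega) (by omega) (by omega) (by omega) (by omega)
  refine ⟨Z3, ?_, St.PB.pow (h4.mono hb1 (by omega) (by omega)), St.PB.pow (h5.mono hb1 (by omega) (by omega))⟩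
  rw [← pow_mul]
  exact h3.trans (Nat.pow_le_pow_right hb1 (by omega))

theorem quasi : ∃ N : ℕ, ∀ n ≥ N, Real.exp (Real.log n ^ (201 / 200 : ℝ)) ≤ mTr n := quasi_of_cycle cycle

end Pool.Agent.Lib.MP_343fe0_pr
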