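import Pool.Agent.Lib.MP_343fe0_pr.Core
import Pool.Agent.Lib.MP_343fe0_pr.CoreEq

set_option autoImplicit false

/-! Signed sums with vanishing moments of a sequence with small `p`-th differences. -/

namespace Pool.Agent.Lib.MP_343fe0_pr

open Finset Polynomial

lemma van_poly {ι : Type*} (s : Finset ι) (w z : ι → ℤ) (p : ℕ)
    (hv : ∀ k < p, ∑ i ∈ s, w i * z i ^ k = 0) (Q : ℝ[X]) (hQ : Q.natDegree < p) :
    ∑ i ∈ s, (w i : ℝ) * Q.eval (z i : ℝ) = 0 := by
  simp_rw [eval_eq_sum_range' hQ, mul_sum]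
  rw [sum_comm]
  refine sum_eq_zero fun k hk => ?_
  have h := hv k (mem_range.1 hk)
  have h' : ∑ i ∈ s, (w i : ℝ) * (z i : ℝ) ^ k = 0 := by exact_mod_cast h
  calc ∑ i ∈ s, (w i : ℝ) * (Q.coeff k * (z i : ℝ) ^ k)
      = Q.coeff k * ∑ i ∈ s, (w i : ℝ) * (z i : ℝ) ^ k := by
        rw [mul_sum]; exact sum_congr rfl fun i _ => by ring
    _ = 0 := by rw [h', mul_zero]

lemma van_affine {ι : Type*} (s : Finset ι) (w z : ι → ℤ) (p : ℕ)
    (hv : ∀ k < p, ∑ i ∈ s, w i * z i ^ k = 0) (c e : ℤ) :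
    ∀ k < p, ∑ i ∈ s, w i * (c * z i + e) ^ k = 0 := by
  intro k hk
  simp_rw [add_pow, mul_sum]
  rw [sum_comm]
  refine sum_eq_zero fun j hj => ?_
  have h := hv j (by have := mem_range.1 hj; omega)
  calc ∑ i ∈ s, w i * ((c * z i) ^ j * e ^ (k - j) * (k.choose j : ℤ))
      = (c ^ j * e ^ (k - j) * (k.choose j : ℤ)) * ∑ i ∈ s, w i * z i ^ j := by
        rw [mul_sum]; exact sum_congr rfl fun i _ => by ring
    _ = 0 := by rw [h, mul_zero]

lemma sgn_van (T : ℕ) : ∀ k < T, ∑ g ∈ range (2 ^ T), sgn T g * (g : ℤ) ^ k = 0 := by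
  induction T with
  | zero => intro k hk; omega
  | succ T ih =>
    intro k hk
    have e : 2 ^ (T + 1) = 2 ^ T + 2 ^ T := by ring
    rw [e, sum_range_add]
    have h1 : ∑ g ∈ range (2 ^ T), sgn (T + 1) g * (g : ℤ) ^ k =
        ∑ g ∈ range (2 ^ T), sgn T g * (g : ℤ) ^ k :=
      sum_congr rfl fun g hg => by simp [sgn, mem_range.1 hg]
    have h2 : ∑ g ∈ range (2 ^ T), sgn (T + 1) (2 ^ T + g) * ((2 ^ T + g : ℕ) : ℤ) ^ k =
        -∑ g ∈ range (2 ^ T), sgn T g * ((g : ℤ) + 2 ^ T) ^ k := by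
      rw [← sum_neg_distrib]
      refine sum_congr rfl fun g _ => ?_
      simp only [sgn, add_lt_iff_neg_left, not_lt_zero, if_false, Nat.add_sub_cancel_left]
      push_cast; ring
    rw [h1, h2]
    simp_rw [add_pow, sum_range_succ, mul_add, sum_add_distrib, mul_sum]
    have h3 : ∑ g ∈ range (2 ^ T), ∑ j ∈ range k,
        sgn T g * ((g : ℤ) ^ j * (2 ^ T) ^ (k - j) * (k.choose j : ℤ)) = 0 := by
      rw [sum_comm]
      refine sum_eq_zero fun j hj => ?_
      have h := ih j (by have := mem_range.1 hj; omega)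
      calc ∑ g ∈ range (2 ^ T), sgn T g * ((g : ℤ) ^ j * (2 ^ T) ^ (k - j) * (k.choose j : ℤ))
          = ((2 ^ T) ^ (k - j) * (k.choose j : ℤ)) * ∑ g ∈ range (2 ^ T), sgn T g * (g : ℤ) ^ j := by
            rw [mul_sum]; exact sum_congr rfl fun i _ => by ring
        _ = 0 := by rw [h, mul_zero]
    rw [h3]; simp

lemma newton_rem {E : Type*} [NormedAddCommGroup E] [NormedSpace ℝ E] (p : ℕ) :
    ∀ (f : ℤ → E) (lo hi : ℤ) (d : ℝ), 0 ≤ d →
      (∀ y, lo ≤ y → y + p ≤ hi → ‖(fwdDiff (1 : ℤ))^[p] f y‖ ≤ d) → ∀ n : ℕ, lo + n ≤ hi →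
      ‖f (lo + n) - ∑ k ∈ range p, (n.choose k : ℝ) • (fwdDiff (1 : ℤ))^[k] f lo‖ ≤ (n : ℝ) ^ p * d := by
  induction p with
  | zero =>
    intro f lo hi d _ hf n hn
    simpa using hf (lo + n) (by omega) (by simpa using hn)
  | succ p ih =>
    intro f lo hi d hd hf n
    induction n with
    | zero => intro _; simp [sum_range_succ']
    | succ n ihn =>
      intro hn
      have h1 := ihn (by push_cast at hn; omega)
      have h2 := ih (fwdDiff (1 : ℤ) f) lo (hi - 1) d hd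
        (fun y hy hy' => by
          have := hf y hy (by push_cast; omega)
          rwa [Function.iterate_succ_apply] at this) n (by push_cast at hn; omega)
      have e : f (lo + ((n + 1 : ℕ) : ℤ)) -
          ∑ k ∈ range (p + 1), ((n + 1).choose k : ℝ) • (fwdDiff (1 : ℤ))^[k] f lo =
          (f (lo + n) - ∑ k ∈ range (p + 1), (n.choose k : ℝ) • (fwdDiff (1 : ℤ))^[k] f lo) +
          (fwdDiff (1 : ℤ) f (lo + n) -
            ∑ k ∈ range p, (n.choose k : ℝ) • (fwdDiff (1 : ℤ))^[k] (fwdDiff (1 : ℤ) f) lo) := by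
        rw [sum_range_succ', sum_range_succ' (fun k => (n.choose k : ℝ) • _)]
        simp only [Nat.choose_succ_succ', Nat.cast_add, add_smul, sum_add_distrib,
          Nat.choose_zero_right, Function.iterate_succ_apply, Function.iterate_zero_apply,
          Nat.cast_one]
        have : fwdDiff (1 : ℤ) f (lo + n) = f (lo + (n + 1)) - f (lo + n) := by
          simp [fwdDiff, add_assoc]
        rw [this]; abel
      rw [e]
      refine (norm_add_le _ _).trans ?_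
      have hn0 : (0 : ℝ) ≤ n := Nat.cast_nonneg n
      have h3 : (n : ℝ) ^ (p + 1) + (n : ℝ) ^ p ≤ ((n + 1 : ℕ) : ℝ) ^ (p + 1) := by
        push_cast
        calc (n : ℝ) ^ (p + 1) + (n : ℝ) ^ p = (n : ℝ) ^ p * (n + 1) := by ring
          _ ≤ ((n : ℝ) + 1) ^ p * (n + 1) := by gcongr; linarith
          _ = ((n : ℝ) + 1) ^ (p + 1) := by ring
      nlinarith [mul_le_mul_of_nonneg_right h3 hd]

theorem van_hide {E : Type*} [NormedAddCommGroup E] [NormedSpace ℝ E] {ι : Type*} (s : Finset ι)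
    (w z : ι → ℤ) (p : ℕ) (lo hi : ℤ) (f : ℤ → E) (d : ℝ)
    (hz : ∀ i ∈ s, lo ≤ z i ∧ z i ≤ hi) (hv : ∀ k < p, ∑ i ∈ s, w i * z i ^ k = 0)
    (hf : ∀ y, lo ≤ y → y + p ≤ hi → ‖(fwdDiff (1 : ℤ))^[p] f y‖ ≤ d) (hd : 0 ≤ d) :
    ‖∑ i ∈ s, (w i : ℝ) • f (z i)‖ ≤ (∑ i ∈ s, |(w i : ℝ)|) * ((hi - lo : ℤ) : ℝ) ^ p * d := by
  have hn : ∀ i ∈ s, z i = lo + ((z i - lo).toNat : ℤ) := fun i hi' => by
    have := hz i hi'; omega
  have hch : ∀ k < p, ∑ i ∈ s, (w i : ℝ) * (((z i - lo).toNat.choose k : ℕ) : ℝ) = 0 := by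
    intro k hk
    have hq := van_poly s w (fun i => 1 * z i + -lo) p (van_affine s w z p hv 1 (-lo))
      (descPochhammer ℝ k) (by rw [descPochhammer_natDegree]; exact hk)
    have hk0 : (k.factorial : ℝ) ≠ 0 := by positivity
    apply mul_left_cancel₀ hk0
    rw [mul_zero, mul_sum, ← hq]
    refine sum_congr rfl fun i hi' => ?_
    have e : ((1 * z i + -lo : ℤ) : ℝ) = (((z i - lo).toNat : ℕ) : ℝ) := by
      have : (1 * z i + -lo : ℤ) = ((z i - lo).toNat : ℤ) := by have := hz i hi'; omega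
      rw [this, Int.cast_natCast]
    rw [e, descPochhammer_eval_eq_descFactorial, Nat.descFactorial_eq_factorial_mul_choose]
    push_cast; ring
  have e : ∑ i ∈ s, (w i : ℝ) • f (z i) = ∑ i ∈ s, (w i : ℝ) • (f (lo + ((z i - lo).toNat : ℕ)) -
      ∑ k ∈ range p, (((z i - lo).toNat.choose k : ℕ) : ℝ) • (fwdDiff (1 : ℤ))^[k] f lo) := by
    simp_rw [smul_sub, sum_sub_distrib, smul_sum, smul_smul]
    rw [sum_comm]
    have : ∑ k ∈ range p, ∑ i ∈ s,
        ((w i : ℝ) * (((z i - lo).toNat.choose k : ℕ) : ℝ)) • (fwdDiff (1 : ℤ))^[k] f lo = 0 :=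
      sum_eq_zero fun k hk => by rw [← sum_smul, hch k (mem_range.1 hk), zero_smul]
    rw [this, sub_zero]
    exact sum_congr rfl fun i hi' => by rw [← hn i hi']
  rw [e, sum_mul, sum_mul]
  refine (norm_sum_le _ _).trans (sum_le_sum fun i hi' => ?_)
  rw [norm_smul, Real.norm_eq_abs, mul_assoc]
  refine mul_le_mul_of_nonneg_left ?_ (abs_nonneg _)
  refine (newton_rem p f lo hi d hd hf _ (by rw [← hn i hi']; exact (hz i hi').2)).trans ?_
  refine mul_le_mul_of_nonneg_right ?_ hd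
  have h1 : (((z i - lo).toNat : ℕ) : ℝ) ≤ ((hi - lo : ℤ) : ℝ) := by
    have : ((z i - lo).toNat : ℤ) ≤ hi - lo := by have := hz i hi'; omega
    exact_mod_cast this
  exact pow_le_pow_left₀ (Nat.cast_nonneg _) h1 p

end Pool.Agent.Lib.MP_343fe0_pr
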