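import Pool.Agent.Lib.MP_343fe0_pr.QDesignB
import Pool.Agent.Lib.MP_343fe0_pr.QVan
import Pool.Agent.Lib.MP_343fe0_pr.Pte

set_option autoImplicit false

namespace Pool.Agent.Lib.MP_343fe0_pr

open Finset

/-- Multiplicity of the atom `σ` predicted at the site `w`: positive atoms `inl`, negative atoms `inr`. -/
def ct {J : ℕ} (P : Finset ℤ) (slot : ℤ → Option (Fin J ⊕ Fin J)) (σ : Fin J ⊕ Fin J) (w : ℤ) : ℤ :=
  if w ∈ P then (match σ with | Sum.inl _ => 1 | Sum.inr _ => -1) else if slot w = some σ then 1 else 0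

/-- A signed pattern `P` of extent `N`, isolated at distance `g`, with marked sites around it such that what is
seen from the pattern at each lag `|l| ≤ W` has `p` vanishing moments. -/
structure Design (J p g N W : ℕ) where
  P : Finset ℤ
  η : ℤ → ℤ
  slot : ℤ → Option (Fin J ⊕ Fin J)
  ne : P.Nonempty
  rng : ∀ i ∈ P, 0 ≤ i ∧ i ≤ N
  sg : ∀ i ∈ P, η i = 1 ∨ η i = -1
  iso : ∀ i ∈ P, ∀ w : ℤ, w ≠ i → (w ∈ P ∨ slot w ≠ none) → (g : ℤ) ≤ |w - i|
  mom0 : ∀ k < p, ∑ i ∈ P, η i * i ^ k = 0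
  mom : ∀ (σ : Fin J ⊕ Fin J) (l : ℤ), |l| ≤ W → ∀ k < p, ∑ i ∈ P, η i * ct P slot σ (i + l) * i ^ k = 0

lemma qdesign_box {ι : Type} [Fintype ι] [DecidableEq ι] (p : ℕ) (n : ι → ℤ) (A : ι) (f : ℤ → ℤ)
    (hf : Function.Periodic f (n A)) (k : ℕ) (hk : k < p) :
    ∑ γ : ι → Fin (2 ^ p), (∏ B, sgn p (γ B)) * f (∑ B, ((γ B : ℕ) : ℤ) * n B) *
      (∑ B, ((γ B : ℕ) : ℤ) * n B) ^ k = 0 := by
  obtain ⟨F, hF⟩ : ∃ F : (ι → Fin (2 ^ p)) → ℤ, F = fun γ => (∏ B, sgn p (γ B)) *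
    f (∑ B, ((γ B : ℕ) : ℤ) * n B) * (∑ B, ((γ B : ℕ) : ℤ) * n B) ^ k := ⟨_, rfl⟩
  have hinv : Function.Involutive fun q : (ι → Fin (2 ^ p)) × Fin (2 ^ p) =>
      (Function.update q.1 A q.2, q.1 A) := fun q => by simp
  have h1 := Equiv.sum_comp (hinv.toPerm _) fun q : (ι → Fin (2 ^ p)) × Fin (2 ^ p) => F q.1
  simp only [Function.Involutive.coe_toPerm, Fintype.sum_prod_type, sum_const, card_univ,
    Fintype.card_fin, nsmul_eq_mul, ← mul_sum] at h1
  have h2 : ∀ γ, ∑ c, F (Function.update γ A c) = 0 := fun γ => by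
    have e1 : ∀ c, ∏ B, sgn p (Function.update γ A c B) = sgn p c * ∏ B ∈ univ.erase A, sgn p (γ B) :=
      fun c => by
        rw [← mul_prod_erase univ _ (mem_univ A), Function.update_self]
        congr 1
        exact prod_congr rfl fun B hB => by rw [Function.update_of_ne (ne_of_mem_erase hB)]
    have e2 : ∀ c, ∑ B, ((Function.update γ A c B : ℕ) : ℤ) * n B =
        ∑ B ∈ univ.erase A, ((γ B : ℕ) : ℤ) * n B + ((c : ℕ) : ℤ) * n A := fun c => by
      rw [← sum_erase_add univ _ (mem_univ A), Function.update_self]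
      congr 1
      exact sum_congr rfl fun B hB => by rw [Function.update_of_ne (ne_of_mem_erase hB)]
    simp only [hF, e1, e2, (hf.nat_mul _) _]
    have h3 := van_affine (range (2 ^ p)) (sgn p) (fun g => (g : ℤ)) p (sgn_van p) (n A)
      (∑ B ∈ univ.erase A, ((γ B : ℕ) : ℤ) * n B) k hk
    rw [← Fin.sum_univ_eq_sum_range fun g => sgn p g * (n A * (g : ℤ) +
      ∑ B ∈ univ.erase A, ((γ B : ℕ) : ℤ) * n B) ^ k] at h3
    have h4 := congrArg (((∏ B ∈ univ.erase A, sgn p (γ B)) *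
      f (∑ B ∈ univ.erase A, ((γ B : ℕ) : ℤ) * n B)) * ·) h3
    simp only [mul_zero, mul_sum univ] at h4
    rw [← h4]
    exact sum_congr rfl fun c _ => by ring
  simp only [h2, sum_const_zero] at h1
  have h5 : ((2 ^ p : ℕ) : ℤ) ≠ 0 := by positivity
  have := (mul_eq_zero.1 h1.symm).resolve_left h5
  rwa [hF] at this

lemma qdesign_hb (p m b : ℕ) (hb : 2 ^ ((p + m + 10) ^ 3) ≤ b) :
    (1024 * 2 ^ p * (m + 1) ^ 2) ^ (m + 4) ≤ b := by
  have h1 : m + 1 ≤ 2 ^ m := Nat.lt_two_pow_self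
  have h2 : 1024 * 2 ^ p * (m + 1) ^ 2 ≤ 2 ^ (10 + p + m * 2) := by
    rw [pow_add, pow_add, pow_mul]
    exact Nat.mul_le_mul_left _ (Nat.pow_le_pow_left h1 2)
  refine (Nat.pow_le_pow_left h2 _).trans (le_trans ?_ hb)
  rw [← pow_mul]
  refine Nat.pow_le_pow_right (by omega) ?_
  calc (10 + p + m * 2) * (m + 4) ≤ (2 * (p + m + 10)) * (p + m + 10) := Nat.mul_le_mul (by omega) (by omega)
    _ ≤ ((p + m + 10) * (p + m + 10)) * (p + m + 10) :=
      Nat.mul_le_mul_right _ (Nat.mul_le_mul_right _ (by omega))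
    _ = (p + m + 10) ^ 3 := by ring

/-- The atom carried by a period. -/
def qdesignAtom {J r : ℕ} : Fin J × Option (Fin (r + 1)) → Fin J ⊕ Fin J
  | (j, none) => Sum.inl j
  | (j, some _) => Sum.inr j

open Classical in
lemma qdesign_ct {J r : ℕ} (P : Finset ℤ) (Q : Idx J r → Set ℤ) (slot : ℤ → Option (Fin J ⊕ Fin J)) (w : ℤ)
    (hP : w ∈ P → w ∈ Q none ∧ (∀ j, w ∈ Q (some (j, none))) ∧ ∀ j t, w ∉ Q (some (j, some t)))
    (hoff : w ∉ P → (w ∈ Q none ∧ (∀ j, w ∉ Q (some (j, none))) ∧ ∀ j, ∃! t, w ∈ Q (some (j, some t))) ∨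
      (w ∉ Q none ∧ ∀ L L', w ∈ Q (some L) → w ∈ Q (some L') → L = L'))
    (hs : ∀ σ, slot w = some σ → w ∉ Q none ∧ ∃ L, w ∈ Q (some L) ∧ qdesignAtom L = σ)
    (hs' : w ∉ Q none → (∃ L, w ∈ Q (some L)) → slot w ≠ none) (j : Fin J) :
    ct P slot (Sum.inl j) w = (if w ∈ Q (some (j, none)) then 1 else 0) ∧
    ct P slot (Sum.inr j) w = ∑ t, (if w ∈ Q (some (j, some t)) then 1 else 0) -
      (if w ∈ Q none then 1 else 0) := by
  by_cases hw : w ∈ P
  · obtain ⟨h1, h2, h3⟩ := hP hw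
    simp [ct, hw, h1, h2, h3]
  rcases hoff hw with ⟨h1, h2, h3⟩ | ⟨h1, h2⟩
  · have h4 : ∀ σ, slot w ≠ some σ := fun σ h => (hs σ h).1 h1
    obtain ⟨t, ht, ht'⟩ := h3 j
    have h5 : ∑ t, (if w ∈ Q (some (j, some t)) then (1 : ℤ) else 0) = 1 := by
      rw [sum_eq_single t (fun t' _ h => if_neg fun h' => h (ht' t' h')) (by simp), if_pos ht]
    simp only [ct, hw, h4, h2, h5, h1, if_false, if_true, sub_self, and_self]
  · have key : ∀ L, w ∈ Q (some L) → slot w = some (qdesignAtom L) := fun L hL => by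
      obtain ⟨σ, hσ⟩ := Option.ne_none_iff_exists'.1 (hs' h1 ⟨L, hL⟩)
      obtain ⟨-, L', a1, a2⟩ := hs σ hσ
      rw [hσ, ← a2, h2 L' L a1 hL]
    simp only [ct, hw, h1, if_false, sub_zero]
    constructor
    · by_cases h3 : w ∈ Q (some (j, none))
      · rw [if_pos h3, if_pos (show slot w = some (Sum.inl j) from key _ h3)]
      · rw [if_neg h3, if_neg]
        intro h4
        obtain ⟨-, ⟨j', _ | t⟩, a1, a2⟩ := hs _ h4
        · simp only [qdesignAtom, Sum.inl.injEq] at a2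
          exact h3 (a2 ▸ a1)
        · simp [qdesignAtom] at a2
    · by_cases h3 : ∃ t, w ∈ Q (some (j, some t))
      · obtain ⟨t, ht⟩ := h3
        rw [if_pos (show slot w = some (Sum.inr j) from key _ ht), sum_eq_single t (fun t' _ h => if_neg fun h' => h (by
          simpa using h2 _ _ h' ht)) (by simp), if_pos ht]
      · rw [if_neg, sum_eq_zero fun t _ => if_neg fun h => h3 ⟨t, h⟩]
        intro h4
        obtain ⟨-, ⟨j', _ | t⟩, a1, a2⟩ := hs _ h4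
        · simp [qdesignAtom] at a2
        · simp only [qdesignAtom, Sum.inr.injEq] at a2
          exact h3 ⟨t, a2 ▸ a1⟩

theorem qdesign (J p r b : ℕ) (hr : 1 ≤ r) (hb : 2 ^ ((p + J * (r + 2) + 10) ^ 3) ≤ b) :
    Nonempty (Design J p (b ^ (3 * r)) (b ^ (3 * r + 12)) (b ^ (4 * r))) := by
  classical
  have _ := hr
  have a : (Fin J × Option (Fin (r + 1))) ≃ Fin (J * (r + 2)) := Fintype.equivFinOfCardEq (by simp)
  obtain ⟨D⟩ := DP.nonempty r (2 ^ p) b _ Nat.one_le_two_pow (qdesign_hb p _ b hb)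
  obtain ⟨slot, hslot⟩ : ∃ slot : ℤ → Option (Fin J ⊕ Fin J), slot = fun w =>
    if h : w ∉ D.QQ a none ∧ ∃ L, w ∈ D.QQ a (some L) then some (qdesignAtom h.2.choose) else none := ⟨_, rfl⟩
  have hs : ∀ w σ, slot w = some σ → w ∉ D.QQ a none ∧ ∃ L, w ∈ D.QQ a (some L) ∧ qdesignAtom L = σ := by
    intro w σ h
    simp only [hslot] at h
    split_ifs at h with h1
    exact ⟨h1.1, _, h1.2.choose_spec, Option.some.inj h⟩
  have hs' : ∀ w, w ∉ D.QQ a none → (∃ L, w ∈ D.QQ a (some L)) → slot w ≠ none := by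
    intro w h1 h2
    simp only [hslot]
    rw [dif_pos ⟨h1, h2⟩]; simp
  obtain ⟨η, hη⟩ : ∃ η : ℤ → ℤ, ∀ γ, η (D.pt a γ) = ∏ B, sgn p (γ B) :=
    ⟨Function.extend (D.pt a) (fun γ => ∏ B, sgn p (γ B)) fun _ => 1, (D.pt_inj a).extend_apply _ _⟩
  have hmem : ∀ i, i ∈ univ.image (D.pt a) ↔ ∃ γ, D.pt a γ = i := fun i => by simp
  have hmom : ∀ (A : Idx J r) (l : ℤ), ∀ k < p, ∑ γ : Idx J r → Fin (2 ^ p), (∏ B, sgn p (γ B)) *
      (if D.pt a γ + l ∈ D.QQ a A then 1 else 0) * D.pt a γ ^ k = 0 := fun A l k hk =>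
    qdesign_box p (D.nn a) A (fun z => if z + l ∈ D.QQ a A then 1 else 0)
      (fun z => by simp only [add_right_comm z (D.nn a A) l, D.per]) k hk
  refine ⟨⟨univ.image (D.pt a), η, slot, univ_nonempty.image _, fun i hi => ?_, fun i hi => ?_,
    fun i hi w hw hc => ?_, fun k hk => ?_, fun σ l hl k hk => ?_⟩⟩
  · obtain ⟨γ, rfl⟩ := (hmem i).1 hi
    exact ⟨(D.pt_le a γ).1, D.pt_rng a γ⟩
  · obtain ⟨γ, rfl⟩ := (hmem i).1 hi
    rw [hη]
    refine prod_induction _ (fun x => x = 1 ∨ x = -1) ?_ (Or.inl rfl) fun B _ => sgn_cases _ _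
    rintro x y (rfl | rfl) (rfl | rfl) <;> simp
  · obtain ⟨γ, rfl⟩ := (hmem i).1 hi
    refine D.hg.trans (D.iso a γ w hw ?_)
    rcases hc with h | h
    · obtain ⟨γ', rfl⟩ := (hmem w).1 h
      exact Or.inl ⟨γ', rfl⟩
    · obtain ⟨σ, hσ⟩ := Option.ne_none_iff_exists'.1 h
      obtain ⟨-, L, h1, -⟩ := hs w σ hσ
      exact Or.inr ⟨L, h1⟩
  · rw [sum_image fun _ _ _ _ h => D.pt_inj a h]
    simp only [hη]
    have := qdesign_box p (D.nn a) none (fun _ => 1) (fun _ => rfl) k hk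
    simp only [mul_one] at this
    exact this
  · rw [sum_image fun _ _ _ _ h => D.pt_inj a h]
    simp only [hη]
    have hct := fun γ : Idx J r → Fin (2 ^ p) => qdesign_ct (univ.image (D.pt a)) (D.QQ a) slot (D.pt a γ + l)
      (fun h => by obtain ⟨γ', h'⟩ := (hmem _).1 h; rw [← h']; exact D.onP a γ')
      (fun h => D.off a _ (D.pt_win a γ l hl) fun γ' h' => h ((hmem _).2 ⟨γ', h'.symm⟩))
      (hs _) (hs' _)
    obtain j | j := σ
    · simp only [fun γ => (hct γ j).1]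
      exact hmom _ l k hk
    · simp only [fun γ => (hct γ j).2, mul_sub, sub_mul, sum_sub_distrib, mul_sum, sum_mul]
      rw [sum_comm, hmom none l k hk, sub_zero]
      exact sum_eq_zero fun t _ => hmom _ l k hk

end Pool.Agent.Lib.MP_343fe0_pr
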