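import Mathlib

set_option autoImplicit false

/-! Arithmetic lemmas behind the design. -/

namespace Pool.Agent.Lib.MP_343fe0_pr

open Finset

lemma des_digits (B : ℤ) (hB : 0 < B) : ∀ (m : ℕ) (c : Fin m → ℤ) (d : ℤ), (∀ i, |c i| < B) →
    ∑ i, c i * B ^ (i : ℕ) + d * B ^ m = 0 → (∀ i, c i = 0) ∧ d = 0 := by
  intro m
  induction m with
  | zero => intro c d _ h; exact ⟨fun i => i.elim0, by simpa using h⟩
  | succ m ih =>
    intro c d hc h
    rw [Fin.sum_univ_castSucc] at h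
    simp only [Fin.val_castSucc, Fin.val_last] at h
    obtain ⟨h1, h2⟩ := ih (fun i => c i.castSucc) (c (Fin.last m) + d * B) (fun i => hc _)
      (by rw [← h]; ring)
    have h3 : c (Fin.last m) = 0 :=
      Int.eq_zero_of_abs_lt_dvd ⟨-d, by linear_combination h2⟩ (hc _)
    have h4 : d = 0 := by
      rw [h3, zero_add] at h2
      exact (mul_eq_zero.1 h2).resolve_right hB.ne'
    exact ⟨fun i => Fin.lastCases h3 h1 i, h4⟩

variable {Λ : Type} [Fintype Λ] [DecidableEq Λ] {m0 : ℕ} (a : Λ ≃ Fin m0) (e : Λ → ℤ) (N0 X B : ℤ)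

/-- The periods. -/
def desN : Option Λ → ℤ
  | none => N0 * B ^ m0
  | some L => N0 * (B ^ m0 + B ^ (a L : ℕ)) - e L + X + (a L : ℕ)

/-- The position of a formal vector. -/
def desPhi (κ : Option Λ → ℤ) : ℤ := ∑ A, κ A * desN a e N0 X B A

omit [DecidableEq Λ] in
lemma desPhi_sub (κ κ' : Option Λ → ℤ) :
    desPhi a e N0 X B (κ - κ') = desPhi a e N0 X B κ - desPhi a e N0 X B κ' := by
  simp [desPhi, sub_mul]

lemma desPhi_single (κ : Option Λ → ℤ) (A : Option Λ) (c : ℤ) :
    desPhi a e N0 X B (κ + Pi.single A c) = desPhi a e N0 X B κ + c * desN a e N0 X B A := by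
  simp [desPhi, add_mul, sum_add_distrib, Pi.single_apply]

omit [DecidableEq Λ] in
lemma desPhi_eq (κ : Option Λ → ℤ) : desPhi a e N0 X B κ =
    N0 * (∑ L, κ (some L) * B ^ (a L : ℕ) + (κ none + ∑ L, κ (some L)) * B ^ m0) +
      ∑ L, κ (some L) * (-e L + X + (a L : ℕ)) := by
  simp only [desPhi, Fintype.sum_option, desN, add_mul, mul_add, sum_mul, mul_sum]
  rw [add_assoc, add_left_comm, add_assoc, ← sum_add_distrib, ← sum_add_distrib, mul_left_comm]
  congr 1
  exact sum_congr rfl fun L _ => by ring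

omit [DecidableEq Λ] in
include a in
lemma des_card : (Fintype.card Λ : ℤ) = m0 := by
  rw [Fintype.card_congr a, Fintype.card_fin]

omit [DecidableEq Λ] in
include a in
lemma des_sum_le (f : Λ → ℤ) (c : ℤ) (h : ∀ L, |f L| ≤ c) : |∑ L, f L| ≤ m0 * c := by
  refine (abs_sum_le_sum_abs _ _).trans ((sum_le_sum fun L _ => h L).trans ?_)
  rw [sum_const, card_univ, nsmul_eq_mul, des_card a]

include a in
lemma des_sum_erase (f : Λ → ℤ) (L0 : Λ) (c : ℤ) (hc : 0 ≤ c) (h : ∀ L, L ≠ L0 → |f L| ≤ c) :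
    |∑ L, f L - f L0| ≤ m0 * c := by
  have : ∑ L, f L - f L0 = ∑ L, if L = L0 then 0 else f L := by
    rw [sub_eq_iff_eq_add, ← sum_erase_add _ _ (mem_univ L0), ← sum_erase_add _ _ (mem_univ L0)]
    simp only [if_true, add_zero, add_left_inj]
    exact sum_congr rfl fun L hL => by rw [if_neg (ne_of_mem_erase hL)]
  rw [this]
  refine des_sum_le a _ _ fun L => ?_
  split_ifs with h1
  · simpa using hc
  · exact h L h1

omit [DecidableEq Λ] in
lemma des_int {Y : ℤ} (hB : 0 < B) (hN : 0 < N0) (herr : ∀ L, |-e L + X + (a L : ℕ)| ≤ Y)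
    (hY : 2 * (m0 * (B * Y)) ≤ N0) (κ : Option Λ → ℤ) (hκ : ∀ L, |κ (some L)| < B) (hne : κ ≠ 0) :
    N0 ≤ 2 * |desPhi a e N0 X B κ| := by
  have hI : ∑ L, κ (some L) * B ^ (a L : ℕ) + (κ none + ∑ L, κ (some L)) * B ^ m0 ≠ 0 := by
    intro h0
    rw [← a.symm.sum_comp] at h0
    simp only [Equiv.apply_symm_apply] at h0
    obtain ⟨h1, h2⟩ := des_digits B hB m0 (fun i => κ (some (a.symm i))) _ (fun i => hκ _) h0
    have h3 : ∀ L, κ (some L) = 0 := fun L => by simpa using h1 (a L)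
    apply hne
    funext A
    cases A with
    | none => simpa [h3] using h2
    | some L => exact h3 L
  have h1 := Int.one_le_abs hI
  have h2 := des_sum_le a (fun L => κ (some L) * (-e L + X + (a L : ℕ))) (B * Y) fun L => by
    rw [abs_mul]; exact mul_le_mul (hκ L).le (herr L) (abs_nonneg _) hB.le
  rw [desPhi_eq]
  set I := ∑ L, κ (some L) * B ^ (a L : ℕ) + (κ none + ∑ L, κ (some L)) * B ^ m0
  set E := ∑ L, κ (some L) * (-e L + X + (a L : ℕ))
  have h3 : |N0 * I| ≤ |N0 * I + E| + |E| := by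
    simpa using abs_sub (N0 * I + E) E
  rw [abs_mul, abs_of_pos hN] at h3
  nlinarith

lemma des_bound {M c : ℤ} (hM : 0 < M) (hc : 0 ≤ c) (h0 : desN a e N0 X B none = M)
    (hn : ∀ L, M ≤ desN a e N0 X B (some L) ∧ desN a e N0 X B (some L) ≤ 2 * M)
    (κ : Option Λ → ℤ) (L0 : Λ) (hs : ∀ L, L ≠ L0 → |κ (some L)| ≤ c) :
    |κ (some L0)| * M ≤ |desPhi a e N0 X B κ| + |κ none| * M + 2 * (m0 * c) * M ∧
    |κ none| * M ≤ |desPhi a e N0 X B κ| + 2 * |κ (some L0)| * M + 2 * (m0 * c) * M := by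
  have h1 := des_sum_erase a (fun L => κ (some L) * desN a e N0 X B (some L)) L0 (c * (2 * M))
    (by positivity) fun L hL => by
      rw [abs_mul, abs_of_pos (hM.trans_le (hn L).1)]
      exact mul_le_mul (hs L hL) (hn L).2 (hM.le.trans (hn L).1) hc
  have h2 : desPhi a e N0 X B κ = κ none * M + ∑ L, κ (some L) * desN a e N0 X B (some L) := by
    rw [desPhi, Fintype.sum_option, h0]
  set S := ∑ L, κ (some L) * desN a e N0 X B (some L)
  set n := desN a e N0 X B (some L0)
  have hn0 := hn L0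
  have a1 : |κ (some L0) * n| = |κ (some L0)| * n := by rw [abs_mul, abs_of_pos (hM.trans_le hn0.1)]
  have a2 : |κ none * M| = |κ none| * M := by rw [abs_mul, abs_of_pos hM]
  have a3 : |κ (some L0)| * M ≤ |κ (some L0)| * n := mul_le_mul_of_nonneg_left hn0.1 (abs_nonneg _)
  have a4 : |κ (some L0)| * n ≤ |κ (some L0)| * (2 * M) := mul_le_mul_of_nonneg_left hn0.2 (abs_nonneg _)
  have a5 : |κ (some L0) * n| ≤ |κ none * M + S| + |κ none * M| + |S - κ (some L0) * n| := by
    have := abs_sub (κ none * M + S) (κ none * M)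
    have := abs_sub S (S - κ (some L0) * n)
    simp only [add_sub_cancel_left, sub_sub_cancel] at *
    linarith
  have a6 : |κ none * M| ≤ |κ none * M + S| + |κ (some L0) * n| + |S - κ (some L0) * n| := by
    have := abs_sub (κ none * M + S) S
    have := abs_add_le (κ (some L0) * n) (S - κ (some L0) * n)
    simp only [add_sub_cancel_right, add_sub_cancel] at *
    linarith
  rw [h2]
  constructor <;> nlinarith

omit [DecidableEq Λ] in
lemma des_bound0 {M c : ℤ} (hM : 0 < M) (hc : 0 ≤ c) (h0 : desN a e N0 X B none = M)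
    (hn : ∀ L, M ≤ desN a e N0 X B (some L) ∧ desN a e N0 X B (some L) ≤ 2 * M)
    (κ : Option Λ → ℤ) (hs : ∀ L, |κ (some L)| ≤ c) :
    |κ none| * M ≤ |desPhi a e N0 X B κ| + 2 * (m0 * c) * M ∧
    |desPhi a e N0 X B κ| ≤ |κ none| * M + 2 * (m0 * c) * M := by
  have h1 := des_sum_le a (fun L => κ (some L) * desN a e N0 X B (some L)) (c * (2 * M)) fun L => by
      rw [abs_mul, abs_of_pos (hM.trans_le (hn L).1)]
      exact mul_le_mul (hs L) (hn L).2 (hM.le.trans (hn L).1) hc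
  have h2 : desPhi a e N0 X B κ = κ none * M + ∑ L, κ (some L) * desN a e N0 X B (some L) := by
    rw [desPhi, Fintype.sum_option, h0]
  set S := ∑ L, κ (some L) * desN a e N0 X B (some L)
  have a2 : |κ none * M| = |κ none| * M := by rw [abs_mul, abs_of_pos hM]
  have a6 : |κ none * M| ≤ |κ none * M + S| + |S| := by
    simpa using abs_sub (κ none * M + S) S
  have a7 := abs_add_le (κ none * M) S
  rw [h2]
  constructor <;> nlinarith

lemma des_small {c : ℤ} (hc : 0 ≤ c) (κ : Λ → ℤ) (L1 L2 : Λ)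
    (hs : ∀ L, L ≠ L1 → L ≠ L2 → |κ L| ≤ c) (h0 : ∑ L, κ L * (a L : ℕ) = 0) (h1 : ∑ L, κ L = 0) :
    |κ L1| ≤ m0 * (c * m0) + m0 * c := by
  have p1 : 0 ≤ (m0 : ℤ) * (c * m0) := by positivity
  have p2 : 0 ≤ (m0 : ℤ) * c := by positivity
  by_cases h : L1 = L2
  · subst h
    have := des_sum_erase a κ L1 c hc fun L hL => hs L hL hL
    rw [h1, zero_sub, abs_neg] at this
    linarith
  · have hd : ∀ L : Λ, |((a L : ℕ) : ℤ) - (a L2 : ℕ)| ≤ m0 := fun L => by
      have := (a L).2; have := (a L2).2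
      rw [abs_le]; constructor <;> omega
    have := des_sum_erase a (fun L => κ L * (((a L : ℕ) : ℤ) - (a L2 : ℕ))) L1 (c * m0) (by positivity)
      fun L hL => by
        by_cases h2 : L = L2
        · subst h2; simp; positivity
        · rw [abs_mul]; exact mul_le_mul (hs L hL h2) (hd L) (abs_nonneg _) hc
    have e1 : ∑ L, κ L * (((a L : ℕ) : ℤ) - (a L2 : ℕ)) = 0 := by
      simp only [mul_sub, sum_sub_distrib, ← sum_mul, h0, h1]; simp
    rw [e1, zero_sub, abs_neg, abs_mul] at this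
    have hne : ((a L1 : ℕ) : ℤ) - (a L2 : ℕ) ≠ 0 := fun h3 =>
      h (a.injective (Fin.ext (by omega)))
    have := Int.one_le_abs hne
    nlinarith [abs_nonneg (κ L1)]

lemma des_dio {Y c K : ℤ} (hB : 0 < B) (hN : 0 < N0) (herr : ∀ L, |-e L + X + (a L : ℕ)| ≤ Y)
    (hY : 2 * (m0 * (B * Y)) ≤ N0) (hc : 0 ≤ c) (hK : 0 ≤ K) (hX : (m0 * c + 2 * K) * (m0 + 1) < X)
    (he : ∀ L, X ^ 2 ∣ e L) (hN0 : X ^ 2 ∣ N0) (hcB : c + m0 * (c * m0) + m0 * c < B)
    (κ : Option Λ → ℤ) (L1 L2 : Λ) (hs : ∀ L, L ≠ L1 → L ≠ L2 → |κ (some L)| ≤ c)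
    (h1 : |κ (some L1)| ≤ K) (h2 : |κ (some L2)| ≤ K) (h0 : desPhi a e N0 X B κ = 0) : κ = 0 := by
  have hsum : ∑ L, |κ (some L)| ≤ m0 * c + 2 * K := by
    calc ∑ L, |κ (some L)| ≤ ∑ L : Λ, (c + (if L = L1 then K else 0) + (if L = L2 then K else 0)) :=
          sum_le_sum fun L _ => by
            by_cases a1 : L = L1
            · subst a1; split_ifs <;> simp_all <;> linarith
            · by_cases a2 : L = L2
              · subst a2; simp [a1]; linarith
              · simpa [a1, a2] using hs L a1 a2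
      _ = m0 * c + 2 * K := by
          simp only [sum_add_distrib, sum_const, card_univ, nsmul_eq_mul, des_card a, sum_ite_eq',
            mem_univ, if_true]
          ring
  have p0 : 0 ≤ (m0 : ℤ) * c + 2 * K := by positivity
  have pm : (0 : ℤ) ≤ m0 := by positivity
  have b1 : |∑ L, κ (some L)| < X :=
    (abs_sum_le_sum_abs _ _).trans_lt (by nlinarith)
  have b0 : |∑ L, κ (some L) * (a L : ℕ)| < X := by
    refine (abs_sum_le_sum_abs _ _).trans_lt (lt_of_le_of_lt ?_ hX)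
    calc ∑ L, |κ (some L) * (a L : ℕ)| ≤ ∑ L, |κ (some L)| * (m0 + 1) := sum_le_sum fun L _ => by
          rw [abs_mul]
          refine mul_le_mul_of_nonneg_left ?_ (abs_nonneg _)
          have := (a L).2
          rw [abs_le]; constructor <;> omega
      _ ≤ _ := by rw [← sum_mul]; exact mul_le_mul_of_nonneg_right hsum (by positivity)
  have hX0 : 0 < X := (abs_nonneg _).trans_lt b1
  have hd : X ^ 2 ∣ X * ∑ L, κ (some L) + ∑ L, κ (some L) * (a L : ℕ) := by
    have d1 : X ^ 2 ∣ ∑ L, κ (some L) * e L := dvd_sum fun L _ => (he L).mul_left _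
    have d2 := (hN0.mul_right (∑ L, κ (some L) * B ^ (a L : ℕ) + (κ none + ∑ L, κ (some L)) * B ^ m0))
    have e1 : ∑ L, κ (some L) * (-e L + X + (a L : ℕ)) =
        -∑ L, κ (some L) * e L + (X * ∑ L, κ (some L) + ∑ L, κ (some L) * (a L : ℕ)) := by
      rw [mul_sum, ← sum_neg_distrib, ← sum_add_distrib, ← sum_add_distrib]
      exact sum_congr rfl fun L _ => by ring
    rw [desPhi_eq, e1] at h0
    have := d1.sub d2
    refine this.trans (Eq.dvd ?_)
    linear_combination -h0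
  have z0 : ∑ L, κ (some L) * (a L : ℕ) = 0 := by
    refine Int.eq_zero_of_abs_lt_dvd ?_ b0
    have := (dvd_pow_self X two_ne_zero).trans hd
    exact (dvd_add_right (Dvd.intro _ rfl)).1 this
  have z1 : ∑ L, κ (some L) = 0 := by
    refine Int.eq_zero_of_abs_lt_dvd ?_ b1
    rw [z0, add_zero, pow_two] at hd
    exact (mul_dvd_mul_iff_left hX0.ne').1 hd
  have s1 := des_small a hc (fun L => κ (some L)) L1 L2 hs z0 z1
  have s2 := des_small a hc (fun L => κ (some L)) L2 L1 (fun L a1 a2 => hs L a2 a1) z0 z1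
  have p1 : 0 ≤ (m0 : ℤ) * (c * m0) := by positivity
  have p2 : 0 ≤ (m0 : ℤ) * c := by positivity
  by_contra hne
  have := des_int a e N0 X B hB hN herr hY κ (fun L => by
    by_cases a1 : L = L1
    · subst a1; linarith
    · by_cases a2 : L = L2
      · subst a2; linarith
      · linarith [hs L a1 a2]) hne
  rw [h0] at this
  simp at this
  linarith

/-- The covering classes stay away from the pattern. -/
lemma des_iso {c u K g : ℤ} (hN : 0 < N0) (hc : 0 ≤ c) (hX : (m0 : ℤ) ≤ X) (hu : 0 ≤ u)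
    (he : ∀ L, 0 ≤ e L ∧ e L ≤ u) (κ : Option Λ → ℤ) (L0 : Λ)
    (hs : ∀ L, L ≠ L0 → |κ (some L)| ≤ c) (hK : |κ (some L0)| ≤ K)
    (hup : 2 * (|κ (some L0)| * e L0) ≤ N0)
    (hlo : g + m0 * (c * (u + 2 * X)) + K * (2 * X) ≤ |κ (some L0)| * e L0) :
    g ≤ |desPhi a e N0 X B κ| := by
  have hX0 : 0 ≤ X := le_trans (by positivity) hX
  have ha : ∀ L, (0 : ℤ) ≤ (a L : ℕ) ∧ ((a L : ℕ) : ℤ) ≤ X := fun L => by
    have := (a L).2
    constructor <;> omega
  have h2 := des_sum_erase a (fun L => κ (some L) * (-e L + X + (a L : ℕ))) L0 (c * (u + 2 * X))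
    (by positivity) fun L hL => by
      rw [abs_mul]
      refine mul_le_mul (hs L hL) ?_ (abs_nonneg _) hc
      have := he L; have := ha L
      rw [abs_le]; constructor <;> omega
  have h3 : |κ (some L0) * (X + (a L0 : ℕ))| ≤ K * (2 * X) := by
    rw [abs_mul]
    refine mul_le_mul hK ?_ (abs_nonneg _) ((abs_nonneg _).trans hK)
    have := ha L0
    rw [abs_le]; constructor <;> omega
  have h4 : |κ (some L0) * e L0| = |κ (some L0)| * e L0 := by rw [abs_mul, abs_of_nonneg (he L0).1]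
  rw [desPhi_eq]
  set I := ∑ L, κ (some L) * B ^ (a L : ℕ) + (κ none + ∑ L, κ (some L)) * B ^ m0
  set E := ∑ L, κ (some L) * (-e L + X + (a L : ℕ))
  have e1 : κ (some L0) * (-e L0 + X + (a L0 : ℕ)) =
      -(κ (some L0) * e L0) + κ (some L0) * (X + (a L0 : ℕ)) := by ring
  simp only [e1] at h2
  rw [← h4] at hup hlo
  set t := κ (some L0) * e L0
  set v := κ (some L0) * (X + (a L0 : ℕ))
  set w := (m0 : ℤ) * (c * (u + 2 * X))
  have h5 : |t| ≤ |N0 * I - t| := by
    rcases eq_or_ne I 0 with hI | hI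
    · simp [hI]
    · have a1 := Int.one_le_abs hI
      have a2 : |N0 * I| ≤ |N0 * I - t| + |t| := by simpa using abs_add_le (N0 * I - t) t
      rw [abs_mul, abs_of_pos hN] at a2
      nlinarith
  have h6 : N0 * I - t = (N0 * I + E) - (E - (-t + v)) - v := by ring
  have h7 := abs_sub (N0 * I + E - (E - (-t + v))) v
  have h8 := abs_sub (N0 * I + E) (E - (-t + v))
  rw [← h6] at h7
  linarith

end Pool.Agent.Lib.MP_343fe0_pr
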