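import Pool.Agent.Lib.MP_343fe0_pr.QDesignA

set_option autoImplicit false

namespace Pool.Agent.Lib.MP_343fe0_pr

open Finset

/-- Indices of the periods: `none` is the negative strip, `some (j, none)` the positive strip `j`,
`some (j, some t)` the covering classes of the atom `j` for the magnitude class `t`. -/
abbrev Idx (J r : ℕ) : Type := Option (Fin J × Option (Fin (r + 1)))

/-- Magnitude classes. -/
def dCls (H b : ℤ) (t : ℕ) (k : ℤ) : Prop := |k| < H * b ^ t ∧ ∀ s, t = s + 1 → H * b ^ s ≤ |k|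

def dBox (h : ℕ) (k : ℤ) : Prop := 0 ≤ k ∧ k < h

def dK {r : ℕ} (h : ℕ) (H b : ℤ) : Option (Fin (r + 1)) → ℤ → Prop
  | none, k => dBox h k
  | some t, k => ¬ dBox h k ∧ dCls H b t k

def dC {J r : ℕ} (h : ℕ) (H b : ℤ) : Idx J r → (Idx J r → ℤ) → Prop
  | none, ζ => ∀ L, dBox h (ζ (some L))
  | some L, ζ => (∀ L', L' ≠ L → dBox h (ζ (some L'))) ∧ dK h H b L.2 (ζ none)

def dE (r : ℕ) (b : ℤ) : Option (Fin (r + 1)) → ℤ
  | none => 0
  | some t => if (t : ℕ) = 0 then 0 else b ^ (3 * r + 2 - t)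

lemma dBox_abs {h : ℕ} {k : ℤ} (hk : dBox h k) : |k| ≤ h := by
  rw [abs_le]; constructor <;> [linarith [hk.1, (Nat.cast_nonneg h : (0 : ℤ) ≤ h)]; exact hk.2.le]

lemma dBox_sub {h : ℕ} {k k' : ℤ} (hk : dBox h k) (hk' : dBox h k') : |k - k'| ≤ h := by
  rw [abs_le]; constructor <;> linarith [hk.1, hk.2, hk'.1, hk'.2]

lemma dCls_exists {H b : ℤ} {r : ℕ} {k : ℤ} (hk : |k| < H * b ^ r) :
    ∃ t : Fin (r + 1), dCls H b t k := by
  classical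
  have hex : ∃ t : ℕ, |k| < H * b ^ t := ⟨r, hk⟩
  refine ⟨⟨Nat.find hex, Nat.lt_succ_of_le (Nat.find_min' hex hk)⟩, Nat.find_spec hex, fun s hs => ?_⟩
  exact not_lt.1 (Nat.find_min hex (by simp only at hs; omega))

lemma dCls_unique {H b : ℤ} (hH : 0 ≤ H) (hb : 1 ≤ b) {t t' : ℕ} {k : ℤ} (h1 : dCls H b t k)
    (h2 : dCls H b t' k) : t = t' := by
  have key : ∀ t t' : ℕ, dCls H b t k → dCls H b t' k → ¬ t < t' := by
    intro t t' h1 h2 hlt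
    obtain ⟨s, rfl⟩ : ∃ s, t' = s + 1 := ⟨t' - 1, by omega⟩
    have a1 := h2.2 s rfl
    have a2 : H * b ^ t ≤ H * b ^ s := mul_le_mul_of_nonneg_left (pow_le_pow_right₀ hb (by omega)) hH
    linarith [h1.1]
  have := key t t' h1 h2
  have := key t' t h2 h1
  omega

lemma dC_single {J r : ℕ} (h : ℕ) (H b : ℤ) (A : Idx J r) (ζ : Idx J r → ℤ) (c : ℤ)
    (hζ : dC h H b A ζ) : dC h H b A (ζ + Pi.single A c) := by
  cases A with
  | none => intro L; simpa using hζ L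
  | some L =>
    refine ⟨fun L' hL' => ?_, by simpa using hζ.2⟩
    have : (some L' : Idx J r) ≠ some L := by simpa using hL'
    simpa [Pi.single_eq_of_ne this] using hζ.1 L' hL'

/-- The numerical parameters of the design. -/
structure DP (r h b m0 : ℕ) where
  (w H B β P X u N0 M : ℤ)
  hβ : β = b
  hH : H = 32 * w
  hP : P = β ^ r
  hX : X = β ^ (r + 1)
  hu : u = β ^ (3 * r + 1)
  hN0 : N0 = 16 * H * β * u
  hM : M = N0 * B ^ m0
  h1 : (1 : ℤ) ≤ h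
  hw : w = m0 * h + h
  hw1 : (m0 : ℤ) + 1 ≤ w
  hwB : 1024 * w ≤ B
  hBβ : B ≤ β
  hP1 : 1 ≤ P
  hXu : X ≤ u
  hβX : β ≤ X
  hN1 : 16 * u ≤ N0
  hNM : N0 ≤ M
  hY : 2 * (m0 * (B * (3 * u))) ≤ N0
  hwP : w ≤ w * P
  hg : ((b ^ (3 * r) : ℕ) : ℤ) ≤ u
  hW : ((b ^ (4 * r + 2) : ℕ) : ℤ) ≤ 8 * (w * P) * M
  hn : 2 * M ≤ ((b ^ (3 * r + 10) : ℕ) : ℤ)
  hXK : (m0 * h + 2 * (128 * (w * P))) * (m0 + 1) < X
  hcB : (h : ℤ) + m0 * (h * m0) + m0 * h < B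

lemma DP.nonempty (r h b m0 : ℕ) (hh : 1 ≤ h) (hb : (1024 * h * (m0 + 1) ^ 2) ^ (m0 + 4) ≤ b) :
    Nonempty (DP r h b m0) := by
  obtain ⟨w, hw⟩ : ∃ w : ℤ, w = h * (m0 + 1) := ⟨_, rfl⟩
  obtain ⟨B, hB⟩ : ∃ B : ℤ, B = 1024 * w * (m0 + 1) := ⟨_, rfl⟩
  obtain ⟨β, hβ⟩ : ∃ β : ℤ, β = b := ⟨_, rfl⟩
  have h1 : (1 : ℤ) ≤ h := by exact_mod_cast hh
  have hm : (0 : ℤ) ≤ m0 := by positivity
  have hw1 : (m0 : ℤ) + 1 ≤ w := hw ▸ le_mul_of_one_le_left (by linarith) h1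
  have hwB : 1024 * w ≤ B := hB ▸ le_mul_of_one_le_right (by linarith) (by linarith)
  have hb' : B ^ (m0 + 4) ≤ β := by
    have : B = ((1024 * h * (m0 + 1) ^ 2 : ℕ) : ℤ) := by rw [hB, hw]; push_cast; ring
    rw [this, hβ]; exact_mod_cast hb
  have hB1 : 1 ≤ B := by linarith
  have hR1 : 1 ≤ B ^ m0 := one_le_pow₀ hB1
  have hRβ : B ^ m0 ≤ β := (pow_le_pow_right₀ hB1 (by omega)).trans hb'
  have hB2 : B * B ≤ β := by
    have : B ^ 2 ≤ β := (pow_le_pow_right₀ hB1 (by omega)).trans hb'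
    rwa [pow_two] at this
  have hBβ : B ≤ β := (le_mul_of_one_le_right (by linarith) hB1).trans hB2
  have hβ1 : 1 ≤ β := by linarith
  obtain ⟨P, hP⟩ : ∃ P : ℤ, P = β ^ r := ⟨_, rfl⟩
  have hP1 : 1 ≤ P := hP ▸ one_le_pow₀ hβ1
  obtain ⟨u, hu⟩ : ∃ u : ℤ, u = β ^ (3 * r + 1) := ⟨_, rfl⟩
  have hu1 : 1 ≤ u := hu ▸ one_le_pow₀ hβ1
  have hβu : u ≤ β * u := le_mul_of_one_le_left (by linarith) hβ1
  have hN1 : β * u ≤ w * (β * u) := le_mul_of_one_le_left (by linarith) (by linarith)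
  obtain ⟨N0, hN0⟩ : ∃ N0 : ℤ, N0 = 16 * (32 * w) * β * u := ⟨_, rfl⟩
  have hNM : N0 ≤ N0 * B ^ m0 := le_mul_of_one_le_right (by linarith) hR1
  have hwP : w ≤ w * P := le_mul_of_one_le_right (by linarith) hP1
  refine ⟨⟨w, 32 * w, B, β, P, β ^ (r + 1), u, N0, N0 * B ^ m0, hβ, rfl, hP, rfl, hu, hN0, rfl, h1,
    by rw [hw]; ring, hw1, hwB, hBβ, hP1, hu ▸ pow_le_pow_right₀ hβ1 (by omega),
    le_self_pow₀ hβ1 (by omega), by linarith, hNM, ?_, hwP, ?_, ?_, ?_, ?_, ?_⟩⟩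
  · have a1 : (m0 : ℤ) * B ≤ B * B := mul_le_mul_of_nonneg_right (by linarith) (by linarith)
    have a2 : (m0 : ℤ) * B * u ≤ β * u := mul_le_mul_of_nonneg_right (a1.trans hB2) (by linarith)
    linarith
  · rw [hu, hβ]; push_cast; exact pow_le_pow_right₀ (hβ ▸ hβ1) (by omega)
  · have e1 : ((b ^ (4 * r + 2) : ℕ) : ℤ) = P * (β * u) := by rw [hP, hu, hβ]; push_cast; ring
    rw [e1, mul_assoc]
    have e2 : P * (β * u) ≤ w * P * (N0 * B ^ m0) :=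
      mul_le_mul (le_mul_of_one_le_left (by linarith) (by linarith)) (by linarith) (by linarith) (by linarith)
    have e3 : 0 ≤ P * (β * u) := mul_nonneg (by linarith) (by linarith)
    linarith
  · have b1 : 1024 * w * (β * u) ≤ β * (β * u) := mul_le_mul_of_nonneg_right (by linarith) (by linarith)
    calc 2 * (N0 * B ^ m0) = 1024 * w * (β * u) * B ^ m0 := by rw [hN0]; ring
      _ ≤ β * (β * u) * β := mul_le_mul b1 hRβ (by linarith) (mul_nonneg (by linarith) (by linarith))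
      _ = β ^ (3 * r + 4) := by rw [hu]; ring
      _ ≤ β ^ (3 * r + 10) := pow_le_pow_right₀ hβ1 (by omega)
      _ = _ := by rw [hβ]; push_cast; rfl
  · have a0 : (m0 : ℤ) * h ≤ w := by rw [hw]; linarith
    have a1 : (m0 * h + 2 * (128 * (w * P))) * (m0 + 1) ≤ 257 * (w * P) * (m0 + 1) :=
      mul_le_mul_of_nonneg_right (by linarith) (by linarith)
    have a2 : B * P ≤ β * P := mul_le_mul_of_nonneg_right hBβ (by linarith)
    have a3 : 0 < w * P * (m0 + 1) := mul_pos (by linarith) (by linarith)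
    rw [hB] at a2; rw [pow_succ', ← hP]; linarith
  · have a1 : 0 ≤ (m0 : ℤ) * h := by positivity
    have a2 : 0 ≤ (m0 : ℤ) * (h * m0) := by positivity
    have a3 : B = 1024 * (h + m0 * (h * m0) + 2 * (m0 * h)) := by rw [hB, hw]; ring
    linarith

namespace DP

variable {J r h b m0 : ℕ} (D : DP r h b m0) (a : (Fin J × Option (Fin (r + 1))) ≃ Fin m0)

def e (L : Fin J × Option (Fin (r + 1))) : ℤ := dE r D.β L.2

def nn : Idx J r → ℤ := desN a D.e D.N0 D.X D.B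

def Phi : (Idx J r → ℤ) → ℤ := desPhi a D.e D.N0 D.X D.B

lemma hβ1 : 1 ≤ D.β := by linarith [D.hw1, D.hwB, D.hBβ, (Nat.cast_nonneg m0 : (0 : ℤ) ≤ m0)]
lemma hB1 : 1024 ≤ D.B := by linarith [D.hw1, D.hwB, (Nat.cast_nonneg m0 : (0 : ℤ) ≤ m0)]
lemma hu1 : 1 ≤ D.u := by linarith [D.hβ1, D.hβX, D.hXu]
lemma hN : 0 < D.N0 := by linarith [D.hu1, D.hN1]
lemma hM0 : 0 < D.M := by linarith [D.hN, D.hNM]
lemma hmX : (m0 : ℤ) ≤ D.X := by linarith [D.hw1, D.hwB, D.hBβ, D.hβX, (Nat.cast_nonneg m0 : (0 : ℤ) ≤ m0)]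
lemma hmh (_ : DP r h b m0) : (0 : ℤ) ≤ m0 * h := by positivity

lemma he0 (L : Fin J × Option (Fin (r + 1))) : 0 ≤ D.e L ∧ D.e L ≤ D.u := by
  have := D.hu1
  have := D.hβ1
  obtain ⟨j, _ | t⟩ := L
  · simp only [e, dE]; constructor <;> linarith
  · simp only [e, dE]
    split_ifs with h0
    · constructor <;> linarith
    · exact ⟨by positivity, D.hu ▸ pow_le_pow_right₀ D.hβ1 (by omega)⟩

lemma heX (L : Fin J × Option (Fin (r + 1))) : D.X ^ 2 ∣ D.e L := by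
  obtain ⟨j, _ | t⟩ := L
  · simp [e, dE]
  · simp only [e, dE]
    split_ifs with h0
    · simp
    · rw [D.hX, ← pow_mul]; exact pow_dvd_pow _ (by have := t.2; omega)

lemma ha (L : Fin J × Option (Fin (r + 1))) : (0 : ℤ) ≤ (a L : ℕ) ∧ ((a L : ℕ) : ℤ) ≤ D.X := by
  have := (a L).2
  have := D.hmX
  constructor <;> omega

lemma herr (L : Fin J × Option (Fin (r + 1))) : |-D.e L + D.X + (a L : ℕ)| ≤ 3 * D.u := by
  have := D.he0 L; have := D.ha a L; have := D.hXu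
  rw [abs_le]; constructor <;> linarith

lemma hn1 (L : Fin J × Option (Fin (r + 1))) :
    D.M ≤ desN a D.e D.N0 D.X D.B (some L) ∧ desN a D.e D.N0 D.X D.B (some L) ≤ 2 * D.M := by
  have a1 := D.he0 L
  have a2 := D.ha a L
  have hB := D.hB1
  have a3 : 1 ≤ D.B ^ (a L : ℕ) := one_le_pow₀ (by linarith)
  have a4 : D.B ^ (a L : ℕ) * D.B ≤ D.B ^ m0 := by
    rw [← pow_succ]; exact pow_le_pow_right₀ (by linarith) (a L).2
  have a5 : D.N0 ≤ D.N0 * D.B ^ (a L : ℕ) := le_mul_of_one_le_right D.hN.le a3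
  have a6 : D.B ^ (a L : ℕ) * 2 ≤ D.B ^ m0 :=
    (mul_le_mul_of_nonneg_left (by linarith) (by linarith)).trans a4
  have a7 : D.N0 * (D.B ^ (a L : ℕ) * 2) ≤ D.N0 * D.B ^ m0 := mul_le_mul_of_nonneg_left a6 D.hN.le
  have := D.hN1; have := D.hXu; have := D.hu1
  simp only [desN, D.hM]
  constructor <;> linarith

lemma h0 : desN a D.e D.N0 D.X D.B none = D.M := D.hM.symm

lemma hn2 (A : Idx J r) : D.M ≤ D.nn a A ∧ D.nn a A ≤ 2 * D.M := by
  have := D.hM0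
  obtain _ | L := A
  · rw [nn, D.h0]; constructor <;> linarith
  · exact D.hn1 a L

lemma hγ (γ : Idx J r → Fin h) (A : Idx J r) : dBox h ((γ A : ℕ) : ℤ) :=
  ⟨by positivity, by exact_mod_cast (γ A).2⟩

lemma Phi_sub (κ κ' : Idx J r → ℤ) : D.Phi a (κ - κ') = D.Phi a κ - D.Phi a κ' :=
  desPhi_sub _ _ _ _ _ _ _

lemma hint (κ : Idx J r → ℤ) (hκ : ∀ L, |κ (some L)| < D.B) (hne : κ ≠ 0) : D.N0 ≤ 2 * |D.Phi a κ| :=
  des_int a D.e D.N0 D.X D.B (by linarith [D.hB1]) D.hN (D.herr a) D.hY κ hκ hne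

lemma hhB : (h : ℤ) < D.B := by linarith [D.hw, D.hwB, D.hmh, D.h1]

lemma bnd (κ : Idx J r → ℤ) (L0 : Fin J × Option (Fin (r + 1))) (hs : ∀ L, L ≠ L0 → |κ (some L)| ≤ h) :
    |κ (some L0)| * D.M ≤ |D.Phi a κ| + |κ none| * D.M + 2 * (m0 * h) * D.M ∧
    |κ none| * D.M ≤ |D.Phi a κ| + 2 * |κ (some L0)| * D.M + 2 * (m0 * h) * D.M :=
  des_bound a D.e D.N0 D.X D.B D.hM0 (by positivity) (D.h0 a) (D.hn1 a) κ L0 hs

lemma bnd0 (κ : Idx J r → ℤ) (hs : ∀ L, |κ (some L)| ≤ h) :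
    |κ none| * D.M ≤ |D.Phi a κ| + 2 * (m0 * h) * D.M ∧
    |D.Phi a κ| ≤ |κ none| * D.M + 2 * (m0 * h) * D.M :=
  des_bound0 a D.e D.N0 D.X D.B D.hM0 (by positivity) (D.h0 a) (D.hn1 a) κ hs

lemma hPZ (γ : Idx J r → Fin h) : |D.Phi a fun A => ((γ A : ℕ) : ℤ)| ≤ 8 * (D.w * D.P) * D.M := by
  have a1 := (D.bnd0 a (fun A => ((γ A : ℕ) : ℤ)) (fun L => dBox_abs (hγ γ (some L)))).2
  have a2 : |((γ none : ℕ) : ℤ)| * D.M ≤ h * D.M :=
    mul_le_mul_of_nonneg_right (dBox_abs (hγ γ none)) D.hM0.le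
  have a3 : (h + 2 * (m0 * h)) * D.M ≤ 8 * (D.w * D.P) * D.M :=
    mul_le_mul_of_nonneg_right (by linarith [D.hw, D.hwP, D.hmh, D.h1]) D.hM0.le
  linarith

lemma hKlt (o : Option (Fin (r + 1))) (k : ℤ) (hk : dK h D.H D.β o k) : |k| ≤ 32 * (D.w * D.P) := by
  have := D.hw; have := D.hwP; have := D.hmh; have := D.h1
  obtain _ | t := o
  · have := dBox_abs hk; linarith
  · have a1 := hk.2.1
    have a2 : D.H * D.β ^ (t : ℕ) ≤ D.H * D.P :=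
      mul_le_mul_of_nonneg_left (D.hP ▸ pow_le_pow_right₀ D.hβ1 (by have := t.2; omega))
        (by linarith [D.hH])
    rw [D.hH] at a2 a1; linarith

lemma hfree (L : Fin J × Option (Fin (r + 1))) (ζ : Idx J r → ℤ) (hζ : dC h D.H D.β (some L) ζ)
    (hz : |D.Phi a ζ| ≤ 8 * (D.w * D.P) * D.M) : |ζ (some L)| ≤ 64 * (D.w * D.P) := by
  have := D.hw; have := D.hwP; have := D.hmh; have := D.h1
  have a1 := (D.bnd a ζ L (fun L' hL' => dBox_abs (hζ.1 L' hL'))).1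
  have a2 : |ζ none| * D.M ≤ 32 * (D.w * D.P) * D.M :=
    mul_le_mul_of_nonneg_right (D.hKlt _ _ hζ.2) D.hM0.le
  have a3 : 2 * (m0 * h) * D.M ≤ 2 * (D.w * D.P) * D.M := mul_le_mul_of_nonneg_right (by linarith) D.hM0.le
  have a4 : 0 ≤ D.w * D.P * D.M := mul_nonneg (by linarith) D.hM0.le
  exact le_of_mul_le_mul_right (by linarith) D.hM0

lemma huniq (L L' : Fin J × Option (Fin (r + 1))) (ζ ζ' : Idx J r → ℤ)
    (b1 : ∀ L1, L1 ≠ L → dBox h (ζ (some L1))) (b2 : |ζ (some L)| ≤ 64 * (D.w * D.P))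
    (b3 : ∀ L1, L1 ≠ L' → dBox h (ζ' (some L1))) (b4 : |ζ' (some L')| ≤ 64 * (D.w * D.P))
    (b5 : D.Phi a ζ = D.Phi a ζ') : ζ = ζ' := by
  have := D.hw; have := D.hwP; have := D.hmh; have := D.h1
  have c1 : ∀ L1, |ζ (some L1)| ≤ 64 * (D.w * D.P) := fun L1 => by
    by_cases c : L1 = L
    · rw [c]; exact b2
    · linarith [dBox_abs (b1 L1 c)]
  have c2 : ∀ L1, |ζ' (some L1)| ≤ 64 * (D.w * D.P) := fun L1 => by
    by_cases c : L1 = L'
    · rw [c]; exact b4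
    · linarith [dBox_abs (b3 L1 c)]
  have c3 : ∀ L1, |(ζ - ζ') (some L1)| ≤ 128 * (D.w * D.P) := fun L1 => by
    have := abs_sub (ζ (some L1)) (ζ' (some L1))
    rw [Pi.sub_apply]; linarith [c1 L1, c2 L1]
  have hNX : D.X ^ 2 ∣ D.N0 := ⟨16 * D.H * D.β ^ r, by rw [D.hN0, D.hX, D.hu]; ring⟩
  exact sub_eq_zero.1 (des_dio a D.e D.N0 D.X D.B (c := h) (K := 128 * (D.w * D.P))
    (by linarith [D.hB1]) D.hN (D.herr a) D.hY (by linarith) (by linarith) D.hXK D.heX hNX D.hcB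
    (ζ - ζ') L L' (fun L1 d1 d2 => dBox_sub (b1 L1 d1) (b3 L1 d2)) (c3 L) (c3 L')
    ((D.Phi_sub a ζ ζ').trans (by rw [b5, sub_self])))

lemma huniq0 (L' : Fin J × Option (Fin (r + 1))) (ζ ζ' : Idx J r → ℤ) (b1 : ∀ L1, dBox h (ζ (some L1)))
    (b2 : dC h D.H D.β (some L') ζ') (b3 : |D.Phi a ζ| ≤ 8 * (D.w * D.P) * D.M)
    (b4 : D.Phi a ζ' = D.Phi a ζ) : ζ = ζ' :=
  D.huniq a L' L' ζ ζ' (fun L1 _ => b1 L1)
    (by linarith [dBox_abs (b1 L'), D.hw, D.hwP, D.hmh, D.h1]) b2.1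
    (D.hfree a L' ζ' b2 (by rw [b4]; exact b3)) b4.symm

def QQ (A : Idx J r) : Set ℤ := {z | ∃ ζ, dC h D.H D.β A ζ ∧ D.Phi a ζ = z}

lemma off (z : ℤ) (hz' : |z| ≤ 8 * (D.w * D.P) * D.M)
    (hzP : ∀ γ : Idx J r → Fin h, z ≠ D.Phi a fun A => ((γ A : ℕ) : ℤ)) :
    (z ∈ D.QQ a none ∧ (∀ j, z ∉ D.QQ a (some (j, none))) ∧ ∀ j, ∃! t, z ∈ D.QQ a (some (j, some t))) ∨
    (z ∉ D.QQ a none ∧ ∀ L L', z ∈ D.QQ a (some L) → z ∈ D.QQ a (some L') → L = L') := by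
  have := D.hw; have := D.hwP; have := D.hmh; have := D.h1
  by_cases hq : z ∈ D.QQ a none
  · left
    obtain ⟨ζ, b1, rfl⟩ := hq
    have hnb : ¬ dBox h (ζ none) := fun b2 => by
      have b3 : ∀ A, dBox h (ζ A) := by
        rintro (_ | L)
        exacts [b2, b1 L]
      refine hzP (fun A => ⟨(ζ A).toNat, by have := b3 A; unfold dBox at this; omega⟩) ?_
      congr 1; funext A
      exact (Int.toNat_of_nonneg (b3 A).1).symm
    refine ⟨⟨ζ, b1, rfl⟩, ?_, fun j => ?_⟩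
    · rintro j ⟨ζ', c1, c2⟩
      have c3 := D.huniq0 a _ ζ ζ' b1 c1 hz' c2
      subst c3
      exact hnb c1.2
    · have c1 := (D.bnd0 a ζ (fun L => dBox_abs (b1 L))).1
      have c2 : 2 * (m0 * h) * D.M ≤ 2 * (D.w * D.P) * D.M :=
        mul_le_mul_of_nonneg_right (by linarith) D.hM0.le
      have c3 : |ζ none| ≤ 10 * (D.w * D.P) := le_of_mul_le_mul_right (by linarith) D.hM0
      obtain ⟨t, ht⟩ := dCls_exists (H := D.H) (b := D.β) (r := r) (k := ζ none) (by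
        rw [← D.hP, D.hH]; linarith)
      refine ⟨t, ⟨ζ, ⟨fun L _ => b1 L, hnb, ht⟩, rfl⟩, ?_⟩
      rintro t' ⟨ζ', d1, d2⟩
      have c4 := D.huniq0 a _ ζ ζ' b1 d1 hz' d2
      subst c4
      exact Fin.ext (dCls_unique (by linarith [D.hH]) D.hβ1 d1.2.2 ht)
  · right
    refine ⟨hq, ?_⟩
    rintro L L' ⟨ζ, b1, b2⟩ ⟨ζ', c1, c2⟩
    have c3 := D.huniq a L L' ζ ζ' b1.1 (D.hfree a L ζ b1 (by rw [b2]; exact hz')) c1.1
      (D.hfree a L' ζ' c1 (by rw [c2]; exact hz')) (b2.trans c2.symm)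
    subst c3
    by_contra hLL
    refine hq ⟨ζ, fun L1 => ?_, b2⟩
    by_cases d : L1 = L
    · exact c1.1 L1 (by rw [d]; exact hLL)
    · exact b1.1 L1 d

lemma iso_cls (κ : Idx J r → ℤ) (j : Fin J) (t : Fin (r + 1)) (s : ℕ) (hs' : (t : ℕ) = s + 1)
    (hs : ∀ L', L' ≠ (j, some t) → |κ (some L')| ≤ h)
    (k1 : |κ (some (j, some t))| ≤ 64 * (D.w * (D.β ^ s * D.β)))
    (k2 : 8 * (D.w * D.β ^ s) ≤ |κ (some (j, some t))|) : D.u ≤ |D.Phi a κ| := by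
  have := D.hw; have := D.hwP; have := D.hmh; have := D.h1; have := D.hu1; have := D.hβ1
  have hsr : s + 1 ≤ r := by have := t.2; omega
  have d3 : D.e (j, some t) = D.β ^ (3 * r + 1 - s) := by
    simp only [e, dE, hs']; rw [if_neg (by omega)]; congr 1; omega
  have d4 : D.β ^ s * D.e (j, some t) = D.u := by rw [d3, D.hu, ← pow_add]; congr 1; omega
  have d6 : D.β ^ s * D.β ≤ D.P := by rw [← pow_succ, D.hP]; exact pow_le_pow_right₀ D.hβ1 hsr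
  have d7 : D.β ≤ D.P := D.hP ▸ le_self_pow₀ D.hβ1 (by omega)
  have e0 := (D.he0 (j, some t)).1
  have k3 : D.w * (D.β ^ s * D.β) ≤ D.w * D.P := mul_le_mul_of_nonneg_left d6 (by linarith)
  have k4 := mul_le_mul_of_nonneg_right k1 e0
  have k5 := mul_le_mul_of_nonneg_right k2 e0
  have k6 : D.w * (D.β ^ s * D.β) * D.e (j, some t) = D.w * (D.β * D.u) := by rw [← d4]; ring
  have k7 : D.w * D.β ^ s * D.e (j, some t) = D.w * D.u := by rw [← d4]; ring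
  have k8 : 0 ≤ D.w * (D.β * D.u) := mul_nonneg (by linarith) (mul_nonneg (by linarith) (by linarith))
  refine des_iso a D.e D.N0 D.X D.B (c := h) (u := D.u) (K := 64 * (D.w * D.P)) (g := D.u) D.hN
    (by linarith) D.hmX (by linarith) D.he0 κ (j, some t) hs (by linarith)
    (by rw [D.hN0, D.hH]; linarith) ?_
  have l1 : (m0 : ℤ) * (h * (D.u + 2 * D.X)) ≤ D.w * (3 * D.u) := by
    rw [← mul_assoc]
    exact mul_le_mul (by linarith) (by linarith [D.hXu]) (by linarith [D.hβX]) (by linarith)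
  have l2 : D.u = D.P * (D.P * D.X) := by rw [D.hu, D.hP, D.hX]; ring
  have l3 : 0 ≤ D.P * D.X := mul_nonneg (by linarith) (by linarith [D.hβX])
  have l4 : 128 * D.w * (D.P * D.X) ≤ D.P * (D.P * D.X) :=
    mul_le_mul_of_nonneg_right (by linarith [D.hwB, D.hBβ]) l3
  have l5 : D.u ≤ D.w * D.u := le_mul_of_one_le_left (by linarith) (by linarith)
  rw [← l2] at l4
  linarith

lemma iso (γ : Idx J r → Fin h) (z : ℤ) (hne : z ≠ D.Phi a fun A => ((γ A : ℕ) : ℤ))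
    (hc : (∃ γ' : Idx J r → Fin h, z = D.Phi a fun A => ((γ' A : ℕ) : ℤ)) ∨ ∃ L, z ∈ D.QQ a (some L)) :
    D.u ≤ |z - D.Phi a fun A => ((γ A : ℕ) : ℤ)| := by
  have := D.hw; have := D.hmh; have := D.h1; have := D.hu1; have := D.hβ1; have := D.hN1
  have := D.hNM; have := D.hH; have := D.hwB
  by_contra hlt
  rw [not_le] at hlt
  have small : ∀ ζ : Idx J r → ℤ, D.Phi a ζ = z →
      (∀ L, |(ζ - fun A => ((γ A : ℕ) : ℤ)) (some L)| < D.B) → False := fun ζ b1 b2 => by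
    have := D.hint a _ b2 (fun h0 => hne (by rw [← b1, sub_eq_zero.1 h0]))
    rw [D.Phi_sub, b1] at this
    linarith
  rcases hc with ⟨γ', rfl⟩ | ⟨L, ζ, b1, b2⟩
  · exact small _ rfl fun L => (dBox_sub (hγ γ' _) (hγ γ _)).trans_lt D.hhB
  obtain ⟨κ, hκ⟩ : ∃ κ : Idx J r → ℤ, κ = ζ - fun A => ((γ A : ℕ) : ℤ) := ⟨_, rfl⟩
  have hs : ∀ L', L' ≠ L → |κ (some L')| ≤ h := fun L' hL' => by
    rw [hκ]; exact dBox_sub (b1.1 L' hL') (hγ γ _)
  have hΦ : D.Phi a κ = z - D.Phi a fun A => ((γ A : ℕ) : ℤ) := by rw [hκ, D.Phi_sub, b2]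
  obtain ⟨c1, c2⟩ := D.bnd a κ L hs
  rw [← hΦ] at hlt
  have c3 : |κ (some L)| ≤ 1 + |κ none| + 2 * (m0 * h) := le_of_mul_le_mul_right (by linarith) D.hM0
  have c4 : |κ none| ≤ 1 + 2 * |κ (some L)| + 2 * (m0 * h) := le_of_mul_le_mul_right (by linarith) D.hM0
  have c7 : κ none = ζ none - ((γ none : ℕ) : ℤ) := by rw [hκ]; rfl
  have c5 : |κ none| ≤ |ζ none| + h := by
    rw [c7]; exact (abs_sub _ _).trans (by linarith [dBox_abs (hγ γ none)])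
  have c6 : |ζ none| ≤ |κ none| + h := by
    have := abs_add_le (κ none) ((γ none : ℕ) : ℤ)
    rw [c7, sub_add_cancel, ← c7] at this
    linarith [dBox_abs (hγ γ none)]
  have small' : |ζ none| ≤ D.H → False := fun d => small ζ b2 fun L' => by
    rw [← hκ]
    by_cases d1 : L' = L
    · rw [d1]; linarith
    · exact (hs L' d1).trans_lt D.hhB
  obtain ⟨j, _ | t⟩ := L
  · exact small' (by linarith [dBox_abs b1.2])
  rcases Nat.eq_zero_or_pos (t : ℕ) with ht | ht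
  · have := b1.2.2.1
    simp only [ht, pow_zero, mul_one] at this
    exact small' this.le
  obtain ⟨s, hs'⟩ : ∃ s, (t : ℕ) = s + 1 := ⟨t - 1, by omega⟩
  have d1 := b1.2.2.1
  have d2 := b1.2.2.2 s hs'
  have d5 : 1 ≤ D.β ^ s := one_le_pow₀ D.hβ1
  rw [hs', pow_succ, D.hH] at d1
  rw [D.hH] at d2
  have d8 : D.w ≤ D.w * D.β ^ s := le_mul_of_one_le_right (by linarith) d5
  have d9 : D.w * D.β ^ s ≤ D.w * (D.β ^ s * D.β) :=
    mul_le_mul_of_nonneg_left (le_mul_of_one_le_right (by linarith) D.hβ1) (by linarith)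
  have := D.iso_cls a κ j t s hs' hs (by linarith) (by linarith)
  linarith

lemma per (A : Idx J r) (z : ℤ) : z + D.nn a A ∈ D.QQ a A ↔ z ∈ D.QQ a A := by
  constructor
  · rintro ⟨ζ, b1, b2⟩
    refine ⟨ζ + Pi.single A (-1), dC_single h _ _ A ζ _ b1, (desPhi_single _ _ _ _ _ _ _ _).trans ?_⟩
    rw [show desPhi a D.e D.N0 D.X D.B ζ = _ from b2, DP.nn]; ring
  · rintro ⟨ζ, b1, b2⟩
    refine ⟨ζ + Pi.single A 1, dC_single h _ _ A ζ _ b1, (desPhi_single _ _ _ _ _ _ _ _).trans ?_⟩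
    rw [show desPhi a D.e D.N0 D.X D.B ζ = _ from b2, DP.nn]; ring

/-- Position of a point of the pattern. -/
def pt (γ : Idx J r → Fin h) : ℤ := D.Phi a fun A => ((γ A : ℕ) : ℤ)

lemma pt_inj : Function.Injective (D.pt a) := by
  intro γ γ' b1
  by_contra hne
  have := D.hint a ((fun A => ((γ A : ℕ) : ℤ)) - fun A => ((γ' A : ℕ) : ℤ))
    (fun L => (dBox_sub (DP.hγ γ _) (DP.hγ γ' _)).trans_lt D.hhB) (fun h0 => hne (funext fun A => by
      have := congrFun h0 A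
      simp only [Pi.sub_apply, Pi.zero_apply] at this
      exact Fin.ext (by omega)))
  rw [D.Phi_sub, show D.Phi a _ = D.Phi a _ from b1, sub_self, abs_zero] at this
  linarith [D.hN]

lemma onP (γ : Idx J r → Fin h) : D.pt a γ ∈ D.QQ a none ∧ (∀ j, D.pt a γ ∈ D.QQ a (some (j, none))) ∧
    ∀ j t, D.pt a γ ∉ D.QQ a (some (j, some t)) := by
  refine ⟨⟨fun A => ((γ A : ℕ) : ℤ), fun L => DP.hγ γ _, rfl⟩,
    fun j => ⟨fun A => ((γ A : ℕ) : ℤ), ⟨fun L _ => DP.hγ γ _, DP.hγ γ none⟩, rfl⟩, ?_⟩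
  rintro j t ⟨ζ, b1, b2⟩
  have := D.huniq0 a _ (fun A => ((γ A : ℕ) : ℤ)) ζ (fun L => DP.hγ γ _) b1 (D.hPZ a γ) b2
  subst this
  exact b1.2.1 (DP.hγ γ none)

lemma pt_le (γ : Idx J r → Fin h) : 0 ≤ D.pt a γ ∧ D.pt a γ ≤ 2 * D.w * D.M := by
  constructor
  · exact sum_nonneg fun A _ => mul_nonneg (by positivity) (D.hM0.le.trans (D.hn2 a A).1)
  · have a1 := (D.bnd0 a (fun A => ((γ A : ℕ) : ℤ)) (fun L => dBox_abs (hγ γ (some L)))).2
    have a2 : |((γ none : ℕ) : ℤ)| * D.M ≤ h * D.M :=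
      mul_le_mul_of_nonneg_right (dBox_abs (hγ γ none)) D.hM0.le
    have a3 : (h + 2 * (m0 * h)) * D.M ≤ 2 * D.w * D.M :=
      mul_le_mul_of_nonneg_right (by linarith [D.hw, D.hmh, D.h1]) D.hM0.le
    have a4 := le_abs_self (D.Phi a fun A => ((γ A : ℕ) : ℤ))
    unfold pt; linarith

lemma pt_rng (γ : Idx J r → Fin h) : D.pt a γ ≤ ((b ^ (3 * r + 12) : ℕ) : ℤ) := by
  have a1 := (D.pt_le a γ).2
  have a2 : D.w ≤ D.β ^ 2 := by
    have := le_self_pow₀ D.hβ1 two_ne_zero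
    linarith [D.hwB, D.hBβ, D.hw, D.hmh, D.h1]
  have a3 : D.w * (2 * D.M) ≤ D.β ^ 2 * ((b ^ (3 * r + 10) : ℕ) : ℤ) :=
    mul_le_mul a2 D.hn (by linarith [D.hM0]) (by positivity)
  have a4 : D.β ^ 2 * ((b ^ (3 * r + 10) : ℕ) : ℤ) = ((b ^ (3 * r + 12) : ℕ) : ℤ) := by
    rw [D.hβ]; push_cast; ring
  linarith

lemma pt_win (γ : Idx J r → Fin h) (l : ℤ) (hl : |l| ≤ ((b ^ (4 * r) : ℕ) : ℤ)) :
    |D.pt a γ + l| ≤ 8 * (D.w * D.P) * D.M := by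
  have a1 := D.pt_le a γ
  have a2 : D.w * D.M ≤ D.w * D.P * D.M := mul_le_mul_of_nonneg_right D.hwP D.hM0.le
  have a3 : ((b ^ (4 * r) : ℕ) : ℤ) * 2 ≤ ((b ^ (4 * r + 2) : ℕ) : ℤ) := by
    have : (2 : ℤ) ≤ D.β ^ 2 := by
      have := le_self_pow₀ D.hβ1 two_ne_zero
      linarith [D.hB1, D.hBβ]
    rw [D.hβ] at this
    push_cast; rw [pow_add]
    exact mul_le_mul_of_nonneg_left this (by positivity)
  have a4 := D.hW
  have a5 : 0 ≤ D.w * D.M := mul_nonneg (by linarith [D.hw, D.hmh, D.h1]) D.hM0.le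
  have a6 := abs_add_le (D.pt a γ) l
  rw [abs_of_nonneg a1.1] at a6
  linarith

end DP

end Pool.Agent.Lib.MP_343fe0_pr
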