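import Pool.Agent.Lib.MP_343fe0_pr.QProd
import Pool.Agent.Lib.MP_343fe0_pr.CoreEq

set_option autoImplicit false

/-! Patterns with vanishing moments are hidden by long paddings. -/

namespace Pool.Agent.Lib.MP_343fe0_pr

open Finset Polynomial

variable {A : Type} [NormedRing A] [NormedAlgebra ℝ A] [NormOneClass A]

/-- The powers of `m` forget their exponent at the scale `a`. -/
def Ov (m : A) (a : ℝ) : Prop := ∀ n : ℕ, ‖(m - 1) * m ^ n‖ ^ 2 * (n + 1) ≤ a

theorem qhide_pow {m : A} (hm : ‖m‖ ≤ 1) (a : ℕ) : ‖m ^ a‖ ≤ 1 :=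
  (norm_pow_le m a).trans (pow_le_one₀ (norm_nonneg _) hm)

theorem qhide_mid {m : A} (hm : ‖m‖ ≤ 1) (a b : ℕ) (y : A) : ‖m ^ a * y * m ^ b‖ ≤ ‖y‖ := by
  have h1 := (norm_mul_le (m ^ a) y).trans
    (mul_le_of_le_one_left (norm_nonneg y) (qhide_pow hm a))
  exact ((norm_mul_le _ _).trans
    (mul_le_of_le_one_right (norm_nonneg _) (qhide_pow hm b))).trans h1

theorem qhide_comm {m : A} (hm : ‖m‖ ≤ 1) {n : ℕ} {τ : ℝ} (hτ : ‖(m - 1) * m ^ n‖ ≤ τ) (y : A) :
    ‖m ^ n * (m * y - y * m) * m ^ n‖ ≤ 2 * τ * ‖y‖ := by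
  have e : m ^ n * (m * y - y * m) * m ^ n =
      (m - 1) * m ^ n * (m ^ 0 * y * m ^ n) - m ^ n * y * m ^ 0 * ((m - 1) * m ^ n) := by
    have hc : m * m ^ n = m ^ n * m := by rw [← pow_succ, ← pow_succ']
    simp only [pow_zero, one_mul, mul_one, sub_mul, mul_sub, hc, mul_assoc]
    abel
  have h0 : 0 ≤ τ := (norm_nonneg _).trans hτ
  have h1 := (norm_mul_le _ _).trans (mul_le_mul hτ (qhide_mid hm 0 n y) (norm_nonneg _) h0)
  have h2 := (norm_mul_le _ _).trans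
    (mul_le_mul (qhide_mid hm n 0 y) hτ (norm_nonneg _) (norm_nonneg _))
  rw [e]
  refine (norm_sub_le _ _).trans ?_
  linarith

theorem qhide_coeff (g : ℝ[X]) (j : ℕ) :
    g.coeff j = -∑ i ∈ range (j + 1), ((X - 1) * g).coeff i := by
  induction j with
  | zero => simp [sub_mul]
  | succ j ih =>
    rw [sum_range_succ, neg_add, ← ih, sub_mul, coeff_sub, coeff_X_mul, one_mul]
    ring

theorem qhide_step (m : A) (g : ℝ[X]) (k l r : ℕ) (hg : g.natDegree ≤ k) (y : A) :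
    ∑ j ∈ range (k + 1 + 1), ((X - 1) * g).coeff j • (m ^ (l + j) * y * m ^ (r + (k + 1 - j))) =
      ∑ j ∈ range (k + 1), g.coeff j • (m ^ (l + j) * (m * y - y * m) * m ^ (r + (k - j))) := by
  simp only [sub_mul, one_mul, coeff_sub, sub_smul, sum_sub_distrib, mul_sub, smul_sub]
  congr 1
  · rw [sum_range_succ', coeff_X_mul_zero, zero_smul, add_zero]
    refine sum_congr rfl fun j _ => ?_
    rw [coeff_X_mul, Nat.add_sub_add_right, ← add_assoc, pow_succ, mul_assoc (m ^ (l + j)) m]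
  · rw [sum_range_succ, coeff_eq_zero_of_natDegree_lt (Nat.lt_succ_of_le hg), zero_smul, add_zero]
    refine sum_congr rfl fun j hj => ?_
    have hj' := mem_range.1 hj
    rw [show r + (k + 1 - j) = r + (k - j) + 1 by omega, pow_succ']
    simp only [mul_assoc]

theorem qhide_ind {m : A} (hm : ‖m‖ ≤ 1) {n : ℕ} {τ : ℝ} (hτ : ‖(m - 1) * m ^ n‖ ≤ τ) (K p : ℕ) :
    ∀ (g : ℝ[X]) (k l r : ℕ) (y : A), k ≤ K → g.natDegree ≤ k → (X - 1) ^ p ∣ g → p * n ≤ l →
      p * n ≤ r → ‖∑ j ∈ range (k + 1), g.coeff j • (m ^ (l + j) * y * m ^ (r + (k - j)))‖ ≤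
        (∑ j ∈ range (k + 1), |g.coeff j|) * ((K + 1) * (2 * τ)) ^ p * ‖y‖ := by
  have h0 : 0 ≤ τ := (norm_nonneg _).trans hτ
  induction p with
  | zero =>
    intro g k l r y _ _ _ _ _
    rw [pow_zero, mul_one, sum_mul]
    refine (norm_sum_le _ _).trans (sum_le_sum fun j _ => ?_)
    rw [norm_smul, Real.norm_eq_abs]
    exact mul_le_mul_of_nonneg_left (qhide_mid hm _ _ y) (abs_nonneg _)
  | succ p ih =>
    rintro g k l r y hk hg ⟨q, rfl⟩ hl hr
    rw [pow_succ', mul_assoc] at hg ⊢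
    have hd : (X - 1 : ℝ[X]) ^ p ∣ (X - 1) ^ p * q := dvd_mul_right _ _
    generalize (X - 1 : ℝ[X]) ^ p * q = g at hg hd ⊢
    by_cases hz : g = 0
    · simp [hz]
    have hdeg : ((X - 1 : ℝ[X]) * g).natDegree = g.natDegree + 1 := by
      rw [← C_1, natDegree_mul (X_sub_C_ne_zero 1) hz, natDegree_X_sub_C, add_comm]
    obtain ⟨k, rfl⟩ : ∃ k', k = k' + 1 := ⟨k - 1, by omega⟩
    obtain ⟨l, rfl⟩ : ∃ l', l = l' + n := ⟨l - n, by rw [add_one_mul] at hl; omega⟩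
    obtain ⟨r, rfl⟩ : ∃ r', r = r' + n := ⟨r - n, by rw [add_one_mul] at hr; omega⟩
    rw [add_one_mul] at hl hr
    have h := ih g k l r (m ^ n * (m * y - y * m) * m ^ n) (by omega) (by omega) hd (by omega)
      (by omega)
    rw [qhide_step m g k _ _ (by omega)]
    have e : ∀ j, m ^ (l + n + j) * (m * y - y * m) * m ^ (r + n + (k - j)) =
        m ^ (l + j) * (m ^ n * (m * y - y * m) * m ^ n) * m ^ (r + (k - j)) := fun j => by
      rw [add_right_comm l n j, pow_add m (l + j), show r + n + (k - j) = n + (r + (k - j)) by ring,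
        pow_add m n]
      simp only [mul_assoc]
    simp only [e]
    refine h.trans ?_
    have h1 : ∑ j ∈ range (k + 1), |g.coeff j| ≤
        (K + 1) * ∑ j ∈ range (k + 1 + 1), |((X - 1) * g).coeff j| := by
      refine (sum_le_card_nsmul _ _ (∑ j ∈ range (k + 1 + 1), |((X - 1) * g).coeff j|)
        fun j hj => ?_).trans ?_
      · rw [qhide_coeff g j, abs_neg]
        refine (abs_sum_le_sum_abs _ _).trans (sum_le_sum_of_subset_of_nonneg
          (range_mono (by have := mem_range.1 hj; omega)) fun _ _ _ => abs_nonneg _)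
      · rw [card_range, nsmul_eq_mul]
        refine mul_le_mul_of_nonneg_right ?_ (sum_nonneg fun _ _ => abs_nonneg _)
        exact_mod_cast (by omega : k + 1 ≤ K + 1)
    have h2 := qhide_comm hm hτ y
    refine le_trans (b := ((K + 1) * ∑ j ∈ range (k + 1 + 1), |((X - 1) * g).coeff j|) *
      ((K + 1) * (2 * τ)) ^ p * (2 * τ * ‖y‖)) ?_ (le_of_eq ?_)
    · gcongr
    · ring

/-- Let `g = (X - 1) ^ p * g'`.  With `hom g k y = ∑ j ∈ range (k + 1), g.coeff j • (m ^ j * y * m ^ (k - j))` one has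
`hom ((X - 1) * g) (k + 1) y = hom g k (m * y - y * m)` if `g.natDegree ≤ k`; the coefficients of `g` are initial sums
of those of `(X - 1) * g`, so the sum of the absolute values grows by at most `k + 1` in each division; and
`‖m ^ n * (m * y - y * m) * m ^ n‖ ≤ 2 τ ‖y‖` since `m y - y m = (m - 1) y - y (m - 1)`. -/
theorem hide_tau {m : A} (hm : ‖m‖ ≤ 1) {ι : Type} (s : Finset ι) (c : ι → ℝ) (e : ι → ℕ) (k p n l r : ℕ)
    (he : ∀ i ∈ s, e i ≤ k) (hd : (X - 1 : ℝ[X]) ^ p ∣ ∑ i ∈ s, C (c i) * X ^ e i) (τ : ℝ)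
    (hτ : ‖(m - 1) * m ^ n‖ ≤ τ) (hl : p * n ≤ l) (hr : p * n ≤ r) (y : A) :
    ‖∑ i ∈ s, c i • (m ^ (l + e i) * y * m ^ (r + (k - e i)))‖ ≤
      (∑ i ∈ s, |c i|) * ((k + 1) * (2 * τ)) ^ p * ‖y‖ := by
  have hdeg : (∑ i ∈ s, C (c i) * X ^ e i : ℝ[X]).natDegree ≤ k :=
    natDegree_sum_le_of_forall_le _ _ fun i hi => (natDegree_C_mul_X_pow_le _ _).trans (he i hi)
  have h := qhide_ind hm hτ k p _ k l r y le_rfl hdeg hd hl hr
  have hco : ∀ j, (∑ i ∈ s, C (c i) * X ^ e i : ℝ[X]).coeff j =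
      ∑ i ∈ s, if j = e i then c i else 0 := fun j => by
    simp only [finsetSum_coeff, coeff_C_mul_X_pow]
  have e1 : ∑ j ∈ range (k + 1), (∑ i ∈ s, C (c i) * X ^ e i : ℝ[X]).coeff j •
      (m ^ (l + j) * y * m ^ (r + (k - j))) =
      ∑ i ∈ s, c i • (m ^ (l + e i) * y * m ^ (r + (k - e i))) := by
    simp only [hco, Finset.sum_smul, ite_smul, zero_smul]
    rw [sum_comm]
    refine sum_congr rfl fun i hi => ?_
    rw [sum_ite_eq', if_pos (mem_range.2 (Nat.lt_succ_of_le (he i hi)))]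
  have e2 : ∑ j ∈ range (k + 1), |(∑ i ∈ s, C (c i) * X ^ e i : ℝ[X]).coeff j| ≤
      ∑ i ∈ s, |c i| := by
    calc _ ≤ ∑ j ∈ range (k + 1), ∑ i ∈ s, if j = e i then |c i| else 0 := by
          refine sum_le_sum fun j _ => ?_
          rw [hco]
          refine (abs_sum_le_sum_abs _ _).trans (sum_le_sum fun i _ => ?_)
          split_ifs
          · exact le_rfl
          · exact abs_zero.le
      _ = _ := by
          rw [sum_comm]
          refine sum_congr rfl fun i hi => ?_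
          rw [sum_ite_eq', if_pos (mem_range.2 (Nat.lt_succ_of_le (he i hi)))]
  rw [e1] at h
  have h0 : 0 ≤ τ := (norm_nonneg _).trans hτ
  refine h.trans ?_
  gcongr

theorem hide {m : A} (hm : ‖m‖ ≤ 1) {a : ℝ} (ha : Ov m a) {ι : Type} (s : Finset ι) (c : ι → ℝ) (e : ι → ℕ)
    (k p n l r : ℕ) (he : ∀ i ∈ s, e i ≤ k) (hd : (X - 1 : ℝ[X]) ^ p ∣ ∑ i ∈ s, C (c i) * X ^ e i) (θ : ℝ)
    (hθ : 0 ≤ θ) (hn : 4 * ((k : ℝ) + 1) ^ 2 * a ≤ θ ^ 2 * (n + 1)) (hl : p * n ≤ l) (hr : p * n ≤ r) (y : A) :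
    ‖∑ i ∈ s, c i • (m ^ (l + e i) * y * m ^ (r + (k - e i)))‖ ≤ (∑ i ∈ s, |c i|) * θ ^ p * ‖y‖ := by
  refine (hide_tau hm s c e k p n l r he hd _ le_rfl hl hr y).trans ?_
  have h1 : ((k : ℝ) + 1) * (2 * ‖(m - 1) * m ^ n‖) ≤ θ := by
    refine abs_le_of_sq_le_sq' ?_ hθ |>.2
    refine le_of_mul_le_mul_right ?_ (show (0 : ℝ) < n + 1 by positivity)
    refine le_trans ?_ hn
    have h2 := mul_le_mul_of_nonneg_left (ha n) (show 0 ≤ 4 * ((k : ℝ) + 1) ^ 2 by positivity)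
    refine le_trans (le_of_eq ?_) h2
    ring
  gcongr

lemma sgn_abs (p g : ℕ) : |sgn p g| = 1 := by
  induction p generalizing g with
  | zero => rfl
  | succ p ih => rw [sgn]; split_ifs <;> simp [ih]

lemma sgn_at_zero (p : ℕ) : sgn p 0 = 1 := by
  induction p with
  | zero => rfl
  | succ p ih => rw [sgn, if_pos (by positivity), ih]

/-- The Thue-Morse polynomial is `∏ i < p, (1 - X ^ (2 ^ i * d))`. -/
theorem tm_dvd (p d : ℕ) :
    (X - 1 : ℝ[X]) ^ p ∣ ∑ g ∈ range (2 ^ p), C (sgn p g : ℝ) * X ^ (g * d) := by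
  induction p with
  | zero => simp
  | succ p ih =>
    have e : ∑ g ∈ range (2 ^ (p + 1)), C (sgn (p + 1) g : ℝ) * X ^ (g * d) =
        (∑ g ∈ range (2 ^ p), C (sgn p g : ℝ) * X ^ (g * d)) * -(X ^ (2 ^ p * d) - 1) := by
      rw [pow_succ, mul_two, sum_range_add, sum_mul, ← sum_add_distrib]
      refine sum_congr rfl fun g hg => ?_
      rw [sgn, sgn, if_pos (mem_range.1 hg), if_neg (by omega), Nat.add_sub_cancel_left,
        Int.cast_neg, C_neg]
      ring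
    rw [e, pow_succ]
    exact mul_dvd_mul ih (sub_one_dvd_pow_sub_one _ _).neg_right

/-- The Taylor coefficients at `1` of `X ^ e` are the binomials `e.choose k`, polynomials of degree `k` in `e`. -/
theorem mom_dvd {ι : Type} (s : Finset ι) (c : ι → ℝ) (v : ι → ℤ) (U p : ℕ) (hv : ∀ i ∈ s, 0 ≤ (U : ℤ) + v i)
    (h : ∀ k < p, ∑ i ∈ s, c i * (v i : ℝ) ^ k = 0) :
    (X - 1 : ℝ[X]) ^ p ∣ ∑ i ∈ s, C (c i) * X ^ ((U : ℤ) + v i).toNat := by
  have z : ∀ q : ℝ[X], q.natDegree < p → ∑ i ∈ s, c i * q.eval (v i : ℝ) = 0 := fun q hq => by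
    simp only [eval_eq_sum_range' hq, mul_sum]
    rw [sum_comm]
    exact sum_eq_zero fun k hk => by
      simp only [mul_left_comm (c _), ← mul_sum, h k (mem_range.1 hk), mul_zero]
  rw [← C_1, X_sub_C_pow_dvd_iff, X_pow_dvd_iff]
  intro k hk
  have := z (taylor (U : ℝ) (descPochhammer ℝ k)) (by
    rwa [natDegree_taylor, descPochhammer_natDegree])
  simp only [Polynomial.sum_comp, mul_comp, C_comp, pow_comp, X_comp, C_1, finsetSum_coeff,
    coeff_C_mul, coeff_X_add_one_pow]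
  rw [← zero_div (k.factorial : ℝ), ← this, sum_div]
  refine sum_congr rfl fun i hi => ?_
  have e : (((U : ℤ) + v i).toNat : ℝ) = v i + U := by
    have := Int.toNat_of_nonneg (hv i hi)
    exact_mod_cast this.trans (add_comm _ _)
  rw [Nat.cast_choose_eq_descPochhammer_div, e, taylor_eval, mul_div_assoc]

end Pool.Agent.Lib.MP_343fe0_pr
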