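import Pool.Agent.Lib.MP_343fe0_pr.QVan

set_option autoImplicit false

/-! A Prouhet-Tarry-Escott type identity with two odd weights and polynomially many terms. -/

namespace Pool.Agent.Lib.MP_343fe0_pr

open Finset

/-- Power sum of a list. -/
def ntPs (l : List ℕ) (j : ℕ) : ℤ := (l.map fun u : ℕ => (u : ℤ) ^ j).sum

lemma ntPs_append (A B : List ℕ) (j : ℕ) : ntPs (A ++ B) j = ntPs A j + ntPs B j := by
  simp [ntPs]

lemma ntPs_map_mul (c : ℕ) (A : List ℕ) (j : ℕ) :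
    ntPs (A.map (c * ·)) j = (c : ℤ) ^ j * ntPs A j := by
  induction A with
  | nil => simp [ntPs]
  | cons a A ih =>
    simp only [ntPs, List.map_cons, List.sum_cons] at ih ⊢
    rw [ih]; push_cast; ring

lemma ntPs_bound (A : List ℕ) (W j : ℕ) (h : ∀ u ∈ A, u < W) :
    0 ≤ ntPs A j ∧ ntPs A j ≤ A.length * (W : ℤ) ^ j := by
  induction A with
  | nil => simp [ntPs]
  | cons a A ih =>
    have ih' := ih fun u hu => h u (List.mem_cons_of_mem _ hu)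
    have ha : (a : ℤ) ≤ W := by exact_mod_cast (h a List.mem_cons_self).le
    have h1 : (a : ℤ) ^ j ≤ (W : ℤ) ^ j := pow_le_pow_left₀ (by positivity) ha j
    have h2 : (0 : ℤ) ≤ (a : ℤ) ^ j := by positivity
    simp only [ntPs, List.map_cons, List.sum_cons, List.length_cons] at ih' ⊢
    push_cast
    constructor <;> nlinarith [ih'.1, ih'.2]

lemma nt_digit {p l : ℕ} (hl : l.Prime) (hp : 2 ≤ p) (hpl : p < l) (e : ℕ) (he : 1 ≤ e) (r : ℕ → ℤ)
    (h : ∀ j, 1 ≤ j → j ≤ p → (l : ℤ) ^ e ∣ r j) :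
    ∃ A B : List ℕ, A.length = p ∧ B.length = p ∧ (∀ u ∈ A, u < l ^ (e + 1)) ∧
      (∀ u ∈ B, u < l ^ (e + 1)) ∧
      ∀ j, 1 ≤ j → j ≤ p → (l : ℤ) ^ (e + 1) ∣ r j - 2 * (ntPs A j - ntPs B j) := by
  have := Fact.mk hl
  have hinj : Function.Injective fun u : Fin p => ((u : ℕ) : ZMod l) := by
    intro u v huv
    have := (ZMod.natCast_eq_natCast_iff' _ _ _).1 huv
    rw [Nat.mod_eq_of_lt (by omega), Nat.mod_eq_of_lt (by omega)] at this
    exact Fin.ext this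
  have hu : IsUnit (Matrix.vandermonde fun u : Fin p => ((u : ℕ) : ZMod l)) := by
    rw [Matrix.isUnit_iff_isUnit_det]
    exact (Matrix.det_vandermonde_ne_zero_iff.2 hinj).isUnit
  obtain ⟨y, hy⟩ := Matrix.vecMul_surjective_iff_isUnit.2 hu
    (fun i : Fin p => ((r (i + 1) / (l : ℤ) ^ e : ℤ) : ZMod l) / (2 * ((i + 1 : ℕ) : ZMod l)))
  have hle : l ≤ l ^ e := Nat.le_self_pow (by omega) l
  refine ⟨List.ofFn fun u : Fin p => (u : ℕ) + l ^ e * (y u).val, List.ofFn fun u : Fin p => (u : ℕ),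
    by simp, by simp, ?_, ?_, ?_⟩
  · intro u hu
    obtain ⟨v, rfl⟩ := List.mem_ofFn.1 hu
    have h1 : (y v).val + 1 ≤ l := ZMod.val_lt (y v)
    have h2 : l ^ e * ((y v).val + 1) ≤ l ^ e * l := Nat.mul_le_mul_left _ h1
    have := v.2
    rw [pow_succ]; nlinarith
  · intro u hu
    obtain ⟨v, rfl⟩ := List.mem_ofFn.1 hu
    have := v.2
    have : l ^ e ≤ l ^ (e + 1) := Nat.pow_le_pow_right hl.pos (by omega)
    omega
  · intro j hj hjp
    obtain ⟨i, rfl⟩ : ∃ i, j = i + 1 := ⟨j - 1, by omega⟩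
    obtain ⟨ρ, hρ⟩ := h (i + 1) hj hjp
    have hl0 : (l : ℤ) ^ e ≠ 0 := pow_ne_zero _ (by exact_mod_cast hl.ne_zero)
    have hyi := congrFun hy ⟨i, by omega⟩
    simp only [Matrix.vecMul, dotProduct, Matrix.vandermonde_apply] at hyi
    rw [hρ, Int.mul_ediv_cancel_left _ hl0] at hyi
    have h2 : (2 * ((i + 1 : ℕ) : ZMod l)) ≠ 0 := by
      have a1 : ((2 : ℕ) : ZMod l) ≠ 0 := by
        rw [Ne, ZMod.natCast_eq_zero_iff]; exact fun hd => by have := Nat.le_of_dvd (by omega) hd; omega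
      have a2 : ((i + 1 : ℕ) : ZMod l) ≠ 0 := by
        rw [Ne, ZMod.natCast_eq_zero_iff]; exact fun hd => by have := Nat.le_of_dvd (by omega) hd; omega
      exact mul_ne_zero (by exact_mod_cast a1) a2
    have hd1 : (l : ℤ) ∣ ρ - 2 * ((i + 1 : ℕ) : ℤ) * ∑ u : Fin p, ((y u).val : ℤ) * ((u : ℕ) : ℤ) ^ i := by
      rw [← ZMod.intCast_zmod_eq_zero_iff_dvd]
      rw [eq_div_iff h2] at hyi
      push_cast at hyi ⊢
      simp only [ZMod.natCast_val, ZMod.cast_id', id_eq]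
      rw [← hyi]; ring
    have hd2 : (l : ℤ) ^ (e + 1) ∣ ∑ u : Fin p, ((((u : ℕ) : ℤ) + (l : ℤ) ^ e * (y u).val) ^ (i + 1) -
        ((u : ℕ) : ℤ) ^ i * ((l : ℤ) ^ e * (y u).val) * ((i + 1 : ℕ) : ℤ) - ((u : ℕ) : ℤ) ^ (i + 1)) := by
      refine dvd_sum fun u _ => ?_
      have := sq_dvd_add_pow_sub_sub ((l : ℤ) ^ e * (y u).val) ((u : ℕ) : ℤ) (i + 1)
      rw [Nat.add_sub_cancel] at this
      refine Dvd.dvd.trans ?_ this
      rw [mul_pow, ← pow_mul]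
      exact Dvd.dvd.mul_right (pow_dvd_pow _ (by omega)) _
    have hd3 : (l : ℤ) ^ (e + 1) ∣ (l : ℤ) ^ e *
        (ρ - 2 * ((i + 1 : ℕ) : ℤ) * ∑ u : Fin p, ((y u).val : ℤ) * ((u : ℕ) : ℤ) ^ i) := by
      rw [pow_succ]; exact mul_dvd_mul_left _ hd1
    have := hd3.sub (hd2.mul_left 2)
    refine (Eq.dvd (Eq.symm ?_) |> this.trans)
    simp only [ntPs, List.map_ofFn, List.sum_ofFn, Function.comp_def, sum_sub_distrib, hρ]
    push_cast
    have e1 : ∑ u : Fin p, ((u : ℕ) : ℤ) ^ i * ((l : ℤ) ^ e * (y u).val) * ((i : ℤ) + 1) =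
        (l : ℤ) ^ e * ((i : ℤ) + 1) * ∑ u : Fin p, ((y u).val : ℤ) * ((u : ℕ) : ℤ) ^ i := by
      rw [mul_sum]; exact sum_congr rfl fun u _ => by ring
    rw [e1]; ring

lemma nt_level {p l : ℕ} (hl : l.Prime) (hp : 2 ≤ p) (hpl : p < l) (e : ℕ) (r : ℕ → ℤ)
    (h : ∀ j, 1 ≤ j → j ≤ p → (l : ℤ) ∣ r j) :
    ∃ A B : List ℕ, A.length = e * p ∧ B.length = e * p ∧ (∀ u ∈ A, u < l ^ (e + 1)) ∧
      (∀ u ∈ B, u < l ^ (e + 1)) ∧
      ∀ j, 1 ≤ j → j ≤ p → (l : ℤ) ^ (e + 1) ∣ r j - 2 * (ntPs A j - ntPs B j) := by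
  induction e with
  | zero => exact ⟨[], [], by simp, by simp, by simp, by simp, fun j h1 h2 => by simpa [ntPs] using h j h1 h2⟩
  | succ e ih =>
    obtain ⟨A, B, hA, hB, hA', hB', hr⟩ := ih
    obtain ⟨A1, B1, hA1, hB1, hA1', hB1', hr1⟩ := nt_digit hl hp hpl (e + 1) (by omega) _ hr
    have hm : l ^ (e + 1) ≤ l ^ (e + 1 + 1) := Nat.pow_le_pow_right hl.pos (by omega)
    refine ⟨A ++ A1, B ++ B1, by simp [hA, hA1]; ring, by simp [hB, hB1]; ring, ?_, ?_, ?_⟩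
    · intro u hu
      rcases List.mem_append.1 hu with hu | hu
      exacts [(hA' u hu).trans_le hm, hA1' u hu]
    · intro u hu
      rcases List.mem_append.1 hu with hu | hu
      exacts [(hB' u hu).trans_le hm, hB1' u hu]
    · intro j h1 h2
      convert hr1 j h1 h2 using 1
      rw [ntPs_append, ntPs_append]; ring

lemma nt_levels {p l : ℕ} (hl : l.Prime) (hp : 2 ≤ p) (hpl : p < l) (t : ℕ) (r : ℕ → ℤ)
    (h : ∀ j, 1 ≤ j → j ≤ p → (l : ℤ) ∣ r j) :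
    ∃ A B : List ℕ, A.length = t * (p * p) ∧ B.length = t * (p * p) ∧ (∀ u ∈ A, u < l ^ (t + p)) ∧
      (∀ u ∈ B, u < l ^ (t + p)) ∧
      ∀ j, 1 ≤ j → j ≤ p → (l : ℤ) ^ (t * j + 1) ∣ r j - 2 * (ntPs A j - ntPs B j) := by
  induction t with
  | zero => exact ⟨[], [], by simp, by simp, by simp, by simp, fun j h1 h2 => by simpa [ntPs] using h j h1 h2⟩
  | succ t ih =>
    obtain ⟨A, B, hA, hB, hA', hB', hr⟩ := ih
    have hl0 : ∀ n : ℕ, (l : ℤ) ^ n ≠ 0 := fun n => pow_ne_zero _ (by exact_mod_cast hl.ne_zero)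
    obtain ⟨A1, B1, hA1, hB1, hA1', hB1', hr1⟩ := nt_level hl hp hpl p
      (fun j => (r j - 2 * (ntPs A j - ntPs B j)) / (l : ℤ) ^ (t * j)) (fun j h1 h2 => by
        obtain ⟨c, hc⟩ := hr j h1 h2
        rw [hc, pow_succ, mul_assoc, Int.mul_ediv_cancel_left _ (hl0 _)]
        exact Dvd.intro _ rfl)
    have hm : l ^ (t + p) ≤ l ^ (t + 1 + p) := Nat.pow_le_pow_right hl.pos (by omega)
    have hm' : ∀ u, u < l ^ (p + 1) → l ^ t * u < l ^ (t + 1 + p) := fun u hu => by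
      rw [show t + 1 + p = t + (p + 1) by ring, pow_add]
      exact Nat.mul_lt_mul_of_pos_left hu (pow_pos hl.pos _)
    refine ⟨A ++ A1.map (l ^ t * ·), B ++ B1.map (l ^ t * ·), by simp [hA, hA1]; ring,
      by simp [hB, hB1]; ring, ?_, ?_, ?_⟩
    · intro u hu
      rcases List.mem_append.1 hu with hu | hu
      · exact (hA' u hu).trans_le hm
      · obtain ⟨v, hv, rfl⟩ := List.mem_map.1 hu
        exact hm' v (hA1' v hv)
    · intro u hu
      rcases List.mem_append.1 hu with hu | hu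
      · exact (hB' u hu).trans_le hm
      · obtain ⟨v, hv, rfl⟩ := List.mem_map.1 hu
        exact hm' v (hB1' v hv)
    · intro j h1 h2
      obtain ⟨c, hc⟩ := hr j h1 h2
      obtain ⟨c1, hc1⟩ := hr1 j h1 h2
      rw [hc, pow_succ, mul_assoc, Int.mul_ediv_cancel_left _ (hl0 _)] at hc1
      have e1 : r j - 2 * (ntPs (A ++ A1.map (l ^ t * ·)) j - ntPs (B ++ B1.map (l ^ t * ·)) j) =
          (l : ℤ) ^ (t * j + (p + 1)) * c1 := by
        rw [ntPs_append, ntPs_append, ntPs_map_mul, ntPs_map_mul, pow_add _ (t * j), mul_assoc, ← hc1]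
        push_cast
        rw [← pow_mul]
        rw [pow_succ] at hc
        linear_combination hc
      rw [e1]
      exact Dvd.dvd.mul_right (pow_dvd_pow _ (by nlinarith)) _

lemma nt_fun (J : ℕ) (l : List ℤ) (h : l.length = J) :
    ∃ u : Fin J → ℤ, (∀ i, u i ∈ l) ∧ ∀ f : ℤ → ℤ, ∑ i, f (u i) = (l.map f).sum := by
  subst h
  exact ⟨fun i => l[i], fun i => List.getElem_mem _, fun f => Fin.sum_univ_fun_getElem l f⟩

lemma nt_pigeon {p l : ℕ} (hl : l.Prime) (hp : 2 ≤ p) (hpl : p < l) :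
    ∃ (α β : ℕ) (T T' : List ℕ), α ≠ β ∧ α < l ^ (p ^ 3 + 10 * p) ∧ β < l ^ (p ^ 3 + 10 * p) ∧
      T.length = T'.length ∧ T.length ≤ 20 * p ^ 5 ∧ (∀ u ∈ T, u < l ^ (p ^ 3 + 10 * p)) ∧
      (∀ u ∈ T', u < l ^ (p ^ 3 + 10 * p)) ∧
      ∀ j ≤ p, (α : ℤ) ^ j - (β : ℤ) ^ j - 2 * ntPs T j + 2 * ntPs T' j = 0 := by
  set τ := p ^ 3 + 9 * p with hτ
  have hW : p ^ 3 + 10 * p = τ + p := by omega
  rw [hW]
  have key := fun a : ℕ => nt_levels hl hp hpl τ (fun j => ((l * a : ℕ) : ℤ) ^ j) (fun j h1 _ => by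
    push_cast; exact dvd_pow (Dvd.intro _ rfl) (by omega))
  choose A B hA hB hA' hB' hr using key
  have hl0 : ∀ n : ℕ, (0 : ℤ) < (l : ℤ) ^ n := fun n => pow_pos (by exact_mod_cast hl.pos) _
  have hlt : ∀ a < l ^ τ, l * a < l ^ (τ + p) := fun a ha => by
    calc l * a < l * l ^ τ := Nat.mul_lt_mul_of_pos_left ha hl.pos
      _ = l ^ (τ + 1) := by ring
      _ ≤ l ^ (τ + p) := Nat.pow_le_pow_right hl.pos (by omega)
  set Q : ℕ := (1 + 2 * (τ * (p * p))) * l ^ (p * p) with hQ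
  have hτ10 : τ ≤ 10 * p ^ 3 := by
    have : p ≤ p ^ 3 := Nat.le_self_pow (by omega) p
    omega
  have hn : τ * (p * p) ≤ 10 * p ^ 5 := by
    calc τ * (p * p) ≤ 10 * p ^ 3 * (p * p) := Nat.mul_le_mul_right _ hτ10
      _ = 10 * p ^ 5 := by ring
  have hcard : (Fintype.piFinset fun _ : Fin p => Icc (-(Q : ℤ)) Q).card < (range (l ^ τ)).card := by
    rw [Fintype.card_piFinset, card_range]
    simp only [Int.card_Icc, prod_const, card_univ, Fintype.card_fin]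
    have e1 : ((Q : ℤ) + 1 - -(Q : ℤ)).toNat = 2 * Q + 1 := by omega
    rw [e1]
    have h5 : p ^ 5 ≤ l ^ 5 := Nat.pow_le_pow_left hpl.le 5
    have h4 : 3 ^ 4 ≤ l ^ 4 := Nat.pow_le_pow_left (by omega) 4
    have hp5 : 1 ≤ p ^ 5 := Nat.one_le_pow _ _ (by omega)
    have hx : 1 ≤ l ^ (p * p) := Nat.one_le_pow _ _ hl.pos
    have h9 : 81 * p ^ 5 ≤ l ^ 9 := by
      calc 81 * p ^ 5 ≤ l ^ 4 * l ^ 5 := Nat.mul_le_mul h4 h5
        _ = l ^ 9 := by ring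
    have h2 : 2 * Q + 1 < l ^ (p * p + 9) := by
      rw [pow_add, hQ]
      nlinarith [Nat.mul_le_mul_left (l ^ (p * p)) h9, Nat.mul_le_mul_left (l ^ (p * p)) hn,
        Nat.mul_le_mul hx hp5]
    calc (2 * Q + 1) ^ p < (l ^ (p * p + 9)) ^ p := Nat.pow_lt_pow_left h2 (by omega)
      _ = l ^ τ := by rw [← pow_mul, hτ]; congr 1; ring
  obtain ⟨a, ha, b, hb, hab, hq⟩ := exists_ne_map_eq_of_card_lt_of_maps_to hcard
    (f := fun a (i : Fin p) => (((l * a : ℕ) : ℤ) ^ (i + 1 : ℕ) -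
      2 * (ntPs (A a) (i + 1) - ntPs (B a) (i + 1))) / (l : ℤ) ^ (τ * (i + 1) + 1)) (by
    intro a ha
    simp only [coe_range, Set.mem_Iio] at ha
    simp only [Fintype.coe_piFinset, Set.mem_pi, Set.mem_univ, coe_Icc, Set.mem_Icc, forall_const]
    intro i
    obtain ⟨c, hc⟩ := hr a (i + 1) (by omega) (by omega)
    rw [hc, Int.mul_ediv_cancel_left _ (hl0 _).ne', ← abs_le]
    have b1 := ntPs_bound (A a) _ (i + 1) (hA' a)
    have b2 := ntPs_bound (B a) _ (i + 1) (hB' a)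
    rw [hA] at b1; rw [hB] at b2
    have b3 : ((l * a : ℕ) : ℤ) ^ (i + 1 : ℕ) ≤ ((l ^ (τ + p) : ℕ) : ℤ) ^ (i + 1 : ℕ) :=
      pow_le_pow_left₀ (by positivity) (by exact_mod_cast (hlt a ha).le) _
    have b4 : (0 : ℤ) ≤ ((l * a : ℕ) : ℤ) ^ (i + 1 : ℕ) := by positivity
    have b5 : ((l ^ (τ + p) : ℕ) : ℤ) ^ (i + 1 : ℕ) ≤ (l : ℤ) ^ (τ * (i + 1) + 1) * (l : ℤ) ^ (p * p) := by
      push_cast
      rw [← pow_mul, ← pow_add]
      refine pow_le_pow_right₀ (by exact_mod_cast hl.pos) ?_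
      have := i.2
      nlinarith
    have b6 : |(l : ℤ) ^ (τ * (i + 1) + 1) * c| ≤
        (1 + 2 * ((τ * (p * p) : ℕ) : ℤ)) * ((l ^ (τ + p) : ℕ) : ℤ) ^ (i + 1 : ℕ) := by
      rw [← hc, abs_le]
      constructor <;> nlinarith [b1.1, b1.2, b2.1, b2.2]
    rw [abs_mul, abs_of_pos (hl0 _)] at b6
    refine le_of_mul_le_mul_left (b6.trans ?_) (hl0 (τ * (i + 1) + 1))
    calc (1 + 2 * ((τ * (p * p) : ℕ) : ℤ)) * ((l ^ (τ + p) : ℕ) : ℤ) ^ (i + 1 : ℕ)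
        ≤ (1 + 2 * ((τ * (p * p) : ℕ) : ℤ)) * ((l : ℤ) ^ (τ * (i + 1) + 1) * (l : ℤ) ^ (p * p)) :=
          mul_le_mul_of_nonneg_left b5 (by positivity)
      _ = (l : ℤ) ^ (τ * (i + 1) + 1) * Q := by rw [hQ]; push_cast; ring)
  refine ⟨l * a, l * b, A a ++ B b, B a ++ A b, fun h => hab (Nat.eq_of_mul_eq_mul_left hl.pos h),
    hlt a (mem_range.1 ha), hlt b (mem_range.1 hb), by simp [hA, hB], by simp [hA, hB]; omega, ?_, ?_, ?_⟩
  · intro u hu
    rcases List.mem_append.1 hu with hu | hu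
    exacts [hA' a u hu, hB' b u hu]
  · intro u hu
    rcases List.mem_append.1 hu with hu | hu
    exacts [hB' a u hu, hA' b u hu]
  · intro j hj
    rw [ntPs_append, ntPs_append]
    rcases Nat.eq_zero_or_pos j with rfl | hj0
    · simp [ntPs, hA, hB]
    · obtain ⟨i, rfl⟩ : ∃ i, j = i + 1 := ⟨j - 1, by omega⟩
      have h1 := congrFun hq ⟨i, by omega⟩
      obtain ⟨c, hc⟩ := hr a (i + 1) (by omega) hj
      obtain ⟨c', hc'⟩ := hr b (i + 1) (by omega) hj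
      simp only at h1
      rw [hc, hc', Int.mul_ediv_cancel_left _ (hl0 _).ne', Int.mul_ediv_cancel_left _ (hl0 _).ne'] at h1
      subst h1
      linear_combination hc - hc'

/-- Half of an odd point mass pair is an integer combination of few small point masses, up to `p` moments. -/
theorem qnt (p : ℕ) : ∃ (J U : ℕ) (A : ℤ) (y y' : Fin J → ℤ), J ≤ (p + 2) ^ 6 ∧ U ≤ 2 ^ ((p + 2) ^ 6) ∧
    0 < A ∧ A ≤ U ∧ (∀ j, |y j| ≤ U ∧ |y' j| ≤ U) ∧
    ∀ k ≤ p, A ^ k - (-A) ^ k = 2 * (∑ j, y' j ^ k - ∑ j, y j ^ k) := by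
  rcases lt_or_ge p 2 with hp | hp
  · refine ⟨1, 1, 1, fun _ => 0, fun _ => 1, Nat.one_le_pow _ _ (by omega), Nat.one_le_two_pow,
      one_pos, by simp, fun _ => by simp, fun k hk => ?_⟩
    have : k = 0 ∨ k = 1 := by omega
    rcases this with rfl | rfl <;> simp
  obtain ⟨l, hl, hpl, hl2⟩ := Nat.exists_prime_lt_and_le_two_mul p (by omega)
  obtain ⟨α, β, T, T', hab, hα, hβ, hlen, hle, hT, hT', hrel⟩ := nt_pigeon hl hp hpl
  set W : ℕ := l ^ (p ^ 3 + 10 * p) with hW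
  have hα' : (α : ℤ) ≤ W := by exact_mod_cast hα.le
  have hβ' : (β : ℤ) ≤ W := by exact_mod_cast hβ.le
  obtain ⟨t, ht, hts⟩ := nt_fun T.length (T.map fun u : ℕ => (u : ℤ)) (by simp)
  obtain ⟨t', ht', hts'⟩ := nt_fun T.length (T'.map fun u : ℕ => (u : ℤ)) (by simp [hlen])
  have hv := van_affine (univ : Finset (Bool ⊕ Fin T.length ⊕ Fin T.length))
    (Sum.elim (fun b => if b then 1 else -1) (Sum.elim (fun _ => -2) (fun _ => 2)))
    (Sum.elim (fun b => if b then (α : ℤ) else β) (Sum.elim t t')) (p + 1) (fun k hk => by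
      have h1 := hrel k (by omega)
      have h2 := hts (· ^ k)
      have h3 := hts' (· ^ k)
      simp only [List.map_map, Function.comp_def] at h2 h3
      simp only [Fintype.sum_sum_type, Fintype.sum_bool, Sum.elim_inl, Sum.elim_inr, ← mul_sum, h2, h3]
      simp only [ntPs] at h1
      simp only [if_true, Bool.false_eq_true, if_false]
      linear_combination h1) 2 (-(α + β))
  have hb : ∀ (L : List ℕ) (z : ℤ), (∀ u ∈ L, u < W) → z ∈ L.map (fun u : ℕ => (u : ℤ)) →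
      |2 * z + -((α : ℤ) + β)| ≤ ((2 * W : ℕ) : ℤ) := by
    intro L z hL hz
    obtain ⟨v, hv, rfl⟩ := List.mem_map.1 hz
    have : (v : ℤ) ≤ W := by exact_mod_cast (hL v hv).le
    rw [abs_le]; constructor <;> omega
  have hJ : T.length ≤ (p + 2) ^ 6 := by
    refine hle.trans ?_
    have h1 : 8 * p ≤ p ^ 2 + 60 := by nlinarith [Nat.zero_le (p - 4), sq_nonneg ((p : ℤ) - 4)]
    have h2 : p ^ 4 * (8 * p) ≤ p ^ 4 * (p ^ 2 + 60) := Nat.mul_le_mul_left _ h1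
    have h3 : (p + 2) ^ 6 = p ^ 6 + 12 * p ^ 5 + 60 * p ^ 4 + (160 * p ^ 3 + 240 * p ^ 2 + 192 * p + 64) := by
      ring
    have h4 : p ^ 4 * (8 * p) = 8 * p ^ 5 := by ring
    have h5 : p ^ 4 * (p ^ 2 + 60) = p ^ 6 + 60 * p ^ 4 := by ring
    omega
  have hU : 2 * W ≤ 2 ^ ((p + 2) ^ 6) := by
    have h1 : l ≤ 2 ^ p := by
      refine hl2.trans ?_
      obtain ⟨q, rfl⟩ : ∃ q, p = q + 1 := ⟨p - 1, by omega⟩
      have : q < 2 ^ q := Nat.lt_two_pow_self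
      rw [pow_succ]; omega
    have h2 : p ≤ p ^ 3 := Nat.le_self_pow (by omega) p
    have h3 : p * (p ^ 3 + 10 * p) + 1 ≤ (p + 2) ^ 6 := by
      have a1 : p ^ 4 ≤ (p + 2) ^ 4 := Nat.pow_le_pow_left (by omega) 4
      have a2 : 4 ^ 2 ≤ (p + 2) ^ 2 := Nat.pow_le_pow_left (by omega) 2
      have a3 : p * (p ^ 3 + 10 * p) ≤ p * (11 * p ^ 3) := Nat.mul_le_mul_left _ (by omega)
      have a4 : 1 ≤ p ^ 4 := Nat.one_le_pow _ _ (by omega)
      have a5 : (p + 2) ^ 4 * 4 ^ 2 ≤ (p + 2) ^ 4 * (p + 2) ^ 2 := Nat.mul_le_mul_left _ a2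
      have a6 : (p + 2) ^ 4 * (p + 2) ^ 2 = (p + 2) ^ 6 := by ring
      have a7 : p * (11 * p ^ 3) = 11 * p ^ 4 := by ring
      omega
    calc 2 * W ≤ 2 * (2 ^ p) ^ (p ^ 3 + 10 * p) := Nat.mul_le_mul_left _ (Nat.pow_le_pow_left h1 _)
      _ = 2 ^ (p * (p ^ 3 + 10 * p) + 1) := by rw [← pow_mul, pow_add, pow_one, mul_comm]
      _ ≤ _ := Nat.pow_le_pow_right (by omega) h3
  have hk : ∀ k ≤ p, ((α : ℤ) - β) ^ k - ((β : ℤ) - α) ^ k =
      2 * (∑ j, (2 * t j + -((α : ℤ) + β)) ^ k - ∑ j, (2 * t' j + -((α : ℤ) + β)) ^ k) := by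
    intro k hk
    have h1 := hv k (by omega)
    simp only [Fintype.sum_sum_type, Fintype.sum_bool, Sum.elim_inl, Sum.elim_inr, ← mul_sum,
      if_true, Bool.false_eq_true, if_false] at h1
    have e1 : (2 * (α : ℤ) + -(α + β)) = α - β := by ring
    have e2 : (2 * (β : ℤ) + -(α + β)) = β - α := by ring
    rw [e1, e2] at h1
    linear_combination h1
  rcases lt_or_gt_of_ne hab with h | h
  · refine ⟨T.length, 2 * W, (β : ℤ) - α, fun j => 2 * t j + -((α : ℤ) + β),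
      fun j => 2 * t' j + -((α : ℤ) + β), hJ, hU, by omega, by omega,
      fun j => ⟨hb T _ hT (ht j), hb T' _ hT' (ht' j)⟩, fun k hk' => ?_⟩
    rw [neg_sub]; linear_combination -hk k hk'
  · refine ⟨T.length, 2 * W, (α : ℤ) - β, fun j => 2 * t' j + -((α : ℤ) + β),
      fun j => 2 * t j + -((α : ℤ) + β), hJ, hU, by omega, by omega,
      fun j => ⟨hb T' _ hT' (ht' j), hb T _ hT (ht j)⟩, fun k hk' => ?_⟩
    rw [neg_sub]; exact hk k hk'

end Pool.Agent.Lib.MP_343fe0_pr
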