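import Pool.Agent.Lib.MP_343fe0_pr.Stat

set_option autoImplicit false

/-! The algebra of finitely supported functions on words with the total variation norm. -/

namespace Pool.Agent.Lib.MP_343fe0_pr

open Finset

/-- Sum of the absolute values of the coefficients. -/
noncomputable def nrm (f : Alg) : ℝ := f.coeff.sum fun _ r => |r|

lemma nrm_eq_sum (f : Alg) (s : Finset Wd) (h : f.coeff.support ⊆ s) : nrm f = ∑ w ∈ s, |f.coeff w| := by
  exact Finsupp.sum_of_support_subset f.coeff h (fun _ r => |r|) fun _ _ => abs_zero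

lemma qnorm_mass {f g : Alg} (h : ∀ w, g.coeff w = |f.coeff w|) : nrm f = mass g := by
  classical
  rw [nrm_eq_sum f (f.coeff.support ∪ g.coeff.support) subset_union_left,
    mass_eq_sum g (f.coeff.support ∪ g.coeff.support) subset_union_right]
  exact Finset.sum_congr rfl fun w _ => (h w).symm

lemma qnorm_NN {f : Alg} (h : NN f) : nrm f = mass f := qnorm_mass fun w => (abs_of_nonneg (h w)).symm

lemma qnorm_sub (f g : Alg) (w : Wd) : (f - g).coeff w = f.coeff w - g.coeff w := rfl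

lemma nrm_zero : nrm 0 = 0 := by
  exact Finsupp.sum_zero_index

lemma nrm_add_le (f g : Alg) : nrm (f + g) ≤ nrm f + nrm g := by
  classical
  rw [nrm_eq_sum (f + g) (f.coeff.support ∪ g.coeff.support) Finsupp.support_add,
    nrm_eq_sum f (f.coeff.support ∪ g.coeff.support) subset_union_left,
    nrm_eq_sum g (f.coeff.support ∪ g.coeff.support) subset_union_right, ← Finset.sum_add_distrib]
  exact Finset.sum_le_sum fun w _ => abs_add_le _ _

lemma nrm_neg (f : Alg) : nrm (-f) = nrm f := by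
  rw [nrm_eq_sum (-f) f.coeff.support (Finsupp.support_neg f.coeff).le,
    nrm_eq_sum f f.coeff.support subset_rfl]
  exact Finset.sum_congr rfl fun w _ => abs_neg _

lemma nrm_eq_zero (f : Alg) (h : nrm f = 0) : f = 0 := by
  rw [nrm_eq_sum f f.coeff.support subset_rfl,
    Finset.sum_eq_zero_iff_of_nonneg fun w _ => abs_nonneg _] at h
  refine MonoidAlgebra.coeff_eq_zero.1 (Finsupp.ext fun w => by_contra fun e => e ?_)
  exact abs_eq_zero.1 (h w (Finsupp.mem_support_iff.2 e))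

lemma nrm_smul (t : ℝ) (f : Alg) : nrm (t • f) = |t| * nrm f := by
  rw [nrm_eq_sum (t • f) f.coeff.support Finsupp.support_smul,
    nrm_eq_sum f f.coeff.support subset_rfl, Finset.mul_sum]
  exact Finset.sum_congr rfl fun w _ => abs_mul _ _

lemma qnorm_split (f : Alg) : ∃ p q : Alg, NN p ∧ NN q ∧ f = p - q ∧ nrm f = mass p + mass q := by
  obtain ⟨p, h⟩ : ∃ p : Alg, ∀ w, p.coeff w = max (f.coeff w) 0 :=
    ⟨.ofCoeff (f.coeff ⊔ 0), Finsupp.sup_apply _ _⟩
  refine ⟨p, p - f, fun w => ?_, fun w => ?_, (sub_sub_cancel p f).symm, ?_⟩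
  · rw [h]
    exact le_max_right _ _
  · rw [qnorm_sub, h]
    exact sub_nonneg.2 (le_max_left _ _)
  · rw [← mass_add]
    refine qnorm_mass fun w => ?_
    rw [alg_coeff_add, qnorm_sub, h]
    rcases le_total (f.coeff w) 0 with e | e
    · rw [max_eq_right e, abs_of_nonpos e]
      ring
    · rw [max_eq_left e, abs_of_nonneg e]
      ring

lemma nrm_mul_le (f g : Alg) : nrm (f * g) ≤ nrm f * nrm g := by
  obtain ⟨p, q, hp, hq, e, h1⟩ := qnorm_split f
  obtain ⟨p', q', hp', hq', e', h2⟩ := qnorm_split g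
  have h3 : f * g = (p * p' + q * q') + -(p * q' + q * p') := by
    rw [e, e']
    noncomm_ring
  have h4 := nrm_add_le (p * p' + q * q') (-(p * q' + q * p'))
  rw [← h3, nrm_neg, qnorm_NN ((hp.mul hp').add (hq.mul hq')),
    qnorm_NN ((hp.mul hq').add (hq.mul hp')), mass_add, mass_add, mass_mul, mass_mul, mass_mul,
    mass_mul] at h4
  rw [h1, h2]
  linarith

lemma nrm_of_NN {f : Alg} (h : NN f) : nrm f = mass f := by
  exact qnorm_NN h

/-- The monoid algebra of words, normed by `nrm`. -/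
def L1 : Type := Alg

noncomputable instance : Ring L1 := inferInstanceAs (Ring Alg)
noncomputable instance : Algebra ℝ L1 := inferInstanceAs (Algebra ℝ Alg)

noncomputable def nrmG : AddGroupNorm L1 where
  toFun := fun f => nrm f
  map_zero' := nrm_zero
  add_le' := nrm_add_le
  neg' := nrm_neg
  eq_zero_of_map_eq_zero' := nrm_eq_zero

noncomputable instance : NormedRing L1 :=
  { nrmG.toNormedAddCommGroup, (inferInstance : Ring L1) with
    norm_mul_le := nrm_mul_le }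

noncomputable instance : NormedAlgebra ℝ L1 where
  norm_smul_le := fun t f => (nrm_smul t f).le

instance : NormOneClass L1 := ⟨(nrm_of_NN NN.one).trans mass_one⟩

/-- The law of the trace of a word in the normed algebra. -/
noncomputable def muL : Wd →* L1 := mu

lemma norm_muL (w : Wd) : ‖muL w‖ = 1 := (nrm_of_NN (mu_nn w)).trans (mass_mu w)

/-- A common part `ν` of the laws of two words. -/
theorem common_of_dom (x y : Wd) (f : Alg) (hf : NN f) (hx : Dom f (mu x)) (hy : Dom f (mu y)) :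
    ∃ ν r0 r1 : L1, muL x = ν + r0 ∧ muL y = ν + r1 ∧ ‖ν‖ ≤ mass f ∧ ‖r0‖ ≤ 1 - mass f ∧
      ‖r1‖ ≤ 1 - mass f := by
  obtain ⟨r0, h0, e0⟩ := alg_dom_iff.1 hx
  obtain ⟨r1, h1, e1⟩ := alg_dom_iff.1 hy
  have m0 := mass_mu x
  have m1 := mass_mu y
  rw [e0, mass_add, ← nrm_of_NN h0] at m0
  rw [e1, mass_add, ← nrm_of_NN h1] at m1
  exact ⟨f, r0, r1, e0, e1, (nrm_of_NN hf).le, (eq_sub_of_add_eq' m0).le, (eq_sub_of_add_eq' m1).le⟩

lemma qnorm_min (x y : Wd) : ∃ f : Alg, (∀ w, f.coeff w = min ((mu x).coeff w) ((mu y).coeff w)) ∧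
    mass f = 1 - ‖muL x - muL y‖ / 2 := by
  obtain ⟨f, h⟩ : ∃ f : Alg, ∀ w, f.coeff w = min ((mu x).coeff w) ((mu y).coeff w) :=
    ⟨.ofCoeff ((mu x).coeff ⊓ (mu y).coeff), Finsupp.inf_apply _ _⟩
  refine ⟨f, h, ?_⟩
  have h1 : ‖muL x - muL y‖ = _ :=
    qnorm_mass (f := mu x - mu y) (g := mu x + mu y + (-2 : ℝ) • f) fun w => by
      rw [alg_coeff_add, alg_coeff_add, alg_coeff_smul, h, qnorm_sub]
      rcases le_total ((mu x).coeff w) ((mu y).coeff w) with e | e
      · rw [min_eq_left e, abs_of_nonpos (sub_nonpos.2 e)]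
        ring
      · rw [min_eq_right e, abs_of_nonneg (sub_nonneg.2 e)]
        ring
  rw [h1, mass_add, mass_add, mass_smul, mass_mu, mass_mu]
  ring

/-- Take `f = min (mu x) (mu y)`, of mass `1 - ‖muL x - muL y‖ / 2`. -/
theorem common_of_tv (x y : Wd) (h : ‖muL x - muL y‖ ≤ 1) :
    ∃ (c : ℝ) (ν r0 r1 : L1), 1 / 2 ≤ c ∧ c ≤ 1 ∧ muL x = ν + r0 ∧ muL y = ν + r1 ∧ ‖ν‖ ≤ c ∧
      ‖r0‖ ≤ 1 - c ∧ ‖r1‖ ≤ 1 - c := by
  obtain ⟨f, h1, h2⟩ := qnorm_min x y
  obtain ⟨ν, r0, r1, h3⟩ := common_of_dom x y f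
    (fun w => (h1 w).symm ▸ le_min (mu_nn x w) (mu_nn y w))
    (fun w => (h1 w).symm ▸ min_le_left _ _) fun w => (h1 w).symm ▸ min_le_right _ _
  have := norm_nonneg (muL x - muL y)
  exact ⟨mass f, ν, r0, r1, by linarith, by linarith, h3⟩

/-- `min r s ≤ √(r s)` and `min r s = (r + s - |r - s|) / 2`. -/
theorem aff_ge_tv (x y : Wd) : 1 - ‖muL x - muL y‖ / 2 ≤ Aff (mu x) (mu y) := by
  classical
  obtain ⟨f, h1, h2⟩ := qnorm_min x y
  rw [← h2, mass_eq_sum f (f.coeff.support ∪ (mu x).coeff.support) subset_union_left,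
    Aff_eq_sum _ _ (f.coeff.support ∪ (mu x).coeff.support) subset_union_right]
  refine Finset.sum_le_sum fun w _ => Real.le_sqrt_of_sq_le ?_
  rw [h1, sq]
  exact mul_le_mul (min_le_left _ _) (min_le_right _ _) (le_min (mu_nn x w) (mu_nn y w)) (mu_nn x w)

/-- Cauchy-Schwarz with `|r - s| = |√r - √s| (√r + √s)`. -/
theorem tv_sq_le (x y : Wd) (δ : ℝ) (h : 1 - δ ≤ Aff (mu x) (mu y)) : ‖muL x - muL y‖ ^ 2 ≤ 8 * δ := by
  classical
  obtain ⟨T, hx, hy⟩ : ∃ T : Finset Wd, (mu x).coeff.support ⊆ T ∧ (mu y).coeff.support ⊆ T :=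
    ⟨_, subset_union_left, subset_union_right⟩
  have h1 : ‖muL x - muL y‖ = _ := nrm_eq_sum (mu x - mu y) T
    (Finsupp.support_sub.trans (union_subset hx hy))
  have h2 := mass_mu x
  have h3 := mass_mu y
  rw [mass_eq_sum _ T hx] at h2
  rw [mass_eq_sum _ T hy] at h3
  rw [Aff_eq_sum _ _ T hx] at h
  have h4 : ∀ ε : ℝ, ε ^ 2 = 1 → ∑ w ∈ T, (√((mu x).coeff w) + ε * √((mu y).coeff w)) ^ 2 =
      2 + 2 * ε * ∑ w ∈ T, √((mu x).coeff w * (mu y).coeff w) := fun ε hε => by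
    have h7 : (2 : ℝ) = ∑ w ∈ T, (mu x).coeff w + ∑ w ∈ T, (mu y).coeff w := by
      rw [h2, h3, one_add_one_eq_two]
    rw [Finset.mul_sum]
    refine Eq.trans ?_ (congrArg (· + _) h7.symm)
    rw [← Finset.sum_add_distrib, ← Finset.sum_add_distrib]
    refine Finset.sum_congr rfl fun w _ => ?_
    rw [add_sq, mul_pow, hε, Real.sq_sqrt (mu_nn x w), Real.sq_sqrt (mu_nn y w),
      Real.sqrt_mul (mu_nn x w)]
    ring
  have h5 := Finset.sum_sq_le_sum_mul_sum_of_sq_le_mul T (r := fun w => |(mu x - mu y).coeff w|)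
    (f := fun w => (√((mu x).coeff w) + -1 * √((mu y).coeff w)) ^ 2)
    (g := fun w => (√((mu x).coeff w) + 1 * √((mu y).coeff w)) ^ 2) (fun w _ => sq_nonneg _)
    (fun w _ => sq_nonneg _) fun w _ => le_of_eq (by
      rw [sq_abs, qnorm_sub, ← mul_pow]
      refine congrArg (· ^ 2) ?_
      linear_combination Real.sq_sqrt (mu_nn y w) - Real.sq_sqrt (mu_nn x w))
  have h6 : 0 ≤ ∑ w ∈ T, (√((mu x).coeff w) + -1 * √((mu y).coeff w)) ^ 2 :=
    Finset.sum_nonneg fun w _ => sq_nonneg _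
  rw [h4 _ (by norm_num)] at h6
  rw [h4 _ (by norm_num), h4 _ (by norm_num), ← h1] at h5
  nlinarith

end Pool.Agent.Lib.MP_343fe0_pr
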