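import Pool.Agent.Lib.MP_343fe0_pr.QCell

set_option autoImplicit false

/-! The family of sites built on a state, with explicit exponents, and the doubling operation. -/

namespace Pool.Agent.Lib.MP_343fe0_pr

open Finset

/-- What is known about the family `S` of sites and the state `Z1` made of the sites `S (-A)` and `S A`. -/
structure Lev1 (Z Z1 : St) (S : ℤ → Wd) (b p μ w U : ℕ) (A : ℤ) : Prop where
  hπ : Z1.π = S (-A)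
  hβ : Z1.β = S A
  lo : b ^ μ ≤ Z1.a
  hi : Z1.a ≤ b ^ (μ + 2)
  len : ∀ u : ℤ, |u| ≤ U → (S u).length = Z1.π.length
  l2 : ∀ u : ℤ, |u| ≤ U → ‖muL (S u) - muL Z1.π‖ ≤ (b : ℝ) / (b : ℝ) ^ w
  l3 : ∀ u : ℤ, |u| ≤ U → ∀ R R' v n : ℕ, Z.PB b R (v + 2) → b ^ (R + 3) ≤ (n + 1) * Z1.a → n ≤ b ^ R' →
    v + R' + 2 ≤ 2 * w → ‖muL Z1.π ^ n * (muL (S u) - muL Z1.π) * muL Z1.π ^ n‖ ≤ 1 / (b : ℝ) ^ v
  l4 : ∀ R' v n : ℕ, b ^ (2 * μ + 8) ≤ (n + 1) * Z1.a → n ≤ b ^ R' → v + R' + 2 ≤ 2 * w → v + 2 ≤ p →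
    Z1.N n ≤ 1 / (b : ℝ) ^ v
  l5 : ∀ (ι : Type) (s : Finset ι) (c : ι → ℝ) (u : ι → ℤ) (ρ R' v n : ℕ), (∀ i ∈ s, |u i| ≤ U) →
    ∑ i ∈ s, c i = 0 → (∀ k < p, ∑ i ∈ s, c i * (u i : ℝ) ^ k = 0) → ∑ i ∈ s, |c i| ≤ b → Z.a ≤ b ^ ρ →
    b ^ (2 * ρ + 8) ≤ (n + 1) * Z1.a → 1 ≤ n → n ≤ b ^ R' → v + R' + 3 ≤ 2 * w → v + 2 ≤ p →
    ‖muL Z1.π ^ n * (∑ i ∈ s, c i • muL (S (u i))) * muL Z1.π ^ n‖ ≤ 1 / (b : ℝ) ^ v

lemma qopd_t1 {b K x : ℝ} {v : ℕ} (hb : 0 < b) (h0 : 0 ≤ x) (hK : 2 * K ≤ b ^ 2)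
    (hx : x ≤ 1 / b ^ (v + 2)) : K * x ≤ 1 / 2 * (1 / b ^ v) := by
  calc K * x ≤ b ^ 2 / 2 * x := mul_le_mul_of_nonneg_right (by linarith) h0
    _ ≤ b ^ 2 / 2 * (1 / b ^ (v + 2)) := mul_le_mul_of_nonneg_left hx (by positivity)
    _ = _ := by field_simp; ring

lemma qopd_t2 {b n R v w : ℕ} {δ : ℝ} (hb : 1 ≤ b) (h0 : 0 ≤ δ) (hδ : 4 * δ ≤ b / (b : ℝ) ^ w)
    (hn : n ≤ b ^ R) (hv : v + R + 2 ≤ 2 * w) : (2 * n + 1) * δ ^ 2 ≤ 1 / 4 * (1 / (b : ℝ) ^ v) := by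
  have hb' : (1 : ℝ) ≤ b := by exact_mod_cast hb
  have h1 : (n : ℝ) ≤ (b : ℝ) ^ R := by exact_mod_cast hn
  have h2 : (1 : ℝ) ≤ (b : ℝ) ^ R := one_le_pow₀ hb'
  have h3 := pow_le_pow_left₀ (by positivity) hδ 2
  have h4 : ((b : ℝ) / (b : ℝ) ^ w) ^ 2 ≤ 1 / (b : ℝ) ^ (v + R) := by
    rw [div_pow, ← pow_mul, div_le_div_iff₀ (by positivity) (by positivity), one_mul, ← pow_add]
    exact pow_le_pow_right₀ hb' (by omega)
  calc (2 * n + 1) * δ ^ 2 ≤ 4 * (b : ℝ) ^ R * (1 / 16 * (1 / (b : ℝ) ^ (v + R))) :=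
        mul_le_mul (by linarith) (by linarith) (by positivity) (by positivity)
    _ = _ := by rw [pow_add]; field_simp; norm_num

lemma qopd_t3 {b p Y a ρ N : ℕ} (ha : 1 ≤ a) (hp : 1440 * p ≤ b ^ 2) (hY : Y * a ≤ b ^ (ρ + 2))
    (hN : b ^ (2 * ρ + 8) ≤ 360 * N * a) : p * (4 * Y ^ 2 * a * b ^ 2) ≤ N := by
  refine Nat.le_of_mul_le_mul_left (c := 360 * a) ?_ (by omega)
  calc 360 * a * (p * (4 * Y ^ 2 * a * b ^ 2)) = 1440 * p * (Y * a) ^ 2 * b ^ 2 := by ring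
    _ ≤ b ^ 2 * (b ^ (ρ + 2)) ^ 2 * b ^ 2 := by gcongr
    _ = b ^ (2 * ρ + 8) := by ring
    _ ≤ _ := hN.trans_eq (by ring)

lemma qopd_t4 {b Y a : ℕ} {y : ℝ} (hb : 1 ≤ b) (h : y = Y) :
    4 * y ^ 2 * a ≤ (1 / (b : ℝ)) ^ 2 * ((4 * Y ^ 2 * a * b ^ 2 : ℕ) + 1) := by
  have hb' : (0 : ℝ) < b := by exact_mod_cast hb
  rw [h, div_pow, one_pow, one_div, ← div_eq_inv_mul, le_div_iff₀ (by positivity)]
  push_cast
  linarith

lemma qopd_t5 {b p v : ℕ} (hb : 1 ≤ b) (h : v + 2 ≤ p) :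
    (1 / (b : ℝ)) ^ p ≤ 1 / (b : ℝ) ^ (v + 2) := by
  have hb' : (1 : ℝ) ≤ b := by exact_mod_cast hb
  rw [div_pow, one_pow]
  exact one_div_le_one_div_of_le (by positivity) (pow_le_pow_right₀ hb' h)

/-- Take `c = U + b ^ μ / Z.a`, `H = 2 ^ p (2c+1)`, `S = site Z.π Z.β c p`, `Z1.a = 36 (4 H Z.a + 1)` (`ov_step`, `site_p1`).
Then `b ^ μ ≤ (c - U + 1) Z.a`, so `Z.N (c - U) ≤ 1 / b ^ w`, and `b ^ μ ≤ H Z.a`, `200 H Z.a ≤ b ^ (μ + 2)`,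
`Z1.a ≤ 180 H Z.a`; if `1 ≤ n` then `(n + 1) Z1.a ≤ 360 n H Z.a`.  `l3`: `site_U1` (for `n = 0` get `R ≤ μ`);
`l4`: `site_U2` with `θ = 1 / b`, `n1 = 4 (H+1) ^ 2 Z.a b ^ 2`; `l5`: `site_U3` with `n1 = 4 (2U+1) ^ 2 Z.a b ^ 2`. -/
theorem lev1 (Z : St) (b p μ w U : ℕ) (A : ℤ) (hb : 2 ^ (p + 10) ≤ b) (hU : U ≤ b) (hA0 : 0 < A) (hA : A ≤ U)
    (ha : Z.a ≤ b ^ μ) (hw : Z.PB b μ w) (hμ : μ + 4 ≤ w) :
    ∃ (Z1 : St) (S : ℤ → Wd), Lev1 Z Z1 S b p μ w U A := by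
  have hP : p < 2 ^ p := Nat.lt_two_pow_self
  rw [pow_add, mul_comm] at hb
  obtain ⟨q, hq⟩ : ∃ q, q = b ^ μ / Z.a := ⟨_, rfl⟩
  have ha1 := Z.pos
  have q1 : b ^ μ ≤ (q + 1) * Z.a := by
    rw [hq, mul_comm]
    exact (Nat.lt_mul_div_succ _ ha1).le
  have q2 : q * Z.a ≤ b ^ μ := hq ▸ Nat.div_mul_le_self _ _
  obtain ⟨H, hH⟩ : ∃ H, H = 2 ^ p * (2 * (U + q) + 1) := ⟨_, rfl⟩
  have hb1 : 1024 ≤ b := by omega
  have hb0 : 1 ≤ b := by omega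
  have hbr : (0 : ℝ) < b := by exact_mod_cast hb0
  have hB : 1 ≤ b ^ μ := Nat.one_le_pow _ _ hb0
  have f2 : b ^ μ ≤ H * Z.a := q1.trans (Nat.mul_le_mul_right _ (by
    rw [hH]
    exact le_trans (by omega) (Nat.le_mul_of_pos_left _ (by omega))))
  have f3 : 200 * (H * Z.a) ≤ b ^ (μ + 2) := by
    have h1 : (2 * (U + q) + 1) * Z.a ≤ 3 * b * b ^ μ := by
      have h2 := Nat.mul_le_mul (show 2 * U + 1 ≤ 2 * b + 1 by omega) ha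
      have h3 := Nat.mul_le_mul_right (b ^ μ) (show 2 * b + 3 ≤ 3 * b by omega)
      nlinarith
    calc 200 * (H * Z.a) = 200 * 2 ^ p * ((2 * (U + q) + 1) * Z.a) := by rw [hH]; ring
      _ ≤ 200 * 2 ^ p * (3 * b * b ^ μ) := Nat.mul_le_mul_left _ h1
      _ = 600 * 2 ^ p * (b * b ^ μ) := by ring
      _ ≤ b * (b * b ^ μ) := Nat.mul_le_mul_right _ (by omega)
      _ = _ := by ring
  have f4 : ∀ n, 1 ≤ n → (n + 1) * (36 * (4 * H * Z.a + 1)) ≤ 360 * (n * H) * Z.a := fun n hn =>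
    (Nat.mul_le_mul (show n + 1 ≤ 2 * n by omega)
      (show 36 * (4 * H * Z.a + 1) ≤ 180 * (H * Z.a) by rw [mul_assoc]; omega)).trans_eq (by ring)
  have f5 : 36 * (4 * H * Z.a + 1) ≤ b ^ (μ + 2) := by rw [mul_assoc]; omega
  have hp2 : 1440 * p ≤ b ^ 2 := by nlinarith
  have hPr : 1024 * (2 : ℝ) ^ p ≤ b := by exact_mod_cast hb
  have hP0 : (0 : ℝ) < 2 ^ p := by positivity
  have hb1r : (1024 : ℝ) ≤ b := by exact_mod_cast hb1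
  have hUc : U ≤ U + q := Nat.le_add_right _ _
  have hAU : |A| ≤ U := by rwa [abs_of_pos hA0]
  have hAU' : |-A| ≤ U := by rwa [abs_neg]
  have hc : ∀ u : ℤ, |u| ≤ U → |u| ≤ (U + q : ℕ) := fun u hu => hu.trans (by omega)
  have hδ0 : 0 ≤ 2 ^ p * Z.N (U + q - U) := mul_nonneg hP0.le (norm_nonneg _)
  have hδ : 4 * (2 ^ p * Z.N (U + q - U)) ≤ b / (b : ℝ) ^ w := by
    rw [Nat.add_sub_cancel_left, ← mul_assoc, div_eq_mul_one_div]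
    exact mul_le_mul (by linarith) (hw q q1) (norm_nonneg _) hbr.le
  have hov := ov_step Z.π (site Z.π Z.β (U + q) p (-A)) H Z.a (Nat.pos_of_mul_pos_right
    (hB.trans f2)) Z.ov _ (hH ▸ site_p1 Z (U + q) p U hUc _ hAU') (by
      have h1 : ((8 * H * Z.a + 1 : ℕ) : ℝ) ≤ (b ^ (μ + 2) : ℕ) :=
        Nat.cast_le.2 (by rw [mul_assoc]; omega)
      have h2 : (b : ℝ) ^ (μ + 2) * (b / (b : ℝ) ^ w) ≤ 1 := by
        rw [← mul_div_assoc, ← pow_succ, div_le_one (by positivity)]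
        exact pow_le_pow_right₀ (by linarith) (by omega)
      push_cast at h1
      have h3 := mul_le_mul h1 hδ (by linarith) (by positivity)
      linarith)
  have hl := site_length Z (U + q) p
  refine ⟨⟨site Z.π Z.β (U + q) p (-A), site Z.π Z.β (U + q) p A, 36 * (4 * H * Z.a + 1),
    (hl _ (hc _ hAU)).trans (hl _ (hc _ hAU')).symm, site_ne Z _ p A hA0 (by omega), ?_,
    by omega, hov⟩, site Z.π Z.β (U + q) p, rfl, rfl, ?_, f5,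
    fun u hu => (hl _ (hc _ hu)).trans (hl _ (hc _ hAU')).symm, fun u hu => ?_,
    fun u hu R R' v n h1 h2 h3 h4 => ?_, fun R' v n h2 h3 h4 h5 => ?_,
    fun ι s c u ρ R' v n h1 h2 h3 h4 h5 h6 h7 h8 h9 h10 => ?_⟩
  · rw [hl _ (hc _ hAU'), ← hH, mul_assoc]
    have := Nat.mul_le_mul_left H Z.le
    omega
  · show _ ≤ 36 * (4 * H * Z.a + 1)
    rw [mul_assoc]
    omega
  · have h1 := site_p1 Z (U + q) p U hUc _ hu
    have h2 := site_p1 Z (U + q) p U hUc _ hAU'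
    have h3 := norm_sub_le_norm_sub_add_norm_sub (Z.S (U + q) p u)
      (muL Z.π ^ (2 ^ p * (2 * (U + q) + 1))) (Z.S (U + q) p (-A))
    rw [norm_sub_rev] at h2
    exact h3.trans (by linarith)
  · refine (site_U1 Z (U + q) p U n hUc _ _ _ hAU' hu hAU').trans ?_
    have h5 := qopd_t2 hb0 hδ0 hδ h3 h4
    have h6 := qopd_t1 (K := 2 * 2 ^ p) hbr (norm_nonneg _) (by nlinarith)
      (h1 (n * (2 ^ p * (2 * (U + q) + 1)) + (U + q - U)) (by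
        rw [← hH, Nat.add_sub_cancel_left]
        have h7 : 360 ≤ b ^ 3 := le_trans (by omega) (Nat.le_self_pow (by omega) b)
        rcases Nat.eq_zero_or_pos n with rfl | hn
        · rw [zero_mul, zero_add]
          rw [zero_add, one_mul] at h2
          have h8 := (Nat.pow_le_pow_iff_right (by omega)).1 (h2.trans f5)
          exact (Nat.pow_le_pow_right hb0 (by omega)).trans q1
        · have h8 := (Nat.mul_le_mul_left (b ^ R) h7).trans ((pow_add b R 3 ▸ h2).trans (f4 n hn))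
          rw [mul_assoc] at h8
          exact le_trans (by omega) (Nat.mul_le_mul_right Z.a (show n * H ≤ _ by omega))))
    unfold St.N at h5 ⊢
    linarith
  · have hn : 1 ≤ n := Nat.pos_of_ne_zero (by
      rintro rfl
      rw [zero_add, one_mul] at h2
      have h8 := (Nat.pow_le_pow_iff_right (by omega)).1 (h2.trans f5)
      omega)
    refine (site_U2 Z (U + q) p U n _ hUc _ _ hAU' hAU (1 / b) (by positivity)
      (qopd_t4 (Y := H + 1) hb0 (by rw [← hH]; push_cast; rfl))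
      (hH ▸ qopd_t3 (ρ := μ) ha1 hp2 (by rw [add_mul]; omega) (h2.trans (f4 n hn)))).trans ?_
    have h6 := qopd_t2 hb0 hδ0 hδ h3 h4
    have h7 := qopd_t1 (K := 4 * 2 ^ p) hbr (by positivity) (by nlinarith) (qopd_t5 hb0 h5)
    linarith
  · refine (site_U3 Z (U + q) p U n _ hUc _ hAU' s c u h1 h2 h3 (1 / b) (by positivity)
      (qopd_t4 (Y := 2 * U + 1) hb0 (by push_cast; rfl))
      (hH ▸ qopd_t3 (ρ := ρ) ha1 hp2 (by
        rw [pow_add, mul_comm (b ^ ρ)]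
        exact Nat.mul_le_mul (by nlinarith) h5) (h6.trans (f4 n h7)))).trans ?_
    have h11 := mul_le_mul h4 (qopd_t2 (v := v + 1) hb0 hδ0 hδ h8 (by omega)) (by positivity) hbr.le
    have h12 : (b : ℝ) * (1 / 4 * (1 / (b : ℝ) ^ (v + 1))) = 1 / 4 * (1 / (b : ℝ) ^ v) := by
      rw [pow_succ]
      field_simp
    have h13 := qopd_t1 (K := 2 * 2 ^ p * ∑ i ∈ s, |c i|) hbr (by positivity)
      (by nlinarith [mul_le_mul_of_nonneg_left h4 hP0.le]) (qopd_t5 hb0 h10)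
    have h14 : (0 : ℝ) ≤ 1 / (b : ℝ) ^ v := by positivity
    rw [mul_assoc (∑ i ∈ s, |c i|)]
    linarith

/-- The doubling operation: `lev1` with `U = A = 1` and `St.pb_intro`. -/
theorem opD (Z : St) (b p μ w : ℕ) (hb : 2 ^ (p + 10) ≤ b) (ha : Z.a ≤ b ^ μ) (hw : Z.PB b μ w)
    (hμ : μ + 4 ≤ w) :
    ∃ Z' : St, Z'.a ≤ b ^ (μ + 2) ∧
      (∀ R v, Z.PB b R (v + 2) → v + R + 5 ≤ 2 * w → Z'.PB b (R + 3) v) ∧
      ∀ v, v + 2 * μ + 10 ≤ 2 * w → v + 2 ≤ p → Z'.PB b (2 * μ + 8) v := by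
  have hb1 : 1 ≤ b := le_trans Nat.one_le_two_pow hb
  obtain ⟨Z1, S, h⟩ := lev1 Z b p μ w 1 1 hb hb1 one_pos le_rfl ha hw hμ
  refine ⟨Z1, h.hi, fun R v hR hv => Z1.pb_intro _ _ _ fun n h1 h2 => ?_,
    fun v hv hp => Z1.pb_intro _ _ _ fun n h1 h2 => h.l4 _ v n h1 h2 (by omega) hp⟩
  have := h.l3 1 (by norm_num) R (R + 3) v n hR h1 h2 (by omega)
  rwa [← h.hβ] at this

end Pool.Agent.Lib.MP_343fe0_pr
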