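import Pool.Agent.Lib.MP_343fe0_pr.QSigB

set_option autoImplicit false

/-! The second order terms seen through a long padding. -/

namespace Pool.Agent.Lib.MP_343fe0_pr

open Finset

variable {J p g N W : ℕ}
variable {A : Type} [NormedRing A] [NormedAlgebra ℝ A] [NormOneClass A]
variable {m : A} {V : ℤ → A} {A0 : ℤ} {y y' : Fin J → ℤ} {U g' n2 : ℕ} {ε1 εg εD εω : ℝ}

/-- A sum over the pattern of translates of a fixed object `x` is hidden: `hide` with `e z = z.toNat`, `k = N`,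
`mom_dvd` with `U = 0`; the pattern has at most `N + 1` points. -/
lemma sig_hide (D : Design J p g N W) (hm : ‖m‖ ≤ 1) {a : ℝ} (ha : Ov m a) (c : ℤ → ℤ) (hc : ∀ z ∈ D.P, |c z| ≤ 1)
    (hmom : ∀ k < p, ∑ z ∈ D.P, c z * z ^ k = 0) (θ : ℝ) (hθ : 0 ≤ θ) (n3 l r : ℕ)
    (hn : 4 * ((N : ℝ) + 1) ^ 2 * a ≤ θ ^ 2 * (n3 + 1)) (hl : p * n3 ≤ l) (hr : p * n3 ≤ r) (x : A) :
    ‖∑ z ∈ D.P, (c z : ℝ) • (m ^ (l + z.toNat) * x * m ^ (r + (N - z.toNat)))‖ ≤ (N + 1) * θ ^ p * ‖x‖ := by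
  have hd := mom_dvd D.P (fun z => (c z : ℝ)) (fun z => z) 0 p
    (fun z hz => by simpa using (D.rng z hz).1) fun k hk => by exact_mod_cast hmom k hk
  simp only [Nat.cast_zero, zero_add] at hd
  refine (hide hm ha D.P (fun z => (c z : ℝ)) (fun z => z.toNat) N p n3 l r
    (fun z hz => Int.toNat_le.2 (D.rng z hz).2) hd θ hθ hn hl hr x).trans ?_
  have h1 : D.P.card ≤ N + 1 := by
    have := card_le_card (s := D.P) (t := Icc (0 : ℤ) N) fun z hz => mem_Icc.2 (D.rng z hz)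
    rw [Int.card_Icc] at this
    omega
  have h2 : ∑ z ∈ D.P, |(c z : ℝ)| ≤ N + 1 := by
    refine (sum_le_card_nsmul _ _ 1 fun z hz => by exact_mod_cast hc z hz).trans ?_
    rw [nsmul_eq_mul, mul_one]
    exact_mod_cast h1
  gcongr

omit [NormedAlgebra ℝ A] [NormOneClass A] in
lemma qsigc1_pad (m x : A) (a b c d : ℕ) :
    m ^ a * (m ^ b * x * m ^ c) * m ^ d = m ^ (a + b) * x * m ^ (c + d) := by
  simp only [pow_add, mul_assoc]

lemma qsigc1_eta (D : Design J p g N W) : ∀ z ∈ D.P, |D.η z| ≤ 1 := fun z hz => by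
  rcases D.sg z hz with h | h <;> simp [h]

omit [NormOneClass A] in
lemma qsigc1_two (h : SigHyp g W m V A0 y y' U g' n2 ε1 εg εD εω) {u : ℤ} (hu : |u| ≤ U) :
    ‖V u‖ ≤ 2 := by
  have h1 := norm_sub_le (m + V u) m
  rw [add_sub_cancel_left] at h1
  linarith [h.h1 u hu, h.hm]

lemma qsigc1_fin (W n2 : ℕ) {θ t c : ℝ} (hθ : 0 ≤ θ) (ht : |t| ≤ c) :
    ((N : ℝ) + 1) * θ ^ p * t ≤ c * sigM N W n2 * θ ^ p := by
  have h1 : (N : ℝ) + 1 ≤ sigM N W n2 := by
    have : N + 1 ≤ sigM N W n2 := by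
      unfold sigM
      omega
    exact_mod_cast this
  have h2 := (abs_nonneg t).trans ht
  calc _ ≤ ((N : ℝ) + 1) * θ ^ p * c := by gcongr; exact (le_abs_self t).trans ht
    _ ≤ sigM N W n2 * θ ^ p * c := by gcongr
    _ = _ := by ring

/-- The first order term: `sig_sum`, `sig_hide` with `c = D.η`, `D.mom0`; `‖V A0‖ ≤ 2`. -/
theorem sig_c1 (D : Design J p g N W) (h : SigHyp g W m V A0 y y' U g' n2 ε1 εg εD εω) {a : ℝ} (ha : Ov m a)
    (θ : ℝ) (hθ : 0 ≤ θ) (n3 pad : ℕ) (hn : 4 * ((N : ℝ) + 1) ^ 2 * a ≤ θ ^ 2 * (n3 + 1)) (hpad : p * n3 ≤ pad) :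
    ‖m ^ pad * (∑ i ∈ range (sigM N W n2), D.en n2 i • br1 m (sigM N W n2) i (V A0)) * m ^ pad‖ ≤
      2 * sigM N W n2 * θ ^ p := by
  rw [sig_sum, mul_sum, sum_mul]
  have h1 := sig_hide D h.hm ha D.η (qsigc1_eta D) D.mom0 θ hθ n3 (pad + (W + n2)) (W + n2 + pad) hn
    (by omega) (by omega) (V A0)
  refine (le_of_eq (congrArg _ (sum_congr rfl fun z hz => ?_))).trans (h1.trans ?_)
  · have h2 := Int.toNat_le.2 (D.rng z hz).2
    rw [mul_smul_comm, smul_mul_assoc, br1, qsigc1_pad]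
    congr 3
    · congr 1
      omega
    · unfold sigM
      omega
  · exact qsigc1_fin W n2 hθ ((abs_norm _).trans_le (qsigc1_two h h.hA))

/-- One lag `l` and one atom `σ`: the object is `V A0 * m ^ (l - 1) * V _` for `0 < l` and `V _ * m ^ (-l - 1) * V A0` for
`l < 0`; `sig_hide` with `c z = D.η z * ct D.P D.slot σ (z + l)`, `D.mom`. -/
theorem sig_lag (D : Design J p g N W) (h : SigHyp g W m V A0 y y' U g' n2 ε1 εg εD εω) {a : ℝ} (ha : Ov m a)
    (θ : ℝ) (hθ : 0 ≤ θ) (n3 pad : ℕ) (hn : 4 * ((N : ℝ) + 1) ^ 2 * a ≤ θ ^ 2 * (n3 + 1)) (hpad : p * n3 ≤ pad)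
    (l : ℤ) (hl0 : l ≠ 0) (hl : |l| ≤ W) (σ : Fin J ⊕ Fin J) :
    ‖m ^ pad * (∑ z ∈ D.P, ((D.η z * ct D.P D.slot σ (z + l) : ℤ) : ℝ) •
        br2 m (sigM N W n2) (W + n2 + z.toNat) (V A0) (((W + n2 : ℕ) : ℤ) + z + l).toNat (V (Sum.elim y' y σ))) *
      m ^ pad‖ ≤ 4 * sigM N W n2 * θ ^ p := by
  have hc : ∀ z ∈ D.P, |D.η z * ct D.P D.slot σ (z + l)| ≤ 1 := fun z hz => by
    rw [abs_mul]
    refine mul_le_one₀ (qsigc1_eta D z hz) (abs_nonneg _) ?_
    unfold ct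
    split_ifs
    · cases σ <;> simp
    · simp
    · simp
  have hσ : |Sum.elim y' y σ| ≤ U := by
    cases σ with
    | inl j => exact (h.hy j).2
    | inr j => exact (h.hy j).1
  have h4 : ∀ (u v : ℤ) (k : ℕ), |u| ≤ U → |v| ≤ U → |‖V u * m ^ k * V v‖| ≤ 4 := fun u v k hu hv => by
    rw [abs_norm]
    refine (norm_mul_le _ _).trans ?_
    have h5 := (qprod_right (norm_pow_le_one h.hm k) (V u)).trans (qsigc1_two h hu)
    have := mul_le_mul h5 (qsigc1_two h hv) (norm_nonneg _) zero_le_two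
    linarith
  rw [abs_le] at hl
  rw [mul_sum, sum_mul]
  rcases hl0.lt_or_gt with h0 | h0
  · have h1 := sig_hide D h.hm ha _ hc (D.mom σ l (abs_le.2 hl)) θ hθ n3
      (pad + (((W + n2 : ℕ) : ℤ) + l).toNat) (W + n2 + pad) hn (by omega) (by omega)
      (V (Sum.elim y' y σ) * m ^ ((-l).toNat - 1) * V A0)
    refine (le_of_eq (congrArg _ (sum_congr rfl fun z hz => ?_))).trans
      (h1.trans (qsigc1_fin W n2 hθ (h4 _ _ _ hσ h.hA)))
    obtain ⟨h2, h3⟩ := D.rng z hz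
    rw [mul_smul_comm, smul_mul_assoc, br2, if_neg (by omega), mul_assoc (m ^ _) (V _),
      mul_assoc (m ^ _) _ (V A0), qsigc1_pad]
    congr 3
    · congr 1
      omega
    · congr 3
      omega
    · unfold sigM
      omega
  · have h1 := sig_hide D h.hm ha _ hc (D.mom σ l (abs_le.2 hl)) θ hθ n3
      (pad + (W + n2)) ((((W + n2 : ℕ) : ℤ) - l).toNat + pad) hn (by omega) (by omega)
      (V A0 * m ^ (l.toNat - 1) * V (Sum.elim y' y σ))
    refine (le_of_eq (congrArg _ (sum_congr rfl fun z hz => ?_))).trans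
      (h1.trans (qsigc1_fin W n2 hθ (h4 _ _ _ h.hA hσ)))
    obtain ⟨h2, h3⟩ := D.rng z hz
    rw [mul_smul_comm, smul_mul_assoc, br2, if_pos (by omega), mul_assoc (m ^ _) (V A0),
      mul_assoc (m ^ _) _ (V _), qsigc1_pad]
    congr 3
    · congr 1
      omega
    · congr 3
      omega
    · unfold sigM
      omega

/-- Pairs at distance more than `n2 + g'`: `norm_br2_le` with paddings `n2` and `g'` (`sig_margin`; the mean vanishes at
baseline sites). -/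
theorem sig_far (D : Design J p g N W) (h : SigHyp g W m V A0 y y' U g' n2 ε1 εg εD εω) :
    ‖∑ i ∈ range (sigM N W n2), ∑ j ∈ ((range (sigM N W n2)).erase i).filter
        (fun j => i + (n2 + g') < j ∨ j + (n2 + g') < i),
      D.en n2 i • br2 m (sigM N W n2) i (V A0) j
        ((1 / 2 : ℝ) • (V (D.tn A0 y y' n2 1 j) + V (D.tn A0 y y' n2 (-1) j)))‖ ≤
      (sigM N W n2 : ℝ) ^ 2 * εD * εg := by
  have hD : 0 ≤ εD := (norm_nonneg _).trans h.hD
  have hg : 0 ≤ εg := (norm_nonneg _).trans (h.hg A0 h.hA)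
  have key : ∀ i j : ℕ, (i + (n2 + g') < j ∨ j + (n2 + g') < i) →
      ‖D.en n2 i • br2 m (sigM N W n2) i (V A0) j
        ((1 / 2 : ℝ) • (V (D.tn A0 y y' n2 1 j) + V (D.tn A0 y y' n2 (-1) j)))‖ ≤ εD * εg := by
    intro i j hij
    unfold Design.en
    split_ifs with hi
    swap
    · rw [zero_smul, norm_zero]
      positivity
    obtain ⟨h1, h2⟩ := D.rng _ hi
    have h3 : |(D.η ((i : ℤ) - (W + n2 : ℕ)) : ℝ)| ≤ 1 := by exact_mod_cast qsigc1_eta D _ hi
    rw [norm_smul, Real.norm_eq_abs]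
    refine (mul_le_of_le_one_left (norm_nonneg _) h3).trans ?_
    by_cases h0 : D.tn A0 y y' n2 1 j = -A0 ∧ D.tn A0 y y' n2 (-1) j = -A0
    · rw [h0.1, h0.2, h.h0, add_zero, smul_zero, br2]
      simp only [mul_zero, zero_mul, ite_self, norm_zero]
      positivity
    have h4 : n2 ≤ j ∧ j + n2 < sigM N W n2 :=
      (not_and_or.1 h0).elim (sig_margin D 1 j) (sig_margin D (-1) j)
    have h5 := h.hn2
    refine (norm_br2_le h.hm _ _ (n := n2) (n' := g') (by omega) (by unfold sigM; omega) (by omega)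
      (by omega) (by omega)).trans (mul_le_mul h.hD ?_ (norm_nonneg _) hD)
    rw [mul_smul_comm, smul_mul_assoc, norm_smul, mul_add, add_mul, Real.norm_eq_abs,
      abs_of_pos one_half_pos]
    linarith [norm_add_le (m ^ g' * V (D.tn A0 y y' n2 1 j) * m ^ g')
      (m ^ g' * V (D.tn A0 y y' n2 (-1) j) * m ^ g'), h.hg _ (D.tn_le h.hA h.hy n2 1 (.inl rfl) j),
      h.hg _ (D.tn_le h.hA h.hy n2 (-1) (.inr rfl) j)]
  refine (norm_sum_le _ _).trans ((sum_le_card_nsmul _ _ (sigM N W n2 * (εD * εg))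
    fun i _ => (norm_sum_le _ _).trans ((sum_le_card_nsmul _ _ (εD * εg)
      fun j hj => key i j (mem_filter.1 hj).2).trans ?_)).trans (le_of_eq ?_))
  · rw [nsmul_eq_mul]
    refine mul_le_mul_of_nonneg_right ?_ (by positivity)
    exact_mod_cast (card_filter_le _ _).trans ((card_erase_le).trans (card_range _).le)
  · rw [card_range, nsmul_eq_mul]
    ring

lemma qsigc_br2_add (m D z w : A) (M i j : ℕ) : br2 m M i D j (z + w) = br2 m M i D j z + br2 m M i D j w := by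
  unfold br2; split_ifs <;> simp only [mul_add, add_mul]

lemma qsigc_br2_sum {ι : Type} (s : Finset ι) (m D : A) (c : ι → ℝ) (v : ι → A) (M i j : ℕ) :
    br2 m M i D j (∑ σ ∈ s, c σ • v σ) = ∑ σ ∈ s, c σ • br2 m M i D j (v σ) := by
  unfold br2; split_ifs <;> simp only [mul_sum, sum_mul, mul_smul_comm, smul_mul_assoc]

lemma qsigc_card (D : Design J p g N W) : D.P.card ≤ N + 1 := by
  have : D.P ⊆ Icc (0 : ℤ) N := fun z hz => mem_Icc.2 (D.rng z hz)
  simpa using card_le_card this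

/-- Reindexing the near sites by the lag. -/
lemma qsigc_lag (D : Design J p g N W) (h : SigHyp g W m V A0 y y' U g' n2 ε1 εg εD εω) {z : ℤ} (hz : z ∈ D.P) :
    ∑ j ∈ ((range (sigM N W n2)).erase (W + n2 + z.toNat)).filter
        (fun j => ¬ (W + n2 + z.toNat + (n2 + g') < j ∨ j + (n2 + g') < W + n2 + z.toNat)),
      br2 m (sigM N W n2) (W + n2 + z.toNat) (V A0) j
        ((1 / 2 : ℝ) • (V (D.tn A0 y y' n2 1 j) + V (D.tn A0 y y' n2 (-1) j))) =
    ∑ l ∈ (Icc (-((n2 + g' : ℕ) : ℤ)) (n2 + g' : ℕ)).erase 0,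
      (∑ σ : Fin J ⊕ Fin J, (ct D.P D.slot σ (z + l) : ℝ) • br2 m (sigM N W n2) (W + n2 + z.toNat) (V A0)
          (((W + n2 : ℕ) : ℤ) + z + l).toNat (V (Sum.elim y' y σ)) +
        br2 m (sigM N W n2) (W + n2 + z.toNat) (V A0) (((W + n2 : ℕ) : ℤ) + z + l).toNat
          (if z + l ∈ D.P then defect V A0 y y' else 0)) := by
  obtain ⟨h0, h1⟩ := D.rng z hz
  have hW := h.hW
  symm
  refine sum_nbij' (fun l => (((W + n2 : ℕ) : ℤ) + z + l).toNat) (fun j => (j : ℤ) - ((W + n2 : ℕ) + z))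
    (fun l hl => ?_) (fun j hj => ?_) (fun l hl => ?_) (fun j hj => ?_) fun l hl => ?_
  · simp only [mem_erase, mem_Icc, mem_filter, mem_range, sigM] at hl ⊢
    omega
  · simp only [mem_erase, mem_Icc, mem_filter, mem_range, sigM] at hj ⊢
    omega
  · simp only [mem_erase, mem_Icc] at hl
    omega
  · omega
  · simp only [mem_erase, mem_Icc] at hl
    have e : (((((W + n2 : ℕ) : ℤ) + z + l).toNat : ℕ) : ℤ) - (W + n2 : ℕ) = z + l := by omega
    rw [Design.tn, Design.tn, e, sig_mean D h.h0 (z + l) (by omega) (by omega), qsigc_br2_add, qsigc_br2_sum]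

/-- Pairs at distance at most `n2 + g'`: `sig_sum`, reindex by the lag `l = j - i`, `sig_mean`; the predicted part by
`sig_lag` (at most `2 M` lags and `2 J` atoms), the defect part by `norm_br2_le` with paddings `g'`, `g'` (`D.iso`). -/
theorem sig_near (D : Design J p g N W) (h : SigHyp g W m V A0 y y' U g' n2 ε1 εg εD εω) {a : ℝ} (ha : Ov m a)
    (θ : ℝ) (hθ : 0 ≤ θ) (n3 pad : ℕ) (hn : 4 * ((N : ℝ) + 1) ^ 2 * a ≤ θ ^ 2 * (n3 + 1)) (hpad : p * n3 ≤ pad) :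
    ‖m ^ pad * (∑ i ∈ range (sigM N W n2), ∑ j ∈ ((range (sigM N W n2)).erase i).filter
        (fun j => ¬ (i + (n2 + g') < j ∨ j + (n2 + g') < i)),
      D.en n2 i • br2 m (sigM N W n2) i (V A0) j
        ((1 / 2 : ℝ) • (V (D.tn A0 y y' n2 1 j) + V (D.tn A0 y y' n2 (-1) j)))) * m ^ pad‖ ≤
      (sigM N W n2 : ℝ) ^ 2 * εg * εω + 16 * J * (sigM N W n2 : ℝ) ^ 2 * θ ^ p := by
  have hW := h.hW
  have hn2 := h.hn2
  have hgg := h.hgg
  have hεg : 0 ≤ εg := (norm_nonneg _).trans (h.hg A0 h.hA)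
  have hεω : 0 ≤ εω := (norm_nonneg _).trans h.hω
  simp only [← smul_sum]
  rw [sig_sum D, sum_congr rfl fun z hz => by rw [qsigc_lag D h hz]]
  set L := (Icc (-((n2 + g' : ℕ) : ℤ)) (n2 + g' : ℕ)).erase 0 with hL
  have hLc : (L.card : ℝ) ≤ sigM N W n2 := by
    have : L.card ≤ sigM N W n2 := by
      rw [hL, card_erase_of_mem (mem_Icc.2 ⟨by omega, by omega⟩), Int.card_Icc, sigM]
      omega
    exact_mod_cast this
  have hPc : (D.P.card : ℝ) ≤ sigM N W n2 := by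
    have : D.P.card ≤ sigM N W n2 := (qsigc_card D).trans (by rw [sigM]; omega)
    exact_mod_cast this
  simp only [sum_add_distrib, smul_add, mul_add, add_mul]
  refine (norm_add_le _ _).trans ((add_comm _ _).trans_le (add_le_add ?_ ?_))
  · refine (norm_pad_le h.hm _ _ _).trans ((norm_sum_le _ _).trans
      ((sum_le_card_nsmul _ _ (sigM N W n2 * (εg * εω)) fun z hz => ?_).trans ?_))
    swap
    · rw [nsmul_eq_mul]
      calc _ ≤ (sigM N W n2 : ℝ) * (sigM N W n2 * (εg * εω)) := by gcongr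
        _ = _ := by ring
    have hη : ‖(D.η z : ℝ)‖ = 1 := by rcases D.sg z hz with e | e <;> simp [e]
    rw [norm_smul, hη, one_mul]
    refine (norm_sum_le _ _).trans ((sum_le_card_nsmul _ _ (εg * εω) fun l hl => ?_).trans ?_)
    swap
    · rw [nsmul_eq_mul]; gcongr
    split_ifs with hzl
    · obtain ⟨h0, h1⟩ := D.rng z hz
      obtain ⟨h2, h3⟩ := D.rng _ hzl
      have hl0 := ne_of_mem_erase hl
      have h4 := D.iso z hz (z + l) (by omega) (Or.inl hzl)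
      rw [add_sub_cancel_left, le_abs] at h4
      refine (norm_br2_le (n := g') (n' := g') h.hm _ _ (by omega) (by rw [sigM]; omega) (by omega)
        (by rw [sigM]; omega) (by omega)).trans ?_
      exact mul_le_mul (h.hg A0 h.hA) h.hω (norm_nonneg _) hεg
    · rw [qsiga_br2_zero, norm_zero]; positivity
  · have e : ∑ z ∈ D.P, (D.η z : ℝ) • ∑ l ∈ L, ∑ σ : Fin J ⊕ Fin J, (ct D.P D.slot σ (z + l) : ℝ) •
          br2 m (sigM N W n2) (W + n2 + z.toNat) (V A0) (((W + n2 : ℕ) : ℤ) + z + l).toNat (V (Sum.elim y' y σ)) =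
        ∑ l ∈ L, ∑ σ : Fin J ⊕ Fin J, ∑ z ∈ D.P, ((D.η z * ct D.P D.slot σ (z + l) : ℤ) : ℝ) •
          br2 m (sigM N W n2) (W + n2 + z.toNat) (V A0) (((W + n2 : ℕ) : ℤ) + z + l).toNat (V (Sum.elim y' y σ)) := by
      simp only [smul_sum, smul_smul, Int.cast_mul]
      rw [sum_comm]
      exact sum_congr rfl fun l _ => sum_comm
    rw [e, mul_sum, sum_mul]
    refine (norm_sum_le _ _).trans
      ((sum_le_card_nsmul _ _ (2 * J * (4 * sigM N W n2 * θ ^ p)) fun l hl => ?_).trans ?_)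
    swap
    · rw [nsmul_eq_mul]
      calc _ ≤ (sigM N W n2 : ℝ) * (2 * J * (4 * sigM N W n2 * θ ^ p)) := by gcongr
        _ = 8 * (J * (sigM N W n2 : ℝ) ^ 2 * θ ^ p) := by ring
        _ ≤ 16 * (J * (sigM N W n2 : ℝ) ^ 2 * θ ^ p) := by gcongr; norm_num
        _ = _ := by ring
    rw [mul_sum, sum_mul]
    have hl1 := mem_Icc.1 (mem_of_mem_erase hl)
    refine (norm_sum_le _ _).trans ((sum_le_card_nsmul _ _ (4 * sigM N W n2 * θ ^ p) fun σ _ =>
      sig_lag D h ha θ hθ n3 pad hn hpad l (ne_of_mem_erase hl) (abs_le.2 ⟨by omega, by omega⟩) σ).trans_eq ?_)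
    rw [nsmul_eq_mul, card_univ, Fintype.card_sum, Fintype.card_fin]
    push_cast; ring

/-- `sig_second`, `sig_symm`, `sig_c1`, `sig_far`, `sig_near`, `norm_pad_le`. -/
theorem sig_c (D : Design J p g N W) (h : SigHyp g W m V A0 y y' U g' n2 ε1 εg εD εω) {a : ℝ} (ha : Ov m a)
    (θ : ℝ) (hθ : 0 ≤ θ) (n3 pad : ℕ) (hn : 4 * ((N : ℝ) + 1) ^ 2 * a ≤ θ ^ 2 * (n3 + 1)) (hpad : p * n3 ≤ pad) :
    ‖m ^ pad * (opr (fun j => m + V (D.tn A0 y y' n2 1 j)) (sigM N W n2) -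
      opr (fun j => m + V (D.tn A0 y y' n2 (-1) j)) (sigM N W n2)) * m ^ pad‖ ≤
      3 * (sigM N W n2 : ℝ) ^ 3 * ε1 ^ 2 * εg + (sigM N W n2 : ℝ) ^ 2 * εD * εg +
        (sigM N W n2 : ℝ) ^ 2 * εg * εω + 18 * (J + 1) * (sigM N W n2 : ℝ) ^ 2 * θ ^ p := by
  have hp := sig_pair D h
  have h2 := sig_second hp
  rw [sig_symm hp.hd] at h2
  have h1 := sig_c1 D h ha θ hθ n3 pad hn hpad
  have h3 := sig_far D h
  have h4 := sig_near D h ha θ hθ n3 pad hn hpad
  rw [sum_congr rfl fun i _ => (sum_filter_add_sum_filter_not _ (fun j => i + (n2 + g') < j ∨ j + (n2 + g') < i) _).symm,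
    sum_add_distrib] at h2
  have hM : (1 : ℝ) ≤ sigM N W n2 := by
    have : 1 ≤ sigM N W n2 := by rw [sigM]; omega
    exact_mod_cast this
  generalize (opr (fun j => m + V (D.tn A0 y y' n2 1 j)) (sigM N W n2) -
      opr (fun j => m + V (D.tn A0 y y' n2 (-1) j)) (sigM N W n2)) = Δ at h2 ⊢
  generalize ∑ i ∈ range (sigM N W n2), D.en n2 i • br1 m (sigM N W n2) i (V A0) = S1 at h1 h2
  generalize ∑ i ∈ range (sigM N W n2), ∑ j ∈ ((range (sigM N W n2)).erase i).filter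
        (fun j => i + (n2 + g') < j ∨ j + (n2 + g') < i), D.en n2 i • br2 m (sigM N W n2) i (V A0) j
        ((1 / 2 : ℝ) • (V (D.tn A0 y y' n2 1 j) + V (D.tn A0 y y' n2 (-1) j))) = S2 at h2 h3
  generalize ∑ i ∈ range (sigM N W n2), ∑ j ∈ ((range (sigM N W n2)).erase i).filter
        (fun j => ¬ (i + (n2 + g') < j ∨ j + (n2 + g') < i)), D.en n2 i • br2 m (sigM N W n2) i (V A0) j
        ((1 / 2 : ℝ) • (V (D.tn A0 y y' n2 1 j) + V (D.tn A0 y y' n2 (-1) j))) = S3 at h2 h4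
  have e : m ^ pad * Δ * m ^ pad = m ^ pad * (Δ - S1 - (S2 + S3)) * m ^ pad + m ^ pad * S2 * m ^ pad +
      (m ^ pad * S3 * m ^ pad + m ^ pad * S1 * m ^ pad) := by noncomm_ring
  have b1 := (norm_pad_le h.hm _ pad pad).trans h2
  have b2 := (norm_pad_le h.hm _ pad pad).trans h3
  have b3 := norm_add_le (m ^ pad * S3 * m ^ pad) (m ^ pad * S1 * m ^ pad)
  have b4 : 2 * (sigM N W n2 : ℝ) * θ ^ p ≤ 2 * (sigM N W n2 : ℝ) ^ 2 * θ ^ p := by
    gcongr; exact le_self_pow₀ hM two_ne_zero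
  have b5 : 0 ≤ (J : ℝ) * ((sigM N W n2 : ℝ) ^ 2 * θ ^ p) := by positivity
  have b6 : 0 ≤ (sigM N W n2 : ℝ) ^ 2 * θ ^ p := by positivity
  rw [e]
  refine norm_add₃_le.trans ?_
  nlinarith

end Pool.Agent.Lib.MP_343fe0_pr
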