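import Pool.Agent.Lib.MP_343fe0_pr.QOpD
import Pool.Agent.Lib.MP_343fe0_pr.QSigC
import Pool.Agent.Lib.MP_343fe0_pr.QNT

set_option autoImplicit false

/-! The strip operation. -/

namespace Pool.Agent.Lib.MP_343fe0_pr

open Finset

/-- The hypotheses of the abstract estimates hold for the family of sites: `g' = (b ^ (3r) - 1) / 2`, `n2 = b ^ (4r - 1)`;
`hg` from `l3` (`R' = 3 r`), `hD` from `l4` (`R' = 4 r`), `hω` from `l5` with `ι = Bool ⊕ (Fin J ⊕ Fin J)` or similar, coefficients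
`1/2, -1/2, -1, 1` at the types `A, -A, y' j, y j` (`R' = 3 r`). -/
theorem ops_hyp {Z Z1 : St} {S : ℤ → Wd} {b p μ w U J : ℕ} {A : ℤ} (h : Lev1 Z Z1 S b p μ w U A)
    (y y' : Fin J → ℤ) (r ρ R E v0 : ℕ) (hb : 2 ≤ b) (hJ : 2 * J + 1 ≤ b) (hr : 1 ≤ r) (hA0 : 0 < A) (hA : A ≤ U)
    (hy : ∀ j, |y j| ≤ U ∧ |y' j| ≤ U)
    (hmom : ∀ k ≤ p, A ^ k - (-A) ^ k = 2 * (∑ j, y' j ^ k - ∑ j, y j ^ k))
    (ha : Z.a ≤ b ^ ρ) (hE : Z.PB b R (E + 2)) (h1 : μ + 10 ≤ 4 * r) (h2 : 2 * ρ + 10 ≤ 3 * r + μ)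
    (h3 : R + 5 ≤ 3 * r + μ) (h4 : E + 4 * r + 3 ≤ 2 * w) (h5 : v0 + 4 * r + 3 ≤ 2 * w) (h6 : v0 + 2 ≤ p) :
    SigHyp (b ^ (3 * r)) (b ^ (4 * r)) (muL Z1.π) (fun u => muL (S u) - muL Z1.π) A y y' U
      ((b ^ (3 * r) - 1) / 2) (b ^ (4 * r - 1)) ((b : ℝ) / (b : ℝ) ^ w) (1 / (b : ℝ) ^ E) (1 / (b : ℝ) ^ v0)
      (1 / (b : ℝ) ^ v0) := by
  have hb1 : 1 ≤ b := by omega
  have pw : ∀ {i j : ℕ}, i ≤ j → b ^ i ≤ b ^ j := fun hij => Nat.pow_le_pow_right hb1 hij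
  have e3 : b ^ (3 * r) = b ^ (3 * r - 1) * b := by
    rw [← pow_succ]
    congr 1
    omega
  have e4 : b ^ (4 * r) = b ^ (4 * r - 1) * b := by
    rw [← pow_succ]
    congr 1
    omega
  have a1 : b ^ (3 * r - 1) * 2 ≤ b ^ (3 * r) := e3 ▸ Nat.mul_le_mul_left _ hb
  have a2 : b ^ (4 * r - 1) * 2 ≤ b ^ (4 * r) := e4 ▸ Nat.mul_le_mul_left _ hb
  have a3 : b ^ (3 * r) ≤ b ^ (4 * r - 1) := pw (by omega)
  have a4 : 2 ≤ b ^ (3 * r - 1) := hb.trans ((pow_one b).symm.trans_le (pw (by omega)))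
  have key : ∀ {i k n : ℕ}, i ≤ k + μ → b ^ k ≤ n + 1 → b ^ i ≤ (n + 1) * Z1.a := fun hi hk =>
    (pw hi).trans ((pow_add b _ μ).trans_le (Nat.mul_le_mul hk h.lo))
  have hA' : |A| ≤ U := (abs_of_pos hA0).trans_le hA
  refine ⟨(norm_muL _).le, hA', hy, ?_, fun u _ => ?_, h.l2, fun u hu => h.l3 u hu R (3 * r) E _ hE
    (key (k := 3 * r - 1) (by omega) (by omega)) (by omega) (by omega), ?_, ?_, by omega, by omega,
    by omega⟩
  · rw [h.hπ, sub_self]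
  · rw [add_sub_cancel]
    exact (norm_muL _).le
  · rw [← h.hβ]
    exact h.l4 (4 * r) v0 _ (key (k := 4 * r - 1) (by omega) (by omega)) (by omega) (by omega) h6
  · have a := h.l5 (Bool ⊕ (Fin J ⊕ Fin J)) univ
      (Sum.elim (fun t => if t then 1 / 2 else -(1 / 2)) (Sum.elim (fun _ => -1) fun _ => 1))
      (Sum.elim (fun t => if t then A else -A) (Sum.elim y' y)) ρ (3 * r) v0
      ((b ^ (3 * r) - 1) / 2) ?_ (by simp) (fun k hk => ?_) ?_ ha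
      (key (k := 3 * r - 1) (by omega) (by omega)) (by omega) (by omega) (by omega) h6
    · convert a using 4
      simp only [defect, Fintype.sum_sum_type, Fintype.sum_bool, Sum.elim_inl, Sum.elim_inr, if_true,
        Bool.false_eq_true, if_false, ← h.hπ, sum_sub_distrib, neg_smul, one_smul, sum_neg_distrib,
        smul_sub]
      abel
    · rintro (t | j | j) -
      · cases t
        · simpa using hA'
        · simpa using hA'
      · exact (hy j).2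
      · exact (hy j).1
    · have e := congrArg (Int.cast : ℤ → ℝ) (hmom k hk.le)
      push_cast at e
      simp only [Fintype.sum_sum_type, Fintype.sum_bool, Sum.elim_inl, Sum.elim_inr, if_true,
        Bool.false_eq_true, if_false, Int.cast_neg, neg_mul, one_mul, sum_neg_distrib]
      linarith
    · have e : ((2 * J + 1 : ℕ) : ℝ) ≤ b := Nat.cast_le.2 hJ
      push_cast at e
      simp only [Fintype.sum_sum_type, Fintype.sum_bool, Sum.elim_inl, Sum.elim_inr, if_true,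
        Bool.false_eq_true, if_false, abs_neg, abs_one, sum_const, card_univ, Fintype.card_fin,
        nsmul_eq_mul, mul_one, abs_of_pos (one_half_pos (α := ℝ))]
      linarith

/-- The new state: `π = opr (fun j => S (D.tn A y y' n2 (-1) j)) M`, `β` the same with `1`, `a = 36 (4 M Z1.a + 1)`
(`ov_step` with `opr_p1`, `opr_length`, `opr_inj`, `Design.tn_dif`); the bounds are `sig_b` and, with `norm_pad_change`
(`x = muL π`, `z = muL Z1.π ^ M`), `sig_a`, `sig_b`, `sig_c`. -/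
theorem ops_state {J p g N W : ℕ} (D : Design J p g N W) (Z1 : St) (S : ℤ → Wd) (A : ℤ) (y y' : Fin J → ℤ)
    (U g' n2 : ℕ) (ε1 εg εD εω : ℝ) (hπ : Z1.π = S (-A)) (hβ : Z1.β = S A)
    (hlen : ∀ u : ℤ, |u| ≤ U → (S u).length = Z1.π.length)
    (h : SigHyp g W (muL Z1.π) (fun u => muL (S u) - muL Z1.π) A y y' U g' n2 ε1 εg εD εω)
    (hs : (8 * (sigM N W n2 : ℝ) * Z1.a + 1) * (sigM N W n2 * ε1) ≤ 1 / 2) :
    ∃ Z2 : St, Z2.a = 36 * (4 * sigM N W n2 * Z1.a + 1) ∧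
      (∀ n, Z2.N n ≤ sigM N W n2 * εD + 2 * (sigM N W n2 : ℝ) ^ 2 * ε1 * εg) ∧
      ∀ (θ : ℝ) (n3 n : ℕ), 0 ≤ θ → 4 * ((N : ℝ) + 1) ^ 2 * Z1.a ≤ θ ^ 2 * (n3 + 1) → p * n3 ≤ sigM N W n2 * n →
        Z2.N n ≤ 3 * (sigM N W n2 : ℝ) ^ 3 * ε1 ^ 2 * εg + (sigM N W n2 : ℝ) ^ 2 * εD * εg +
          (sigM N W n2 : ℝ) ^ 2 * εg * εω + 18 * (J + 1) * (sigM N W n2 : ℝ) ^ 2 * θ ^ p +
          2 * n * (sigM N W n2 * εg + (sigM N W n2 * ε1) ^ 2) *
            (sigM N W n2 * εD + 2 * (sigM N W n2 : ℝ) ^ 2 * ε1 * εg) := by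
  have hM : 1 ≤ sigM N W n2 := Nat.le_add_left 1 _
  have hle : ∀ s : ℤ, s = 1 ∨ s = -1 → ∀ j, |D.tn A y y' n2 s j| ≤ U := fun s hs j =>
    D.tn_le h.hA h.hy n2 s hs j
  have hl : ∀ s : ℤ, s = 1 ∨ s = -1 → ∀ j < sigM N W n2,
      (S (D.tn A y y' n2 s j)).length = Z1.π.length := fun s hs j _ => hlen _ (hle s hs j)
  have hmu : ∀ s : ℤ, muL (opr (fun j => S (D.tn A y y' n2 s j)) (sigM N W n2)) =
      opr (fun j => muL Z1.π + (muL (S (D.tn A y y' n2 s j)) - muL Z1.π)) (sigM N W n2) := fun s => by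
    rw [map_opr]
    exact opr_congr fun j _ => (add_sub_cancel _ _).symm
  have ha := sig_a D h
  have hb := sig_b D h
  have hc := fun θ hθ n3 pad => sig_c D h Z1.ov θ hθ n3 pad
  have hp := opr_p1 h.hm (fun j => muL (S (D.tn A y y' n2 (-1) j)) - muL Z1.π) (sigM N W n2) ε1
    (fun j _ => h.h1 _ (hle _ (Or.inr rfl) j)) fun j _ => h.h2 _ (hle _ (Or.inr rfl) j)
  simp only [← hmu] at ha hb hc hp
  have hov := ov_step Z1.π _ _ Z1.a hM Z1.ov _ hp hs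
  have e1 := opr_length _ _ _ (hl 1 (Or.inl rfl))
  have e2 := opr_length _ _ _ (hl (-1) (Or.inr rfl))
  have hne : opr (fun j => S (D.tn A y y' n2 (-1) j)) (sigM N W n2) ≠
      opr (fun j => S (D.tn A y y' n2 1 j)) (sigM N W n2) := fun e => by
    obtain ⟨j, hj, h1⟩ := D.tn_dif A y y' n2
    have h2 := opr_inj _ _ _ _ (hl (-1) (Or.inr rfl)) (hl 1 (Or.inl rfl)) e j hj
    refine Z1.ne ?_
    rcases h1 with ⟨h3, h4⟩ | ⟨h3, h4⟩ <;> simp only [h3, h4] at h2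
    · rw [hπ, hβ, h2]
    · rw [hπ, hβ, h2]
  have hlo : (opr (fun j => S (D.tn A y y' n2 (-1) j)) (sigM N W n2)).length ≤
      36 * (4 * sigM N W n2 * Z1.a + 1) := by
    have := Nat.mul_le_mul_left (sigM N W n2) Z1.le
    rw [e2, mul_assoc]
    omega
  refine ⟨⟨_, _, _, e1.trans e2.symm, hne, hlo, by omega, hov⟩, rfl,
    fun n => (norm_pad_le (norm_muL _).le _ n n).trans hb, fun θ n3 n hθ h1 h2 => ?_⟩
  refine (norm_pad_change (norm_muL _).le (norm_pow_le_one h.hm (sigM N W n2)) _ n).trans ?_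
  rw [← pow_mul]
  refine add_le_add (hc θ hθ n3 _ h1 h2) ?_
  exact mul_le_mul (mul_le_mul_of_nonneg_left ha (by positivity)) hb (norm_nonneg _)
    (mul_nonneg (by positivity) ((norm_nonneg _).trans ha))

/-- `a` lies between `0` and `x ^ k`. -/
def qops3_B (x a : ℝ) (k : ℤ) : Prop := 0 ≤ a ∧ a ≤ x ^ k

section
variable {x a c : ℝ} {k l : ℤ}

lemma qops3_mul (hx : 2 ≤ x) (h : qops3_B x a k) (h' : qops3_B x c l) : qops3_B x (a * c) (k + l) :=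
  ⟨mul_nonneg h.1 h'.1, by
    rw [zpow_add₀ (by linarith)]
    exact mul_le_mul h.2 h'.2 h'.1 (h.1.trans h.2)⟩

lemma qops3_add (hx : 2 ≤ x) (m : ℤ) (h : qops3_B x a k) (h' : qops3_B x c l) (hk : k < m) (hl : l < m) :
    qops3_B x (a + c) m := by
  have h1 := h.2.trans (zpow_le_zpow_right₀ (by linarith) (show k ≤ m - 1 by omega))
  have h2 := h'.2.trans (zpow_le_zpow_right₀ (by linarith) (show l ≤ m - 1 by omega))
  have h3 : x ^ m = x ^ (m - 1) * x := by rw [← zpow_add_one₀ (by linarith), sub_add_cancel]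
  have h4 := mul_le_mul_of_nonneg_left hx (h.1.trans h1)
  exact ⟨add_nonneg h.1 h'.1, by linarith⟩

lemma qops3_pow (h : qops3_B x a k) (n : ℕ) : qops3_B x (a ^ n) (k * n) :=
  ⟨pow_nonneg h.1 n, by
    rw [zpow_mul, zpow_natCast]
    exact pow_le_pow_left₀ h.1 h.2 n⟩

lemma qops3_c (h0 : 0 ≤ c) (h : c ≤ x) : qops3_B x c 1 := ⟨h0, by rwa [zpow_one]⟩

lemma qops3_nat {b n e : ℕ} (h : n ≤ b ^ e) : qops3_B b n e :=
  ⟨n.cast_nonneg, by rw [zpow_natCast]; exact_mod_cast h⟩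

lemma qops3_inv (hx : 2 ≤ x) (e : ℕ) : qops3_B x (1 / x ^ e) (-e) :=
  ⟨by positivity, by rw [zpow_neg, zpow_natCast, one_div]⟩

lemma qops3_fin (hx : 2 ≤ x) (h : qops3_B x a k) {v : ℕ} (hv : k ≤ -v) : a ≤ 1 / x ^ v := by
  rw [one_div, ← zpow_natCast, ← zpow_neg]
  exact h.2.trans (zpow_le_zpow_right₀ (by linarith) hv)

end

lemma qops3_pad {b p r μ a M n : ℕ} (hb : 5760 ≤ b) (hp : p ≤ b) (ha0 : 1 ≤ a) (ha : a ≤ b ^ (μ + 2))
    (h1 : μ + 10 ≤ 4 * r) (hM : 1 ≤ M) (hn0 : 1 ≤ n)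
    (hn : b ^ (14 * r + 12) ≤ (n + 1) * (36 * (4 * M * a + 1))) :
    p * (4 * (b ^ (3 * r + 12) + 1) ^ 2 * a * b ^ 2) ≤ M * n := by
  have hN : b ^ (3 * r + 12) + 1 ≤ 2 * b ^ (3 * r + 12) := by
    have := Nat.one_le_pow (3 * r + 12) b (by omega)
    omega
  have hMa : 1 ≤ M * a := Nat.mul_pos hM ha0
  refine Nat.le_of_mul_le_mul_right ?_ (show 0 < 360 * a by omega)
  calc p * (4 * (b ^ (3 * r + 12) + 1) ^ 2 * a * b ^ 2) * (360 * a)
      ≤ b * (4 * (2 * b ^ (3 * r + 12)) ^ 2 * b ^ (μ + 2) * b ^ 2) * (360 * b ^ (μ + 2)) := by gcongr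
    _ = 5760 * b ^ (6 * r + 2 * μ + 31) := by ring
    _ ≤ b * b ^ (14 * r + 11) := Nat.mul_le_mul hb (Nat.pow_le_pow_right (by omega) (by omega))
    _ = b ^ (14 * r + 12) := by ring
    _ ≤ (n + 1) * (36 * (4 * M * a + 1)) := hn
    _ ≤ (2 * n) * (36 * (5 * (M * a))) := Nat.mul_le_mul (by omega) (by rw [mul_assoc 4]; omega)
    _ = M * n * (360 * a) := by ring

/-- `qnt p`, `lev1`, `qdesign`, `ops_hyp` with `v0 = 2 w - 4 r - 3`, `ops_state`, `St.pb_intro`.  With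
`M = sigM _ _ _ ≤ 6 b ^ (4r)`, `θ = 1 / b`, `n3 = 4 (N + 1) ^ 2 Z1.a b ^ 2`. -/
theorem opS (Z : St) (b p r μ ρ w R E : ℕ) (hb : 2 ^ ((p + (p + 2) ^ 6 * (r + 2) + 10) ^ 3) ≤ b) (hr : 12 ≤ r)
    (ha : Z.a ≤ b ^ ρ) (hρ : ρ ≤ μ) (hw : Z.PB b μ w) (hE : Z.PB b R (E + 2)) (h1 : μ + 10 ≤ 4 * r)
    (h2 : 2 * ρ + 10 ≤ 3 * r + μ) (h3 : R + 5 ≤ 3 * r + μ) (h4 : E + 4 * r + 3 ≤ 2 * w) (h5 : w ≤ E)
    (h6 : 12 * r + 3 ≤ w) (h7 : 2 * w + E ≤ p) :
    ∃ Z' : St, Z'.a ≤ b ^ (8 * r) ∧ (∀ v, v + 8 * r + 5 ≤ 2 * w → Z'.PB b 0 v) ∧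
      ∀ v, v + 26 * r + 21 ≤ 2 * w + E → Z'.PB b (14 * r + 12) v := by
  obtain ⟨J, U, A, y, y', hJ, hU, hA0, hA, hy, hmom⟩ := qnt p
  have hq : 1 ≤ (p + 2) ^ 6 := Nat.one_le_pow _ _ (by omega)
  generalize (p + 2) ^ 6 = q at hb hJ hU hq
  have hJb : 2 ^ ((p + J * (r + 2) + 10) ^ 3) ≤ b := le_trans (by gcongr; norm_num) hb
  have hq' : q * 14 ≤ q * (r + 2) := Nat.mul_le_mul_left _ (by omega)
  have hs : ∀ k ≤ p + q * 14 + 10, 2 ^ k ≤ b := fun k hk => by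
    have h : k ≤ p + q * (r + 2) + 10 := by omega
    exact (Nat.pow_le_pow_right two_pos (h.trans (Nat.le_self_pow three_ne_zero _))).trans hb
  have hs' : ∀ k ≤ p + q * 14 + 10, k ≤ b := fun k hk => Nat.lt_two_pow_self.le.trans (hs k hk)
  clear hb hq'
  have hb0 : 8192 ≤ b := hs 13 (by omega)
  have hb1 : 1 ≤ b := by omega
  obtain ⟨Z1, S, hL⟩ := lev1 Z b p μ w U A (hs _ (by omega)) (hU.trans (hs _ (by omega))) hA0 hA
    (ha.trans (Nat.pow_le_pow_right hb1 hρ)) hw (by omega)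
  obtain ⟨D⟩ := qdesign J p r b (by omega) hJb
  obtain ⟨v0, hv0⟩ : ∃ v0, v0 + 4 * r + 3 = 2 * w := ⟨2 * w - (4 * r + 3), by omega⟩
  have hH := ops_hyp hL y y' r ρ R E v0 (by omega) (hs' _ (by omega)) (by omega) hA0 hA hy hmom ha hE h1 h2 h3
    h4 hv0.le (by omega)
  have hst := ops_state D Z1 S A y y' U _ _ _ _ _ _ hL.hπ hL.hβ hL.len hH
  have hM : sigM (b ^ (3 * r + 12)) (b ^ (4 * r)) (b ^ (4 * r - 1)) ≤ b ^ (4 * r + 1) := by
    have a1 : b ^ (3 * r + 12) ≤ b ^ (4 * r) := Nat.pow_le_pow_right hb1 (by omega)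
    have a2 : b ^ (4 * r - 1) ≤ b ^ (4 * r) := Nat.pow_le_pow_right hb1 (by omega)
    have a3 : 1 ≤ b ^ (4 * r) := Nat.one_le_pow _ _ hb1
    have a4 : b ^ (4 * r) * 6 ≤ b ^ (4 * r) * b := Nat.mul_le_mul_left _ (by omega)
    rw [sigM, pow_succ b (4 * r)]
    omega
  have hM0 : 1 ≤ sigM (b ^ (3 * r + 12)) (b ^ (4 * r)) (b ^ (4 * r - 1)) := Nat.le_add_left _ _
  generalize sigM (b ^ (3 * r + 12)) (b ^ (4 * r)) (b ^ (4 * r - 1)) = M at hst hM hM0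
  have hx0 : (8192 : ℝ) ≤ b := by exact_mod_cast hb0
  have hx : (2 : ℝ) ≤ b := by linarith
  have bc : ∀ c : ℝ, 0 ≤ c → c ≤ 8192 → qops3_B b c 1 := fun c h0 hc => qops3_c h0 (hc.trans hx0)
  have bM := qops3_nat hM
  have ba := qops3_nat hL.hi
  have b1 : qops3_B b ((b : ℝ) / (b : ℝ) ^ w) (1 + -w) := by
    rw [div_eq_mul_one_div]
    exact qops3_mul hx (qops3_c (by positivity) le_rfl) (qops3_inv hx w)
  have bg := qops3_inv hx E
  have bD := qops3_inv hx v0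
  have bM1 := qops3_mul hx bM b1
  have bM2 := qops3_pow bM 2
  have bN := qops3_add hx (8 * r + 5 - 2 * w) (qops3_mul hx bM bD)
    (qops3_mul hx (qops3_mul hx (qops3_mul hx (bc 2 (by norm_num) (by norm_num)) bM2) b1) bg)
    (by omega) (by omega)
  obtain ⟨Z2, ha2, hN1, hN2⟩ := hst ((qops3_fin hx (qops3_mul hx (qops3_add hx (8 * r - 5)
    (qops3_mul hx (qops3_mul hx (bc 8 (by norm_num) (by norm_num)) bM) ba) (bc 1 (by norm_num) (by norm_num))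
    (by omega) (by omega)) bM1) (v := 1) (by omega)).trans (by
      rw [pow_one]
      exact one_div_le_one_div_of_le two_pos hx))
  have ha8 : Z2.a ≤ b ^ (8 * r) := by
    have h := (qops3_mul hx (bc 36 (by norm_num) (by norm_num)) (qops3_add hx (8 * r - 1)
      (qops3_mul hx (qops3_mul hx (bc 4 (by norm_num) (by norm_num)) bM) ba) (bc 1 (by norm_num) (by norm_num))
      (by omega) (by omega))).2
    rw [show (1 : ℤ) + (8 * r - 1) = (8 * r : ℕ) by omega, zpow_natCast] at h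
    rw [ha2]
    exact_mod_cast h
  refine ⟨Z2, ha8, fun v hv n _ => (hN1 n).trans (qops3_fin hx bN (by omega)),
    fun v hv => Z2.pb_intro _ _ _ fun n hn hn' => ?_⟩
  have hn0 : 1 ≤ n := by
    rcases Nat.eq_zero_or_pos n with rfl | h
    · have := Nat.pow_lt_pow_right (show 1 < b by omega) (show 8 * r < 14 * r + 12 by omega)
      omega
    · exact h
  rw [ha2] at hn
  refine (hN2 (1 / b) _ n (by positivity) ?_
    (qops3_pad (by omega) (hs' p (by omega)) Z1.pos hL.hi h1 hM0 hn0 hn)).trans ?_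
  · have h0 : (b : ℝ) ≠ 0 := by positivity
    rw [mul_add]
    refine le_add_of_le_of_nonneg (le_of_eq ?_) (by positivity)
    push_cast
    field_simp
  have bJ : qops3_B b ((J : ℝ) + 1) 1 := qops3_c (by positivity) (by exact_mod_cast hs' (J + 1) (by omega))
  rw [one_div_pow]
  exact qops3_fin hx (qops3_add hx (26 * r + 21 - 2 * w - E) (qops3_add hx (12 * r + 9 - 2 * w - E)
    (qops3_add hx (12 * r + 8 - 2 * w - E) (qops3_add hx (12 * r + 7 - 2 * w - E)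
      (qops3_mul hx (qops3_mul hx (qops3_mul hx (bc 3 (by norm_num) (by norm_num)) (qops3_pow bM 3))
        (qops3_pow b1 2)) bg)
      (qops3_mul hx (qops3_mul hx bM2 bD) bg) (by omega) (by omega))
      (qops3_mul hx (qops3_mul hx bM2 bg) bD) (by omega) (by omega))
      (qops3_mul hx (qops3_mul hx (qops3_mul hx (bc 18 (by norm_num) (by norm_num)) bJ) bM2) (qops3_inv hx p))
      (by omega) (by omega))
    (qops3_mul hx (qops3_mul hx (qops3_mul hx (bc 2 (by norm_num) (by norm_num)) (qops3_nat hn'))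
      (qops3_add hx (4 * r + 2 - E) (qops3_mul hx bM bg) (qops3_pow bM1 2) (by omega) (by omega))) bN)
    (by omega) (by omega)) (by omega)

end Pool.Agent.Lib.MP_343fe0_pr
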