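import Pool.Agent.Lib.MP_343fe0_pr.QHide
import Pool.Agent.Lib.MP_343fe0_pr.QNorm
import Pool.Agent.Lib.MP_343fe0_pr.Binom

set_option autoImplicit false

/-! From one overlap to the square root law, and the states of the construction. -/

namespace Pool.Agent.Lib.MP_343fe0_pr

open Finset

section gen
variable {A : Type} [NormedRing A] [NormedAlgebra ℝ A] [NormOneClass A]

omit [NormOneClass A] in
lemma qov_binom (m : A) (t : ℕ) :
    ((1 / 2 : ℝ) • (1 + m)) ^ t = ∑ j ∈ range (t + 1), bin (1 / 2) t j • m ^ j := by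
  rw [smul_pow, add_comm 1 m, (Commute.one_right m).add_pow, smul_sum]
  refine sum_congr rfl fun j hj => ?_
  have hj' : j ≤ t := Nat.lt_succ_iff.1 (mem_range.1 hj)
  have e : (1 / 2 : ℝ) ^ t * (t.choose j : ℝ) = bin (1 / 2) t j := by
    rw [bin_nat, show (1 : ℝ) - 1 / 2 = 1 / 2 by norm_num, mul_assoc, ← pow_add, Nat.add_sub_cancel' hj',
      mul_comm]
  rw [one_pow, mul_one, ← e, mul_smul, ← nsmul_eq_mul', Nat.cast_smul_eq_nsmul]

lemma qov_base {m : A} (hm : ‖m‖ ≤ 1) (t : ℕ) :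
    ‖(m - 1) * ((1 / 2 : ℝ) • (1 + m)) ^ t‖ ≤ 3 / √((t : ℝ) + 1) := by
  have e : (m - 1) * ((1 / 2 : ℝ) • (1 + m)) ^ t =
      ∑ j ∈ range (t + 2), (bin (1 / 2) t ((j : ℤ) - 1) - bin (1 / 2) t j) • m ^ j := by
    simp only [sub_smul, sum_sub_distrib]
    rw [qov_binom, sub_mul, one_mul, sum_range_succ' _ (t + 1), sum_range_succ _ (t + 1),
      bin_neg _ _ (show ((0 : ℕ) : ℤ) - 1 < 0 by omega),
      bin_gt _ _ (show (t : ℤ) < ((t + 1 : ℕ) : ℤ) by omega), zero_smul, zero_smul, add_zero, add_zero, mul_sum]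
    congr 1
    refine sum_congr rfl fun j _ => ?_
    rw [mul_smul_comm, ← pow_succ', show ((j + 1 : ℕ) : ℤ) - 1 = j by omega]
  have h := bin_tv (ϱ := 1 / 2) (by norm_num) (by norm_num) t
    ((range (t + 2)).map ⟨fun j : ℕ => (j : ℤ), Nat.cast_injective⟩)
  rw [sum_map] at h
  rw [e]
  refine ((norm_sum_le _ _).trans (sum_le_sum fun j _ => ?_)).trans h
  rw [norm_smul, Real.norm_eq_abs, abs_sub_comm]
  exact mul_le_of_le_one_right (abs_nonneg _) (norm_pow_le_one hm j)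

lemma qov_frac {s c : ℝ} (hs : 1 ≤ s) (hc0 : 0 < c) :
    c * (9 / (s + 1)) + (1 - c) * (9 / s) ≤ 9 / (s + c / 2) := by
  have h0 : 0 < s := by linarith
  have e : c * (9 / (s + 1)) + (1 - c) * (9 / s) = 9 * (s + 1 - c) / (s * (s + 1)) := by
    field_simp
    ring
  rw [e, div_le_div_iff₀ (by positivity) (by positivity)]
  nlinarith [mul_nonneg hc0.le (sub_nonneg.2 hs), sq_nonneg c]

/-- Put `w = (1/2) • (1 + m)` and `F t R = ‖(m - 1) * w ^ t * m ^ R‖`.  `F t 0 ≤ 3 / √(t+1)` by the binomial formula and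
`bin_tv`.  As `m ^ (a+1) = ν * w + (1/2) • r1 + (1/2) • (r0 * m)` and `m ^ (a+1)` commutes with the other factors,
`F t (R + a + 1) ≤ c * F (t+1) R + (1 - c) * F t R`.  By induction on `k` (and convexity of the square)
`F t (k (a+1)) ^ 2 ≤ 9 / (t + 1 + c k / 2)`. -/
theorem ov_of_common {m : A} (hm : ‖m‖ ≤ 1) (a : ℕ) (c : ℝ) (hc0 : 0 < c) (hc1 : c ≤ 1) (ν r0 r1 : A)
    (h0 : m ^ a = ν + r0) (h1 : m ^ (a + 1) = ν + r1) (hν : ‖ν‖ ≤ c) (hr0 : ‖r0‖ ≤ 1 - c)
    (hr1 : ‖r1‖ ≤ 1 - c) : Ov m (18 * (a + 1) / c) := by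
  set w : A := (1 / 2 : ℝ) • (1 + m) with hw
  have cw : Commute m w := ((Commute.one_right m).add_right (Commute.refl m)).smul_right _
  have c1 : Commute m (m - 1) := (Commute.refl m).sub_right (Commute.one_right m)
  have dec : m ^ (a + 1) = ν * w + (1 / 2 : ℝ) • r1 + (1 / 2 : ℝ) • (r0 * m) := by
    have e : m ^ (a + 1) = (1 / 2 : ℝ) • (m ^ (a + 1) + m ^ a * m) := by
      rw [← pow_succ, ← two_smul ℝ, smul_smul]
      norm_num
    rw [e, h0, h1, hw, mul_smul_comm, mul_add, mul_one, add_mul]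
    module
  have step : ∀ t R : ℕ, ‖(m - 1) * w ^ t * m ^ (R + (a + 1))‖ ≤
      c * ‖(m - 1) * w ^ (t + 1) * m ^ R‖ + (1 - c) * ‖(m - 1) * w ^ t * m ^ R‖ := by
    intro t R
    have cG : Commute m ((m - 1) * w ^ t * m ^ R) :=
      (c1.mul_right (cw.pow_right t)).mul_right ((Commute.refl m).pow_right R)
    have e1 : (m - 1) * w ^ t * m ^ (R + (a + 1)) = m ^ (a + 1) * ((m - 1) * w ^ t * m ^ R) := by
      rw [pow_add, ← mul_assoc, (cG.pow_left (a + 1)).eq]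
    have e2 : w * ((m - 1) * w ^ t * m ^ R) = (m - 1) * w ^ (t + 1) * m ^ R := by
      rw [← mul_assoc, ← mul_assoc, (cw.symm.sub_right (Commute.one_right w)).eq, pow_succ', mul_assoc _ w]
    rw [e1, dec, add_mul, add_mul, mul_assoc ν, e2, smul_mul_assoc, smul_mul_assoc]
    generalize (m - 1) * w ^ (t + 1) * m ^ R = G1
    generalize (m - 1) * w ^ t * m ^ R = G0
    have n1 : ‖ν * G1‖ ≤ c * ‖G1‖ := (norm_mul_le _ _).trans (mul_le_mul_of_nonneg_right hν (norm_nonneg _))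
    have n2 : ‖r1 * G0‖ ≤ (1 - c) * ‖G0‖ :=
      (norm_mul_le _ _).trans (mul_le_mul_of_nonneg_right hr1 (norm_nonneg _))
    have n3 : ‖r0 * m * G0‖ ≤ (1 - c) * ‖G0‖ :=
      (norm_mul_le _ _).trans (mul_le_mul_of_nonneg_right ((norm_mul_le _ _).trans
        ((mul_le_of_le_one_right (norm_nonneg _) hm).trans hr0)) (norm_nonneg _))
    have n4 := norm_add₃_le (a := ν * G1) (b := (1 / 2 : ℝ) • (r1 * G0)) (c := (1 / 2 : ℝ) • (r0 * m * G0))
    rw [norm_smul, norm_smul, Real.norm_of_nonneg (by norm_num : (0 : ℝ) ≤ 1 / 2)] at n4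
    linarith
  have main : ∀ k t : ℕ, ‖(m - 1) * w ^ t * m ^ (k * (a + 1))‖ ^ 2 ≤ 9 / ((t : ℝ) + 1 + c * k / 2) := by
    intro k
    induction k with
    | zero =>
      intro t
      have h2 := pow_le_pow_left₀ (norm_nonneg _) (qov_base hm t) 2
      rw [div_pow, Real.sq_sqrt (by positivity), ← hw, show (3 : ℝ) ^ 2 = 9 by norm_num] at h2
      simpa using h2
    | succ k ih =>
      intro t
      have h2 := pow_le_pow_left₀ (norm_nonneg _) (step t (k * (a + 1))) 2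
      have h3 := ih t
      have h4 := ih (t + 1)
      have h5 := qov_frac (s := (t : ℝ) + 1 + c * k / 2)
        (by have : 0 ≤ (t : ℝ) + c * k / 2 := by positivity
            linarith) hc0
      rw [Nat.succ_mul]
      generalize ‖(m - 1) * w ^ (t + 1) * m ^ (k * (a + 1))‖ = x at h2 h4
      generalize ‖(m - 1) * w ^ t * m ^ (k * (a + 1))‖ = y at h2 h3
      have h6 : (c * x + (1 - c) * y) ^ 2 ≤ c * x ^ 2 + (1 - c) * y ^ 2 := by
        nlinarith [mul_nonneg (mul_nonneg hc0.le (sub_nonneg.2 hc1)) (sq_nonneg (x - y))]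
      have e1 : ((t + 1 : ℕ) : ℝ) + 1 + c * k / 2 = (t : ℝ) + 1 + c * k / 2 + 1 := by
        push_cast
        ring
      have e2 : (t : ℝ) + 1 + c * ((k + 1 : ℕ) : ℝ) / 2 = (t : ℝ) + 1 + c * k / 2 + c / 2 := by
        push_cast
        ring
      rw [e1] at h4
      rw [e2]
      have h7 := mul_le_mul_of_nonneg_left h4 hc0.le
      have h8 := mul_le_mul_of_nonneg_left h3 (sub_nonneg.2 hc1)
      linarith
  intro n
  obtain ⟨k, r, hr, rfl⟩ : ∃ k r, r ≤ a ∧ n = k * (a + 1) + r :=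
    ⟨n / (a + 1), n % (a + 1), Nat.lt_succ_iff.1 (Nat.mod_lt _ (Nat.succ_pos a)),
      (Nat.div_add_mod' n (a + 1)).symm⟩
  have h2 : ‖(m - 1) * m ^ (k * (a + 1) + r)‖ ≤ ‖(m - 1) * m ^ (k * (a + 1))‖ := by
    rw [pow_add, ← mul_assoc]
    exact (norm_mul_le _ _).trans (mul_le_of_le_one_right (norm_nonneg _) (norm_pow_le_one hm r))
  have h3 := main k 0
  rw [pow_zero, mul_one, Nat.cast_zero, zero_add] at h3
  have h4 := (pow_le_pow_left₀ (norm_nonneg _) h2 2).trans h3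
  have h5 : ((k * (a + 1) + r : ℕ) : ℝ) + 1 ≤ ((k : ℝ) + 1) * (a + 1) := by
    have : (r : ℝ) ≤ a := by exact_mod_cast hr
    push_cast
    linarith
  refine (mul_le_mul h4 h5 (by positivity) (by positivity)).trans ?_
  rw [div_mul_eq_mul_div, div_le_div_iff₀ (by positivity) hc0]
  have h6 : (0 : ℝ) ≤ (a : ℝ) + 1 := by positivity
  nlinarith [mul_nonneg h6 (sub_nonneg.2 hc1)]

lemma norm_pow_sub_one_mul {m : A} (hm : ‖m‖ ≤ 1) (M n : ℕ) :
    ‖(m ^ M - 1) * m ^ n‖ ≤ M * ‖(m - 1) * m ^ n‖ := by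
  induction M with
  | zero => simp
  | succ M ih =>
    have e : (m ^ (M + 1) - 1) * m ^ n = m ^ M * ((m - 1) * m ^ n) + (m ^ M - 1) * m ^ n := by
      rw [pow_succ]
      noncomm_ring
    have h : ‖m ^ M * ((m - 1) * m ^ n)‖ ≤ ‖(m - 1) * m ^ n‖ :=
      (norm_mul_le _ _).trans (mul_le_of_le_one_left (norm_nonneg _) (norm_pow_le_one hm M))
    rw [e]
    refine (norm_add_le _ _).trans ?_
    push_cast
    linarith

lemma Ov.mono {m : A} {a a' : ℝ} (h : Ov m a) (ha : a ≤ a') : Ov m a' := fun n => (h n).trans ha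

end gen

/-- With `a' = 4 M a`: `‖(m' - 1) m' ^ a'‖ ≤ M ‖(m - 1) m ^ (M a')‖ + (2 a' + 1) η ≤ 1`; then `common_of_tv` for
the words `π' ^ a'`, `π' ^ (a' + 1)` and `ov_of_common`. -/
theorem ov_step (π π' : Wd) (M a : ℕ) (hM : 1 ≤ M) (h : Ov (muL π) a) (η : ℝ)
    (hη : ‖muL π' - muL π ^ M‖ ≤ η) (hs : (8 * M * a + 1) * η ≤ 1 / 2) :
    Ov (muL π') ((36 * (4 * M * a + 1) : ℕ) : ℝ) := by
  have hm : ‖muL π‖ ≤ 1 := (norm_muL π).le
  have hm' : ‖muL π'‖ ≤ 1 := (norm_muL π').le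
  have hz := norm_pow_le_one hm M
  have h1 := (norm_pow_sub_pow hm' hz (4 * M * a)).trans
    (mul_le_mul_of_nonneg_left hη (Nat.cast_nonneg _))
  have h2 := (norm_pow_sub_pow hm' hz (4 * M * a + 1)).trans
    (mul_le_mul_of_nonneg_left hη (Nat.cast_nonneg _))
  have h3 := norm_pow_sub_one_mul hm M (M * (4 * M * a))
  have h4 := h (M * (4 * M * a))
  have h5 : (M : ℝ) * ‖(muL π - 1) * muL π ^ (M * (4 * M * a))‖ ≤ 1 / 2 := by
    have t0 := norm_nonneg ((muL π - 1) * muL π ^ (M * (4 * M * a)))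
    generalize ‖(muL π - 1) * muL π ^ (M * (4 * M * a))‖ = τ at h4 t0
    push_cast at h4
    by_contra hc
    have hc' := not_le.1 hc
    have t1 : 1 < 4 * ((M : ℝ) * τ) ^ 2 := by nlinarith
    have t2 : τ ≠ 0 := by
      rintro rfl
      norm_num at t1
    have t3 : 0 < τ ^ 2 := by positivity
    have t4 := mul_le_mul_of_nonneg_right t1.le (Nat.cast_nonneg (α := ℝ) a)
    nlinarith
  have e : muL (π' ^ (4 * M * a)) - muL (π' ^ (4 * M * a + 1)) =
      (muL π' ^ (4 * M * a) - (muL π ^ M) ^ (4 * M * a)) -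
        (muL π' ^ (4 * M * a + 1) - (muL π ^ M) ^ (4 * M * a + 1)) -
        (muL π ^ M - 1) * muL π ^ (M * (4 * M * a)) := by
    rw [map_pow, map_pow, pow_mul (muL π) M, sub_mul, one_mul, ← pow_succ']
    abel
  have h6 : ‖muL (π' ^ (4 * M * a)) - muL (π' ^ (4 * M * a + 1))‖ ≤ 1 := by
    rw [e]
    refine ((norm_sub_le _ _).trans (add_le_add_left (norm_sub_le _ _) _)).trans ?_
    push_cast at h1 h2
    linarith
  obtain ⟨c, ν, r0, r1, c0, c1, e0, e1, n0, n1, n2⟩ := common_of_tv _ _ h6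
  rw [map_pow] at e0 e1
  refine (ov_of_common hm' (4 * M * a) c (by linarith) c1 ν r0 r1 e0 e1 n0 n1 n2).mono ?_
  rw [div_le_iff₀ (by linarith)]
  push_cast
  have h7 : (0 : ℝ) ≤ 4 * M * a + 1 := by positivity
  nlinarith

/-- A filler `π`, an alternative `β`, and the scale `a` at which the filler forgets lengths. -/
structure St where
  π : Wd
  β : Wd
  a : ℕ
  len : β.length = π.length
  ne : π ≠ β
  le : π.length ≤ a
  pos : 1 ≤ a
  ov : Ov (muL π) a

/-- The total variation norm of the change of `π` into `β`, padded by `n` periods on both sides. -/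
noncomputable def St.N (Z : St) (n : ℕ) : ℝ := ‖muL Z.π ^ n * (muL Z.β - muL Z.π) * muL Z.π ^ n‖

/-- Profile in base `b`: paddings of effective length `b ^ R` give the bound `b ^ -w`. -/
def St.PB (Z : St) (b R w : ℕ) : Prop := ∀ n : ℕ, b ^ R ≤ (n + 1) * Z.a → Z.N n ≤ 1 / (b : ℝ) ^ w

lemma St.N_anti (Z : St) {n n' : ℕ} (h : n ≤ n') : Z.N n' ≤ Z.N n :=
  norm_pad_mono (norm_muL _).le _ h h

lemma St.PB.mono {Z : St} {b R w R' w' : ℕ} (h : Z.PB b R w) (hb : 1 ≤ b) (hR : R ≤ R') (hw : w' ≤ w) :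
    Z.PB b R' w' := by
  intro n hn
  refine (h n ((Nat.pow_le_pow_right hb hR).trans hn)).trans ?_
  have hb' : (1 : ℝ) ≤ b := by exact_mod_cast hb
  exact one_div_le_one_div_of_le (by positivity) (pow_le_pow_right₀ hb' hw)

lemma St.PB.pow {Z : St} {b k R w : ℕ} (h : Z.PB b (k * R) (k * w)) : Z.PB (b ^ k) R w := by
  intro n hn
  rw [← pow_mul] at hn
  rw [Nat.cast_pow, ← pow_mul]
  exact h n hn

/-- It is enough to check the least padding. -/
lemma St.pb_intro (Z : St) (b R w : ℕ)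
    (h : ∀ n : ℕ, b ^ R ≤ (n + 1) * Z.a → n ≤ b ^ R → Z.N n ≤ 1 / (b : ℝ) ^ w) : Z.PB b R w := by
  intro n hn
  rcases le_total n (b ^ R) with h1 | h1
  · exact h n hn h1
  · exact (Z.N_anti h1).trans
      (h _ ((Nat.le_succ _).trans (Nat.le_mul_of_pos_right _ Z.pos)) le_rfl)

end Pool.Agent.Lib.MP_343fe0_pr
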