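import Pool.Agent.Lib.MP_343fe0_pr.Core

set_option autoImplicit false

/-! Ordered products and their expansions in a normed algebra. -/

namespace Pool.Agent.Lib.MP_343fe0_pr

open Finset

/-- The ordered product `f 0 * f 1 * ... * f (k - 1)`. -/
def opr {M : Type} [Monoid M] (f : ℕ → M) : ℕ → M
  | 0 => 1
  | k + 1 => opr f k * f k

section mon
variable {M : Type} [Monoid M]

lemma opr_zero (f : ℕ → M) : opr f 0 = 1 := rfl
lemma opr_succ (f : ℕ → M) (k : ℕ) : opr f (k + 1) = opr f k * f k := rfl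

lemma opr_add (f : ℕ → M) (k l : ℕ) : opr f (k + l) = opr f k * opr (fun j => f (k + j)) l := by
  induction l with
  | zero => simp [opr_zero]
  | succ l ih => rw [← add_assoc, opr_succ, opr_succ, ih, mul_assoc]

lemma opr_congr {f g : ℕ → M} {k : ℕ} (h : ∀ j < k, f j = g j) : opr f k = opr g k := by
  induction k with
  | zero => rfl
  | succ k ih =>
    rw [opr_succ, opr_succ, ih fun j hj => h j (by omega), h k (by omega)]

lemma opr_const {f : ℕ → M} {k : ℕ} (m : M) (h : ∀ j < k, f j = m) : opr f k = m ^ k := by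
  induction k with
  | zero => simp [opr_zero]
  | succ k ih => rw [opr_succ, ih fun j hj => h j (by omega), h k (by omega), pow_succ]

lemma map_opr {M' : Type} [Monoid M'] (φ : M →* M') (f : ℕ → M) (k : ℕ) :
    φ (opr f k) = opr (fun j => φ (f j)) k := by
  induction k with
  | zero => simp [opr_zero]
  | succ k ih => rw [opr_succ, opr_succ, map_mul, ih]

end mon

lemma opr_length (f : ℕ → Wd) (k q : ℕ) (h : ∀ j < k, (f j).length = q) : (opr f k).length = k * q := by
  induction k with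
  | zero => simp [opr_zero]
  | succ k ih =>
    rw [opr_succ, FreeMonoid.length_mul, ih fun j hj => h j (by omega), h k (by omega)]
    ring

/-- Concatenations of blocks of equal length agree only if the blocks agree. -/
lemma opr_inj (f g : ℕ → Wd) (k q : ℕ) (hf : ∀ j < k, (f j).length = q) (hg : ∀ j < k, (g j).length = q)
    (h : opr f k = opr g k) : ∀ j < k, f j = g j := by
  induction k with
  | zero => intro j hj; omega
  | succ k ih =>
    rw [opr_succ, opr_succ] at h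
    have h1 := congrArg FreeMonoid.toList h
    rw [FreeMonoid.toList_mul, FreeMonoid.toList_mul] at h1
    have h2 := List.append_inj' h1 ((hf k (by omega)).trans (hg k (by omega)).symm)
    intro j hj
    rcases Nat.lt_succ_iff_lt_or_eq.1 hj with hj | rfl
    · exact ih (fun j hj => hf j (by omega)) (fun j hj => hg j (by omega))
        (FreeMonoid.toList.injective h2.1) j hj
    · exact FreeMonoid.toList.injective h2.2

variable {A : Type} [NormedRing A] [NormOneClass A]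

/-- One object `y` at site `i` of a block of `k` sites filled with `m`. -/
def br1 (m : A) (k i : ℕ) (y : A) : A := m ^ i * y * m ^ (k - 1 - i)

/-- Two objects, `y` at site `i` and `z` at site `j ≠ i`, in a block of `k` sites filled with `m`. -/
def br2 (m : A) (k i : ℕ) (y : A) (j : ℕ) (z : A) : A :=
  if i < j then m ^ i * y * m ^ (j - i - 1) * z * m ^ (k - 1 - j)
  else m ^ j * z * m ^ (i - j - 1) * y * m ^ (k - 1 - i)

omit [NormOneClass A] in
lemma qprod_left {a : A} (ha : ‖a‖ ≤ 1) (y : A) : ‖a * y‖ ≤ ‖y‖ :=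
  (norm_mul_le _ _).trans (mul_le_of_le_one_left (norm_nonneg _) ha)

omit [NormOneClass A] in
lemma qprod_right {a : A} (ha : ‖a‖ ≤ 1) (y : A) : ‖y * a‖ ≤ ‖y‖ :=
  (norm_mul_le _ _).trans (mul_le_of_le_one_right (norm_nonneg _) ha)

omit [NormOneClass A] in
lemma qprod_sandwich {a b : A} (ha : ‖a‖ ≤ 1) (hb : ‖b‖ ≤ 1) (y : A) : ‖a * y * b‖ ≤ ‖y‖ :=
  (qprod_right hb _).trans (qprod_left ha y)

lemma norm_pow_le_one {m : A} (hm : ‖m‖ ≤ 1) (n : ℕ) : ‖m ^ n‖ ≤ 1 := by
  induction n with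
  | zero => simp
  | succ n ih =>
    rw [pow_succ]
    exact (norm_mul_le _ _).trans (mul_le_one₀ ih (norm_nonneg _) hm)

lemma norm_opr_le {f : ℕ → A} {k : ℕ} (h : ∀ j < k, ‖f j‖ ≤ 1) : ‖opr f k‖ ≤ 1 := by
  induction k with
  | zero => simp [opr_zero]
  | succ k ih =>
    rw [opr_succ]
    exact (norm_mul_le _ _).trans
      (mul_le_one₀ (ih fun j hj => h j (by omega)) (norm_nonneg _) (h k (by omega)))

lemma norm_pad_mono {m : A} (hm : ‖m‖ ≤ 1) (y : A) {n n' l r : ℕ} (hl : n ≤ l) (hr : n' ≤ r) :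
    ‖m ^ l * y * m ^ r‖ ≤ ‖m ^ n * y * m ^ n'‖ := by
  obtain ⟨a, rfl⟩ := Nat.exists_eq_add_of_le' hl
  obtain ⟨b, rfl⟩ := Nat.exists_eq_add_of_le hr
  have e : m ^ (a + n) * y * m ^ (n' + b) = m ^ a * (m ^ n * y * m ^ n') * m ^ b := by
    simp only [pow_add, mul_assoc]
  rw [e]
  exact qprod_sandwich (norm_pow_le_one hm a) (norm_pow_le_one hm b) _

lemma norm_pad_le {m : A} (hm : ‖m‖ ≤ 1) (y : A) (l r : ℕ) : ‖m ^ l * y * m ^ r‖ ≤ ‖y‖ := by
  exact qprod_sandwich (norm_pow_le_one hm l) (norm_pow_le_one hm r) y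

lemma norm_br1_le {m : A} (hm : ‖m‖ ≤ 1) (y : A) {k i n : ℕ} (h1 : n ≤ i) (h2 : i + n < k) :
    ‖br1 m k i y‖ ≤ ‖m ^ n * y * m ^ n‖ := by
  exact norm_pad_mono hm y h1 (by omega)

/-- Split the gap between the two objects. -/
lemma norm_br2_le {m : A} (hm : ‖m‖ ≤ 1) (y z : A) {k i j n n' : ℕ} (h1 : n ≤ i) (h2 : i + n < k)
    (h3 : n' ≤ j) (h4 : j + n' < k) (h5 : i + n + n' < j ∨ j + n + n' < i) :
    ‖br2 m k i y j z‖ ≤ ‖m ^ n * y * m ^ n‖ * ‖m ^ n' * z * m ^ n'‖ := by
  have key : ∀ (y z : A) (a b c n n' : ℕ), n ≤ a → n + n' ≤ b → n' ≤ c →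
      ‖m ^ a * y * m ^ b * z * m ^ c‖ ≤ ‖m ^ n * y * m ^ n‖ * ‖m ^ n' * z * m ^ n'‖ := by
    intro y z a b c n n' ha hb hc
    obtain ⟨d, rfl⟩ := Nat.exists_eq_add_of_le (le_trans (Nat.le_add_right n n') hb)
    have e : m ^ a * y * m ^ (n + d) * z * m ^ c = (m ^ a * y * m ^ n) * (m ^ d * z * m ^ c) := by
      simp only [pow_add, mul_assoc]
    rw [e]
    exact (norm_mul_le _ _).trans (mul_le_mul (norm_pad_mono hm y ha le_rfl)
      (norm_pad_mono hm z (by omega) hc) (norm_nonneg _) (norm_nonneg _))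
  unfold br2
  split_ifs with hij
  · exact key y z _ _ _ n n' h1 (by omega) (by omega)
  · rw [mul_comm ‖m ^ n * y * m ^ n‖]
    exact key z y _ _ _ n' n h3 (by omega) (by omega)

lemma opr_tele (x y : ℕ → A) (k : ℕ) : opr x k - opr y k =
    ∑ i ∈ range k, opr y i * (x i - y i) * opr (fun j => x (i + 1 + j)) (k - 1 - i) := by
  induction k with
  | zero => simp [opr_zero]
  | succ k ih =>
    have e : ∀ i ∈ range k, opr y i * (x i - y i) * opr (fun j => x (i + 1 + j)) (k + 1 - 1 - i) =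
        opr y i * (x i - y i) * opr (fun j => x (i + 1 + j)) (k - 1 - i) * x k := by
      intro i hi
      have hi' := mem_range.1 hi
      rw [show k + 1 - 1 - i = k - 1 - i + 1 by omega, opr_succ,
        show i + 1 + (k - 1 - i) = k by omega, ← mul_assoc]
    rw [sum_range_succ, sum_congr rfl e, ← sum_mul, ← ih, show k + 1 - 1 - k = 0 by omega,
      opr_zero, opr_succ, opr_succ]
    noncomm_ring

lemma opr_p1 {m : A} (hm : ‖m‖ ≤ 1) (y : ℕ → A) (k : ℕ) (ε : ℝ) (h1 : ∀ j < k, ‖m + y j‖ ≤ 1)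
    (h2 : ∀ j < k, ‖y j‖ ≤ ε) : ‖opr (fun j => m + y j) k - m ^ k‖ ≤ k * ε := by
  induction k with
  | zero => simp [opr_zero]
  | succ k ih =>
    have a1 := ih (fun j hj => h1 j (by omega)) (fun j hj => h2 j (by omega))
    have e : opr (fun j => m + y j) (k + 1) - m ^ (k + 1) =
        (opr (fun j => m + y j) k - m ^ k) * (m + y k) + m ^ k * y k := by
      rw [opr_succ, pow_succ]
      noncomm_ring
    have a2 := qprod_right (h1 k (by omega)) (opr (fun j => m + y j) k - m ^ k)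
    have a3 := qprod_left (norm_pow_le_one hm k) (y k)
    have a4 := h2 k (by omega)
    rw [e]
    refine (norm_add_le _ _).trans ?_
    push_cast
    linarith

lemma opr_p2 {m : A} (hm : ‖m‖ ≤ 1) (y : ℕ → A) (k : ℕ) (ε : ℝ) (h1 : ∀ j < k, ‖m + y j‖ ≤ 1)
    (h2 : ∀ j < k, ‖y j‖ ≤ ε) :
    ‖opr (fun j => m + y j) k - m ^ k - ∑ i ∈ range k, br1 m k i (y i)‖ ≤ (k * ε) ^ 2 := by
  induction k with
  | zero => simp [opr_zero]
  | succ k ih =>
    have a1 := ih (fun j hj => h1 j (by omega)) (fun j hj => h2 j (by omega))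
    have a0 := opr_p1 hm y k ε (fun j hj => h1 j (by omega)) (fun j hj => h2 j (by omega))
    have e0 : ∀ i ∈ range k, br1 m (k + 1) i (y i) = br1 m k i (y i) * m := by
      intro i hi
      have hi' := mem_range.1 hi
      rw [br1, br1, show k + 1 - 1 - i = k - 1 - i + 1 by omega, pow_succ, ← mul_assoc]
    have e1 : br1 m (k + 1) k (y k) = m ^ k * y k := by
      rw [br1, show k + 1 - 1 - k = 0 by omega, pow_zero, mul_one]
    have e : opr (fun j => m + y j) (k + 1) - m ^ (k + 1) -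
        ∑ i ∈ range (k + 1), br1 m (k + 1) i (y i) =
        (opr (fun j => m + y j) k - m ^ k - ∑ i ∈ range k, br1 m k i (y i)) * m +
          (opr (fun j => m + y j) k - m ^ k) * y k := by
      rw [sum_range_succ, sum_congr rfl e0, ← sum_mul, e1, opr_succ, pow_succ]
      noncomm_ring
    have a4 := h2 k (by omega)
    have hε : 0 ≤ ε := (norm_nonneg _).trans a4
    have a2 := qprod_right hm (opr (fun j => m + y j) k - m ^ k - ∑ i ∈ range k, br1 m k i (y i))
    have a3 : ‖(opr (fun j => m + y j) k - m ^ k) * y k‖ ≤ k * ε * ε :=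
      (norm_mul_le _ _).trans (mul_le_mul a0 a4 (norm_nonneg _) (by positivity))
    have a5 : 0 ≤ (k : ℝ) * ε * ε := by positivity
    have a6 : 0 ≤ ε * ε := by positivity
    rw [e]
    refine (norm_add_le _ _).trans ?_
    push_cast
    nlinarith

lemma norm_pow_sub_pow {x z : A} (hx : ‖x‖ ≤ 1) (hz : ‖z‖ ≤ 1) (n : ℕ) : ‖x ^ n - z ^ n‖ ≤ n * ‖x - z‖ := by
  have h := opr_p1 hz (fun _ => x - z) n ‖x - z‖ (fun _ _ => by rwa [add_sub_cancel])
    fun _ _ => le_rfl
  rwa [opr_const x fun _ _ => add_sub_cancel z x] at h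

/-- Changing the filler of the padding. -/
lemma norm_pad_change {x z : A} (hx : ‖x‖ ≤ 1) (hz : ‖z‖ ≤ 1) (d : A) (n : ℕ) :
    ‖x ^ n * d * x ^ n‖ ≤ ‖z ^ n * d * z ^ n‖ + 2 * n * ‖x - z‖ * ‖d‖ := by
  have e : x ^ n * d * x ^ n =
      z ^ n * d * z ^ n + ((x ^ n - z ^ n) * d * x ^ n + z ^ n * (d * (x ^ n - z ^ n))) := by
    noncomm_ring
  have a0 := norm_pow_sub_pow hx hz n
  have a1 : ‖(x ^ n - z ^ n) * d * x ^ n‖ ≤ n * ‖x - z‖ * ‖d‖ :=
    (qprod_right (norm_pow_le_one hx n) _).trans ((norm_mul_le _ _).trans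
      (mul_le_mul_of_nonneg_right a0 (norm_nonneg _)))
  have a2 : ‖z ^ n * (d * (x ^ n - z ^ n))‖ ≤ ‖d‖ * (n * ‖x - z‖) :=
    (qprod_left (norm_pow_le_one hz n) _).trans ((norm_mul_le _ _).trans
      (mul_le_mul_of_nonneg_left a0 (norm_nonneg _)))
  have a3 := norm_add_le ((x ^ n - z ^ n) * d * x ^ n) (z ^ n * (d * (x ^ n - z ^ n)))
  rw [e]
  refine (norm_add_le _ _).trans ?_
  linarith

end Pool.Agent.Lib.MP_343fe0_pr
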