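import Pool.Agent.Lib.MP_343fe0_pr.QProd

set_option autoImplicit false

/-! Expansion of the difference of two products that differ on an isolated signed pattern. -/

namespace Pool.Agent.Lib.MP_343fe0_pr

open Finset

variable {A : Type} [NormedRing A] [NormedAlgebra ℝ A] [NormOneClass A]

/-- Two configurations `X`, `Y` of perturbations of the filler `m` on `M` sites, with `X j - Y j = η j • D`, the sites
with `η i ≠ 0` being isolated at distance `g`. -/
structure PairHyp (m D : A) (X Y : ℕ → A) (η : ℕ → ℝ) (M g : ℕ) (ε1 εg : ℝ) : Prop where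
  hm : ‖m‖ ≤ 1
  hX : ∀ j < M, ‖m + X j‖ ≤ 1
  hY : ∀ j < M, ‖m + Y j‖ ≤ 1
  hX1 : ∀ j < M, ‖X j‖ ≤ ε1
  hY1 : ∀ j < M, ‖Y j‖ ≤ ε1
  hη : ∀ j < M, |η j| ≤ 1
  hd : ∀ j < M, X j - Y j = η j • D
  hin : ∀ i < M, η i ≠ 0 → g ≤ i ∧ i + g < M
  hiso : ∀ i < M, η i ≠ 0 → ∀ j < M, j ≠ i → j ≤ i + g → i ≤ j + g → X j = 0 ∧ Y j = 0
  hg : ‖m ^ g * D * m ^ g‖ ≤ εg

lemma qsiga_br2_zero (m D : A) (M i j : ℕ) : br2 m M i D j 0 = 0 := by
  unfold br2; split_ifs <;> simp

/-- The shape of one term of the telescoping sum. -/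
lemma qsiga_term {m D : A} {X Y : ℕ → A} {η : ℕ → ℝ} {g a c : ℕ} {ε1 εg : ℝ}
    (h : PairHyp m D X Y η (a + g + 1 + g + c) g ε1 εg) (hη : η (a + g) ≠ 0) :
    opr (fun j => m + Y j) (a + g) * (m + X (a + g) - (m + Y (a + g))) *
        opr (fun j => m + X (a + g + 1 + j)) (a + g + 1 + g + c - 1 - (a + g)) =
      η (a + g) • (opr (fun j => m + Y j) a * (m ^ g * D * m ^ g) * opr (fun j => m + X (a + g + 1 + (g + j))) c) := by
  have hi : a + g < a + g + 1 + g + c := by omega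
  have h1 : opr (fun j => m + Y (a + j)) g = m ^ g := opr_const m fun j hj => by
    rw [(h.hiso _ hi hη (a + j) (by omega) (by omega) (by omega) (by omega)).2, add_zero]
  have h2 : opr (fun j => m + X (a + g + 1 + j)) g = m ^ g := opr_const m fun j hj => by
    rw [(h.hiso _ hi hη (a + g + 1 + j) (by omega) (by omega) (by omega) (by omega)).1, add_zero]
  rw [show a + g + 1 + g + c - 1 - (a + g) = g + c by omega, opr_add, opr_add, h1, h2, add_sub_add_left_eq_sub,
    h.hd _ hi]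
  simp only [mul_smul_comm, smul_mul_assoc, mul_assoc]

lemma qsiga_br1 (m D : A) (g a c : ℕ) :
    br1 m (a + g + 1 + g + c) (a + g) D = m ^ a * (m ^ g * D * m ^ g) * m ^ c := by
  rw [br1, show a + g + 1 + g + c - 1 - (a + g) = g + c by omega, pow_add, pow_add]
  simp only [mul_assoc]

lemma qsiga_br2 {m D : A} {X Y : ℕ → A} {η : ℕ → ℝ} {g a c : ℕ} {ε1 εg : ℝ}
    (h : PairHyp m D X Y η (a + g + 1 + g + c) g ε1 εg) (hη : η (a + g) ≠ 0) :
    ∑ j ∈ (range (a + g + 1 + g + c)).erase (a + g),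
        br2 m (a + g + 1 + g + c) (a + g) D j (if j < a + g then Y j else X j) =
      (∑ j ∈ range a, br1 m a j (Y j)) * (m ^ g * D * m ^ g) * m ^ c +
        m ^ a * (m ^ g * D * m ^ g) * ∑ j ∈ range c, br1 m c j (X (a + g + 1 + (g + j))) := by
  have hi : a + g < a + g + 1 + g + c := by omega
  set F : ℕ → A := fun j => if j = a + g then 0 else
    br2 m (a + g + 1 + g + c) (a + g) D j (if j < a + g then Y j else X j) with hF
  have e1 : ∑ j ∈ (range (a + g + 1 + g + c)).erase (a + g),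
      br2 m (a + g + 1 + g + c) (a + g) D j (if j < a + g then Y j else X j) =
      ∑ j ∈ range (a + g + 1 + g + c), F j := by
    rw [← sum_erase (range (a + g + 1 + g + c)) (show F (a + g) = 0 by simp [hF])]
    exact sum_congr rfl fun j hj => by rw [hF]; simp only [if_neg (ne_of_mem_erase hj)]
  have e2 : ∑ j ∈ range g, F (a + j) = 0 := sum_eq_zero fun j hj => by
    have hj' := mem_range.1 hj
    rw [hF]
    simp only [if_neg (show a + j ≠ a + g by omega), if_pos (show a + j < a + g by omega),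
      (h.hiso _ hi hη (a + j) (by omega) (by omega) (by omega) (by omega)).2, qsiga_br2_zero]
  have e3 : ∑ j ∈ range g, F (a + g + 1 + j) = 0 := sum_eq_zero fun j hj => by
    have hj' := mem_range.1 hj
    rw [hF]
    simp only [if_neg (show a + g + 1 + j ≠ a + g by omega), if_neg (show ¬ a + g + 1 + j < a + g by omega),
      (h.hiso _ hi hη (a + g + 1 + j) (by omega) (by omega) (by omega) (by omega)).1, qsiga_br2_zero]
  rw [e1, sum_range_add, sum_range_add, sum_range_succ, sum_range_add, e2, e3, show F (a + g) = 0 by simp [hF],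
    add_zero, add_zero, add_zero, sum_mul, sum_mul, mul_sum]
  congr 1
  · refine sum_congr rfl fun j hj => ?_
    have hj' := mem_range.1 hj
    rw [hF]
    simp only [if_neg (show j ≠ a + g by omega), if_pos (show j < a + g by omega), br2, br1,
      if_neg (show ¬ a + g < j by omega)]
    rw [show a + g - j - 1 = a - 1 - j + g by omega, show a + g + 1 + g + c - 1 - (a + g) = g + c by omega,
      pow_add, pow_add]
    simp only [mul_assoc]
  · refine sum_congr rfl fun j hj => ?_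
    have hj' := mem_range.1 hj
    rw [hF]
    simp only [if_neg (show a + g + 1 + g + j ≠ a + g by omega), if_neg (show ¬ a + g + 1 + g + j < a + g by omega),
      br2, br1, if_pos (show a + g < a + g + 1 + g + j by omega)]
    rw [show a + g + 1 + g + j - (a + g) - 1 = g + j by omega,
      show a + g + 1 + g + c - 1 - (a + g + 1 + g + j) = c - 1 - j by omega, add_assoc (a + g + 1) g j,
      pow_add, pow_add]
    simp only [mul_assoc]

lemma qsiga_three (x y z : A) : ‖x * y * z‖ ≤ ‖x‖ * ‖y‖ * ‖z‖ :=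
  (norm_mul_le _ _).trans (mul_le_mul_of_nonneg_right (norm_mul_le _ _) (norm_nonneg _))

lemma qsiga_split {M i g : ℕ} (h : g ≤ i ∧ i + g < M) : ∃ a c, i = a + g ∧ M = a + g + 1 + g + c :=
  ⟨i - g, M - 1 - i - g, by omega, by omega⟩

/-- `opr_tele`; for `η i ≠ 0` the term is `η i • (P * (m ^ g * D * m ^ g) * Q)` with `P = opr (m + Y) (i - g)` and `Q` the
product over the sites after `i + g` (`opr_add`, `opr_const`); `opr_p1` for `P` and `Q`. -/
theorem sig_first {m D : A} {X Y : ℕ → A} {η : ℕ → ℝ} {M g : ℕ} {ε1 εg : ℝ} (h : PairHyp m D X Y η M g ε1 εg) :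
    ‖opr (fun j => m + X j) M - opr (fun j => m + Y j) M - ∑ i ∈ range M, η i • br1 m M i D‖ ≤
      2 * (M : ℝ) ^ 2 * ε1 * εg := by
  rw [opr_tele, ← sum_sub_distrib]
  refine (norm_sum_le _ _).trans ((sum_le_card_nsmul _ _ (2 * M * ε1 * εg) fun i hi => ?_).trans_eq ?_)
  swap
  · rw [card_range, nsmul_eq_mul]; ring
  have hi' := mem_range.1 hi
  have hε : 0 ≤ ε1 := (norm_nonneg _).trans (h.hX1 i hi')
  have hεg : 0 ≤ εg := (norm_nonneg _).trans h.hg
  by_cases hη : η i = 0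
  · rw [add_sub_add_left_eq_sub, h.hd i hi', hη]
    simp only [zero_smul, mul_zero, zero_mul, sub_zero, norm_zero]
    positivity
  obtain ⟨a, c, rfl, rfl⟩ := qsiga_split (h.hin i hi' hη)
  rw [qsiga_term h hη, qsiga_br1, ← smul_sub, norm_smul]
  set P := opr (fun j => m + Y j) a
  set Q := opr (fun j => m + X (a + g + 1 + (g + j))) c
  set y := m ^ g * D * m ^ g
  have hP : ‖P - m ^ a‖ ≤ a * ε1 := opr_p1 h.hm Y a ε1 (fun j hj => h.hY j (by omega)) fun j hj => h.hY1 j (by omega)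
  have hQ : ‖Q - m ^ c‖ ≤ c * ε1 := opr_p1 h.hm (fun j => X (a + g + 1 + (g + j))) c ε1
    (fun j hj => h.hX _ (by omega)) fun j hj => h.hX1 _ (by omega)
  have hQ1 : ‖Q‖ ≤ 1 := norm_opr_le fun j hj => h.hX _ (by omega)
  have ha : (a : ℝ) ≤ ((a + g + 1 + g + c : ℕ) : ℝ) := Nat.cast_le.2 (by omega)
  have hc : (c : ℝ) ≤ ((a + g + 1 + g + c : ℕ) : ℝ) := Nat.cast_le.2 (by omega)
  generalize ((a + g + 1 + g + c : ℕ) : ℝ) = T at ha hc
  have hT : 0 ≤ T := (Nat.cast_nonneg a).trans ha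
  have e : P * y * Q - m ^ a * y * m ^ c = (P - m ^ a) * y * Q + m ^ a * y * (Q - m ^ c) := by noncomm_ring
  have b1 : ‖(P - m ^ a) * y * Q‖ ≤ T * ε1 * εg * 1 := (qsiga_three _ _ _).trans (by
    gcongr
    · exact hP.trans (by gcongr)
    · exact h.hg)
  have b2 : ‖m ^ a * y * (Q - m ^ c)‖ ≤ 1 * εg * (T * ε1) := (qsiga_three _ _ _).trans (by
    gcongr
    · exact norm_pow_le_one h.hm a
    · exact h.hg
    · exact hQ.trans (by gcongr))
  rw [e]
  calc _ ≤ 1 * (T * ε1 * εg * 1 + 1 * εg * (T * ε1)) :=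
        mul_le_mul (h.hη _ hi') ((norm_add_le _ _).trans (add_le_add b1 b2)) (norm_nonneg _) zero_le_one
    _ = _ := by ring

/-- As `sig_first`, with `opr_p2`: `P y Q - (p0 y q0 + p1 y q0 + p0 y q1) = p2 y q0 + p0 y q2 + (P - p0) y (Q - q0)`.  The
second order terms are `br2 m M i D j (Y j)` for `j < i` and `br2 m M i D j (X j)` for `i < j`. -/
theorem sig_second {m D : A} {X Y : ℕ → A} {η : ℕ → ℝ} {M g : ℕ} {ε1 εg : ℝ} (h : PairHyp m D X Y η M g ε1 εg) :
    ‖opr (fun j => m + X j) M - opr (fun j => m + Y j) M - ∑ i ∈ range M, η i • br1 m M i D -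
      ∑ i ∈ range M, ∑ j ∈ (range M).erase i, η i • br2 m M i D j (if j < i then Y j else X j)‖ ≤
      3 * (M : ℝ) ^ 3 * ε1 ^ 2 * εg := by
  rw [opr_tele, ← sum_sub_distrib, ← sum_sub_distrib]
  refine (norm_sum_le _ _).trans ((sum_le_card_nsmul _ _ (3 * M ^ 2 * ε1 ^ 2 * εg) fun i hi => ?_).trans_eq ?_)
  swap
  · rw [card_range, nsmul_eq_mul]; ring
  have hi' := mem_range.1 hi
  have hε : 0 ≤ ε1 := (norm_nonneg _).trans (h.hX1 i hi')
  have hεg : 0 ≤ εg := (norm_nonneg _).trans h.hg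
  by_cases hη : η i = 0
  · rw [add_sub_add_left_eq_sub, h.hd i hi', hη]
    simp only [zero_smul, mul_zero, zero_mul, sub_zero, norm_zero, sum_const_zero]
    positivity
  obtain ⟨a, c, rfl, rfl⟩ := qsiga_split (h.hin i hi' hη)
  rw [qsiga_term h hη, qsiga_br1, ← smul_sum, qsiga_br2 h hη, ← smul_sub, ← smul_sub, norm_smul]
  set P := opr (fun j => m + Y j) a
  set Q := opr (fun j => m + X (a + g + 1 + (g + j))) c
  set y := m ^ g * D * m ^ g
  set P1 := ∑ j ∈ range a, br1 m a j (Y j)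
  set Q1 := ∑ j ∈ range c, br1 m c j (X (a + g + 1 + (g + j)))
  have hP : ‖P - m ^ a‖ ≤ a * ε1 := opr_p1 h.hm Y a ε1 (fun j hj => h.hY j (by omega)) fun j hj => h.hY1 j (by omega)
  have hQ : ‖Q - m ^ c‖ ≤ c * ε1 := opr_p1 h.hm (fun j => X (a + g + 1 + (g + j))) c ε1
    (fun j hj => h.hX _ (by omega)) fun j hj => h.hX1 _ (by omega)
  have hP2 : ‖P - m ^ a - P1‖ ≤ (a * ε1) ^ 2 :=
    opr_p2 h.hm Y a ε1 (fun j hj => h.hY j (by omega)) fun j hj => h.hY1 j (by omega)
  have hQ2 : ‖Q - m ^ c - Q1‖ ≤ (c * ε1) ^ 2 := opr_p2 h.hm (fun j => X (a + g + 1 + (g + j))) c ε1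
    (fun j hj => h.hX _ (by omega)) fun j hj => h.hX1 _ (by omega)
  have ha : (a : ℝ) ≤ ((a + g + 1 + g + c : ℕ) : ℝ) := Nat.cast_le.2 (by omega)
  have hc : (c : ℝ) ≤ ((a + g + 1 + g + c : ℕ) : ℝ) := Nat.cast_le.2 (by omega)
  generalize ((a + g + 1 + g + c : ℕ) : ℝ) = T at ha hc
  have hT : 0 ≤ T := (Nat.cast_nonneg a).trans ha
  have e : P * y * Q - m ^ a * y * m ^ c - (P1 * y * m ^ c + m ^ a * y * Q1) =
      (P - m ^ a - P1) * y * m ^ c + m ^ a * y * (Q - m ^ c - Q1) + (P - m ^ a) * y * (Q - m ^ c) := by noncomm_ring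
  have b1 : ‖(P - m ^ a - P1) * y * m ^ c‖ ≤ (T * ε1) ^ 2 * εg * 1 := (qsiga_three _ _ _).trans (by
    gcongr
    · exact hP2.trans (by gcongr)
    · exact h.hg
    · exact norm_pow_le_one h.hm c)
  have b2 : ‖m ^ a * y * (Q - m ^ c - Q1)‖ ≤ 1 * εg * (T * ε1) ^ 2 := (qsiga_three _ _ _).trans (by
    gcongr
    · exact norm_pow_le_one h.hm a
    · exact h.hg
    · exact hQ2.trans (by gcongr))
  have b3 : ‖(P - m ^ a) * y * (Q - m ^ c)‖ ≤ T * ε1 * εg * (T * ε1) := (qsiga_three _ _ _).trans (by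
    gcongr
    · exact hP.trans (by gcongr)
    · exact h.hg
    · exact hQ.trans (by gcongr))
  rw [e]
  calc _ ≤ 1 * ((T * ε1) ^ 2 * εg * 1 + 1 * εg * (T * ε1) ^ 2 + T * ε1 * εg * (T * ε1)) :=
        mul_le_mul (h.hη _ hi') (norm_add₃_le.trans (add_le_add (add_le_add b1 b2) b3)) (norm_nonneg _) zero_le_one
    _ = _ := by ring

lemma qsiga_br2_lin (m D z w : A) (t : ℝ) (M i j : ℕ) :
    br2 m M i D j (z + t • w) = br2 m M i D j z + t • br2 m M i D j w := by
  unfold br2; split_ifs <;> simp only [mul_add, add_mul, mul_smul_comm, smul_mul_assoc]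

lemma qsiga_br2_swap (m D : A) (M : ℕ) {i j : ℕ} (h : j ≠ i) : br2 m M i D j D = br2 m M j D i D := by
  unfold br2
  rcases lt_or_gt_of_ne h with h1 | h1
  · rw [if_neg (by omega), if_pos h1]
  · rw [if_pos h1, if_neg (by omega)]

/-- `Y j = Z j - (η j / 2) • D`, `X j = Z j + (η j / 2) • D`, and the terms in `D, D` cancel in pairs `(i,j)`, `(j,i)`. -/
theorem sig_symm {m D : A} {X Y : ℕ → A} {η : ℕ → ℝ} {M : ℕ} (hd : ∀ j < M, X j - Y j = η j • D) :
    ∑ i ∈ range M, ∑ j ∈ (range M).erase i, η i • br2 m M i D j (if j < i then Y j else X j) =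
      ∑ i ∈ range M, ∑ j ∈ (range M).erase i, η i • br2 m M i D j ((1 / 2 : ℝ) • (X j + Y j)) := by
  set G : ℕ → ℕ → A := fun i j => (η i * η j * (if j < i then -(1 / 2) else 1 / 2)) • br2 m M i D j D with hG
  have e : ∀ i ∈ range M, ∀ j ∈ (range M).erase i, η i • br2 m M i D j (if j < i then Y j else X j) =
      η i • br2 m M i D j ((1 / 2 : ℝ) • (X j + Y j)) + G i j := fun i _ j hj => by
    have hX : X j = Y j + η j • D := by rw [← hd j (mem_range.1 (mem_of_mem_erase hj))]; abel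
    have : (if j < i then Y j else X j) =
        (1 / 2 : ℝ) • (X j + Y j) + (η j * (if j < i then -(1 / 2) else 1 / 2)) • D := by
      rw [hX]; split_ifs <;> module
    rw [this, qsiga_br2_lin, smul_add, smul_smul, ← mul_assoc]
  have z : ∑ i ∈ range M, ∑ j ∈ (range M).erase i, G i j = 0 := by
    have c : ∑ i ∈ range M, ∑ j ∈ (range M).erase i, G i j = ∑ j ∈ range M, ∑ i ∈ (range M).erase j, G i j :=
      sum_comm' fun i j => by simp only [mem_erase]; tauto
    have n : ∑ j ∈ range M, ∑ i ∈ (range M).erase j, G i j =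
        -∑ i ∈ range M, ∑ j ∈ (range M).erase i, G i j := by
      rw [← sum_neg_distrib]
      refine sum_congr rfl fun j _ => ?_
      rw [← sum_neg_distrib]
      refine sum_congr rfl fun i hi => ?_
      have hne := ne_of_mem_erase hi
      simp only [hG]
      rw [qsiga_br2_swap m D M hne, ← neg_smul]
      congr 1
      rcases lt_or_gt_of_ne hne with h1 | h1
      · rw [if_neg (by omega), if_pos h1]; ring
      · rw [if_pos h1, if_neg (by omega)]; ring
    have t : (2 : ℝ) • ∑ i ∈ range M, ∑ j ∈ (range M).erase i, G i j = 0 := by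
      rw [two_smul]; nth_rewrite 1 [c, n]; exact neg_add_cancel _
    exact (smul_eq_zero.1 t).resolve_left two_ne_zero
  rw [sum_congr rfl fun i hi => sum_congr rfl (e i hi)]
  simp only [sum_add_distrib, z, add_zero]

end Pool.Agent.Lib.MP_343fe0_pr
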