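import Pool.Agent.Lib.MP_343fe0_pr.QSigA
import Pool.Agent.Lib.MP_343fe0_pr.QHide
import Pool.Agent.Lib.MP_343fe0_pr.QDesign

set_option autoImplicit false

/-! The two configurations attached to a design. -/

namespace Pool.Agent.Lib.MP_343fe0_pr

open Finset

variable {J p g N W : ℕ}

/-- Number of sites of the new period. -/
def sigM (N W n2 : ℕ) : ℕ := N + 2 * W + 2 * n2 + 1

/-- Type of the site `z` in the configuration `s = 1` or `s = -1`; the baseline type is `-A0`. -/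
def Design.ty (D : Design J p g N W) (A0 : ℤ) (y y' : Fin J → ℤ) (s z : ℤ) : ℤ :=
  if z ∈ D.P then s * D.η z * A0
  else if -(W : ℤ) ≤ z ∧ z ≤ N + W then (D.slot z).elim (-A0) (Sum.elim y' y) else -A0

/-- Type of the site number `j` of the new period. -/
def Design.tn (D : Design J p g N W) (A0 : ℤ) (y y' : Fin J → ℤ) (n2 : ℕ) (s : ℤ) (j : ℕ) : ℤ :=
  D.ty A0 y y' s ((j : ℤ) - (W + n2 : ℕ))

/-- Sign of the site number `j`. -/
def Design.en (D : Design J p g N W) (n2 : ℕ) (j : ℕ) : ℝ :=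
  if ((j : ℤ) - (W + n2 : ℕ)) ∈ D.P then (D.η ((j : ℤ) - (W + n2 : ℕ)) : ℝ) else 0

lemma Design.tn_le (D : Design J p g N W) {A0 : ℤ} {y y' : Fin J → ℤ} {U : ℕ} (hA : |A0| ≤ U)
    (hy : ∀ j, |y j| ≤ U ∧ |y' j| ≤ U) (n2 : ℕ) (s : ℤ) (hs : s = 1 ∨ s = -1) (j : ℕ) :
    |D.tn A0 y y' n2 s j| ≤ U := by
  unfold Design.tn Design.ty
  split_ifs with h1 h2
  · rcases hs with rfl | rfl <;> rcases D.sg _ h1 with e | e <;> rw [e] <;> simpa using hA
  · cases D.slot ((j : ℤ) - (W + n2 : ℕ)) with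
    | none => simpa using hA
    | some σ =>
      cases σ with
      | inl a => exact (hy a).2
      | inr a => exact (hy a).1
  · simpa using hA

lemma Design.tn_dif (D : Design J p g N W) (A0 : ℤ) (y y' : Fin J → ℤ) (n2 : ℕ) :
    ∃ j < sigM N W n2, (D.tn A0 y y' n2 1 j = A0 ∧ D.tn A0 y y' n2 (-1) j = -A0) ∨
      (D.tn A0 y y' n2 1 j = -A0 ∧ D.tn A0 y y' n2 (-1) j = A0) := by
  obtain ⟨z, hz⟩ := D.ne
  obtain ⟨z0, z1⟩ := D.rng z hz
  have e : ((W + n2 + z.toNat : ℕ) : ℤ) - (W + n2 : ℕ) = z := by omega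
  refine ⟨W + n2 + z.toNat, by unfold sigM; omega, ?_⟩
  unfold Design.tn Design.ty
  rw [e, if_pos hz, if_pos hz]
  rcases D.sg z hz with e | e <;> rw [e] <;> simp

variable {A : Type} [NormedRing A] [NormedAlgebra ℝ A] [NormOneClass A]

/-- The defect at the sites of the pattern. -/
noncomputable def defect (V : ℤ → A) (A0 : ℤ) (y y' : Fin J → ℤ) : A :=
  (1 / 2 : ℝ) • V A0 - ∑ j, V (y' j) + ∑ j, V (y j)

/-- Bounds on the perturbations `V u` attached to the types `u`. -/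
structure SigHyp (g W : ℕ) (m : A) (V : ℤ → A) (A0 : ℤ) (y y' : Fin J → ℤ) (U g' n2 : ℕ)
    (ε1 εg εD εω : ℝ) : Prop where
  hm : ‖m‖ ≤ 1
  hA : |A0| ≤ U
  hy : ∀ j, |y j| ≤ U ∧ |y' j| ≤ U
  h0 : V (-A0) = 0
  h1 : ∀ u : ℤ, |u| ≤ U → ‖m + V u‖ ≤ 1
  h2 : ∀ u : ℤ, |u| ≤ U → ‖V u‖ ≤ ε1
  hg : ∀ u : ℤ, |u| ≤ U → ‖m ^ g' * V u * m ^ g'‖ ≤ εg
  hD : ‖m ^ n2 * V A0 * m ^ n2‖ ≤ εD
  hω : ‖m ^ g' * defect V A0 y y' * m ^ g'‖ ≤ εω
  hgg : 2 * g' + 1 ≤ g
  hn2 : g' ≤ n2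
  hW : n2 + g' ≤ W

variable {m : A} {V : ℤ → A} {A0 : ℤ} {y y' : Fin J → ℤ} {U g' n2 : ℕ} {ε1 εg εD εω : ℝ}

lemma sig_pair (D : Design J p g N W) (h : SigHyp g W m V A0 y y' U g' n2 ε1 εg εD εω) :
    PairHyp m (V A0) (fun j => V (D.tn A0 y y' n2 1 j)) (fun j => V (D.tn A0 y y' n2 (-1) j)) (D.en n2)
      (sigM N W n2) g' ε1 εg := by
  have hin : ∀ i, D.en n2 i ≠ 0 → ((i : ℤ) - (W + n2 : ℕ)) ∈ D.P := by
    intro i hi
    by_contra hc
    exact hi (if_neg hc)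
  have hgg := h.hgg
  have hn2 := h.hn2
  refine ⟨h.hm, fun j _ => h.h1 _ (D.tn_le h.hA h.hy n2 1 (Or.inl rfl) j),
    fun j _ => h.h1 _ (D.tn_le h.hA h.hy n2 (-1) (Or.inr rfl) j),
    fun j _ => h.h2 _ (D.tn_le h.hA h.hy n2 1 (Or.inl rfl) j),
    fun j _ => h.h2 _ (D.tn_le h.hA h.hy n2 (-1) (Or.inr rfl) j), fun j _ => ?_, fun j _ => ?_,
    fun i _ hi => ?_, fun i _ hi j _ hne h1 h2 => ?_, h.hg A0 h.hA⟩
  · unfold Design.en
    split_ifs with h1
    · rcases D.sg _ h1 with e | e <;> rw [e] <;> simp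
    · simp
  · unfold Design.en Design.tn Design.ty
    by_cases h1 : ((j : ℤ) - (W + n2 : ℕ)) ∈ D.P
    · rw [if_pos h1, if_pos h1, if_pos h1]
      rcases D.sg _ h1 with e | e <;> rw [e] <;> simp [h.h0]
    · rw [if_neg h1, if_neg h1, if_neg h1]
      simp
  · obtain ⟨z0, z1⟩ := D.rng _ (hin i hi)
    unfold sigM
    omega
  · have key : ¬ (((j : ℤ) - (W + n2 : ℕ)) ∈ D.P ∨ D.slot ((j : ℤ) - (W + n2 : ℕ)) ≠ none) := by
      intro hc
      have := D.iso _ (hin i hi) _ (by omega) hc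
      rw [le_abs] at this
      omega
    rw [not_or, not_not] at key
    unfold Design.tn Design.ty
    rw [if_neg key.1, if_neg key.1, key.2]
    simp [h.h0]

/-- A site whose type is not the baseline is at distance at least `n2` from both ends. -/
lemma sig_margin (D : Design J p g N W) (s : ℤ) (j : ℕ) (hj : D.tn A0 y y' n2 s j ≠ -A0) :
    n2 ≤ j ∧ j + n2 < sigM N W n2 := by
  unfold Design.tn Design.ty at hj
  unfold sigM
  split_ifs at hj with h1 h2
  · obtain ⟨z0, z1⟩ := D.rng _ h1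
    omega
  · omega
  · exact absurd rfl hj

/-- Sums over the pattern. -/
lemma sig_sum (D : Design J p g N W) (G : ℕ → A) :
    ∑ i ∈ range (sigM N W n2), D.en n2 i • G i = ∑ z ∈ D.P, (D.η z : ℝ) • G (W + n2 + z.toNat) := by
  have e1 : ∑ i ∈ range (sigM N W n2), D.en n2 i • G i =
      ∑ i ∈ (range (sigM N W n2)).filter (fun i : ℕ => ((i : ℤ) - (W + n2 : ℕ)) ∈ D.P),
        (D.η ((i : ℤ) - (W + n2 : ℕ)) : ℝ) • G i := by
    rw [sum_filter]
    refine sum_congr rfl fun i _ => ?_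
    unfold Design.en
    split_ifs <;> simp
  rw [e1]
  symm
  refine sum_bij (fun z _ => W + n2 + z.toNat) (fun z hz => ?_) (fun a ha b hb hab => ?_)
    (fun i hi => ?_) (fun z hz => ?_)
  · obtain ⟨z0, z1⟩ := D.rng z hz
    have e : ((W + n2 + z.toNat : ℕ) : ℤ) - (W + n2 : ℕ) = z := by omega
    rw [mem_filter, mem_range, e]
    exact ⟨by unfold sigM; omega, hz⟩
  · have := D.rng a ha
    have := D.rng b hb
    omega
  · rw [mem_filter] at hi
    have := D.rng _ hi.2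
    exact ⟨_, hi.2, by omega⟩
  · obtain ⟨z0, z1⟩ := D.rng z hz
    have e : ((W + n2 + z.toNat : ℕ) : ℤ) - (W + n2 : ℕ) = z := by omega
    rw [e]

/-- The mean of the two configurations is the predicted value plus the defect on the pattern. -/
lemma sig_mean (D : Design J p g N W) (h0 : V (-A0) = 0) (z : ℤ) (h1 : -(W : ℤ) ≤ z) (h2 : z ≤ N + W) :
    (1 / 2 : ℝ) • (V (D.ty A0 y y' 1 z) + V (D.ty A0 y y' (-1) z)) =
      ∑ σ : Fin J ⊕ Fin J, (ct D.P D.slot σ z : ℝ) • V (Sum.elim y' y σ) +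
        if z ∈ D.P then defect V A0 y y' else 0 := by
  unfold Design.ty ct
  by_cases hz : z ∈ D.P
  · simp only [if_pos hz]
    have e : V (1 * D.η z * A0) + V (-1 * D.η z * A0) = V A0 := by
      rcases D.sg z hz with e | e <;> rw [e] <;> simp [h0]
    rw [e, Fintype.sum_sum_type, defect]
    simp only [Sum.elim_inl, Sum.elim_inr, Int.cast_one, one_smul, Int.cast_neg, neg_smul,
      sum_neg_distrib]
    abel
  · simp only [if_neg hz, if_pos (And.intro h1 h2), add_zero]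
    rw [← two_smul ℝ, smul_smul, show (1 / 2 : ℝ) * 2 = 1 by norm_num, one_smul]
    cases D.slot z with
    | none => simp [h0]
    | some σ =>
      rw [sum_eq_single σ]
      · simp
      · intro b _ hb
        simp [hb.symm]
      · simp

/-- `opr_p2`, `norm_br1_le`, `sig_margin`. -/
theorem sig_a (D : Design J p g N W) (h : SigHyp g W m V A0 y y' U g' n2 ε1 εg εD εω) :
    ‖opr (fun j => m + V (D.tn A0 y y' n2 (-1) j)) (sigM N W n2) - m ^ sigM N W n2‖ ≤
      sigM N W n2 * εg + (sigM N W n2 * ε1) ^ 2 := by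
  have hu := fun j => D.tn_le h.hA h.hy n2 (-1) (Or.inr rfl) j
  have a1 := opr_p2 h.hm (fun j => V (D.tn A0 y y' n2 (-1) j)) (sigM N W n2) ε1
    (fun j _ => h.h1 _ (hu j)) fun j _ => h.h2 _ (hu j)
  have a2 : ‖∑ i ∈ range (sigM N W n2), br1 m (sigM N W n2) i (V (D.tn A0 y y' n2 (-1) i))‖ ≤
      sigM N W n2 * εg := by
    refine (norm_sum_le _ _).trans ((sum_le_card_nsmul _ _ εg fun i _ => ?_).trans (by simp))
    by_cases hi : D.tn A0 y y' n2 (-1) i = -A0
    · rw [hi, h.h0, br1, mul_zero, zero_mul, norm_zero]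
      exact (norm_nonneg _).trans (h.hg A0 h.hA)
    · have := sig_margin D (-1) i hi
      have := h.hn2
      exact (norm_br1_le h.hm _ (by omega) (by omega)).trans (h.hg _ (hu i))
  have a3 := norm_add_le (∑ i ∈ range (sigM N W n2), br1 m (sigM N W n2) i (V (D.tn A0 y y' n2 (-1) i)))
    (opr (fun j => m + V (D.tn A0 y y' n2 (-1) j)) (sigM N W n2) - m ^ sigM N W n2 -
      ∑ i ∈ range (sigM N W n2), br1 m (sigM N W n2) i (V (D.tn A0 y y' n2 (-1) i)))
  rw [add_sub_cancel] at a3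
  linarith

/-- `sig_first`, `norm_br1_le` with padding `n2`. -/
theorem sig_b (D : Design J p g N W) (h : SigHyp g W m V A0 y y' U g' n2 ε1 εg εD εω) :
    ‖opr (fun j => m + V (D.tn A0 y y' n2 1 j)) (sigM N W n2) -
      opr (fun j => m + V (D.tn A0 y y' n2 (-1) j)) (sigM N W n2)‖ ≤
      sigM N W n2 * εD + 2 * (sigM N W n2 : ℝ) ^ 2 * ε1 * εg := by
  have hp := sig_pair D h
  have a1 := sig_first hp
  have a2 : ‖∑ i ∈ range (sigM N W n2), D.en n2 i • br1 m (sigM N W n2) i (V A0)‖ ≤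
      sigM N W n2 * εD := by
    refine (norm_sum_le _ _).trans ((sum_le_card_nsmul _ _ εD fun i hi => ?_).trans (by simp))
    by_cases h1 : ((i : ℤ) - (W + n2 : ℕ)) ∈ D.P
    · obtain ⟨z0, z1⟩ := D.rng _ h1
      rw [norm_smul, Real.norm_eq_abs]
      refine (mul_le_of_le_one_left (norm_nonneg _) (hp.hη i (mem_range.1 hi))).trans ?_
      exact (norm_br1_le h.hm _ (by omega) (by unfold sigM; omega)).trans h.hD
    · rw [Design.en, if_neg h1, zero_smul, norm_zero]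
      exact (norm_nonneg _).trans h.hD
  have a3 := norm_add_le (∑ i ∈ range (sigM N W n2), D.en n2 i • br1 m (sigM N W n2) i (V A0))
    (opr (fun j => m + V (D.tn A0 y y' n2 1 j)) (sigM N W n2) -
      opr (fun j => m + V (D.tn A0 y y' n2 (-1) j)) (sigM N W n2) -
      ∑ i ∈ range (sigM N W n2), D.en n2 i • br1 m (sigM N W n2) i (V A0))
  rw [add_sub_cancel] at a3
  linarith

end Pool.Agent.Lib.MP_343fe0_pr
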