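import Pool.Agent.Lib.MP_343fe0_pr.Alg

set_option autoImplicit false

/-! Negative moments: the real-variable part. -/

namespace Pool.Agent.Lib.MP_343fe0_pr

open Finset

lemma renA_F (r s Λ : ℝ) (hrs : r * s = 1) (q : ℕ) (hΛ : ∀ j ≤ q, r ^ j ≤ Λ) :
    ∀ m ≤ q, (1 - s) * (r ^ m - 1) ≤ m * Λ * (1 - s) ^ 2 := by
  intro m
  induction m with
  | zero => intro _; simp
  | succ m ih =>
    intro hm
    have h1 := ih (by omega)
    have h2 := hΛ (m + 1) hm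
    have h3 : (1 - s) * (r ^ (m + 1) - 1) = (1 - s) * (r ^ m - 1) + r ^ (m + 1) * (1 - s) ^ 2 := by
      have : r ^ m = r ^ (m + 1) * s := by rw [pow_succ, mul_assoc, hrs, mul_one]
      rw [this]
      have h4 : r ^ (m + 1 + 1) * s = r ^ (m + 1) := by
        rw [pow_succ r (m + 1), mul_assoc, hrs, mul_one]
      ring
    rw [h3]
    push_cast
    nlinarith [mul_le_mul_of_nonneg_right h2 (sq_nonneg (1 - s))]

lemma renA_E (r s Λ : ℝ) (hrs : r * s = 1) (q : ℕ) (hΛ : ∀ j ≤ q, r ^ j ≤ Λ) (hΛ0 : 0 ≤ Λ) :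
    ∀ n ≤ q, r ^ n - 1 - n * (1 - s) ≤ (n : ℝ) ^ 2 * Λ * (1 - s) ^ 2 := by
  intro n
  induction n with
  | zero => intro _; simp
  | succ n ih =>
    intro hn
    have h1 := ih (by omega)
    have h2 := renA_F r s Λ hrs q hΛ (n + 1) hn
    have h3 : r ^ n = r ^ (n + 1) * s := by rw [pow_succ, mul_assoc, hrs, mul_one]
    have h4 : r ^ (n + 1) - 1 - ((n + 1 : ℕ) : ℝ) * (1 - s) =
        (r ^ n - 1 - n * (1 - s)) + (1 - s) * (r ^ (n + 1) - 1) := by
      rw [h3]; push_cast; ring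
    rw [h4]
    push_cast at h2 ⊢
    have h5 : 0 ≤ (n : ℝ) * Λ * (1 - s) ^ 2 :=
      mul_nonneg (mul_nonneg (Nat.cast_nonneg n) hΛ0) (sq_nonneg _)
    nlinarith

lemma renA_tangent (n : ℕ) (t ρ : ℝ) (ht : 0 ≤ t) (hρ : 0 ≤ ρ) :
    ρ ^ (n + 1) + (n + 1) * ρ ^ n * (t - ρ) ≤ t ^ (n + 1) := by
  induction n with
  | zero => simp
  | succ n ih =>
    have h1 := mul_le_mul_of_nonneg_left ih ht
    have h2 : 0 ≤ ((n : ℝ) + 1) * ρ ^ n * (t - ρ) ^ 2 := by positivity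
    have h3 : t ^ (n + 1 + 1) = t * t ^ (n + 1) := by ring
    rw [h3]
    push_cast
    have h4 : t * (ρ ^ (n + 1) + (n + 1) * ρ ^ n * (t - ρ)) =
        ρ ^ (n + 1 + 1) + (n + 1 + 1) * ρ ^ (n + 1) * (t - ρ) +
          ((n : ℝ) + 1) * ρ ^ n * (t - ρ) ^ 2 := by ring
    linarith

lemma renA_tail (t Λ : ℝ) (ht : 0 ≤ t) (hΛ : 1 ≤ Λ) (h : Λ ≤ t) : t ≤ t ^ 2 / Λ := by
  rw [le_div_iff₀ (by linarith)]
  nlinarith

/-- With `r = g / z`: `r ^ q - 1 - q (1 - 1/r) = (1/r - 1) ^ 2 ∑ i < q, ∑ j ≤ i, r ^ (j+1)`, each power being at most `Λ`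
if `r ^ q ≤ Λ`; if `r ^ q > Λ ≥ 1` then `z < g` and `r ^ q ≤ r ^ (2q) / Λ`. -/
lemma taylor_pt (q : ℕ) (hq : 1 ≤ q) (g z Λ : ℝ) (hg : 0 < g) (hz : 0 < z) (hΛ : 1 ≤ Λ) :
    g * (g / z) ^ q ≤ g - q * (z - g) + (q : ℝ) ^ 2 * Λ * ((z - g) ^ 2 / g) +
      g * (g / z) ^ (2 * q) / Λ := by
  have hr : 0 < g / z := div_pos hg hz
  have hrs : g / z * (z / g) = 1 := by field_simp
  have hΛ0 : 0 < Λ := by linarith
  have hlast : 0 ≤ g * (g / z) ^ (2 * q) / Λ := by positivity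
  rcases le_or_gt ((g / z) ^ q) Λ with h | h
  · have hall : ∀ j ≤ q, (g / z) ^ j ≤ Λ := by
      intro j hj
      rcases le_or_gt (g / z) 1 with h1 | h1
      · exact (pow_le_one₀ hr.le h1).trans hΛ
      · exact (pow_le_pow_right₀ h1.le hj).trans h
    have h1 := renA_E (g / z) (z / g) Λ hrs q hall hΛ0.le q le_rfl
    have h2 := mul_le_mul_of_nonneg_left h1 hg.le
    have h3 : g * ((q : ℝ) ^ 2 * Λ * (1 - z / g) ^ 2) = (q : ℝ) ^ 2 * Λ * ((z - g) ^ 2 / g) := by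
      field_simp
      ring
    have h4 : g * ((g / z) ^ q - 1 - q * (1 - z / g)) = g * (g / z) ^ q - g + q * (z - g) := by
      field_simp
      ring
    rw [h3, h4] at h2
    linarith
  · have h1 : 1 < g / z := by
      by_contra h1
      have := pow_le_one₀ (n := q) hr.le (not_lt.mp h1)
      linarith
    have hzg : z < g := (one_lt_div hz).mp h1
    have h2 := renA_tail ((g / z) ^ q) Λ (by positivity) hΛ h.le
    have h3 := mul_le_mul_of_nonneg_left h2 hg.le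
    have h4 : g * (((g / z) ^ q) ^ 2 / Λ) = g * (g / z) ^ (2 * q) / Λ := by
      rw [← pow_mul, mul_comm q 2]; ring
    rw [h4] at h3
    have h5 : 0 ≤ (q : ℝ) ^ 2 * Λ * ((z - g) ^ 2 / g) := by positivity
    have h6 : 0 ≤ (q : ℝ) * (g - z) := mul_nonneg (Nat.cast_nonneg q) (by linarith)
    nlinarith
lemma tail_pt (q : ℕ) (g z Λ : ℝ) (hg : 0 ≤ g) (hz : 0 ≤ z) (hΛ : 1 ≤ Λ) :
    g * (g / z) ^ q ≤ Λ * g + g * (g / z) ^ (2 * q) / Λ := by
  have hΛ0 : 0 < Λ := by linarith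
  have hr : 0 ≤ g / z := div_nonneg hg hz
  have hlast : 0 ≤ g * (g / z) ^ (2 * q) / Λ := by positivity
  rcases le_or_gt ((g / z) ^ q) Λ with h | h
  · have := mul_le_mul_of_nonneg_left h hg
    linarith
  · have h2 := renA_tail ((g / z) ^ q) Λ (by positivity) hΛ h.le
    have h3 := mul_le_mul_of_nonneg_left h2 hg
    have h4 : g * (((g / z) ^ q) ^ 2 / Λ) = g * (g / z) ^ (2 * q) / Λ := by
      rw [← pow_mul, mul_comm q 2]; ring
    rw [h4] at h3
    have h5 : 0 ≤ Λ * g := by positivity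
    linarith
/-- Joint convexity: tangent line `t ^ (q+1) ≥ ρ ^ (q+1) + (q+1) ρ ^ q (t - ρ)` at `ρ = (∑ g) / (∑ z)`, `t = g j / z j`. -/
lemma persp_subadd {ι : Type} (q : ℕ) (J : Finset ι) (g z : ι → ℝ) (hg : ∀ j ∈ J, 0 ≤ g j)
    (hz : ∀ j ∈ J, 0 ≤ z j) (hgz : ∀ j ∈ J, 0 < g j → 0 < z j) :
    (∑ j ∈ J, g j) * ((∑ j ∈ J, g j) / ∑ j ∈ J, z j) ^ q ≤ ∑ j ∈ J, g j * (g j / z j) ^ q := by
  have hG : 0 ≤ ∑ j ∈ J, g j := Finset.sum_nonneg hg
  have hZ : 0 ≤ ∑ j ∈ J, z j := Finset.sum_nonneg hz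
  rcases hZ.eq_or_lt with hZ0 | hZ0
  · have hz0 : ∀ j ∈ J, z j = 0 := (Finset.sum_eq_zero_iff_of_nonneg hz).mp hZ0.symm
    have hg0 : ∀ j ∈ J, g j = 0 := by
      intro j hj
      rcases (hg j hj).eq_or_lt with h | h
      · exact h.symm
      · have := hgz j hj h
        rw [hz0 j hj] at this
        exact absurd this (lt_irrefl _)
    rw [Finset.sum_eq_zero hg0, zero_mul]
    exact Finset.sum_nonneg fun j hj => by rw [hg0 j hj]; simp
  · set ρ := (∑ j ∈ J, g j) / ∑ j ∈ J, z j with hρ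
    have hρ0 : 0 ≤ ρ := div_nonneg hG hZ
    have hGZ : ∑ j ∈ J, g j = ρ * ∑ j ∈ J, z j := by
      rw [hρ]; field_simp
    have h1 : ∀ j ∈ J, z j * ρ ^ (q + 1) + (q + 1) * ρ ^ q * (g j - ρ * z j) ≤
        g j * (g j / z j) ^ q := by
      intro j hj
      rcases (hz j hj).eq_or_lt with h | h
      · have hg0 : g j = 0 := by
          rcases (hg j hj).eq_or_lt with h' | h'
          · exact h'.symm
          · have := hgz j hj h'
            rw [← h] at this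
            exact absurd this (lt_irrefl _)
        rw [← h, hg0]; simp
      · have h2 := renA_tangent q (g j / z j) ρ (div_nonneg (hg j hj) h.le) hρ0
        have h3 := mul_le_mul_of_nonneg_left h2 h.le
        have h4 : z j * (g j / z j) ^ (q + 1) = g j * (g j / z j) ^ q := by
          rw [pow_succ]; field_simp
        have h5 : z j * (ρ ^ (q + 1) + (q + 1) * ρ ^ q * (g j / z j - ρ)) =
            z j * ρ ^ (q + 1) + (q + 1) * ρ ^ q * (g j - ρ * z j) := by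
          field_simp
        rw [h4, h5] at h3
        exact h3
    refine le_trans (le_of_eq ?_) (Finset.sum_le_sum h1)
    rw [Finset.sum_add_distrib, ← Finset.sum_mul, ← Finset.mul_sum, Finset.sum_sub_distrib,
      ← Finset.mul_sum, hGZ]
    ring

lemma renA_pow_le_three (B : ℕ) (hB : 1 ≤ B) : (1 + 1 / (B : ℝ)) ^ B ≤ 3 := by
  have hB0 : (0 : ℝ) < B := by exact_mod_cast hB
  have h1 : 1 + 1 / (B : ℝ) ≤ Real.exp (1 / B) := by
    have := Real.add_one_le_exp (1 / (B : ℝ))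
    linarith
  calc (1 + 1 / (B : ℝ)) ^ B ≤ Real.exp (1 / B) ^ B :=
        pow_le_pow_left₀ (by positivity) h1 B
    _ = Real.exp 1 := by
        rw [← Real.exp_nat_mul]
        congr 1
        field_simp
    _ ≤ 3 := by
        have := Real.exp_one_lt_d9
        linarith

lemma renA_sub (R : ℕ → ℝ) (kmax n : ℕ) (x : ℝ) (hn : 1 ≤ n) (hx : 1 ≤ x) (h0 : ∀ k, 0 ≤ R k)
    (hsub : ∀ k1 k2, 1 ≤ k1 → 1 ≤ k2 → k1 + k2 ≤ kmax → R (k1 + k2) ≤ R k1 * R k2)
    (hA : ∀ k, 1 ≤ k → k ≤ kmax → k ≤ n → R k ≤ x) :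
    ∀ j k, 1 ≤ k → k ≤ kmax → k ≤ j * n → R k ≤ x ^ j := by
  intro j
  induction j with
  | zero => intro k h1 _ h3; omega
  | succ j ih =>
    intro k h1 h2 h3
    rcases le_or_gt k n with h | h
    · calc R k ≤ x := hA k h1 h2 h
        _ = x ^ 1 := (pow_one x).symm
        _ ≤ x ^ (j + 1) := pow_le_pow_right₀ hx (by omega)
    · have hk : k = n + (k - n) := by omega
      have h4 : k - n ≤ j * n := by
        rw [Nat.succ_mul] at h3
        omega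
      have h5 := hsub n (k - n) hn (by omega) (by omega)
      rw [← hk] at h5
      have h6 := hA n hn (by omega) le_rfl
      have h7 := ih (k - n) (by omega) (by omega) h4
      calc R k ≤ R n * R (k - n) := h5
        _ ≤ x * x ^ j := mul_le_mul h6 h7 (h0 _) (by linarith)
        _ = x ^ (j + 1) := by ring

/-- Multiscale argument.  Let `B = 4 ^ h`, `D` least with `kmax ≤ B ^ D`, `q d = q0 * 2 ^ (D - d)`, `Λ = 9 B`.
For `d = 0, ..., D`: if `Ren (2 * q d) k ≤ 3` for all `1 ≤ k ≤ min kmax (B ^ d)` then `htay` gives `Ren (q d) k ≤ 1 + 1 / B`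
for these `k` (as `kmax > B ^ (D-1)`, `q d ^ 2 * √(k / kmax) ≤ q0 ^ 2 * 2 ^ h`), and `hsub` gives
`Ren (q d) k ≤ (1 + 1/B) ^ j ≤ 3` for `k ≤ j * B ^ d`, `j ≤ B`; here `q d = 2 * q (d+1)`.  Start: `2 * q 0 ≤ 4 q0 Y` since
`2 ^ (D-1) < Y` if `D ≥ 1`. -/
theorem ren_abstract (Ren : ℕ → ℕ → ℝ) (kmax q0 h : ℕ) (η bad Y : ℝ) (h0 : ∀ q k, 0 ≤ Ren q k)
    (hsub : ∀ q k1 k2, 1 ≤ k1 → 1 ≤ k2 → k1 + k2 ≤ kmax → Ren q (k1 + k2) ≤ Ren q k1 * Ren q k2)
    (htay : ∀ (q k : ℕ) (Λ : ℝ), 1 ≤ q → 1 ≤ k → k ≤ kmax → 1 ≤ Λ →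
      Ren q k ≤ 1 + (q : ℝ) ^ 2 * Λ * (η * √((k : ℝ) / kmax)) + Λ * bad + Ren (2 * q) k / Λ)
    (hbase : ∀ q : ℕ, (q : ℝ) ≤ 4 * q0 * Y → Ren q 1 ≤ 3)
    (hh : 2 ≤ h) (hq : 1 ≤ q0) (hY : 1 ≤ Y) (hk : (kmax : ℝ) ≤ Y ^ (2 * h)) (hη0 : 0 ≤ η)
    (hη : 27 * (4 ^ h) ^ 2 * 2 ^ h * (q0 : ℝ) ^ 2 * η ≤ 1) (hb0 : 0 ≤ bad)
    (hb : 27 * (4 ^ h) ^ 2 * bad ≤ 1) (k : ℕ) (hk1 : 1 ≤ k) (hk2 : k ≤ kmax) : Ren q0 k ≤ 2 := by
  classical
  set B : ℕ := 4 ^ h with hB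
  have hB16 : 16 ≤ B := by
    rw [hB]
    calc 16 = 4 ^ 2 := by norm_num
      _ ≤ 4 ^ h := Nat.pow_le_pow_right (by norm_num) hh
  have hBR : (B : ℝ) = 4 ^ h := by rw [hB]; push_cast; rfl
  have hB0 : (0 : ℝ) < B := by rw [hBR]; positivity
  have hB1 : (16 : ℝ) ≤ B := by exact_mod_cast hB16
  have hex : ∃ D, kmax ≤ B ^ D := ⟨kmax, (Nat.lt_pow_self (by omega)).le⟩
  set D := Nat.find hex with hD
  have hD1 : kmax ≤ B ^ D := Nat.find_spec hex
  have hD2 : ∀ d < D, B ^ d < kmax := fun d hd => not_le.mp (Nat.find_min hex hd)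
  have hkm : 1 ≤ kmax := hk1.trans hk2
  have hKB : B ^ D ≤ kmax * B := by
    rcases Nat.eq_zero_or_pos D with h0 | h0
    · rw [h0, pow_zero]
      exact Nat.mul_pos hkm (by omega)
    · have h1 := hD2 (D - 1) (by omega)
      have h2 : B ^ D = B ^ (D - 1) * B := by
        rw [← pow_succ]; congr 1; omega
      rw [h2]
      exact Nat.mul_le_mul_right _ h1.le
  -- step A
  have hA : ∀ d ≤ D, (∀ k, 1 ≤ k → k ≤ kmax → k ≤ B ^ d → Ren (2 * (q0 * 2 ^ (D - d))) k ≤ 3) →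
      ∀ k, 1 ≤ k → k ≤ kmax → k ≤ B ^ d → Ren (q0 * 2 ^ (D - d)) k ≤ 1 + 1 / (B : ℝ) := by
    intro d hd hP k h1 h2 h3
    have hq1 : 1 ≤ q0 * 2 ^ (D - d) := Nat.mul_pos hq (by positivity)
    have h4 := htay (q0 * 2 ^ (D - d)) k (9 * B) hq1 h1 h2 (by linarith)
    have h5 := hP k h1 h2 h3
    have hkm0 : (0 : ℝ) < kmax := by exact_mod_cast hkm
    have h6 : k * 16 ^ (D - d) ≤ kmax * B := by
      calc k * 16 ^ (D - d) ≤ B ^ d * B ^ (D - d) :=
            Nat.mul_le_mul h3 (Nat.pow_le_pow_left hB16 _)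
        _ = B ^ D := by rw [← pow_add]; congr 1; omega
        _ ≤ kmax * B := hKB
    have h7 : √((k : ℝ) / kmax) ≤ 2 ^ h / 4 ^ (D - d) := by
      rw [Real.sqrt_le_iff]
      refine ⟨by positivity, ?_⟩
      rw [div_pow, div_le_div_iff₀ hkm0 (by positivity)]
      have h8 : ((k : ℝ) * 16 ^ (D - d)) ≤ kmax * B := by exact_mod_cast h6
      have h9 : ((4 : ℝ) ^ (D - d)) ^ 2 = 16 ^ (D - d) := by
        rw [← pow_mul, mul_comm, pow_mul]; norm_num
      have h10 : ((2 : ℝ) ^ h) ^ 2 = B := by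
        rw [hBR, ← pow_mul, mul_comm, pow_mul]; norm_num
      rw [h9, h10]
      linarith
    have h11 : (((q0 * 2 ^ (D - d) : ℕ) : ℝ)) ^ 2 * (9 * B) * (η * √((k : ℝ) / kmax)) ≤
        1 / (3 * B) := by
      have h12 : (((q0 * 2 ^ (D - d) : ℕ) : ℝ)) ^ 2 = (q0 : ℝ) ^ 2 * 4 ^ (D - d) := by
        push_cast
        rw [mul_pow, ← pow_mul, mul_comm (D - d) 2, pow_mul]; norm_num
      rw [h12]
      calc (q0 : ℝ) ^ 2 * 4 ^ (D - d) * (9 * B) * (η * √((k : ℝ) / kmax))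
          ≤ (q0 : ℝ) ^ 2 * 4 ^ (D - d) * (9 * B) * (η * (2 ^ h / 4 ^ (D - d))) := by
            gcongr
        _ = (27 * (B : ℝ) ^ 2 * 2 ^ h * (q0 : ℝ) ^ 2 * η) / (3 * B) := by
            field_simp
            ring
        _ ≤ 1 / (3 * B) := by
            apply div_le_div_of_nonneg_right _ (by positivity)
            rw [hBR]; exact hη
    have h13 : 9 * (B : ℝ) * bad ≤ 1 / (3 * B) := by
      rw [le_div_iff₀ (by positivity)]
      rw [← hBR] at hb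
      nlinarith
    have h14 : Ren (2 * (q0 * 2 ^ (D - d))) k / (9 * B) ≤ 1 / (3 * B) := by
      rw [div_le_div_iff₀ (by positivity) (by positivity)]
      nlinarith
    have h15 : 1 / (B : ℝ) = 1 / (3 * B) + 1 / (3 * B) + 1 / (3 * B) := by
      field_simp
      ring
    linarith
  have hP : ∀ d ≤ D, ∀ k, 1 ≤ k → k ≤ kmax → k ≤ B ^ d → Ren (2 * (q0 * 2 ^ (D - d))) k ≤ 3 := by
    intro d
    induction d with
    | zero =>
      intro _ k h1 _ h3
      have hkk : k = 1 := by rw [pow_zero] at h3; omega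
      rw [hkk]
      apply hbase
      have hq0 : (0 : ℝ) ≤ q0 := Nat.cast_nonneg q0
      have h2D : (2 : ℝ) ^ D ≤ 2 * Y := by
        rcases Nat.eq_zero_or_pos D with h0 | h0
        · rw [h0, pow_zero]; linarith
        · have h4 := hD2 (D - 1) (by omega)
          have h5 : ((2 : ℝ) ^ (D - 1)) ^ (2 * h) < Y ^ (2 * h) := by
            refine lt_of_lt_of_le ?_ hk
            have h6 : ((B : ℝ)) ^ (D - 1) < kmax := by exact_mod_cast h4
            have h7 : ((2 : ℝ) ^ (D - 1)) ^ (2 * h) = (B : ℝ) ^ (D - 1) := by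
              rw [hBR, ← pow_mul, ← pow_mul, show (4 : ℝ) = 2 ^ 2 by norm_num, ← pow_mul]
              congr 1
              ring
            rw [h7]; exact h6
          have h8 : (2 : ℝ) ^ (D - 1) < Y := lt_of_pow_lt_pow_left₀ _ (by linarith) h5
          have h9 : (2 : ℝ) ^ D = 2 * 2 ^ (D - 1) := by
            rw [← pow_succ']; congr 1; omega
          rw [h9]; linarith
      push_cast
      rw [Nat.sub_zero]
      nlinarith
    | succ d ih =>
      intro hd k h1 h2 h3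
      have hA' := hA d (by omega) (ih (by omega))
      have hq' : 2 * (q0 * 2 ^ (D - (d + 1))) = q0 * 2 ^ (D - d) := by
        have : D - d = D - (d + 1) + 1 := by omega
        rw [this, pow_succ]; ring
      rw [hq']
      have h4 := renA_sub (Ren (q0 * 2 ^ (D - d))) kmax (B ^ d) (1 + 1 / (B : ℝ))
        (Nat.one_le_pow _ _ (by omega)) (le_add_of_nonneg_right (by positivity))
        (h0 _) (hsub _) hA' B k h1 h2
        (by rw [pow_succ] at h3; rw [mul_comm]; exact h3)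
      exact h4.trans (renA_pow_le_three B (by omega))
  have hfin := hA D le_rfl (hP D le_rfl) k hk1 hk2 (hk2.trans hD1)
  rw [Nat.sub_self, pow_zero, mul_one] at hfin
  have : 1 / (B : ℝ) ≤ 1 := by
    rw [div_le_one hB0]; linarith
  linarith

end Pool.Agent.Lib.MP_343fe0_pr
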