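import Pool.Agent.Lib.MP_343fe0_pr.Factor
import Pool.Agent.Lib.MP_343fe0_pr.Schur

set_option autoImplicit false

/-! The two-replica bound for fixed contexts, length and label. -/

namespace Pool.Agent.Lib.MP_343fe0_pr

open Finset

open Classical in
/-- The slot of the path that step `r` occupies, if any. -/
noncomputable def slotAt {a : ℕ} (M s K : ℕ) (c : ℕ → Ctx a) (ξ : ℕ → Bool) (r : ℕ) :
    Option (ℕ × Bool) :=
  if h : ∃ p : ℕ × Bool, p.1 < K ∧ r = r0 s c ξ (zz a M p.1) + p.2.toNat then some h.choose else none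

lemma slotAt_some {a M s K r : ℕ} {c : ℕ → Ctx a} {ξ : ℕ → Bool} {p : ℕ × Bool}
    (h : slotAt M s K c ξ r = some p) : p.1 < K ∧ r = r0 s c ξ (zz a M p.1) + p.2.toNat := by
  unfold slotAt at h
  split_ifs at h with h'
  obtain rfl : h'.choose = p := by simpa using h
  exact h'.choose_spec

lemma slotAt_eq {a M s K : ℕ} (ha : 1 ≤ a) (hM : 2 ≤ M) (hs : s ≤ 2 * a + 1) (c : ℕ → Ctx a)
    (ξ : ℕ → Bool) (i : ℕ) (hi : i < K) (b : Bool) :
    slotAt M s K c ξ (r0 s c ξ (zz a M i) + b.toNat) = some (i, b) := by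
  have hex : ∃ p : ℕ × Bool, p.1 < K ∧
      r0 s c ξ (zz a M i) + b.toNat = r0 s c ξ (zz a M p.1) + p.2.toNat := ⟨(i, b), hi, rfl⟩
  unfold slotAt
  rw [dif_pos hex]
  obtain ⟨-, h2⟩ := hex.choose_spec
  generalize hex.choose = p at h2
  obtain ⟨i', b'⟩ := p
  simp only at h2
  have hb : b.toNat ≤ 1 := Bool.toNat_le b
  have hb' : b'.toNat ≤ 1 := Bool.toNat_le b'
  have hii : i' = i := by
    rcases lt_trichotomy i' i with h | h | h
    · have := r0_gap ha (by omega : 1 ≤ M) hs h.le c ξ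
      have h3 : 2 * M * 1 ≤ 2 * M * (i - i') := Nat.mul_le_mul_left _ (by omega)
      omega
    · exact h
    · have := r0_gap ha (by omega : 1 ≤ M) hs h.le c ξ
      have h3 : 2 * M * 1 ≤ 2 * M * (i' - i) := Nat.mul_le_mul_left _ (by omega)
      omega
  subst hii
  have : b' = b := by
    cases b <;> cases b' <;> simp_all
  rw [this]

lemma slotAt_none {a M s K r : ℕ} {c : ℕ → Ctx a} {ξ : ℕ → Bool}
    (h : ∀ i < K, r ≠ r0 s c ξ (zz a M i) ∧ r ≠ r0 s c ξ (zz a M i) + 1) :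
    slotAt M s K c ξ r = none := by
  unfold slotAt
  rw [dif_neg]
  rintro ⟨⟨i, b⟩, hi, h2⟩
  cases b
  · exact (h i hi).1 (by simpa using h2)
  · exact (h i hi).2 (by simpa using h2)

def slOf (sp : Spec) (b : Bool) : Slot := if b then sp.2 else sp.1

abbrev Lb : Type := Option ((Bool × Finset ℕ × Bool × Bool) × ℤ)

lemma alB_nonneg (b : Bool) : 0 ≤ alB b := by unfold alB; split_ifs <;> norm_num
lemma alB_le_one (b : Bool) : alB b ≤ 1 := by unfold alB; split_ifs <;> norm_num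
lemma kk_pos (m : ℕ) : 0 < kk m := by unfold kk; positivity

noncomputable def labOf {a : ℕ} (M s K : ℕ) (c : ℕ → Ctx a) (sp : ℕ → Spec) (i1 : ℕ) (ξ : ℕ → Bool)
    (r : ℕ) : Lb :=
  (slotAt M s K c ξ r).map fun p => ((decide (p.1 = i1), (slOf (sp p.1) p.2).P, (slOf (sp p.1) p.2).e,
    ξ r), (zz a M p.1 : ℤ) - pos s c ξ r)

noncomputable def alOf {a : ℕ} (M s K : ℕ) (c : ℕ → Ctx a) (sp : ℕ → Spec) (ξ : ℕ → Bool)
    (r : ℕ) : ℝ :=
  match slotAt M s K c ξ r with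
  | none => 1
  | some p => alB (slOf (sp p.1) p.2).al

lemma alOf_nonneg {a : ℕ} (M s K : ℕ) (c : ℕ → Ctx a) (sp : ℕ → Spec) (ξ : ℕ → Bool) (r : ℕ) :
    0 ≤ alOf M s K c sp ξ r := by
  unfold alOf; split
  · norm_num
  · exact alB_nonneg _

lemma alOf_le_one {a : ℕ} (M s K : ℕ) (c : ℕ → Ctx a) (sp : ℕ → Spec) (ξ : ℕ → Bool) (r : ℕ) :
    alOf M s K c sp ξ r ≤ 1 := by
  unfold alOf; split
  · norm_num
  · exact alB_le_one _

lemma rep2_sum_some {β : Type} [DecidableEq β] (s : Finset (Option β)) (T : Finset β)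
    (g : Option β → ℝ) :
    ∑ p ∈ T, (if some p ∈ s then g (some p) else 0) = ∑ l ∈ s ∩ T.image some, g l := by
  rw [← Finset.filter_mem_eq_inter, ← Finset.sum_filter]
  refine Finset.sum_bij (fun p _ => some p) ?_ ?_ ?_ ?_
  · intro p hp
    simp only [mem_filter] at hp ⊢
    exact ⟨hp.2, mem_image_of_mem _ hp.1⟩
  · intro p _ q _ h
    simpa using h
  · intro l hl
    simp only [mem_filter, mem_image] at hl
    obtain ⟨h1, p, hp, rfl⟩ := hl
    exact ⟨p, mem_filter.2 ⟨hp, h1⟩, rfl⟩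
  · intro p _
    rfl

lemma zz_inj {a M i j : ℕ} (hM : 1 ≤ M) (h : zz a M i = zz a M j) : i = j := by
  unfold zz at h
  have hL : 0 < LL a M := by unfold LL HH; positivity
  exact Nat.eq_of_mul_eq_mul_right hL (by omega)

lemma modEq_of_offset {a M i i' p p' k : ℕ} (h : (zz a M i : ℤ) - p = (zz a M i' : ℤ) - p') :
    p' + k ≡ p + k [MOD LL a M] := by
  apply Nat.ModEq.add_right
  rw [Nat.modEq_iff_dvd]
  unfold zz at h
  push_cast at h
  exact ⟨(i : ℤ) - i', by linarith⟩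

namespace Model

variable {m : ℕ} (X : Model m)

noncomputable def phiL (c0 : Ctx X.a) : Lb → X.Tok → ℝ
  | none, _ => 0
  | some t, o => if t.1.2.1 ⊆ range m then X.feat t.1.2.2.1 t.1.2.1 c0 t.1.2.2.2 t.2 o else 0

noncomputable def wL {ΩA sA Ω2 : ℝ} (W : X.Wts ΩA sA Ω2) (c0 : Ctx X.a) : Lb → ℝ
  | none => 0
  | some t => kk m * W.w t.1.2.2.1 c0 t.1.2.2.2 t.2

lemma wL_nonneg {ΩA sA Ω2 : ℝ} (W : X.Wts ΩA sA Ω2) (c0 : Ctx X.a) (l : Lb) : 0 ≤ X.wL W c0 l := by
  cases l with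
  | none => exact le_rfl
  | some t => exact mul_nonneg (kk_pos m).le (W.nonneg _ _ _ _)

lemma phiL_mean (c0 : Ctx X.a) (l : Lb) : ∑ o, X.ν c0 o * X.phiL c0 l o = 0 := by
  cases l with
  | none => simp [phiL]
  | some t =>
    simp only [phiL]
    split_ifs
    · exact X.feat_mean _ _ _ _ _
    · simp

lemma phiL_dom {ΩA sA Ω2 : ℝ} (W : X.Wts ΩA sA Ω2) (c0 : Ctx X.a) (s : Finset Lb) (y : Lb → ℝ) :
    ∑ o, X.ν c0 o * (∑ l ∈ s, y l * X.phiL c0 l o) ^ 2 ≤ ∑ l ∈ s, X.wL W c0 l * y l ^ 2 := by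
  classical
  set Cl : Finset (Bool × Finset ℕ × Bool × Bool) :=
    univ ×ˢ ((range m).powerset ×ˢ (univ ×ˢ univ)) with hCl
  set U : Finset ℤ := s.image fun l => (l.map Prod.snd).getD 0 with hU
  have hcard : (Cl.card : ℝ) = kk m := by
    simp only [hCl, card_product, card_univ, Fintype.card_bool, card_powerset, card_range, kk]
    push_cast
    ring
  set y' : (Bool × Finset ℕ × Bool × Bool) → ℤ → ℝ :=
    fun cl u => if some (cl, u) ∈ s then y (some (cl, u)) else 0 with hy'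
  have h1 : ∀ o, ∑ l ∈ s, y l * X.phiL c0 l o =
      ∑ cl ∈ Cl, ∑ u ∈ U, y' cl u * X.feat cl.2.2.1 cl.2.1 c0 cl.2.2.2 u o := by
    intro o
    rw [← Finset.sum_product' (s := Cl) (t := U)
      (f := fun cl u => y' cl u * X.feat cl.2.2.1 cl.2.1 c0 cl.2.2.2 u o)]
    have := rep2_sum_some s (Cl ×ˢ U) (fun l => y l * X.phiL c0 l o)
    rw [← Finset.filter_mem_eq_inter, Finset.sum_filter_of_ne] at this
    · rw [← this]
      refine Finset.sum_congr rfl fun p hp => ?_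
      have hP : p.1.2.1 ⊆ range m := by
        simp only [hCl, mem_product, mem_univ, mem_powerset, true_and, and_true] at hp
        exact hp.1
      simp only [hy', phiL, if_pos hP]
      split_ifs <;> simp
    · intro l hl hne
      cases l with
      | none => simp [phiL] at hne
      | some t =>
        refine mem_image_of_mem _ (mem_product.2 ⟨?_, ?_⟩)
        · simp only [hCl, mem_product, mem_univ, mem_powerset, true_and, and_true]
          by_contra hP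
          simp [phiL, hP] at hne
        · exact mem_image.2 ⟨some t, hl, by simp⟩
  have h2 : ∑ cl ∈ Cl, ∑ u ∈ U, kk m * (W.w cl.2.2.1 c0 cl.2.2.2 u * y' cl u ^ 2) ≤
      ∑ l ∈ s, X.wL W c0 l * y l ^ 2 := by
    rw [← Finset.sum_product' (s := Cl) (t := U)
      (f := fun cl u => kk m * (W.w cl.2.2.1 c0 cl.2.2.2 u * y' cl u ^ 2))]
    have := rep2_sum_some s (Cl ×ˢ U) (fun l => X.wL W c0 l * y l ^ 2)
    refine le_trans (le_of_eq ?_) (this.le.trans ?_)
    · refine Finset.sum_congr rfl fun p _ => ?_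
      simp only [hy', wL]
      split_ifs
      · ring
      · simp
    · exact Finset.sum_le_sum_of_subset_of_nonneg inter_subset_left fun l _ _ =>
        mul_nonneg (X.wL_nonneg W c0 l) (sq_nonneg _)
  refine le_trans ?_ h2
  calc ∑ o, X.ν c0 o * (∑ l ∈ s, y l * X.phiL c0 l o) ^ 2
      ≤ ∑ o, X.ν c0 o * (kk m * ∑ cl ∈ Cl,
          (∑ u ∈ U, y' cl u * X.feat cl.2.2.1 cl.2.1 c0 cl.2.2.2 u o) ^ 2) := by
        refine Finset.sum_le_sum fun o _ => mul_le_mul_of_nonneg_left ?_ (X.ν_nonneg _ _)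
        rw [h1, ← hcard]
        exact sq_sum_le_card_mul_sum_sq
    _ = ∑ cl ∈ Cl, kk m * ∑ o, X.ν c0 o *
          (∑ u ∈ U, y' cl u * X.feat cl.2.2.1 cl.2.1 c0 cl.2.2.2 u o) ^ 2 := by
        simp only [Finset.mul_sum]
        rw [Finset.sum_comm]
        refine Finset.sum_congr rfl fun cl _ => Finset.sum_congr rfl fun o _ => by ring
    _ ≤ _ := by
        refine Finset.sum_le_sum fun cl hcl => ?_
        rw [← Finset.mul_sum]
        refine mul_le_mul_of_nonneg_left ?_ (kk_pos m).le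
        have hP : cl.2.1 ⊆ range m := by
          simp only [hCl, mem_product, mem_univ, mem_powerset, true_and, and_true] at hcl
          exact hcl
        exact W.dom _ _ hP c0 _ U _

/-- Cluster products as step products. -/
lemma clF_prod {M s K R : ℕ} (hM : 2 ≤ M) (hs : s ≤ 2 * X.a + 1) (sp : ℕ → Spec)
    (hsp : ∀ i, SpecOK m (sp i)) (i1 : ℕ) {c : ℕ → Ctx X.a} {ξ : ℕ → Bool} {ℓ : Lab X.a}
    (h : End s (K * LL X.a M) c ξ R ℓ) (o : ℕ → X.Tok) :
    ∏ i ∈ range K, X.clF M s (sp i) i c ξ o =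
      ∏ r ∈ range R, (alOf M s K c sp ξ r + X.phiL (c r) (labOf M s K c sp i1 ξ r) (o r)) := by
  rw [prod_slots X.a_pos hM hs h]
  · refine Finset.prod_congr rfl fun i hi => ?_
    have h0 := slotAt_eq X.a_pos hM hs c ξ i (mem_range.1 hi) false
    have h1 := slotAt_eq X.a_pos hM hs c ξ i (mem_range.1 hi) true
    simp only [Bool.toNat_false, add_zero, Bool.toNat_true] at h0 h1
    simp only [clF, slotF, alOf, labOf, h0, h1, Option.map_some, phiL, slOf, if_true,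
      Bool.false_eq_true, if_false, if_pos (hsp i).1, if_pos (hsp i).2]
  · intro r _ hr
    simp [alOf, labOf, slotAt_none hr, phiL]

/-- The two-replica kernel. -/
noncomputable def kern {ΩA sA Ω2 : ℝ} (W : X.Wts ΩA sA Ω2) (M s K R : ℕ) (c : ℕ → Ctx X.a)
    (sp : ℕ → Spec) (i1 : ℕ) (ξ : ℕ → Bool) (sp' : ℕ → Spec) (i1' : ℕ) (ξ' : ℕ → Bool) : ℝ :=
  ∏ r ∈ range R, (alOf M s K c sp ξ r * alOf M s K c sp' ξ' r +
    ind (labOf M s K c sp i1 ξ r = labOf M s K c sp' i1' ξ' r) * X.wL W (c r) (labOf M s K c sp i1 ξ r))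

lemma kern_nonneg {ΩA sA Ω2 : ℝ} (W : X.Wts ΩA sA Ω2) (M s K R : ℕ) (c : ℕ → Ctx X.a)
    (sp : ℕ → Spec) (i1 : ℕ) (ξ : ℕ → Bool) (sp' : ℕ → Spec) (i1' : ℕ) (ξ' : ℕ → Bool) :
    0 ≤ X.kern W M s K R c sp i1 ξ sp' i1' ξ' :=
  Finset.prod_nonneg fun _ _ => add_nonneg (mul_nonneg (alOf_nonneg ..) (alOf_nonneg ..))
    (mul_nonneg (ind_nonneg _) (X.wL_nonneg W _ _))

lemma kern_symm {ΩA sA Ω2 : ℝ} (W : X.Wts ΩA sA Ω2) (M s K R : ℕ) (c : ℕ → Ctx X.a)
    (sp : ℕ → Spec) (i1 : ℕ) (ξ : ℕ → Bool) (sp' : ℕ → Spec) (i1' : ℕ) (ξ' : ℕ → Bool) :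
    X.kern W M s K R c sp i1 ξ sp' i1' ξ' = X.kern W M s K R c sp' i1' ξ' sp i1 ξ := by
  refine Finset.prod_congr rfl fun r _ => ?_
  by_cases h : labOf M s K c sp i1 ξ r = labOf M s K c sp' i1' ξ' r
  · rw [ind_true h, ind_true h.symm, h, mul_comm (alOf M s K c sp ξ r)]
  · rw [ind_false h, ind_false (Ne.symm h), mul_comm (alOf M s K c sp ξ r)]
    simp

/-- Equal labels at a slot: the second path has a slot at the same step, with the same bit and offset. -/
lemma lab_eq {M s K : ℕ} (hM : 2 ≤ M) (hs : s ≤ 2 * X.a + 1) {c : ℕ → Ctx X.a} {sp sp' : ℕ → Spec}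
    {i1 i1' : ℕ} {ξ ξ' : ℕ → Bool} {i : ℕ} (hi : i < K) (b : Bool)
    (h : labOf M s K c sp i1 ξ (r0 s c ξ (zz X.a M i) + b.toNat) =
      labOf M s K c sp' i1' ξ' (r0 s c ξ (zz X.a M i) + b.toNat)) :
    ∃ i', (i = i1 → i' = i1') ∧
      ξ (r0 s c ξ (zz X.a M i) + b.toNat) = ξ' (r0 s c ξ (zz X.a M i) + b.toNat) ∧
      (zz X.a M i : ℤ) - pos s c ξ (r0 s c ξ (zz X.a M i) + b.toNat) =
        (zz X.a M i' : ℤ) - pos s c ξ' (r0 s c ξ (zz X.a M i) + b.toNat) := by
  have h0 := slotAt_eq X.a_pos hM hs c ξ i hi b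
  unfold labOf at h
  rw [h0] at h
  cases h' : slotAt M s K c ξ' (r0 s c ξ (zz X.a M i) + b.toNat) with
  | none => simp [h'] at h
  | some p =>
    simp only [h', Option.map_some, Option.some.injEq, Prod.mk.injEq] at h
    refine ⟨p.1, fun e => ?_, h.1.2.2.2, h.2⟩
    have := h.1.1
    simpa [e] using this

lemma kern_le {ΩA sA Ω2 : ℝ} (W : X.Wts ΩA sA Ω2) {M s K R : ℕ} (hM : 2 ≤ M)
    (hs : s ≤ 2 * X.a + 1) {c : ℕ → Ctx X.a} (sp : ℕ → Spec) (i1 : ℕ) {ξ : ℕ → Bool}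
    (sp' : ℕ → Spec) (i1' : ℕ) (ξ' : ℕ → Bool) {ℓ : Lab X.a} (h : End s (K * LL X.a M) c ξ R ℓ) :
    X.kern W M s K R c sp i1 ξ sp' i1' ξ' ≤
      ∏ i ∈ range K, (alpha (sp i) + atZ (X.Yw W (sp i)) s (zz X.a M i) c ξ *
        ind (pos s c ξ' (r0 s c ξ (zz X.a M i) + 1) ≡
          pos s c ξ (r0 s c ξ (zz X.a M i) + 1) [MOD LL X.a M])) := by
  have hk : X.kern W M s K R c sp i1 ξ sp' i1' ξ' ≤ ∏ r ∈ range R, (alOf M s K c sp ξ r +
      ind (labOf M s K c sp i1 ξ r = labOf M s K c sp' i1' ξ' r) *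
        X.wL W (c r) (labOf M s K c sp i1 ξ r)) := by
    refine Finset.prod_le_prod (fun r _ => add_nonneg (mul_nonneg (alOf_nonneg ..) (alOf_nonneg ..))
      (mul_nonneg (ind_nonneg _) (X.wL_nonneg W _ _))) fun r _ => ?_
    have := mul_le_of_le_one_right (alOf_nonneg M s K c sp ξ r) (alOf_le_one M s K c sp' ξ' r)
    linarith
  refine hk.trans ?_
  rw [prod_slots X.a_pos hM hs h]
  swap
  · intro r _ hr
    simp [alOf, labOf, slotAt_none hr, wL]
  refine Finset.prod_le_prod (fun i _ => mul_nonneg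
    (add_nonneg (alOf_nonneg ..) (mul_nonneg (ind_nonneg _) (X.wL_nonneg W _ _)))
    (add_nonneg (alOf_nonneg ..) (mul_nonneg (ind_nonneg _) (X.wL_nonneg W _ _)))) fun i hi => ?_
  have hi' := mem_range.1 hi
  have h0 := slotAt_eq X.a_pos hM hs c ξ i hi' false
  have h1 := slotAt_eq X.a_pos hM hs c ξ i hi' true
  have e0 := fun hh => X.lab_eq hM hs (sp := sp) (sp' := sp') (i1 := i1) (i1' := i1') (c := c) (ξ := ξ)
    (ξ' := ξ') hi' false hh
  have e1 := fun hh => X.lab_eq hM hs (sp := sp) (sp' := sp') (i1 := i1) (i1' := i1') (c := c) (ξ := ξ)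
    (ξ' := ξ') hi' true hh
  simp only [Bool.toNat_false, add_zero, Bool.toNat_true] at h0 h1 e0 e1
  have hz : s ≤ zz X.a M i := by
    unfold zz HH
    have : (2 * X.a + 1) * 1 ≤ (2 * X.a + 1) * M := Nat.mul_le_mul_left _ (by omega)
    omega
  have hp := (r0_spec X.a_pos hz c ξ).1
  set r := r0 s c ξ (zz X.a M i) with hr
  set χ := ind (pos s c ξ' (r + 1) ≡ pos s c ξ (r + 1) [MOD LL X.a M]) with hχ
  have c0 : ind (labOf M s K c sp i1 ξ r = labOf M s K c sp' i1' ξ' r) ≤ χ := by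
    refine ind_mono fun hh => ?_
    obtain ⟨i', -, h2, h3⟩ := e0 hh
    rw [pos_succ, pos_succ, ← h2]
    exact modEq_of_offset h3
  have c1 : ind (labOf M s K c sp i1 ξ (r + 1) = labOf M s K c sp' i1' ξ' (r + 1)) ≤ χ := by
    refine ind_mono fun hh => ?_
    obtain ⟨i', -, -, h3⟩ := e1 hh
    simpa using modEq_of_offset (k := 0) h3
  have u0 : (zz X.a M i : ℤ) - pos s c ξ r = ((zz X.a M i - pos s c ξ r : ℕ) : ℤ) := by
    push_cast [hp]; ring
  have u1 : (zz X.a M i : ℤ) - pos s c ξ (r + 1) =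
      ((zz X.a M i - pos s c ξ r : ℕ) : ℤ) - stp (c r) (ξ r) := by
    rw [pos_succ]; push_cast [hp]; ring
  have w0 : X.wL W (c r) (labOf M s K c sp i1 ξ r) =
      kk m * W.w (sp i).1.e (c r) (ξ r) ((zz X.a M i - pos s c ξ r : ℕ) : ℤ) := by
    simp only [labOf, h0, Option.map_some, wL, slOf, Bool.false_eq_true, if_false, u0]
  have w1 : X.wL W (c (r + 1)) (labOf M s K c sp i1 ξ (r + 1)) =
      kk m * W.w (sp i).2.e (c (r + 1)) (ξ (r + 1))
        (((zz X.a M i - pos s c ξ r : ℕ) : ℤ) - stp (c r) (ξ r)) := by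
    simp only [labOf, h1, Option.map_some, wL, slOf, if_true, u1]
  have a0 : alOf M s K c sp ξ r = alB (sp i).1.al := by
    simp only [alOf, h0, slOf, Bool.false_eq_true, if_false]
  have a1 : alOf M s K c sp ξ (r + 1) = alB (sp i).2.al := by
    simp only [alOf, h1, slOf, if_true]
  rw [w0, w1, a0, a1]
  simp only [alpha, atZ, Yw, ← hr]
  set V0 := kk m * W.w (sp i).1.e (c r) (ξ r) ((zz X.a M i - pos s c ξ r : ℕ) : ℤ)
  set V1 := kk m * W.w (sp i).2.e (c (r + 1)) (ξ (r + 1))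
    (((zz X.a M i - pos s c ξ r : ℕ) : ℤ) - stp (c r) (ξ r))
  have hV0 : 0 ≤ V0 := mul_nonneg (kk_pos m).le (W.nonneg _ _ _ _)
  have hV1 : 0 ≤ V1 := mul_nonneg (kk_pos m).le (W.nonneg _ _ _ _)
  have hχ0 : 0 ≤ χ := ind_nonneg _
  have hχ1 : χ ≤ 1 := ind_le_one _
  have hA0 := alB_nonneg (sp i).1.al
  have hA1 := alB_nonneg (sp i).2.al
  calc _ ≤ (alB (sp i).1.al + χ * V0) * (alB (sp i).2.al + χ * V1) := by
        refine mul_le_mul ?_ ?_ (add_nonneg hA1 (mul_nonneg (ind_nonneg _) hV1))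
          (add_nonneg hA0 (mul_nonneg hχ0 hV0))
        · have := mul_le_mul_of_nonneg_right c0 hV0
          linarith
        · have := mul_le_mul_of_nonneg_right c1 hV1
          linarith
    _ ≤ _ := by
        have : χ * χ * (V0 * V1) ≤ χ * (V0 * V1) :=
          mul_le_mul_of_nonneg_right (mul_le_of_le_one_right hχ0 hχ1) (mul_nonneg hV0 hV1)
        nlinarith

/-- At a forced slot the second index is determined by the second path. -/
lemma kern_eq_zero {ΩA sA Ω2 : ℝ} (W : X.Wts ΩA sA Ω2) {M s K R : ℕ} (hM : 2 ≤ M)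
    (hs : s ≤ 2 * X.a + 1) {c : ℕ → Ctx X.a} (sp : ℕ → Spec) (i1 : ℕ) (hi : i1 < K)
    (hal : alpha (sp i1) = 0) {ξ : ℕ → Bool} (ξ' : ℕ → Bool) {ℓ : Lab X.a}
    (h : End s (K * LL X.a M) c ξ R ℓ) : ∃ v : ℤ, ∀ (sp' : ℕ → Spec) (i1' : ℕ),
      (zz X.a M i1' : ℤ) ≠ v → X.kern W M s K R c sp i1 ξ sp' i1' ξ' = 0 := by
  obtain ⟨b, hb⟩ : ∃ b : Bool, alB (slOf (sp i1) b).al = 0 := by
    rcases mul_eq_zero.1 hal with h0 | h0
    · exact ⟨false, by simpa [slOf] using h0⟩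
    · exact ⟨true, by simpa [slOf] using h0⟩
  set r := r0 s c ξ (zz X.a M i1) + b.toNat with hr
  refine ⟨(zz X.a M i1 : ℤ) - pos s c ξ r + pos s c ξ' r, fun sp' i1' hne => ?_⟩
  have hrR : r < R := by
    have h1 := r0_last X.a_pos (by omega : 1 ≤ M) hs hi h
    have h2 : 2 * M * 1 ≤ 2 * M * (K - i1) := Nat.mul_le_mul_left _ (by omega)
    have h3 : b.toNat ≤ 1 := Bool.toNat_le b
    omega
  refine Finset.prod_eq_zero (mem_range.2 hrR) ?_
  have h0 := slotAt_eq X.a_pos hM hs c ξ i1 hi b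
  have a0 : alOf M s K c sp ξ r = 0 := by
    simp only [alOf, hr, h0, hb]
  rw [a0, ind_false]
  · simp
  · intro hh
    obtain ⟨i', h1, -, h3⟩ := X.lab_eq hM hs hi b hh
    rw [h1 rfl] at h3
    exact hne (by rw [hr]; linarith)

/-- Apply `schur` with `Xs = sJ × (Fin R → Bool)`, `h (j, v) = x j * weight v * ind (End (ext v))`, and labels in
`Option (Bool × Finset ℕ × Bool × Bool × ℤ)`: if step `r` is the slot `r0 i + b` (`i < K`, `b ≤ 1`) of the path, the label is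
`some (decide (i = i1 j), P, e, ξ r, zz i - pos r)` with `P`, `e` from the slot of `sp j i`, and `α = alB al`; otherwise the label is
`none` with `φ = 0`, `w = 0`, `α = 1` (for paths without `End` anything goes since `h = 0`).
`φ r (some (tag,P,e,ξ,u)) = feat e P (c r) ξ u` and `w r (..) = kk m * W.w e (c r) ξ u` if `P ⊆ range m` (else both `0`);
`hdom` is `W.dom` on each of the `kk m = 8 * 2 ^ m` classes `(tag,P,e,ξ)` and Cauchy-Schwarz.
`prod_slots` turns cluster products into step products and back.  Then `x j * x j' ≤ (x j ^ 2 + x j' ^ 2) / 2`, the kernel is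
symmetric and nonnegative; equal labels at slot `r0 i` or `r0 i + 1` force the two walks to agree mod `LL` at time `r0 i + 1`;
and at a slot of cluster `i1 j` with `al = false` equal labels force `zz (i1 j') = pos' r + u`, so at most one `j'`
contributes for each second path. -/
theorem rep2 {ΩA sA Ω2 : ℝ} (W : X.Wts ΩA sA Ω2) {M s : ℕ} (K : ℕ) (hM : 2 ≤ M)
    (hs : s ≤ 2 * X.a + 1) {J : Type} (sJ : Finset J) (x : J → ℝ) (sp : J → ℕ → Spec)
    (hsp : ∀ j i, SpecOK m (sp j i)) (i1 : J → ℕ) (hi : ∀ j ∈ sJ, i1 j < K)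
    (hinj : Set.InjOn i1 sJ) (hal : ∀ j ∈ sJ, alpha (sp j (i1 j)) = 0)
    (c : ℕ → Ctx X.a) (R : ℕ) (ℓ : Lab X.a) :
    EX (fun r => X.ν (c r)) R (fun o => (∑ j ∈ sJ, x j * X.Tm M s K (sp j) c o R ℓ) ^ 2) ≤
      ∑ j ∈ sJ, x j ^ 2 * QX c R fun ξ => ind (End s (K * LL X.a M) c ξ R ℓ) *
        QX c R fun ξ' => ind (End s (K * LL X.a M) c ξ' R ℓ) *
          ∏ i ∈ range K, (alpha (sp j i) + atZ (X.Yw W (sp j i)) s (zz X.a M i) c ξ *
            ind (pos s c ξ' (r0 s c ξ (zz X.a M i) + 1) ≡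
              pos s c ξ (r0 s c ξ (zz X.a M i) + 1) [MOD LL X.a M])) := by
  classical
  obtain ⟨wt, hwt⟩ : ∃ wt : (Fin R → Bool) → ℝ, ∀ v, wt v = (∏ r : Fin R, pr (1 / 2) (c r) (v r)) *
    ind (End s (K * LL X.a M) c (ext v) R ℓ) := ⟨_, fun _ => rfl⟩
  have hwt0 : ∀ v, 0 ≤ wt v := fun v => hwt v ▸ mul_nonneg
    (Finset.prod_nonneg fun r _ => pr_nonneg (by norm_num) (by norm_num) _ _) (ind_nonneg _)
  have hQ : ∀ F : (ℕ → Bool) → ℝ, QX c R (fun ξ => ind (End s (K * LL X.a M) c ξ R ℓ) * F ξ) =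
      ∑ v, wt v * F (ext v) := by
    intro F
    simp only [QX, EX, hwt, mul_assoc]
  have hS := schur (Xs := sJ × (Fin R → Bool)) R (fun r => X.ν (c r)) (fun r => X.ν_nonneg _)
    (fun r => X.ν_sum _) (fun r => X.phiL (c r)) (fun r => X.wL W (c r)) (fun r => X.wL_nonneg W _)
    (fun r => X.phiL_mean _) (fun r => X.phiL_dom W _)
    (fun r p => alOf M s K c (sp p.1) (ext p.2) r) (fun r p => labOf M s K c (sp p.1) (i1 p.1) (ext p.2) r)
    (fun p => x p.1 * wt p.2)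
  have e1 : ∀ o : ℕ → X.Tok, ∑ j ∈ sJ, x j * X.Tm M s K (sp j) c o R ℓ =
      ∑ p : sJ × (Fin R → Bool), x p.1 * wt p.2 * ∏ r ∈ range R,
        (alOf M s K c (sp p.1) (ext p.2) r +
          X.phiL (c r) (labOf M s K c (sp p.1) (i1 p.1) (ext p.2) r) (o r)) := by
    intro o
    rw [Fintype.sum_prod_type, ← Finset.sum_coe_sort sJ]
    refine Finset.sum_congr rfl fun j _ => ?_
    unfold Tm
    rw [hQ, Finset.mul_sum]
    refine Finset.sum_congr rfl fun v _ => ?_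
    by_cases hE : End s (K * LL X.a M) c (ext v) R ℓ
    · rw [X.clF_prod hM hs (sp j) (hsp j) (i1 j) hE, mul_assoc]
    · simp [hwt, ind_false hE]
  simp only [e1]
  refine hS.trans ?_
  set k : sJ × (Fin R → Bool) → sJ × (Fin R → Bool) → ℝ := fun p p' =>
    wt p.2 * wt p'.2 * X.kern W M s K R c (sp p.1) (i1 p.1) (ext p.2) (sp p'.1) (i1 p'.1) (ext p'.2)
    with hk
  have hk0 : ∀ p p', 0 ≤ k p p' := fun p p' =>
    mul_nonneg (mul_nonneg (hwt0 _) (hwt0 _)) (X.kern_nonneg ..)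
  have hks : ∀ p p', k p p' = k p' p := fun p p' => by
    simp only [hk]
    rw [X.kern_symm, mul_comm (wt p.2)]
  calc _ = ∑ p, ∑ p', x p.1 * x p'.1 * k p p' := by
        refine Finset.sum_congr rfl fun p _ => Finset.sum_congr rfl fun p' _ => ?_
        simp only [hk, kern]
        ring
    _ ≤ ∑ p, ∑ p', (x p.1 ^ 2 * k p p' / 2 + x p'.1 ^ 2 * k p' p / 2) := by
        refine Finset.sum_le_sum fun p _ => Finset.sum_le_sum fun p' _ => ?_
        rw [hks p' p]
        nlinarith [mul_nonneg (sq_nonneg (x p.1 - x p'.1)) (hk0 p p')]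
    _ = ∑ p, ∑ p', x p.1 ^ 2 * k p p' := by
        simp only [Finset.sum_add_distrib]
        rw [Finset.sum_comm (f := fun (p p' : sJ × (Fin R → Bool)) => x p'.1 ^ 2 * k p' p / 2)]
        rw [← Finset.sum_add_distrib]
        refine Finset.sum_congr rfl fun p _ => ?_
        rw [← Finset.sum_add_distrib]
        exact Finset.sum_congr rfl fun p' _ => by ring
    _ ≤ _ := by
        rw [Fintype.sum_prod_type, ← Finset.sum_coe_sort sJ]
        refine Finset.sum_le_sum fun j _ => ?_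
        rw [hQ, Finset.mul_sum]
        refine Finset.sum_le_sum fun v _ => ?_
        rw [← Finset.mul_sum]
        refine mul_le_mul_of_nonneg_left ?_ (sq_nonneg _)
        rw [hQ, Fintype.sum_prod_type_right, Finset.mul_sum]
        refine Finset.sum_le_sum fun v' _ => ?_
        by_cases hE : End s (K * LL X.a M) c (ext v) R ℓ
        swap
        · simp [hk, hwt, ind_false hE]
        simp only [hk]
        rw [← Finset.mul_sum, ← mul_assoc]
        refine mul_le_mul_of_nonneg_left ?_ (mul_nonneg (hwt0 _) (hwt0 _))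
        obtain ⟨v0, hv0⟩ := X.kern_eq_zero W hM hs (sp j) (i1 j) (hi j j.2) (hal j j.2) (ext v') hE
        by_cases hex : ∃ j' : sJ, (zz X.a M (i1 j') : ℤ) = v0
        · obtain ⟨j', hj'⟩ := hex
          rw [Finset.sum_eq_single j']
          · exact X.kern_le W hM hs _ _ _ _ _ hE
          · intro j'' _ hne
            refine hv0 _ _ fun h => hne ?_
            have h2 : zz X.a M (i1 j'') = zz X.a M (i1 j') := by exact_mod_cast h.trans hj'.symm
            exact Subtype.ext (hinj j''.2 j'.2 (zz_inj (by omega) h2))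
          · simp
        · push Not at hex
          rw [Finset.sum_eq_zero fun j' _ => hv0 _ _ (hex j')]
          exact (X.kern_nonneg W M s K R c (sp j) (i1 j) (ext v) (sp j) (i1 j) (ext v')).trans
            (X.kern_le W hM hs _ _ _ _ _ hE)


end Model

end Pool.Agent.Lib.MP_343fe0_pr
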