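import Pool.Agent.Lib.MP_343fe0_pr.Law

set_option autoImplicit false

/-! Segments: elementary properties of `Zf` and `Tot`. -/

namespace Pool.Agent.Lib.MP_343fe0_pr

open Finset

namespace Model

variable {m : ℕ} (X : Model m)

lemma seg_kap (c : Ctx X.a) : 0 ≤ kap X.β c :=
  kap_nonneg X.β_pos.le (X.β_le.trans (by norm_num)) c

lemma Zf_nonneg (τ : ℕ → Bool) (s E : ℕ) (c : ℕ → Ctx X.a) (o : ℕ → X.Tok) (R : ℕ) (ℓ : Lab X.a) :
    0 ≤ X.Zf τ s E c o R ℓ := by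
  unfold Zf QX
  refine EX_nonneg (fun r θ => pr_nonneg (by norm_num) (by norm_num) _ _) R fun ξ => ?_
  refine mul_nonneg (ind_nonneg _) (prod_nonneg fun r _ => ?_)
  have := X.D_ge (c r) (ξ r) (dset τ (pos s c ξ r) (stp (c r) (ξ r))) (o r)
  linarith

lemma Zf_false (s E : ℕ) (c : ℕ → Ctx X.a) (o : ℕ → X.Tok) (R : ℕ) (ℓ : Lab X.a) :
    X.Zf (fun _ => false) s E c o R ℓ = gg s E c R ℓ := by
  unfold Zf gg
  congr 1
  funext ξ
  have : ∀ p k, dset (fun _ => false) p k = ∅ := by intro p k; simp [dset]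
  simp [this, X.D_empty]

lemma Zf_of_gg (τ : ℕ → Bool) {s E : ℕ} {c : ℕ → Ctx X.a} (o : ℕ → X.Tok) {R : ℕ} {ℓ : Lab X.a}
    (h : gg s E c R ℓ = 0) : X.Zf τ s E c o R ℓ = 0 := by
  unfold gg QX EX at h
  unfold Zf QX EX
  rw [sum_eq_zero_iff_of_nonneg fun v _ => mul_nonneg
    (prod_nonneg fun r _ => pr_nonneg (by norm_num) (by norm_num) _ _) (ind_nonneg _)] at h
  refine sum_eq_zero fun v hv => ?_
  rw [← mul_assoc, h v hv, zero_mul]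

lemma Zf_congr (τ : ℕ → Bool) (s E : ℕ) {c c' : ℕ → Ctx X.a} {o o' : ℕ → X.Tok} {R : ℕ}
    (ℓ : Lab X.a) (hc : ∀ r < R, c r = c' r) (ho : ∀ r < R, o r = o' r) :
    X.Zf τ s E c o R ℓ = X.Zf τ s E c' o' R ℓ := by
  unfold Zf QX
  rw [EX_congr_wt (π' := fun r => pr (1 / 2) (c' r)) (fun r hr => by rw [hc r hr])]
  congr 1
  funext ξ
  congr 1
  · exact ind_congr ⟨End.congr hc fun _ _ => rfl,
      End.congr (fun r hr => (hc r hr).symm) fun _ _ => rfl⟩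
  · refine prod_congr rfl fun r hr => ?_
    have hr' := mem_range.mp hr
    rw [pos_congr s (c := c) (c' := c') (ξ := ξ) (ξ' := ξ) (r := r)
      (fun i hi => hc i (hi.trans hr')) (fun _ _ => rfl), hc r hr', ho r hr']

lemma Zf_shift (τ : ℕ → Bool) (d s E : ℕ) (c : ℕ → Ctx X.a) (o : ℕ → X.Tok) (R : ℕ) (ℓ : Lab X.a) :
    X.Zf τ (d + s) (d + E) c o R ℓ = X.Zf (sh d τ) s E c o R ℓ := by
  unfold Zf
  congr 1
  funext ξ
  rw [ind_congr (End_shift d s E R c ξ ℓ)]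
  congr 1
  refine prod_congr rfl fun r _ => ?_
  rw [pos_shift, dset_sh]

lemma Zf_local {τ τ' : ℕ → Bool} {s E : ℕ} (h : ∀ j, s ≤ j → j < E + 2 * X.a → τ j = τ' j)
    (c : ℕ → Ctx X.a) (o : ℕ → X.Tok) (R : ℕ) (ℓ : Lab X.a) :
    X.Zf τ s E c o R ℓ = X.Zf τ' s E c o R ℓ := by
  unfold Zf
  congr 1
  funext ξ
  by_cases hE : End s E c ξ R ℓ
  · congr 1
    refine prod_congr rfl fun r hr => ?_
    have hr' := mem_range.mp hr
    have h1 := pos_ge s c ξ (Nat.zero_le r)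
    have h2 := pos_ge s c ξ (show r + 1 ≤ R from hr')
    have h3 := hE.2.1
    have h4 := ℓ.1.isLt
    rw [pos_zero] at h1
    rw [pos_succ] at h2
    have h5 : dset τ (pos s c ξ r) (stp (c r) (ξ r)) = dset τ' (pos s c ξ r) (stp (c r) (ξ r)) := by
      unfold dset
      refine filter_congr fun j hj => ?_
      have := mem_range.mp hj
      rw [h _ (by omega) (by omega)]
    rw [h5]
  · rw [ind_false hE, zero_mul, zero_mul]

lemma Zf_zero (τ : ℕ → Bool) (s E : ℕ) (c : ℕ → Ctx X.a) (o : ℕ → X.Tok) (ℓ : Lab X.a) :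
    X.Zf τ s E c o 0 ℓ = 0 := by
  unfold Zf QX
  rw [EX_zero, ind_false fun h => by simpa using End.one_le h, zero_mul]

lemma Zf_succ (τ : ℕ → Bool) {s E : ℕ} (hs : s < E) (c0 : Ctx X.a) (c : ℕ → Ctx X.a) (o0 : X.Tok)
    (o : ℕ → X.Tok) (R : ℕ) (ℓ : Lab X.a) :
    X.Zf τ s E (cns c0 c) (cns o0 o) (R + 1) ℓ =
      ∑ ξ0, pr (1 / 2) c0 ξ0 * (1 + X.D c0 ξ0 (dset τ s (stp c0 ξ0)) o0) *
        if E ≤ s + stp c0 ξ0 then ind (R = 0 ∧ s + stp c0 ξ0 = E + ℓ.1.val ∧ ξ0 = ℓ.2)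
        else X.Zf τ (s + stp c0 ξ0) E c o R ℓ := by
  rw [Zf, QX_succ]
  refine sum_congr rfl fun ξ0 _ => ?_
  rw [mul_assoc]
  congr 1
  have e : (fun ξ => ind (End s E (cns c0 c) (cns ξ0 ξ) (R + 1) ℓ) *
      ∏ r ∈ range (R + 1), (1 + X.D (cns c0 c r) (cns ξ0 ξ r)
        (dset τ (pos s (cns c0 c) (cns ξ0 ξ) r) (stp (cns c0 c r) (cns ξ0 ξ r))) (cns o0 o r))) =
      fun ξ => (1 + X.D c0 ξ0 (dset τ s (stp c0 ξ0)) o0) *
        (ind (if E ≤ s + stp c0 ξ0 then R = 0 ∧ s + stp c0 ξ0 = E + ℓ.1.val ∧ ξ0 = ℓ.2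
          else End (s + stp c0 ξ0) E c ξ R ℓ) *
        ∏ r ∈ range R, (1 + X.D (c r) (ξ r)
          (dset τ (pos (s + stp c0 ξ0) c ξ r) (stp (c r) (ξ r))) (o r))) := by
    funext ξ
    rw [ind_congr (End_cns hs X.a_pos c0 ξ0 c ξ R ℓ), prod_range_succ', pos_zero]
    simp only [pos_cns, cns]
    ring
  rw [e]
  unfold QX
  rw [EX_mul_left]
  congr 1
  split_ifs with h
  · by_cases h2 : R = 0 ∧ s + stp c0 ξ0 = E + ℓ.1.val ∧ ξ0 = ℓ.2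
    · have h3 := h2.1
      subst h3
      rw [EX_zero]; simp
    · rw [ind_false h2]
      simp only [zero_mul]
      exact EX_zero_fun _ _
  · rfl

/-- The tokens integrate out (`EX_comm`, `EX_prod`, `D_mean`). -/
lemma EX_Zf (τ : ℕ → Bool) (s E : ℕ) (c : ℕ → Ctx X.a) (R : ℕ) (ℓ : Lab X.a) :
    EX (fun r => X.ν (c r)) R (fun o => X.Zf τ s E c o R ℓ) = gg s E c R ℓ := by
  unfold Zf gg QX
  rw [EX_comm]
  congr 1
  funext ξ
  rw [EX_mul_left, EX_prod (fun r => X.ν (c r)) R fun r o =>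
    1 + X.D (c r) (ξ r) (dset τ (pos s c ξ r) (stp (c r) (ξ r))) o]
  rw [prod_eq_one, mul_one]
  intro r _
  simp only [mul_add, mul_one, sum_add_distrib, X.ν_sum, X.D_mean, add_zero]

lemma ZP_local {M s K : ℕ} (hM : 1 ≤ M) {P Q : ℕ → Finset ℕ} (h : ∀ i < K, P i = Q i)
    (c : ℕ → Ctx X.a) (o : ℕ → X.Tok) (R : ℕ) (ℓ : Lab X.a) :
    X.ZP M s K P c o R ℓ = X.ZP M s K Q c o R ℓ := by
  unfold ZP
  refine X.Zf_local (fun j _ hj => tauP_local h j ?_) c o R ℓ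
  have : 2 * X.a + 1 ≤ HH X.a M := by unfold HH; nlinarith
  omega

lemma ZP_empty (M s K : ℕ) (c : ℕ → Ctx X.a) (o : ℕ → X.Tok) (R : ℕ) (ℓ : Lab X.a) :
    X.ZP M s K (fun _ => ∅) c o R ℓ = gg s (K * LL X.a M) c R ℓ := by
  unfold ZP
  rw [tauP_empty, Zf_false]


variable (N : ℕ)

lemma Tot_mono {Ψ Φ : (ℕ → Ctx X.a) → (ℕ → X.Tok) → ℕ → Lab X.a → ℝ}
    (h : ∀ c o R ℓ, Ψ c o R ℓ ≤ Φ c o R ℓ) : X.Tot N Ψ ≤ X.Tot N Φ := by
  unfold Tot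
  refine sum_le_sum fun R _ => EX_mono (fun _ c => X.seg_kap c) R fun c => ?_
  exact EX_mono (fun r o => X.ν_nonneg _ o) R fun o => sum_le_sum fun ℓ _ => h c o R ℓ

lemma Tot_nonneg {Ψ : (ℕ → Ctx X.a) → (ℕ → X.Tok) → ℕ → Lab X.a → ℝ}
    (h : ∀ c o R ℓ, 0 ≤ Ψ c o R ℓ) : 0 ≤ X.Tot N Ψ := by
  unfold Tot
  refine sum_nonneg fun R _ => EX_nonneg (fun _ c => X.seg_kap c) R fun c => ?_
  exact EX_nonneg (fun r o => X.ν_nonneg _ o) R fun o => sum_nonneg fun ℓ _ => h c o R ℓ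

lemma Tot_plus (Ψ Φ : (ℕ → Ctx X.a) → (ℕ → X.Tok) → ℕ → Lab X.a → ℝ) :
    X.Tot N (fun c o R ℓ => Ψ c o R ℓ + Φ c o R ℓ) = X.Tot N Ψ + X.Tot N Φ := by
  unfold Tot
  simp only [sum_add_distrib, EX_plus]

lemma Tot_minus (Ψ Φ : (ℕ → Ctx X.a) → (ℕ → X.Tok) → ℕ → Lab X.a → ℝ) :
    X.Tot N (fun c o R ℓ => Ψ c o R ℓ - Φ c o R ℓ) = X.Tot N Ψ - X.Tot N Φ := by
  unfold Tot
  simp only [sum_sub_distrib, EX_minus]

lemma Tot_mul_left (t : ℝ) (Ψ : (ℕ → Ctx X.a) → (ℕ → X.Tok) → ℕ → Lab X.a → ℝ) :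
    X.Tot N (fun c o R ℓ => t * Ψ c o R ℓ) = t * X.Tot N Ψ := by
  unfold Tot
  simp only [← mul_sum, EX_mul_left]

lemma Tot_sum {ι : Type} (s : Finset ι) (Ψ : ι → (ℕ → Ctx X.a) → (ℕ → X.Tok) → ℕ → Lab X.a → ℝ) :
    X.Tot N (fun c o R ℓ => ∑ i ∈ s, Ψ i c o R ℓ) = ∑ i ∈ s, X.Tot N (Ψ i) := by
  unfold Tot
  rw [sum_comm (s := s)]
  refine sum_congr rfl fun R _ => ?_
  rw [← EX_sum]
  congr 1
  funext c
  rw [← EX_sum]
  congr 1
  funext o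
  exact sum_comm

lemma Tot_zero (Ψ : (ℕ → Ctx X.a) → (ℕ → X.Tok) → ℕ → Lab X.a → ℝ) :
    X.Tot 0 Ψ = ∑ ℓ, Ψ (fun _ => default) (fun _ => default) 0 ℓ := by
  unfold Tot
  rw [zero_add, sum_range_one, EX_zero, EX_zero]

lemma Tot_succ (Ψ : (ℕ → Ctx X.a) → (ℕ → X.Tok) → ℕ → Lab X.a → ℝ) :
    X.Tot (N + 1) Ψ = ∑ ℓ, Ψ (fun _ => default) (fun _ => default) 0 ℓ +
      ∑ c0, ∑ o0, kap X.β c0 * X.ν c0 o0 *
        X.Tot N fun c o R ℓ => Ψ (cns c0 c) (cns o0 o) (R + 1) ℓ := by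
  unfold Tot
  rw [sum_range_succ', add_comm, EX_zero, EX_zero]
  congr 1
  have key : ∀ R, (EX (fun _ => kap X.β) (R + 1) fun c =>
      EX (fun r => X.ν (c r)) (R + 1) fun o => ∑ ℓ : Lab X.a, Ψ c o (R + 1) ℓ) =
      ∑ c0, ∑ o0, kap X.β c0 * X.ν c0 o0 * EX (fun _ => kap X.β) R fun c =>
        EX (fun r => X.ν (c r)) R fun o => ∑ ℓ : Lab X.a, Ψ (cns c0 c) (cns o0 o) (R + 1) ℓ := by
    intro R
    rw [EX_succ]
    refine sum_congr rfl fun c0 _ => ?_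
    have e : (fun c : ℕ → Ctx X.a => EX (fun r => X.ν (cns c0 c r)) (R + 1) fun o =>
        ∑ ℓ : Lab X.a, Ψ (cns c0 c) o (R + 1) ℓ) =
        fun c => ∑ o0, X.ν c0 o0 * EX (fun r => X.ν (c r)) R fun o =>
          ∑ ℓ : Lab X.a, Ψ (cns c0 c) (cns o0 o) (R + 1) ℓ := by
      funext c
      rw [EX_succ]
      have e2 : sh 1 (fun r => X.ν (cns c0 c r)) = fun r => X.ν (c r) := by
        funext r
        simp only [sh]
        rw [add_comm 1 r]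
        rfl
      rw [e2]
      rfl
    rw [e, EX_sum, mul_sum]
    refine sum_congr rfl fun o0 _ => ?_
    rw [EX_mul_left, mul_assoc]
    rfl
  rw [sum_congr rfl fun R _ => key R, sum_comm]
  refine sum_congr rfl fun c0 _ => ?_
  rw [sum_comm]
  refine sum_congr rfl fun o0 _ => ?_
  rw [mul_sum]

/-- A functional of contexts and hidden bits only. -/
lemma Tot_QX (Ψ : (ℕ → Ctx X.a) → (ℕ → Bool) → ℕ → Lab X.a → ℝ) :
    X.Tot N (fun c _ R ℓ => QX c R fun ξ => Ψ c ξ R ℓ) =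
      ∑ R ∈ range (N + 1), AX X.β R fun c ξ => ∑ ℓ, Ψ c ξ R ℓ := by
  unfold Tot AX
  refine sum_congr rfl fun R _ => ?_
  congr 1
  funext c
  rw [EX_const fun r => X.ν_sum (c r)]
  unfold QX
  rw [EX_sum]

/-- The law of contexts, length and label does not depend on the defects. -/
lemma Tot_marginal (τ : ℕ → Bool) (s E : ℕ) (A : (ℕ → Ctx X.a) → ℕ → Lab X.a → ℝ) :
    X.Tot N (fun c o R ℓ => A c R ℓ * X.Zf τ s E c o R ℓ) =
      X.Tot N fun c _ R ℓ => A c R ℓ * gg s E c R ℓ := by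
  unfold Tot
  refine sum_congr rfl fun R _ => ?_
  congr 1
  funext c
  rw [EX_const fun r => X.ν_sum (c r), EX_sum]
  refine sum_congr rfl fun ℓ _ => ?_
  rw [EX_mul_left, EX_Zf]

lemma Tot_gg_le (s E : ℕ) : X.Tot N (fun c _ R ℓ => gg s E c R ℓ) ≤ 1 := by
  unfold gg
  rw [X.Tot_QX N fun c ξ R ℓ => ind (End s E c ξ R ℓ)]
  have h := stop_le X.a_pos X.β_pos.le (X.β_le.trans (by norm_num)) s E N (fun _ _ => 1)
    (fun _ _ => zero_le_one) fun _ _ _ _ _ _ _ _ => rfl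
  rw [AX_const] at h
  simpa using h

lemma Tot_gg_eq {s E : ℕ} (hs : s < E) (hN : E ≤ N) : X.Tot N (fun c _ R ℓ => gg s E c R ℓ) = 1 := by
  unfold gg
  rw [X.Tot_QX N fun c ξ R ℓ => ind (End s E c ξ R ℓ)]
  have h1 : ∀ R ∈ range (N + 1), (AX X.β R fun c ξ => ∑ ℓ : Lab X.a, ind (End s E c ξ R ℓ)) =
      AX X.β N fun c ξ => ∑ ℓ : Lab X.a, ind (End s E c ξ R ℓ) := by
    intro R hR
    refine (AX_dep X.β (Nat.lt_succ_iff.mp (mem_range.mp hR)) fun c c' ξ ξ' hc hξ => ?_).symm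
    exact sum_congr rfl fun ℓ _ => ind_congr ⟨End.congr hc hξ,
      End.congr (fun r hr => (hc r hr).symm) fun r hr => (hξ r hr).symm⟩
  rw [sum_congr rfl h1, ← AX_sum]
  simp only [sum_End_eq X.a_pos hs hN]
  exact AX_const _ _ _

lemma Tot_Zf_le (τ : ℕ → Bool) (s E : ℕ) : X.Tot N (X.Zf τ s E) ≤ 1 := by
  have h := X.Tot_marginal N τ s E fun _ _ _ => 1
  simp only [one_mul] at h
  exact h.le.trans (X.Tot_gg_le N s E)

lemma Tot_Zf_eq (τ : ℕ → Bool) {s E : ℕ} (hs : s < E) (hN : E ≤ N) : X.Tot N (X.Zf τ s E) = 1 := by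
  have h := X.Tot_marginal N τ s E fun _ _ _ => 1
  simp only [one_mul] at h
  exact h.trans (X.Tot_gg_eq N hs hN)

/-- A bound for each context, length and label. -/
lemma Tot_le_of_EX {Ψ : (ℕ → Ctx X.a) → (ℕ → X.Tok) → ℕ → Lab X.a → ℝ}
    {B : (ℕ → Ctx X.a) → ℕ → Lab X.a → ℝ}
    (h : ∀ c R ℓ, EX (fun r => X.ν (c r)) R (fun o => Ψ c o R ℓ) ≤ B c R ℓ) :
    X.Tot N Ψ ≤ X.Tot N fun c _ R ℓ => B c R ℓ := by
  unfold Tot
  refine sum_le_sum fun R _ => EX_mono (fun _ c => X.seg_kap c) R fun c => ?_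
  rw [EX_const fun r => X.ν_sum (c r), EX_sum]
  exact sum_le_sum fun ℓ _ => h c R ℓ

/-- A crude bound: at most `n + 1` lengths and `2 (2a+1)` labels contribute. -/
lemma Tot_le_count {Ψ : (ℕ → Ctx X.a) → (ℕ → X.Tok) → ℕ → Lab X.a → ℝ} (n : ℕ) (B : ℝ) (hB : 0 ≤ B)
    (h : ∀ c o R ℓ, Ψ c o R ℓ ≤ ind (R ≤ n) * B) :
    X.Tot N Ψ ≤ ((n : ℝ) + 1) * (2 * (2 * X.a + 1)) * B := by
  refine (X.Tot_mono N h).trans ?_
  unfold Tot
  have h1 : ∀ R, (EX (fun _ => kap X.β) R fun c : ℕ → Ctx X.a =>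
      EX (fun r => X.ν (c r)) R fun _ => ∑ _ℓ : Lab X.a, ind (R ≤ n) * B) =
      ind (R ≤ n) * ((2 * (2 * X.a + 1)) * B) := by
    intro R
    simp only [EX_const fun r => X.ν_sum _]
    rw [EX_const fun _ => kap_sum X.β, sum_const, card_univ, Fintype.card_prod, Fintype.card_fin,
      Fintype.card_bool, nsmul_eq_mul]
    push_cast; ring
  rw [sum_congr rfl fun R _ => h1 R, ← sum_mul, mul_assoc ((n : ℝ) + 1)]
  refine mul_le_mul_of_nonneg_right ?_ (by positivity)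
  calc ∑ R ∈ range (N + 1), ind (R ≤ n)
      = ∑ R ∈ (range (N + 1)).filter (· ≤ n), (1 : ℝ) := by
        rw [sum_filter]
        refine sum_congr rfl fun R _ => ?_
        split_ifs with hR
        · exact ind_true hR
        · exact ind_false hR
    _ ≤ ∑ R ∈ range (n + 1), (1 : ℝ) := by
        refine sum_le_sum_of_subset_of_nonneg (fun R hR => ?_) fun _ _ _ => zero_le_one
        exact mem_range.mpr (Nat.lt_succ_of_le (mem_filter.mp hR).2)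
    _ = _ := by simp


end Model

end Pool.Agent.Lib.MP_343fe0_pr
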