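import Pool.Agent.Lib.MP_343fe0_pr.Seg

set_option autoImplicit false

/-! Iteration of the simulation inequality. -/

namespace Pool.Agent.Lib.MP_343fe0_pr

open Finset

lemma sim_cat (U V : Wd) (τ : ℕ → Bool) {i j n : ℕ} (hij : i ≤ j) (hj : j ≤ n) :
    mu (word U V (sh i τ) (j - i)) * mu (word U V (sh j τ) (n - j)) =
      mu (word U V (sh i τ) (n - i)) := by
  have e : n - i = (j - i) + (n - j) := by omega
  have e2 : i + (j - i) = j := by omega
  rw [e, word_add, sh_sh, e2, map_mul]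

lemma sim_lab_le {a : ℕ} (p E : ℕ) (ξ0 : Bool) :
    ∑ ℓ : Lab a, ind (p = E + ℓ.1.val ∧ ξ0 = ℓ.2) ≤ 1 := by
  by_cases h : ∃ ℓ0 : Lab a, p = E + ℓ0.1.val ∧ ξ0 = ℓ0.2
  · obtain ⟨ℓ0, h1, h2⟩ := h
    rw [Finset.sum_eq_single ℓ0]
    · exact ind_le_one _
    · intro ℓ _ hne
      refine ind_false fun hℓ => hne (Prod.ext (Fin.ext ?_) ?_)
      · omega
      · rw [← hℓ.2, h2]
    · intro hn
      exact absurd (Finset.mem_univ _) hn
  · rw [Finset.sum_eq_zero fun ℓ _ => ind_false fun hℓ => h ⟨ℓ, hℓ⟩]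
    exact zero_le_one

namespace Model

variable {m : ℕ} (X : Model m)

lemma sim_outs_zero (c : ℕ → Ctx X.a) (o : ℕ → X.Tok) : X.outs c o 0 = 1 := by
  simp [outs]

lemma sim_outs_succ (c0 : Ctx X.a) (c : ℕ → Ctx X.a) (o0 : X.Tok) (o : ℕ → X.Tok) (R : ℕ) :
    X.outs (cns c0 c) (cns o0 o) (R + 1) = X.out c0 o0 * X.outs c o R := by
  unfold outs
  rw [List.range_succ_eq_map, List.map_cons, List.prod_cons, List.map_map]
  rfl

lemma sim_Tot_zero_fun (N : ℕ) : X.Tot N (fun _ _ _ _ => 0) = 0 := by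
  have h := X.Tot_mul_left N 0 (fun _ _ _ _ => 0)
  simpa using h

lemma sim_Tot_R0 (N : ℕ) (P : Lab X.a → Prop) :
    X.Tot N (fun _ _ R ℓ => ind (R = 0 ∧ P ℓ)) = ∑ ℓ, ind (P ℓ) := by
  have h0 : ∀ ℓ, ind (0 = 0 ∧ P ℓ) = ind (P ℓ) := fun ℓ => ind_congr (by simp)
  cases N with
  | zero =>
    rw [Tot_zero]
    exact Finset.sum_congr rfl fun ℓ _ => h0 ℓ
  | succ N =>
    have h1 : (fun (_ : ℕ → Ctx X.a) (_ : ℕ → X.Tok) (R : ℕ) (ℓ : Lab X.a) =>
        ind (R + 1 = 0 ∧ P ℓ)) = fun _ _ _ _ => 0 := by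
      funext c o R ℓ
      exact ind_false (by simp)
    rw [Tot_succ, h1, sim_Tot_zero_fun]
    simp only [mul_zero, Finset.sum_const_zero, add_zero]
    exact Finset.sum_congr rfl fun ℓ _ => ind_congr (by simp)

/-- One application of the simulation inequality at position `s`. -/
lemma sim_step (τ : ℕ → Bool) (hadm : ∀ p, Adm m (dset τ p (2 * X.a + 1))) (n s : ℕ)
    (hs : s + (2 * X.a + 1) ≤ n) (w : Wd) (h : Alg) (hh : NN h) :
    (1 - X.ε) * ∑ c : Ctx X.a, ∑ ξ : Bool, ∑ o : X.Tok,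
        (kap X.β c * pr (1 / 2) c ξ * X.ν c o * (1 + X.D c ξ (dset τ s (stp c ξ)) o)) *
          (h * X.out c o * mu (word X.U X.V (sh (s + stp c ξ) τ) (n - (s + stp c ξ)))).coeff w ≤
      (h * mu (word X.U X.V (sh s τ) (n - s))).coeff w := by
  have hA : Adm m (dset (sh s τ) 0 (2 * X.a + 1)) := by
    rw [dset_sh]
    exact hadm _
  have h1 := Dom.mul_left hh (Dom.mul_right
    (mu_nn (word X.U X.V (sh (s + (2 * X.a + 1)) τ) (n - (s + (2 * X.a + 1))))) (X.sim _ hA)) w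
  have e1 := sim_cat X.U X.V τ (Nat.le_add_right s (2 * X.a + 1)) hs
  rw [Nat.add_sub_cancel_left] at e1
  rw [e1] at h1
  refine le_trans (le_of_eq ?_) h1
  rw [smul_mul_assoc, mul_smul_comm, MonoidAlgebra.coeff_smul_apply, smul_eq_mul]
  congr 1
  simp only [Finset.sum_mul, Finset.mul_sum, MonoidAlgebra.coeff_sum, Finsupp.finsetSum_apply]
  refine Finset.sum_congr rfl fun c _ => Finset.sum_congr rfl fun ξ _ =>
    Finset.sum_congr rfl fun o _ => ?_
  have hle := stp_le c ξ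
  have e2 := sim_cat X.U X.V τ (show s + stp c ξ ≤ s + (2 * X.a + 1) by omega) hs
  have e3 : s + (2 * X.a + 1) - (s + stp c ξ) = 2 * X.a + 1 - stp c ξ := by omega
  rw [e3] at e2
  rw [smul_mul_assoc, mul_smul_comm, MonoidAlgebra.coeff_smul_apply, smul_eq_mul, dset_sh, sh_sh,
    mul_assoc (X.out c o), e2, mul_assoc h, Nat.add_zero]

/-- Iteration of the simulation inequality (induction on `N`, generalising `s` and `h`;
`Tot_succ`, `Zf_succ`; `X.sim` for `sh s τ`, multiplied on the right by the law of the sites from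
`s + 2a + 1` to `n`). -/
theorem sim_iter (τ : ℕ → Bool) (hadm : ∀ p, Adm m (dset τ p (2 * X.a + 1))) (n E : ℕ)
    (hE : E + (2 * X.a + 1) ≤ n) (w : Wd) (N s : ℕ) (hs : s < E) (h : Alg) (hh : NN h) :
    (1 - X.ε) ^ N * X.Tot N (fun c o R ℓ => X.Zf τ s E c o R ℓ *
        (h * X.outs c o R *
          mu (word X.U X.V (sh (E + ℓ.1.val) τ) (n - (E + ℓ.1.val)))).coeff w) ≤
      (h * mu (word X.U X.V (sh s τ) (n - s))).coeff w := by
  have hε0 : 0 ≤ 1 - X.ε := sub_nonneg.mpr X.ε_le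
  have hε1 : 1 - X.ε ≤ 1 := sub_le_self _ X.ε_nonneg
  induction N generalizing s h with
  | zero =>
    rw [Tot_zero]
    simp only [Zf_zero, zero_mul, Finset.sum_const_zero, mul_zero]
    exact (hh.mul (mu_nn _)) w
  | succ N ih =>
    have key : ∀ (c0 : Ctx X.a) (ξ0 : Bool) (o0 : X.Tok),
        (1 - X.ε) ^ N * X.Tot N (fun c o R ℓ =>
          (if E ≤ s + stp c0 ξ0 then ind (R = 0 ∧ s + stp c0 ξ0 = E + ℓ.1.val ∧ ξ0 = ℓ.2)
            else X.Zf τ (s + stp c0 ξ0) E c o R ℓ) *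
          (h * X.out c0 o0 * X.outs c o R *
            mu (word X.U X.V (sh (E + ℓ.1.val) τ) (n - (E + ℓ.1.val)))).coeff w) ≤
        (h * X.out c0 o0 *
          mu (word X.U X.V (sh (s + stp c0 ξ0) τ) (n - (s + stp c0 ξ0)))).coeff w := by
      intro c0 ξ0 o0
      have hh' : NN (h * X.out c0 o0) := hh.mul (X.out_nn c0 o0)
      by_cases hc : E ≤ s + stp c0 ξ0
      · simp only [if_pos hc]
        set B := (h * X.out c0 o0 *
          mu (word X.U X.V (sh (s + stp c0 ξ0) τ) (n - (s + stp c0 ξ0)))).coeff w with hB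
        have hB0 : 0 ≤ B := (hh'.mul (mu_nn _)) w
        have e : (fun (c : ℕ → Ctx X.a) (o : ℕ → X.Tok) (R : ℕ) (ℓ : Lab X.a) =>
            ind (R = 0 ∧ s + stp c0 ξ0 = E + ℓ.1.val ∧ ξ0 = ℓ.2) *
              (h * X.out c0 o0 * X.outs c o R *
                mu (word X.U X.V (sh (E + ℓ.1.val) τ) (n - (E + ℓ.1.val)))).coeff w) =
            fun _ _ R ℓ => B * ind (R = 0 ∧ s + stp c0 ξ0 = E + ℓ.1.val ∧ ξ0 = ℓ.2) := by
          funext c o R ℓ
          by_cases hp : R = 0 ∧ s + stp c0 ξ0 = E + ℓ.1.val ∧ ξ0 = ℓ.2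
          · rw [ind_true hp, hp.1, sim_outs_zero, mul_one, one_mul, mul_one, hB, hp.2.1]
          · rw [ind_false hp, zero_mul, mul_zero]
        rw [e, Tot_mul_left, sim_Tot_R0]
        have h1 := sim_lab_le (a := X.a) (s + stp c0 ξ0) E ξ0
        have h2 : 0 ≤ ∑ ℓ : Lab X.a, ind (s + stp c0 ξ0 = E + ℓ.1.val ∧ ξ0 = ℓ.2) :=
          Finset.sum_nonneg fun ℓ _ => ind_nonneg _
        exact (mul_le_of_le_one_left (mul_nonneg hB0 h2) (pow_le_one₀ hε0 hε1)).trans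
          (mul_le_of_le_one_right hB0 h1)
      · simp only [if_neg hc]
        exact ih (s + stp c0 ξ0) (not_le.mp hc) _ hh'
    refine le_trans ?_ (X.sim_step τ hadm n s (by omega) w h hh)
    rw [Tot_succ]
    simp only [Zf_zero, zero_mul, Finset.sum_const_zero, zero_add]
    rw [pow_succ', mul_assoc]
    refine mul_le_mul_of_nonneg_left ?_ hε0
    rw [Finset.mul_sum]
    refine Finset.sum_le_sum fun c0 _ => ?_
    rw [Finset.sum_comm, Finset.mul_sum]
    refine Finset.sum_le_sum fun o0 _ => ?_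
    have e : (fun (c : ℕ → Ctx X.a) (o : ℕ → X.Tok) (R : ℕ) (ℓ : Lab X.a) =>
        X.Zf τ s E (cns c0 c) (cns o0 o) (R + 1) ℓ *
          (h * X.outs (cns c0 c) (cns o0 o) (R + 1) *
            mu (word X.U X.V (sh (E + ℓ.1.val) τ) (n - (E + ℓ.1.val)))).coeff w) =
        fun c o R ℓ => ∑ ξ0 : Bool, (pr (1 / 2) c0 ξ0 *
          (1 + X.D c0 ξ0 (dset τ s (stp c0 ξ0)) o0)) *
          ((if E ≤ s + stp c0 ξ0 then ind (R = 0 ∧ s + stp c0 ξ0 = E + ℓ.1.val ∧ ξ0 = ℓ.2)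
            else X.Zf τ (s + stp c0 ξ0) E c o R ℓ) *
          (h * X.out c0 o0 * X.outs c o R *
            mu (word X.U X.V (sh (E + ℓ.1.val) τ) (n - (E + ℓ.1.val)))).coeff w) := by
      funext c o R ℓ
      rw [X.Zf_succ τ hs, sim_outs_succ, Finset.sum_mul, ← mul_assoc h]
      exact Finset.sum_congr rfl fun ξ0 _ => mul_assoc _ _ _
    rw [e, Tot_sum, Finset.mul_sum, Finset.mul_sum]
    refine Finset.sum_le_sum fun ξ0 _ => ?_
    rw [Tot_mul_left]
    have hk : 0 ≤ kap X.β c0 := kap_nonneg X.β_pos.le (X.β_le.trans (by norm_num)) c0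
    have hp : 0 ≤ pr (1 / 2) c0 ξ0 := pr_nonneg (by norm_num) (by norm_num) c0 ξ0
    have hν := X.ν_nonneg c0 o0
    have hD : 0 ≤ 1 + X.D c0 ξ0 (dset τ s (stp c0 ξ0)) o0 := by
      have := X.D_ge c0 ξ0 (dset τ s (stp c0 ξ0)) o0
      linarith
    refine le_trans (le_of_eq ?_) (mul_le_mul_of_nonneg_left (key c0 ξ0 o0)
      (mul_nonneg (mul_nonneg (mul_nonneg hk hp) hν) hD))
    ring

end Model

end Pool.Agent.Lib.MP_343fe0_pr
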