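import Pool.Agent.Lib.MP_343fe0_pr.Blk
import Pool.Agent.Lib.MP_343fe0_pr.Norm

set_option autoImplicit false

/-! Construction of the model of the next level. -/

namespace Pool.Agent.Lib.MP_343fe0_pr

open Finset

namespace Model

variable {m : ℕ} (X : Model m)

/-- Weight of a datum when the step covers `K` blocks with defect set `S`. -/
noncomputable def stepP (M N : ℕ) (F F' : Finset ℕ) (K : ℕ) (S : Finset ℕ) (d : X.Dat N) : ℝ :=
  X.datW d * X.datEv (X.ZS M K F F' S) d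

lemma step_ZS_nonneg (M K : ℕ) (F F' S : Finset ℕ) (c : ℕ → Ctx X.a) (o : ℕ → X.Tok) (R : ℕ)
    (ℓ : Lab X.a) : 0 ≤ X.ZS M K F F' S c o R ℓ := X.Zf_nonneg _ _ _ _ _ _ _

lemma stepP_nonneg (M N : ℕ) (F F' : Finset ℕ) (K : ℕ) (S : Finset ℕ) (d : X.Dat N) :
    0 ≤ X.stepP M N F F' K S d :=
  mul_nonneg (X.datW_nonneg d) (X.step_ZS_nonneg _ _ _ _ _ _ _ _ _)

lemma stepP_sum {M N K : ℕ} (hM : 1 ≤ M) (hK : 1 ≤ K) (hN : K * LL X.a M ≤ N)
    (F F' S : Finset ℕ) : ∑ d, X.stepP M N F F' K S d = 1 := by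
  have h1 : 2 * X.a + 1 < K * LL X.a M := by
    have h2 : 2 * X.a + 1 ≤ (2 * X.a + 1) * M := Nat.le_mul_of_pos_right _ hM
    have h3 : LL X.a M ≤ K * LL X.a M := Nat.le_mul_of_pos_left _ hK
    have h4 : LL X.a M = 2 * ((2 * X.a + 1) * M) := rfl
    omega
  unfold stepP
  rw [X.sum_dat N]
  exact X.Tot_Zf_eq N _ h1 hN

lemma stepP_bad {M N K : ℕ} (F F' S : Finset ℕ)
    (G : (ℕ → Ctx X.a) → (ℕ → X.Tok) → ℕ → Lab X.a → Prop) :
    ∑ d, ind (¬ X.datEv G d) * X.stepP M N F F' K S d =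
      X.Tot N (fun c o R ℓ => ind (¬ G c o R ℓ) * X.ZS M K F F' S c o R ℓ) := by
  rw [← X.sum_dat N]
  refine Finset.sum_congr rfl fun d _ => ?_
  unfold stepP datEv
  ring

lemma stepP_ov {M N K K' : ℕ} (F F' : Finset ℕ)
    (G G' : (ℕ → Ctx X.a) → (ℕ → X.Tok) → ℕ → Lab X.a → Prop) :
    ∑ d, ind (X.datEv G d ∧ X.datEv G' d) *
        min (X.stepP M N F F' K ∅ d) (X.stepP M N F F' K' ∅ d) =
      X.Tot N (fun c o R ℓ => ind (G c o R ℓ ∧ G' c o R ℓ) *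
        min (X.ZS M K F F' ∅ c o R ℓ) (X.ZS M K' F F' ∅ c o R ℓ)) := by
  rw [← X.sum_dat N]
  refine Finset.sum_congr rfl fun d _ => ?_
  unfold stepP
  rw [← mul_min_of_nonneg _ _ (X.datW_nonneg d)]
  unfold datEv
  ring

lemma stepP_close {M N K : ℕ} (F F' S : Finset ℕ) (δ' : ℝ) (d : X.Dat N)
    (h : |X.datEv (X.ZS M K F F' S) d - X.datEv (X.ZS M K F F' ∅) d| ≤
      δ' * X.datEv (X.ZS M K F F' ∅) d) :
    |X.stepP M N F F' K S d - X.stepP M N F F' K ∅ d| ≤ δ' * X.stepP M N F F' K ∅ d := by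
  unfold stepP
  rw [← mul_sub, abs_mul, abs_of_nonneg (X.datW_nonneg d)]
  have := mul_le_mul_of_nonneg_left h (X.datW_nonneg d)
  linarith

lemma stepP_var {M N K : ℕ} (F F' : Finset ℕ)
    (G : (ℕ → Ctx X.a) → (ℕ → X.Tok) → ℕ → Lab X.a → Prop)
    (f : (ℕ → Ctx X.a) → (ℕ → X.Tok) → ℕ → Lab X.a → ℝ) :
    ∑ d, ind (X.datEv G d) * (X.datW d * X.datEv f d) ^ 2 / X.stepP M N F F' K ∅ d =
      X.Tot N (fun c o R ℓ => ind (G c o R ℓ) * f c o R ℓ ^ 2 / X.ZS M K F F' ∅ c o R ℓ) := by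
  rw [← X.sum_dat N]
  refine Finset.sum_congr rfl fun d _ => ?_
  unfold stepP
  have key : ∀ i w y z : ℝ, i * (w * y) ^ 2 / (w * z) = w * (i * y ^ 2 / z) := by
    intro i w y z
    by_cases hw : w = 0
    · simp [hw]
    by_cases hz : z = 0
    · simp [hz]
    field_simp
  rw [key]
  rfl

/-- The difference of weights that defines a feature of the next level. -/
lemma stepP_feat {M N K : ℕ} (F F' : Finset ℕ) (e : Bool) (G : Finset ℕ) (u : ℤ) :
    (X.stepP M N F F' K (pat G u K) - X.stepP M N F F' K ∅) -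
      (if e then ∑ g ∈ G, (X.stepP M N F F' K (pat {g} u K) - X.stepP M N F F' K ∅) else 0) =
      fun d => X.datW d * X.datEv (X.dZ M K F F' e G u) d := by
  funext d
  cases e
  · simp only [Bool.false_eq_true, if_false, sub_zero, Pi.sub_apply, Pi.zero_apply, stepP, datEv,
      dZ]
    ring
  · simp only [if_true, Pi.sub_apply, Finset.sum_apply, stepP, datEv, dZ]
    rw [mul_sub, mul_sub, Finset.mul_sum]
    congr 1
    refine Finset.sum_congr rfl fun g _ => ?_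
    ring

end Model

lemma step_eps {ε η : ℝ} (N : ℕ) (h0 : 0 ≤ ε) (h1 : ε ≤ 1) (hη0 : 0 ≤ η) (hη1 : η ≤ 1 / 10) :
    1 - min 1 (N * ε + 10 * η) ≤ (1 - ε) ^ N * (1 - 10 * η) := by
  have hb : 1 + (N : ℝ) * (-ε) ≤ (1 + -ε) ^ N := one_add_mul_le_pow (by linarith) N
  have hb' : 1 - (N : ℝ) * ε ≤ (1 - ε) ^ N := by
    have : (1 + -ε) = 1 - ε := by ring
    rw [this] at hb
    linarith
  have h2 : 0 ≤ 1 - 10 * η := by linarith
  have h3 : 0 ≤ (1 - ε) ^ N * (1 - 10 * η) := mul_nonneg (pow_nonneg (by linarith) _) h2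
  have h4 : (1 - (N : ℝ) * ε) * (1 - 10 * η) ≤ (1 - ε) ^ N * (1 - 10 * η) :=
    mul_le_mul_of_nonneg_right hb' h2
  have h5 : 0 ≤ (N : ℝ) * ε * η := mul_nonneg (mul_nonneg (Nat.cast_nonneg _) h0) hη0
  rcases le_total 1 (N * ε + 10 * η) with h | h
  · rw [min_eq_left h]
    linarith
  · rw [min_eq_right h]
    nlinarith

lemma step_coeff_sum {ι : Type} (s : Finset ι) (t : ι → ℝ) (f : ι → Alg) (w : Wd) :
    (∑ i ∈ s, t i • f i).coeff w = ∑ i ∈ s, t i * (f i).coeff w := by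
  rw [MonoidAlgebra.coeff_sum, Finsupp.finsetSum_apply]
  refine Finset.sum_congr rfl fun i _ => ?_
  rw [MonoidAlgebra.coeff_smul_apply, smul_eq_mul]

lemma step_coeff_sum' {ι : Type} (s : Finset ι) (f : ι → Alg) (w : Wd) :
    (∑ i ∈ s, f i).coeff w = ∑ i ∈ s, (f i).coeff w := by
  rw [MonoidAlgebra.coeff_sum, Finsupp.finsetSum_apply]

lemma step_dset_subset (τ : ℕ → Bool) (p k : ℕ) : dset τ p k ⊆ range k := Finset.filter_subset _ _

lemma step_dset_mono (τ : ℕ → Bool) (p : ℕ) {k k' : ℕ} (h : k ≤ k') : dset τ p k ⊆ dset τ p k' :=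
  Finset.filter_subset_filter _ (Finset.range_subset_range.2 h)

/-- The averaging step of the simulation inequality. -/
lemma step_avg {a' : ℕ} {T : Type} [Fintype T] (β' e1 e2 e3 B : ℝ)
    (g : Fin (a' + 1) → Option Bool → Bool → T → ℝ) (A q : Fin (a' + 1) → Bool → T → ℝ)
    (hβ0 : 0 ≤ β') (hβ1 : β' ≤ 1) (he : e1 ≤ e2 * e3) (he2 : 0 ≤ e2)
    (hg : ∀ i t ξ o, 0 ≤ g i t ξ o) (hA : ∀ i ξ o, 0 ≤ A i ξ o)
    (hq : ∀ i ξ o, e3 * (β' * g i none ξ o + (1 - β') * g i (some ξ) ξ o) ≤ q i ξ o)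
    (hB : ∀ i ξ, e2 * ∑ o, q i ξ o * A i ξ o ≤ B) :
    e1 * ∑ c : Ctx a', ∑ ξ : Bool, ∑ o : T,
      (kap β' c * pr (1 / 2) c ξ * g c.1 c.2 ξ o) * A c.1 ξ o ≤ B := by
  have hpos : (0 : ℝ) < 2 * ((a' : ℝ) + 1) := by positivity
  have h1 : ∑ c : Ctx a', ∑ ξ : Bool, ∑ o : T,
      (kap β' c * pr (1 / 2) c ξ * g c.1 c.2 ξ o) * A c.1 ξ o =
      ∑ i : Fin (a' + 1), ∑ ξ : Bool, ∑ o : T,
        (β' * g i none ξ o + (1 - β') * g i (some ξ) ξ o) / (2 * ((a' : ℝ) + 1)) * A i ξ o := by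
    rw [Fintype.sum_prod_type]
    refine Finset.sum_congr rfl fun i _ => ?_
    rw [Finset.sum_comm]
    refine Finset.sum_congr rfl fun ξ _ => ?_
    rw [Finset.sum_comm]
    refine Finset.sum_congr rfl fun o _ => ?_
    rw [← kap_pr_sum β' i ξ fun t => g i t ξ o, Finset.sum_mul]
  rw [h1]
  have h2 : ∀ (i : Fin (a' + 1)) (ξ : Bool), e1 * ∑ o : T,
      (β' * g i none ξ o + (1 - β') * g i (some ξ) ξ o) / (2 * ((a' : ℝ) + 1)) * A i ξ o ≤
      B / (2 * ((a' : ℝ) + 1)) := by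
    intro i ξ
    refine le_trans ?_ (div_le_div_of_nonneg_right (hB i ξ) hpos.le)
    rw [Finset.mul_sum, Finset.mul_sum, Finset.sum_div]
    refine Finset.sum_le_sum fun o _ => ?_
    have h3 : 0 ≤ β' * g i none ξ o + (1 - β') * g i (some ξ) ξ o :=
      add_nonneg (mul_nonneg hβ0 (hg _ _ _ _)) (mul_nonneg (by linarith) (hg _ _ _ _))
    have h4 : e1 * (β' * g i none ξ o + (1 - β') * g i (some ξ) ξ o) ≤ e2 * q i ξ o := by
      calc e1 * (β' * g i none ξ o + (1 - β') * g i (some ξ) ξ o)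
          ≤ e2 * e3 * (β' * g i none ξ o + (1 - β') * g i (some ξ) ξ o) :=
            mul_le_mul_of_nonneg_right he h3
        _ = e2 * (e3 * (β' * g i none ξ o + (1 - β') * g i (some ξ) ξ o)) := by ring
        _ ≤ e2 * q i ξ o := mul_le_mul_of_nonneg_left (hq i ξ o) he2
    have h5 := mul_le_mul_of_nonneg_right h4 (hA i ξ o)
    have h6 := div_le_div_of_nonneg_right h5 hpos.le
    calc e1 * ((β' * g i none ξ o + (1 - β') * g i (some ξ) ξ o) / (2 * ((a' : ℝ) + 1)) * A i ξ o)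
        = e1 * (β' * g i none ξ o + (1 - β') * g i (some ξ) ξ o) * A i ξ o /
            (2 * ((a' : ℝ) + 1)) := by ring
      _ ≤ e2 * q i ξ o * A i ξ o / (2 * ((a' : ℝ) + 1)) := h6
      _ = e2 * (q i ξ o * A i ξ o) / (2 * ((a' : ℝ) + 1)) := by ring
  rw [Finset.mul_sum]
  calc ∑ i : Fin (a' + 1), e1 * ∑ ξ : Bool, ∑ o : T,
        (β' * g i none ξ o + (1 - β') * g i (some ξ) ξ o) / (2 * ((a' : ℝ) + 1)) * A i ξ o
      ≤ ∑ _i : Fin (a' + 1), ∑ _ξ : Bool, B / (2 * ((a' : ℝ) + 1)) := by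
        refine Finset.sum_le_sum fun i _ => ?_
        rw [Finset.mul_sum]
        exact Finset.sum_le_sum fun ξ _ => h2 i ξ
    _ = B := by
        simp only [Finset.sum_const, Finset.card_univ, Fintype.card_fin, Fintype.card_bool,
          nsmul_eq_mul]
        push_cast
        field_simp

/-- Tokens `X.Dat N`, `P K S d = datW d * datEv (ZS M K F F' S) d` (total mass one: `sum_dat`, `Tot_Zf_eq`).  For each
`i : Fin (a'+1)` apply `norm_lemma` to `p ξ = P (a' + i + ξ.toNat) ∅` and `Gd ξ = datEv (Gd (a' + i + ξ.toNat))`; put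
`ν (i,t) = ν_i t`, `out = datOut`, `D (i,t) ξ S = Λ_i t ξ (P K S - P K ∅)` if `S ⊆ range K` and `Adm m' S` (`K = stp (i,t) ξ`), else `0`,
`ε = min 1 (N ε + 10 η)`.  `sim`: `kap_pr_sum`, the last clause of `norm_lemma`, `sim_blocks` averaged over the `2 (a'+1)` pairs `(i,ξ)`,
and `1 - ε' ≤ (1 - ε) ^ N (1 - 10 η)` (Bernoulli).  Features: by linearity `∑ x u * feat e G c ξ u = Λ (∑ x u * datW * datEv (dZ ..))`
(`pat_subset`, `pat_adm`), and `(w f) ^ 2 / (w z) = w * (f ^ 2 / z)`. -/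
theorem step_model {m : ℕ} (X : Model m) (m' M a' N : ℕ) (F F' : Finset ℕ) (hF : F ⊆ range m)
    (hF' : F' ⊆ range m) (hM : 1 ≤ M) (ha' : 1 ≤ a') (hm' : m' ≤ a')
    (hN : (2 * a' + 1) * LL X.a M ≤ N) (β' η δ' ΩA sA Ω2 : ℝ) (hβ0 : 0 < β') (hβ1 : β' ≤ 1 / 2)
    (hη0 : 0 ≤ η) (hη1 : η ≤ 1 / 10) (hδ0 : 0 ≤ δ') (hδ1 : δ' ≤ 1 / 4)
    (Gd : ℕ → (ℕ → Ctx X.a) → (ℕ → X.Tok) → ℕ → Lab X.a → Prop)
    (hclose : ∀ K c o R ℓ, a' ≤ K → K ≤ 2 * a' + 1 → Gd K c o R ℓ → ∀ S, S ⊆ range K → Adm m' S →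
      |X.ZS M K F F' S c o R ℓ - X.ZS M K F F' ∅ c o R ℓ| ≤ δ' * X.ZS M K F F' ∅ c o R ℓ)
    (hbad : ∀ K, a' ≤ K → K ≤ 2 * a' + 1 → ∀ S, S ⊆ range K → Adm m' S →
      X.Tot N (fun c o R ℓ => ind (¬ Gd K c o R ℓ) * X.ZS M K F F' S c o R ℓ) ≤ η)
    (hov : ∀ k, a' ≤ k → k ≤ 2 * a' → 2 * β' ≤ X.Tot N fun c o R ℓ =>
      ind (Gd k c o R ℓ ∧ Gd (k + 1) c o R ℓ) *
        min (X.ZS M k F F' ∅ c o R ℓ) (X.ZS M (k + 1) F F' ∅ c o R ℓ))
    (hw : ∀ K, a' ≤ K → K ≤ 2 * a' + 1 → ∃ w : Bool → ℤ → ℝ, (∀ e u, 0 ≤ w e u) ∧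
      (∀ u, w false u ≤ sA) ∧ (∀ e (s : Finset ℤ), ∑ u ∈ s, w e u ≤ if e then Ω2 else ΩA) ∧
      ∀ e G, G ⊆ range m' → ∀ (s : Finset ℤ) (x : ℤ → ℝ),
        X.Tot N (fun c o R ℓ => ind (Gd K c o R ℓ) *
          (∑ u ∈ s, x u * X.dZ M K F F' e G u c o R ℓ) ^ 2 / X.ZS M K F F' ∅ c o R ℓ) ≤
          ∑ u ∈ s, w e u * x u ^ 2) :
    ∃ X' : Model m', X'.a = a' ∧ X'.β = β' ∧ X'.U = X.blk M F ∧ X'.V = X.blk M F' ∧
      X'.ε ≤ N * X.ε + 10 * η ∧
      X'.Bd (5 / β' * ΩA) (5 / β' * sA) (5 / β' * Ω2) (4 * δ') := by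
  classical
  -- the number of blocks covered by a step
  have hK1 : ∀ (i : Fin (a' + 1)) (ξ : Bool), a' ≤ a' + i.val + ξ.toNat := fun i ξ => by omega
  have hK2 : ∀ (i : Fin (a' + 1)) (ξ : Bool), a' + i.val + ξ.toNat ≤ 2 * a' + 1 := fun i ξ => by
    have h1 := i.isLt
    have h2 : ξ.toNat ≤ 1 := Bool.toNat_le ξ
    omega
  have hKN : ∀ K, K ≤ 2 * a' + 1 → K * LL X.a M ≤ N := fun K hK =>
    le_trans (Nat.mul_le_mul_right _ hK) hN
  have hsum : ∀ K, a' ≤ K → K ≤ 2 * a' + 1 → ∀ S, ∑ d, X.stepP M N F F' K S d = 1 :=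
    fun K h1 h2 S => X.stepP_sum hM (le_trans ha' h1) (hKN K h2) F F' S
  have hbad' : ∀ K, a' ≤ K → K ≤ 2 * a' + 1 → ∀ S, S ⊆ range K → Adm m' S →
      ∑ d : X.Dat N, ind (¬ X.datEv (Gd K) d) * X.stepP M N F F' K S d ≤ η := by
    intro K h1 h2 S h3 h4
    rw [X.stepP_bad]
    exact hbad K h1 h2 S h3 h4
  have hclose' : ∀ K, a' ≤ K → K ≤ 2 * a' + 1 → ∀ S, S ⊆ range K → Adm m' S →
      ∀ d : X.Dat N, X.datEv (Gd K) d →
        |X.stepP M N F F' K S d - X.stepP M N F F' K ∅ d| ≤ δ' * X.stepP M N F F' K ∅ d := by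
    intro K h1 h2 S h3 h4 d hd
    exact X.stepP_close F F' S δ' d (hclose K _ _ _ _ h1 h2 hd S h3 h4)
  have hnorm := fun i : Fin (a' + 1) =>
    norm_lemma (Xs := X.Dat N) (fun ξ => X.stepP M N F F' (a' + i.val + ξ.toNat) ∅)
      (fun ξ => X.datEv (Gd (a' + i.val + ξ.toNat))) β' η δ'
      (fun ξ d => X.stepP_nonneg _ _ _ _ _ _ d)
      (fun ξ => hsum _ (hK1 i ξ) (hK2 i ξ) ∅) hβ0 hβ1 hη0 hη1 hδ0 hδ1
      (fun ξ => hbad' _ (hK1 i ξ) (hK2 i ξ) ∅ (Finset.empty_subset _) (adm_empty _))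
      (by
        rw [X.stepP_ov]
        have h1 := i.isLt
        exact hov (a' + i.val) (by omega) (by omega))
  choose ν Λ hν0 hν1 hmean hvar hsup hdom using hnorm
  choose! w hw0 hwsup hwsum hwdom using hw
  -- the likelihood ratios
  let D : Ctx a' → Bool → Finset ℕ → X.Dat N → ℝ := fun c ξ S =>
    if S ⊆ range (stp c ξ) ∧ Adm m' S then
      Λ c.1 c.2 ξ (X.stepP M N F F' (stp c ξ) S - X.stepP M N F F' (stp c ξ) ∅) else 0
  have hDin : ∀ (c : Ctx a') ξ S, S ⊆ range (stp c ξ) → Adm m' S →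
      D c ξ S = Λ c.1 c.2 ξ (X.stepP M N F F' (stp c ξ) S - X.stepP M N F F' (stp c ξ) ∅) :=
    fun c ξ S h1 h2 => if_pos ⟨h1, h2⟩
  have hDout : ∀ (c : Ctx a') ξ S, ¬ (S ⊆ range (stp c ξ) ∧ Adm m' S) → D c ξ S = 0 :=
    fun c ξ S h => if_neg h
  have hDabs : ∀ (c : Ctx a') ξ S o, |D c ξ S o| ≤ 4 * δ' := by
    intro c ξ S o
    by_cases h : S ⊆ range (stp c ξ) ∧ Adm m' S
    · rw [hDin c ξ S h.1 h.2]
      exact hsup c.1 c.2 ξ _ (fun d hd => hclose' _ (hK1 c.1 ξ) (hK2 c.1 ξ) S h.1 h.2 d hd) o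
    · rw [hDout c ξ S h]
      simp only [Pi.zero_apply, abs_zero]
      linarith
  have hDge : ∀ (c : Ctx a') ξ S o, -1 ≤ D c ξ S o := by
    intro c ξ S o
    have := (abs_le.1 (hDabs c ξ S o)).1
    linarith
  have hε0 : 0 ≤ (N : ℝ) * X.ε + 10 * η :=
    add_nonneg (mul_nonneg (Nat.cast_nonneg _) X.ε_nonneg) (by linarith)
  let X' : Model m' :=
    { a := a'
      β := β'
      ε := min 1 (N * X.ε + 10 * η)
      U := X.blk M F
      V := X.blk M F'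
      Tok := X.Dat N
      ν := fun c => ν c.1 c.2
      out := fun _ => X.datOut
      D := D
      a_pos := ha'
      m_le := hm'
      β_pos := hβ0
      β_le := hβ1
      ε_nonneg := le_min zero_le_one hε0
      ε_le := min_le_left _ _
      ν_nonneg := fun c o => hν0 c.1 c.2 o
      ν_sum := fun c => hν1 c.1 c.2
      out_nn := fun _ o => X.datOut_nn o
      out_mass := fun _ o => X.datOut_mass o
      D_empty := fun c ξ o => by
        rw [hDin c ξ ∅ (Finset.empty_subset _) (adm_empty _), sub_self, map_zero]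
        rfl
      D_mean := fun c ξ S => by
        by_cases h : S ⊆ range (stp c ξ) ∧ Adm m' S
        · rw [hDin c ξ S h.1 h.2]
          exact hmean c.1 c.2 ξ _
        · rw [hDout c ξ S h]
          simp
      D_ge := hDge
      sim := by
        intro τ hτ v
        have hadm : ∀ (i : Fin (a' + 1)) (ξ : Bool), Adm m' (dset τ 0 (a' + i.val + ξ.toNat)) :=
          fun i ξ => hτ.subset (step_dset_mono τ 0 (hK2 i ξ))
        have main := step_avg (a' := a') (T := X.Dat N) β' (1 - min 1 (N * X.ε + 10 * η))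
          ((1 - X.ε) ^ N) (1 - 10 * η) ((mu (word (X.blk M F) (X.blk M F') τ (2 * a' + 1))).coeff v)
          (fun i t ξ o => ν i t o * (1 + D (i, t) ξ (dset τ 0 (a' + i.val + ξ.toNat)) o))
          (fun i ξ o => (X.datOut o * mu (word (X.blk M F) (X.blk M F')
            (sh (a' + i.val + ξ.toNat) τ) (2 * a' + 1 - (a' + i.val + ξ.toNat)))).coeff v)
          (fun i ξ o => X.stepP M N F F' (a' + i.val + ξ.toNat)
            (dset τ 0 (a' + i.val + ξ.toNat)) o)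
          hβ0.le (by linarith) (step_eps N X.ε_nonneg X.ε_le hη0 hη1)
          (pow_nonneg (by linarith [X.ε_le]) _)
          (fun i t ξ o => mul_nonneg (hν0 i t o) (by linarith [hDge (i, t) ξ (dset τ 0 (a' + i.val + ξ.toNat)) o]))
          (fun i ξ o => (X.datOut_nn o).mul (mu_nn _) v)
          (fun i ξ o => by
            have e1 := hDin (i, none) ξ (dset τ 0 (a' + i.val + ξ.toNat)) (step_dset_subset τ 0 _)
              (hadm i ξ)
            have e2 := hDin (i, some ξ) ξ (dset τ 0 (a' + i.val + ξ.toNat)) (step_dset_subset τ 0 _)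
              (hadm i ξ)
            rw [e1, e2]
            exact hdom i ξ _ (fun d => X.stepP_nonneg _ _ _ _ _ _ d)
              (hsum _ (hK1 i ξ) (hK2 i ξ) _)
              (hbad' _ (hK1 i ξ) (hK2 i ξ) _ (step_dset_subset τ 0 _) (hadm i ξ))
              (hclose' _ (hK1 i ξ) (hK2 i ξ) _ (step_dset_subset τ 0 _) (hadm i ξ)) o)
          (fun i ξ => by
            have h := X.sim_blocks hM hF hF' N (2 * a' + 1) (a' + i.val + ξ.toNat)
              (le_trans ha' (hK1 i ξ)) (hK2 i ξ) τ v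
            rw [MonoidAlgebra.coeff_smul_apply, smul_eq_mul, step_coeff_sum] at h
            exact h)
        rw [MonoidAlgebra.coeff_smul_apply, smul_eq_mul, step_coeff_sum']
        refine le_trans (le_of_eq ?_) main
        congr 1
        refine Finset.sum_congr rfl fun c _ => ?_
        rw [step_coeff_sum']
        refine Finset.sum_congr rfl fun ξ _ => ?_
        rw [step_coeff_sum]
        refine Finset.sum_congr rfl fun o _ => ?_
        rw [mul_assoc (kap β' c * pr (1 / 2) c ξ)]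
        rfl }
  have hc : 0 ≤ 5 / β' := by positivity
  refine ⟨X', rfl, rfl, rfl, rfl, min_le_right _ _, hDabs, ⟨?_⟩⟩
  refine
    { w := fun e c ξ u => 5 / β' * w (stp c ξ) e u
      nonneg := fun e c ξ u => mul_nonneg hc (hw0 _ (hK1 c.1 ξ) (hK2 c.1 ξ) e u)
      sup := fun c ξ u => mul_le_mul_of_nonneg_left (hwsup _ (hK1 c.1 ξ) (hK2 c.1 ξ) u) hc
      sum := ?_
      dom := ?_ }
  · intro e c ξ s
    rw [← Finset.mul_sum]
    have h := mul_le_mul_of_nonneg_left (hwsum _ (hK1 c.1 ξ) (hK2 c.1 ξ) e s) hc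
    cases e
    · exact h
    · exact h
  · intro e G hG c ξ s x
    have hfeat : ∀ u o, X'.feat e G c ξ u o =
        Λ c.1 c.2 ξ (fun d => X.datW d * X.datEv (X.dZ M (stp c ξ) F F' e G u) d) o := by
      intro u o
      rw [← X.stepP_feat (N := N) F F' e G u, map_sub, Pi.sub_apply]
      show D c ξ (pat G u (stp c ξ)) o -
        (if e then ∑ g ∈ G, D c ξ (pat {g} u (stp c ξ)) o else 0) = _
      rw [hDin c ξ _ (pat_subset _ _ _) (pat_adm _ _ hG _ _)]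
      congr 1
      cases e
      · simp
      · simp only [if_true, map_sum, Finset.sum_apply]
        refine Finset.sum_congr rfl fun g hg => ?_
        rw [hDin c ξ _ (pat_subset _ _ _)
          (pat_adm _ _ (Finset.singleton_subset_iff.2 (hG hg)) _ _)]
    have hlin : ∀ o, ∑ u ∈ s, x u * X'.feat e G c ξ u o =
        Λ c.1 c.2 ξ (fun d => X.datW d * X.datEv
          (fun c' o' R ℓ => ∑ u ∈ s, x u * X.dZ M (stp c ξ) F F' e G u c' o' R ℓ) d) o := by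
      intro o
      have h1 : (fun d : X.Dat N => X.datW d * X.datEv
          (fun c' o' R ℓ => ∑ u ∈ s, x u * X.dZ M (stp c ξ) F F' e G u c' o' R ℓ) d) =
          ∑ u ∈ s, x u • fun d : X.Dat N =>
            X.datW d * X.datEv (X.dZ M (stp c ξ) F F' e G u) d := by
        funext d
        simp only [Finset.sum_apply, Pi.smul_apply, smul_eq_mul, Model.datEv]
        rw [Finset.mul_sum]
        refine Finset.sum_congr rfl fun u _ => ?_
        ring
      rw [h1, map_sum, Finset.sum_apply]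
      refine Finset.sum_congr rfl fun u _ => ?_
      rw [map_smul, Pi.smul_apply, smul_eq_mul, hfeat]
    have h1 := hvar c.1 c.2 ξ (fun d => X.datW d * X.datEv
          (fun c' o' R ℓ => ∑ u ∈ s, x u * X.dZ M (stp c ξ) F F' e G u c' o' R ℓ) d)
    rw [X.stepP_var] at h1
    have h2 := mul_le_mul_of_nonneg_left (hwdom _ (hK1 c.1 ξ) (hK2 c.1 ξ) e G hG s x) hc
    calc ∑ o, X'.ν c o * (∑ u ∈ s, x u * X'.feat e G c ξ u o) ^ 2
        = ∑ o, ν c.1 c.2 o * (Λ c.1 c.2 ξ (fun d => X.datW d * X.datEv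
          (fun c' o' R ℓ => ∑ u ∈ s, x u * X.dZ M (stp c ξ) F F' e G u c' o' R ℓ) d) o) ^ 2 :=
          Finset.sum_congr rfl fun o _ => by rw [hlin]
      _ ≤ 5 / β' * ∑ u ∈ s, w (stp c ξ) e u * x u ^ 2 := le_trans h1 h2
      _ = ∑ u ∈ s, 5 / β' * w (stp c ξ) e u * x u ^ 2 := by
          rw [Finset.mul_sum]
          exact Finset.sum_congr rfl fun u _ => by ring

end Pool.Agent.Lib.MP_343fe0_pr
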