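import Pool.Agent.Lib.MP_343fe0_pr.Alg

set_option autoImplicit false

/-! The walk: positions, stopping, geometry of blocks and clusters, laws of the position. -/

namespace Pool.Agent.Lib.MP_343fe0_pr

open Finset

variable {a : ℕ}

lemma walk_sum_ind_eq {ι : Type} (s : Finset ι) (p : ι → Prop)
    (h : ∀ i ∈ s, ∀ j ∈ s, p i → p j → i = j) {i : ι} (hi : i ∈ s) (hp : p i) :
    ∑ j ∈ s, ind (p j) = 1 := by
  rw [Finset.sum_eq_single_of_mem i hi fun j hj hne => ind_false fun hq => hne (h j hj i hi hq hp),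
    ind_true hp]

lemma walk_sum_ind_le {ι : Type} (s : Finset ι) (p : ι → Prop)
    (h : ∀ i ∈ s, ∀ j ∈ s, p i → p j → i = j) : ∑ j ∈ s, ind (p j) ≤ 1 := by
  by_cases hex : ∃ i ∈ s, p i
  · obtain ⟨i, hi, hp⟩ := hex
    exact (walk_sum_ind_eq s p h hi hp).le
  · rw [Finset.sum_eq_zero fun j hj => ind_false fun hq => hex ⟨j, hj, hq⟩]
    exact zero_le_one

lemma kap_nonneg {β : ℝ} (h0 : 0 ≤ β) (h1 : β ≤ 1) (c : Ctx a) : 0 ≤ kap β c := by
  unfold kap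
  have : 0 ≤ 1 - β := by linarith
  split_ifs <;> positivity

lemma kap_sum (β : ℝ) : ∑ c : Ctx a, kap β c = 1 := by
  have h : ∀ i : Fin (a + 1), ∑ t : Option Bool, kap β ((i, t) : Ctx a) = 1 / ((a : ℝ) + 1) := by
    intro i
    simp only [Fintype.sum_option, Fintype.sum_bool, kap, if_true, reduceCtorEq, if_false]
    ring
  rw [Fintype.sum_prod_type]
  simp only [h, Finset.sum_const, Finset.card_univ, Fintype.card_fin, nsmul_eq_mul]
  push_cast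
  field_simp

lemma pr_nonneg {ϱ : ℝ} (h0 : 0 ≤ ϱ) (h1 : ϱ ≤ 1) (c : Ctx a) (ξ : Bool) : 0 ≤ pr ϱ c ξ := by
  obtain ⟨i, _ | b⟩ := c <;> simp only [pr] <;> split_ifs <;> linarith

lemma pr_le_one {ϱ : ℝ} (h0 : 0 ≤ ϱ) (h1 : ϱ ≤ 1) (c : Ctx a) (ξ : Bool) : pr ϱ c ξ ≤ 1 := by
  obtain ⟨i, _ | b⟩ := c <;> simp only [pr] <;> split_ifs <;> linarith

lemma pr_sum (ϱ : ℝ) (c : Ctx a) : ∑ ξ, pr ϱ c ξ = 1 := by
  obtain ⟨i, _ | _ | _⟩ := c <;> simp [pr]

lemma pr_ne_zero {ϱ : ℝ} {c : Ctx a} {ξ b : Bool} (h : pr ϱ c ξ ≠ 0) (hc : c.2 = some b) : ξ = b := by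
  obtain ⟨i, t⟩ := c
  simp only at hc
  subst hc
  by_contra hne
  exact h (by simp [pr, hne])

/-- For every `i` and `ξ` the total weight of the contexts `(i, t)` together with the bit `ξ`. -/
lemma kap_pr_sum (β : ℝ) (i : Fin (a + 1)) (ξ : Bool) (F : Option Bool → ℝ) :
    ∑ t : Option Bool, kap β ((i, t) : Ctx a) * pr (1 / 2) ((i, t) : Ctx a) ξ * F t =
      (β * F none + (1 - β) * F (some ξ)) / (2 * ((a : ℝ) + 1)) := by
  have ha : (a : ℝ) + 1 ≠ 0 := by positivity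
  cases ξ <;>
  · simp only [Fintype.sum_option, Fintype.sum_bool, kap, pr, if_true, reduceCtorEq, if_false,
      Bool.false_eq_true, Bool.true_eq_false]
    field_simp
    ring

/-- The step length takes each value with probability at most `1 / (a+1)`. -/
lemma stp_law {β : ℝ} (h0 : 0 ≤ β) (h1 : β ≤ 1) (j : ℕ) :
    ∑ c : Ctx a, ∑ ξ, kap β c * pr (1 / 2) c ξ * ind (stp c ξ = j) ≤ 1 / ((a : ℝ) + 1) := by
  have _ := h0
  have _ := h1
  have ha : (0 : ℝ) < (a : ℝ) + 1 := by positivity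
  have h : ∀ ξ : Bool, ∑ c : Ctx a, kap β c * pr (1 / 2) c ξ * ind (stp c ξ = j) ≤
      1 / (2 * ((a : ℝ) + 1)) := by
    intro ξ
    have h2 : ∀ i : Fin (a + 1), ∑ t : Option Bool, kap β ((i, t) : Ctx a) *
        pr (1 / 2) ((i, t) : Ctx a) ξ * ind (stp ((i, t) : Ctx a) ξ = j) =
        ind (a + i.val + ξ.toNat = j) / (2 * ((a : ℝ) + 1)) := by
      intro i
      refine (kap_pr_sum β i ξ fun _ => ind (a + i.val + ξ.toNat = j)).trans ?_
      congr 1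
      ring
    rw [Fintype.sum_prod_type]
    simp only [h2]
    rw [← Finset.sum_div]
    refine div_le_div_of_nonneg_right (walk_sum_ind_le _ _ fun i _ i' _ e e' => ?_) (by positivity)
    exact Fin.ext (by omega)
  rw [Finset.sum_comm, Fintype.sum_bool]
  have h3 : 1 / ((a : ℝ) + 1) = 1 / (2 * ((a : ℝ) + 1)) + 1 / (2 * ((a : ℝ) + 1)) := by
    field_simp
    ring
  rw [h3]
  exact add_le_add (h true) (h false)

lemma stp_ge (c : Ctx a) (ξ : Bool) : a ≤ stp c ξ := by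
  unfold stp
  omega

lemma stp_le (c : Ctx a) (ξ : Bool) : stp c ξ ≤ 2 * a + 1 := by
  unfold stp
  have h1 := c.1.isLt
  have h2 := Bool.toNat_le ξ
  omega

lemma pos_zero (s : ℕ) (c : ℕ → Ctx a) (ξ : ℕ → Bool) : pos s c ξ 0 = s := by
  simp [pos]

lemma pos_succ (s : ℕ) (c : ℕ → Ctx a) (ξ : ℕ → Bool) (r : ℕ) :
    pos s c ξ (r + 1) = pos s c ξ r + stp (c r) (ξ r) := by
  simp only [pos, Finset.sum_range_succ, add_assoc]

lemma pos_cns (s : ℕ) (c0 : Ctx a) (ξ0 : Bool) (c : ℕ → Ctx a) (ξ : ℕ → Bool) (r : ℕ) :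
    pos s (cns c0 c) (cns ξ0 ξ) (r + 1) = pos (s + stp c0 ξ0) c ξ r := by
  simp only [pos, Finset.sum_range_succ', cns]
  omega

lemma pos_add (s : ℕ) (c : ℕ → Ctx a) (ξ : ℕ → Bool) (t r : ℕ) :
    pos s c ξ (t + r) = pos (pos s c ξ t) (sh t c) (sh t ξ) r := by
  simp only [pos, Finset.sum_range_add, sh, add_assoc]

lemma pos_shift (d s : ℕ) (c : ℕ → Ctx a) (ξ : ℕ → Bool) (r : ℕ) :
    pos (d + s) c ξ r = d + pos s c ξ r := by
  simp only [pos, add_assoc]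

lemma pos_congr (s : ℕ) {c c' : ℕ → Ctx a} {ξ ξ' : ℕ → Bool} {r : ℕ} (hc : ∀ i < r, c i = c' i)
    (hξ : ∀ i < r, ξ i = ξ' i) : pos s c ξ r = pos s c' ξ' r := by
  unfold pos
  rw [Finset.sum_congr rfl fun i hi => by
    rw [hc i (mem_range.1 hi), hξ i (mem_range.1 hi)]]

lemma pos_ge (s : ℕ) (c : ℕ → Ctx a) (ξ : ℕ → Bool) {t t' : ℕ} (h : t ≤ t') :
    pos s c ξ t + a * (t' - t) ≤ pos s c ξ t' := by
  obtain ⟨d, rfl⟩ := Nat.exists_eq_add_of_le h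
  rw [Nat.add_sub_cancel_left]
  clear h
  induction d with
  | zero => simp
  | succ d ih =>
    have := stp_ge (c (t + d)) (ξ (t + d))
    rw [← add_assoc, pos_succ, mul_add, mul_one]
    omega

lemma pos_le (s : ℕ) (c : ℕ → Ctx a) (ξ : ℕ → Bool) {t t' : ℕ} (h : t ≤ t') :
    pos s c ξ t' ≤ pos s c ξ t + (2 * a + 1) * (t' - t) := by
  obtain ⟨d, rfl⟩ := Nat.exists_eq_add_of_le h
  rw [Nat.add_sub_cancel_left]
  clear h
  induction d with
  | zero => simp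
  | succ d ih =>
    have := stp_le (c (t + d)) (ξ (t + d))
    rw [← add_assoc, pos_succ, mul_add (2 * a + 1), mul_one]
    omega

lemma walk_pos_mono (s : ℕ) (c : ℕ → Ctx a) (ξ : ℕ → Bool) {t t' : ℕ} (h : t ≤ t') :
    pos s c ξ t ≤ pos s c ξ t' :=
  le_trans (Nat.le_add_right _ _) (pos_ge s c ξ h)

lemma walk_pos_ge0 (s : ℕ) (c : ℕ → Ctx a) (ξ : ℕ → Bool) (t : ℕ) : s + a * t ≤ pos s c ξ t := by
  simpa [pos_zero] using pos_ge s c ξ (Nat.zero_le t)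

lemma walk_pos_le0 (s : ℕ) (c : ℕ → Ctx a) (ξ : ℕ → Bool) (t : ℕ) :
    pos s c ξ t ≤ s + (2 * a + 1) * t := by
  simpa [pos_zero] using pos_le s c ξ (Nat.zero_le t)

lemma End.one_le {s E R : ℕ} {c : ℕ → Ctx a} {ξ : ℕ → Bool} {ℓ : Lab a} (h : End s E c ξ R ℓ) :
    1 ≤ R := by
  rcases R with _ | R
  · obtain ⟨h1, h2, -⟩ := h
    rw [Nat.zero_sub] at h1
    omega
  · omega

lemma End.congr {s E R : ℕ} {c c' : ℕ → Ctx a} {ξ ξ' : ℕ → Bool} {ℓ : Lab a}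
    (hc : ∀ i < R, c i = c' i) (hξ : ∀ i < R, ξ i = ξ' i) (h : End s E c ξ R ℓ) :
    End s E c' ξ' R ℓ := by
  have h0 := h.one_le
  obtain ⟨h1, h2, h3⟩ := h
  refine ⟨?_, ?_, ?_⟩
  · rwa [← pos_congr s (fun i hi => hc i (by omega)) (fun i hi => hξ i (by omega))]
  · rwa [← pos_congr s hc hξ]
  · rwa [← hξ _ (by omega)]

lemma End_shift (d s E R : ℕ) (c : ℕ → Ctx a) (ξ : ℕ → Bool) (ℓ : Lab a) :
    End (d + s) (d + E) c ξ R ℓ ↔ End s E c ξ R ℓ := by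
  simp only [End, pos_shift, add_lt_add_iff_left, add_assoc, add_right_inj]

lemma End.unique (ha : 1 ≤ a) {s E R R' : ℕ} {c : ℕ → Ctx a} {ξ : ℕ → Bool} {ℓ ℓ' : Lab a}
    (h : End s E c ξ R ℓ) (h' : End s E c ξ R' ℓ') : R = R' ∧ ℓ = ℓ' := by
  have _ := ha
  obtain ⟨h1, h2, h3⟩ := h
  obtain ⟨h4, h5, h6⟩ := h'
  have hR : R = R' := by
    rcases lt_trichotomy R R' with h | h | h
    · have := walk_pos_mono s c ξ (show R ≤ R' - 1 by omega)
      omega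
    · exact h
    · have := walk_pos_mono s c ξ (show R' ≤ R - 1 by omega)
      omega
  subst hR
  exact ⟨rfl, Prod.ext (Fin.ext (by omega)) (h3.symm.trans h6)⟩

lemma End_exists (ha : 1 ≤ a) {s E : ℕ} (hs : s < E) (c : ℕ → Ctx a) (ξ : ℕ → Bool) :
    ∃ R ℓ, R ≤ E - s ∧ End s E c ξ R ℓ := by
  have h1 : E ≤ pos s c ξ (E - s) := by
    have h2 := walk_pos_ge0 s c ξ (E - s)
    have h3 : E - s ≤ a * (E - s) := Nat.le_mul_of_pos_left _ ha
    omega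
  have hex : ∃ R, E ≤ pos s c ξ R := ⟨_, h1⟩
  have h2 := Nat.find_spec hex
  have h3 : Nat.find hex ≤ E - s := Nat.find_min' hex h1
  have h4 : Nat.find hex ≠ 0 := fun h => by
    rw [h, pos_zero] at h2
    omega
  obtain ⟨R, hR⟩ : ∃ R, Nat.find hex = R + 1 := ⟨Nat.find hex - 1, by omega⟩
  have h5 := not_le.1 (Nat.find_min hex (m := R) (by omega))
  rw [hR] at h2 h3
  have h6 := pos_succ s c ξ R
  have h7 := stp_le (c R) (ξ R)
  refine ⟨R + 1, (⟨pos s c ξ (R + 1) - E, by omega⟩, ξ R), h3, h5, ?_, rfl⟩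
  simp only
  omega

lemma sum_End_le (ha : 1 ≤ a) (s E N : ℕ) (c : ℕ → Ctx a) (ξ : ℕ → Bool) :
    ∑ R ∈ range (N + 1), ∑ ℓ : Lab a, ind (End s E c ξ R ℓ) ≤ 1 := by
  rw [← Finset.sum_product' (f := fun R ℓ => ind (End s E c ξ R ℓ))]
  exact walk_sum_ind_le _ (fun q : ℕ × Lab a => End s E c ξ q.1 q.2) fun _ _ _ _ h h' =>
    Prod.ext (h.unique ha h').1 (h.unique ha h').2

lemma sum_End_eq (ha : 1 ≤ a) {s E N : ℕ} (hs : s < E) (hN : E ≤ N) (c : ℕ → Ctx a) (ξ : ℕ → Bool) :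
    ∑ R ∈ range (N + 1), ∑ ℓ : Lab a, ind (End s E c ξ R ℓ) = 1 := by
  obtain ⟨R, ℓ, h1, h2⟩ := End_exists ha hs c ξ
  rw [← Finset.sum_product' (f := fun R ℓ => ind (End s E c ξ R ℓ))]
  exact walk_sum_ind_eq _ (fun q : ℕ × Lab a => End s E c ξ q.1 q.2) (fun _ _ _ _ h h' =>
    Prod.ext (h.unique ha h').1 (h.unique ha h').2) (i := (R, ℓ))
    (mem_product.2 ⟨mem_range.2 (by simp only; omega), mem_univ _⟩) h2

lemma End_cns {s E : ℕ} (hs : s < E) (ha : 1 ≤ a) (c0 : Ctx a) (ξ0 : Bool) (c : ℕ → Ctx a)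
    (ξ : ℕ → Bool) (R : ℕ) (ℓ : Lab a) :
    End s E (cns c0 c) (cns ξ0 ξ) (R + 1) ℓ ↔
      if E ≤ s + stp c0 ξ0 then R = 0 ∧ s + stp c0 ξ0 = E + ℓ.1.val ∧ ξ0 = ℓ.2
      else End (s + stp c0 ξ0) E c ξ R ℓ := by
  have _ := ha
  rcases R with _ | R
  · have h1 : End s E (cns c0 c) (cns ξ0 ξ) (0 + 1) ℓ ↔
        s + stp c0 ξ0 = E + ℓ.1.val ∧ ξ0 = ℓ.2 := by
      unfold End
      rw [pos_cns, pos_zero, Nat.add_sub_cancel, pos_zero]
      exact ⟨fun h => h.2, fun h => ⟨hs, h⟩⟩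
    rw [h1]
    split_ifs with h
    · simp
    · exact ⟨fun h' => by omega, fun h' => absurd h'.one_le (by omega)⟩
  · have h1 : End s E (cns c0 c) (cns ξ0 ξ) (R + 1 + 1) ℓ ↔
        End (s + stp c0 ξ0) E c ξ (R + 1) ℓ := by
      unfold End
      rw [pos_cns, Nat.add_sub_cancel, pos_cns, Nat.add_sub_cancel]
      rfl
    rw [h1]
    split_ifs with h
    · refine ⟨fun h' => ?_, fun h' => h'.1.elim⟩
      have h2 := h'.1
      have h3 := walk_pos_ge0 (s + stp c0 ξ0) c ξ (R + 1 - 1)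
      omega
    · rfl

lemma r0_spec (ha : 1 ≤ a) {s z : ℕ} (hs : s ≤ z) (c : ℕ → Ctx a) (ξ : ℕ → Bool) :
    pos s c ξ (r0 s c ξ z) ≤ z ∧ z < pos s c ξ (r0 s c ξ z + 1) := by
  have hne : {r | z < pos s c ξ (r + 1)}.Nonempty := by
    refine ⟨z, ?_⟩
    have h2 := walk_pos_ge0 s c ξ (z + 1)
    have h3 : z + 1 ≤ a * (z + 1) := Nat.le_mul_of_pos_left _ ha
    change z < pos s c ξ (z + 1)
    omega
  refine ⟨?_, Nat.sInf_mem hne⟩
  rcases h : r0 s c ξ z with _ | r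
  · rwa [pos_zero]
  · have h1 : r < sInf {r | z < pos s c ξ (r + 1)} := by
      unfold r0 at h
      omega
    exact not_lt.1 (Nat.notMem_of_lt_sInf (s := {r | z < pos s c ξ (r + 1)}) h1)

lemma r0_eq {s z r : ℕ} {c : ℕ → Ctx a} {ξ : ℕ → Bool} (h1 : pos s c ξ r ≤ z)
    (h2 : z < pos s c ξ (r + 1)) : r0 s c ξ z = r := by
  refine le_antisymm (Nat.sInf_le h2) (not_lt.1 fun h => ?_)
  have h3 : z < pos s c ξ (r0 s c ξ z + 1) :=
    Nat.sInf_mem (s := {r | z < pos s c ξ (r + 1)}) ⟨r, h2⟩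
  have h4 := walk_pos_mono s c ξ (show r0 s c ξ z + 1 ≤ r by omega)
  omega

lemma r0_congr (ha : 1 ≤ a) {s z R : ℕ} (hs : s ≤ z) {c c' : ℕ → Ctx a} {ξ ξ' : ℕ → Bool}
    (hc : ∀ i < R, c i = c' i) (hξ : ∀ i < R, ξ i = ξ' i) (h : r0 s c ξ z < R) :
    r0 s c' ξ' z = r0 s c ξ z := by
  obtain ⟨h1, h2⟩ := r0_spec ha hs c ξ
  refine r0_eq ?_ ?_
  · rwa [← pos_congr s (fun i hi => hc i (by omega)) (fun i hi => hξ i (by omega))]
  · rwa [← pos_congr s (fun i hi => hc i (by omega)) (fun i hi => hξ i (by omega))]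

lemma walk_LL (M K : ℕ) : K * LL a M = (2 * a + 1) * (2 * M * K) := by
  unfold LL HH
  ring

lemma walk_zz (M i : ℕ) : zz a M i = (2 * a + 1) * (2 * M * i + M) := by
  unfold zz LL HH
  ring

lemma walk_s_le {M s : ℕ} (hM : 1 ≤ M) (hs : s ≤ 2 * a + 1) (i : ℕ) : s ≤ zz a M i := by
  rw [walk_zz]
  exact hs.trans (Nat.le_mul_of_pos_right _ (by omega))

lemma End_R_le (ha : 1 ≤ a) {M K s R : ℕ} {c : ℕ → Ctx a} {ξ : ℕ → Bool} {ℓ : Lab a}
    (h : End s (K * LL a M) c ξ R ℓ) : R ≤ 6 * M * K := by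
  have h1 := h.1
  have h2 := walk_pos_ge0 s c ξ (R - 1)
  rw [walk_LL] at h1
  have h3 : (2 * a + 1) * (2 * M * K) ≤ a * (6 * M * K) := by
    calc (2 * a + 1) * (2 * M * K) ≤ (3 * a) * (2 * M * K) := Nat.mul_le_mul_right _ (by omega)
      _ = a * (6 * M * K) := by ring
  have h4 : R - 1 < 6 * M * K := Nat.lt_of_mul_lt_mul_left (a := a) (by omega)
  omega

lemma End_R_ge {M K s R : ℕ} (hs : s ≤ 2 * a + 1) {c : ℕ → Ctx a} {ξ : ℕ → Bool} {ℓ : Lab a}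
    (h : End s (K * LL a M) c ξ R ℓ) : 2 * M * K ≤ R + 1 := by
  have h1 := h.2.1
  have h2 := walk_pos_le0 s c ξ R
  rw [walk_LL] at h1
  refine Nat.le_of_mul_le_mul_left (c := 2 * a + 1) ?_ (by omega)
  rw [mul_add (2 * a + 1) R, mul_one]
  omega

lemma r0_first (ha : 1 ≤ a) {M s : ℕ} (hM : 1 ≤ M) (hs : s ≤ 2 * a + 1) (i : ℕ) (c : ℕ → Ctx a)
    (ξ : ℕ → Bool) : 2 * M * i + M ≤ r0 s c ξ (zz a M i) + 1 := by
  have h1 := (r0_spec ha (walk_s_le hM hs i) c ξ).2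
  set r := r0 s c ξ (zz a M i)
  have h2 := walk_pos_le0 s c ξ (r + 1)
  rw [walk_zz] at h1
  have h3 : 2 * M * i + M < r + 1 + 1 := by
    refine Nat.lt_of_mul_lt_mul_left (a := 2 * a + 1) ?_
    rw [mul_add (2 * a + 1) (r + 1), mul_one]
    omega
  omega

lemma r0_gap (ha : 1 ≤ a) {M s : ℕ} (hM : 1 ≤ M) (hs : s ≤ 2 * a + 1) {i i' : ℕ} (h : i ≤ i')
    (c : ℕ → Ctx a) (ξ : ℕ → Bool) :
    r0 s c ξ (zz a M i) + 2 * M * (i' - i) ≤ r0 s c ξ (zz a M i') := by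
  have h1 := (r0_spec ha (walk_s_le hM hs i) c ξ).1
  have h2 := (r0_spec ha (walk_s_le hM hs i') c ξ).2
  set r := r0 s c ξ (zz a M i)
  set r' := r0 s c ξ (zz a M i')
  obtain ⟨d, rfl⟩ := Nat.exists_eq_add_of_le h
  rw [Nat.add_sub_cancel_left]
  by_contra hlt
  have h3 := walk_pos_mono s c ξ (show r' + 1 ≤ r + 2 * M * d by omega)
  have h4 := pos_le s c ξ (Nat.le_add_right r (2 * M * d))
  rw [Nat.add_sub_cancel_left] at h4
  have h5 : zz a M (i + d) = zz a M i + (2 * a + 1) * (2 * M * d) := by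
    rw [walk_zz, walk_zz]
    ring
  omega

/-- Same bound as soon as the walk has passed the end of block `K - 1` at time `R`. -/
lemma r0_last' (ha : 1 ≤ a) {M K s R i : ℕ} (hM : 1 ≤ M) (hs : s ≤ 2 * a + 1) (hi : i < K)
    {c : ℕ → Ctx a} {ξ : ℕ → Bool} (h : K * LL a M ≤ pos s c ξ R) :
    r0 s c ξ (zz a M i) + 2 * M * (K - i) ≤ R + M := by
  have h1 := (r0_spec ha (walk_s_le hM hs i) c ξ).1
  set r := r0 s c ξ (zz a M i)
  obtain ⟨d, rfl⟩ := Nat.exists_eq_add_of_lt hi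
  obtain ⟨M', rfl⟩ := Nat.exists_eq_add_of_le hM
  have h0 : 2 * (1 + M') * (i + d + 1 - i) = 2 * (1 + M') * d + 2 * (1 + M') := by
    rw [add_assoc, Nat.add_sub_cancel_left]
    ring
  rw [h0]
  by_contra hlt
  have h3 := walk_pos_mono s c ξ (show R ≤ r + (2 * (1 + M') * d + M') by omega)
  have h4 := pos_le s c ξ (Nat.le_add_right r (2 * (1 + M') * d + M'))
  rw [Nat.add_sub_cancel_left] at h4
  have h5 : (i + d + 1) * LL a (1 + M') =
      zz a (1 + M') i + (2 * a + 1) * (2 * (1 + M') * d + M') + (2 * a + 1) := by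
    rw [walk_zz, walk_LL]
    ring
  omega

lemma r0_last (ha : 1 ≤ a) {M K s R i : ℕ} (hM : 1 ≤ M) (hs : s ≤ 2 * a + 1) (hi : i < K)
    {c : ℕ → Ctx a} {ξ : ℕ → Bool} {ℓ : Lab a} (h : End s (K * LL a M) c ξ R ℓ) :
    r0 s c ξ (zz a M i) + 2 * M * (K - i) ≤ R + M :=
  r0_last' ha hM hs hi (h.2.1 ▸ Nat.le_add_right _ _)

lemma walk_HH {M : ℕ} (k : ℕ) (hM : k ≤ M) : (2 * a + 1) * k ≤ HH a M :=
  Nat.mul_le_mul_left _ hM

lemma walk_zz_lt (M : ℕ) {i i' : ℕ} (h : i < i') : zz a M i + 2 * HH a M ≤ zz a M i' := by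
  have h1 : (i + 1) * LL a M ≤ i' * LL a M := Nat.mul_le_mul_right _ h
  rw [add_mul, one_mul] at h1
  have h2 : LL a M = 2 * HH a M := rfl
  unfold zz
  omega

lemma tauP_iff {m M : ℕ} (hm : m ≤ a) (hM : 1 ≤ M) {P : ℕ → Finset ℕ} (hP : ∀ i, P i ⊆ range m)
    (j : ℕ) : tauP a M P j = true ↔ ∃ i, ∃ g ∈ P i, j = zz a M i + g := by
  have hH := walk_HH (a := a) 1 hM
  have hL : LL a M = 2 * HH a M := rfl
  unfold tauP
  rw [decide_eq_true_iff]
  constructor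
  · rintro ⟨h1, h2⟩
    refine ⟨_, _, h2, ?_⟩
    have := Nat.div_add_mod' j (LL a M)
    unfold zz
    omega
  · rintro ⟨i, g, hg, rfl⟩
    have h1 := mem_range.1 (hP i hg)
    have h2 : zz a M i + g = HH a M + g + i * LL a M := by
      unfold zz
      omega
    have h3 : HH a M + g < LL a M := by omega
    rw [h2, Nat.add_mul_mod_self_right, Nat.mod_eq_of_lt h3,
      Nat.add_mul_div_right _ _ (by omega), Nat.div_eq_of_lt h3, zero_add,
      Nat.add_sub_cancel_left]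
    exact ⟨Nat.le_add_right _ _, hg⟩

lemma tauP_empty (M : ℕ) : tauP a M (fun _ => ∅) = fun _ => false := by
  funext j
  simp [tauP]

lemma tauP_shift {M : ℕ} (hM : 1 ≤ M) (P : ℕ → Finset ℕ) (k : ℕ) :
    sh (k * LL a M) (tauP a M P) = tauP a M (sh k P) := by
  have hH := walk_HH (a := a) 1 hM
  have hL : LL a M = 2 * HH a M := rfl
  funext j
  have h1 : (k * LL a M + j) % LL a M = j % LL a M := by
    rw [add_comm, Nat.add_mul_mod_self_right]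
  have h2 : (k * LL a M + j) / LL a M = k + j / LL a M := by
    rw [add_comm, Nat.add_mul_div_right _ _ (by omega), add_comm]
  simp only [sh, tauP, h1, h2]
  exact decide_eq_decide.2 Iff.rfl

lemma tauP_local {M K : ℕ} {P Q : ℕ → Finset ℕ} (h : ∀ i < K, P i = Q i) (j : ℕ)
    (hj : j < K * LL a M + HH a M) : tauP a M P j = tauP a M Q j := by
  unfold tauP
  rcases lt_or_ge (j / LL a M) K with h1 | h1
  · rw [h _ h1]
  · have h2 := Nat.div_add_mod' j (LL a M)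
    have h3 : K * LL a M ≤ j / LL a M * LL a M := Nat.mul_le_mul_right _ h1
    have h4 : ¬ HH a M ≤ j % LL a M := by omega
    simp only [h4, false_and]

lemma tauP_adm {m M : ℕ} (hm : m ≤ a) (hM : 1 ≤ M) {P : ℕ → Finset ℕ} (hP : ∀ i, P i ⊆ range m)
    (p : ℕ) : Adm m (dset (tauP a M P) p (2 * a + 1)) := by
  have hH := walk_HH (a := a) 1 hM
  rcases (dset (tauP a M P) p (2 * a + 1)).eq_empty_or_nonempty with h | ⟨j0, h0⟩
  · exact ⟨0, fun j hj => absurd (h ▸ hj) (notMem_empty j)⟩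
  obtain ⟨h1, h2⟩ := mem_filter.1 h0
  obtain ⟨i0, g0, h3, h4⟩ := (tauP_iff hm hM hP _).1 h2
  refine ⟨zz a M i0 - p, fun j hj => ?_⟩
  obtain ⟨h5, h6⟩ := mem_filter.1 hj
  obtain ⟨i, g, h7, h8⟩ := (tauP_iff hm hM hP _).1 h6
  have h9 := mem_range.1 (hP _ h3)
  have h10 := mem_range.1 (hP _ h7)
  rw [mem_range] at h1 h5
  rcases lt_trichotomy i i0 with h | rfl | h
  · have := walk_zz_lt (a := a) M h
    omega
  · omega
  · have := walk_zz_lt (a := a) M h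
    omega

/-- A window of at most `2a+1` sites starting within distance `2a+1` of cluster `i` sees only that cluster. -/
lemma dset_tauP {m M : ℕ} (hm : m ≤ a) (hM : 2 ≤ M) {P : ℕ → Finset ℕ} (hP : ∀ i, P i ⊆ range m)
    (i p k : ℕ) (hk : k ≤ 2 * a + 1) (h1 : zz a M i ≤ p + (2 * a + 1))
    (h2 : p ≤ zz a M i + (2 * a + 1)) :
    dset (tauP a M P) p k = pat (P i) ((zz a M i : ℤ) - p) k := by
  have hH := walk_HH (a := a) 2 hM
  unfold dset pat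
  refine filter_congr fun j hj => ?_
  rw [mem_range] at hj
  rw [tauP_iff hm (by omega) hP]
  constructor
  · rintro ⟨i', g, hg, e⟩
    have h3 := mem_range.1 (hP _ hg)
    rcases lt_trichotomy i i' with h | rfl | h
    · have := walk_zz_lt (a := a) M h
      omega
    · exact ⟨g, hg, by omega⟩
    · have := walk_zz_lt (a := a) M h
      omega
  · rintro ⟨g, hg, e⟩
    exact ⟨i, g, hg, by omega⟩

end Pool.Agent.Lib.MP_343fe0_pr
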